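import Pool.Agent.ASP87.Walk

/-!
# ASP87/Acyc: a simply connected poset of height 1 is a tree

`V` poset in which every chain has at most two elements (`h2`: of three pairwise comparable elements
two are equal). Comparability graph `CG`: `a ~ b` iff `a <> b` and comparable.

`cg_acyclic`: it suffices that every edge is a bridge
(`SimpleGraph.isAcyclic_iff_forall_isBridge` / `isAcyclic_iff_forall_edge_isBridge`). Fix an edge `a ~ b`.
For a list `l` let `N l` = (number of consecutive pairs equal to `(a,b)`) - (number of consecutive pairs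
equal to `(b,a)`) in `Int`. Moves do not change `N`: `dup` adds the pair `(p,p)`. `tri`: `p, q, s` are
pairwise comparable, so two of them are equal: `p = q` or `q = s`: one repetition is removed; `p = s`: the
pairs `(p,q), (q,p)` cancel and `(p,p)` does not count. So `N` is invariant under `EqvGen Move`. If the
edge is not a bridge there is a walk from `a` to `b` not using it; its list has `N = 0`, but the list
`[a, b]` has `N = 1`, contradicting `PSC.sc`.
`cg_preconnected`: from `PSC.conn`.
-/

namespace ASP87

variable {V : Type*} [PartialOrder V]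

/-- comparability graph -/
def CG (V : Type*) [PartialOrder V] : SimpleGraph V where
  Adj a b := a ≠ b ∧ Cmp a b
  symm := ⟨fun a b h => ⟨h.1.symm, h.2.symm⟩⟩
  loopless := ⟨fun a h => h.1 rfl⟩

private noncomputable def ind (a b x y : V) : ℤ := by
  classical
  exact (if x = a ∧ y = b then 1 else 0) - (if x = b ∧ y = a then 1 else 0)

private theorem ind_self {a b : V} (hab : a ≠ b) (x : V) : ind a b x x = 0 := by
  classical
  unfold ind
  have h1 : ¬ (x = a ∧ x = b) := fun h => hab (h.1.symm.trans h.2)
  have h2 : ¬ (x = b ∧ x = a) := fun h => hab (h.2.symm.trans h.1)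
  simp [h1, h2]

private theorem ind_swap (a b x y : V) : ind a b x y + ind a b y x = 0 := by
  classical
  unfold ind
  have e1 : (y = a ∧ x = b) ↔ (x = b ∧ y = a) := and_comm
  have e2 : (y = b ∧ x = a) ↔ (x = a ∧ y = b) := and_comm
  simp only [e1, e2]
  ring

private theorem ind_one {a b : V} (hab : a ≠ b) : ind a b a b = 1 := by
  classical
  unfold ind
  have h2 : ¬ (a = b ∧ b = a) := fun h => hab h.1
  simp [h2]

private theorem ind_zero {a b x y : V} (h : s(x, y) ≠ s(a, b)) : ind a b x y = 0 := by
  classical
  unfold ind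
  have h1 : ¬ (x = a ∧ y = b) := by
    rintro ⟨rfl, rfl⟩
    exact h rfl
  have h2 : ¬ (x = b ∧ y = a) := by
    rintro ⟨rfl, rfl⟩
    exact h Sym2.eq_swap
  simp [h1, h2]

private noncomputable def cnt (a b : V) : List V → ℤ
  | [] => 0
  | [_] => 0
  | x :: y :: r => ind a b x y + cnt a b (y :: r)

private theorem cnt_append (a b : V) (l : List V) (p : V) (r : List V) :
    cnt a b (l ++ p :: r) = cnt a b (l ++ [p]) + cnt a b (p :: r) := by
  induction l with
  | nil => simp [cnt]
  | cons x l ih =>
    cases l with
    | nil => simp [cnt]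
    | cons y l =>
      simp only [List.cons_append, cnt] at ih ⊢
      rw [ih]
      ring

private theorem cnt_move {a b : V} (hab : a ≠ b)
    (h2 : ∀ p q s : V, Cmp p q → Cmp q s → Cmp p s → p = q ∨ q = s ∨ p = s) {l l' : List V}
    (h : Move l l') : cnt a b l = cnt a b l' := by
  cases h with
  | tri l r p q s k1 k2 k3 =>
    rw [cnt_append a b l p (q :: s :: r), cnt_append a b l p (s :: r)]
    simp only [cnt]
    rcases h2 p q s k1 k2 k3 with h | h | h
    · subst h
      rw [ind_self hab]
      ring
    · subst h
      rw [ind_self hab]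
      ring
    · subst h
      have := ind_swap a b p q
      rw [ind_self hab]
      linarith
  | dup l r p =>
    rw [cnt_append a b l p (p :: r), cnt_append a b l p r]
    simp only [cnt]
    rw [ind_self hab]
    ring

private theorem cnt_eqv {a b : V} (hab : a ≠ b)
    (h2 : ∀ p q s : V, Cmp p q → Cmp q s → Cmp p s → p = q ∨ q = s ∨ p = s) {l l' : List V}
    (h : Relation.EqvGen Move l l') : cnt a b l = cnt a b l' := by
  induction h with
  | rel x y h => exact cnt_move hab h2 h
  | refl x => rfl
  | symm x y _ ih => exact ih.symm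
  | trans x y z _ _ ih1 ih2 => exact ih1.trans ih2

private theorem walk_exists {a b : V} {u v : V} (w : (CG V).Walk u v) (hw : s(a, b) ∉ w.edges) :
    ∃ l : List V, IsWalk (u :: l) ∧ (u :: l).getLast? = some v ∧ cnt a b (u :: l) = 0 := by
  induction w with
  | nil => exact ⟨[], by simp [IsWalk], by simp, by simp [cnt]⟩
  | @cons u v' w' h p ih =>
    simp only [SimpleGraph.Walk.edges_cons, List.mem_cons, not_or] at hw
    obtain ⟨l, hl1, hl2, hl3⟩ := ih hw.2
    refine ⟨v' :: l, ?_, ?_, ?_⟩
    · unfold IsWalk at hl1 ⊢
      exact List.isChain_cons_cons.2 ⟨h.2, hl1⟩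
    · rw [List.getLast?_cons_cons]
      exact hl2
    · simp only [cnt]
      rw [hl3, ind_zero (Ne.symm hw.1)]
      ring

theorem cg_acyclic (h : PSC V)
    (h2 : ∀ p q s : V, Cmp p q → Cmp q s → Cmp p s → p = q ∨ q = s ∨ p = s) :
    (CG V).IsAcyclic := by
  rw [SimpleGraph.isAcyclic_iff_forall_adj_isBridge]
  intro a b hadj
  rw [SimpleGraph.isBridge_iff_forall_walk_mem_edges]
  intro w
  by_contra hw
  obtain ⟨l, hl1, hl2, hl3⟩ := walk_exists w hw
  have hab : a ≠ b := hadj.1
  have hwalk : IsWalk (a :: [b]) := by
    unfold IsWalk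
    exact List.isChain_cons_cons.2 ⟨hadj.2, by simp⟩
  have key := h.sc a [b] l hwalk hl1 (by rw [hl2]; simp)
  have := cnt_eqv hab h2 key
  rw [hl3] at this
  simp only [cnt] at this
  rw [ind_one hab] at this
  norm_num at this

theorem cg_connected (h : PSC V) : (CG V).Preconnected := by
  intro a b
  obtain ⟨l, hl1, hl2⟩ := h.conn a b
  induction l generalizing a with
  | nil =>
    simp at hl2
    subst hl2
    exact SimpleGraph.Reachable.refl _
  | cons c l ih =>
    unfold IsWalk at hl1
    rw [List.isChain_cons_cons] at hl1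
    rw [List.getLast?_cons_cons] at hl2
    have h1 := ih c hl1.2 hl2
    by_cases hac : a = c
    · subst hac
      exact h1
    · have : (CG V).Adj a c := ⟨hac, hl1.1⟩
      exact this.reachable.trans h1

end ASP87
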