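import Pool.Agent.ASP87.Defs

/-!
# ASP87/Collar: homotopy extension for the boundary of the cube

For `x` in the cube let `rho x = max_i |2 x_i - 1|` (sup over the finite index set; 0 if `d = 0`), in
`[0,1]`, equal to 1 exactly on the boundary. For `rho x <= 1/2` put `G x = g (c + 2 (x - c))`,
`c = (1/2,...,1/2)` (coordinates `1/2 + 2 (x_i - 1/2) = 2 x_i - 1/2`, in `[0,1]` as
`|x_i - 1/2| <= 1/4`); for `rho x >= 1/2` put `G x = h (c + (x - c) / rho x, 2 (1 - rho x))`; the point
`c + (x-c)/rho x` is on the boundary. At `rho x = 1/2` both agree: `g (b) = h (b, 1)` for the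
boundary point `b`. The two pieces are closed, so `G` is continuous (`Continuous.if_le` or gluing of
`ContinuousOn` on closed sets). On the boundary `rho = 1` and `G x = h (x, 0)`.
For `d = 0` the boundary is empty and `G = g` works (then `rho = 0`, same formula).
-/

namespace ASP87

open scoped unitInterval Topology
open Set

private noncomputable def rho {d : ℕ} (x : Fin d → I) : ℝ := ‖fun i => 2 * (x i : ℝ) - 1‖

private theorem rho_cont {d : ℕ} : Continuous (rho (d := d)) := by
  unfold rho
  refine continuous_norm.comp (continuous_pi fun i => ?_)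
  exact (continuous_const.mul (continuous_subtype_val.comp (continuous_apply i))).sub
    continuous_const

private theorem abs_le_rho {d : ℕ} (x : Fin d → I) (i : Fin d) : |2 * (x i : ℝ) - 1| ≤ rho x := by
  have h := norm_le_pi_norm (fun i => 2 * (x i : ℝ) - 1) i
  exact h

private theorem rho_le_one {d : ℕ} (x : Fin d → I) : rho x ≤ 1 := by
  refine (pi_norm_le_iff_of_nonneg zero_le_one).2 fun i => ?_
  rw [Real.norm_eq_abs, abs_le]
  have h1 := (x i).2.1
  have h2 := (x i).2.2
  constructor <;> linarith

private theorem exists_rho {d : ℕ} (x : Fin d → I) (hx : 0 < rho x) :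
    ∃ i, |2 * (x i : ℝ) - 1| = rho x := by
  by_contra hcon
  push Not at hcon
  have h1 : rho x < rho x := by
    refine (pi_norm_lt_iff hx).2 fun i => ?_
    exact lt_of_le_of_ne (abs_le_rho x i) (hcon i)
  exact lt_irrefl _ h1

private theorem rho_bdry {d : ℕ} {x : Fin d → I} (hx : x ∈ Cube.boundary (Fin d)) : rho x = 1 := by
  refine le_antisymm (rho_le_one x) ?_
  obtain ⟨i, hi⟩ := hx
  refine le_trans (le_of_eq ?_) (abs_le_rho x i)
  rcases hi with hi | hi
  · rw [hi]
    simp
  · rw [hi]
    norm_num

private noncomputable def aa {d : ℕ} (x : Fin d → I) : Fin d → I :=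
  fun i => projIcc 0 1 zero_le_one (2 * (x i : ℝ) - 1 / 2)

private noncomputable def bb {d : ℕ} (x : Fin d → I) : Fin d → I :=
  fun i => projIcc 0 1 zero_le_one (1 / 2 + ((x i : ℝ) - 1 / 2) / max (rho x) (1 / 2))

private noncomputable def tt {d : ℕ} (x : Fin d → I) : I :=
  projIcc 0 1 zero_le_one (2 * (1 - rho x))

private theorem aa_cont {d : ℕ} : Continuous (aa (d := d)) := by
  refine continuous_pi fun i => continuous_projIcc.comp ?_
  exact (continuous_const.mul (continuous_subtype_val.comp (continuous_apply i))).sub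
    continuous_const

private theorem bb_cont {d : ℕ} : Continuous (bb (d := d)) := by
  refine continuous_pi fun i => continuous_projIcc.comp ?_
  refine continuous_const.add (Continuous.div ?_ (rho_cont.max continuous_const) ?_)
  · exact (continuous_subtype_val.comp (continuous_apply i)).sub continuous_const
  · intro x
    have h : (1 / 2 : ℝ) ≤ max (rho x) (1 / 2) := le_max_right _ _
    intro h0
    rw [h0] at h
    norm_num at h

private theorem tt_cont {d : ℕ} : Continuous (tt (d := d)) :=
  continuous_projIcc.comp (continuous_const.mul (continuous_const.sub rho_cont))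

private theorem bb_bdry {d : ℕ} {x : Fin d → I} (hx : 1 / 2 ≤ rho x) :
    bb x ∈ Cube.boundary (Fin d) := by
  have hpos : 0 < rho x := by linarith
  obtain ⟨i, hi⟩ := exists_rho x hpos
  have hm : max (rho x) (1 / 2) = rho x := max_eq_left hx
  refine ⟨i, ?_⟩
  rcases abs_cases (2 * (x i : ℝ) - 1) with ⟨h1, h2⟩ | ⟨h1, h2⟩
  · right
    unfold bb
    rw [hm]
    have h3 : (1 / 2 : ℝ) + ((x i : ℝ) - 1 / 2) / rho x = 1 := by
      have h4 : (x i : ℝ) - 1 / 2 = rho x / 2 := by linarith
      rw [h4]
      field_simp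
      norm_num
    rw [h3]
    exact projIcc_of_right_le _ le_rfl
  · left
    unfold bb
    rw [hm]
    have h3 : (1 / 2 : ℝ) + ((x i : ℝ) - 1 / 2) / rho x = 0 := by
      have h4 : (x i : ℝ) - 1 / 2 = -(rho x / 2) := by linarith
      rw [h4]
      field_simp
      norm_num
    rw [h3]
    exact projIcc_of_le_left _ le_rfl

private theorem bb_eq {d : ℕ} {x : Fin d → I} (hx : x ∈ Cube.boundary (Fin d)) : bb x = x := by
  funext i
  unfold bb
  rw [rho_bdry hx]
  have h3 : (1 / 2 : ℝ) + ((x i : ℝ) - 1 / 2) / max 1 (1 / 2) = (x i : ℝ) := by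
    rw [max_eq_left (by norm_num)]
    ring
  rw [h3]
  exact projIcc_val _ (x i)

private theorem tt_eq {d : ℕ} {x : Fin d → I} (hx : x ∈ Cube.boundary (Fin d)) : tt x = 0 := by
  unfold tt
  rw [rho_bdry hx]
  have h3 : (2 * (1 - 1) : ℝ) = 0 := by norm_num
  rw [h3]
  exact projIcc_of_le_left _ le_rfl

theorem collar {d : ℕ} {Y : Type*} [TopologicalSpace Y] (h : (Fin d → I) × I → Y)
    (hc : ContinuousOn h (Cube.boundary (Fin d) ×ˢ univ))
    (g : (Fin d → I) → Y) (hg : Continuous g)
    (hgb : ∀ x ∈ Cube.boundary (Fin d), g x = h (x, 1)) :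
    ∃ G : (Fin d → I) → Y, Continuous G ∧ (∀ x ∈ Cube.boundary (Fin d), G x = h (x, 0)) ∧
      ∀ x, G x ∈ range g ∨ ∃ z ∈ Cube.boundary (Fin d), ∃ t, G x = h (z, t) := by
  classical
  refine ⟨fun x => if rho x ≤ 1 / 2 then g (aa x) else h (bb x, tt x), ?_, ?_, ?_⟩
  · refine continuous_if ?_ ?_ ?_
    · intro x hx
      have hx' : rho x = 1 / 2 := frontier_le_subset_eq rho_cont continuous_const hx
      have h1 : bb x = aa x := by
        funext i
        unfold bb aa
        rw [hx', max_self]
        congr 1
        ring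
      have h2 : tt x = 1 := by
        unfold tt
        rw [hx']
        have h3 : (2 * (1 - 1 / 2) : ℝ) = 1 := by norm_num
        rw [h3]
        exact projIcc_of_right_le _ le_rfl
      rw [h2, h1]
      refine hgb (aa x) ?_
      rw [← h1]
      exact bb_bdry (le_of_eq hx'.symm)
    · exact (hg.comp aa_cont).continuousOn
    · refine ContinuousOn.comp (g := h) hc (bb_cont.prodMk tt_cont).continuousOn ?_
      intro x hx
      refine ⟨?_, mem_univ _⟩
      refine bb_bdry ?_
      have h4 : x ∈ closure {x : Fin d → I | 1 / 2 < rho x} := by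
        refine closure_mono ?_ hx
        intro y hy
        exact not_le.1 hy
      exact closure_lt_subset_le continuous_const rho_cont h4
  · intro x hx
    have h5 : ¬ rho x ≤ 1 / 2 := by
      rw [rho_bdry hx]
      norm_num
    change (if rho x ≤ 1 / 2 then g (aa x) else h (bb x, tt x)) = h (x, 0)
    rw [if_neg h5, bb_eq hx, tt_eq hx]
  · intro x
    by_cases h6 : rho x ≤ 1 / 2
    · left
      refine ⟨aa x, ?_⟩
      change _ = (if rho x ≤ 1 / 2 then g (aa x) else h (bb x, tt x))
      rw [if_pos h6]
    · right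
      refine ⟨bb x, bb_bdry (not_le.1 h6).le, tt x, ?_⟩
      change (if rho x ≤ 1 / 2 then g (aa x) else h (bb x, tt x)) = _
      rw [if_neg h6]

end ASP87
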