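import Pool.Agent.ASP87.ExtBasic
import Pool.Agent.ASP87.Collar

/-!
# ASP87/Dom: homotopy domination

`ext_dom`: given `f` on the boundary of the cube with values in `Y`, extend `r o f` to `g` (Ext d X).
Apply `collar` with `h (x,t) = H (f x, t)` (continuous on boundary x I) and `j o g`, which agrees with
`j (r (f x)) = H (f x, 1)` on the boundary; at `t = 0` one gets `f`.
`ext_contractible`: a contractible space is dominated by a point: there are a point `y0` and a
homotopy `H : Y x I -> Y` from the identity to the constant `y0` (`ContractibleSpace`,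
`id_nullhomotopic`); `Ext d Unit` is trivial (constant map).
`ext_homotopyEquiv`: the homotopy `e.right_inv : (f o g) ~ id` (reverse it).
`wc_contractible`, `wc_homotopyEquiv`: consequences.
-/

namespace ASP87

open scoped unitInterval Topology
open Set

theorem ext_dom {X Y : Type*} [TopologicalSpace X] [TopologicalSpace Y] {d : ℕ}
    (j : X → Y) (hj : Continuous j) (r : Y → X) (hr : Continuous r) (H : Y × I → Y)
    (hH : Continuous H) (H0 : ∀ y, H (y, 0) = y) (H1 : ∀ y, H (y, 1) = j (r y))
    (h : Ext d X) : Ext d Y := by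
  intro f hf
  obtain ⟨g, hg, hgf⟩ := h (fun x => r (f x)) (hr.comp_continuousOn hf)
  have hc : ContinuousOn (fun z : (Fin d → I) × I => H (f z.1, z.2))
      (Cube.boundary (Fin d) ×ˢ univ) := by
    apply hH.comp_continuousOn
    apply ContinuousOn.prodMk
    · exact hf.comp continuousOn_fst (fun z hz => hz.1)
    · exact continuousOn_snd
  obtain ⟨G, hG, hGb, _⟩ := collar (fun z : (Fin d → I) × I => H (f z.1, z.2)) hc
    (fun x => j (g x)) (hj.comp hg) (by
      intro x hx
      simp only
      rw [H1, hgf x hx])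
  refine ⟨G, hG, ?_⟩
  intro x hx
  rw [hGb x hx]
  exact H0 (f x)

theorem ext_contractible (Y : Type*) [TopologicalSpace Y] [ContractibleSpace Y] (d : ℕ) :
    Ext d Y := by
  obtain ⟨y0, ⟨F⟩⟩ := id_nullhomotopic Y
  refine ext_dom (X := Unit) (fun _ => y0) continuous_const (fun _ => ()) continuous_const
    (fun z => F (z.2, z.1)) ?_ ?_ ?_ ?_
  · exact F.continuous.comp (continuous_snd.prodMk continuous_fst)
  · intro y
    simp
  · intro y
    simp
  · intro f _
    exact ⟨fun _ => (), continuous_const, fun _ _ => rfl⟩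

theorem wc_contractible (Y : Type*) [TopologicalSpace Y] [ContractibleSpace Y] : WC Y := by
  refine ⟨?_, fun d => ext_contractible Y d⟩
  obtain ⟨y0, _⟩ := id_nullhomotopic Y
  exact ⟨y0⟩

theorem ext_homotopyEquiv {X Y : Type*} [TopologicalSpace X] [TopologicalSpace Y]
    (e : ContinuousMap.HomotopyEquiv X Y) {d : ℕ} (h : Ext d X) : Ext d Y := by
  obtain ⟨F⟩ := e.right_inv.symm
  refine ext_dom e.toFun e.toFun.continuous e.invFun e.invFun.continuous
    (fun z => F (z.2, z.1)) ?_ ?_ ?_ h
  · exact F.continuous.comp (continuous_snd.prodMk continuous_fst)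
  · intro y
    simp
  · intro y
    simp

theorem wc_dom {X Y : Type*} [TopologicalSpace X] [TopologicalSpace Y]
    (j : X → Y) (hj : Continuous j) (r : Y → X) (hr : Continuous r) (H : Y × I → Y)
    (hH : Continuous H) (H0 : ∀ y, H (y, 0) = y) (H1 : ∀ y, H (y, 1) = j (r y))
    (h : WC X) : WC Y := by
  obtain ⟨⟨x0⟩, hx⟩ := h
  exact ⟨⟨j x0⟩, fun d => ext_dom j hj r hr H hH H0 H1 (hx d)⟩

end ASP87
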