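import Pool.Agent.ASP87.Spaces

/-!
# ASP87/Surj: points with prescribed positions and labels; labels along paths

`sep_surj`: `y0` given with `(c1, c2)` in the region where `sepLab` makes sense; for a new position
`q` (satisfying the same half plane conditions and different from the special points for the cone
indices) there is a point `y` with positions `q` and the same labels. Construction: `s1 m` for
`i1 <> some m`: `act (w1 m) (lab ..(y0)) (rt (w1 m) (LL (e m) (x m) q.1))`; `bw` of it is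
`1 * exp (LL ..) = q.1 - x m` (`bw_act`, `bw_lab` with `bw (w1 m) (s1 y0 m) = c1 y0 - x m = exp (LL ..)`, `bw_rt`,
`exp_LL`); the label is the old one by `lab_act`. For `i1 = some m`: any `s` with
`bw (w1 m) s = q.1 - x m` (exists as `q.1 <> x m`: logarithm, or a root: `IsAlgClosed.exists_pow_nat_eq`).
The same for `s2`. `l = (ll y0 - LU u (c2 y0 - c1 y0)) + LU u (q.2 - q.1)`: `exp` of the first bracket is 1.
`dia_surj`: the same with `l` prescribed (`exp l = q.2 - q.1`).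
`lab1_joined`: let `p : Z -> YS` be continuous, `P` a path in `Z` on which `Re (conj e (x m - c1)) > 0`:
`lab_const` on the image of the interval (or on the interval itself, preconnected).
`lab2_joined`: the same for particle 2.
-/

namespace ASP87

open Complex Topology Set ComplexConjugate

variable {ι : Type*} {D : Set ℂ} {x : ι → ℂ} {w1 w2 : ι → ℕ}

private theorem lift_lab {w : ℕ} {e x c c' s : ℂ} (he : ‖e‖ = 1)
    (h : 0 < (conj e * (x - c)).re) (h' : 0 < (conj e * (x - c')).re) (hs : bw w s = c - x) :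
    ∃ s', bw w s' = c' - x ∧
      lab w s' (rt w (LL e x c')) = lab w s (rt w (LL e x c)) := by
  refine ⟨act w (lab w s (rt w (LL e x c))) (rt w (LL e x c')), ?_, lab_act _ _ _⟩
  rw [bw_act, bw_lab (by rw [exp_LL he h, hs]), bw_rt, exp_LL he h', one_mul]

private theorem ex_root (w : ℕ) {z : ℂ} (hz : z ≠ 0) : ∃ s, bw w s = z := by
  rcases eq_or_ne w 0 with rfl | hw
  · exact ⟨log z, by simp [bw, exp_log hz]⟩
  · obtain ⟨s, hs⟩ := IsAlgClosed.exists_pow_nat_eq z (Nat.pos_of_ne_zero hw)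
    exact ⟨s, by simp [bw, hw, hs]⟩

theorem sep_surj [DecidableEq ι] (e : ι → ℂ) (he : ∀ m, ‖e m‖ = 1) (u : ℂ) (hu : ‖u‖ = 1)
    (i1 i2 : Option ι) (y0 : YS D x w1 w2)
    (h1 : ∀ m, i1 ≠ some m → 0 < (conj (e m) * (x m - c1 y0)).re)
    (h2 : ∀ m, i2 ≠ some m → 0 < (conj (e m) * (x m - c2 y0)).re)
    (h3 : 0 < (conj u * (c2 y0 - c1 y0)).re) (q : ℂ × ℂ) (hq1 : q.1 ∈ D) (hq2 : q.2 ∈ D)
    (k1 : ∀ m, i1 ≠ some m → 0 < (conj (e m) * (x m - q.1)).re)
    (k2 : ∀ m, i2 ≠ some m → 0 < (conj (e m) * (x m - q.2)).re)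
    (k3 : 0 < (conj u * (q.2 - q.1)).re) (n1 : ∀ m, i1 = some m → q.1 ≠ x m)
    (n2 : ∀ m, i2 = some m → q.2 ≠ x m) :
    ∃ y : YS D x w1 w2, c1 y = q.1 ∧ c2 y = q.2 ∧ sepLab e u i1 i2 y = sepLab e u i1 i2 y0 := by
  have A1 : ∀ m, ∃ s', bw (w1 m) s' = q.1 - x m ∧ (i1 ≠ some m →
      lab (w1 m) s' (rt (w1 m) (LL (e m) (x m) q.1)) =
        lab (w1 m) (s1 y0 m) (rt (w1 m) (LL (e m) (x m) (c1 y0)))) := by
    intro m
    by_cases hm : i1 = some m
    · obtain ⟨s', hs'⟩ := ex_root (w1 m) (sub_ne_zero.2 (n1 m hm))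
      exact ⟨s', hs', fun h => absurd hm h⟩
    · obtain ⟨s', hs', hl⟩ := lift_lab (w := w1 m) (s := s1 y0 m) (he m) (h1 m hm) (k1 m hm)
        (y0.2.2.2.1 m)
      exact ⟨s', hs', fun _ => hl⟩
  have A2 : ∀ m, ∃ s', bw (w2 m) s' = q.2 - x m ∧ (i2 ≠ some m →
      lab (w2 m) s' (rt (w2 m) (LL (e m) (x m) q.2)) =
        lab (w2 m) (s2 y0 m) (rt (w2 m) (LL (e m) (x m) (c2 y0)))) := by
    intro m
    by_cases hm : i2 = some m
    · obtain ⟨s', hs'⟩ := ex_root (w2 m) (sub_ne_zero.2 (n2 m hm))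
      exact ⟨s', hs', fun h => absurd hm h⟩
    · obtain ⟨s', hs', hl⟩ := lift_lab (w := w2 m) (s := s2 y0 m) (he m) (h2 m hm) (k2 m hm)
        (y0.2.2.2.2.1 m)
      exact ⟨s', hs', fun _ => hl⟩
  choose f1 hf1 hl1 using A1
  choose f2 hf2 hl2 using A2
  have hl : exp (ll y0) = c2 y0 - c1 y0 := y0.2.2.2.2.2
  have hne : c2 y0 - c1 y0 ≠ 0 := by rw [← hl]; exact exp_ne_zero _
  have hexp : exp ((ll y0 - LU u (c2 y0 - c1 y0)) + LU u (q.2 - q.1)) = q.2 - q.1 := by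
    rw [exp_add, exp_sub, exp_LU hu h3, exp_LU hu k3, hl, div_self hne, one_mul]
  refine ⟨⟨(q.1, q.2, f1, f2, (ll y0 - LU u (c2 y0 - c1 y0)) + LU u (q.2 - q.1)),
    hq1, hq2, hf1, hf2, hexp⟩, rfl, rfl, ?_⟩
  unfold sepLab
  refine Prod.ext ?_ (Prod.ext ?_ ?_)
  · funext m
    by_cases hm : i1 = some m
    · simp [hm]
    · simp only [hm, if_false]
      exact hl1 m hm
  · funext m
    by_cases hm : i2 = some m
    · simp [hm]
    · simp only [hm, if_false]
      exact hl2 m hm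
  · show (ll y0 - LU u (c2 y0 - c1 y0)) + LU u (q.2 - q.1) - LU u (q.2 - q.1) =
      ll y0 - LU u (c2 y0 - c1 y0)
    ring

theorem dia_surj (e : ι → ℂ) (he : ∀ m, ‖e m‖ = 1) (y0 : YS D x w1 w2)
    (h1 : ∀ m, 0 < (conj (e m) * (x m - c1 y0)).re)
    (h2 : ∀ m, 0 < (conj (e m) * (x m - c2 y0)).re) (q : ℂ × ℂ) (hq1 : q.1 ∈ D)
    (hq2 : q.2 ∈ D) (k1 : ∀ m, 0 < (conj (e m) * (x m - q.1)).re)
    (k2 : ∀ m, 0 < (conj (e m) * (x m - q.2)).re) (l : ℂ) (hl : exp l = q.2 - q.1) :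
    ∃ y : YS D x w1 w2, c1 y = q.1 ∧ c2 y = q.2 ∧ ll y = l ∧ diaLab e y = diaLab e y0 := by
  have A1 : ∀ m, ∃ s', bw (w1 m) s' = q.1 - x m ∧
      lab (w1 m) s' (rt (w1 m) (LL (e m) (x m) q.1)) =
        lab (w1 m) (s1 y0 m) (rt (w1 m) (LL (e m) (x m) (c1 y0))) := fun m =>
    lift_lab (w := w1 m) (s := s1 y0 m) (he m) (h1 m) (k1 m) (y0.2.2.2.1 m)
  have A2 : ∀ m, ∃ s', bw (w2 m) s' = q.2 - x m ∧
      lab (w2 m) s' (rt (w2 m) (LL (e m) (x m) q.2)) =
        lab (w2 m) (s2 y0 m) (rt (w2 m) (LL (e m) (x m) (c2 y0))) := fun m =>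
    lift_lab (w := w2 m) (s := s2 y0 m) (he m) (h2 m) (k2 m) (y0.2.2.2.2.1 m)
  choose f1 hf1 hl1 using A1
  choose f2 hf2 hl2 using A2
  refine ⟨⟨(q.1, q.2, f1, f2, l), hq1, hq2, hf1, hf2, hl⟩, rfl, rfl, rfl, ?_⟩
  unfold diaLab
  refine Prod.ext ?_ ?_
  · funext m
    exact hl1 m
  · funext m
    exact hl2 m

private theorem joined_aux {Z : Type*} [TopologicalSpace Z] {e xm : ℂ} (he : ‖e‖ = 1) {w : ℕ}
    {F : Set Z} (c s : Z → ℂ) (hc : Continuous c) (hs : Continuous s)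
    (hbw : ∀ z, bw w (s z) = c z - xm) (hF : ∀ z ∈ F, 0 < (conj e * (xm - c z)).re) {z z' : Z}
    (h : JoinedIn F z z') :
    lab w (s z) (rt w (LL e xm (c z))) = lab w (s z') (rt w (LL e xm (c z'))) := by
  obtain ⟨g, hg⟩ := h
  have hS : IsPreconnected (Set.range g) := isPreconnected_range g.continuous
  have hsub : ∀ y ∈ Set.range g, y ∈ F := by
    rintro y ⟨t, rfl⟩
    exact hg t
  refine lab_const hS w s (fun z => LL e xm (c z)) hs.continuousOn ?_ ?_ z ?_ z' ?_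
  · refine (LL_continuousOn e xm).comp hc.continuousOn ?_
    intro y hy
    exact hF y (hsub y hy)
  · intro y hy
    rw [exp_LL he (hF y (hsub y hy)), hbw]
  · exact ⟨0, g.source⟩
  · exact ⟨1, g.target⟩

theorem lab1_joined {Z : Type*} [TopologicalSpace Z] {p : Z → YS D x w1 w2}
    (hp : Continuous p) {e : ℂ} (he : ‖e‖ = 1) {m : ι} {F : Set Z}
    (hF : ∀ z ∈ F, 0 < (conj e * (x m - c1 (p z))).re) {z z' : Z} (h : JoinedIn F z z') :
    lab (w1 m) (s1 (p z) m) (rt (w1 m) (LL e (x m) (c1 (p z)))) =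
      lab (w1 m) (s1 (p z') m) (rt (w1 m) (LL e (x m) (c1 (p z')))) := by
  refine joined_aux he (fun z => c1 (p z)) (fun z => s1 (p z) m) ?_ ?_ ?_ hF h
  · exact (continuous_fst.comp continuous_subtype_val).comp hp
  · exact ((continuous_apply m).comp ((continuous_fst.comp (continuous_snd.comp
      continuous_snd)).comp continuous_subtype_val)).comp hp
  · intro z
    exact (p z).2.2.2.1 m

theorem lab2_joined {Z : Type*} [TopologicalSpace Z] {p : Z → YS D x w1 w2}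
    (hp : Continuous p) {e : ℂ} (he : ‖e‖ = 1) {m : ι} {F : Set Z}
    (hF : ∀ z ∈ F, 0 < (conj e * (x m - c2 (p z))).re) {z z' : Z} (h : JoinedIn F z z') :
    lab (w2 m) (s2 (p z) m) (rt (w2 m) (LL e (x m) (c2 (p z)))) =
      lab (w2 m) (s2 (p z') m) (rt (w2 m) (LL e (x m) (c2 (p z')))) := by
  refine joined_aux he (fun z => c2 (p z)) (fun z => s2 (p z) m) ?_ ?_ ?_ hF h
  · exact ((continuous_fst.comp continuous_snd).comp continuous_subtype_val).comp hp
  · exact ((continuous_apply m).comp ((continuous_fst.comp (continuous_snd.comp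
      (continuous_snd.comp continuous_snd))).comp continuous_subtype_val)).comp hp
  · intro z
    exact (p z).2.2.2.2.1 m

end ASP87
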