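import Pool.Agent.ASP87.Defs

/-!
# ASP87/Box: the open box (all faces but one) is a retract of the cube

Write a point of `Fin (d+1) -> I` as `(t, x)`, `t = z 0`, `x = tail`. The box
`J = {z : z 0 = 0 or some tail coordinate is 0 or 1}`; the missing face is `z 0 = 1`. The boundary of the
`(d+1)`-cube is `J union {z 0 = 1}`, and `J inter {z 0 = 1} = {z 0 = 1, tail in boundary}`.

`box_retract`: retraction `r` of the cube onto `J`: central projection from the point
`P = (2, 1/2, ..., 1/2)` above the top face. Explicitly: let `c = 1/2`; for `z = (t, x)` the ray from `P`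
through `z` is `P + s (z - P)`, `s >= 1`: coordinates `2 - s (2 - t)` and `c + s (x_i - c)`. Let
`m = max_i |2 x_i - 1|` (0 if `d = 0`); the ray reaches `J` at `s = 2/(2-t)` (bottom `t = 0`) or at
`s = 1/m` (side), whichever is smaller; `s = 1 / max (m, (2-t)/2)`, and `(2-t)/2 >= 1/2 > 0`, so `s` is
continuous in `z`; `1 <= s` because `m <= 1` and `(2-t)/2 <= 1`. `r z = (2 - s (2-t), c + s (x_i - c))`:
coordinates in `[0,1]`: `0 <= 2 - s(2-t)` as `s (2-t) <= 2`, and `2 - s (2-t) <= 2 - (2-t) = t <= 1`;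
`|s (x_i - c)| <= 1/2`. `r z in J` (one of the two bounds is attained; if `max = m` and `m = max` attained
at `i`, then the coordinate `i` is 0 or 1; if `m = 0` the max is `(2-t)/2`). `r z = z` for `z in J`
(there the max is 1, as `m = 1` or `t = 0`).
-/

namespace ASP87

open scoped unitInterval Topology
open Set

/-- the box: all faces of the cube except `z 0 = 1` -/
def BoxJ (d : ℕ) : Set (Fin (d + 1) → I) :=
  {z | z 0 = 0 ∨ (fun i : Fin d => z i.succ) ∈ Cube.boundary (Fin d)}

theorem boundary_eq_box (d : ℕ) :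
    Cube.boundary (Fin (d + 1)) = BoxJ d ∪ {z | z 0 = 1} := by
  ext z
  constructor
  · rintro ⟨i, hi⟩
    refine Fin.cases (fun h => ?_) (fun j h => ?_) i hi
    · rcases h with h | h
      · exact Or.inl (Or.inl h)
      · exact Or.inr h
    · exact Or.inl (Or.inr ⟨j, h⟩)
  · rintro ((h | ⟨j, h⟩) | h)
    · exact ⟨0, Or.inl h⟩
    · exact ⟨j.succ, h⟩
    · exact ⟨0, Or.inr h⟩

private noncomputable def tl {d : ℕ} (z : Fin (d + 1) → I) : Fin d → ℝ :=
  fun i => 2 * (z i.succ : ℝ) - 1

private noncomputable def DD {d : ℕ} (z : Fin (d + 1) → I) : ℝ :=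
  max ‖tl z‖ ((2 - (z 0 : ℝ)) / 2)

private theorem tl_cont (d : ℕ) : Continuous (tl (d := d)) := by
  unfold tl
  fun_prop

private theorem DD_cont (d : ℕ) : Continuous (DD (d := d)) := by
  unfold DD
  exact (tl_cont d).norm.max (by fun_prop)

private theorem DD_pos {d : ℕ} (z : Fin (d + 1) → I) : 0 < DD z := by
  have h1 : (z 0 : ℝ) ≤ 1 := (z 0).2.2
  exact lt_of_lt_of_le (by linarith) (le_max_right _ _)

private theorem tl_le {d : ℕ} (z : Fin (d + 1) → I) : ‖tl z‖ ≤ 1 := by
  rw [pi_norm_le_iff_of_nonneg zero_le_one]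
  intro i
  have h1 : (z i.succ : ℝ) ≤ 1 := (z i.succ).2.2
  have h0 : 0 ≤ (z i.succ : ℝ) := (z i.succ).2.1
  rw [Real.norm_eq_abs, abs_le, tl]
  constructor <;> linarith

private noncomputable def rr {d : ℕ} (z : Fin (d + 1) → I) : Fin (d + 1) → I :=
  fun i => Set.projIcc (0 : ℝ) 1 zero_le_one
    (Fin.cases (motive := fun _ => ℝ) (2 - (2 - (z 0 : ℝ)) / DD z)
      (fun j => 1 / 2 + ((z j.succ : ℝ) - 1 / 2) / DD z) i)

private theorem rr_cont (d : ℕ) : Continuous (rr (d := d)) := by
  refine continuous_pi (fun i => ?_)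
  refine continuous_projIcc.comp ?_
  refine Fin.cases ?_ (fun j => ?_) i
  · show Continuous (fun z : Fin (d + 1) → I => 2 - (2 - (z 0 : ℝ)) / DD z)
    exact continuous_const.sub ((by fun_prop : Continuous (fun z : Fin (d + 1) → I =>
      2 - (z 0 : ℝ))).div (DD_cont d) (fun z => (DD_pos z).ne'))
  · show Continuous (fun z : Fin (d + 1) → I => 1 / 2 + ((z j.succ : ℝ) - 1 / 2) / DD z)
    exact continuous_const.add ((by fun_prop : Continuous (fun z : Fin (d + 1) → I =>
      (z j.succ : ℝ) - 1 / 2)).div (DD_cont d) (fun z => (DD_pos z).ne'))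

private theorem proj0 : Set.projIcc (0 : ℝ) 1 zero_le_one 0 = (0 : I) :=
  Set.projIcc_of_le_left _ le_rfl

private theorem proj1 : Set.projIcc (0 : ℝ) 1 zero_le_one 1 = (1 : I) :=
  Set.projIcc_of_right_le _ le_rfl

private theorem rr_zero {d : ℕ} (z : Fin (d + 1) → I) :
    rr z 0 = Set.projIcc (0 : ℝ) 1 zero_le_one (2 - (2 - (z 0 : ℝ)) / DD z) := rfl

private theorem rr_succ {d : ℕ} (z : Fin (d + 1) → I) (j : Fin d) :
    rr z j.succ = Set.projIcc (0 : ℝ) 1 zero_le_one
      (1 / 2 + ((z j.succ : ℝ) - 1 / 2) / DD z) := rfl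

theorem box_retract (d : ℕ) : ∃ r : (Fin (d + 1) → I) → (Fin (d + 1) → I), Continuous r ∧
    (∀ z, r z ∈ BoxJ d) ∧ ∀ z ∈ BoxJ d, r z = z := by
  refine ⟨rr, rr_cont d, ?_, ?_⟩
  · intro z
    have hD := DD_pos z
    rcases le_total ‖tl z‖ ((2 - (z 0 : ℝ)) / 2) with h | h
    · left
      have h1 : DD z = (2 - (z 0 : ℝ)) / 2 := max_eq_right h
      have h2 : (2 - (z 0 : ℝ)) / DD z = 2 := by
        rw [div_eq_iff hD.ne', h1]
        ring
      rw [rr_zero, h2, sub_self]
      exact proj0
    · right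
      have h1 : DD z = ‖tl z‖ := max_eq_left h
      have hex : ∃ i, ‖tl z i‖ = ‖tl z‖ := by
        by_contra hcon
        push Not at hcon
        have h2 : ‖tl z‖ < ‖tl z‖ := by
          rw [pi_norm_lt_iff (h1 ▸ hD)]
          exact fun i => lt_of_le_of_ne (norm_le_pi_norm _ i) (hcon i)
        exact lt_irrefl _ h2
      obtain ⟨i, hi⟩ := hex
      refine ⟨i, ?_⟩
      show rr z i.succ = 0 ∨ rr z i.succ = 1
      rw [rr_succ]
      rw [← h1, Real.norm_eq_abs, tl] at hi
      rcases abs_eq hD.le |>.1 hi with h3 | h3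
      · right
        have h4 : 1 / 2 + ((z i.succ : ℝ) - 1 / 2) / DD z = 1 := by
          have h5 : ((z i.succ : ℝ) - 1 / 2) / DD z = 1 / 2 := by
            rw [div_eq_iff hD.ne', ← h3]
            ring
          rw [h5]
          norm_num
        rw [h4]
        exact proj1
      · left
        have h4 : 1 / 2 + ((z i.succ : ℝ) - 1 / 2) / DD z = 0 := by
          have h5 : ((z i.succ : ℝ) - 1 / 2) / DD z = -(1 / 2) := by
            rw [div_eq_iff hD.ne']
            have h6 : DD z = -(2 * (z i.succ : ℝ) - 1) := by rw [h3, neg_neg]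
            rw [h6]
            ring
          rw [h5]
          norm_num
        rw [h4]
        exact proj0
  · intro z hz
    have h0 : 0 ≤ (z 0 : ℝ) := (z 0).2.1
    have hD : DD z = 1 := by
      refine le_antisymm (max_le (tl_le z) (by linarith)) ?_
      rcases hz with hz | ⟨i, hi⟩
      · refine le_max_of_le_right ?_
        rw [hz]
        simp
      · refine le_max_of_le_left ?_
        refine le_trans ?_ (norm_le_pi_norm (tl z) i)
        rw [Real.norm_eq_abs, tl]
        have hi' : z i.succ = 0 ∨ z i.succ = 1 := hi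
        rcases hi' with hi' | hi'
        · rw [hi']
          norm_num
        · rw [hi']
          norm_num
    funext i
    refine Fin.cases ?_ (fun j => ?_) i
    · rw [rr_zero, hD, div_one, sub_sub_cancel]
      exact Set.projIcc_val _ _
    · rw [rr_succ, hD, div_one, add_sub_cancel]
      exact Set.projIcc_val _ _

end ASP87
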