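import Pool.Agent.ASP87.Defs

/-!
# ASP87/ExtBasic: first properties of `Ext`

`ext_zero`: the boundary of the 0-cube is empty, the 0-cube is a point: take `g = f` (every function
on a subsingleton space is continuous).
`ext_homeo`: compose with the homeomorphism and its inverse.
`ext_prod`, `ext_pi`: extend the components.
`ext_fintype`: reindex by `Fintype.equivFin` (the homeomorphism `(N -> I) = (Fin d -> I)` given by
`Homeomorph.piCongrLeft` or by `fun x i => x (e i)`; it maps the boundary to the boundary).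
`ext_set`: a map with values in the subset `s`: choose a point `s0` of `s` and apply `Ext d s` to
`x => if h : f x in s then <f x, h> else s0`, which is continuous on the boundary
(`ContinuousOn` into a subtype: `continuousOn_iff_continuous_restrict` and `Continuous.subtype_mk`,
or `Topology.IsInducing.continuousOn_iff`).
`ext_of_set`: the converse.
`ext_retract`: if `r o j = id` with `j : Y -> X`, `r : X -> Y` continuous, `Ext d X` gives `Ext d Y`:
extend `j o f`, compose with `r`.
-/

namespace ASP87

open scoped unitInterval Topology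
open Set

theorem ext_zero (Y : Type*) [TopologicalSpace Y] : Ext 0 Y := by
  intro f _
  exact ⟨f, continuous_of_const (fun x y => by rw [Subsingleton.elim x y]), fun x _ => rfl⟩

theorem ext_homeo {X Y : Type*} [TopologicalSpace X] [TopologicalSpace Y] (e : X ≃ₜ Y) {d : ℕ}
    (h : Ext d X) : Ext d Y := by
  intro f hf
  obtain ⟨g, hg, hgf⟩ := h (fun x => e.symm (f x)) (e.symm.continuous.comp_continuousOn hf)
  refine ⟨fun x => e (g x), e.continuous.comp hg, fun x hx => ?_⟩
  show e (g x) = f x
  rw [hgf x hx, e.apply_symm_apply]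

theorem ext_prod {X Y : Type*} [TopologicalSpace X] [TopologicalSpace Y] {d : ℕ}
    (hX : Ext d X) (hY : Ext d Y) : Ext d (X × Y) := by
  intro f hf
  obtain ⟨g1, hg1, hgf1⟩ := hX (fun x => (f x).1) (continuous_fst.comp_continuousOn hf)
  obtain ⟨g2, hg2, hgf2⟩ := hY (fun x => (f x).2) (continuous_snd.comp_continuousOn hf)
  refine ⟨fun x => (g1 x, g2 x), hg1.prodMk hg2, fun x hx => ?_⟩
  exact Prod.ext (hgf1 x hx) (hgf2 x hx)

theorem ext_pi {ι : Type*} {X : ι → Type*} [∀ i, TopologicalSpace (X i)] {d : ℕ}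
    (h : ∀ i, Ext d (X i)) : Ext d (∀ i, X i) := by
  intro f hf
  choose g hg hgf using fun i => h i (fun x => f x i) ((continuous_apply i).comp_continuousOn hf)
  refine ⟨fun x i => g i x, continuous_pi hg, fun x hx => ?_⟩
  funext i
  exact hgf i x hx

theorem ext_fintype {N : Type*} [Fintype N] {Y : Type*} [TopologicalSpace Y]
    (h : Ext (Fintype.card N) Y) (f : (N → I) → Y) (hf : ContinuousOn f (Cube.boundary N)) :
    ∃ g : (N → I) → Y, Continuous g ∧ ∀ x ∈ Cube.boundary N, g x = f x := by
  set e := Fintype.equivFin N with he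
  have hc : Continuous (fun (y : Fin (Fintype.card N) → I) (i : N) => y (e i)) :=
    continuous_pi (fun i => continuous_apply (e i))
  have hc' : Continuous (fun (x : N → I) (j : Fin (Fintype.card N)) => x (e.symm j)) :=
    continuous_pi (fun j => continuous_apply (e.symm j))
  obtain ⟨g, hg, hgf⟩ := h (fun y => f (fun i => y (e i))) (by
    refine hf.comp hc.continuousOn ?_
    rintro y ⟨i, hi⟩
    refine ⟨e.symm i, ?_⟩
    simpa using hi)
  refine ⟨fun x => g (fun j => x (e.symm j)), hg.comp hc', fun x hx => ?_⟩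
  obtain ⟨i, hi⟩ := hx
  show g (fun j => x (e.symm j)) = f x
  rw [hgf (fun j => x (e.symm j)) ⟨e i, by simpa using hi⟩]
  congr 1
  funext i
  simp

theorem ext_set {X : Type*} [TopologicalSpace X] {s : Set X} {d : ℕ} (hs : s.Nonempty)
    (h : Ext d s) (f : (Fin d → I) → X) (hf : ContinuousOn f (Cube.boundary (Fin d)))
    (hfs : ∀ x ∈ Cube.boundary (Fin d), f x ∈ s) :
    ∃ g : (Fin d → I) → X, Continuous g ∧ (∀ x, g x ∈ s) ∧
      ∀ x ∈ Cube.boundary (Fin d), g x = f x := by
  classical
  obtain ⟨s0, hs0⟩ := hs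
  let F : (Fin d → I) → s := fun x => if hx : f x ∈ s then ⟨f x, hx⟩ else ⟨s0, hs0⟩
  have hF : ContinuousOn F (Cube.boundary (Fin d)) := by
    rw [continuousOn_iff_continuous_domRestrict] at hf ⊢
    have h1 : (Cube.boundary (Fin d)).domRestrict F =
        fun x : Cube.boundary (Fin d) => (⟨f x, hfs x x.2⟩ : s) := by
      funext x
      show F x = _
      simp only [F]
      rw [dif_pos (hfs x x.2)]
    rw [h1]
    exact hf.subtype_mk _
  obtain ⟨g, hg, hgf⟩ := h F hF
  refine ⟨fun x => (g x : X), continuous_subtype_val.comp hg, fun x => (g x).2, fun x hx => ?_⟩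
  show (g x : X) = f x
  rw [hgf x hx]
  simp only [F]
  rw [dif_pos (hfs x hx)]

theorem ext_of_set {X : Type*} [TopologicalSpace X] {s : Set X} {d : ℕ}
    (h : ∀ f : (Fin d → I) → X, ContinuousOn f (Cube.boundary (Fin d)) →
      (∀ x ∈ Cube.boundary (Fin d), f x ∈ s) → ∃ g : (Fin d → I) → X, Continuous g ∧
        (∀ x, g x ∈ s) ∧ ∀ x ∈ Cube.boundary (Fin d), g x = f x) : Ext d s := by
  intro f hf
  obtain ⟨g, hg, hgs, hgf⟩ := h (fun x => (f x : X)) (continuous_subtype_val.comp_continuousOn hf)
    (fun x _ => (f x).2)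
  exact ⟨fun x => ⟨g x, hgs x⟩, hg.subtype_mk _, fun x hx => Subtype.ext (hgf x hx)⟩

theorem ext_retract {X Y : Type*} [TopologicalSpace X] [TopologicalSpace Y] {d : ℕ}
    (j : Y → X) (hj : Continuous j) (r : X → Y) (hr : Continuous r) (hrj : ∀ y, r (j y) = y)
    (h : Ext d X) : Ext d Y := by
  intro f hf
  obtain ⟨g, hg, hgf⟩ := h (fun x => j (f x)) (hj.comp_continuousOn hf)
  refine ⟨fun x => r (g x), hr.comp hg, fun x hx => ?_⟩
  show r (g x) = f x
  rw [hgf x hx, hrj]

end ASP87
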