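import Pool.Agent.ASP87.Collar
import Pool.Agent.ASP87.ExtBasic

/-!
# ASP87/SC: `Ext 1`, `Ext 2` and simple connectivity

`ext_one`: the boundary of the 1-cube is `{0, 1}` (the two constant functions): join `f 0` and `f 1` by a
path and compose with `z => z 0`.
`ext_two`: `f` on the boundary of the square. The path (left side, top side) is homotopic to the path
(bottom side, right side), `H : I x I -> Y` is a homotopy. Put
`G z = H (u z, (z 0 + z 1) / 2)`, `u z = min (z 0, 1 - z 1) / min (z 0 + z 1, 2 - z 0 - z 1)`. The function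
`u` is discontinuous at the corners `(0,0)` and `(1,1)`, but there `H (., 0)`, `H (., 1)` are constant
and `G` is continuous by compactness of `I`.
`sc_of_ext`: `Ext 1` gives paths (extend `f 0 = x`, `f 1 = y` to the 1-cube). For a loop `gamma` at `y`
let `f` on the boundary of the square `Fin 2 -> I` be `gamma (z 0)` if `z 1 = 0` and `y` otherwise
(continuous on the boundary: two closed pieces); the extension `g` gives the homotopy
`(t, s) => g ![s, t]` rel endpoints from `gamma` to the constant path.
-/

namespace ASP87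

open scoped unitInterval Topology
open Set

theorem ext_one (Y : Type*) [TopologicalSpace Y] [PathConnectedSpace Y] : Ext 1 Y := by
  intro f _
  obtain ⟨γ⟩ := PathConnectedSpace.joined (f fun _ => 0) (f fun _ => 1)
  refine ⟨fun z => γ (z 0), by fun_prop, ?_⟩
  rintro x ⟨i, hi⟩
  have hi0 : i = 0 := Subsingleton.elim _ _
  subst hi0
  rcases hi with h | h
  · have : x = fun _ => 0 := by
      funext j
      rw [Subsingleton.elim j 0, h]
    rw [this]; simp
  · have : x = fun _ => 1 := by
      funext j
      rw [Subsingleton.elim j 0, h]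
    rw [this]; simp

/-- a map of the form `H (u z, s z)` is continuous at a point where `H (., s z)` is constant, even if
`u` is not continuous there -/
theorem continuousAt_of_const {Z Y : Type*} [TopologicalSpace Z] [TopologicalSpace Y]
    {H : I × I → Y} (hH : Continuous H) (u s : Z → I) {z : Z} (hs : ContinuousAt s z)
    (hc : ∀ a b, H (a, s z) = H (b, s z)) : ContinuousAt (fun w => H (u w, s w)) z := by
  rw [ContinuousAt, Filter.tendsto_def]
  intro V hV
  have h1 : ∀ᶠ t in 𝓝 (s z), ∀ a ∈ (univ : Set I), H (a, t) ∈ V := by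
    refine isCompact_univ.eventually_forall_of_forall_eventually fun a _ => ?_
    have h2 : Filter.Tendsto (fun q : I × I => H (q.2, q.1)) (𝓝 (s z, a)) (𝓝 (H (a, s z))) :=
      (hH.comp continuous_swap).continuousAt
    rw [hc a (u z)] at h2
    exact h2 hV
  filter_upwards [hs.eventually h1] with w hw
  exact hw _ (mem_univ _)

theorem ext_two (Y : Type*) [TopologicalSpace Y] [SimplyConnectedSpace Y] : Ext 2 Y := by
  intro f hf
  have side : ∀ (e : I → (Fin 2 → I)), Continuous e → (∀ t, e t ∈ Cube.boundary (Fin 2)) →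
      Continuous fun t => f (e t) := by
    intro e he hb
    exact hf.comp_continuous he hb
  have hc0 : ∀ t : I, (![0, t] : Fin 2 → I) ∈ Cube.boundary (Fin 2) := fun t => ⟨0, Or.inl rfl⟩
  have hc1 : ∀ t : I, (![1, t] : Fin 2 → I) ∈ Cube.boundary (Fin 2) := fun t => ⟨0, Or.inr rfl⟩
  have hc2 : ∀ t : I, (![t, 0] : Fin 2 → I) ∈ Cube.boundary (Fin 2) := fun t => ⟨1, Or.inl rfl⟩
  have hc3 : ∀ t : I, (![t, 1] : Fin 2 → I) ∈ Cube.boundary (Fin 2) := fun t => ⟨1, Or.inr rfl⟩
  have hce : ∀ a : I, Continuous fun t : I => (![a, t] : Fin 2 → I) := by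
    intro a
    refine continuous_pi fun i => ?_
    fin_cases i
    · exact continuous_const
    · exact continuous_id
  have hce' : ∀ a : I, Continuous fun t : I => (![t, a] : Fin 2 → I) := by
    intro a
    refine continuous_pi fun i => ?_
    fin_cases i
    · exact continuous_id
    · exact continuous_const
  let pl : Path (f ![0, 0]) (f ![0, 1]) := ⟨⟨fun t => f ![0, t], side _ (hce 0) hc0⟩, rfl, rfl⟩
  let pr : Path (f ![1, 0]) (f ![1, 1]) := ⟨⟨fun t => f ![1, t], side _ (hce 1) hc1⟩, rfl, rfl⟩
  let pb : Path (f ![0, 0]) (f ![1, 0]) := ⟨⟨fun t => f ![t, 0], side _ (hce' 0) hc2⟩, rfl, rfl⟩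
  let pt : Path (f ![0, 1]) (f ![1, 1]) := ⟨⟨fun t => f ![t, 1], side _ (hce' 1) hc3⟩, rfl, rfl⟩
  obtain ⟨H⟩ := SimplyConnectedSpace.paths_homotopic (pl.trans pt) (pb.trans pr)
  let u : (Fin 2 → I) → I := fun z => projIcc 0 1 zero_le_one
    (min (z 0 : ℝ) (1 - z 1) / min ((z 0 : ℝ) + z 1) (2 - z 0 - z 1))
  let s : (Fin 2 → I) → I := fun z => projIcc 0 1 zero_le_one (((z 0 : ℝ) + z 1) / 2)
  have hs : Continuous s := by
    refine continuous_projIcc.comp ?_
    fun_prop
  have hsv : ∀ z, (s z : ℝ) = ((z 0 : ℝ) + z 1) / 2 := by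
    intro z
    have h0 := (z 0).2
    have h1 := (z 1).2
    have h2 := projIcc_of_mem (zero_le_one (α := ℝ)) (x := ((z 0 : ℝ) + z 1) / 2)
      ⟨by linarith [h0.1, h1.1], by linarith [h0.2, h1.2]⟩
    exact congrArg Subtype.val h2
  refine ⟨fun z => H (u z, s z), ?_, ?_⟩
  · rw [continuous_iff_continuousAt]
    intro z
    by_cases h0 : s z = 0
    · refine continuousAt_of_const H.continuous u s hs.continuousAt fun a b => ?_
      rw [h0]; simp
    by_cases h1 : s z = 1
    · refine continuousAt_of_const H.continuous u s hs.continuousAt fun a b => ?_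
      rw [h1]; simp
    refine H.continuous.continuousAt.comp (ContinuousAt.prodMk ?_ hs.continuousAt)
    refine (continuous_projIcc (h := zero_le_one)).continuousAt.comp ?_
    refine ContinuousAt.div (Continuous.continuousAt (by fun_prop))
      (Continuous.continuousAt (by fun_prop)) ?_
    have hp : 0 < (s z : ℝ) := lt_of_le_of_ne (s z).2.1 fun h => h0 (Subtype.ext h.symm)
    have hq : (s z : ℝ) < 1 := lt_of_le_of_ne (s z).2.2 fun h => h1 (Subtype.ext h)
    rw [hsv] at hp hq
    have : 0 < min ((z 0 : ℝ) + z 1) (2 - z 0 - z 1) := lt_min (by linarith) (by linarith)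
    exact this.ne'
  · have hz2 : ∀ x : Fin 2 → I, x = ![x 0, x 1] := by
      intro x
      funext i
      fin_cases i <;> rfl
    have hL : ∀ x : Fin 2 → I, u x = 0 → H (u x, s x) = (pl.trans pt) (s x) := by
      intro x hx
      rw [hx]
      exact H.apply_zero _
    have hR : ∀ x : Fin 2 → I, u x = 1 → H (u x, s x) = (pb.trans pr) (s x) := by
      intro x hx
      rw [hx]
      exact H.apply_one _
    intro x hx
    change H (u x, s x) = f x
    have h0 := (x 0).2
    have h1 := (x 1).2
    rcases hx with ⟨i, hi⟩
    have hi' : x 0 = 0 ∨ x 0 = 1 ∨ x 1 = 0 ∨ x 1 = 1 := by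
      fin_cases i
      · rcases hi with h | h
        · exact Or.inl h
        · exact Or.inr (Or.inl h)
      · rcases hi with h | h
        · exact Or.inr (Or.inr (Or.inl h))
        · exact Or.inr (Or.inr (Or.inr h))
    rcases hi' with h | h | h | h
    · -- left side
      have hu : u x = 0 := by
        simp only [u, h]
        have : min ((0 : I) : ℝ) (1 - (x 1 : ℝ)) = 0 := by
          simp [h1.2]
        rw [this, zero_div, projIcc_left]
        rfl
      rw [hL x hu, Path.trans_apply]
      have hs2 := hsv x
      rw [h] at hs2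
      have hle : (s x : ℝ) ≤ 1 / 2 := by
        rw [hs2]; simp; linarith [h1.2]
      rw [dif_pos hle]
      have : (⟨2 * (s x : ℝ), (unitInterval.mul_pos_mem_iff zero_lt_two).2 ⟨(s x).2.1, hle⟩⟩ : I)
          = x 1 := by
        apply Subtype.ext
        simp [hs2]
        ring
      rw [this]
      change f ![0, x 1] = f x
      rw [← h, ← hz2 x]
    · -- right side
      by_cases hx1 : x 1 = 1
      · have hs1 : s x = 1 := by
          apply Subtype.ext
          rw [hsv, h, hx1]; simp
        rw [hs1, Path.Homotopy.target]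
        rw [hz2 x, h, hx1]
      have hlt : (x 1 : ℝ) < 1 := lt_of_le_of_ne h1.2 fun hh => hx1 (Subtype.ext hh)
      have hu : u x = 1 := by
        simp only [u, h]
        have e1 : min ((1 : I) : ℝ) (1 - (x 1 : ℝ)) = 1 - x 1 := by
          simp [h1.1]
        have e2 : min (((1 : I) : ℝ) + (x 1 : ℝ)) (2 - ((1 : I) : ℝ) - x 1) = 1 - x 1 := by
          rw [min_eq_right]
          · simp; ring
          · simp; linarith [h1.1]
        rw [e1, e2, div_self (by linarith), projIcc_right]
        rfl
      rw [hR x hu]
      have hs2 := hsv x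
      rw [h] at hs2
      by_cases hx0 : x 1 = 0
      · have hle : (s x : ℝ) ≤ 1 / 2 := by
          rw [hs2, hx0]; simp
        rw [Path.trans_apply, dif_pos hle]
        have : (⟨2 * (s x : ℝ), (unitInterval.mul_pos_mem_iff zero_lt_two).2 ⟨(s x).2.1, hle⟩⟩ : I)
            = 1 := by
          apply Subtype.ext
          simp [hs2, hx0]
        rw [this, pb.target, hz2 x, h, hx0]
      have hpos : 0 < (x 1 : ℝ) := lt_of_le_of_ne h1.1 fun hh => hx0 (Subtype.ext hh.symm)
      have hnle : ¬ (s x : ℝ) ≤ 1 / 2 := by
        rw [hs2]; simp; linarith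
      rw [Path.trans_apply, dif_neg hnle]
      have : (⟨2 * (s x : ℝ) - 1, unitInterval.two_mul_sub_one_mem_iff.2
          ⟨(not_le.1 hnle).le, (s x).2.2⟩⟩ : I) = x 1 := by
        apply Subtype.ext
        simp [hs2]
        ring
      rw [this]
      change f ![1, x 1] = f x
      rw [← h, ← hz2 x]
    · -- bottom side
      by_cases hx0 : x 0 = 0
      · have hs1 : s x = 0 := by
          apply Subtype.ext
          rw [hsv, h, hx0]; simp
        rw [hs1, Path.Homotopy.source]
        rw [hz2 x, h, hx0]
      have hpos : 0 < (x 0 : ℝ) := lt_of_le_of_ne h0.1 fun hh => hx0 (Subtype.ext hh.symm)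
      have hu : u x = 1 := by
        simp only [u, h]
        have e1 : min (x 0 : ℝ) (1 - ((0 : I) : ℝ)) = x 0 := by
          simp [h0.2]
        have e2 : min ((x 0 : ℝ) + ((0 : I) : ℝ)) (2 - (x 0 : ℝ) - ((0 : I) : ℝ)) = x 0 := by
          rw [min_eq_left]
          · simp
          · simp; linarith [h0.2]
        rw [e1, e2, div_self (by linarith), projIcc_right]
        rfl
      rw [hR x hu]
      have hs2 := hsv x
      rw [h] at hs2
      have hle : (s x : ℝ) ≤ 1 / 2 := by
        rw [hs2]; simp; linarith [h0.2]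
      rw [Path.trans_apply, dif_pos hle]
      have : (⟨2 * (s x : ℝ), (unitInterval.mul_pos_mem_iff zero_lt_two).2 ⟨(s x).2.1, hle⟩⟩ : I)
          = x 0 := by
        apply Subtype.ext
        simp [hs2]
        ring
      rw [this]
      change f ![x 0, 0] = f x
      rw [← h, ← hz2 x]
    · -- top side
      have hu : u x = 0 := by
        simp only [u, h]
        have : min (x 0 : ℝ) (1 - ((1 : I) : ℝ)) = 0 := by
          simp [h0.1]
        rw [this, zero_div, projIcc_left]
        rfl
      rw [hL x hu]
      have hs2 := hsv x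
      rw [h] at hs2
      by_cases hx0 : x 0 = 0
      · have hle : (s x : ℝ) ≤ 1 / 2 := by
          rw [hs2, hx0]; simp
        rw [Path.trans_apply, dif_pos hle]
        have : (⟨2 * (s x : ℝ), (unitInterval.mul_pos_mem_iff zero_lt_two).2 ⟨(s x).2.1, hle⟩⟩ : I)
            = 1 := by
          apply Subtype.ext
          simp [hs2, hx0]
        rw [this, pl.target, hz2 x, h, hx0]
      have hpos : 0 < (x 0 : ℝ) := lt_of_le_of_ne h0.1 fun hh => hx0 (Subtype.ext hh.symm)
      have hnle : ¬ (s x : ℝ) ≤ 1 / 2 := by
        rw [hs2]; simp; linarith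
      rw [Path.trans_apply, dif_neg hnle]
      have : (⟨2 * (s x : ℝ) - 1, unitInterval.two_mul_sub_one_mem_iff.2
          ⟨(not_le.1 hnle).le, (s x).2.2⟩⟩ : I) = x 0 := by
        apply Subtype.ext
        simp [hs2]
        ring
      rw [this]
      change f ![x 0, 1] = f x
      rw [← h, ← hz2 x]

theorem sc_of_ext {Y : Type*} [TopologicalSpace Y] (h0 : Nonempty Y) (h1 : Ext 1 Y)
    (h2 : Ext 2 Y) : SimplyConnectedSpace Y := by
  classical
  rw [simply_connected_iff_loops_nullhomotopic]
  refine ⟨⟨h0, fun x y => ?_⟩, fun y γ => ?_⟩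
  · let f : (Fin 1 → I) → Y := fun z => if z 0 = 0 then x else y
    have hf : ContinuousOn f (Cube.boundary (Fin 1)) := by
      have hA : ContinuousOn f {z | z 0 = 0} :=
        (continuousOn_const (c := x)).congr fun z hz => if_pos hz
      have hB : ContinuousOn f {z | z 0 = 1} :=
        (continuousOn_const (c := y)).congr fun z hz => if_neg (by
          rw [show z 0 = 1 from hz]; exact one_ne_zero)
      refine (hA.union_of_isClosed hB (isClosed_eq (by fun_prop) continuous_const)
        (isClosed_eq (by fun_prop) continuous_const)).mono ?_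
      rintro z ⟨i, hi⟩
      rw [Subsingleton.elim i 0] at hi
      exact hi
    obtain ⟨g, hg, hgf⟩ := h1 f hf
    refine ⟨⟨⟨fun t => g fun _ => t, hg.comp (continuous_pi fun _ => continuous_id)⟩, ?_, ?_⟩⟩
    · change g (fun _ => 0) = x
      rw [hgf _ ⟨0, Or.inl rfl⟩]
      exact if_pos rfl
    · change g (fun _ => 1) = y
      rw [hgf _ ⟨0, Or.inr rfl⟩]
      exact if_neg one_ne_zero
  · let f : (Fin 2 → I) → Y := fun z => if z 1 = 0 then γ (z 0) else y
    have hf : ContinuousOn f (Cube.boundary (Fin 2)) := by
      have hA : ContinuousOn f {z | z 1 = 0} :=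
        (Continuous.continuousOn (f := fun z : Fin 2 → I => γ (z 0)) (by fun_prop)).congr
          fun z hz => if_pos hz
      have hB : ContinuousOn f ({z | z 0 = 0} ∪ ({z | z 0 = 1} ∪ {z | z 1 = 1})) := by
        refine (continuousOn_const (c := y)).congr fun z hz => ?_
        by_cases h : z 1 = 0
        · have : f z = γ (z 0) := if_pos h
          rw [this]
          rcases hz with hz | hz | hz
          · rw [show z 0 = 0 from hz]; simp
          · rw [show z 0 = 1 from hz]; simp
          · exact absurd (h.symm.trans hz) zero_ne_one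
        · exact if_neg h
      have hB2 : IsClosed ({z : Fin 2 → I | z 0 = 0} ∪ ({z | z 0 = 1} ∪ {z | z 1 = 1})) :=
        (isClosed_eq (by fun_prop) continuous_const).union
          ((isClosed_eq (by fun_prop) continuous_const).union
            (isClosed_eq (by fun_prop) continuous_const))
      refine (hA.union_of_isClosed hB (isClosed_eq (by fun_prop) continuous_const) hB2).mono ?_
      rintro z ⟨i, hi⟩
      fin_cases i
      · rcases hi with h | h
        · exact Or.inr (Or.inl h)
        · exact Or.inr (Or.inr (Or.inl h))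
      · rcases hi with h | h
        · exact Or.inl h
        · exact Or.inr (Or.inr (Or.inr h))
    obtain ⟨g, hg, hgf⟩ := h2 f hf
    have hcont : Continuous fun p : I × I => g ![p.2, p.1] := by
      refine hg.comp (continuous_pi fun i => ?_)
      fin_cases i
      · exact continuous_snd
      · exact continuous_fst
    have hbot : ∀ t : I, g ![t, 0] = γ t := by
      intro t
      rw [hgf _ ⟨1, Or.inl rfl⟩]
      exact if_pos rfl
    have htop : ∀ t : I, g ![t, 1] = y := by
      intro t
      rw [hgf _ ⟨1, Or.inr rfl⟩]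
      exact if_neg one_ne_zero
    have hleft : ∀ t : I, g ![0, t] = y := by
      intro t
      rw [hgf _ ⟨0, Or.inl rfl⟩]
      by_cases ht : t = 0
      · rw [ht]
        change (if (0 : I) = 0 then γ 0 else y) = y
        simp
      · exact if_neg ht
    have hright : ∀ t : I, g ![1, t] = y := by
      intro t
      rw [hgf _ ⟨0, Or.inr rfl⟩]
      by_cases ht : t = 0
      · rw [ht]
        change (if (0 : I) = 0 then γ 1 else y) = y
        simp
      · exact if_neg ht
    refine ⟨⟨⟨⟨fun p => g ![p.2, p.1], hcont⟩, ?_, ?_⟩, ?_⟩⟩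
    · intro t
      exact hbot t
    · intro t
      exact htop t
    · intro t x hx
      rcases hx with hx | hx
      · rw [hx]
        change g ![0, t] = γ 0
        rw [hleft, γ.source]
      · rw [show x = 1 from hx]
        change g ![1, t] = γ 1
        rw [hright, γ.target]

theorem wc_simplyConnected {Y : Type*} [TopologicalSpace Y] (h : WC Y) :
    SimplyConnectedSpace Y :=
  sc_of_ext h.1 (h.2 1) (h.2 2)

theorem wc_of_simplyConnected {Y : Type*} [TopologicalSpace Y] [SimplyConnectedSpace Y]
    (h : Asph Y) : WC Y := by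
  refine ⟨PathConnectedSpace.nonempty, fun d => ?_⟩
  match d with
  | 0 => exact ext_zero Y
  | 1 => exact ext_one Y
  | 2 => exact ext_two Y
  | (d + 3) => exact h _ (by omega)

end ASP87
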