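import Pool.Agent.ASP87.ExtBasic
import Pool.Agent.ASP87.Box
import Pool.Agent.ASP87.SC
import Pool.Agent.H85.Cube

/-!
# ASP87/Cov: coverings and `Ext`

The cube `Fin d -> I` is simply connected (contractible) and locally path connected
(`Pool.Agent.H85.Cube.contractible_cube`, `lpc_cube`), so maps from it lift through coverings with a
prescribed value at one point: Mathlib `IsCoveringMap.existsUnique_continuousMap_lifts`
(Topology/Homotopy/Lifting.lean).

`ext_cover` (`d >= 2`): `f : K -> E` on the boundary; `p o f` extends to `g : cube -> B`; lift `g` to `g'`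
with `g' z0 = f z0`, `z0 = 0` in `K`. On `K` (preconnected, `Pool.Agent.H85.Cube.boundary_preconnected`)
`g'` and `f` are continuous lifts of the same map and agree at `z0`, so they agree
(`IsCoveringMap.eqOn_of_comp_eqOn`).

`ext_of_cover` (`d >= 3`, write `d = e + 1`, `e >= 2`): `f : K -> B`. Let `r` be the retraction of the cube
onto the box `J` (all faces but `z 0 = 1`, `box_retract`). `f o r : cube -> B` is continuous; let `L` be
a lift of it to `E` (the starting value exists by surjectivity). On `J`, `p (L z) = f z`. Let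
`w : (Fin e -> I) -> cube`, `w x = (1, x)` (`Fin.cons`), `f o w` is continuous; let `M` be a lift of it with
`M 0 = L (w 0)`. On the boundary of the `e`-cube (preconnected as `e >= 2`) `M` and `L o w` are lifts of
the same map and agree at `0`, so `M x = L (w x)` there. Define `F z = M (tail z)` if `z 0 = 1`, else
`F z = L z`: continuous on `K = J union {z 0 = 1}` (two closed pieces, equal on the intersection),
`p o F = f` on `K`. Extend `F` by `Ext d E` to `G`; `p o G` extends `f`.
-/

namespace ASP87

open scoped unitInterval Topology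
open Set

private theorem lift_cube {E B : Type*} [TopologicalSpace E] [TopologicalSpace B] {p : E → B}
    (hp : IsCoveringMap p) {d : ℕ} (g : (Fin d → I) → B) (hg : Continuous g) (a : Fin d → I)
    (e : E) (he : p e = g a) :
    ∃ G : (Fin d → I) → E, Continuous G ∧ G a = e ∧ ∀ x, p (G x) = g x := by
  have i1 := Pool.Agent.H85.Cube.lpc_cube d
  have i2 := Pool.Agent.H85.Cube.contractible_cube d
  obtain ⟨G, ⟨hG1, hG2⟩, -⟩ := hp.existsUnique_continuousMap_lifts ⟨g, hg⟩ a e he
  exact ⟨G, G.continuous, hG1, fun x => congrFun hG2 x⟩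

private theorem boundary_closed (d : ℕ) : IsClosed (Cube.boundary (Fin d)) := by
  have h1 : Cube.boundary (Fin d) = ⋃ i : Fin d, ({y | y i = 0} ∪ {y | y i = 1}) := by
    ext y
    rw [mem_iUnion]
    rfl
  rw [h1]
  refine isClosed_iUnion_of_finite (fun i => ?_)
  exact (isClosed_eq (continuous_apply i) continuous_const).union
    (isClosed_eq (continuous_apply i) continuous_const)

theorem ext_cover {E B : Type*} [TopologicalSpace E] [TopologicalSpace B] {p : E → B}
    (hp : IsCoveringMap p) {d : ℕ} (hd : 2 ≤ d) (h : Ext d B) : Ext d E := by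
  intro f hf
  obtain ⟨g, hg, hgf⟩ := h (fun x => p (f x)) (hp.continuous.comp_continuousOn hf)
  have h0 := Pool.Agent.H85.Cube.boundary_zero hd
  obtain ⟨G, hG, hG0, hGp⟩ := lift_cube hp g hg (fun _ => 0) (f (fun _ => 0)) (hgf _ h0).symm
  refine ⟨G, hG, ?_⟩
  exact hp.eqOn_of_comp_eqOn (Pool.Agent.H85.Cube.boundary_preconnected hd) hG.continuousOn hf
    (fun x hx => by
      show p (G x) = p (f x)
      rw [hGp, hgf x hx]) h0 hG0

theorem ext_of_cover {E B : Type*} [TopologicalSpace E] [TopologicalSpace B] {p : E → B}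
    (hp : IsCoveringMap p) (hs : Function.Surjective p) {d : ℕ} (hd : 3 ≤ d) (h : Ext d E) :
    Ext d B := by
  classical
  obtain ⟨e, rfl⟩ : ∃ e, d = e + 1 := ⟨d - 1, by omega⟩
  have he : 2 ≤ e := by omega
  intro f hf
  obtain ⟨r, hr, hrJ, hrr⟩ := box_retract e
  have hJK : BoxJ e ⊆ Cube.boundary (Fin (e + 1)) := by
    rw [boundary_eq_box]
    exact subset_union_left
  have hTK : {z : Fin (e + 1) → I | z 0 = 1} ⊆ Cube.boundary (Fin (e + 1)) := by
    rw [boundary_eq_box]
    exact subset_union_right
  have hfr : Continuous (fun z => f (r z)) := hf.comp_continuous hr (fun z => hJK (hrJ z))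
  obtain ⟨e₀, he₀⟩ := hs (f (r (fun _ => 0)))
  obtain ⟨L, hL, -, hLp⟩ := lift_cube hp (fun z => f (r z)) hfr (fun _ => 0) e₀ he₀
  have hLJ : ∀ z ∈ BoxJ e, p (L z) = f z := by
    intro z hz
    rw [hLp, hrr z hz]
  let w : (Fin e → I) → (Fin (e + 1) → I) := fun x => Fin.cons (1 : I) x
  have hw0 : ∀ x, w x 0 = 1 := fun x => rfl
  have hws : ∀ x (i : Fin e), w x i.succ = x i := fun x i => rfl
  have hwc : Continuous w := by
    refine continuous_pi (fun i => ?_)
    refine Fin.cases ?_ (fun j => ?_) i
    · exact continuous_const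
    · exact continuous_apply j
  have hwt : ∀ z : Fin (e + 1) → I, z 0 = 1 → w (fun i => z i.succ) = z := by
    intro z hz
    funext i
    refine Fin.cases ?_ (fun j => ?_) i
    · rw [hw0, hz]
    · rw [hws]
  have hfw : Continuous (fun x => f (w x)) := hf.comp_continuous hwc (fun x => hTK (hw0 x))
  have h0 := Pool.Agent.H85.Cube.boundary_zero he
  have hwJ : ∀ x ∈ Cube.boundary (Fin e), w x ∈ BoxJ e := fun x hx => Or.inr hx
  obtain ⟨M, hM, hM0, hMp⟩ := lift_cube hp (fun x => f (w x)) hfw (fun _ => 0)
    (L (w (fun _ => 0))) (hLJ _ (hwJ _ h0))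
  have hML : EqOn M (fun x => L (w x)) (Cube.boundary (Fin e)) :=
    hp.eqOn_of_comp_eqOn (Pool.Agent.H85.Cube.boundary_preconnected he) hM.continuousOn
      (hL.comp hwc).continuousOn (fun x hx => by
        show p (M x) = p (L (w x))
        rw [hMp, hLJ _ (hwJ x hx)]) h0 hM0
  let F : (Fin (e + 1) → I) → E := fun z => if z 0 = 1 then M (fun i => z i.succ) else L z
  have hFT : ∀ z : Fin (e + 1) → I, z 0 = 1 → F z = M (fun i => z i.succ) := by
    intro z hz
    exact if_pos hz
  have hFJ : ∀ z ∈ BoxJ e, F z = L z := by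
    intro z hz
    by_cases h1 : z 0 = 1
    · rw [hFT z h1]
      rcases hz with hz | hz
      · rw [h1] at hz
        exact absurd hz one_ne_zero
      · rw [hML hz]
        show L (w (fun i => z i.succ)) = L z
        rw [hwt z h1]
    · exact if_neg h1
  have hJc : IsClosed (BoxJ e) := by
    have h1 : IsClosed {z : Fin (e + 1) → I | z 0 = 0} :=
      isClosed_eq (continuous_apply 0) continuous_const
    have h2 : IsClosed {z : Fin (e + 1) → I | (fun i : Fin e => z i.succ) ∈
        Cube.boundary (Fin e)} :=
      (boundary_closed e).preimage (continuous_pi (fun i => continuous_apply i.succ))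
    exact h1.union h2
  have hTc : IsClosed {z : Fin (e + 1) → I | z 0 = 1} :=
    isClosed_eq (continuous_apply 0) continuous_const
  have hFc : ContinuousOn F (Cube.boundary (Fin (e + 1))) := by
    rw [boundary_eq_box]
    refine ContinuousOn.union_of_isClosed ?_ ?_ hJc hTc
    · exact hL.continuousOn.congr hFJ
    · exact (hM.comp (continuous_pi (fun i => continuous_apply i.succ))).continuousOn.congr hFT
  obtain ⟨G, hG, hGF⟩ := h F hFc
  refine ⟨fun z => p (G z), hp.continuous.comp hG, ?_⟩
  intro z hz
  show p (G z) = f z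
  rw [hGF z hz]
  rw [boundary_eq_box] at hz
  rcases hz with hz | hz
  · rw [hFJ z hz, hLJ z hz]
  · rw [hFT z hz, hMp, hwt z hz]

theorem asph_of_cover {E B : Type*} [TopologicalSpace E] [TopologicalSpace B] {p : E → B}
    (hp : IsCoveringMap p) (hs : Function.Surjective p) (h : WC E) : Asph B :=
  fun _ hd => ext_of_cover hp hs hd (h.2 _)

/-- a simply connected covering of an aspherical space is weakly contractible -/
theorem wc_of_cover {E B : Type*} [TopologicalSpace E] [TopologicalSpace B] {p : E → B}
    (hp : IsCoveringMap p) [SimplyConnectedSpace E] (h : Asph B) : WC E :=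
  wc_of_simplyConnected fun d hd => ext_cover hp (by omega) (h d hd)

end ASP87
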