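import Pool.Agent.ASP87.UCSC
import Pool.Agent.ASP87.Cov

/-!
# ASP87/UCGen: universal covers of path components (no connectedness assumption)
-/

namespace ASP87

open scoped unitInterval Topology
open Set

universe u

private theorem lift_cube {E B : Type*} [TopologicalSpace E] [TopologicalSpace B] {p : E → B}
    (hp : IsCoveringMap p) {d : ℕ} (g : (Fin d → I) → B) (hg : Continuous g) (a : Fin d → I)
    (e : E) (he : p e = g a) :
    ∃ G : (Fin d → I) → E, Continuous G ∧ G a = e ∧ ∀ x, p (G x) = g x := by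
  have i1 := Pool.Agent.H85.Cube.lpc_cube d
  have i2 := Pool.Agent.H85.Cube.contractible_cube d
  obtain ⟨G, ⟨hG1, hG2⟩, -⟩ := hp.existsUnique_continuousMap_lifts ⟨g, hg⟩ a e he
  exact ⟨G, G.continuous, hG1, fun x => congrFun hG2 x⟩

private theorem boundary_closed (d : ℕ) : IsClosed (Cube.boundary (Fin d)) := by
  have h1 : Cube.boundary (Fin d) = ⋃ i : Fin d, ({y | y i = 0} ∪ {y | y i = 1}) := by
    ext y
    rw [mem_iUnion]
    rfl
  rw [h1]
  refine isClosed_iUnion_of_finite (fun i => ?_)
  exact (isClosed_eq (continuous_apply i) continuous_const).union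
    (isClosed_eq (continuous_apply i) continuous_const)

theorem ext_at_of_cover {E B : Type*} [TopologicalSpace E] [TopologicalSpace B] {p : E → B}
    (hp : IsCoveringMap p) {d : ℕ} (hd : 3 ≤ d) (h : Ext d E) (f : (Fin d → I) → B)
    (hf : ContinuousOn f (Cube.boundary (Fin d))) (e₀ : E) (he₀' : p e₀ = f (fun _ => 0)) :
    ∃ g : (Fin d → I) → B, Continuous g ∧ ∀ x ∈ Cube.boundary (Fin d), g x = f x := by
  classical
  obtain ⟨e, rfl⟩ : ∃ e, d = e + 1 := ⟨d - 1, by omega⟩
  have he : 2 ≤ e := by omega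
  obtain ⟨r, hr, hrJ, hrr⟩ := box_retract e
  have hJK : BoxJ e ⊆ Cube.boundary (Fin (e + 1)) := by
    rw [boundary_eq_box]
    exact subset_union_left
  have hTK : {z : Fin (e + 1) → I | z 0 = 1} ⊆ Cube.boundary (Fin (e + 1)) := by
    rw [boundary_eq_box]
    exact subset_union_right
  have hfr : Continuous (fun z => f (r z)) := hf.comp_continuous hr (fun z => hJK (hrJ z))
  have he₀ : p e₀ = f (r (fun _ => 0)) := by
    rw [hrr (fun _ => 0) (Or.inl rfl)]
    exact he₀'
  obtain ⟨L, hL, -, hLp⟩ := lift_cube hp (fun z => f (r z)) hfr (fun _ => 0) e₀ he₀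
  have hLJ : ∀ z ∈ BoxJ e, p (L z) = f z := by
    intro z hz
    rw [hLp, hrr z hz]
  let w : (Fin e → I) → (Fin (e + 1) → I) := fun x => Fin.cons (1 : I) x
  have hw0 : ∀ x, w x 0 = 1 := fun x => rfl
  have hws : ∀ x (i : Fin e), w x i.succ = x i := fun x i => rfl
  have hwc : Continuous w := by
    refine continuous_pi (fun i => ?_)
    refine Fin.cases ?_ (fun j => ?_) i
    · exact continuous_const
    · exact continuous_apply j
  have hwt : ∀ z : Fin (e + 1) → I, z 0 = 1 → w (fun i => z i.succ) = z := by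
    intro z hz
    funext i
    refine Fin.cases ?_ (fun j => ?_) i
    · rw [hw0, hz]
    · rw [hws]
  have hfw : Continuous (fun x => f (w x)) := hf.comp_continuous hwc (fun x => hTK (hw0 x))
  have h0 := Pool.Agent.H85.Cube.boundary_zero he
  have hwJ : ∀ x ∈ Cube.boundary (Fin e), w x ∈ BoxJ e := fun x hx => Or.inr hx
  obtain ⟨M, hM, hM0, hMp⟩ := lift_cube hp (fun x => f (w x)) hfw (fun _ => 0)
    (L (w (fun _ => 0))) (hLJ _ (hwJ _ h0))
  have hML : EqOn M (fun x => L (w x)) (Cube.boundary (Fin e)) :=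
    hp.eqOn_of_comp_eqOn (Pool.Agent.H85.Cube.boundary_preconnected he) hM.continuousOn
      (hL.comp hwc).continuousOn (fun x hx => by
        show p (M x) = p (L (w x))
        rw [hMp, hLJ _ (hwJ x hx)]) h0 hM0
  let F : (Fin (e + 1) → I) → E := fun z => if z 0 = 1 then M (fun i => z i.succ) else L z
  have hFT : ∀ z : Fin (e + 1) → I, z 0 = 1 → F z = M (fun i => z i.succ) := by
    intro z hz
    exact if_pos hz
  have hFJ : ∀ z ∈ BoxJ e, F z = L z := by
    intro z hz
    by_cases h1 : z 0 = 1
    · rw [hFT z h1]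
      rcases hz with hz | hz
      · rw [h1] at hz
        exact absurd hz one_ne_zero
      · rw [hML hz]
        show L (w (fun i => z i.succ)) = L z
        rw [hwt z h1]
    · exact if_neg h1
  have hJc : IsClosed (BoxJ e) := by
    have h1 : IsClosed {z : Fin (e + 1) → I | z 0 = 0} :=
      isClosed_eq (continuous_apply 0) continuous_const
    have h2 : IsClosed {z : Fin (e + 1) → I | (fun i : Fin e => z i.succ) ∈
        Cube.boundary (Fin e)} :=
      (boundary_closed e).preimage (continuous_pi (fun i => continuous_apply i.succ))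
    exact h1.union h2
  have hTc : IsClosed {z : Fin (e + 1) → I | z 0 = 1} :=
    isClosed_eq (continuous_apply 0) continuous_const
  have hFc : ContinuousOn F (Cube.boundary (Fin (e + 1))) := by
    rw [boundary_eq_box]
    refine ContinuousOn.union_of_isClosed ?_ ?_ hJc hTc
    · exact hL.continuousOn.congr hFJ
    · exact (hM.comp (continuous_pi (fun i => continuous_apply i.succ))).continuousOn.congr hFT
  obtain ⟨G, hG, hGF⟩ := h F hFc
  refine ⟨fun z => p (G z), hp.continuous.comp hG, ?_⟩
  intro z hz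
  show p (G z) = f z
  rw [hGF z hz]
  rw [boundary_eq_box] at hz
  rcases hz with hz | hz
  · rw [hFJ z hz, hLJ z hz]
  · rw [hFT z hz, hMp, hwt z hz]

theorem UC_simplyConnected_at {Y : Type u} [TopologicalSpace Y]
    (hY : SLC Y) (y0 : Y) : SimplyConnectedSpace (UC y0) := by
  have hpc := UC_pathConnected87 y0
  have hcov := UCp_covering hY y0
  rw [simply_connected_iff_loops_nullhomotopic]
  refine ⟨hpc, ?_⟩
  apply loop_null87 (pt87 (Path.refl y0))
  intro L
  let g : Path y0 y0 := L.map (UCp_continuous y0)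
  have hg : ∀ t, g t = UCp y0 (L t) := fun t => rfl
  have h1 : (L : I → UC y0) = Gam87 g := by
    apply hcov.eq_of_comp_eq L.continuous (Gam87_continuous g) _ 0
    · rw [Gam87_zero]
      exact L.source
    · funext t
      rfl
  have h2 : (⟨y0, Path.Homotopic.Quotient.mk (Path.refl y0)⟩ : UC y0) =
      ⟨y0, Path.Homotopic.Quotient.mk g⟩ := by
    rw [← Gam87_one g, ← h1]
    exact L.target.symm
  have h3 : (Path.Homotopic.Quotient.mk (Path.refl y0) : Path.Homotopic.Quotient y0 y0) =
      Path.Homotopic.Quotient.mk g := eq_of_heq (Sigma.mk.inj h2).2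
  rw [← Path.Homotopic.Quotient.eq]
  apply hcov.injective_path_homotopic_map
  show Path.Homotopic.Quotient.map (Path.Homotopic.Quotient.mk L) ⟨UCp y0, _⟩ =
    Path.Homotopic.Quotient.map (Path.Homotopic.Quotient.mk (Path.refl _)) ⟨UCp y0, _⟩
  rw [← Path.Homotopic.Quotient.mk_map, ← Path.Homotopic.Quotient.mk_map]
  exact h3.symm


/-- the universal cover of the path component of a point -/
theorem exists_ucover_at (Y : Type u) [TopologicalSpace Y] (hY : SLC Y) (y0 : Y) :
    ∃ (Z : Type u) (_ : TopologicalSpace Z) (p : Z → Y) (z0 : Z), SimplyConnectedSpace Z ∧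
      LocallyPathConnectedSpace Z ∧ IsCoveringMap p ∧ p z0 = y0 := by
  have hcov := UCp_covering hY y0
  exact ⟨UC y0, inferInstance, UCp y0, ⟨y0, Path.Homotopic.Quotient.mk (Path.refl y0)⟩,
    UC_simplyConnected_at hY y0, (hY.cover hcov).locPath, hcov, rfl⟩

/-- asphericity from the weak contractibility of all universal covers -/
theorem asph_of_ucovers (Y : Type u) [TopologicalSpace Y] (hY : SLC Y)
    (h : ∀ (Z : Type u) (_ : TopologicalSpace Z) (p : Z → Y), SimplyConnectedSpace Z →
      LocallyPathConnectedSpace Z → IsCoveringMap p → WC Z) : Asph Y := by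
  intro d hd f hf
  obtain ⟨Z, tZ, p, z0, h1, h2, h3, h4⟩ := exists_ucover_at Y hY (f fun _ => 0)
  exact ext_at_of_cover h3 hd ((h Z tZ p h1 h2 h3).2 d) f hf z0 h4

end ASP87
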