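import Pool.Agent.ASP87.ChainCell
import Pool.Agent.ASP87.Surj
import Pool.Agent.ASP87.UCGen

/-!
# ASP87/II: both particles in the same petal: comparison with the one-point space (definitions, lifting)

`res i : YD -> Y1 i` forgets all special points except `x i` and the restriction to the disc.
`capV i` = points of `Y1 i` with both particles in the cap `{|z| < 1, r0 < d i z}`. `IIS` = the data of
coverings `p : Z -> YD`, `q : Z1 -> Y1 i` and a lift `f : Z -> Z1` of `res i`.

* `mem_capV_iff`: `y` has state `(some i, some i)` iff `res i y in capV i` (`U_ij`).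
* `liftII`: `A` simply connected and locally path connected, `G : A -> Z1` continuous, over `capV i`,
  `f z0 = G a0`. Define `yb : A -> YD` by `c1, c2, ll` of `q (G a)`, `s1 i, s2 i` those of `q (G a)`, and for
  `m <> i`: `s1 m = act (w1 m) k1_m (rt (w1 m) (LL (e m) (x m) c1))`, `k1_m` the label of `p z0` (`bw` of it
  is 1), the same for `s2`. In the cap `d m c <= r0 < r2` for `m <> i`, so `half` applies; `yb` is
  well defined, continuous, `res i (yb a) = q (G a)`, `yb a0 = p z0` (`act_lab`). Lift `yb` to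
  `E : A -> Z` with `E a0 = z0` (`IsCoveringMap.existsUnique_continuousMap_lifts`). `f o E` and `G` are lifts
  of `q o G` through `q` that agree at `a0`, so they are equal (`eq_of_comp_eq`, `A` connected).
* `uniqII`: `A` preconnected, `E, E' : A -> Z` continuous, both over state `(i,i)`, `f o E = f o E'`,
  `E a0 = E' a0`. Then `p o E`, `p o E'` have the same `c1, c2, ll, s1 i, s2 i` (apply `q`), and for
  `m <> i` the labels of `s1 m` are constant along `A` (`lab_const`; preconnected) and equal at `a0`, so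
  `s1 m` agree; same for `s2`. So `p o E = p o E'`, and `E = E'` by uniqueness of lifts.
-/

namespace ASP87

open Complex Topology Set ComplexConjugate

variable {ι : Type*} [Fintype ι] [DecidableEq ι] (g : Geo ι) (w1 w2 : ι → ℕ) (i : ι)

/-- the one-point space at `x i` -/
abbrev Y1 := YS univ (fun _ : Unit => g.x i) (fun _ => w1 i) (fun _ => w2 i)

/-- forget the other special points -/
noncomputable def res (y : YD g w1 w2) : Y1 g w1 w2 i :=
  ⟨(c1 y, c2 y, fun _ => s1 y i, fun _ => s2 y i, ll y),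
    trivial, trivial, fun _ => y.2.2.2.1 i, fun _ => y.2.2.2.2.1 i, y.2.2.2.2.2⟩

theorem res_continuous : Continuous (res g w1 w2 i) := by
  have h1 : Continuous (fun y : YD g w1 w2 => c1 y) := continuous_fst.comp continuous_subtype_val
  have h2 : Continuous (fun y : YD g w1 w2 => c2 y) :=
    (continuous_fst.comp continuous_snd).comp continuous_subtype_val
  have h3 : Continuous (fun y : YD g w1 w2 => s1 y i) :=
    (continuous_apply i).comp
      ((continuous_fst.comp (continuous_snd.comp continuous_snd)).comp continuous_subtype_val)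
  have h4 : Continuous (fun y : YD g w1 w2 => s2 y i) :=
    (continuous_apply i).comp
      ((continuous_fst.comp (continuous_snd.comp (continuous_snd.comp continuous_snd))).comp
        continuous_subtype_val)
  have h5 : Continuous (fun y : YD g w1 w2 => ll y) :=
    (continuous_snd.comp (continuous_snd.comp (continuous_snd.comp continuous_snd))).comp
      continuous_subtype_val
  exact Continuous.subtype_mk (h1.prodMk (h2.prodMk ((continuous_pi fun _ => h3).prodMk
    ((continuous_pi fun _ => h4).prodMk h5)))) _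

/-- both particles in the cap -/
def capV : Set (Y1 g w1 w2 i) :=
  {y | ‖c1 y‖ < 1 ∧ ‖c2 y‖ < 1 ∧ g.r0 < g.d i (c1 y) ∧ g.r0 < g.d i (c2 y)}

theorem mem_capV_iff (y : YD g w1 w2) :
    res g w1 w2 i y ∈ capV g w1 w2 i ↔ y ∈ chU g w1 w2 {(some i, some i)} := by
  have h1 : y ∈ chU g w1 w2 {(some i, some i)} ↔ (c1 y, c2 y) ∈ g.U (some i, some i) := by
    constructor
    · intro h
      exact h _ rfl
    · rintro h t rfl
      exact h
  rw [h1, g.U_ij]
  exact Iff.rfl

structure IIS {Z Z1 : Type*} [TopologicalSpace Z] [TopologicalSpace Z1] (p : Z → YD g w1 w2)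
    (q : Z1 → Y1 g w1 w2 i) (f : Z → Z1) : Prop where
  hp : IsCoveringMap p
  hq : IsCoveringMap q
  hf : Continuous f
  comm : ∀ z, q (f z) = res g w1 w2 i (p z)

variable {g w1 w2 i}
variable {Z Z1 : Type*} [TopologicalSpace Z] [TopologicalSpace Z1] {p : Z → YD g w1 w2}
  {q : Z1 → Y1 g w1 w2 i} {f : Z → Z1}

private theorem ambc1 {κ : Type*} {D : Set ℂ} {x : κ → ℂ} {v1 v2 : κ → ℕ} :
    Continuous (c1 : YS D x v1 v2 → ℂ) :=
  continuous_fst.comp continuous_subtype_val

private theorem ambc2 {κ : Type*} {D : Set ℂ} {x : κ → ℂ} {v1 v2 : κ → ℕ} :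
    Continuous (c2 : YS D x v1 v2 → ℂ) :=
  (continuous_fst.comp continuous_snd).comp continuous_subtype_val

private theorem ambs1 {κ : Type*} {D : Set ℂ} {x : κ → ℂ} {v1 v2 : κ → ℕ} (m : κ) :
    Continuous (fun y : YS D x v1 v2 => s1 y m) :=
  (continuous_apply m).comp
    ((continuous_fst.comp (continuous_snd.comp continuous_snd)).comp continuous_subtype_val)

private theorem ambs2 {κ : Type*} {D : Set ℂ} {x : κ → ℂ} {v1 v2 : κ → ℕ} (m : κ) :
    Continuous (fun y : YS D x v1 v2 => s2 y m) :=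
  (continuous_apply m).comp
    ((continuous_fst.comp (continuous_snd.comp (continuous_snd.comp continuous_snd))).comp
      continuous_subtype_val)

private theorem ambll {κ : Type*} {D : Set ℂ} {x : κ → ℂ} {v1 v2 : κ → ℕ} :
    Continuous (ll : YS D x v1 v2 → ℂ) :=
  (continuous_snd.comp (continuous_snd.comp (continuous_snd.comp continuous_snd))).comp
    continuous_subtype_val

private theorem act_cont (w : ℕ) (k : ℂ) : Continuous (act w k) := by
  unfold act
  by_cases hw : w = 0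
  · simp only [hw, if_true]
    exact continuous_const.add continuous_id
  · simp only [hw, if_false]
    exact continuous_const.mul continuous_id

private theorem cap_half (g : Geo ι) {i m : ι} (hm : m ≠ i) {c : ℂ} (h1 : ‖c‖ < 1)
    (h2 : g.r0 < g.d i c) : 0 < (conj (g.e m) * (g.x m - c)).re :=
  g.half (lt_of_le_of_lt (g.disj h1 h2 hm) (g.h01.trans g.h12))

/-- the transported root -/
private noncomputable def tr (g : Geo ι) (w : ι → ℕ) (i : ι) (k : ι → ℂ) (s c : ℂ) (m : ι) : ℂ :=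
  if m = i then s else act (w m) (k m) (rt (w m) (LL (g.e m) (g.x m) c))

private theorem tr_bw (g : Geo ι) (w : ι → ℕ) (i : ι) (k : ι → ℂ) (s c : ℂ)
    (hk : ∀ m, m ≠ i → bw (w m) (k m) = 1) (h1 : ‖c‖ < 1) (h2 : g.r0 < g.d i c)
    (hs : bw (w i) s = c - g.x i) (m : ι) : bw (w m) (tr g w i k s c m) = c - g.x m := by
  unfold tr
  by_cases hm : m = i
  · rw [if_pos hm, hm]
    exact hs
  · rw [if_neg hm, bw_act, hk m hm, bw_rt, exp_LL (g.he m) (cap_half g hm h1 h2), one_mul]

private theorem tr_cont {A : Type*} [TopologicalSpace A] (g : Geo ι) (w : ι → ℕ) (i : ι)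
    (k : ι → ℂ) {s c : A → ℂ} (hs : Continuous s) (hc : Continuous c)
    (h1 : ∀ a, ‖c a‖ < 1) (h2 : ∀ a, g.r0 < g.d i (c a)) :
    Continuous (fun a => tr g w i k (s a) (c a)) := by
  refine continuous_pi fun m => ?_
  unfold tr
  by_cases hm : m = i
  · simp only [if_pos hm]
    exact hs
  · simp only [if_neg hm]
    refine (act_cont _ _).comp ((rt_continuous _).comp ?_)
    exact (LL_continuousOn (g.e m) (g.x m)).comp_continuous hc
      fun a => cap_half g hm (h1 a) (h2 a)

private theorem lab_one (g : Geo ι) {w : ι → ℕ} {i m : ι} (hm : m ≠ i) {s c : ℂ} (h1 : ‖c‖ < 1)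
    (h2 : g.r0 < g.d i c) (hs : bw (w m) s = c - g.x m) :
    bw (w m) (lab (w m) s (rt (w m) (LL (g.e m) (g.x m) c))) = 1 := by
  apply bw_lab
  rw [hs, exp_LL (g.he m) (cap_half g hm h1 h2)]

theorem liftII (h : IIS g w1 w2 i p q f) {A : Type*} [TopologicalSpace A]
    [SimplyConnectedSpace A] [LocallyPathConnectedSpace A] (G : A → Z1) (hG : Continuous G)
    (hGc : ∀ a, q (G a) ∈ capV g w1 w2 i) (a0 : A) (z0 : Z) (h0 : f z0 = G a0) :
    ∃ E : A → Z, Continuous E ∧ E a0 = z0 ∧ ∀ a, f (E a) = G a := by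
  have hqz : q (G a0) = res g w1 w2 i (p z0) := by
    rw [← h0, h.comm]
  have hz0 : res g w1 w2 i (p z0) ∈ capV g w1 w2 i := by
    rw [← hqz]
    exact hGc a0
  have hzc1 : ‖c1 (p z0)‖ < 1 := hz0.1
  have hzc2 : ‖c2 (p z0)‖ < 1 := hz0.2.1
  have hzd1 : g.r0 < g.d i (c1 (p z0)) := hz0.2.2.1
  have hzd2 : g.r0 < g.d i (c2 (p z0)) := hz0.2.2.2
  have hqG : Continuous (fun a => q (G a)) := h.hq.continuous.comp hG
  let k1 : ι → ℂ := fun m => lab (w1 m) (s1 (p z0) m)
    (rt (w1 m) (LL (g.e m) (g.x m) (c1 (p z0))))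
  let k2 : ι → ℂ := fun m => lab (w2 m) (s2 (p z0) m)
    (rt (w2 m) (LL (g.e m) (g.x m) (c2 (p z0))))
  have hk1 : ∀ m, m ≠ i → bw (w1 m) (k1 m) = 1 := fun m hm =>
    lab_one g hm hzc1 hzd1 ((p z0).2.2.2.1 m)
  have hk2 : ∀ m, m ≠ i → bw (w2 m) (k2 m) = 1 := fun m hm =>
    lab_one g hm hzc2 hzd2 ((p z0).2.2.2.2.1 m)
  let yb : A → YD g w1 w2 := fun a =>
    ⟨(c1 (q (G a)), c2 (q (G a)), tr g w1 i k1 (s1 (q (G a)) ()) (c1 (q (G a))),
      tr g w2 i k2 (s2 (q (G a)) ()) (c2 (q (G a))), ll (q (G a))),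
      mem_ball_zero_iff.2 (hGc a).1, mem_ball_zero_iff.2 (hGc a).2.1,
      fun m => tr_bw g w1 i k1 _ _ hk1 (hGc a).1 (hGc a).2.2.1 ((q (G a)).2.2.2.1 ()) m,
      fun m => tr_bw g w2 i k2 _ _ hk2 (hGc a).2.1 (hGc a).2.2.2 ((q (G a)).2.2.2.2.1 ()) m,
      (q (G a)).2.2.2.2.2⟩
  have hyb : Continuous yb := by
    refine Continuous.subtype_mk ?_ _
    refine (ambc1.comp hqG).prodMk ((ambc2.comp hqG).prodMk (Continuous.prodMk ?_
      (Continuous.prodMk ?_ (ambll.comp hqG))))
    · exact tr_cont g w1 i k1 ((ambs1 ()).comp hqG) (ambc1.comp hqG) (fun a => (hGc a).1)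
        (fun a => (hGc a).2.2.1)
    · exact tr_cont g w2 i k2 ((ambs2 ()).comp hqG) (ambc2.comp hqG) (fun a => (hGc a).2.1)
        (fun a => (hGc a).2.2.2)
  have hres : ∀ a, res g w1 w2 i (yb a) = q (G a) := by
    intro a
    apply Subtype.ext
    refine Prod.ext rfl (Prod.ext rfl (Prod.ext ?_ (Prod.ext ?_ rfl)))
    · funext u
      show tr g w1 i k1 (s1 (q (G a)) ()) (c1 (q (G a))) i = s1 (q (G a)) u
      exact if_pos rfl
    · funext u
      show tr g w2 i k2 (s2 (q (G a)) ()) (c2 (q (G a))) i = s2 (q (G a)) u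
      exact if_pos rfl
  have e0 : p z0 = yb a0 := by
    apply Subtype.ext
    have e1 : c1 (p z0) = c1 (q (G a0)) := by rw [hqz]; rfl
    have e2 : c2 (p z0) = c2 (q (G a0)) := by rw [hqz]; rfl
    have e3 : ll (p z0) = ll (q (G a0)) := by rw [hqz]; rfl
    refine Prod.ext e1 (Prod.ext e2 (Prod.ext ?_ (Prod.ext ?_ e3)))
    · funext m
      show s1 (p z0) m = tr g w1 i k1 (s1 (q (G a0)) ()) (c1 (q (G a0))) m
      unfold tr
      by_cases hm : m = i
      · rw [if_pos hm, hqz, hm]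
        rfl
      · rw [if_neg hm, ← e1]
        exact (act_lab _ _ _).symm
    · funext m
      show s2 (p z0) m = tr g w2 i k2 (s2 (q (G a0)) ()) (c2 (q (G a0))) m
      unfold tr
      by_cases hm : m = i
      · rw [if_pos hm, hqz, hm]
        rfl
      · rw [if_neg hm, ← e2]
        exact (act_lab _ _ _).symm
  obtain ⟨E, ⟨hE1, hE2⟩, -⟩ := h.hp.existsUnique_continuousMap_lifts ⟨yb, hyb⟩ a0 z0 e0
  have hE3 : ∀ a, p (E a) = yb a := fun a => congrFun hE2 a
  refine ⟨E, E.continuous, hE1, ?_⟩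
  have hfin : (fun a => f (E a)) = G := by
    refine h.hq.eq_of_comp_eq (h.hf.comp E.continuous) hG ?_ a0 ?_
    · funext a
      show q (f (E a)) = q (G a)
      rw [h.comm, hE3, hres]
    · show f (E a0) = G a0
      rw [hE1, h0]
  exact fun a => congrFun hfin a

theorem uniqII (h : IIS g w1 w2 i p q f) {A : Type*} [TopologicalSpace A]
    [PreconnectedSpace A] (E E' : A → Z) (hE : Continuous E) (hE' : Continuous E')
    (hc : ∀ a, p (E a) ∈ chU g w1 w2 {(some i, some i)})
    (hc' : ∀ a, p (E' a) ∈ chU g w1 w2 {(some i, some i)})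
    (hf : ∀ a, f (E a) = f (E' a)) (a0 : A) (h0 : E a0 = E' a0) : E = E' := by
  refine h.hp.eq_of_comp_eq hE hE' ?_ a0 h0
  funext a
  show p (E a) = p (E' a)
  have hr : ∀ a, res g w1 w2 i (p (E a)) = res g w1 w2 i (p (E' a)) := by
    intro a
    rw [← h.comm, ← h.comm, hf]
  have hm : ∀ a, res g w1 w2 i (p (E a)) ∈ capV g w1 w2 i := fun a =>
    (mem_capV_iff g w1 w2 i _).2 (hc a)
  have hm' : ∀ a, res g w1 w2 i (p (E' a)) ∈ capV g w1 w2 i := fun a =>
    (mem_capV_iff g w1 w2 i _).2 (hc' a)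
  have e1 : ∀ a, c1 (p (E a)) = c1 (p (E' a)) := fun a =>
    congrArg (fun y : Y1 g w1 w2 i => c1 y) (hr a)
  have e2 : ∀ a, c2 (p (E a)) = c2 (p (E' a)) := fun a =>
    congrArg (fun y : Y1 g w1 w2 i => c2 y) (hr a)
  have e3 : ∀ a, ll (p (E a)) = ll (p (E' a)) := fun a =>
    congrArg (fun y : Y1 g w1 w2 i => ll y) (hr a)
  have e4 : ∀ a, s1 (p (E a)) i = s1 (p (E' a)) i := fun a =>
    congrArg (fun y : Y1 g w1 w2 i => s1 y ()) (hr a)
  have e5 : ∀ a, s2 (p (E a)) i = s2 (p (E' a)) i := fun a =>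
    congrArg (fun y : Y1 g w1 w2 i => s2 y ()) (hr a)
  have hpE : Continuous (fun a => p (E a)) := h.hp.continuous.comp hE
  have hpE' : Continuous (fun a => p (E' a)) := h.hp.continuous.comp hE'
  have L1 : ∀ m, m ≠ i → ∀ (F : A → Z), Continuous (fun a => p (F a)) →
      (∀ a, res g w1 w2 i (p (F a)) ∈ capV g w1 w2 i) →
      lab (w1 m) (s1 (p (F a)) m) (rt (w1 m) (LL (g.e m) (g.x m) (c1 (p (F a))))) =
      lab (w1 m) (s1 (p (F a0)) m) (rt (w1 m) (LL (g.e m) (g.x m) (c1 (p (F a0))))) := by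
    intro m hmi F hF hFm
    refine lab_const (S := (univ : Set A)) isPreconnected_univ (w1 m)
      (fun a => s1 (p (F a)) m) (fun a => LL (g.e m) (g.x m) (c1 (p (F a))))
      ((ambs1 m).comp hF).continuousOn ?_ ?_ a (mem_univ a) a0 (mem_univ a0)
    · exact ((LL_continuousOn (g.e m) (g.x m)).comp_continuous (ambc1.comp hF)
        fun a => cap_half g hmi (hFm a).1 (hFm a).2.2.1).continuousOn
    · intro b _
      show bw (w1 m) (s1 (p (F b)) m) = exp (LL (g.e m) (g.x m) (c1 (p (F b))))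
      have h5 : exp (LL (g.e m) (g.x m) (c1 (p (F b)))) = c1 (p (F b)) - g.x m :=
        exp_LL (g.he m) (cap_half g hmi (hFm b).1 (hFm b).2.2.1)
      rw [h5]
      exact (p (F b)).2.2.2.1 m
  have L2 : ∀ m, m ≠ i → ∀ (F : A → Z), Continuous (fun a => p (F a)) →
      (∀ a, res g w1 w2 i (p (F a)) ∈ capV g w1 w2 i) →
      lab (w2 m) (s2 (p (F a)) m) (rt (w2 m) (LL (g.e m) (g.x m) (c2 (p (F a))))) =
      lab (w2 m) (s2 (p (F a0)) m) (rt (w2 m) (LL (g.e m) (g.x m) (c2 (p (F a0))))) := by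
    intro m hmi F hF hFm
    refine lab_const (S := (univ : Set A)) isPreconnected_univ (w2 m)
      (fun a => s2 (p (F a)) m) (fun a => LL (g.e m) (g.x m) (c2 (p (F a))))
      ((ambs2 m).comp hF).continuousOn ?_ ?_ a (mem_univ a) a0 (mem_univ a0)
    · exact ((LL_continuousOn (g.e m) (g.x m)).comp_continuous (ambc2.comp hF)
        fun a => cap_half g hmi (hFm a).2.1 (hFm a).2.2.2).continuousOn
    · intro b _
      show bw (w2 m) (s2 (p (F b)) m) = exp (LL (g.e m) (g.x m) (c2 (p (F b))))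
      have h5 : exp (LL (g.e m) (g.x m) (c2 (p (F b)))) = c2 (p (F b)) - g.x m :=
        exp_LL (g.he m) (cap_half g hmi (hFm b).2.1 (hFm b).2.2.2)
      rw [h5]
      exact (p (F b)).2.2.2.2.1 m
  apply Subtype.ext
  refine Prod.ext (e1 a) (Prod.ext (e2 a) (Prod.ext ?_ (Prod.ext ?_ (e3 a))))
  · funext m
    show s1 (p (E a)) m = s1 (p (E' a)) m
    by_cases hmi : m = i
    · rw [hmi]
      exact e4 a
    · have h1 := act_lab (w1 m) (s1 (p (E a)) m) (LL (g.e m) (g.x m) (c1 (p (E a))))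
      have h2 := act_lab (w1 m) (s1 (p (E' a)) m) (LL (g.e m) (g.x m) (c1 (p (E' a))))
      rw [← h1, ← h2, L1 m hmi E hpE hm, L1 m hmi E' hpE' hm', h0, e1 a]
  · funext m
    show s2 (p (E a)) m = s2 (p (E' a)) m
    by_cases hmi : m = i
    · rw [hmi]
      exact e5 a
    · have h1 := act_lab (w2 m) (s2 (p (E a)) m) (LL (g.e m) (g.x m) (c2 (p (E a))))
      have h2 := act_lab (w2 m) (s2 (p (E' a)) m) (LL (g.e m) (g.x m) (c2 (p (E' a))))
      rw [← h1, ← h2, L2 m hmi E hpE hm, L2 m hmi E' hpE' hm', h0, e2 a]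

end ASP87
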