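import Pool.Agent.ASP87.OPWc
import Pool.Agent.ASP87.II
import Pool.Agent.ASP87.Dom

/-!
# ASP87/AsphY1: two particles and one special point

`YS univ (fun _ : Unit => a) w1 w2` is a retract of (in fact homeomorphic to)
`C x YP ![0, -1] ![w1 (), w2 ()]`:
`(c1, c2, s1, s2, l) |-> (l, c, u)`, `c = (c1 - a) exp (- l)`, `u 0 = act (w1 ()) (s1 ()) (rt (w1 ()) (- l))`,
`u 1 = act (w2 ()) (s2 ()) (rt (w2 ()) (- l))`.
-/

namespace ASP87

open Complex Topology Set ComplexConjugate

private theorem act_act_neg (w : ℕ) (s l : ℂ) : act w (act w s (rt w (-l))) (rt w l) = s := by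
  rcases eq_or_ne w 0 with rfl | hw
  · simp [act, rt]
  · simp only [act, rt, hw, if_false]
    rw [mul_assoc, ← exp_add]
    have : -l / (w : ℂ) + l / w = 0 := by ring
    rw [this, exp_zero, mul_one]

private theorem act_comp_cont (w : ℕ) {A : Type*} [TopologicalSpace A] {k l : A → ℂ}
    (hk : Continuous k) (hl : Continuous l) : Continuous (fun a => act w (k a) (rt w (l a))) := by
  unfold act
  by_cases hw : w = 0
  · simp only [hw, if_true]
    exact hk.add ((rt_continuous 0).comp hl)
  · simp only [hw, if_false]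
    exact hk.mul ((rt_continuous w).comp hl)

private theorem yc1 {κ : Type*} {D : Set ℂ} {x : κ → ℂ} {v1 v2 : κ → ℕ} :
    Continuous (c1 : YS D x v1 v2 → ℂ) :=
  continuous_fst.comp continuous_subtype_val

private theorem ys1 {κ : Type*} {D : Set ℂ} {x : κ → ℂ} {v1 v2 : κ → ℕ} (m : κ) :
    Continuous (fun y : YS D x v1 v2 => s1 y m) :=
  (continuous_apply m).comp
    ((continuous_fst.comp (continuous_snd.comp continuous_snd)).comp continuous_subtype_val)

private theorem ys2 {κ : Type*} {D : Set ℂ} {x : κ → ℂ} {v1 v2 : κ → ℕ} (m : κ) :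
    Continuous (fun y : YS D x v1 v2 => s2 y m) :=
  (continuous_apply m).comp
    ((continuous_fst.comp (continuous_snd.comp (continuous_snd.comp continuous_snd))).comp
      continuous_subtype_val)

private theorem yll {κ : Type*} {D : Set ℂ} {x : κ → ℂ} {v1 v2 : κ → ℕ} :
    Continuous (ll : YS D x v1 v2 → ℂ) :=
  (continuous_snd.comp (continuous_snd.comp (continuous_snd.comp continuous_snd))).comp
    continuous_subtype_val

theorem asph_one (a : ℂ) (w1 w2 : Unit → ℕ) : Asph (YS univ (fun _ : Unit => a) w1 w2) := by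
  intro d hd
  have hinj : Function.Injective (![0, -1] : Fin 2 → ℂ) := by
    intro i j hij
    fin_cases i <;> fin_cases j <;> simp at hij ⊢
  let v : Fin 2 → ℕ := ![w1 (), w2 ()]
  let j : YS univ (fun _ : Unit => a) w1 w2 → ℂ × YP (![0, -1] : Fin 2 → ℂ) v := fun y =>
    (ll y, ⟨((c1 y - a) * exp (-(ll y)),
      ![act (w1 ()) (s1 y ()) (rt (w1 ()) (-(ll y))),
        act (w2 ()) (s2 y ()) (rt (w2 ()) (-(ll y)))]), by
      have h1 : bw (w1 ()) (s1 y ()) = c1 y - a := y.2.2.2.1 ()
      have h2 : bw (w2 ()) (s2 y ()) = c2 y - a := y.2.2.2.2.1 ()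
      have h3 : exp (ll y) = c2 y - c1 y := y.2.2.2.2.2
      have h4 : exp (ll y) * exp (-(ll y)) = 1 := by rw [← exp_add]; simp
      intro i
      fin_cases i
      · show bw (w1 ()) (act (w1 ()) (s1 y ()) (rt (w1 ()) (-(ll y)))) =
          (c1 y - a) * exp (-(ll y)) - 0
        rw [bw_act, bw_rt, h1, sub_zero]
      · show bw (w2 ()) (act (w2 ()) (s2 y ()) (rt (w2 ()) (-(ll y)))) =
          (c1 y - a) * exp (-(ll y)) - (-1)
        rw [bw_act, bw_rt, h2]
        rw [h3] at h4
        linear_combination h4⟩)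
  let r : ℂ × YP (![0, -1] : Fin 2 → ℂ) v → YS univ (fun _ : Unit => a) w1 w2 := fun q =>
    ⟨(a + q.2.1.1 * exp q.1, a + q.2.1.1 * exp q.1 + exp q.1,
      fun _ => act (w1 ()) (q.2.1.2 0) (rt (w1 ()) q.1),
      fun _ => act (w2 ()) (q.2.1.2 1) (rt (w2 ()) q.1), q.1), by
      have h1 : bw (w1 ()) (q.2.1.2 0) = q.2.1.1 - 0 := q.2.2 0
      have h2 : bw (w2 ()) (q.2.1.2 1) = q.2.1.1 - (-1) := q.2.2 1
      refine ⟨trivial, trivial, fun _ => ?_, fun _ => ?_, ?_⟩
      · show bw (w1 ()) (act (w1 ()) (q.2.1.2 0) (rt (w1 ()) q.1)) = a + q.2.1.1 * exp q.1 - a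
        rw [bw_act, bw_rt, h1]
        ring
      · show bw (w2 ()) (act (w2 ()) (q.2.1.2 1) (rt (w2 ()) q.1)) =
          a + q.2.1.1 * exp q.1 + exp q.1 - a
        rw [bw_act, bw_rt, h2]
        ring
      · show exp q.1 = a + q.2.1.1 * exp q.1 + exp q.1 - (a + q.2.1.1 * exp q.1)
        ring⟩
  have hj : Continuous j := by
    refine yll.prodMk (Continuous.subtype_mk ?_ _)
    refine Continuous.prodMk ((yc1.sub continuous_const).mul (continuous_exp.comp yll.neg)) ?_
    refine continuous_pi fun i => ?_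
    fin_cases i
    · exact act_comp_cont (w1 ()) (ys1 ()) yll.neg
    · exact act_comp_cont (w2 ()) (ys2 ()) yll.neg
  have hr : Continuous r := by
    have hq : Continuous (fun q : ℂ × YP (![0, -1] : Fin 2 → ℂ) v => q.2.1.1) :=
      continuous_fst.comp (continuous_subtype_val.comp continuous_snd)
    have hu : ∀ i : Fin 2, Continuous (fun q : ℂ × YP (![0, -1] : Fin 2 → ℂ) v => q.2.1.2 i) :=
      fun i => (continuous_apply i).comp
        (continuous_snd.comp (continuous_subtype_val.comp continuous_snd))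
    have he : Continuous (fun q : ℂ × YP (![0, -1] : Fin 2 → ℂ) v => exp q.1) :=
      continuous_exp.comp continuous_fst
    refine Continuous.subtype_mk ?_ _
    refine (continuous_const.add (hq.mul he)).prodMk
      (((continuous_const.add (hq.mul he)).add he).prodMk (Continuous.prodMk ?_
        (Continuous.prodMk ?_ continuous_fst)))
    · exact continuous_pi fun _ => act_comp_cont (w1 ()) (hu 0) continuous_fst
    · exact continuous_pi fun _ => act_comp_cont (w2 ()) (hu 1) continuous_fst
  refine ext_retract j hj r hr ?_ (ext_prod (ext_contractible ℂ d) (asph_YP hinj v d hd))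
  intro y
  have h3 : exp (ll y) = c2 y - c1 y := y.2.2.2.2.2
  have h4 : exp (-(ll y)) * exp (ll y) = 1 := by rw [← exp_add]; simp
  apply Subtype.ext
  refine Prod.ext ?_ (Prod.ext ?_ (Prod.ext ?_ (Prod.ext ?_ rfl)))
  · show a + (c1 y - a) * exp (-(ll y)) * exp (ll y) = c1 y
    linear_combination (c1 y - a) * h4
  · show a + (c1 y - a) * exp (-(ll y)) * exp (ll y) + exp (ll y) = c2 y
    linear_combination (c1 y - a) * h4 + h3
  · funext u
    exact act_act_neg (w1 ()) (s1 y ()) (ll y)
  · funext u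
    exact act_act_neg (w2 ()) (s2 y ()) (ll y)

end ASP87
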