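import Pool.Agent.ASP87.SepCell2
import Pool.Agent.ASP87.UCGen

/-!
# ASP87/SLCY: the two-particle spaces have arbitrarily small simply connected neighbourhoods

Let `y0 in YS D x w1 w2`, `D` open, `x` injective, `N` a neighbourhood of `y0`. Let `i1 = some m` if
`c1 y0 = x m` (at most one `m`), `none` otherwise; the same for `i2`. Directions: `e1 m` = the unit vector
of `x m - c1 y0` if it is not 0, else 1; `e2 m` the same with `c2`; `u` = unit vector of `c2 y0 - c1 y0`
(nonzero: it is `exp (ll y0)`). For small `eta` let `U = ball (c1 y0) eta x ball (c2 y0) eta`: contained in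
`D x D`, and the half plane conditions of `sepCell2` hold on `U` (they hold at the centre, where the real
parts are the positive numbers `|x m - c1 y0|` etc.; finitely many conditions). Base point
`b = (c1 y0, c2 y0)`. `K` = the points over `U` with the labels of `y0`: open (from `GCell`: open and labels
locally constant), contains `y0`, simply connected (`GCell.wc`, `wc_simplyConnected`).
`K` is contained in `N` if `eta` is small: the topology is the product topology, so it is enough that all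
coordinates are close to those of `y0`, uniformly on `K`. `c1, c2`: clear. `s1 m`, `i1 <> some m`: equal to
`act (w1 m) (label) (rt (w1 m) (LL (e1 m) (x m) (c1 y)))` (`act_lab`), a continuous function of `c1 y`
with value `s1 y0 m` at `c1 y0`. `s1 m`, `i1 = some m`: `bw (w1 m) (s1 y m) = c1 y - x m = c1 y - c1 y0`, and
`bw (w1 m) (s1 y0 m) = 0`, so `w1 m <> 0` and `s1 y0 m = 0`, `|s1 y m| ^ (w1 m) < eta`. `ll`: equal to
label `+ LU u (c2 y - c1 y)`, continuous in `(c1, c2)`.
(One can argue by contradiction with a filter: the filter of the sets `K_eta` tends to `y0`.)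
-/

namespace ASP87

open Complex Topology Set ComplexConjugate

section slcy

variable {ι : Type*} {D : Set ℂ} {x : ι → ℂ} {w1 w2 : ι → ℕ}

private theorem y_c1_cont : Continuous (c1 : YS D x w1 w2 → ℂ) :=
  continuous_fst.comp continuous_subtype_val

private theorem y_c2_cont : Continuous (c2 : YS D x w1 w2 → ℂ) :=
  continuous_fst.comp (continuous_snd.comp continuous_subtype_val)

private theorem y_s1_eq (y : YS D x w1 w2) (m : ι) : bw (w1 m) (s1 y m) = c1 y - x m :=
  y.2.2.2.1 m

private theorem y_s2_eq (y : YS D x w1 w2) (m : ι) : bw (w2 m) (s2 y m) = c2 y - x m :=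
  y.2.2.2.2.1 m

private theorem y_ll_eq (y : YS D x w1 w2) : exp (ll y) = c2 y - c1 y := y.2.2.2.2.2

/-- the unit vector of `z`, or `1` -/
private noncomputable def uv (z : ℂ) : ℂ := if z = 0 then 1 else z / (‖z‖ : ℂ)

private theorem uv_norm (z : ℂ) : ‖uv z‖ = 1 := by
  unfold uv
  by_cases h : z = 0
  · rw [if_pos h, norm_one]
  · rw [if_neg h, norm_div, Complex.norm_real, norm_norm, div_self (norm_ne_zero_iff.2 h)]

private theorem uv_pos {z : ℂ} (h : z ≠ 0) : 0 < (conj (uv z) * z).re := by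
  unfold uv
  rw [if_neg h, map_div₀, Complex.conj_ofReal, div_mul_eq_mul_div, mul_comm, Complex.mul_conj,
    Complex.normSq_eq_norm_sq, ← Complex.ofReal_div, Complex.ofReal_re]
  have : 0 < ‖z‖ := norm_pos_iff.2 h
  positivity

private theorem act_continuous (w : ℕ) (k : ℂ) : Continuous (act w k) := by
  unfold act
  by_cases hw : w = 0
  · simp only [if_pos hw]
    exact continuous_const.add continuous_id
  · simp only [if_neg hw]
    exact continuous_const.mul continuous_id

/-- convergence of a root coordinate, the point is not special -/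
private theorem tend_root {Y : Type*} {l : Filter Y} {c s : Y → ℂ} {w : ℕ} {e p a s0 : ℂ}
    (hc : Filter.Tendsto c l (𝓝 a)) (ha : 0 < (conj e * (p - a)).re)
    (hl : ∀ᶠ y in l, lab w (s y) (rt w (LL e p (c y))) = lab w s0 (rt w (LL e p a))) :
    Filter.Tendsto s l (𝓝 s0) := by
  have hopen : IsOpen {c : ℂ | 0 < (conj e * (p - c)).re} :=
    isOpen_lt continuous_const (Complex.continuous_re.comp
      (continuous_const.mul (continuous_const.sub continuous_id)))
  have h1 : ContinuousAt (LL e p) a := (LL_continuousOn e p).continuousAt (hopen.mem_nhds ha)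
  have h2 : ContinuousAt (fun c => act w (lab w s0 (rt w (LL e p a))) (rt w (LL e p c))) a :=
    (act_continuous w _).continuousAt.comp ((rt_continuous w).continuousAt.comp h1)
  have h3 := h2.tendsto.comp hc
  rw [act_lab] at h3
  refine h3.congr' ?_
  filter_upwards [hl] with y hy
  show act w (lab w s0 (rt w (LL e p a))) (rt w (LL e p (c y))) = s y
  rw [← hy, act_lab]

/-- convergence of a root coordinate at a special point -/
private theorem tend_cone {Y : Type*} {l : Filter Y} {c s : Y → ℂ} {w : ℕ} {p s0 : ℂ}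
    (hc : Filter.Tendsto c l (𝓝 p)) (h0 : bw w s0 = 0) (h : ∀ y, bw w (s y) = c y - p) :
    Filter.Tendsto s l (𝓝 s0) := by
  have hw : w ≠ 0 := by
    intro hw
    rw [hw] at h0
    simp only [bw, if_true] at h0
    exact exp_ne_zero _ h0
  have hs : s0 = 0 := by
    simp only [bw, if_neg hw] at h0
    exact eq_zero_of_pow_eq_zero h0
  rw [hs]
  apply bw_tendsto hw
  have h1 : Filter.Tendsto (fun y => c y - p) l (𝓝 (p - p)) := hc.sub_const p
  rw [sub_self] at h1
  exact h1.congr fun y => (h y).symm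

end slcy

theorem slc_YS {ι : Type*} [Fintype ι] [DecidableEq ι] {D : Set ℂ} (hD : IsOpen D) {x : ι → ℂ}
    (hx : Function.Injective x) (w1 w2 : ι → ℕ) : SLC (YS D x w1 w2) := by
  intro y0 N hN
  classical
  set a := c1 y0 with ha
  set b := c2 y0 with hb
  -- indices
  have hidx : ∀ c : ℂ, ∃ i : Option ι, ∀ m, i = some m ↔ c = x m := by
    intro c
    by_cases h : ∃ m, c = x m
    · obtain ⟨m0, hm0⟩ := h
      refine ⟨some m0, fun m => ⟨fun h1 => ?_, fun h1 => ?_⟩⟩
      · cases h1
        exact hm0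
      · rw [hx (hm0.symm.trans h1)]
    · refine ⟨none, fun m => ⟨fun h1 => ?_, fun h1 => (h ⟨m, h1⟩).elim⟩⟩
      cases h1
  obtain ⟨i1, hi1⟩ := hidx a
  obtain ⟨i2, hi2⟩ := hidx b
  let e1 : ι → ℂ := fun m => uv (x m - a)
  let e2 : ι → ℂ := fun m => uv (x m - b)
  let u : ℂ := uv (b - a)
  have hba : b - a ≠ 0 := by
    rw [ha, hb, ← y_ll_eq]
    exact exp_ne_zero _
  have p1 : ∀ m, i1 ≠ some m → 0 < (conj (e1 m) * (x m - a)).re := fun m hm =>
    uv_pos (fun h => hm ((hi1 m).2 (sub_eq_zero.1 h).symm))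
  have p2 : ∀ m, i2 ≠ some m → 0 < (conj (e2 m) * (x m - b)).re := fun m hm =>
    uv_pos (fun h => hm ((hi2 m).2 (sub_eq_zero.1 h).symm))
  have p3 : 0 < (conj u * (b - a)).re := uv_pos hba
  -- the good region
  have g1 : ∀ᶠ q : ℂ × ℂ in 𝓝 (a, b), q.1 ∈ D := by
    have h1 : Filter.Tendsto (fun q : ℂ × ℂ => q.1) (𝓝 (a, b)) (𝓝 a) := continuousAt_fst
    exact h1.eventually (hD.mem_nhds y0.2.1)
  have g2 : ∀ᶠ q : ℂ × ℂ in 𝓝 (a, b), q.2 ∈ D := by
    have h1 : Filter.Tendsto (fun q : ℂ × ℂ => q.2) (𝓝 (a, b)) (𝓝 b) := continuousAt_snd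
    exact h1.eventually (hD.mem_nhds y0.2.2.1)
  have g3 : ∀ᶠ q : ℂ × ℂ in 𝓝 (a, b), ∀ m, i1 ≠ some m →
      0 < (conj (e1 m) * (x m - q.1)).re := by
    rw [Filter.eventually_all]
    intro m
    by_cases hm : i1 = some m
    · exact Filter.Eventually.of_forall fun q h => (h hm).elim
    · have h1 : Continuous fun q : ℂ × ℂ => (conj (e1 m) * (x m - q.1)).re :=
        Complex.continuous_re.comp (continuous_const.mul (continuous_const.sub continuous_fst))
      have h2 := (h1.continuousAt (x := (a, b))).eventually (lt_mem_nhds (a := 0) (p1 m hm))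
      filter_upwards [h2] with q hq _
      exact hq
  have g4 : ∀ᶠ q : ℂ × ℂ in 𝓝 (a, b), ∀ m, i2 ≠ some m →
      0 < (conj (e2 m) * (x m - q.2)).re := by
    rw [Filter.eventually_all]
    intro m
    by_cases hm : i2 = some m
    · exact Filter.Eventually.of_forall fun q h => (h hm).elim
    · have h1 : Continuous fun q : ℂ × ℂ => (conj (e2 m) * (x m - q.2)).re :=
        Complex.continuous_re.comp (continuous_const.mul (continuous_const.sub continuous_snd))
      have h2 := (h1.continuousAt (x := (a, b))).eventually (lt_mem_nhds (a := 0) (p2 m hm))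
      filter_upwards [h2] with q hq _
      exact hq
  have g5 : ∀ᶠ q : ℂ × ℂ in 𝓝 (a, b), 0 < (conj u * (q.2 - q.1)).re := by
    have h1 : Continuous fun q : ℂ × ℂ => (conj u * (q.2 - q.1)).re :=
      Complex.continuous_re.comp (continuous_const.mul (continuous_snd.sub continuous_fst))
    exact (h1.continuousAt (x := (a, b))).eventually (lt_mem_nhds (a := 0) p3)
  -- the filter
  let L := sepLab2 (D := D) (x := x) (w1 := w1) (w2 := w2) e1 e2 u i1 i2
  let l : Filter (YS D x w1 w2) :=
    Filter.comap (fun y => (c1 y, c2 y)) (𝓝 (a, b)) ⊓ Filter.principal {y | L y = L y0}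
  have tc : Filter.Tendsto (fun y : YS D x w1 w2 => (c1 y, c2 y)) l (𝓝 (a, b)) :=
    Filter.tendsto_comap.mono_left inf_le_left
  have tL : ∀ᶠ y in l, L y = L y0 := Filter.mem_inf_of_right (Filter.mem_principal_self _)
  have t1 : Filter.Tendsto (c1 : YS D x w1 w2 → ℂ) l (𝓝 a) :=
    (continuous_fst.tendsto (a, b)).comp tc
  have t2 : Filter.Tendsto (c2 : YS D x w1 w2 → ℂ) l (𝓝 b) :=
    (continuous_snd.tendsto (a, b)).comp tc
  have ts1 : ∀ m, Filter.Tendsto (fun y : YS D x w1 w2 => s1 y m) l (𝓝 (s1 y0 m)) := by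
    intro m
    by_cases hm : i1 = some m
    · have h1 : a = x m := (hi1 m).1 hm
      refine tend_cone (p := x m) (w := w1 m) (c := c1) ?_ ?_ (fun y => y_s1_eq y m)
      · rw [← h1]
        exact t1
      · rw [y_s1_eq, ← ha, h1, sub_self]
    · refine tend_root (w := w1 m) (e := e1 m) (p := x m) t1 (p1 m hm) ?_
      filter_upwards [tL] with y hy
      have h5 := congrFun (congrArg Prod.fst hy) m
      have h7 : (if i1 = some m then (0 : ℂ) else
        lab (w1 m) (s1 y m) (rt (w1 m) (LL (e1 m) (x m) (c1 y)))) =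
        (if i1 = some m then (0 : ℂ) else
        lab (w1 m) (s1 y0 m) (rt (w1 m) (LL (e1 m) (x m) (c1 y0)))) := h5
      rwa [if_neg hm, if_neg hm] at h7
  have ts2 : ∀ m, Filter.Tendsto (fun y : YS D x w1 w2 => s2 y m) l (𝓝 (s2 y0 m)) := by
    intro m
    by_cases hm : i2 = some m
    · have h1 : b = x m := (hi2 m).1 hm
      refine tend_cone (p := x m) (w := w2 m) (c := c2) ?_ ?_ (fun y => y_s2_eq y m)
      · rw [← h1]
        exact t2
      · rw [y_s2_eq, ← hb, h1, sub_self]
    · refine tend_root (w := w2 m) (e := e2 m) (p := x m) t2 (p2 m hm) ?_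
      filter_upwards [tL] with y hy
      have h5 := congrFun (congrArg Prod.fst (congrArg Prod.snd hy)) m
      have h7 : (if i2 = some m then (0 : ℂ) else
        lab (w2 m) (s2 y m) (rt (w2 m) (LL (e2 m) (x m) (c2 y)))) =
        (if i2 = some m then (0 : ℂ) else
        lab (w2 m) (s2 y0 m) (rt (w2 m) (LL (e2 m) (x m) (c2 y0)))) := h5
      rwa [if_neg hm, if_neg hm] at h7
  have tl : Filter.Tendsto (ll : YS D x w1 w2 → ℂ) l (𝓝 (ll y0)) := by
    have hopen : IsOpen {d : ℂ | 0 < (conj u * d).re} :=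
      isOpen_lt continuous_const (Complex.continuous_re.comp
        (continuous_const.mul continuous_id))
    have h1 : ContinuousAt (LU u) (b - a) := (LU_continuousOn u).continuousAt (hopen.mem_nhds p3)
    have h2 : Filter.Tendsto (fun y : YS D x w1 w2 => c2 y - c1 y) l (𝓝 (b - a)) := t2.sub t1
    have h3 : Filter.Tendsto (fun y : YS D x w1 w2 =>
        (ll y0 - LU u (b - a)) + LU u (c2 y - c1 y)) l
        (𝓝 ((ll y0 - LU u (b - a)) + LU u (b - a))) := (h1.tendsto.comp h2).const_add _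
    rw [sub_add_cancel] at h3
    refine h3.congr' ?_
    filter_upwards [tL] with y hy
    have h5 : ll y - LU u (c2 y - c1 y) = ll y0 - LU u (c2 y0 - c1 y0) :=
      congrArg Prod.snd (congrArg Prod.snd hy)
    show (ll y0 - LU u (b - a)) + LU u (c2 y - c1 y) = ll y
    rw [ha, hb, ← h5]
    ring
  have hl : l ≤ 𝓝 y0 := by
    have h1 : Filter.Tendsto (fun y : YS D x w1 w2 => (y : Amb ι)) l (𝓝 (y0 : Amb ι)) :=
      t1.prodMk_nhds (t2.prodMk_nhds ((tendsto_pi_nhds.2 ts1).prodMk_nhds
        ((tendsto_pi_nhds.2 ts2).prodMk_nhds tl)))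
    have h2 : Filter.Tendsto (id : YS D x w1 w2 → YS D x w1 w2) l (𝓝 y0) :=
      tendsto_subtype_rng.2 h1
    rwa [Filter.tendsto_id'] at h2
  -- the radius
  have hNl : N ∈ l := hl hN
  have hN2 : {y : YS D x w1 w2 | L y = L y0 → y ∈ N} ∈
      Filter.comap (fun y : YS D x w1 w2 => (c1 y, c2 y)) (𝓝 (a, b)) :=
    Filter.mem_inf_principal.1 hNl
  obtain ⟨T, hT, hTN⟩ := Filter.mem_comap.1 hN2
  obtain ⟨δ, hδ, hball⟩ := Metric.mem_nhds_iff.1
    (Filter.inter_mem hT (g1.and (g2.and (g3.and (g4.and g5)))))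
  have hgood : ∀ q ∈ Metric.ball (a, b) δ, q ∈ T ∧ q.1 ∈ D ∧ q.2 ∈ D ∧
      (∀ m, i1 ≠ some m → 0 < (conj (e1 m) * (x m - q.1)).re) ∧
      (∀ m, i2 ≠ some m → 0 < (conj (e2 m) * (x m - q.2)).re) ∧
      0 < (conj u * (q.2 - q.1)).re := fun q hq => hball hq
  have hcell : GCell {y : YS D x w1 w2 | (c1 y, c2 y) ∈ Metric.ball (a, b) δ} L :=
    sepCell2 (Metric.ball (a, b) δ) Metric.isOpen_ball (convex_ball _ _)
      (fun q hq => ⟨(hgood q hq).2.1, (hgood q hq).2.2.1⟩) e1 e2 (fun m => uv_norm _)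
      (fun m => uv_norm _) u (uv_norm _) i1 i2
      (fun q hq => (hgood q hq).2.2.2.1) (fun q hq => (hgood q hq).2.2.2.2.1)
      (fun q hq => (hgood q hq).2.2.2.2.2) (a, b) (Metric.mem_ball_self hδ)
      (fun m hm => (hi1 m).1 hm) (fun m hm => (hi2 m).1 hm)
  have hy0 : y0 ∈ {y : YS D x w1 w2 | (c1 y, c2 y) ∈ Metric.ball (a, b) δ} :=
    Metric.mem_ball_self hδ
  refine ⟨{y' : YS D x w1 w2 | y' ∈ {y : YS D x w1 w2 | (c1 y, c2 y) ∈ Metric.ball (a, b) δ} ∧
    L y' = L y0}, ?_, ?_, ⟨hy0, rfl⟩, wc_simplyConnected (hcell.wc y0 hy0)⟩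
  · rintro y ⟨h1, h2⟩
    exact hTN (hgood _ h1).1 h2
  · rw [isOpen_iff_mem_nhds]
    rintro y ⟨h1, h2⟩
    filter_upwards [hcell.op.mem_nhds h1, hcell.lc y h1] with z hz1 hz2
    exact ⟨hz1, hz2.trans h2⟩

end ASP87
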