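import Pool.Agent.ASP87.WcZ
import Pool.Agent.ASP87.SLCY

/-!
# ASP87/AsphYD: reduction of the two-particle space to the one-point spaces

`asph_YD`: by `asph_of_ucovers` with `slc_YS` (`Metric.isOpen_ball`, `g.x_inj`) let `p : Z -> YD` be a covering, `Z`
simply connected and locally path connected. `OneSys`: fix `i` and `z0 in Z`. `exists_ucover_at (Y1 i) slc
(res i (p z0))` gives `Z1`, `q`, `z1`; `Z1` is WC by `wc_of_cover` (`Asph (Y1 i)`). The continuous map
`res i o p : Z -> Y1 i` lifts to `f : Z -> Z1` with `f z0 = z1`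
(`IsCoveringMap.existsUnique_continuousMap_lifts`, `Z` simply connected and locally path connected). Choose all this for all `i` (`choose`),
build `OneSys`, apply `wcZ`. `slc_YS` for `Y1 i`: index type `Unit`, `D = univ`, `x` injective because `Unit` is a
subsingleton.
-/

namespace ASP87

open Complex Topology Set ComplexConjugate

theorem asph_YD {ι : Type} [Fintype ι] [DecidableEq ι] (g : Geo ι) (w1 w2 : ι → ℕ)
    (hw1 : ∀ i, w1 i ≠ 1) (hw2 : ∀ i, w2 i ≠ 1) (h1 : ∀ i, Asph (Y1 g w1 w2 i)) :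
    Asph (YD g w1 w2) := by
  refine asph_of_ucovers (YD g w1 w2) (slc_YS Metric.isOpen_ball g.x_inj w1 w2) ?_
  intro Z tZ p hsc hlpc hp
  obtain ⟨z0⟩ : Nonempty Z := inferInstance
  have H : ∀ i, ∃ (Z1 : Type) (t1 : TopologicalSpace Z1) (q : Z1 → Y1 g w1 w2 i) (f : Z → Z1),
      IIS g w1 w2 i p q f ∧ SimplyConnectedSpace Z1 ∧ LocallyPathConnectedSpace Z1 ∧ WC Z1 := by
    intro i
    obtain ⟨Z1, t1, q, z1, a1, a2, a3, a4⟩ := exists_ucover_at (Y1 g w1 w2 i)
      (slc_YS isOpen_univ (Function.injective_of_subsingleton _) _ _) (res g w1 w2 i (p z0))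
    obtain ⟨f, ⟨hf1, hf2⟩, -⟩ := a3.existsUnique_continuousMap_lifts
      ⟨fun z => res g w1 w2 i (p z), (res_continuous g w1 w2 i).comp hp.continuous⟩ z0 z1 a4
    exact ⟨Z1, t1, q, f, ⟨hp, a3, f.continuous, fun z => congrFun hf2 z⟩, a1, a2,
      wc_of_cover a3 (h1 i)⟩
  choose Z1 t1 q f h2 h3 h4 h5 using H
  exact wcZ hp ⟨Z1, t1, q, f, h2, h3, h4, h5⟩ hw1 hw2

end ASP87
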