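import Pool.Agent.ASP87.Geo

/-!
# ASP87/GeoEx: existence of the geometry

`ι` finite: `n = card ι`, `k : ι -> Fin n` a bijection, `e i = exp (I k_i / (n + 1))`: unit vectors, different for
different `i` (angles in `[0, 1)`). For `i <> j` `|e i + e j| < 2`: equality in the triangle inequality for unit
vectors gives `e i = e j`. Finitely many pairs: there is `r0` with `1/2 <= r0 < 1`, `|e i + e j| <= 2 r0` for all
`i <> j`. `r1 = r0 + (1 - r0)/3`, `r2 = r0 + 2 (1 - r0)/3`.
-/

namespace ASP87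

open Complex Topology in
theorem exists_geo (ι : Type*) [Finite ι] : Nonempty (Geo ι) := by
  classical
  obtain ⟨n, ⟨k⟩⟩ := Finite.exists_equiv_fin ι
  have hD : ∀ t : ℝ, (1 - (t : ℂ) * I) ≠ 0 := by
    intro t h
    have := congrArg Complex.re h
    simp at this
  let e : ι → ℂ := fun i => (1 + ((k i : ℕ) : ℝ) * I) / (1 - ((k i : ℕ) : ℝ) * I)
  have he : ∀ i, ‖e i‖ = 1 := by
    intro i
    show ‖(1 + (((k i : ℕ) : ℝ) : ℂ) * I) / (1 - (((k i : ℕ) : ℝ) : ℂ) * I)‖ = 1
    rw [norm_div]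
    have h1 : (1 + (((k i : ℕ) : ℝ) : ℂ) * I) =
        (starRingEnd ℂ) (1 - (((k i : ℕ) : ℝ) : ℂ) * I) := by
      rw [map_sub, map_mul, map_one, Complex.conj_I, Complex.conj_ofReal]
      ring
    rw [h1, RCLike.norm_conj]
    exact div_self (norm_ne_zero_iff.2 (hD _))
  have hinj : ∀ i j, i ≠ j → e i ≠ e j := by
    intro i j hij h
    apply hij
    have h1 : (1 + (((k i : ℕ) : ℝ) : ℂ) * I) / (1 - (((k i : ℕ) : ℝ) : ℂ) * I) =
      (1 + (((k j : ℕ) : ℝ) : ℂ) * I) / (1 - (((k j : ℕ) : ℝ) : ℂ) * I) := h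
    rw [div_eq_div_iff (hD _) (hD _)] at h1
    have h2 := congrArg Complex.im h1
    simp at h2
    have h3 : ((k i : ℕ) : ℝ) = ((k j : ℕ) : ℝ) := by linarith
    have h4 : (k i : ℕ) = (k j : ℕ) := by exact_mod_cast h3
    exact k.injective (Fin.ext h4)
  have hlt : ∀ i j, i ≠ j → ‖e i + e j‖ / 2 < 1 := by
    intro i j hij
    have h1 := parallelogram_law_with_norm ℝ (e i) (e j)
    rw [he, he] at h1
    have h2 : 0 < ‖e i - e j‖ := norm_pos_iff.2 (sub_ne_zero.2 (hinj i j hij))
    have h3 := norm_nonneg (e i + e j)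
    rw [div_lt_one (by norm_num)]
    by_contra hc
    rw [not_lt] at hc
    nlinarith
  have hev : ∀ {c : ℝ}, c < 1 → ∀ᶠ x in 𝓝[<] (1 : ℝ), c < x := fun hc =>
    (eventually_gt_nhds hc).filter_mono nhdsWithin_le_nhds
  have e1 : ∀ᶠ x in 𝓝[<] (1 : ℝ), ∀ p : ι × ι, p.1 ≠ p.2 → ‖e p.1 + e p.2‖ / 2 < x := by
    refine Filter.eventually_all.2 fun p => ?_
    by_cases hp : p.1 = p.2
    · exact Filter.Eventually.of_forall fun x h => absurd hp h
    · filter_upwards [hev (hlt _ _ hp)] with x hx _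
      exact hx
  have e3 : ∀ᶠ x in 𝓝[<] (1 : ℝ), x < 1 := self_mem_nhdsWithin
  obtain ⟨r0, h1, h2, h3⟩ := (e1.and (e3.and (hev (show (1 / 2 : ℝ) < 1 by norm_num)))).exists
  exact ⟨{ e := e
           r0 := r0
           r1 := (2 * r0 + 1) / 3
           r2 := (r0 + 2) / 3
           he := he
           h0 := by linarith
           h01 := by linarith
           h12 := by linarith
           h2 := by linarith
           hd := fun i j hij => by
             have := h1 (i, j) hij
             dsimp only at this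
             linarith }⟩

end ASP87
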