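import Pool.Agent.ASP87.TSys

/-!
# ASP87/TDisc: the plane and the disc

`H z = z / (1 + |z|)`, `K w = w / (1 - |w|)`.
* `K (H z) = z`, `|H z| = |z| / (1 + |z|) < 1`; `H (K w) = w` for `|w| < 1`. Continuity: clear (`1 - |w| > 0` on the
  ball).
* `H` monotone: for `z <> z'` let `a = 1 / (1 + |z|)`, `a' = 1 / (1 + |z'|)`. It is enough that
  `Re (conj (z - z') (H z - H z')) > 0` (the quotient is this divided by `|z - z'|^2`). It equals
  `a |z|^2 + a' |z'|^2 - (a + a') Re (conj z z')`. If `|z| = |z'|` then `a = a'` and it is `a |z - z'|^2 > 0`. Otherwise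
  it is `>= a |z|^2 + a' |z'|^2 - (a + a') |z| |z'| = (|z| - |z'|) (a |z| - a' |z'|) > 0`, because `r |-> r / (1 + r)` is strictly
  increasing on `r >= 0`.
* `K` monotone on the ball: for `w <> w'`, `z = K w`, `z' = K w'`: `(K w - K w') / (w - w') = 1 / q`, `q` the quotient of `H`
  at `z, z'` (`z <> z'` because `H z = w <> w' = H z'`), `Re (1/q) = Re q / |q|^2 > 0`.
-/

namespace ASP87

open Complex Topology Set

namespace TDisc

/-- plane to disc -/
noncomputable def dH (z : ℂ) : ℂ := z / ((1 + ‖z‖ : ℝ) : ℂ)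

/-- disc to plane -/
noncomputable def dK (z : ℂ) : ℂ := z / ((1 - ‖z‖ : ℝ) : ℂ)

theorem norm_dH (z : ℂ) : ‖dH z‖ = ‖z‖ / (1 + ‖z‖) := by
  unfold dH
  rw [norm_div, Complex.norm_real, Real.norm_of_nonneg (by positivity)]

theorem norm_dH_lt (z : ℂ) : ‖dH z‖ < 1 := by
  rw [norm_dH, div_lt_one (by positivity)]
  linarith

theorem norm_dK {w : ℂ} (hw : ‖w‖ < 1) : ‖dK w‖ = ‖w‖ / (1 - ‖w‖) := by
  unfold dK
  rw [norm_div, Complex.norm_real, Real.norm_of_nonneg (by linarith)]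

theorem dK_dH (z : ℂ) : dK (dH z) = z := by
  have h0 : (0 : ℝ) < 1 + ‖z‖ := by positivity
  have h1 : 1 - ‖dH z‖ = (1 + ‖z‖)⁻¹ := by
    rw [norm_dH]
    field_simp
    ring
  unfold dK
  rw [h1]
  unfold dH
  push_cast
  have h2 : (1 + (‖z‖ : ℂ)) ≠ 0 := by exact_mod_cast h0.ne'
  field_simp

theorem dH_dK {w : ℂ} (hw : ‖w‖ < 1) : dH (dK w) = w := by
  have h0 : (0 : ℝ) < 1 - ‖w‖ := by linarith
  have h1 : 1 + ‖dK w‖ = (1 - ‖w‖)⁻¹ := by
    rw [norm_dK hw]
    field_simp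
    ring
  unfold dH
  rw [h1]
  unfold dK
  push_cast
  have h2 : (1 - (‖w‖ : ℂ)) ≠ 0 := by exact_mod_cast h0.ne'
  field_simp

theorem dH_cont : Continuous dH := by
  unfold dH
  refine continuous_id.div (continuous_ofReal.comp (continuous_const.add continuous_norm)) ?_
  intro z
  have h0 : (0 : ℝ) < 1 + ‖z‖ := by positivity
  exact_mod_cast h0.ne'

theorem dK_cont : ContinuousOn dK (Metric.ball (0 : ℂ) 1) := by
  unfold dK
  refine continuous_id.continuousOn.div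
    (continuous_ofReal.comp (continuous_const.sub continuous_norm)).continuousOn ?_
  intro z hz
  have hz' : ‖z‖ < 1 := by simpa using hz
  have h0 : (0 : ℝ) < 1 - ‖z‖ := by linarith
  exact_mod_cast h0.ne'

theorem dH_mono {z z' : ℂ} (h : z ≠ z') : 0 < ((dH z - dH z') / (z - z')).re := by
  set a : ℝ := (1 + ‖z‖)⁻¹ with ha
  set a' : ℝ := (1 + ‖z'‖)⁻¹ with ha'
  have hn : 0 ≤ ‖z‖ := norm_nonneg z
  have hn' : 0 ≤ ‖z'‖ := norm_nonneg z'
  have a0 : 0 < a := by positivity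
  have a0' : 0 < a' := by positivity
  have a1 : a ≤ 1 := inv_le_one_of_one_le₀ (by linarith)
  have a1' : a' ≤ 1 := inv_le_one_of_one_le₀ (by linarith)
  have e1 : dH z = (a : ℂ) * z := by
    unfold dH
    rw [ha]
    push_cast
    ring
  have e2 : dH z' = (a' : ℂ) * z' := by
    unfold dH
    rw [ha']
    push_cast
    ring
  have hN : 0 < Complex.normSq (z - z') := Complex.normSq_pos.2 (sub_ne_zero.2 h)
  have r2 : ‖z‖ ^ 2 = z.re ^ 2 + z.im ^ 2 := by
    rw [← Complex.normSq_eq_norm_sq, Complex.normSq_apply]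
    ring
  have s2 : ‖z'‖ ^ 2 = z'.re ^ 2 + z'.im ^ 2 := by
    rw [← Complex.normSq_eq_norm_sq, Complex.normSq_apply]
    ring
  have hN2 : Complex.normSq (z - z') = (z.re - z'.re) ^ 2 + (z.im - z'.im) ^ 2 := by
    rw [Complex.normSq_apply, Complex.sub_re, Complex.sub_im]
    ring
  have hc : z.re * z'.re + z.im * z'.im ≤ ‖z‖ * ‖z'‖ := by
    refine abs_le_of_sq_le_sq' ?_ (by positivity) |>.2
    rw [mul_pow, r2, s2]
    nlinarith [sq_nonneg (z.re * z'.im - z.im * z'.re)]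
  have key : (a * z.re - a' * z'.re) * (z.re - z'.re) + (a * z.im - a' * z'.im) * (z.im - z'.im) =
      a * a' * (‖z‖ - ‖z'‖) ^ 2 + (a + a') * (‖z‖ * ‖z'‖ - (z.re * z'.re + z.im * z'.im)) := by
    have f1 : a * (1 + ‖z‖) = 1 := inv_mul_cancel₀ (by positivity)
    have f2 : a' * (1 + ‖z'‖) = 1 := inv_mul_cancel₀ (by positivity)
    have f3 : a * a' * (‖z‖ - ‖z'‖) ^ 2 = (‖z‖ - ‖z'‖) * (a * ‖z‖ - a' * ‖z'‖) := by
      have f4 : a * ‖z‖ - a' * ‖z'‖ = a * a' * (‖z‖ - ‖z'‖) := by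
        linear_combination (a' * ‖z'‖) * f1 - (a * ‖z‖) * f2
      rw [f4]
      ring
    rw [f3]
    linear_combination (-a) * r2 + (-a') * s2
  have key2 : a * a' * Complex.normSq (z - z') ≤
      (a * z.re - a' * z'.re) * (z.re - z'.re) + (a * z.im - a' * z'.im) * (z.im - z'.im) := by
    rw [key]
    have g1 : Complex.normSq (z - z') = (‖z‖ - ‖z'‖) ^ 2 +
        2 * (‖z‖ * ‖z'‖ - (z.re * z'.re + z.im * z'.im)) := by
      rw [hN2]
      linear_combination -r2 - s2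
    rw [g1]
    have g2 : 0 ≤ ‖z‖ * ‖z'‖ - (z.re * z'.re + z.im * z'.im) := by linarith
    have g3 : 2 * (a * a') ≤ a + a' := by nlinarith
    nlinarith [mul_le_mul_of_nonneg_right g3 g2]
  rw [e1, e2, Complex.div_re, ← add_div]
  refine div_pos ?_ hN
  have p1 : 0 < a * a' * Complex.normSq (z - z') := by positivity
  simp only [Complex.sub_re, Complex.sub_im, Complex.re_ofReal_mul, Complex.im_ofReal_mul]
  linarith

theorem dK_mono {w w' : ℂ} (hw : ‖w‖ < 1) (hw' : ‖w'‖ < 1) (h : w ≠ w') :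
    0 < ((dK w - dK w') / (w - w')).re := by
  have hne : dK w ≠ dK w' := by
    intro e
    apply h
    rw [← dH_dK hw, ← dH_dK hw', e]
  have h1 := dH_mono hne
  rw [dH_dK hw, dH_dK hw'] at h1
  rw [← inv_div, Complex.inv_re]
  refine div_pos h1 (Complex.normSq_pos.2 ?_)
  intro h0
  rw [h0] at h1
  simp at h1

end TDisc

open TDisc in
theorem exists_disc : ∃ H K : Unit → ℂ → ℂ, MF univ (Metric.ball (0 : ℂ) 1) H ∧
    MF (Metric.ball (0 : ℂ) 1) univ K ∧ (∀ z, K () (H () z) = z) ∧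
    ∀ z ∈ Metric.ball (0 : ℂ) 1, H () (K () z) = z := by
  refine ⟨fun _ => dH, fun _ => dK, ⟨?_, ?_, ?_⟩, ⟨?_, ?_, ?_⟩, fun z => dK_dH z, fun z hz => ?_⟩
  · exact (dH_cont.comp continuous_snd).continuousOn
  · intro _ z _
    simpa using norm_dH_lt z
  · intro _ z _ z' _ h
    exact dH_mono h
  · exact dK_cont.comp continuous_snd.continuousOn (fun q hq => hq.2)
  · intro _ z _
    exact mem_univ _
  · intro _ z hz z' hz' h
    exact dK_mono (by simpa using hz) (by simpa using hz') h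
  · exact dH_dK (by simpa using hz)

end ASP87
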