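import Pool.Agent.ASP87.TSys

/-!
# ASP87/TConf: configuration spaces of the plane are path connected

`B` finite. Two injective maps `x, y : B -> C`. For `t : C` let `z t = (1 - t) x + t y`. `z t i = z t j` means
`(x i - x j) + t ((y i - y j) - (x i - x j)) = 0`; for `i <> j` this has at most one solution `t` (if the
coefficient of `t` is 0 it says `x i = x j`, impossible). So `z t` is injective for all `t` outside a finite set
`T`, and `0, 1` are not in `T`. `C \ T` is path connected
(`Set.Countable.isPathConnected_compl_of_one_lt_rank`, Mathlib; `rank_real_complex`), so there is a path from 0 to 1 in it; `t |-> z t`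
maps it to a path from `x` to `y`. Nonempty: `B` is finite, so it embeds into `N`, hence into `C`.
-/

namespace ASP87

open Complex Topology Set

instance conf_pc (B : Type*) [Finite B] : PathConnectedSpace (Conf B) := by
  refine ⟨?_, ?_⟩
  · obtain ⟨n, ⟨e⟩⟩ := Finite.exists_equiv_fin B
    refine ⟨⟨fun b => ((e b : ℕ) : ℂ), ?_⟩⟩
    intro b b' h
    have h1 : ((e b : ℕ) : ℂ) = ((e b' : ℕ) : ℂ) := h
    exact e.injective (Fin.ext (by exact_mod_cast h1))
  · rintro ⟨x, hx⟩ ⟨y, hy⟩
    set T : Set ℂ := ⋃ q : {q : B × B // q.1 ≠ q.2},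
      {t : ℂ | x q.1.1 + t * (y q.1.1 - x q.1.1) = x q.1.2 + t * (y q.1.2 - x q.1.2)} with hT
    have hTc : T.Countable := by
      refine Set.countable_iUnion fun q => Set.Subsingleton.countable ?_
      intro t ht t' ht'
      have h1 : x q.1.1 + t * (y q.1.1 - x q.1.1) = x q.1.2 + t * (y q.1.2 - x q.1.2) := ht
      have h2 : x q.1.1 + t' * (y q.1.1 - x q.1.1) = x q.1.2 + t' * (y q.1.2 - x q.1.2) := ht'
      have h3 : (t - t') * ((y q.1.1 - x q.1.1) - (y q.1.2 - x q.1.2)) = 0 := by
        linear_combination h1 - h2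
      rcases mul_eq_zero.1 h3 with h | h
      · exact sub_eq_zero.1 h
      · exfalso
        apply q.2
        apply hx
        linear_combination h1 - t * h
    have hrk : 1 < Module.rank ℝ ℂ := by
      rw [Complex.rank_real_complex]
      norm_num
    have hpc := hTc.isPathConnected_compl_of_one_lt_rank hrk
    have h0 : (0 : ℂ) ∈ Tᶜ := by
      intro h
      obtain ⟨q, hq⟩ := mem_iUnion.1 h
      have h1 : x q.1.1 + 0 * (y q.1.1 - x q.1.1) = x q.1.2 + 0 * (y q.1.2 - x q.1.2) := hq
      rw [zero_mul, zero_mul, add_zero, add_zero] at h1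
      exact q.2 (hx h1)
    have h1 : (1 : ℂ) ∈ Tᶜ := by
      intro h
      obtain ⟨q, hq⟩ := mem_iUnion.1 h
      have h1 : x q.1.1 + 1 * (y q.1.1 - x q.1.1) = x q.1.2 + 1 * (y q.1.2 - x q.1.2) := hq
      apply q.2
      apply hy
      linear_combination h1
    obtain ⟨γ, hγ⟩ := hpc.joinedIn 0 h0 1 h1
    refine ⟨⟨⟨fun s => ⟨fun b => x b + γ s * (y b - x b), ?_⟩, ?_⟩, ?_, ?_⟩⟩
    · intro b b' h
      by_contra hne
      apply hγ s
      rw [hT, mem_iUnion]
      exact ⟨⟨(b, b'), hne⟩, h⟩
    · refine Continuous.subtype_mk (continuous_pi fun b => ?_) _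
      exact continuous_const.add (γ.continuous.mul continuous_const)
    · apply Subtype.ext
      funext b
      simp
    · apply Subtype.ext
      funext b
      simp

end ASP87
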