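import Pool.Agent.ASP87.Defs

/-!
# ASP87/TLoc: local triviality over a connected base

`LTS p b`: near `b` the map `p` is a product with the fibre over `b`: there are a neighbourhood `U` and a
homeomorphism `U x p^-1(b) -> p^-1(U)` over `U`.
* `fib_of_lts`: for `b' in U` the fibre over `b'` is homeomorphic to the fibre over `b`: restrict the
  homeomorphism to `{b'} x p^-1(b)`.
* `loctriv_of_lts`: `B` preconnected, `LTS p b` for all `b`, `b0 in B`: `LocTriv (p^-1 {b0}) p`. The set of all `b`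
  with `p^-1(b0)` homeomorphic to `p^-1(b)` is open and its complement is open (`fib_of_lts`; take `U` open, or its
  interior), so it is everything. For `b` with `U`, `Φ` and `e : p^-1(b0) = p^-1(b)`: define
  `s (b', f) = Φ (b', e f)` if `b' in U`, `f` otherwise (as an element of `E`);
  `t y = e^-1 (second component of Φ^-1 y)` if `p y in U`, otherwise any element of `p^-1(b0)` (nonempty: it is
  homeomorphic to `p^-1(p y)`, which contains `y`). `TrivOn` on `U`: continuity on `p^-1 U` and `U x F`.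
* `fib_homeo`: `LocTriv F p` gives a homeomorphism of every fibre with `F`: `f |-> s (b, f)`, inverse `t`.
-/

namespace ASP87

open Topology Set

variable {E B : Type*} [TopologicalSpace E] [TopologicalSpace B]

def LTS (p : E → B) (b : B) : Prop :=
  ∃ U ∈ 𝓝 b, ∃ Φ : (U × (p ⁻¹' {b})) ≃ₜ (p ⁻¹' U), ∀ u f, p (Φ (u, f)).1 = u.1

private theorem fib_of_lts {p : E → B} {b b' : B} {U : Set B} (hb' : b' ∈ U)
    (Φ : (U × (p ⁻¹' {b})) ≃ₜ (p ⁻¹' U)) (hΦ : ∀ u f, p (Φ (u, f)).1 = u.1) :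
    Nonempty ((p ⁻¹' {b}) ≃ₜ (p ⁻¹' {b'})) := by
  have hm : ∀ y : p ⁻¹' {b'}, y.1 ∈ p ⁻¹' U := fun y => by
    have h : p y.1 = b' := y.2
    show p y.1 ∈ U
    rw [h]
    exact hb'
  refine ⟨⟨⟨fun f => ⟨(Φ (⟨b', hb'⟩, f)).1, hΦ _ _⟩, fun y => (Φ.symm ⟨y.1, hm y⟩).2, ?_, ?_⟩, ?_, ?_⟩⟩
  · intro f
    show (Φ.symm ⟨(Φ (⟨b', hb'⟩, f)).1, _⟩).2 = f
    rw [Subtype.coe_eta, Homeomorph.symm_apply_apply]
  · intro y
    apply Subtype.ext
    show (Φ (⟨b', hb'⟩, (Φ.symm ⟨y.1, hm y⟩).2)).1 = y.1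
    have h1 : (Φ.symm ⟨y.1, hm y⟩).1 = ⟨b', hb'⟩ := by
      apply Subtype.ext
      have h2 := hΦ (Φ.symm ⟨y.1, hm y⟩).1 (Φ.symm ⟨y.1, hm y⟩).2
      rw [Prod.mk.eta, Homeomorph.apply_symm_apply] at h2
      rw [← h2]
      exact y.2
    rw [← h1, Prod.mk.eta, Homeomorph.apply_symm_apply]
  · refine Continuous.subtype_mk ?_ _
    exact continuous_subtype_val.comp (Φ.continuous.comp (continuous_const.prodMk continuous_id))
  · exact continuous_snd.comp (Φ.symm.continuous.comp (Continuous.subtype_mk continuous_subtype_val _))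

theorem loctriv_of_lts [PreconnectedSpace B] {p : E → B} (hp : Continuous p)
    (h : ∀ b, LTS p b) (b0 : B) : LocTriv (p ⁻¹' {b0}) p := by
  classical
  set S : Set B := {b | Nonempty ((p ⁻¹' {b0}) ≃ₜ (p ⁻¹' {b}))} with hS
  have hS1 : IsOpen S := by
    rw [isOpen_iff_mem_nhds]
    rintro b ⟨e⟩
    obtain ⟨U, hU, Φ, hΦ⟩ := h b
    refine Filter.mem_of_superset hU fun b' hb' => ?_
    obtain ⟨e'⟩ := fib_of_lts hb' Φ hΦ
    exact ⟨e.trans e'⟩
  have hS2 : IsOpen Sᶜ := by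
    rw [isOpen_iff_mem_nhds]
    intro b hb
    obtain ⟨U, hU, Φ, hΦ⟩ := h b
    refine Filter.mem_of_superset hU fun b' hb' => ?_
    rintro ⟨e⟩
    obtain ⟨e'⟩ := fib_of_lts hb' Φ hΦ
    exact hb ⟨e.trans e'.symm⟩
  have hS3 : S = univ := IsClopen.eq_univ ⟨isOpen_compl_iff.1 hS2, hS1⟩ ⟨b0, ⟨Homeomorph.refl _⟩⟩
  have hall : ∀ b, Nonempty ((p ⁻¹' {b0}) ≃ₜ (p ⁻¹' {b})) := fun b => by
    have : b ∈ S := by
      rw [hS3]
      exact mem_univ b
    exact this
  refine ⟨hp, fun b => ?_⟩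
  obtain ⟨U, hU, Φ, hΦ⟩ := h b
  obtain ⟨e⟩ := hall b
  let t : E → p ⁻¹' {b0} := fun y =>
    if hy : p y ∈ U then e.symm (Φ.symm ⟨y, hy⟩).2 else (hall (p y)).some.symm ⟨y, rfl⟩
  let s : B × (p ⁻¹' {b0}) → E := fun q => if hq : q.1 ∈ U then (Φ (⟨q.1, hq⟩, e q.2)).1 else q.2.1
  have ht : ∀ (y : E) (hy : p y ∈ U), t y = e.symm (Φ.symm ⟨y, hy⟩).2 := fun y hy => dif_pos hy
  have hs : ∀ (q : B × (p ⁻¹' {b0})) (hq : q.1 ∈ U), s q = (Φ (⟨q.1, hq⟩, e q.2)).1 := fun q hq => dif_pos hq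
  refine ⟨U, hU, t, s, ?_, ?_, ?_, ?_, ?_⟩
  · rw [continuousOn_iff_continuous_domRestrict]
    have h1 : (p ⁻¹' U).domRestrict t = fun y => e.symm (Φ.symm y).2 := by
      funext y
      exact ht y.1 y.2
    rw [h1]
    exact e.symm.continuous.comp (continuous_snd.comp Φ.symm.continuous)
  · rw [continuousOn_iff_continuous_domRestrict]
    have h1 : (U ×ˢ (univ : Set (p ⁻¹' {b0}))).domRestrict s = fun q => (Φ (⟨q.1.1, q.2.1⟩, e q.1.2)).1 := by
      funext q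
      exact hs q.1 q.2.1
    rw [h1]
    refine continuous_subtype_val.comp (Φ.continuous.comp (Continuous.prodMk ?_ ?_))
    · exact Continuous.subtype_mk (continuous_fst.comp continuous_subtype_val) _
    · exact e.continuous.comp (continuous_snd.comp continuous_subtype_val)
  · intro b' hb' f
    rw [hs (b', f) hb']
    exact hΦ _ _
  · intro b' hb' f
    have h1 : p (s (b', f)) ∈ U := by
      rw [hs (b', f) hb', hΦ]
      exact hb'
    rw [ht _ h1]
    have h2 : (⟨s (b', f), h1⟩ : p ⁻¹' U) = Φ (⟨b', hb'⟩, e f) := Subtype.ext (hs (b', f) hb')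
    rw [h2, Homeomorph.symm_apply_apply, Homeomorph.symm_apply_apply]
  · intro y hy
    rw [hs (p y, t y) hy, ht y hy]
    show (Φ (⟨p y, hy⟩, e (e.symm (Φ.symm ⟨y, hy⟩).2))).1 = y
    rw [Homeomorph.apply_symm_apply]
    have h1 : (Φ.symm ⟨y, hy⟩).1 = ⟨p y, hy⟩ := by
      apply Subtype.ext
      have h2 := hΦ (Φ.symm ⟨y, hy⟩).1 (Φ.symm ⟨y, hy⟩).2
      rw [Prod.mk.eta, Homeomorph.apply_symm_apply] at h2
      exact h2.symm
    rw [← h1, Prod.mk.eta, Homeomorph.apply_symm_apply]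

theorem fib_homeo {F : Type*} [TopologicalSpace F] {p : E → B} (h : LocTriv F p) (b : B) :
    Nonempty (p ⁻¹' {b} ≃ₜ F) := by
  obtain ⟨U, hU, t, s, ht⟩ := h.2 b
  have hb : b ∈ U := mem_of_mem_nhds hU
  have hm : ∀ y : p ⁻¹' {b}, y.1 ∈ p ⁻¹' U := fun y => by
    have h : p y.1 = b := y.2
    show p y.1 ∈ U
    rw [h]
    exact hb
  refine ⟨⟨⟨fun y => t y.1, fun f => ⟨s (b, f), ht.ps b hb f⟩, ?_, ?_⟩, ?_, ?_⟩⟩
  · intro y
    apply Subtype.ext
    show s (b, t y.1) = y.1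
    have h1 := ht.st y.1 (hm y)
    have h2 : p y.1 = b := y.2
    rw [h2] at h1
    exact h1
  · intro f
    exact ht.ts b hb f
  · exact ht.ct.comp_continuous continuous_subtype_val hm
  · refine Continuous.subtype_mk ?_ _
    exact ht.cs.comp_continuous (continuous_const.prodMk continuous_id) fun f => ⟨hb, mem_univ _⟩

end ASP87
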