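import Pool.Agent.ASP87.TSys

/-!
# ASP87/TSmall: small monotone maps that move finitely many points

`b0 : B -> C` injective, `B` finite. `δ > 0` with `δ <= |b0 i - b0 j|` for `i <> j`.
`bump i z = max 0 (1 - |z - b0 i| / δ)`: values in `[0,1]`, 1 at `b0 i`, 0 at `b0 j` for `j <> i`,
`(1/δ)`-Lipschitz. `ε = δ / (2 (|B| + 1))`, `cl v = (ε / max ε |v|) v`: continuous, `|cl v| <= ε`, `cl v = v` if `|v| <= ε`.
`G b z = Σ i, bump i z * cl (b i - b0 i)`, `H b z = z + G b z`.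
* `|G b z - G b z'| <= |B| (1/δ) ε |z - z'| <= |z - z'| / 2`. So `(H z - H z') / (z - z') = 1 + v`, `|v| <= 1/2`, real part
  `>= 1/2`; and `|z - z'| <= 2 |H b z - H b z'|`.
* `H b (b0 i) = b0 i + cl (b i - b0 i) = b i` if `|b i - b0 i| <= ε`.
* `K b ζ` = the fixed point of the contraction `z |-> ζ - G b z` (`ContractingWith`), so `H b (K b ζ) = ζ`; uniqueness
  gives `K b (H b z) = z`.
* `K` jointly continuous: `|K b ζ - K b' ζ'| <= 2 |H b (K b ζ) - H b (K b' ζ')| <= 2 |ζ - ζ'| + 2 |H b' z' - H b z'|`,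
  `z' = K b' ζ'`, and `|H b' z - H b z| <= Σ i, |cl (b' i - b0 i) - cl (b i - b0 i)|` for all `z`.
* `K` is monotone: `(K u - K u') / (u - u') = 1 / q`, `Re (1/q) = Re q / |q|^2 > 0`.
-/

namespace ASP87

open Complex Topology Set

private noncomputable def tsB (δ : ℝ) (c z : ℂ) : ℝ := max (1 - ‖z - c‖ / δ) 0

private theorem tsB_lip {δ : ℝ} (hδ : 0 < δ) (c z z' : ℂ) :
    |tsB δ c z - tsB δ c z'| ≤ ‖z - z'‖ / δ := by
  unfold tsB
  refine (abs_max_sub_max_le_abs _ _ _).trans ?_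
  have h1 : 1 - ‖z - c‖ / δ - (1 - ‖z' - c‖ / δ) = (‖z' - c‖ - ‖z - c‖) / δ := by ring
  rw [h1, abs_div, abs_of_pos hδ]
  apply div_le_div_of_nonneg_right _ hδ.le
  have h2 := abs_norm_sub_norm_le (z' - c) (z - c)
  rw [sub_sub_sub_cancel_right, norm_sub_rev z' z] at h2
  exact h2

private theorem tsB_nonneg (δ : ℝ) (c z : ℂ) : 0 ≤ tsB δ c z := le_max_right _ _

private theorem tsB_le_one {δ : ℝ} (hδ : 0 < δ) (c z : ℂ) : tsB δ c z ≤ 1 := by
  unfold tsB
  have h : 0 ≤ ‖z - c‖ / δ := by positivity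
  exact max_le (by linarith) zero_le_one

private theorem tsB_self (δ : ℝ) (c : ℂ) : tsB δ c c = 1 := by
  unfold tsB
  simp

private theorem tsB_far {δ : ℝ} (hδ : 0 < δ) {c z : ℂ} (h : δ ≤ ‖z - c‖) : tsB δ c z = 0 := by
  unfold tsB
  apply max_eq_right
  have : 1 ≤ ‖z - c‖ / δ := by rwa [le_div_iff₀ hδ, one_mul]
  linarith

private theorem tsB_cont {δ : ℝ} (c : ℂ) : Continuous (tsB δ c) := by
  unfold tsB
  fun_prop

private noncomputable def tsC (ε : ℝ) (v : ℂ) : ℂ := ((ε / max ε ‖v‖ : ℝ) : ℂ) * v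

private theorem tsC_norm {ε : ℝ} (hε : 0 < ε) (v : ℂ) : ‖tsC ε v‖ ≤ ε := by
  unfold tsC
  have hm : 0 < max ε ‖v‖ := lt_of_lt_of_le hε (le_max_left _ _)
  rw [norm_mul, Complex.norm_real, Real.norm_of_nonneg (by positivity), div_mul_eq_mul_div,
    div_le_iff₀ hm]
  exact mul_le_mul_of_nonneg_left (le_max_right _ _) hε.le

private theorem tsC_eq {ε : ℝ} (hε : 0 < ε) {v : ℂ} (hv : ‖v‖ ≤ ε) : tsC ε v = v := by
  unfold tsC
  rw [max_eq_left hv, div_self hε.ne', Complex.ofReal_one, one_mul]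

private theorem tsC_cont {ε : ℝ} (hε : 0 < ε) : Continuous (tsC ε) := by
  unfold tsC
  have h1 : Continuous fun v : ℂ => ε / max ε ‖v‖ :=
    continuous_const.div (continuous_const.max continuous_norm) fun v =>
      (lt_of_lt_of_le hε (le_max_left _ _)).ne'
  exact (Complex.continuous_ofReal.comp h1).mul continuous_id

private noncomputable def tsG {B : Type*} [Fintype B] (δ ε : ℝ) (b0 b : B → ℂ) (z : ℂ) : ℂ :=
  ∑ i, ((tsB δ (b0 i) z : ℝ) : ℂ) * tsC ε (b i - b0 i)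

private theorem tsG_cont {B : Type*} [Fintype B] {δ ε : ℝ} (hε : 0 < ε) (b0 : B → ℂ) :
    Continuous fun q : (B → ℂ) × ℂ => tsG δ ε b0 q.1 q.2 := by
  unfold tsG
  refine continuous_finsetSum _ fun i _ => ?_
  refine (Complex.continuous_ofReal.comp ((tsB_cont _).comp continuous_snd)).mul ?_
  exact (tsC_cont hε).comp (((continuous_apply i).comp continuous_fst).sub continuous_const)

private theorem tsG_lip {B : Type*} [Fintype B] {δ ε : ℝ} (hδ : 0 < δ) (hε : 0 < ε)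
    (hεδ : 2 * (Fintype.card B : ℝ) * ε ≤ δ) (b0 b : B → ℂ) (z z' : ℂ) :
    ‖tsG δ ε b0 b z - tsG δ ε b0 b z'‖ ≤ 1 / 2 * ‖z - z'‖ := by
  unfold tsG
  rw [← Finset.sum_sub_distrib]
  refine (norm_sum_le _ _).trans ?_
  calc ∑ i, ‖((tsB δ (b0 i) z : ℝ) : ℂ) * tsC ε (b i - b0 i) -
        ((tsB δ (b0 i) z' : ℝ) : ℂ) * tsC ε (b i - b0 i)‖
      ≤ ∑ _i : B, ‖z - z'‖ / δ * ε := by
        refine Finset.sum_le_sum fun i _ => ?_
        rw [← sub_mul, norm_mul, ← Complex.ofReal_sub, Complex.norm_real, Real.norm_eq_abs]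
        exact mul_le_mul (tsB_lip hδ _ _ _) (tsC_norm hε _) (norm_nonneg _) (by positivity)
    _ = (Fintype.card B : ℝ) * ε / δ * ‖z - z'‖ := by
        rw [Finset.sum_const, nsmul_eq_mul, Finset.card_univ]
        ring
    _ ≤ 1 / 2 * ‖z - z'‖ := by
        refine mul_le_mul_of_nonneg_right ?_ (norm_nonneg _)
        rw [div_le_iff₀ hδ]
        linarith

private theorem tsG_diff {B : Type*} [Fintype B] {δ ε : ℝ} (hδ : 0 < δ) (b0 b b' : B → ℂ)
    (z : ℂ) : ‖tsG δ ε b0 b' z - tsG δ ε b0 b z‖ ≤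
      ∑ i, ‖tsC ε (b' i - b0 i) - tsC ε (b i - b0 i)‖ := by
  unfold tsG
  rw [← Finset.sum_sub_distrib]
  refine (norm_sum_le _ _).trans (Finset.sum_le_sum fun i _ => ?_)
  rw [← mul_sub, norm_mul, Complex.norm_real, Real.norm_of_nonneg (tsB_nonneg _ _ _)]
  calc _ ≤ 1 * ‖tsC ε (b' i - b0 i) - tsC ε (b i - b0 i)‖ :=
        mul_le_mul_of_nonneg_right (tsB_le_one hδ _ _) (norm_nonneg _)
    _ = _ := one_mul _

private theorem tsG_pt {B : Type*} [Fintype B] {δ ε : ℝ} (hδ : 0 < δ) (hε : 0 < ε)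
    {b0 b : B → ℂ} (hb0 : ∀ i j, i ≠ j → δ ≤ ‖b0 i - b0 j‖) (hb : ∀ i, ‖b i - b0 i‖ ≤ ε) (i : B) :
    tsG δ ε b0 b (b0 i) = b i - b0 i := by
  unfold tsG
  rw [Finset.sum_eq_single i]
  · rw [tsB_self, Complex.ofReal_one, one_mul, tsC_eq hε (hb i)]
  · intro j _ hj
    rw [tsB_far hδ (hb0 i j hj.symm), Complex.ofReal_zero, zero_mul]
  · intro h
    exact absurd (Finset.mem_univ i) h

private theorem ts_re {v : ℂ} (hv : ‖v‖ ≤ 1 / 2) : 0 < (1 + v).re := by
  have h := (abs_le.1 ((Complex.abs_re_le_norm v).trans hv)).1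
  rw [Complex.add_re, Complex.one_re]
  linarith

private theorem ts_delta {B : Type*} [Finite B] {b0 : B → ℂ} (hb0 : Function.Injective b0) :
    ∃ δ : ℝ, 0 < δ ∧ ∀ i j, i ≠ j → δ ≤ ‖b0 i - b0 j‖ := by
  classical
  cases nonempty_fintype B
  set P : Finset (B × B) := Finset.univ.filter fun p => p.1 ≠ p.2 with hP
  rcases P.eq_empty_or_nonempty with h | h
  · refine ⟨1, one_pos, fun i j hij => ?_⟩
    have : (i, j) ∈ P := by
      rw [hP, Finset.mem_filter]
      exact ⟨Finset.mem_univ _, hij⟩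
    rw [h] at this
    exact absurd this (Finset.notMem_empty _)
  · obtain ⟨p, hp, hmin⟩ := P.exists_min_image (fun p => ‖b0 p.1 - b0 p.2‖) h
    refine ⟨‖b0 p.1 - b0 p.2‖, ?_, fun i j hij => ?_⟩
    · rw [norm_pos_iff, sub_ne_zero]
      rw [hP, Finset.mem_filter] at hp
      exact fun h => hp.2 (hb0 h)
    · exact hmin (i, j) (by
        rw [hP, Finset.mem_filter]
        exact ⟨Finset.mem_univ _, hij⟩)

theorem exists_small {B : Type*} [Finite B] {b0 : B → ℂ} (hb0 : Function.Injective b0) :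
    ∃ (ε : ℝ) (H K : (B → ℂ) → ℂ → ℂ), 0 < ε ∧ MF univ univ H ∧ MF univ univ K ∧
      (∀ b z, K b (H b z) = z) ∧ (∀ b z, H b (K b z) = z) ∧
      ∀ b, (∀ i, ‖b i - b0 i‖ ≤ ε) → ∀ i, H b (b0 i) = b i := by
  cases nonempty_fintype B
  obtain ⟨δ, hδ, hδb⟩ := ts_delta hb0
  set ε : ℝ := δ / (2 * ((Fintype.card B : ℝ) + 1)) with hε
  have hε0 : 0 < ε := by positivity
  have hεδ : 2 * (Fintype.card B : ℝ) * ε ≤ δ := by
    rw [hε, ← mul_div_assoc, div_le_iff₀ (by positivity)]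
    nlinarith
  set G : (B → ℂ) → ℂ → ℂ := tsG δ ε b0 with hG
  have hGl : ∀ b z z', ‖G b z - G b z'‖ ≤ 1 / 2 * ‖z - z'‖ := fun b z z' =>
    tsG_lip hδ hε0 hεδ b0 b z z'
  have hcon : ∀ (b : B → ℂ) (ζ : ℂ), ContractingWith (1 / 2) fun z => ζ - G b z := by
    intro b ζ
    refine ⟨?_, LipschitzWith.of_dist_le_mul fun z z' => ?_⟩
    · rw [← NNReal.coe_lt_coe]
      norm_num
    · rw [dist_eq_norm, dist_eq_norm, sub_sub_sub_cancel_left, norm_sub_rev]
      have := hGl b z z'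
      push_cast
      exact this
  set H : (B → ℂ) → ℂ → ℂ := fun b z => z + G b z with hH
  set K : (B → ℂ) → ℂ → ℂ := fun b ζ => ContractingWith.fixedPoint _ (hcon b ζ) with hK
  have hKf : ∀ b ζ, ζ - G b (K b ζ) = K b ζ := fun b ζ => (hcon b ζ).fixedPoint_isFixedPt
  have hHK : ∀ b ζ, H b (K b ζ) = ζ := by
    intro b ζ
    have h := hKf b ζ
    show K b ζ + G b (K b ζ) = ζ
    linear_combination -h
  have hKH : ∀ b z, K b (H b z) = z := by
    intro b z
    refine ((hcon b (H b z)).fixedPoint_unique (x := z) ?_).symm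
    show z + G b z - G b z = z
    ring
  have hHq : ∀ b z z', z ≠ z' → 0 < ((H b z - H b z') / (z - z')).re := by
    intro b z z' hne
    have h0 : z - z' ≠ 0 := sub_ne_zero.2 hne
    have h1 : (H b z - H b z') / (z - z') = 1 + (G b z - G b z') / (z - z') := by
      rw [hH]
      simp only
      field_simp
      ring
    rw [h1]
    apply ts_re
    rw [norm_div, div_le_iff₀ (norm_pos_iff.2 h0)]
    exact hGl b z z'
  have hHl : ∀ b z z', ‖z - z'‖ ≤ 2 * ‖H b z - H b z'‖ := by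
    intro b z z'
    have h1 : z - z' = (H b z - H b z') - (G b z - G b z') := by
      rw [hH]
      simp only
      ring
    have h2 := norm_sub_le (H b z - H b z') (G b z - G b z')
    rw [← h1] at h2
    have := hGl b z z'
    linarith
  refine ⟨ε, H, K, hε0, ⟨?_, fun _ _ _ => mem_univ _, fun b z _ z' _ hne => hHq b z z' hne⟩,
    ⟨?_, fun _ _ _ => mem_univ _, ?_⟩, hKH, hHK, ?_⟩
  · exact (continuous_snd.add (tsG_cont hε0 b0)).continuousOn
  · apply Continuous.continuousOn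
    rw [continuous_iff_continuousAt]
    rintro ⟨b, ζ⟩
    have hb : ∀ q : (B → ℂ) × ℂ, ‖K q.1 q.2 - K b ζ‖ ≤ 2 * ‖q.2 - ζ‖ +
        2 * ∑ i, ‖tsC ε (q.1 i - b0 i) - tsC ε (b i - b0 i)‖ := by
      intro q
      have h1 := hHl b (K q.1 q.2) (K b ζ)
      rw [hHK] at h1
      have h2 : H b (K q.1 q.2) - ζ = (q.2 - ζ) - (G q.1 (K q.1 q.2) - G b (K q.1 q.2)) := by
        have h3 := hHK q.1 q.2
        rw [hH] at h3 ⊢
        simp only at h3 ⊢
        linear_combination h3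
      have h3 := norm_sub_le (q.2 - ζ) (G q.1 (K q.1 q.2) - G b (K q.1 q.2))
      rw [← h2] at h3
      have h4 := tsG_diff (ε := ε) hδ b0 b q.1 (K q.1 q.2)
      rw [← hG] at h4
      linarith
    have hlim : Filter.Tendsto (fun q : (B → ℂ) × ℂ => 2 * ‖q.2 - ζ‖ +
        2 * ∑ i, ‖tsC ε (q.1 i - b0 i) - tsC ε (b i - b0 i)‖) (𝓝 (b, ζ)) (𝓝 0) := by
      have hc : Continuous fun q : (B → ℂ) × ℂ => 2 * ‖q.2 - ζ‖ +
          2 * ∑ i, ‖tsC ε (q.1 i - b0 i) - tsC ε (b i - b0 i)‖ := by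
        refine (continuous_const.mul (continuous_snd.sub continuous_const).norm).add
          (continuous_const.mul (continuous_finsetSum _ fun i _ => ?_))
        exact (((tsC_cont hε0).comp (((continuous_apply i).comp continuous_fst).sub
          continuous_const)).sub continuous_const).norm
      have h := hc.tendsto (b, ζ)
      simpa using h
    rw [ContinuousAt, tendsto_iff_norm_sub_tendsto_zero]
    exact squeeze_zero (fun _ => norm_nonneg _) hb hlim
  · intro b u _ u' _ hne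
    have hz : K b u ≠ K b u' := by
      intro h
      apply hne
      rw [← hHK b u, ← hHK b u', h]
    have h1 := hHq b _ _ hz
    rw [hHK, hHK] at h1
    have h2 : (K b u - K b u') / (u - u') = ((u - u') / (K b u - K b u'))⁻¹ := by
      rw [inv_div]
    rw [h2, Complex.inv_re]
    have h3 : (u - u') / (K b u - K b u') ≠ 0 :=
      div_ne_zero (sub_ne_zero.2 hne) (sub_ne_zero.2 hz)
    exact div_pos h1 (Complex.normSq_pos.2 h3)
  · intro b hb i
    show b0 i + G b (b0 i) = b i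
    rw [hG, tsG_pt hδ hε0 hδb hb i]
    ring

end ASP87
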