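import Pool.Agent.ASP87.TTr
import Pool.Agent.ASP87.TSmall
import Pool.Agent.ASP87.TLoc
import Pool.Agent.ASP87.TConf

/-!
# ASP87/TForget: forgetting points is locally trivial

`p = forget S j hj : GS S univ -> Conf B`, `B` finite. `forget_lts`: `LTS p b0`. Take `ε, H, K` of `exists_small` for
`b0`, `U = {b : Conf B | |b i - b0 i| <= ε for all i}` (a neighbourhood of `b0`: finitely many conditions, closed
balls). `Φ (b, y) = tr S (H b) y` (in `GS S univ` by `tr_mem`; its point `j i` is `H b (b0 i) = b i`, so `p Φ = b`).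
Inverse: `y |-> (p y, tr S (K (p y)) y)`; `K b (b i) = K b (H b (b0 i)) = b0 i`, so the second component is in the
fibre over `b0`. Inverse to each other by `tr_inv` (for `K`: `H b (K b z) = z`). Continuity: `tr_cont` (compose with
the continuous map `Conf B -> (B -> C)`).
`forget_loctriv`: `loctriv_of_lts`, `conf_pc`.
-/

namespace ASP87

open Complex Topology Set

theorem forget_lts {A R B : Type*} [Finite B] (S : Sys A R) (j : B → A)
    (hj : ∀ b b', b ≠ b' → S.ne (j b) (j b')) (b0 : Conf B) : LTS (forget S j hj) b0 := by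
  obtain ⟨ε, H, K, hε, hH, hK, hKH, hHK, hb⟩ := exists_small b0.2
  have hp : ∀ (y : GS S univ) (b : B), (forget S j hj y).1 b = y.1.1 (j b) := fun _ _ => rfl
  have hpc := forget_continuous S j hj
  generalize forget S j hj = p at hp hpc ⊢
  let U : Set (Conf B) := {b | ∀ i, ‖b.1 i - b0.1 i‖ ≤ ε}
  have hU : U ∈ 𝓝 b0 := by
    refine Filter.eventually_all.2 fun i => ?_
    have hc : Continuous (fun b : Conf B => ‖b.1 i - b0.1 i‖) :=
      (((continuous_apply i).comp continuous_subtype_val).sub continuous_const).norm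
    have h0 : ‖b0.1 i - b0.1 i‖ < ε := by simpa using hε
    exact ((hc.tendsto b0).eventually (gt_mem_nhds h0)).mono fun _ h => h.le
  have hfib : ∀ y : p ⁻¹' {b0}, ∀ i, y.1.1.1 (j i) = b0.1 i := by
    intro y i
    have h1 : p y.1 = b0 := y.2
    rw [← hp, h1]
  have hF : ∀ (b : Conf B) (_ : b ∈ U) (y : p ⁻¹' {b0}),
      p ⟨tr S (H b.1) y.1.1, tr_mem hH _ y.1.2⟩ = b := by
    intro b hbU y
    refine Subtype.ext (funext fun i => ?_)
    rw [hp]
    show H b.1 (y.1.1.1 (j i)) = b.1 i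
    rw [hfib, hb b.1 hbU]
  have hG : ∀ y : p ⁻¹' U, p ⟨tr S (K (p y.1).1) y.1.1, tr_mem hK _ y.1.2⟩ = b0 := by
    intro y
    refine Subtype.ext (funext fun i => ?_)
    rw [hp]
    show K (p y.1).1 (y.1.1.1 (j i)) = b0.1 i
    have h1 := hb (p y.1).1 y.2 i
    rw [← hp, ← h1, hKH]
  let F : U × (p ⁻¹' {b0}) → p ⁻¹' U := fun q =>
    ⟨⟨tr S (H q.1.1.1) q.2.1.1, tr_mem hH _ q.2.1.2⟩, by
      show p _ ∈ U
      rw [hF q.1.1 q.1.2 q.2]
      exact q.1.2⟩
  let G : p ⁻¹' U → U × (p ⁻¹' {b0}) := fun y =>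
    (⟨p y.1, y.2⟩, ⟨⟨tr S (K (p y.1).1) y.1.1, tr_mem hK _ y.1.2⟩, hG y⟩)
  have hFc : Continuous F := by
    refine Continuous.subtype_mk (Continuous.subtype_mk ?_ _) _
    refine (tr_cont (S := S) hH).comp_continuous
      (f := fun q : U × (p ⁻¹' {b0}) => (q.1.1.1, q.2.1.1)) ?_ (fun q => ⟨mem_univ _, q.2.1.2⟩)
    exact (continuous_subtype_val.comp (continuous_subtype_val.comp continuous_fst)).prodMk
      (continuous_subtype_val.comp (continuous_subtype_val.comp continuous_snd))
  have hGc : Continuous G := by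
    refine Continuous.prodMk ?_ ?_
    · exact Continuous.subtype_mk (hpc.comp continuous_subtype_val) _
    · refine Continuous.subtype_mk (Continuous.subtype_mk ?_ _) _
      refine (tr_cont (S := S) hK).comp_continuous
        (f := fun y : p ⁻¹' U => ((p y.1).1, y.1.1)) ?_ (fun y => ⟨mem_univ _, y.1.2⟩)
      exact (continuous_subtype_val.comp (hpc.comp continuous_subtype_val)).prodMk
        (continuous_subtype_val.comp continuous_subtype_val)
  have hGF : ∀ q, G (F q) = q := by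
    intro q
    have h1 : p (F q).1 = q.1.1 := hF q.1.1 q.1.2 q.2
    refine Prod.ext (Subtype.ext h1) (Subtype.ext (Subtype.ext ?_))
    show tr S (K (p (F q).1).1) (tr S (H q.1.1.1) q.2.1.1) = q.2.1.1
    rw [h1]
    exact tr_inv hH _ (fun z _ => hKH _ z) q.2.1.2
  have hFG : ∀ y, F (G y) = y := by
    intro y
    refine Subtype.ext (Subtype.ext ?_)
    show tr S (H (p y.1).1) (tr S (K (p y.1).1) y.1.1) = y.1.1
    exact tr_inv hK _ (fun z _ => hHK _ z) y.1.2
  exact ⟨U, hU, ⟨⟨F, G, hGF, hFG⟩, hFc, hGc⟩, fun u f => hF u.1 u.2 f⟩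

theorem forget_loctriv {A R B : Type*} [Finite B] (S : Sys A R) (j : B → A)
    (hj : ∀ b b', b ≠ b' → S.ne (j b) (j b')) (b0 : Conf B) :
    LocTriv (forget S j hj ⁻¹' {b0}) (forget S j hj) :=
  loctriv_of_lts (forget_continuous S j hj) (forget_lts S j hj) b0

end ASP87
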