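import Pool.Agent.ASP87.AsphYD
import Pool.Agent.ASP87.AsphY1
import Pool.Agent.ASP87.TForget
import Pool.Agent.ASP87.TDisc
import Pool.Agent.ASP87.GeoEx

/-!
# ASP87/AsphYS: two particles in the plane, arbitrary positions of the special points

`S2 w1 w2 : Sys (ι + Bool) (ι + ι + Unit)`: points: special points `inl i`, particle 1 `inr false`, particle 2
`inr true`; relations: `inl i`: particle 1 - special point `i`, weight `w1 i`; `inr (inl i)`: particle 2 - special point
`i`, weight `w2 i`; `inr (inr ())`: particle 2 - particle 1, weight 0; `ne` only between different special points.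
* `YS_homeo`: `x` injective with values in `D`: `YS D x w1 w2` is homeomorphic to
  `{y : GS (S2 w1 w2) D // forall i, y.1.1 (inl i) = x i}` (forget / insert the coordinates `x`).
* `asph_YS`: let `g : Geo ι` (`exists_geo`), `H, K` as in `exists_disc`, `x' i = K (g.x i)`, injective. `YD g w1 w2` is
  aspherical: `asph_YD`, with `asph_one` for `Y1`. `tr_homeo` with `D = univ`, `D' = ball`: `YS univ x' w1 w2` is
  homeomorphic to `YS ball g.x w1 w2` (`H (x' i) = g.x i`). `forget (S2 ..) inl`: `forget_loctriv` at `x'` and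
  `fib_homeo`: the fibre over `x` is homeomorphic to the fibre over `x'` (a fibre `forget^-1 {b}` is
  `{y // forall i, y.1.1 (inl i) = b i}`). `ext_homeo`.
-/

namespace ASP87

open Complex Topology Set

variable {ι : Type}

/-- the two-particle system -/
def S2 (w1 w2 : ι → ℕ) : Sys (ι ⊕ Bool) (ι ⊕ ι ⊕ Unit) where
  src r := match r with
    | Sum.inl _ => Sum.inr false
    | Sum.inr (Sum.inl _) => Sum.inr true
    | Sum.inr (Sum.inr _) => Sum.inr true
  tgt r := match r with
    | Sum.inl i => Sum.inl i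
    | Sum.inr (Sum.inl i) => Sum.inl i
    | Sum.inr (Sum.inr _) => Sum.inr false
  wt r := match r with
    | Sum.inl i => w1 i
    | Sum.inr (Sum.inl i) => w2 i
    | Sum.inr (Sum.inr _) => 0
  ne a b := ∃ i j, i ≠ j ∧ a = Sum.inl i ∧ b = Sum.inl j

theorem YS_homeo {D : Set ℂ} {x : ι → ℂ} (hx : Function.Injective x) (hxD : ∀ i, x i ∈ D)
    (w1 w2 : ι → ℕ) :
    Nonempty (YS D x w1 w2 ≃ₜ {y : GS (S2 w1 w2) D // ∀ i, y.1.1 (Sum.inl i) = x i}) := by
  refine ⟨{
    toFun := fun y => ⟨⟨(Sum.elim x (fun b => Bool.rec (c1 y) (c2 y) b),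
      Sum.elim (s1 y) (Sum.elim (s2 y) (fun _ => ll y))), ?_, ?_, ?_⟩, fun i => rfl⟩
    invFun := fun z => ⟨(z.1.1.1 (Sum.inr false), z.1.1.1 (Sum.inr true),
      fun i => z.1.1.2 (Sum.inl i), fun i => z.1.1.2 (Sum.inr (Sum.inl i)),
      z.1.1.2 (Sum.inr (Sum.inr ()))), ?_, ?_, ?_, ?_, ?_⟩
    left_inv := ?_
    right_inv := ?_
    continuous_toFun := ?_
    continuous_invFun := ?_ }⟩
  · rintro (i | b)
    · exact hxD i
    · cases b
      · exact y.2.1
      · exact y.2.2.1
  · rintro (i | i | i)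
    · exact y.2.2.2.1 i
    · exact y.2.2.2.2.1 i
    · have h := y.2.2.2.2.2
      show bw 0 (ll y) = c2 y - c1 y
      unfold bw
      rw [if_pos rfl]
      exact h
  · rintro a b ⟨i, j, hij, rfl, rfl⟩ h
    exact hij (hx h)
  · exact z.1.2.1 _
  · exact z.1.2.1 _
  · intro i
    have h := z.1.2.2.1 (Sum.inl i)
    have h2 := z.2 i
    show bw (w1 i) (z.1.1.2 (Sum.inl i)) = z.1.1.1 (Sum.inr false) - x i
    rw [← h2]
    exact h
  · intro i
    have h := z.1.2.2.1 (Sum.inr (Sum.inl i))
    have h2 := z.2 i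
    show bw (w2 i) (z.1.1.2 (Sum.inr (Sum.inl i))) = z.1.1.1 (Sum.inr true) - x i
    rw [← h2]
    exact h
  · have h := z.1.2.2.1 (Sum.inr (Sum.inr ()))
    have h' : bw 0 (z.1.1.2 (Sum.inr (Sum.inr ()))) =
        z.1.1.1 (Sum.inr true) - z.1.1.1 (Sum.inr false) := h
    unfold bw at h'
    simpa using h'
  · intro y
    rfl
  · intro z
    apply Subtype.ext
    apply Subtype.ext
    refine Prod.ext ?_ ?_
    · funext a
      rcases a with i | b
      · exact (z.2 i).symm
      · cases b <;> rfl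
    · funext r
      rcases r with i | i | i <;> rfl
  · refine Continuous.subtype_mk (Continuous.subtype_mk ?_ _) _
    have e1 : Continuous (c1 : YS D x w1 w2 → ℂ) := continuous_fst.comp continuous_subtype_val
    have e2 : Continuous (c2 : YS D x w1 w2 → ℂ) :=
      continuous_fst.comp (continuous_snd.comp continuous_subtype_val)
    have e3 : ∀ i, Continuous (fun y : YS D x w1 w2 => s1 y i) := fun i =>
      (continuous_apply i).comp
        ((continuous_fst.comp (continuous_snd.comp continuous_snd)).comp continuous_subtype_val)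
    have e4 : ∀ i, Continuous (fun y : YS D x w1 w2 => s2 y i) := fun i =>
      (continuous_apply i).comp
        ((continuous_fst.comp (continuous_snd.comp (continuous_snd.comp continuous_snd))).comp
          continuous_subtype_val)
    have e5 : Continuous (fun y : YS D x w1 w2 => ll y) :=
      (continuous_snd.comp (continuous_snd.comp (continuous_snd.comp continuous_snd))).comp
        continuous_subtype_val
    refine Continuous.prodMk (continuous_pi fun a => ?_) (continuous_pi fun r => ?_)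
    · rcases a with i | b
      · exact continuous_const
      · cases b
        · exact e1
        · exact e2
    · rcases r with i | i | i
      · exact e3 i
      · exact e4 i
      · exact e5
  · refine Continuous.subtype_mk ?_ _
    have f1 : ∀ a, Continuous (fun z : {y : GS (S2 w1 w2) D // ∀ i, y.1.1 (Sum.inl i) = x i} =>
        z.1.1.1 a) := fun a =>
      (continuous_apply a).comp (continuous_fst.comp
        (continuous_subtype_val.comp continuous_subtype_val))
    have f2 : ∀ r, Continuous (fun z : {y : GS (S2 w1 w2) D // ∀ i, y.1.1 (Sum.inl i) = x i} =>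
        z.1.1.2 r) := fun r =>
      (continuous_apply r).comp (continuous_snd.comp
        (continuous_subtype_val.comp continuous_subtype_val))
    exact (f1 _).prodMk ((f1 _).prodMk ((continuous_pi fun i => f2 _).prodMk
      ((continuous_pi fun i => f2 _).prodMk (f2 _))))

private theorem fib_eq (w1 w2 : ι → ℕ) {x : ι → ℂ} (hx : Function.Injective x)
    (hj : ∀ b b' : ι, b ≠ b' → (S2 w1 w2).ne (Sum.inl b) (Sum.inl b')) :
    (forget (S2 w1 w2) Sum.inl hj ⁻¹' {⟨x, hx⟩}) =
      {y : GS (S2 w1 w2) univ | ∀ i, y.1.1 (Sum.inl i) = x i} := by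
  ext y
  constructor
  · intro h i
    have h1 : forget (S2 w1 w2) Sum.inl hj y = ⟨x, hx⟩ := h
    exact congrFun (congrArg Subtype.val h1) i
  · intro h
    show forget (S2 w1 w2) Sum.inl hj y = ⟨x, hx⟩
    apply Subtype.ext
    funext i
    exact h i

theorem asph_YS [Finite ι] {x : ι → ℂ} (hx : Function.Injective x) {w1 w2 : ι → ℕ}
    (hw1 : ∀ i, w1 i ≠ 1) (hw2 : ∀ i, w2 i ≠ 1) : Asph (YS univ x w1 w2) := by
  classical
  have := Fintype.ofFinite ι
  obtain ⟨g⟩ := exists_geo ι
  obtain ⟨H, K, hH, hK, hKH, hHK⟩ := exists_disc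
  have hgx : ∀ i, g.x i ∈ Metric.ball (0 : ℂ) 1 := fun i => mem_ball_zero_iff.2 (g.norm_x i)
  set x' : ι → ℂ := fun i => K () (g.x i) with hx'
  have hHx : ∀ i, H () (x' i) = g.x i := fun i => hHK _ (hgx i)
  have hx'inj : Function.Injective x' := by
    intro i j hij
    apply g.x_inj
    rw [← hHx i, ← hHx j, hij]
  have hYD : Asph (YS (Metric.ball (0 : ℂ) 1) g.x w1 w2) :=
    asph_YD g w1 w2 hw1 hw2 (fun i => asph_one (g.x i) _ _)
  have hj : ∀ b b' : ι, b ≠ b' → (S2 w1 w2).ne (Sum.inl b) (Sum.inl b') :=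
    fun b b' h => ⟨b, b', h, rfl, rfl⟩
  obtain ⟨e1⟩ := YS_homeo hx (D := univ) (fun _ => mem_univ _) w1 w2
  obtain ⟨e5⟩ := YS_homeo g.x_inj hgx w1 w2
  obtain ⟨e4⟩ := tr_homeo (S := S2 w1 w2) hH hK (fun z hz => hKH z) hHK (Sum.inl : ι → ι ⊕ Bool) x'
    (fun _ => mem_univ _)
  have hset : {y : GS (S2 w1 w2) (Metric.ball (0 : ℂ) 1) | ∀ b, y.1.1 (Sum.inl b) = H () (x' b)} =
      {y : GS (S2 w1 w2) (Metric.ball (0 : ℂ) 1) | ∀ b, y.1.1 (Sum.inl b) = g.x b} := by
    ext y
    exact forall_congr' fun b => by rw [hHx b]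
  have e45 := Homeomorph.setCongr hset
  obtain ⟨e3⟩ := fib_homeo (forget_loctriv (S2 w1 w2) Sum.inl hj ⟨x', hx'inj⟩) ⟨x, hx⟩
  have e2 := (Homeomorph.setCongr (fib_eq w1 w2 hx hj)).symm
  have e2' := Homeomorph.setCongr (fib_eq w1 w2 hx'inj hj)
  have e := ((((((e1.trans e2).trans e3).trans e2').trans e4).trans e45).trans e5.symm).symm
  intro d hd
  exact ext_homeo e (hYD d hd)

end ASP87
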