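import Pool.Agent.ASP87.BunMerge

/-!
# ASP87/BunCube: a locally trivial bundle over a cube is trivial

Base `B = (Fin D -> I)`. By the Lebesgue number lemma there is `n >= 1` such that every closed grid
cube `Q a = {x : forall i, a i / n <= x i <= (a i + 1)/n}`, `a : Fin D -> Nat`, `a i < n`, lies in a set `U`
over which `p` is trivial. For `k <= D` and `a` let
`R k a = {x : forall i, k <= i -> a i / n <= x i <= (a i + 1)/n}` (coordinates `< k` free). Claim: `p` is
trivial over `R k a` for all `a`, by induction on `k`. `k = 0`: `R 0 a = Q a`. Step: for `m = 1..n` let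
`S m = {x in R (k+1) a : x k <= m/n}` (coordinate `k` between 0 and `m/n`). `S 1 = R k (a with a k = 0)`.
`S (m+1) = S m union R k (a with a k = m)`, both closed; `rho x =` `x` with coordinate `k` replaced by
`m/n` maps `R k (a with a k = m)` to the intersection `{x k = m/n}` and is the identity there: apply
`TrivOn.merge`. `S n = R (k+1) a`. Finally `R D a = univ`. For `D = 0` the base is a point: `Q a = univ`.
-/

namespace ASP87

open scoped unitInterval Topology
open Set

/-- the boxes with free coordinates `< k` -/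
private def Rk {D : ℕ} (n k : ℕ) (a : Fin D → ℕ) : Set (Fin D → I) :=
  {x | ∀ i : Fin D, k ≤ (i : ℕ) → ((a i : ℝ) / n ≤ (x i : ℝ) ∧ (x i : ℝ) ≤ ((a i : ℝ) + 1) / n)}

private theorem Rk_closed {D : ℕ} (n k : ℕ) (a : Fin D → ℕ) : IsClosed (Rk n k a) := by
  have h : Rk n k a = ⋂ i : Fin D, ⋂ _ : k ≤ (i : ℕ),
      {x : Fin D → I | (a i : ℝ) / n ≤ (x i : ℝ) ∧ (x i : ℝ) ≤ ((a i : ℝ) + 1) / n} := by
    ext x
    simp [Rk]
  rw [h]
  refine isClosed_iInter fun i => isClosed_iInter fun _ => ?_
  have hc : Continuous fun x : Fin D → I => (x i : ℝ) :=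
    continuous_subtype_val.comp (continuous_apply i)
  exact (isClosed_le continuous_const hc).inter (isClosed_le hc continuous_const)

/-- slabs -/
private def Sm {D : ℕ} (n k : ℕ) (a : Fin D → ℕ) (i₀ : Fin D) (m : ℕ) : Set (Fin D → I) :=
  {x | x ∈ Rk n (k + 1) a ∧ (x i₀ : ℝ) ≤ (m : ℝ) / n}

private theorem Sm_closed {D : ℕ} (n k : ℕ) (a : Fin D → ℕ) (i₀ : Fin D) (m : ℕ) :
    IsClosed (Sm n k a i₀ m) := by
  have hc : Continuous fun x : Fin D → I => (x i₀ : ℝ) :=
    continuous_subtype_val.comp (continuous_apply i₀)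
  exact (Rk_closed n (k + 1) a).inter (isClosed_le hc continuous_const)

private theorem step {F E : Type*} [TopologicalSpace F] [TopologicalSpace E] {D : ℕ}
    {p : E → (Fin D → I)} (hp : Continuous p) {n : ℕ} (hn : 0 < n) {k : ℕ} (hk : k < D)
    (ih : ∀ a : Fin D → ℕ, (∀ i, a i < n) → ∃ t s, TrivOn F p (Rk n k a) t s)
    (a : Fin D → ℕ) (ha : ∀ i, a i < n) : ∃ t s, TrivOn F p (Rk n (k + 1) a) t s := by
  classical
  have hnR : (0 : ℝ) < n := by exact_mod_cast hn
  set i₀ : Fin D := ⟨k, hk⟩ with hi₀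
  have hne : ∀ i : Fin D, k + 1 ≤ (i : ℕ) → i ≠ i₀ := by
    rintro i hi rfl
    simp [hi₀] at hi
  have hupd : ∀ m : ℕ, m < n → ∀ i, (Function.update a i₀ m) i < n := by
    intro m hm i
    by_cases h : i = i₀
    · rw [h, Function.update_self]
      exact hm
    · rw [Function.update_of_ne h]
      exact ha i
  have hmem : ∀ (m : ℕ) (x : Fin D → I), x ∈ Rk n k (Function.update a i₀ m) ↔
      x ∈ Rk n (k + 1) a ∧ (m : ℝ) / n ≤ (x i₀ : ℝ) ∧ (x i₀ : ℝ) ≤ ((m : ℝ) + 1) / n := by
    intro m x
    constructor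
    · intro hx
      refine ⟨fun i hi => ?_, ?_⟩
      · have h1 := hx i (by omega)
        rwa [Function.update_of_ne (hne i hi)] at h1
      · have h1 := hx i₀ (le_refl k)
        rwa [Function.update_self] at h1
    · rintro ⟨h1, h2⟩ i hi
      by_cases h : i = i₀
      · rw [h, Function.update_self]
        exact h2
      · rw [Function.update_of_ne h]
        refine h1 i ?_
        have h3 : (i : ℕ) ≠ k := fun e => h (Fin.ext e)
        omega
  have hS : ∀ m : ℕ, 1 ≤ m → m ≤ n → ∃ t s, TrivOn F p (Sm n k a i₀ m) t s := by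
    intro m hm
    induction m, hm using Nat.le_induction with
    | base =>
      intro _
      obtain ⟨t, s, h⟩ := ih (Function.update a i₀ 0) (hupd 0 hn)
      refine ⟨t, s, h.mono ?_⟩
      rintro x ⟨hx1, hx2⟩
      rw [hmem]
      refine ⟨hx1, ?_, ?_⟩
      · rw [Nat.cast_zero, zero_div]
        exact (x i₀).2.1
      · rw [Nat.cast_zero, zero_add]
        rwa [Nat.cast_one] at hx2
    | succ m hm ihm =>
      intro hmn
      obtain ⟨t1, s1, h1⟩ := ihm (by omega)
      obtain ⟨t2, s2, h2⟩ := ih (Function.update a i₀ m) (hupd m (by omega))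
      have hmI : (m : ℝ) / n ∈ Set.Icc (0 : ℝ) 1 :=
        ⟨by positivity, by
          rw [div_le_one hnR]
          exact_mod_cast (by omega : m ≤ n)⟩
      have hrho : Continuous fun x : Fin D → I => Function.update x i₀ (⟨(m : ℝ) / n, hmI⟩ : I) :=
        continuous_id.update i₀ continuous_const
      have hR : ∀ x ∈ Rk n (k + 1) a,
          Function.update x i₀ (⟨(m : ℝ) / n, hmI⟩ : I) ∈ Rk n (k + 1) a := by
        intro x hx i hi
        rw [Function.update_of_ne (hne i hi)]
        exact hx i hi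
      obtain ⟨t, s, h⟩ := TrivOn.merge hp (Sm_closed n k a i₀ m) (Rk_closed n k _) h1 h2
        (fun x => Function.update x i₀ (⟨(m : ℝ) / n, hmI⟩ : I)) hrho.continuousOn
        (by
          intro x hx
          rw [hmem] at hx
          refine ⟨⟨hR x hx.1, ?_⟩, ?_⟩
          · rw [Function.update_self]
          · rw [hmem]
            refine ⟨hR x hx.1, ?_, ?_⟩
            · rw [Function.update_self]
            · rw [Function.update_self]
              change (m : ℝ) / n ≤ ((m : ℝ) + 1) / n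
              exact div_le_div_of_nonneg_right (by linarith) hnR.le)
        (by
          rintro x ⟨hx1, hx2⟩
          rw [hmem] at hx2
          have h3 : x i₀ = (⟨(m : ℝ) / n, hmI⟩ : I) :=
            Subtype.ext (le_antisymm hx1.2 hx2.2.1)
          rw [← h3]
          exact Function.update_eq_self i₀ x)
      refine ⟨t, s, h.mono ?_⟩
      rintro x ⟨hx1, hx2⟩
      by_cases h3 : (x i₀ : ℝ) ≤ (m : ℝ) / n
      · exact Or.inl ⟨hx1, h3⟩
      · refine Or.inr ?_
        rw [hmem]
        refine ⟨hx1, (not_le.1 h3).le, ?_⟩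
        push_cast at hx2
        exact hx2
  obtain ⟨t, s, h⟩ := hS n (by omega) le_rfl
  refine ⟨t, s, h.mono ?_⟩
  intro x hx
  refine ⟨hx, ?_⟩
  rw [div_self hnR.ne']
  exact (x i₀).2.2

theorem bundle_cube_trivial {F E : Type*} [TopologicalSpace F] [TopologicalSpace E] {D : ℕ}
    {p : E → (Fin D → I)} (h : LocTriv F p) : ∃ t s, TrivOn F p univ t s := by
  obtain ⟨hp, hloc⟩ := h
  choose U hU hUt using hloc
  obtain ⟨δ, hδ, hball⟩ := lebesgue_number_lemma_of_metric (s := (univ : Set (Fin D → I)))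
    (c := fun b => interior (U b)) isCompact_univ (fun b => isOpen_interior)
    (fun b _ => Set.mem_iUnion.2 ⟨b, mem_interior_iff_mem_nhds.2 (hU b)⟩)
  obtain ⟨n, hn⟩ := exists_nat_gt (1 / δ)
  have hnR : (0 : ℝ) < n := lt_trans (by positivity) hn
  have hn0 : 0 < n := by exact_mod_cast hnR
  have hnδ : 1 / (n : ℝ) < δ := by
    rw [div_lt_iff₀ hnR]
    rw [div_lt_iff₀ hδ] at hn
    linarith [mul_comm (n : ℝ) δ]
  have hall : ∀ k : ℕ, k ≤ D → ∀ a : Fin D → ℕ, (∀ i, a i < n) →
      ∃ t s, TrivOn F p (Rk n k a) t s := by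
    intro k
    induction k with
    | zero =>
      intro _ a ha
      have hcI : ∀ i, (a i : ℝ) / n ∈ Set.Icc (0 : ℝ) 1 := fun i =>
        ⟨by positivity, by
          rw [div_le_one hnR]
          exact_mod_cast (ha i).le⟩
      obtain ⟨b, hb⟩ := hball (fun i => (⟨(a i : ℝ) / n, hcI i⟩ : I)) (mem_univ _)
      obtain ⟨t, s, ht⟩ := hUt b
      refine ⟨t, s, ht.mono ?_⟩
      intro x hx
      refine interior_subset (hb ?_)
      rw [Metric.mem_ball, dist_pi_lt_iff hδ]
      intro i
      have h1 := hx i (Nat.zero_le _)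
      rw [Subtype.dist_eq, Real.dist_eq, abs_of_nonneg (by
        change 0 ≤ (x i : ℝ) - (a i : ℝ) / n
        linarith [h1.1])]
      change (x i : ℝ) - (a i : ℝ) / n < δ
      have h2 : ((a i : ℝ) + 1) / n = (a i : ℝ) / n + 1 / n := by rw [add_div]
      linarith [h1.2]
    | succ k ih =>
      intro hk a ha
      exact step hp hn0 (by omega) (ih (by omega)) a ha
  obtain ⟨t, s, ht⟩ := hall D le_rfl (fun _ => 0) (fun _ => hn0)
  refine ⟨t, s, ht.mono ?_⟩
  intro x _ i hi
  exact absurd i.2 (by omega)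

end ASP87
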