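import Pool.Agent.ASP87.Defs

/-!
# ASP87/BunMerge: bundles: restriction, pullback, merging two trivializations

`TrivOn.mono`: restrict to a smaller set.
`TrivOn.pullback`: for `G : A -> B` continuous on `U'`, `G (U')` in `U`; the pullback bundle is
`PB p G = {z : A x E // G z.1 = p z.2}` with projection `z => z.1.1`; trivialization
`t' z = t z.1.2`, `s' (a, f) = <(a, s (G a, f)), _>` if `G a` is in `U` (then `p (s (G a, f)) = G a`), and
an arbitrary point of `PB p G` otherwise (`TrivOn` only constrains points over the set). Only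
`ContinuousOn` over `G^-1 U` is asked.
`LocTriv.pullback`: for `a` take the neighbourhood `U` of `G a`; `G^-1 U` is a neighbourhood of `a`.
`TrivOn.merge`: `C1, C2` closed in `B`, `rho : B -> B` continuous on `C2`, maps `C2` into `C1 inter C2`,
`rho b = b` for `b in C1 inter C2`. Put `t2' e = t1 (s2 (rho (p e), t2 e))`,
`s2' (b, f) = s2 (b, t2 (s1 (rho b, f)))`, for `b in C2`. Checks: for `b in C2`,
`t2' (s2' (b, f)) = t1 (s2 (rho b, t2 (s1 (rho b, f)))) = t1 (s1 (rho b, f)) = f` (st for `s1 (rho b, f)`,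
whose projection is `rho b in C2`); `s2' (p e, t2' e) = s2 (p e, t2 (s1 (rho b, t1 (s2 (rho b, t2 e)))))
= s2 (p e, t2 (s2 (rho b, t2 e))) = s2 (p e, t2 e) = e`, `b = p e`. On `C1 inter C2`: `t2' = t1`, `s2' = s1`.
Glue: `t e = if p e in C1 then t1 e else t2' e`, `s (b, f) = if b in C1 then s1 (b,f) else s2' (b,f)`;
continuity on `p^-1 (C1 union C2)` and `(C1 union C2) x univ` by gluing on two relatively closed
subsets (`ContinuousOn.union_of_isClosed` or `ContinuousOn.piecewise`); the preimages `p^-1 C1`,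
`p^-1 C2` are closed as `p` is continuous.
-/

namespace ASP87

open scoped unitInterval Topology
open Set

theorem TrivOn.mono {F E B : Type*} [TopologicalSpace F] [TopologicalSpace E]
    [TopologicalSpace B] {p : E → B} {U U' : Set B} {t : E → F} {s : B × F → E}
    (h : TrivOn F p U t s) (hU : U' ⊆ U) : TrivOn F p U' t s where
  ct := h.ct.mono (preimage_mono hU)
  cs := h.cs.mono (prod_mono hU subset_rfl)
  ps := fun b hb f => h.ps b (hU hb) f
  ts := fun b hb f => h.ts b (hU hb) f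
  st := fun e he => h.st e (hU he)

/-- the pullback of `p` along `G` -/
abbrev PB {A E B : Type*} (p : E → B) (G : A → B) := {z : A × E // G z.1 = p z.2}

/-- projection of the pullback -/
def pbProj {A E B : Type*} (p : E → B) (G : A → B) : PB p G → A := fun z => z.1.1

theorem TrivOn.pullback {F E A B : Type*} [TopologicalSpace F] [TopologicalSpace E]
    [TopologicalSpace A] [TopologicalSpace B] {p : E → B} {U : Set B} {t : E → F} {s : B × F → E}
    (h : TrivOn F p U t s) {G : A → B} (hG : Continuous G) (hne : Nonempty (PB p G)) :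
    ∃ (t' : PB p G → F) (s' : A × F → PB p G), TrivOn F (pbProj p G) (G ⁻¹' U) t' s' := by
  classical
  obtain ⟨z₀⟩ := hne
  set s' : A × F → PB p G := fun z =>
    if hz : G z.1 = p (s (G z.1, z.2)) then ⟨(z.1, s (G z.1, z.2)), hz⟩ else z₀ with hs'
  have hval : ∀ a ∈ G ⁻¹' U, ∀ f, (s' (a, f)).1 = (a, s (G a, f)) := by
    intro a ha f
    have h1 : G a = p (s (G a, f)) := (h.ps (G a) ha f).symm
    simp only [hs']
    rw [dif_pos h1]
  refine ⟨fun z => t z.1.2, s', ?_, ?_, ?_, ?_, ?_⟩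
  · refine h.ct.comp (continuous_snd.comp continuous_subtype_val).continuousOn ?_
    intro z hz
    change p z.1.2 ∈ U
    rw [← z.2]
    exact hz
  · rw [Topology.IsInducing.subtypeVal.continuousOn_iff]
    have h2 : ContinuousOn (fun z : A × F => (z.1, s (G z.1, z.2))) ((G ⁻¹' U) ×ˢ univ) := by
      refine continuous_fst.continuousOn.prodMk ?_
      refine h.cs.comp ((hG.comp continuous_fst).prodMk continuous_snd).continuousOn ?_
      rintro ⟨a, f⟩ ⟨ha, -⟩
      exact ⟨ha, mem_univ _⟩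
    refine h2.congr ?_
    rintro ⟨a, f⟩ ⟨ha, -⟩
    exact hval a ha f
  · intro a ha f
    change (s' (a, f)).1.1 = a
    rw [hval a ha f]
  · intro a ha f
    change t (s' (a, f)).1.2 = f
    rw [hval a ha f]
    exact h.ts (G a) ha f
  · rintro ⟨⟨a, x⟩, he⟩ ha
    apply Subtype.ext
    have ha' : a ∈ G ⁻¹' U := ha
    change (s' (a, t x)).1 = (a, x)
    rw [hval a ha' (t x)]
    have he' : G a = p x := he
    have h3 : p x ∈ U := by rw [← he']; exact ha'
    rw [he', h.st x h3]

theorem LocTriv.pullback {F E A B : Type*} [TopologicalSpace F] [TopologicalSpace E]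
    [TopologicalSpace A] [TopologicalSpace B] {p : E → B} (h : LocTriv F p)
    {G : A → B} (hG : Continuous G) (hne : Nonempty (PB p G)) :
    LocTriv F (pbProj p G) := by
  refine ⟨continuous_fst.comp continuous_subtype_val, fun a => ?_⟩
  obtain ⟨U, hU, t, s, ht⟩ := h.2 (G a)
  exact ⟨G ⁻¹' U, hG.continuousAt hU, ht.pullback hG hne⟩

theorem TrivOn.merge {F E B : Type*} [TopologicalSpace F] [TopologicalSpace E]
    [TopologicalSpace B] {p : E → B} (hp : Continuous p) {C1 C2 : Set B} (h1c : IsClosed C1)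
    (h2c : IsClosed C2) {t1 t2 : E → F} {s1 s2 : B × F → E} (h1 : TrivOn F p C1 t1 s1)
    (h2 : TrivOn F p C2 t2 s2) (rho : B → B) (hrho : ContinuousOn rho C2)
    (hr1 : ∀ b ∈ C2, rho b ∈ C1 ∩ C2) (hr2 : ∀ b ∈ C1 ∩ C2, rho b = b) :
    ∃ t s, TrivOn F p (C1 ∪ C2) t s := by
  classical
  set t2' : E → F := fun e => t1 (s2 (rho (p e), t2 e)) with ht2'
  set s2' : B × F → E := fun z => s2 (z.1, t2 (s1 (rho z.1, z.2))) with hs2'
  have k : TrivOn F p C2 t2' s2' := by
    refine ⟨?_, ?_, ?_, ?_, ?_⟩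
    · have e1 : ContinuousOn (fun e => (rho (p e), t2 e)) (p ⁻¹' C2) :=
        (hrho.comp hp.continuousOn (fun e he => he)).prodMk h2.ct
      have e2 : ContinuousOn (fun e => s2 (rho (p e), t2 e)) (p ⁻¹' C2) :=
        h2.cs.comp e1 (fun e he => ⟨(hr1 _ he).2, mem_univ _⟩)
      refine h1.ct.comp e2 (fun e he => ?_)
      change p (s2 (rho (p e), t2 e)) ∈ C1
      rw [h2.ps _ (hr1 _ he).2]
      exact (hr1 _ he).1
    · have e1 : ContinuousOn (fun z : B × F => (rho z.1, z.2)) (C2 ×ˢ univ) :=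
        (hrho.comp continuous_fst.continuousOn (fun z hz => hz.1)).prodMk
          continuous_snd.continuousOn
      have e2 : ContinuousOn (fun z : B × F => s1 (rho z.1, z.2)) (C2 ×ˢ univ) :=
        h1.cs.comp e1 (fun z hz => ⟨(hr1 _ hz.1).1, mem_univ _⟩)
      have e3 : ContinuousOn (fun z : B × F => t2 (s1 (rho z.1, z.2))) (C2 ×ˢ univ) := by
        refine h2.ct.comp e2 (fun z hz => ?_)
        change p (s1 (rho z.1, z.2)) ∈ C2
        rw [h1.ps _ (hr1 _ hz.1).1]
        exact (hr1 _ hz.1).2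
      exact h2.cs.comp (continuous_fst.continuousOn.prodMk e3) (fun z hz => ⟨hz.1, mem_univ _⟩)
    · intro b hb f
      exact h2.ps b hb _
    · intro b hb f
      change t1 (s2 (rho (p (s2 (b, t2 (s1 (rho b, f))))), t2 (s2 (b, t2 (s1 (rho b, f)))))) = f
      rw [h2.ps b hb, h2.ts b hb]
      have e1 : p (s1 (rho b, f)) = rho b := h1.ps _ (hr1 b hb).1 f
      have e2 : s2 (p (s1 (rho b, f)), t2 (s1 (rho b, f))) = s1 (rho b, f) :=
        h2.st _ (by rw [e1]; exact (hr1 b hb).2)
      rw [e1] at e2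
      rw [e2]
      exact h1.ts _ (hr1 b hb).1 f
    · intro e he
      change s2 (p e, t2 (s1 (rho (p e), t1 (s2 (rho (p e), t2 e))))) = e
      have e1 : p (s2 (rho (p e), t2 e)) = rho (p e) := h2.ps _ (hr1 _ he).2 _
      have e2 : s1 (p (s2 (rho (p e), t2 e)), t1 (s2 (rho (p e), t2 e))) =
          s2 (rho (p e), t2 e) := h1.st _ (by rw [e1]; exact (hr1 _ he).1)
      rw [e1] at e2
      rw [e2, h2.ts _ (hr1 _ he).2, h2.st e he]
  have at' : ∀ e, p e ∈ C1 ∩ C2 → t2' e = t1 e := by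
    intro e he
    change t1 (s2 (rho (p e), t2 e)) = t1 e
    rw [hr2 _ he, h2.st e he.2]
  have as' : ∀ b ∈ C1 ∩ C2, ∀ f, s2' (b, f) = s1 (b, f) := by
    intro b hb f
    change s2 (b, t2 (s1 (rho b, f))) = s1 (b, f)
    rw [hr2 b hb]
    have e1 : p (s1 (b, f)) = b := h1.ps b hb.1 f
    have e2 := h2.st (s1 (b, f)) (by rw [e1]; exact hb.2)
    rwa [e1] at e2
  set t : E → F := fun e => if p e ∈ C1 then t1 e else t2' e with ht
  set s : B × F → E := fun z => if z.1 ∈ C1 then s1 z else s2' z with hs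
  have t_1 : ∀ e, p e ∈ C1 → t e = t1 e := fun e he => if_pos he
  have t_2 : ∀ e, p e ∈ C2 → t e = t2' e := by
    intro e he
    by_cases h3 : p e ∈ C1
    · rw [t_1 e h3, at' e ⟨h3, he⟩]
    · exact if_neg h3
  have s_1 : ∀ b ∈ C1, ∀ f, s (b, f) = s1 (b, f) := fun b hb f => if_pos hb
  have s_2 : ∀ b ∈ C2, ∀ f, s (b, f) = s2' (b, f) := by
    intro b hb f
    by_cases h3 : b ∈ C1
    · rw [s_1 b h3, as' b ⟨h3, hb⟩]
    · exact if_neg h3
  refine ⟨t, s, ?_, ?_, ?_, ?_, ?_⟩
  · rw [preimage_union]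
    refine ContinuousOn.union_of_isClosed ?_ ?_ (h1c.preimage hp) (h2c.preimage hp)
    · exact h1.ct.congr fun e he => t_1 e he
    · exact k.ct.congr fun e he => t_2 e he
  · rw [union_prod]
    refine ContinuousOn.union_of_isClosed ?_ ?_ (h1c.prod isClosed_univ) (h2c.prod isClosed_univ)
    · exact h1.cs.congr fun z hz => s_1 z.1 hz.1 z.2
    · exact k.cs.congr fun z hz => s_2 z.1 hz.1 z.2
  · rintro b (hb | hb) f
    · rw [s_1 b hb, h1.ps b hb]
    · rw [s_2 b hb, k.ps b hb]
  · rintro b (hb | hb) f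
    · rw [s_1 b hb, t_1 _ (by rw [h1.ps b hb]; exact hb), h1.ts b hb]
    · rw [s_2 b hb, t_2 _ (by rw [k.ps b hb]; exact hb), k.ts b hb]
  · rintro e (he | he)
    · rw [t_1 e he, s_1 _ he, h1.st e he]
    · rw [t_2 e he, s_2 _ he, k.st e he]

end ASP87
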