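import Pool.Agent.ASP87.Spaces
import Pool.Agent.ASP87.Dom

/-!
# ASP87/DiaCell: diagonal cells

`D'` open convex nonempty subset of `D` with `Re (conj (e m) (x m - c)) > 0` for all `c in D'` and all
`m`. CLAIM: `GCell` for `{y : c1 y in D', c2 y in D'}` with labels `diaLab` (the logarithm `l` is free).

PROOF. Open and locally constant labels: as in SepCell (`lab_eventually`). WC: `K` = the points with the
labels of `y0`; homeomorphic to `Mod = {(c, l) : C x C | c in D', c + exp l in D'}` by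
`y |-> (c1 y, ll y)`; inverse: `c2 = c + exp l`, `s_a m = act (w_a m) (label_a m) (rt (w_a m) (LL (e m) (x m) c_a))`.
Mod is WC: choose `b in D'`, `eta > 0`, `ball b eta` in `D'`. For `(c, l)` in `C x C` let
`N = |c - b| + |c + exp l - b|`, `f = eta / (eta + N)`, so `f N < eta`, `0 < f <= 1`. Scaling by
`a > 0`: `Sc a (c, l) = (b + a (c - b), l + log a)`; the second particle becomes
`b + a (c - b) + a exp l = b + a (c + exp l - b)`. Domination: `j : C x C -> Mod`, `j = Sc f`
(both particles are in `ball b eta`); `r : Mod -> C x C` inclusion; homotopy in Mod: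
`H (q, tau) = Sc (1 - tau + tau f q) q`, in `Mod` by convexity of `D'`. `C x C` is contractible.
-/

namespace ASP87

open Complex Topology Set ComplexConjugate

private def MD (D' : Set ℂ) : Set (ℂ × ℂ) := {q | q.1 ∈ D' ∧ q.1 + exp q.2 ∈ D'}

private noncomputable def Sc (b : ℂ) (a : ℝ) (q : ℂ × ℂ) : ℂ × ℂ :=
  (b + (a : ℂ) * (q.1 - b), q.2 + (Real.log a : ℂ))

private theorem Sc_snd (b : ℂ) {a : ℝ} (ha : 0 < a) (q : ℂ × ℂ) :
    (Sc b a q).1 + exp (Sc b a q).2 = b + (a : ℂ) * (q.1 + exp q.2 - b) := by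
  show b + (a : ℂ) * (q.1 - b) + exp (q.2 + (Real.log a : ℂ)) = _
  rw [exp_add, ← ofReal_exp, Real.exp_log ha]
  ring

private theorem Sc_one (b : ℂ) (q : ℂ × ℂ) : Sc b 1 q = q := by
  unfold Sc
  ext1
  · simp
  · simp

private theorem wc_MD {D' : Set ℂ} (hDo : IsOpen D') (hDc : Convex ℝ D') (hne : D'.Nonempty) :
    WC (MD D') := by
  obtain ⟨b, hb⟩ := hne
  obtain ⟨η, hη, hball⟩ := Metric.isOpen_iff.1 hDo b hb
  let N : ℂ × ℂ → ℝ := fun q => ‖q.1 - b‖ + ‖q.1 + exp q.2 - b‖
  have hNc : Continuous N := by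
    show Continuous fun q : ℂ × ℂ => ‖q.1 - b‖ + ‖q.1 + exp q.2 - b‖
    fun_prop
  have hN0 : ∀ q, 0 ≤ N q := fun q => add_nonneg (norm_nonneg _) (norm_nonneg _)
  let f : ℂ × ℂ → ℝ := fun q => η / (η + N q)
  have hden : ∀ q, 0 < η + N q := fun q => add_pos_of_pos_of_nonneg hη (hN0 q)
  have hfc : Continuous f := continuous_const.div (continuous_const.add hNc)
    (fun q => (hden q).ne')
  have hf0 : ∀ q, 0 < f q := fun q => div_pos hη (hden q)
  have hf1 : ∀ q, f q ≤ 1 := fun q => (div_le_one (hden q)).2 (by linarith [hN0 q])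
  have hfN : ∀ q, f q * N q < η := by
    intro q
    show η / (η + N q) * N q < η
    rw [div_mul_eq_mul_div, div_lt_iff₀ (hden q)]
    nlinarith [hN0 q, mul_pos hη hη]
  -- points of the form b + f * (z - b) are in the ball
  have hin : ∀ (q : ℂ × ℂ) (z : ℂ), ‖z - b‖ ≤ N q → b + (f q : ℂ) * (z - b) ∈ D' := by
    intro q z hz
    apply hball
    rw [Metric.mem_ball, dist_eq_norm]
    have : b + (f q : ℂ) * (z - b) - b = (f q : ℂ) * (z - b) := by ring
    rw [this, norm_mul, norm_real, Real.norm_eq_abs, abs_of_pos (hf0 q)]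
    exact lt_of_le_of_lt (mul_le_mul_of_nonneg_left hz (hf0 q).le) (hfN q)
  have hjin : ∀ q, Sc b (f q) q ∈ MD D' := by
    intro q
    refine ⟨hin q q.1 ?_, ?_⟩
    · show ‖q.1 - b‖ ≤ ‖q.1 - b‖ + ‖q.1 + exp q.2 - b‖
      linarith [norm_nonneg (q.1 + exp q.2 - b)]
    · rw [Sc_snd b (hf0 q)]
      refine hin q _ ?_
      show ‖q.1 + exp q.2 - b‖ ≤ ‖q.1 - b‖ + ‖q.1 + exp q.2 - b‖
      linarith [norm_nonneg (q.1 - b)]
  -- convexity
  have hcv : ∀ (a : ℝ), 0 ≤ a → a ≤ 1 → ∀ z ∈ D', b + (a : ℂ) * (z - b) ∈ D' := by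
    intro a ha0 ha1 z hz
    have h := hDc hb hz (a := 1 - a) (b := a) (by linarith) ha0 (by ring)
    have e1 : (1 - a) • b + a • z = b + (a : ℂ) * (z - b) := by
      rw [real_smul, real_smul]
      push_cast
      ring
    rw [← e1]
    exact h
  have hHin : ∀ (a : ℝ), 0 < a → a ≤ 1 → ∀ q ∈ MD D', Sc b a q ∈ MD D' := by
    intro a ha0 ha1 q hq
    refine ⟨hcv a ha0.le ha1 _ hq.1, ?_⟩
    rw [Sc_snd b ha0]
    exact hcv a ha0.le ha1 _ hq.2
  have hScc : ∀ {X : Type} [TopologicalSpace X] (a : X → ℝ) (q : X → ℂ × ℂ), Continuous a →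
      Continuous q → (∀ x, 0 < a x) → Continuous fun x => Sc b (a x) (q x) := by
    intro X _ a q ha hq hpos
    show Continuous fun x => (b + (a x : ℂ) * ((q x).1 - b), (q x).2 + (Real.log (a x) : ℂ))
    refine Continuous.prodMk ?_ ?_
    · exact continuous_const.add ((continuous_ofReal.comp ha).mul
        ((continuous_fst.comp hq).sub continuous_const))
    · exact (continuous_snd.comp hq).add
        (continuous_ofReal.comp (ha.log (fun x => (hpos x).ne')))
  have hτ : ∀ (τ : unitInterval) (q : ℂ × ℂ), 0 < 1 - (τ : ℝ) + τ * f q ∧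
      1 - (τ : ℝ) + τ * f q ≤ 1 := by
    intro τ q
    have h0 := τ.2.1
    have h1 := τ.2.2
    have h2 := hf0 q
    have h3 := hf1 q
    constructor
    · rcases eq_or_lt_of_le h0 with h | h
      · rw [← h]
        norm_num
      · nlinarith [mul_pos h h2]
    · nlinarith
  refine wc_dom (X := ℂ × ℂ) (Y := MD D') (fun q => ⟨Sc b (f q) q, hjin q⟩)
    ((hScc f id hfc continuous_id hf0).subtype_mk _) (fun q => q.1) continuous_subtype_val
    (fun z => ⟨Sc b (1 - (z.2 : ℝ) + z.2 * f z.1.1) z.1.1, hHin _ (hτ z.2 z.1.1).1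
      (hτ z.2 z.1.1).2 _ z.1.2⟩) ?_ ?_ ?_ (wc_contractible _)
  · refine Continuous.subtype_mk ?_ _
    refine hScc (fun z : MD D' × unitInterval => 1 - (z.2 : ℝ) + z.2 * f z.1.1)
      (fun z => z.1.1) ?_ (continuous_subtype_val.comp continuous_fst) (fun z => (hτ z.2 z.1.1).1)
    have h1 : Continuous fun z : MD D' × unitInterval => (z.2 : ℝ) :=
      continuous_subtype_val.comp continuous_snd
    exact (continuous_const.sub h1).add
      (h1.mul (hfc.comp (continuous_subtype_val.comp continuous_fst)))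
  · intro q
    apply Subtype.ext
    show Sc b (1 - ((0 : unitInterval) : ℝ) + ((0 : unitInterval) : ℝ) * f q.1) q.1 = q.1
    have : 1 - ((0 : unitInterval) : ℝ) + ((0 : unitInterval) : ℝ) * f q.1 = 1 := by simp
    rw [this, Sc_one]
  · intro q
    apply Subtype.ext
    show Sc b (1 - ((1 : unitInterval) : ℝ) + ((1 : unitInterval) : ℝ) * f q.1) q.1 =
      Sc b (f q.1) q.1
    have : 1 - ((1 : unitInterval) : ℝ) + ((1 : unitInterval) : ℝ) * f q.1 = f q.1 := by simp
    rw [this]

private theorem act_cont (w : ℕ) (k : ℂ) : Continuous (act w k) := by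
  unfold act
  by_cases hw : w = 0
  · simp only [hw, if_true]
    exact continuous_const.add continuous_id
  · simp only [hw, if_false]
    exact continuous_const.mul continuous_id

section

variable {ι : Type*} {D : Set ℂ} {x : ι → ℂ} {w1 w2 : ι → ℕ}

private theorem c1_cont : Continuous (c1 : YS D x w1 w2 → ℂ) :=
  continuous_fst.comp continuous_subtype_val

private theorem c2_cont : Continuous (c2 : YS D x w1 w2 → ℂ) :=
  continuous_fst.comp (continuous_snd.comp continuous_subtype_val)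

private theorem s1_cont (m : ι) : Continuous (fun y : YS D x w1 w2 => s1 y m) :=
  (continuous_apply m).comp (continuous_fst.comp (continuous_snd.comp
    (continuous_snd.comp continuous_subtype_val)))

private theorem s2_cont (m : ι) : Continuous (fun y : YS D x w1 w2 => s2 y m) :=
  (continuous_apply m).comp (continuous_fst.comp (continuous_snd.comp (continuous_snd.comp
    (continuous_snd.comp continuous_subtype_val))))

private theorem ll_cont : Continuous (ll : YS D x w1 w2 → ℂ) :=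
  continuous_snd.comp (continuous_snd.comp (continuous_snd.comp (continuous_snd.comp
    continuous_subtype_val)))

private theorem bw_s1 (y : YS D x w1 w2) (m : ι) : bw (w1 m) (s1 y m) = c1 y - x m :=
  y.2.2.2.1 m

private theorem bw_s2 (y : YS D x w1 w2) (m : ι) : bw (w2 m) (s2 y m) = c2 y - x m :=
  y.2.2.2.2.1 m

private theorem exp_ll (y : YS D x w1 w2) : exp (ll y) = c2 y - c1 y := y.2.2.2.2.2

end

private noncomputable def mk {ι : Type*} (x : ι → ℂ) (w1 w2 : ι → ℕ) (e : ι → ℂ)
    (k : (ι → ℂ) × (ι → ℂ)) (q : ℂ × ℂ) : Amb ι :=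
  (q.1, q.1 + exp q.2, fun m => act (w1 m) (k.1 m) (rt (w1 m) (LL (e m) (x m) q.1)),
    fun m => act (w2 m) (k.2 m) (rt (w2 m) (LL (e m) (x m) (q.1 + exp q.2))), q.2)

theorem diaCell {ι : Type*} [Fintype ι] {D : Set ℂ} {x : ι → ℂ} {w1 w2 : ι → ℕ}
    (D' : Set ℂ) (hDo : IsOpen D') (hDc : Convex ℝ D') (hne : D'.Nonempty) (hDD : D' ⊆ D)
    (e : ι → ℂ) (he : ∀ m, ‖e m‖ = 1)
    (h : ∀ c ∈ D', ∀ m, 0 < (conj (e m) * (x m - c)).re) :
    GCell {y : YS D x w1 w2 | c1 y ∈ D' ∧ c2 y ∈ D'} (diaLab e) := by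
  have hop : IsOpen {y : YS D x w1 w2 | c1 y ∈ D' ∧ c2 y ∈ D'} :=
    (hDo.preimage c1_cont).inter (hDo.preimage c2_cont)
  have hLc : ∀ m, ContinuousOn (LL (e m) (x m)) D' := fun m =>
    (LL_continuousOn (e m) (x m)).mono (fun c hc => h c hc m)
  refine ⟨hop, ?_, ?_⟩
  · intro y hy
    have A1 : ∀ m, ∀ᶠ y' in 𝓝 y, lab (w1 m) (s1 y' m) (rt (w1 m) (LL (e m) (x m) (c1 y'))) =
        lab (w1 m) (s1 y m) (rt (w1 m) (LL (e m) (x m) (c1 y))) := by
      intro m
      have := lab_eventually (S := {y : YS D x w1 w2 | c1 y ∈ D' ∧ c2 y ∈ D'}) (w1 m)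
        (fun y => s1 y m) (fun y => LL (e m) (x m) (c1 y)) (s1_cont m).continuousOn
        ((hLc m).comp c1_cont.continuousOn (fun z hz => hz.1)) (fun z hz => by
          show bw (w1 m) (s1 z m) = exp (LL (e m) (x m) (c1 z))
          rw [bw_s1, exp_LL (he m) (h _ hz.1 m)]) hy
      rwa [hop.nhdsWithin_eq hy] at this
    have A2 : ∀ m, ∀ᶠ y' in 𝓝 y, lab (w2 m) (s2 y' m) (rt (w2 m) (LL (e m) (x m) (c2 y'))) =
        lab (w2 m) (s2 y m) (rt (w2 m) (LL (e m) (x m) (c2 y))) := by
      intro m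
      have := lab_eventually (S := {y : YS D x w1 w2 | c1 y ∈ D' ∧ c2 y ∈ D'}) (w2 m)
        (fun y => s2 y m) (fun y => LL (e m) (x m) (c2 y)) (s2_cont m).continuousOn
        ((hLc m).comp c2_cont.continuousOn (fun z hz => hz.2)) (fun z hz => by
          show bw (w2 m) (s2 z m) = exp (LL (e m) (x m) (c2 z))
          rw [bw_s2, exp_LL (he m) (h _ hz.2 m)]) hy
      rwa [hop.nhdsWithin_eq hy] at this
    filter_upwards [Filter.eventually_all.2 A1, Filter.eventually_all.2 A2] with y' h1 h2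
    exact Prod.ext (funext h1) (funext h2)
  · intro y0 hy0
    set k := diaLab e y0 with hk
    have hk1 : ∀ m, bw (w1 m) (k.1 m) = 1 := fun m => bw_lab (by
      rw [bw_s1, exp_LL (he m) (h _ hy0.1 m)])
    have hk2 : ∀ m, bw (w2 m) (k.2 m) = 1 := fun m => bw_lab (by
      rw [bw_s2, exp_LL (he m) (h _ hy0.2 m)])
    have hmem : ∀ q : MD D', mk x w1 w2 e k q.1 ∈ YS D x w1 w2 := by
      rintro ⟨q, hq⟩
      refine ⟨hDD hq.1, hDD hq.2, fun m => ?_, fun m => ?_, ?_⟩
      · show bw (w1 m) (act (w1 m) (k.1 m) (rt (w1 m) (LL (e m) (x m) q.1))) = q.1 - x m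
        rw [bw_act, hk1, bw_rt, one_mul, exp_LL (he m) (h _ hq.1 m)]
      · show bw (w2 m) (act (w2 m) (k.2 m) (rt (w2 m) (LL (e m) (x m) (q.1 + exp q.2)))) =
          q.1 + exp q.2 - x m
        rw [bw_act, hk2, bw_rt, one_mul, exp_LL (he m) (h _ hq.2 m)]
      · show exp q.2 = q.1 + exp q.2 - q.1
        ring
    have hK : ∀ q : MD D', (⟨mk x w1 w2 e k q.1, hmem q⟩ : YS D x w1 w2) ∈
        {y' : YS D x w1 w2 | y' ∈ {y : YS D x w1 w2 | c1 y ∈ D' ∧ c2 y ∈ D'} ∧
          diaLab e y' = k} := by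
      rintro ⟨q, hq⟩
      refine ⟨⟨hq.1, hq.2⟩, Prod.ext (funext fun m => ?_) (funext fun m => ?_)⟩
      · exact lab_act _ _ _
      · exact lab_act _ _ _
    have hback : ∀ y : {y' : YS D x w1 w2 | y' ∈ {y : YS D x w1 w2 | c1 y ∈ D' ∧ c2 y ∈ D'} ∧
          diaLab e y' = k}, (c1 y.1, ll y.1) ∈ MD D' := by
      rintro ⟨y, hy⟩
      refine ⟨hy.1.1, ?_⟩
      show c1 y + exp (ll y) ∈ D'
      rw [exp_ll, add_sub_cancel]
      exact hy.1.2
    let Φ : MD D' ≃ₜ {y' : YS D x w1 w2 | y' ∈ {y : YS D x w1 w2 | c1 y ∈ D' ∧ c2 y ∈ D'} ∧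
          diaLab e y' = k} :=
      { toFun := fun q => ⟨⟨mk x w1 w2 e k q.1, hmem q⟩, hK q⟩
        invFun := fun y => ⟨(c1 y.1, ll y.1), hback y⟩
        left_inv := fun q => rfl
        right_inv := by
          rintro ⟨y, hy⟩
          apply Subtype.ext
          apply Subtype.ext
          show mk x w1 w2 e k (c1 y, ll y) = y.1
          have e2 : c1 y + exp (ll y) = c2 y := by rw [exp_ll, add_sub_cancel]
          have ek : k = diaLab e y := hy.2.symm
          have E1 : (fun m => act (w1 m) (k.1 m) (rt (w1 m) (LL (e m) (x m) (c1 y)))) = s1 y := by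
            funext m
            rw [ek]
            exact act_lab _ _ _
          have E2 : (fun m => act (w2 m) (k.2 m) (rt (w2 m) (LL (e m) (x m) (c2 y)))) = s2 y := by
            funext m
            rw [ek]
            exact act_lab _ _ _
          show (c1 y, c1 y + exp (ll y),
            (fun m => act (w1 m) (k.1 m) (rt (w1 m) (LL (e m) (x m) (c1 y)))),
            (fun m => act (w2 m) (k.2 m) (rt (w2 m) (LL (e m) (x m) (c1 y + exp (ll y))))),
            ll y) = y.1
          rw [e2, E1, E2]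
          rfl
        continuous_toFun := by
          refine Continuous.subtype_mk (Continuous.subtype_mk ?_ _) _
          have hq1 : Continuous fun q : MD D' => q.1.1 := continuous_fst.comp continuous_subtype_val
          have hq2 : Continuous fun q : MD D' => q.1.2 := continuous_snd.comp continuous_subtype_val
          have hq3 : Continuous fun q : MD D' => q.1.1 + exp q.1.2 :=
            hq1.add (continuous_exp.comp hq2)
          refine hq1.prodMk (hq3.prodMk (Continuous.prodMk ?_ (Continuous.prodMk ?_ hq2)))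
          · refine continuous_pi fun m => ?_
            exact (act_cont _ _).comp ((rt_continuous _).comp
              ((hLc m).comp_continuous hq1 (fun q => q.2.1)))
          · refine continuous_pi fun m => ?_
            exact (act_cont _ _).comp ((rt_continuous _).comp
              ((hLc m).comp_continuous hq3 (fun q => q.2.2)))
        continuous_invFun := by
          refine Continuous.subtype_mk ?_ _
          exact (c1_cont.comp continuous_subtype_val).prodMk
            (ll_cont.comp continuous_subtype_val) }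
    obtain ⟨⟨q0⟩, hE⟩ := wc_MD hDo hDc hne
    exact ⟨⟨Φ q0⟩, fun d => ext_homeo Φ (hE d)⟩

end ASP87
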