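import Pool.Agent.ASP87.Spaces
import Pool.Agent.ASP87.Dom

/-!
# ASP87/SepCell: separated cells

`U` open convex in `C^2`, contained in `D x D`; `i1`, `i2` cone indices. On `U`: for `m` with
`i1 <> some m`, `Re (conj (e m) (x m - c1)) > 0`, the same for 2; `Re (conj u (c2 - c1)) > 0`. Base point
`b in U` with `b.1 = x m` if `i1 = some m`, `b.2 = x m` if `i2 = some m`.
CLAIM: `GCell` for `{y : (c1 y, c2 y) in U}` with the labels `sepLab`.

PROOF. Open: `c1, c2` are continuous. Labels locally constant: `lab_eventually` for each `m` (finitely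
many) with `s = s1 . m`, `t = LL (e m) (x m) (c1 .)`, `bw (w1 m) (s1 y m) = c1 y - x m = exp (LL ..)`;
for `l`: `ll y` and `LU u (c2 y - c1 y)` are both logarithms of `c2 - c1` (`exp_LU`), so
`ll - LU` is continuous with values in `2 pi i Z` (this is `lab_eventually` with `w = 0`).
WC. Fix `y0 in U`, `K = {y : (c1 y, c2 y) in U, same labels as y0}`. Let for `a = 1, 2`
`ev_a t = t` if `i_a = none`, `ev_a t = x m + bw (w_a m) t` if `i_a = some m`, and
`Mod = {t : C x C | (ev_1 t.1, ev_2 t.2) in U}`.
K is homeomorphic to Mod: `y |-> (t1, t2)`, `t_a = c_a y` if `i_a = none`, `t_a = s_a y m` if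
`i_a = some m`. Inverse: `c_a = ev_a t_a`; `s_a m = t_a` for `i_a = some m`, else
`s_a m = act (w_a m) (label_a m) (rt (w_a m) (LL (e m) (x m) c_a))`, where `label` = labels of `y0`,
which satisfy `bw (w_a m) (label_a m) = 1` (`bw_lab`), so `bw_act`, `bw_rt`, `exp_LL` give the equations;
`l = label + LU u (c2 - c1)`, `exp label = 1`. Use `act_lab`, `lab_act`.
Mod is WC: let `eta > 0` with the polydisc `{|q.1 - b.1| < eta, |q.2 - b.2| < eta}` in `U`.
`S_a = ball b_a eta` if `i_a = none`, `{t : |bw (w_a m) t| < eta}` if `i_a = some m`: convex and nonempty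
(`bw_small_convex`), so `S = S_1 x S_2` is contractible, WC. Let `N t = |ev_1 t.1 - b.1| + |ev_2 t.2 - b.2|`,
`f t = eta / (eta + N t)` in `(0, 1]`, with `f t * N t < eta`. Scaling by a factor `a in (0,1]`:
`Sc a t` has components `b_a + a (t_a - b_a)` (none) or `scl (w_a m) a t_a` (some m); then
`ev (Sc a t) = b + a (ev t - b)`, in `U` by convexity (for `t in Mod`). Domination (`wc_dom` or
`ext_dom`): `j : S -> Mod` inclusion, `r : Mod -> S`, `r t = Sc (f t) t`, homotopy
`H (t, tau) = Sc (1 - tau + tau f t) t`. Continuity: `scl_continuousOn`.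
WC is invariant under homeomorphism (`ext_homeo`).
-/

namespace ASP87

open Complex Topology Set ComplexConjugate

variable {ι : Type*}

private noncomputable def ev (x : ι → ℂ) (w : ι → ℕ) (i : Option ι) (t : ℂ) : ℂ :=
  match i with
  | none => t
  | some m => x m + bw (w m) t

private noncomputable def Sc (w : ι → ℕ) (i : Option ι) (b : ℂ) (a : ℝ) (t : ℂ) : ℂ :=
  match i with
  | none => b + a * (t - b)
  | some m => scl (w m) a t

private theorem ev_cont (x : ι → ℂ) (w : ι → ℕ) (i : Option ι) : Continuous (ev x w i) := by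
  cases i with
  | none => exact continuous_id
  | some m => exact continuous_const.add (bw_continuous (w m))

private theorem ev_Sc {x : ι → ℂ} {w : ι → ℕ} {i : Option ι} {b : ℂ}
    (hb : ∀ m, i = some m → b = x m) {a : ℝ} (ha : 0 < a) (t : ℂ) :
    ev x w i (Sc w i b a t) = b + a * (ev x w i t - b) := by
  cases i with
  | none => rfl
  | some m =>
    show x m + bw (w m) (scl (w m) a t) = b + a * (x m + bw (w m) t - b)
    rw [bw_scl _ ha, hb m rfl]
    ring

private theorem Sc_one (w : ι → ℕ) (i : Option ι) (b t : ℂ) : Sc w i b 1 t = t := by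
  cases i with
  | none =>
    show b + ((1 : ℝ) : ℂ) * (t - b) = t
    push_cast
    ring
  | some m => exact scl_one (w m) t

private theorem Sc_cont (w : ι → ℕ) (i : Option ι) (b : ℂ) :
    ContinuousOn (fun q : ℝ × ℂ => Sc w i b q.1 q.2) {q | 0 < q.1} := by
  cases i with
  | none =>
    refine Continuous.continuousOn ?_
    show Continuous (fun q : ℝ × ℂ => b + (q.1 : ℂ) * (q.2 - b))
    fun_prop
  | some m => exact scl_continuousOn (w m)

private theorem S_convex {x : ι → ℂ} (w : ι → ℕ) {i : Option ι} {b : ℂ}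
    (hb : ∀ m, i = some m → b = x m) {η : ℝ} (hη : 0 < η) :
    Convex ℝ {t : ℂ | ‖ev x w i t - b‖ < η} ∧ {t : ℂ | ‖ev x w i t - b‖ < η}.Nonempty := by
  cases i with
  | none =>
    have h1 : {t : ℂ | ‖ev x w none t - b‖ < η} = Metric.ball b η := by
      ext t
      show ‖t - b‖ < η ↔ dist t b < η
      rw [dist_eq_norm]
    rw [h1]
    exact ⟨convex_ball b η, ⟨b, Metric.mem_ball_self hη⟩⟩
  | some m =>
    have h1 : {t : ℂ | ‖ev x w (some m) t - b‖ < η} = {s : ℂ | ‖bw (w m) s‖ < η} := by
      ext t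
      show ‖x m + bw (w m) t - b‖ < η ↔ ‖bw (w m) t‖ < η
      rw [hb m rfl, add_sub_cancel_left]
    rw [h1]
    exact bw_small_convex (w m) hη

/-- the model space is weakly contractible -/
private theorem mod_wc {x : ι → ℂ} (w1 w2 : ι → ℕ) {U : Set (ℂ × ℂ)} (hUo : IsOpen U)
    (hUc : Convex ℝ U) {i1 i2 : Option ι} {b : ℂ × ℂ} (hb : b ∈ U)
    (hb1 : ∀ m, i1 = some m → b.1 = x m) (hb2 : ∀ m, i2 = some m → b.2 = x m) :
    WC {t : ℂ × ℂ | (ev x w1 i1 t.1, ev x w2 i2 t.2) ∈ U} := by
  obtain ⟨η, hη, hball⟩ := Metric.isOpen_iff.1 hUo b hb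
  have hsub : ∀ q : ℂ × ℂ, ‖q.1 - b.1‖ < η → ‖q.2 - b.2‖ < η → q ∈ U := by
    intro q h1 h2
    refine hball ?_
    rw [Metric.mem_ball, Prod.dist_eq, dist_eq_norm, dist_eq_norm]
    exact max_lt h1 h2
  set S : Set (ℂ × ℂ) := {t : ℂ | ‖ev x w1 i1 t - b.1‖ < η} ×ˢ {t : ℂ | ‖ev x w2 i2 t - b.2‖ < η}
    with hS
  have hSc : ContractibleSpace S := by
    have h1 := S_convex (x := x) w1 hb1 hη
    have h2 := S_convex (x := x) w2 hb2 hη
    exact (h1.1.prod h2.1).contractibleSpace (h1.2.prod h2.2)
  have hSW : WC S := wc_contractible S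
  set M : Set (ℂ × ℂ) := {t : ℂ × ℂ | (ev x w1 i1 t.1, ev x w2 i2 t.2) ∈ U} with hM
  have hSM : ∀ t ∈ S, t ∈ M := fun t ht => hsub _ ht.1 ht.2
  -- the scaling factor
  let N : ℂ × ℂ → ℝ := fun t => ‖ev x w1 i1 t.1 - b.1‖ + ‖ev x w2 i2 t.2 - b.2‖
  have hN0 : ∀ t, 0 ≤ N t := fun t => add_nonneg (norm_nonneg _) (norm_nonneg _)
  have hNc : Continuous N := by
    refine Continuous.add ?_ ?_
    · exact (((ev_cont x w1 i1).comp continuous_fst).sub continuous_const).norm
    · exact (((ev_cont x w2 i2).comp continuous_snd).sub continuous_const).norm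
  let f : ℂ × ℂ → ℝ := fun t => η / (η + N t)
  have hfp : ∀ t, 0 < f t := fun t => div_pos hη (by have := hN0 t; linarith)
  have hf1 : ∀ t, f t ≤ 1 := by
    intro t
    have := hN0 t
    exact (div_le_one (by linarith)).2 (by linarith)
  have hfN : ∀ t, f t * N t < η := by
    intro t
    have h0 := hN0 t
    show η / (η + N t) * N t < η
    rw [div_mul_eq_mul_div, div_lt_iff₀ (by linarith)]
    nlinarith
  have hfc : Continuous f :=
    continuous_const.div (continuous_const.add hNc) (fun t => by have := hN0 t; positivity)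
  let G : ℝ → ℂ × ℂ → ℂ × ℂ := fun a t => (Sc w1 i1 b.1 a t.1, Sc w2 i2 b.2 a t.2)
  have hGc : ContinuousOn (fun q : ℝ × (ℂ × ℂ) => G q.1 q.2) {q | 0 < q.1} := by
    refine ContinuousOn.prodMk ?_ ?_
    · exact (Sc_cont w1 i1 b.1).comp (f := fun q : ℝ × (ℂ × ℂ) => (q.1, q.2.1))
        (by fun_prop) (fun q hq => hq)
    · exact (Sc_cont w2 i2 b.2).comp (f := fun q : ℝ × (ℂ × ℂ) => (q.1, q.2.2))
        (by fun_prop) (fun q hq => hq)
  have hGM : ∀ a : ℝ, 0 < a → a ≤ 1 → ∀ t ∈ M, G a t ∈ M := by
    intro a ha ha1 t ht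
    show (ev x w1 i1 (Sc w1 i1 b.1 a t.1), ev x w2 i2 (Sc w2 i2 b.2 a t.2)) ∈ U
    rw [ev_Sc hb1 ha, ev_Sc hb2 ha]
    have h3 := hUc hb ht (by linarith : (0 : ℝ) ≤ 1 - a) ha.le (by ring)
    convert h3 using 1
    refine Prod.ext ?_ ?_
    · simp only [Prod.fst_add, Prod.smul_fst, Complex.real_smul]
      push_cast
      ring
    · simp only [Prod.snd_add, Prod.smul_snd, Complex.real_smul]
      push_cast
      ring
  have hGS : ∀ t : ℂ × ℂ, G (f t) t ∈ S := by
    intro t
    have hp := hfp t
    have hn := hfN t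
    have hns : f t * N t = f t * ‖ev x w1 i1 t.1 - b.1‖ + f t * ‖ev x w2 i2 t.2 - b.2‖ := by
      show f t * (‖ev x w1 i1 t.1 - b.1‖ + ‖ev x w2 i2 t.2 - b.2‖) = _
      ring
    have hq1 : 0 ≤ f t * ‖ev x w1 i1 t.1 - b.1‖ := mul_nonneg hp.le (norm_nonneg _)
    have hq2 : 0 ≤ f t * ‖ev x w2 i2 t.2 - b.2‖ := mul_nonneg hp.le (norm_nonneg _)
    refine ⟨?_, ?_⟩
    · show ‖ev x w1 i1 (Sc w1 i1 b.1 (f t) t.1) - b.1‖ < η
      rw [ev_Sc hb1 hp, add_sub_cancel_left, norm_mul, Complex.norm_real, Real.norm_eq_abs,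
        abs_of_pos hp]
      linarith
    · show ‖ev x w2 i2 (Sc w2 i2 b.2 (f t) t.2) - b.2‖ < η
      rw [ev_Sc hb2 hp, add_sub_cancel_left, norm_mul, Complex.norm_real, Real.norm_eq_abs,
        abs_of_pos hp]
      linarith
  have hap : ∀ (τ : unitInterval) (t : ℂ × ℂ), 0 < 1 - (τ : ℝ) + τ * f t ∧
      1 - (τ : ℝ) + τ * f t ≤ 1 := by
    intro τ t
    have h1 := τ.2.1
    have h2 := τ.2.2
    have h3 := hfp t
    have h4 := hf1 t
    constructor
    · nlinarith [mul_nonneg (sub_nonneg.2 h2) (sub_nonneg.2 h4)]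
    · nlinarith
  refine wc_dom (X := S) (Y := M) (fun t => ⟨t.1, hSM t.1 t.2⟩)
    (continuous_subtype_val.subtype_mk _)
    (fun t => ⟨G (f t.1) t.1, hGS t.1⟩) ?_
    (fun q => ⟨G (1 - (q.2 : ℝ) + q.2 * f q.1.1) q.1.1,
      hGM _ (hap q.2 q.1.1).1 (hap q.2 q.1.1).2 q.1.1 q.1.2⟩) ?_ ?_ ?_ hSW
  · refine Continuous.subtype_mk ?_ _
    refine hGc.comp_continuous (f := fun t : M => (f t.1, t.1)) ?_ (fun t => hfp t.1)
    exact (hfc.comp continuous_subtype_val).prodMk continuous_subtype_val
  · refine Continuous.subtype_mk ?_ _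
    refine hGc.comp_continuous
      (f := fun q : M × unitInterval => (1 - (q.2 : ℝ) + q.2 * f q.1.1, q.1.1)) ?_
      (fun q => (hap q.2 q.1.1).1)
    have hc1 : Continuous (fun q : M × unitInterval => (q.2 : ℝ)) :=
      continuous_subtype_val.comp continuous_snd
    have hc2 : Continuous (fun q : M × unitInterval => q.1.1) :=
      continuous_subtype_val.comp continuous_fst
    exact ((continuous_const.sub hc1).add (hc1.mul (hfc.comp hc2))).prodMk hc2
  · intro y
    apply Subtype.ext
    show G (1 - ((0 : unitInterval) : ℝ) + ((0 : unitInterval) : ℝ) * f y.1) y.1 = y.1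
    have : (1 - ((0 : unitInterval) : ℝ) + ((0 : unitInterval) : ℝ) * f y.1) = 1 := by simp
    rw [this]
    show (Sc w1 i1 b.1 1 y.1.1, Sc w2 i2 b.2 1 y.1.2) = y.1
    rw [Sc_one, Sc_one]
  · intro y
    apply Subtype.ext
    show G (1 - ((1 : unitInterval) : ℝ) + ((1 : unitInterval) : ℝ) * f y.1) y.1 = G (f y.1) y.1
    have : (1 - ((1 : unitInterval) : ℝ) + ((1 : unitInterval) : ℝ) * f y.1) = f y.1 := by simp
    rw [this]

section ys

variable {D : Set ℂ} {x : ι → ℂ} {w1 w2 : ι → ℕ}

private theorem c1_cont : Continuous (c1 : YS D x w1 w2 → ℂ) :=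
  continuous_fst.comp continuous_subtype_val

private theorem c2_cont : Continuous (c2 : YS D x w1 w2 → ℂ) :=
  continuous_fst.comp (continuous_snd.comp continuous_subtype_val)

private theorem s1_cont (m : ι) : Continuous (fun y : YS D x w1 w2 => s1 y m) :=
  (continuous_apply m).comp (continuous_fst.comp (continuous_snd.comp
    (continuous_snd.comp continuous_subtype_val)))

private theorem s2_cont (m : ι) : Continuous (fun y : YS D x w1 w2 => s2 y m) :=
  (continuous_apply m).comp (continuous_fst.comp (continuous_snd.comp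
    (continuous_snd.comp (continuous_snd.comp continuous_subtype_val))))

private theorem ll_cont : Continuous (ll : YS D x w1 w2 → ℂ) :=
  continuous_snd.comp (continuous_snd.comp (continuous_snd.comp
    (continuous_snd.comp continuous_subtype_val)))

private theorem s1_eq (y : YS D x w1 w2) (m : ι) : bw (w1 m) (s1 y m) = c1 y - x m :=
  y.2.2.2.1 m

private theorem s2_eq (y : YS D x w1 w2) (m : ι) : bw (w2 m) (s2 y m) = c2 y - x m :=
  y.2.2.2.2.1 m

private theorem ll_eq (y : YS D x w1 w2) : exp (ll y) = c2 y - c1 y := y.2.2.2.2.2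

end ys

theorem sepCell {ι : Type*} [Fintype ι] [DecidableEq ι] {D : Set ℂ} {x : ι → ℂ}
    {w1 w2 : ι → ℕ} (U : Set (ℂ × ℂ)) (hUo : IsOpen U) (hUc : Convex ℝ U)
    (hUD : ∀ q ∈ U, q.1 ∈ D ∧ q.2 ∈ D) (e : ι → ℂ) (he : ∀ m, ‖e m‖ = 1) (u : ℂ)
    (hu : ‖u‖ = 1) (i1 i2 : Option ι)
    (h1 : ∀ q ∈ U, ∀ m, i1 ≠ some m → 0 < (conj (e m) * (x m - q.1)).re)
    (h2 : ∀ q ∈ U, ∀ m, i2 ≠ some m → 0 < (conj (e m) * (x m - q.2)).re)
    (h3 : ∀ q ∈ U, 0 < (conj u * (q.2 - q.1)).re) (b : ℂ × ℂ) (hb : b ∈ U)
    (hb1 : ∀ m, i1 = some m → b.1 = x m) (hb2 : ∀ m, i2 = some m → b.2 = x m) :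
    GCell {y : YS D x w1 w2 | (c1 y, c2 y) ∈ U} (sepLab e u i1 i2) := by
  have hcc : Continuous (fun y : YS D x w1 w2 => (c1 y, c2 y)) := c1_cont.prodMk c2_cont
  have hop : IsOpen {y : YS D x w1 w2 | (c1 y, c2 y) ∈ U} := hUo.preimage hcc
  refine ⟨hop, ?_, ?_⟩
  · -- labels are locally constant
    intro y hy
    have hnh : 𝓝[{y : YS D x w1 w2 | (c1 y, c2 y) ∈ U}] y = 𝓝 y := hop.nhdsWithin_eq hy
    have A1 : ∀ m, ∀ᶠ y' in 𝓝 y, (if i1 = some m then (0 : ℂ) else
        lab (w1 m) (s1 y' m) (rt (w1 m) (LL (e m) (x m) (c1 y')))) =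
        (if i1 = some m then (0 : ℂ) else
        lab (w1 m) (s1 y m) (rt (w1 m) (LL (e m) (x m) (c1 y)))) := by
      intro m
      by_cases hm : i1 = some m
      · simp only [if_pos hm]
        exact Filter.Eventually.of_forall fun _ => trivial
      · simp only [if_neg hm]
        have h := lab_eventually (S := {y : YS D x w1 w2 | (c1 y, c2 y) ∈ U}) (w1 m)
          (fun y => s1 y m) (fun y => LL (e m) (x m) (c1 y)) (s1_cont m).continuousOn
          ((LL_continuousOn (e m) (x m)).comp c1_cont.continuousOn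
            (fun z hz => h1 _ hz m hm))
          (fun z hz => by
            rw [s1_eq, exp_LL (he m) (h1 _ hz m hm)]) hy
        rwa [hnh] at h
    have A2 : ∀ m, ∀ᶠ y' in 𝓝 y, (if i2 = some m then (0 : ℂ) else
        lab (w2 m) (s2 y' m) (rt (w2 m) (LL (e m) (x m) (c2 y')))) =
        (if i2 = some m then (0 : ℂ) else
        lab (w2 m) (s2 y m) (rt (w2 m) (LL (e m) (x m) (c2 y)))) := by
      intro m
      by_cases hm : i2 = some m
      · simp only [if_pos hm]
        exact Filter.Eventually.of_forall fun _ => trivial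
      · simp only [if_neg hm]
        have h := lab_eventually (S := {y : YS D x w1 w2 | (c1 y, c2 y) ∈ U}) (w2 m)
          (fun y => s2 y m) (fun y => LL (e m) (x m) (c2 y)) (s2_cont m).continuousOn
          ((LL_continuousOn (e m) (x m)).comp c2_cont.continuousOn
            (fun z hz => h2 _ hz m hm))
          (fun z hz => by
            rw [s2_eq, exp_LL (he m) (h2 _ hz m hm)]) hy
        rwa [hnh] at h
    have A3 : ∀ᶠ y' in 𝓝 y, ll y' - LU u (c2 y' - c1 y') = ll y - LU u (c2 y - c1 y) := by
      have h := lab_eventually (S := {y : YS D x w1 w2 | (c1 y, c2 y) ∈ U}) 0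
        (fun y => ll y) (fun y => LU u (c2 y - c1 y)) ll_cont.continuousOn
        ((LU_continuousOn u).comp (c2_cont.sub c1_cont).continuousOn (fun z hz => h3 _ hz))
        (fun z hz => by
          rw [exp_LU hu (h3 _ hz)]
          show bw 0 (ll z) = c2 z - c1 z
          rw [← ll_eq]
          exact if_pos rfl) hy
      rw [hnh] at h
      filter_upwards [h] with z hz
      have e1 : ∀ s t : ℂ, lab 0 s (rt 0 t) = s - t := by
        intro s t
        simp [lab, rt]
      rw [e1, e1] at hz
      exact hz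
    filter_upwards [Filter.eventually_all.2 A1, Filter.eventually_all.2 A2, A3] with z z1 z2 z3
    refine Prod.ext (funext fun m => z1 m) (Prod.ext (funext fun m => z2 m) z3)
  · -- weak contractibility
    intro y0 hy0
    have hM := mod_wc (x := x) w1 w2 hUo hUc (i1 := i1) (i2 := i2) hb hb1 hb2
    set M : Set (ℂ × ℂ) := {t : ℂ × ℂ | (ev x w1 i1 t.1, ev x w2 i2 t.2) ∈ U} with hMdef
    let C1 : ℂ × ℂ → ℂ := fun t => ev x w1 i1 t.1
    let C2 : ℂ × ℂ → ℂ := fun t => ev x w2 i2 t.2
    have hC1 : Continuous C1 := (ev_cont x w1 i1).comp continuous_fst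
    have hC2 : Continuous C2 := (ev_cont x w2 i2).comp continuous_snd
    let k1 : ι → ℂ := fun m => lab (w1 m) (s1 y0 m) (rt (w1 m) (LL (e m) (x m) (c1 y0)))
    let k2 : ι → ℂ := fun m => lab (w2 m) (s2 y0 m) (rt (w2 m) (LL (e m) (x m) (c2 y0)))
    let kl : ℂ := ll y0 - LU u (c2 y0 - c1 y0)
    let R1 : ℂ × ℂ → ι → ℂ := fun t m => if i1 = some m then t.1 else
      act (w1 m) (k1 m) (rt (w1 m) (LL (e m) (x m) (C1 t)))
    let R2 : ℂ × ℂ → ι → ℂ := fun t m => if i2 = some m then t.2 else
      act (w2 m) (k2 m) (rt (w2 m) (LL (e m) (x m) (C2 t)))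
    let L : ℂ × ℂ → ℂ := fun t => kl + LU u (C2 t - C1 t)
    have hk1 : ∀ m, i1 ≠ some m → bw (w1 m) (k1 m) = 1 := fun m hm =>
      bw_lab (by rw [s1_eq, exp_LL (he m) (h1 _ hy0 m hm)])
    have hk2 : ∀ m, i2 ≠ some m → bw (w2 m) (k2 m) = 1 := fun m hm =>
      bw_lab (by rw [s2_eq, exp_LL (he m) (h2 _ hy0 m hm)])
    have hkl : exp kl = 1 := by
      show exp (ll y0 - LU u (c2 y0 - c1 y0)) = 1
      rw [exp_sub, exp_LU hu (h3 _ hy0), ← ll_eq, div_self (exp_ne_zero _)]
    have hmem : ∀ t ∈ M, ((C1 t, C2 t, R1 t, R2 t, L t) : Amb ι) ∈ YS D x w1 w2 := by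
      intro t ht
      have hD := hUD _ ht
      refine ⟨hD.1, hD.2, ?_, ?_, ?_⟩
      · intro m
        show bw (w1 m) (R1 t m) = C1 t - x m
        by_cases hm : i1 = some m
        · simp only [R1, if_pos hm]
          show _ = ev x w1 i1 t.1 - x m
          rw [hm]
          show _ = x m + bw (w1 m) t.1 - x m
          ring
        · simp only [R1, if_neg hm]
          rw [bw_act, hk1 m hm, bw_rt, exp_LL (he m) (h1 _ ht m hm), one_mul]
      · intro m
        show bw (w2 m) (R2 t m) = C2 t - x m
        by_cases hm : i2 = some m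
        · simp only [R2, if_pos hm]
          show _ = ev x w2 i2 t.2 - x m
          rw [hm]
          show _ = x m + bw (w2 m) t.2 - x m
          ring
        · simp only [R2, if_neg hm]
          rw [bw_act, hk2 m hm, bw_rt, exp_LL (he m) (h2 _ ht m hm), one_mul]
      · show exp (kl + LU u (C2 t - C1 t)) = C2 t - C1 t
        rw [exp_add, hkl, one_mul, exp_LU hu (h3 _ ht)]
    let P : M → YS D x w1 w2 := fun t => ⟨(C1 t.1, C2 t.1, R1 t.1, R2 t.1, L t.1), hmem t.1 t.2⟩
    have hPc : Continuous P := by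
      refine Continuous.subtype_mk ?_ _
      have a1 : Continuous (fun t : M => C1 t.1) := hC1.comp continuous_subtype_val
      have a2 : Continuous (fun t : M => C2 t.1) := hC2.comp continuous_subtype_val
      refine a1.prodMk (a2.prodMk (Continuous.prodMk ?_ (Continuous.prodMk ?_ ?_)))
      · refine continuous_pi fun m => ?_
        by_cases hm : i1 = some m
        · simp only [R1, if_pos hm]
          exact continuous_fst.comp continuous_subtype_val
        · simp only [R1, if_neg hm]
          have h4 : Continuous (fun t : M => rt (w1 m) (LL (e m) (x m) (C1 t.1))) :=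
            (rt_continuous (w1 m)).comp
              ((LL_continuousOn (e m) (x m)).comp_continuous a1 (fun t => h1 _ t.2 m hm))
          unfold act
          by_cases hw : w1 m = 0
          · simp only [if_pos hw]
            exact continuous_const.add h4
          · simp only [if_neg hw]
            exact continuous_const.mul h4
      · refine continuous_pi fun m => ?_
        by_cases hm : i2 = some m
        · simp only [R2, if_pos hm]
          exact continuous_snd.comp continuous_subtype_val
        · simp only [R2, if_neg hm]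
          have h4 : Continuous (fun t : M => rt (w2 m) (LL (e m) (x m) (C2 t.1))) :=
            (rt_continuous (w2 m)).comp
              ((LL_continuousOn (e m) (x m)).comp_continuous a2 (fun t => h2 _ t.2 m hm))
          unfold act
          by_cases hw : w2 m = 0
          · simp only [if_pos hw]
            exact continuous_const.add h4
          · simp only [if_neg hw]
            exact continuous_const.mul h4
      · exact continuous_const.add
          ((LU_continuousOn u).comp_continuous (a2.sub a1) (fun t => h3 _ t.2))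
    have hPK : ∀ t : M, P t ∈ {y' : YS D x w1 w2 | y' ∈ {y : YS D x w1 w2 | (c1 y, c2 y) ∈ U} ∧
        sepLab e u i1 i2 y' = sepLab e u i1 i2 y0} := by
      intro t
      refine ⟨t.2, ?_⟩
      refine Prod.ext (funext fun m => ?_) (Prod.ext (funext fun m => ?_) ?_)
      · show (if i1 = some m then (0 : ℂ) else
          lab (w1 m) (R1 t.1 m) (rt (w1 m) (LL (e m) (x m) (C1 t.1)))) =
          (if i1 = some m then (0 : ℂ) else k1 m)
        by_cases hm : i1 = some m
        · rw [if_pos hm, if_pos hm]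
        · rw [if_neg hm, if_neg hm]
          simp only [R1, if_neg hm]
          exact lab_act _ _ _
      · show (if i2 = some m then (0 : ℂ) else
          lab (w2 m) (R2 t.1 m) (rt (w2 m) (LL (e m) (x m) (C2 t.1)))) =
          (if i2 = some m then (0 : ℂ) else k2 m)
        by_cases hm : i2 = some m
        · rw [if_pos hm, if_pos hm]
        · rw [if_neg hm, if_neg hm]
          simp only [R2, if_neg hm]
          exact lab_act _ _ _
      · show kl + LU u (C2 t.1 - C1 t.1) - LU u (C2 t.1 - C1 t.1) = kl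
        ring
    -- the coordinates
    let T : YS D x w1 w2 → ℂ × ℂ := fun y =>
      ((match i1 with | none => c1 y | some m => s1 y m),
       (match i2 with | none => c2 y | some m => s2 y m))
    have hT1 : ∀ y : YS D x w1 w2, C1 (T y) = c1 y := by
      intro y
      show ev x w1 i1 (match i1 with | none => c1 y | some m => s1 y m) = c1 y
      cases i1 with
      | none => rfl
      | some m =>
        show x m + bw (w1 m) (s1 y m) = c1 y
        rw [s1_eq]
        ring
    have hT2 : ∀ y : YS D x w1 w2, C2 (T y) = c2 y := by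
      intro y
      show ev x w2 i2 (match i2 with | none => c2 y | some m => s2 y m) = c2 y
      cases i2 with
      | none => rfl
      | some m =>
        show x m + bw (w2 m) (s2 y m) = c2 y
        rw [s2_eq]
        ring
    have hTs1 : ∀ (y : YS D x w1 w2) (m : ι), i1 = some m → (T y).1 = s1 y m := by
      intro y
      show ∀ m : ι, i1 = some m → (match i1 with | none => c1 y | some m => s1 y m) = s1 y m
      cases i1 with
      | none =>
        intro m hm
        cases hm
      | some m' =>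
        intro m hm
        cases hm
        rfl
    have hTs2 : ∀ (y : YS D x w1 w2) (m : ι), i2 = some m → (T y).2 = s2 y m := by
      intro y
      show ∀ m : ι, i2 = some m → (match i2 with | none => c2 y | some m => s2 y m) = s2 y m
      cases i2 with
      | none =>
        intro m hm
        cases hm
      | some m' =>
        intro m hm
        cases hm
        rfl
    have hTc : Continuous T := by
      refine Continuous.prodMk ?_ ?_
      · cases i1 with
        | none => exact c1_cont
        | some m => exact s1_cont m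
      · cases i2 with
        | none => exact c2_cont
        | some m => exact s2_cont m
    have hTM : ∀ y : YS D x w1 w2, (c1 y, c2 y) ∈ U → T y ∈ M := by
      intro y hy
      show (C1 (T y), C2 (T y)) ∈ U
      rw [hT1, hT2]
      exact hy
    refine ⟨⟨⟨y0, hy0, rfl⟩⟩, fun d => ?_⟩
    refine ext_retract (X := M)
      (fun y => ⟨T y.1, hTM y.1 y.2.1⟩) ((hTc.comp continuous_subtype_val).subtype_mk _)
      (fun t => ⟨P t, hPK t⟩) (hPc.subtype_mk _) ?_ (hM.2 d)
    rintro ⟨y, hy, hL⟩
    apply Subtype.ext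
    apply Subtype.ext
    show ((C1 (T y), C2 (T y), R1 (T y), R2 (T y), L (T y)) : Amb ι) = y.1
    have e1 : R1 (T y) = s1 y := by
      funext m
      by_cases hm : i1 = some m
      · simp only [R1, if_pos hm]
        exact hTs1 y m hm
      · simp only [R1, if_neg hm]
        rw [hT1]
        have h5 := congrFun (congrArg Prod.fst hL) m
        have h6 : lab (w1 m) (s1 y m) (rt (w1 m) (LL (e m) (x m) (c1 y))) = k1 m := by
          have h7 : (if i1 = some m then (0 : ℂ) else
            lab (w1 m) (s1 y m) (rt (w1 m) (LL (e m) (x m) (c1 y)))) =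
            (if i1 = some m then (0 : ℂ) else k1 m) := h5
          rwa [if_neg hm, if_neg hm] at h7
        rw [← h6, act_lab]
    have e2 : R2 (T y) = s2 y := by
      funext m
      by_cases hm : i2 = some m
      · simp only [R2, if_pos hm]
        exact hTs2 y m hm
      · simp only [R2, if_neg hm]
        rw [hT2]
        have h5 := congrFun (congrArg Prod.fst (congrArg Prod.snd hL)) m
        have h6 : lab (w2 m) (s2 y m) (rt (w2 m) (LL (e m) (x m) (c2 y))) = k2 m := by
          have h7 : (if i2 = some m then (0 : ℂ) else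
            lab (w2 m) (s2 y m) (rt (w2 m) (LL (e m) (x m) (c2 y)))) =
            (if i2 = some m then (0 : ℂ) else k2 m) := h5
          rwa [if_neg hm, if_neg hm] at h7
        rw [← h6, act_lab]
    have e3 : L (T y) = ll y := by
      show kl + LU u (C2 (T y) - C1 (T y)) = ll y
      rw [hT1, hT2]
      have h5 : ll y - LU u (c2 y - c1 y) = kl := congrArg Prod.snd (congrArg Prod.snd hL)
      rw [← h5]
      ring
    rw [hT1, hT2, e1, e2, e3]
    rfl

end ASP87
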