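import Pool.Agent.ASP87.GeoPt
import Pool.Agent.ASP87.SepCell
import Pool.Agent.ASP87.DiaCell

/-!
# ASP87/ChainCell: the cells of chains of states

`YD` = the two-particle space over the open unit disc with special points `g.x`. `chU S` = the points
that have all states in `S`. `dirU t`: `- e i` for `t = (some i, _)`, `e j` for `t = (none, some j)`.

`chainSep`: `S` a finite chain with least element `s`, `t in S` with `t.1 <> t.2`. Apply `sepCell` with
`U` = the intersection of the `g.U s'`, `s' in S` (open: finite intersection, `U_open`; convex), `e = g.e`,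
`u = dirU t`, `i1 = s.1`, `i2 = s.2`. `h1`: `q in g.U s`, `s.1 <> some m`: `d m q.1 < r1 < r2` (`U_lt1`), `half`.
`h3`: `U_sep1` if `t.1 = some i` (then `t.2 <> some i`), `U_sep2` if `t.1 = none`, `t.2 = some j`. Base point:
`chain_pt`.
`chainDia0`: `U (none,none) = D' x D'` with `D' = {|z| < 1, d i z < r1 for all i}` (`U_00`), open convex, contains 0.
`chainDia1 i`: both states `(none,none)` and `(some i, some i)`: `D' = {|z| < 1, r0 < d i z < r1}`
(for `m <> i`, `d m z <= r0 < r1` by `disj`), contains `((r0+r1)/2) e i`. Use `diaCell`, `half`.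
-/

namespace ASP87

open Complex Topology Set ComplexConjugate

variable {ι : Type*} [Fintype ι] [DecidableEq ι] (g : Geo ι) (w1 w2 : ι → ℕ)

/-- the two-particle space over the unit disc -/
abbrev YD := YS (Metric.ball (0 : ℂ) 1) g.x w1 w2

/-- points with all states in `S` -/
def chU (S : Set (St ι)) : Set (YD g w1 w2) := {y | ∀ t ∈ S, (c1 y, c2 y) ∈ g.U t}

/-- direction of a separated state -/
def dirU (t : St ι) : ℂ :=
  match t with
  | (some i, _) => -g.e i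
  | (none, some j) => g.e j
  | (none, none) => 1

theorem norm_dirU (t : St ι) : ‖dirU g t‖ = 1 := by
  rcases t with ⟨_ | i, _ | j⟩
  · exact norm_one
  · exact g.he j
  · show ‖-g.e i‖ = 1
    rw [norm_neg]
    exact g.he i
  · show ‖-g.e i‖ = 1
    rw [norm_neg]
    exact g.he i

theorem dirU_pos {q : ℂ × ℂ} {t : St ι} (ht : t.1 ≠ t.2) (hq : q ∈ g.U t) :
    0 < (conj (dirU g t) * (q.2 - q.1)).re := by
  rcases t with ⟨_ | i, _ | j⟩
  · exact absurd rfl ht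
  · exact g.U_sep2 hq rfl (by simp)
  · exact g.U_sep1 hq rfl (by simp)
  · exact g.U_sep1 hq rfl (fun h => ht h.symm)

theorem chainSep (S : Set (St ι)) (hS : ∀ s ∈ S, ∀ t ∈ S, StLe s t ∨ StLe t s) (s : St ι)
    (hs : s ∈ S) (hmin : ∀ t ∈ S, StLe s t) (t : St ι) (ht : t ∈ S) (htt : t.1 ≠ t.2) :
    GCell (chU g w1 w2 S) (sepLab g.e (dirU g t) s.1 s.2) := by
  obtain ⟨b, hb, hb1, hb2⟩ := g.chain_pt S hS s hs hmin
  have hset : chU g w1 w2 S = {y : YD g w1 w2 | (c1 y, c2 y) ∈ ⋂ s' ∈ S, g.U s'} := by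
    ext y
    show (∀ t ∈ S, (c1 y, c2 y) ∈ g.U t) ↔ (c1 y, c2 y) ∈ ⋂ s' ∈ S, g.U s'
    rw [Set.mem_iInter₂]
  rw [hset]
  refine sepCell (⋂ s' ∈ S, g.U s') (S.toFinite.isOpen_biInter fun s' _ => g.U_open s')
    (convex_iInter₂ fun s' _ => g.U_convex s') ?_ g.e g.he (dirU g t) (norm_dirU g t) s.1 s.2
    ?_ ?_ ?_ b (Set.mem_iInter₂.2 hb) hb1 hb2
  · intro q hq
    have h1 := Set.mem_iInter₂.1 hq s hs
    exact ⟨mem_ball_zero_iff.2 h1.1, mem_ball_zero_iff.2 h1.2.1⟩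
  · intro q hq m hm
    exact g.half ((g.U_lt1 (Set.mem_iInter₂.1 hq s hs) hm).trans g.h12)
  · intro q hq m hm
    exact g.half ((g.U_lt2 (Set.mem_iInter₂.1 hq s hs) hm).trans g.h12)
  · intro q hq
    exact dirU_pos g htt (Set.mem_iInter₂.1 hq t ht)

omit [Fintype ι] [DecidableEq ι] in
private theorem d_cont (i : ι) : Continuous (g.d i) := by
  unfold Geo.d
  fun_prop

omit [Fintype ι] [DecidableEq ι] in
private theorem d_comb (i : ι) (a b : ℝ) (x y : ℂ) :
    g.d i (a • x + b • y) = a * g.d i x + b * g.d i y := by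
  unfold Geo.d
  have h1 : conj (g.e i) * (a • x + b • y) =
      (a : ℂ) * (conj (g.e i) * x) + (b : ℂ) * (conj (g.e i) * y) := by
    rw [Complex.real_smul, Complex.real_smul]
    ring
  rw [h1, Complex.add_re, Complex.re_ofReal_mul, Complex.re_ofReal_mul]

omit [Fintype ι] [DecidableEq ι] in
private theorem d_mul_e (i : ι) (lam : ℝ) : g.d i ((lam : ℂ) * g.e i) = lam := by
  unfold Geo.d
  have h2 : conj (g.e i) * g.e i = 1 := by
    rw [mul_comm, Complex.mul_conj, Complex.normSq_eq_norm_sq, g.he]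
    simp
  have h1 : conj (g.e i) * ((lam : ℂ) * g.e i) = (lam : ℂ) * (conj (g.e i) * g.e i) := by ring
  rw [h1, h2, mul_one, Complex.ofReal_re]

private theorem DA_open : IsOpen {z : ℂ | ‖z‖ < 1 ∧ ∀ i, g.d i z < g.r1} := by
  refine (isOpen_lt continuous_norm continuous_const).inter ?_
  have h1 : {z : ℂ | ∀ i, g.d i z < g.r1} = ⋂ i, {z : ℂ | g.d i z < g.r1} := by
    ext z
    rw [Set.mem_iInter]
    exact Iff.rfl
  show IsOpen {z : ℂ | ∀ i, g.d i z < g.r1}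
  rw [h1]
  exact isOpen_iInter_of_finite fun i => isOpen_lt (d_cont g i) continuous_const

omit [Fintype ι] [DecidableEq ι] in
private theorem comb_lt {a b u v c : ℝ} (ha : 0 ≤ a) (hb : 0 ≤ b) (hab : a + b = 1) (hu : u < c)
    (hv : v < c) : a * u + b * v < c := by
  rcases ha.eq_or_lt with h | h
  · have hb1 : b = 1 := by linarith
    rw [← h, hb1]
    linarith
  · have h1 : a * u < a * c := mul_lt_mul_of_pos_left hu h
    have h2 : b * v ≤ b * c := mul_le_mul_of_nonneg_left hv.le hb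
    have h3 : a * c + b * c = c := by rw [← add_mul, hab, one_mul]
    linarith

omit [Fintype ι] [DecidableEq ι] in
private theorem DA_convex : Convex ℝ {z : ℂ | ‖z‖ < 1 ∧ ∀ i, g.d i z < g.r1} := by
  intro x hx y hy a b ha hb hab
  refine ⟨?_, fun i => ?_⟩
  · refine lt_of_le_of_lt (norm_add_le _ _) ?_
    rw [norm_smul, norm_smul, Real.norm_eq_abs, Real.norm_eq_abs, abs_of_nonneg ha,
      abs_of_nonneg hb]
    exact comb_lt ha hb hab hx.1 hy.1
  · rw [d_comb]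
    exact comb_lt ha hb hab (hx.2 i) (hy.2 i)

theorem chainDia0 : GCell (chU g w1 w2 {(none, none)}) (diaLab g.e) := by
  have hset : chU g w1 w2 {(none, none)} = {y : YD g w1 w2 |
      c1 y ∈ {z : ℂ | ‖z‖ < 1 ∧ ∀ i, g.d i z < g.r1} ∧
      c2 y ∈ {z : ℂ | ‖z‖ < 1 ∧ ∀ i, g.d i z < g.r1}} := by
    ext y
    show (∀ t ∈ ({(none, none)} : Set (St ι)), (c1 y, c2 y) ∈ g.U t) ↔
      (‖c1 y‖ < 1 ∧ ∀ i, g.d i (c1 y) < g.r1) ∧ (‖c2 y‖ < 1 ∧ ∀ i, g.d i (c2 y) < g.r1)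
    constructor
    · intro h
      obtain ⟨h1, h2, h3⟩ := g.U_00.1 (h (none, none) (Set.mem_singleton _))
      exact ⟨⟨h1, fun i => (h3 i).1⟩, h2, fun i => (h3 i).2⟩
    · rintro ⟨⟨h1, h3⟩, h2, h4⟩ t ht
      rw [Set.mem_singleton_iff] at ht
      subst ht
      exact g.U_00.2 ⟨h1, h2, fun i => ⟨h3 i, h4 i⟩⟩
  rw [hset]
  refine diaCell _ (DA_open g) (DA_convex g) ⟨0, ?_⟩ ?_ g.e g.he ?_
  · refine ⟨by rw [norm_zero]; exact one_pos, fun i => ?_⟩
    unfold Geo.d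
    rw [mul_zero, Complex.zero_re]
    exact g.h0.trans g.h01
  · intro z hz
    exact mem_ball_zero_iff.2 hz.1
  · intro c hc m
    exact g.half ((hc.2 m).trans g.h12)

theorem chainDia1 (i : ι) :
    GCell (chU g w1 w2 {(none, none), (some i, some i)}) (diaLab g.e) := by
  have hset : chU g w1 w2 {(none, none), (some i, some i)} = {y : YD g w1 w2 |
      c1 y ∈ {z : ℂ | ‖z‖ < 1 ∧ ∀ i, g.d i z < g.r1} ∩ {z : ℂ | g.r0 < g.d i z} ∧
      c2 y ∈ {z : ℂ | ‖z‖ < 1 ∧ ∀ i, g.d i z < g.r1} ∩ {z : ℂ | g.r0 < g.d i z}} := by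
    ext y
    show (∀ t ∈ ({(none, none), (some i, some i)} : Set (St ι)), (c1 y, c2 y) ∈ g.U t) ↔
      ((‖c1 y‖ < 1 ∧ ∀ i, g.d i (c1 y) < g.r1) ∧ g.r0 < g.d i (c1 y)) ∧
      ((‖c2 y‖ < 1 ∧ ∀ i, g.d i (c2 y) < g.r1) ∧ g.r0 < g.d i (c2 y))
    constructor
    · intro h
      obtain ⟨h1, h2, h3⟩ := g.U_00.1 (h (none, none) (Set.mem_insert _ _))
      obtain ⟨_, _, h6, h7⟩ := g.U_ij.1 (h (some i, some i)
        (Set.mem_insert_of_mem _ (Set.mem_singleton _)))
      exact ⟨⟨⟨h1, fun i => (h3 i).1⟩, h6⟩, ⟨h2, fun i => (h3 i).2⟩, h7⟩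
    · rintro ⟨⟨⟨h1, h3⟩, h5⟩, ⟨h2, h4⟩, h6⟩ t ht
      rw [Set.mem_insert_iff, Set.mem_singleton_iff] at ht
      rcases ht with rfl | rfl
      · exact g.U_00.2 ⟨h1, h2, fun i => ⟨h3 i, h4 i⟩⟩
      · exact g.U_ij.2 ⟨h1, h2, h5, h6⟩
  rw [hset]
  have h01 := g.h01
  have h0 := g.h0
  refine diaCell _ ((DA_open g).inter (isOpen_lt continuous_const (d_cont g i))) ?_
    ⟨(((g.r0 + g.r1) / 2 : ℝ) : ℂ) * g.e i, ?_⟩ ?_ g.e g.he ?_
  · refine (DA_convex g).inter ?_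
    intro x hx y hy a b ha hb hab
    show g.r0 < g.d i (a • x + b • y)
    rw [d_comb]
    have h1 : a * (-g.d i x) + b * (-g.d i y) < -g.r0 :=
      comb_lt ha hb hab (neg_lt_neg hx) (neg_lt_neg hy)
    linarith
  · have hn : ‖(((g.r0 + g.r1) / 2 : ℝ) : ℂ) * g.e i‖ < 1 := by
      rw [norm_mul, g.he, mul_one, Complex.norm_real, Real.norm_eq_abs, abs_of_pos (by linarith)]
      linarith [g.h12, g.h2]
    have hd : g.d i ((((g.r0 + g.r1) / 2 : ℝ) : ℂ) * g.e i) = (g.r0 + g.r1) / 2 := d_mul_e g i _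
    refine ⟨⟨hn, fun m => ?_⟩, ?_⟩
    · by_cases hm : m = i
      · rw [hm, hd]
        linarith
      · exact (g.disj hn (by rw [hd]; linarith) hm).trans_lt h01
    · show g.r0 < g.d i _
      rw [hd]
      linarith
  · intro z hz
    exact mem_ball_zero_iff.2 hz.1.1
  · intro c hc m
    exact g.half ((hc.1.2 m).trans g.h12)

end ASP87
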