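import Mathlib

/-!
# ASP87/Comp: the path components of the preimage of a set

`Comp q U` = the path components of `q^-1 U`. All lemmas: `JoinedIn` is an equivalence relation on
`q^-1 U` (`JoinedIn.refl, symm, trans`). `comp_open`: in a locally path connected space path components
of open sets are open (`IsOpen.pathComponentIn`). `comp_pc`: path components are path connected; a path
in `q^-1 U` starting in `C` stays in `C`.
-/

namespace ASP87

open Topology Set

/-- path components of `q ⁻¹' U` -/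
def Comp {Z Y : Type*} [TopologicalSpace Z] (q : Z → Y) (U : Set Y) : Type _ :=
  {C : Set Z // ∃ z, q z ∈ U ∧ C = {z' | JoinedIn (q ⁻¹' U) z z'}}

def compOf {Z Y : Type*} [TopologicalSpace Z] (q : Z → Y) (U : Set Y) (z : Z) (h : q z ∈ U) :
    Comp q U :=
  ⟨{z' | JoinedIn (q ⁻¹' U) z z'}, z, h, rfl⟩

variable {Z Y : Type*} [TopologicalSpace Z] {q : Z → Y} {U : Set Y}

theorem mem_compOf_self {z : Z} (h : q z ∈ U) : z ∈ (compOf q U z h).1 :=
  JoinedIn.refl (F := q ⁻¹' U) h

theorem comp_mem {C : Comp q U} {z : Z} (h : z ∈ C.1) : q z ∈ U := by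
  obtain ⟨C, z0, h0, rfl⟩ := C
  exact JoinedIn.target_mem (F := q ⁻¹' U) h

theorem comp_eq_of_mem {C : Comp q U} {z : Z} (h : z ∈ C.1) : C = compOf q U z (comp_mem h) := by
  obtain ⟨C, z0, h0, rfl⟩ := C
  have h1 : JoinedIn (q ⁻¹' U) z0 z := h
  apply Subtype.ext
  ext w
  exact ⟨fun hw => h1.symm.trans hw, fun hw => h1.trans hw⟩

theorem comp_disj {C C' : Comp q U} {z : Z} (h : z ∈ C.1) (h' : z ∈ C'.1) : C = C' := by
  rw [comp_eq_of_mem h, comp_eq_of_mem h']

theorem comp_joined {C : Comp q U} {z z' : Z} (h : z ∈ C.1) : z' ∈ C.1 ↔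
    JoinedIn (q ⁻¹' U) z z' := by
  have h1 := congrArg Subtype.val (comp_eq_of_mem h)
  rw [h1]
  rfl

theorem compOf_eq_iff {z z' : Z} (h : q z ∈ U) (h' : q z' ∈ U) :
    compOf q U z h = compOf q U z' h' ↔ JoinedIn (q ⁻¹' U) z z' := by
  constructor
  · intro he
    have h1 : z' ∈ (compOf q U z h).1 := by
      rw [he]
      exact mem_compOf_self h'
    exact h1
  · intro hj
    exact comp_disj (z := z') (show z' ∈ (compOf q U z h).1 from hj) (mem_compOf_self h')

theorem comp_nonempty (C : Comp q U) : C.1.Nonempty := by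
  obtain ⟨C, z0, h0, rfl⟩ := C
  exact ⟨z0, JoinedIn.refl (F := q ⁻¹' U) h0⟩

theorem comp_pc (C : Comp q U) : IsPathConnected C.1 := by
  obtain ⟨C, z0, h0, rfl⟩ := C
  exact isPathConnected_pathComponentIn (F := q ⁻¹' U) h0

theorem comp_open [TopologicalSpace Y] [LocallyPathConnectedSpace Z] (hq : Continuous q)
    (hU : IsOpen U) (C : Comp q U) : IsOpen C.1 := by
  obtain ⟨C, z0, h0, rfl⟩ := C
  exact IsOpen.pathComponentIn (hU.preimage hq) z0

end ASP87
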