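import Mathlib

/-!
# ASP87/Walk: walks in a partial order and their homotopies (definitions only)

A walk is a list of elements, consecutive ones comparable. Elementary moves: delete (or insert)
the middle vertex of three consecutive pairwise comparable vertices; delete a repetition.
-/

namespace ASP87

variable {V : Type*} [PartialOrder V]

/-- comparability -/
def Cmp (a b : V) : Prop := a ≤ b ∨ b ≤ a

/-- a walk -/
def IsWalk (l : List V) : Prop := List.IsChain Cmp l

/-- elementary moves (in one direction) -/
inductive Move : List V → List V → Prop
  | tri (l r : List V) (p q s : V) (h1 : Cmp p q) (h2 : Cmp q s) (h3 : Cmp p s) :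
      Move (l ++ p :: q :: s :: r) (l ++ p :: s :: r)
  | dup (l r : List V) (p : V) : Move (l ++ p :: p :: r) (l ++ p :: r)

/-- the poset is connected and simply connected (in terms of walks) -/
structure PSC (V : Type*) [PartialOrder V] : Prop where
  conn : ∀ a b : V, ∃ l : List V, IsWalk (a :: l) ∧ (a :: l).getLast? = some b
  sc : ∀ (a : V) (l l' : List V), IsWalk (a :: l) → IsWalk (a :: l') →
    (a :: l).getLast? = (a :: l').getLast? → Relation.EqvGen Move (a :: l) (a :: l')

/-- the balls around `o`: up-sets and down-sets alternately -/
def Ball (o : V) : ℕ → Set V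
  | 0 => {o}
  | (r + 1) => if Even r then {x | ∃ y ∈ Ball o r, y ≤ x} else {x | ∃ y ∈ Ball o r, x ≤ y}

end ASP87
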