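import Pool.Agent.ASP87.Union
import Pool.Agent.ASP87.Walk

/-!
# ASP87/Cone: a finite union with a dominating member is weakly contractible

Family `U : V -> Set Z`, `V` a poset, `L : Finset V`, `p in L` comparable with every element of `L`.
Suppose the `U v` are open, `U v, U w` are disjoint for incomparable `v, w in L`, and all intersections
over nonempty chains `s` contained in `L` are weakly contractible. Then the union over `L` is WC.

PROOF. Strong induction on the number of elements of `L`, for all `U`. If `L = {p}`: chain `{p}`.
Otherwise take `y in L`, `y <> p`, `L' = L.erase y`. By induction the union `A` over `L'` is WC (same `p`).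
`U y` is WC (chain `{y}`). `U y inter A` = union over `v in L''` of `U' v`, where
`U' v = U y inter U v` and `L'' = {v in L' : Cmp v y}` (for the other `v` the intersection is empty);
`p in L''`. For a nonempty chain `s` in `L''`: the intersection of the `U' v`, `v in s`, is the
intersection over the chain `insert y s` of `U`, WC. Disjointness is inherited. Induction: WC. By
`wc_union`, `U y union A` is WC, and this is the union over `L`.
-/

namespace ASP87

open Set

private theorem cmp_symm {V : Type*} [PartialOrder V] {a b : V} (h : Cmp a b) : Cmp b a :=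
  Or.symm h

private theorem cmp_refl {V : Type*} [PartialOrder V] (a : V) : Cmp a a := Or.inl le_rfl

private theorem wc_congr {Z : Type*} [TopologicalSpace Z] {A B : Set Z} (h : A = B) (w : WC A) :
    WC B := by
  subst h
  exact w

theorem wc_cone {Z V : Type*} [TopologicalSpace Z] [PartialOrder V] (U : V → Set Z)
    (L : Finset V) (p : V) (hp : p ∈ L) (hcmp : ∀ v ∈ L, Cmp p v) (hop : ∀ v, IsOpen (U v))
    (hdis : ∀ v ∈ L, ∀ w ∈ L, ¬ Cmp v w → Disjoint (U v) (U w))
    (hwc : ∀ s : Finset V, s ⊆ L → s.Nonempty → (∀ a ∈ s, ∀ b ∈ s, Cmp a b) →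
      WC (⋂ v ∈ s, U v : Set Z)) :
    WC (⋃ v ∈ L, U v : Set Z) := by
  classical
  induction hn : L.card using Nat.strong_induction_on generalizing L U with
  | _ n ih =>
  by_cases hL : ∃ y ∈ L, y ≠ p
  · obtain ⟨y, hy, hyp⟩ := hL
    have hcard : (L.erase y).card < n := by
      rw [← hn]
      exact Finset.card_erase_lt_of_mem hy
    have hpL' : p ∈ L.erase y := Finset.mem_erase.2 ⟨hyp.symm, hp⟩
    have hsub : L.erase y ⊆ L := Finset.erase_subset _ _
    have wA : WC (⋃ v ∈ L.erase y, U v : Set Z) :=
      ih _ hcard U (L.erase y) hpL' (fun v hv => hcmp v (hsub hv)) hop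
        (fun v hv w hw => hdis v (hsub hv) w (hsub hw))
        (fun s hs => hwc s (hs.trans hsub)) rfl
    have wy : WC (U y : Set Z) := by
      refine wc_congr ?_ (hwc {y} (Finset.singleton_subset_iff.2 hy)
        (Finset.singleton_nonempty y) ?_)
      · simp
      · intro a ha b hb
        rw [Finset.mem_singleton] at ha hb
        rw [ha, hb]
        exact cmp_refl y
    set L'' := (L.erase y).filter (fun v => Cmp v y) with hL''
    have hsub'' : L'' ⊆ L := (Finset.filter_subset _ _).trans hsub
    have hcard'' : L''.card < n := lt_of_le_of_lt (Finset.card_filter_le _ _) hcard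
    have wI : WC (⋃ v ∈ L'', (U y ∩ U v) : Set Z) := by
      refine ih _ hcard'' (fun v => U y ∩ U v) L'' ?_ (fun v hv => hcmp v (hsub'' hv))
        (fun v => (hop y).inter (hop v)) ?_ ?_ rfl
      · rw [hL'', Finset.mem_filter]
        exact ⟨hpL', hcmp y hy⟩
      · intro v hv w hw hvw
        exact (hdis v (hsub'' hv) w (hsub'' hw) hvw).mono inter_subset_right inter_subset_right
      · intro s hs hne hch
        refine wc_congr ?_ (hwc (insert y s) ?_ (Finset.insert_nonempty y s) ?_)
        · obtain ⟨a, ha⟩ := hne
          ext z
          simp only [Finset.mem_insert, mem_iInter, mem_inter_iff]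
          constructor
          · intro h v hv
            exact ⟨h y (Or.inl rfl), h v (Or.inr hv)⟩
          · rintro h v (rfl | hv)
            · exact (h a ha).1
            · exact (h v hv).2
        · intro v hv
          rcases Finset.mem_insert.1 hv with rfl | hv
          · exact hy
          · exact hsub'' (hs hv)
        · have hsy : ∀ a ∈ s, Cmp a y := fun a ha => (Finset.mem_filter.1 (hs ha)).2
          intro a ha b hb
          rcases Finset.mem_insert.1 ha with ha1 | ha1
          · rcases Finset.mem_insert.1 hb with hb1 | hb1
            · rw [ha1, hb1]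
              exact cmp_refl _
            · rw [ha1]
              exact cmp_symm (hsy b hb1)
          · rcases Finset.mem_insert.1 hb with hb1 | hb1
            · rw [hb1]
              exact hsy a ha1
            · exact hch a ha1 b hb1
    have hInt : (⋃ v ∈ L'', (U y ∩ U v) : Set Z) = U y ∩ ⋃ v ∈ L.erase y, U v := by
      ext z
      simp only [mem_iUnion, mem_inter_iff, exists_prop, hL'', Finset.mem_filter]
      constructor
      · rintro ⟨v, ⟨hv, _⟩, hzy, hzv⟩
        exact ⟨hzy, v, hv, hzv⟩
      · rintro ⟨hzy, v, hv, hzv⟩
        refine ⟨v, ⟨hv, ?_⟩, hzy, hzv⟩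
        by_contra hc
        exact Set.disjoint_left.1 (hdis v (hsub hv) y hy hc) hzv hzy
    have hUn : (⋃ v ∈ L, U v : Set Z) = U y ∪ ⋃ v ∈ L.erase y, U v := by
      ext z
      simp only [mem_iUnion, mem_union, exists_prop]
      constructor
      · rintro ⟨v, hv, hz⟩
        by_cases h : v = y
        · left
          rw [← h]
          exact hz
        · right
          exact ⟨v, Finset.mem_erase.2 ⟨h, hv⟩, hz⟩
      · rintro (hz | ⟨v, hv, hz⟩)
        · exact ⟨y, hy, hz⟩
        · exact ⟨v, hsub hv, hz⟩
    refine wc_congr hUn.symm ?_
    refine wc_union (hop y) (isOpen_biUnion fun v _ => hop v) wy wA ?_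
    exact wc_congr hInt wI
  · push Not at hL
    have hLp : L = {p} := by
      ext v
      rw [Finset.mem_singleton]
      constructor
      · exact fun hv => hL v hv
      · rintro rfl
        exact hp
    have h1 := hwc L (Finset.Subset.refl _) ⟨p, hp⟩ (by
      intro a ha b hb
      rw [hL a ha, hL b hb]
      exact cmp_refl p)
    refine wc_congr ?_ h1
    rw [hLp]
    simp

end ASP87
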