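import Mathlib

/-!
# ASP87/Defs: extension property, weak contractibility, asphericity, bundles (definitions only)
-/

namespace ASP87

open scoped unitInterval Topology
open Set

/-- every continuous map from the boundary of the `d`-cube to `Y` extends to the cube -/
def Ext (d : ℕ) (Y : Type*) [TopologicalSpace Y] : Prop :=
  ∀ f : (Fin d → I) → Y, ContinuousOn f (Cube.boundary (Fin d)) →
    ∃ g : (Fin d → I) → Y, Continuous g ∧ ∀ x ∈ Cube.boundary (Fin d), g x = f x

/-- weakly contractible -/
def WC (Y : Type*) [TopologicalSpace Y] : Prop := Nonempty Y ∧ ∀ d, Ext d Y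

/-- all homotopy groups from the second on vanish -/
def Asph (Y : Type*) [TopologicalSpace Y] : Prop := ∀ d, 3 ≤ d → Ext d Y

/-- a trivialization over the set `U` -/
structure TrivOn (F : Type*) [TopologicalSpace F] {E B : Type*} [TopologicalSpace E]
    [TopologicalSpace B] (p : E → B) (U : Set B) (t : E → F) (s : B × F → E) : Prop where
  ct : ContinuousOn t (p ⁻¹' U)
  cs : ContinuousOn s (U ×ˢ univ)
  ps : ∀ b ∈ U, ∀ f, p (s (b, f)) = b
  ts : ∀ b ∈ U, ∀ f, t (s (b, f)) = f
  st : ∀ e, p e ∈ U → s (p e, t e) = e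

/-- locally trivial with fibre `F` -/
def LocTriv (F : Type*) [TopologicalSpace F] {E B : Type*} [TopologicalSpace E]
    [TopologicalSpace B] (p : E → B) : Prop :=
  Continuous p ∧ ∀ b, ∃ U ∈ 𝓝 b, ∃ t s, TrivOn F p U t s

/-- the index of the open cell of the grid of mesh `1/n` that contains `t`: `2j` if `t = j/n`,
`2j+1` if `j/n < t < (j+1)/n` -/
noncomputable def cellOf (n : ℕ) (t : I) : ℕ :=
  ⌊(t : ℝ) * n⌋₊ + ⌈(t : ℝ) * n⌉₊

/-- a closed set which is a union of open cells of the grid of mesh `1/n` -/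
def GridSet (n : ℕ) {N : Type*} (A : Set (N → I)) : Prop :=
  IsClosed A ∧ ∀ x y : N → I, (∀ i, cellOf n (x i) = cellOf n (y i)) → x ∈ A → y ∈ A

end ASP87
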