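import Pool.Agent.ASP87.Defs

/-!
# ASP87/ExtPi: `Ext (r+1) Y` makes `pi_r` trivial

Let `g : GenLoop (Fin r) Y y`. On the cube `Fin (r+1) -> I` define `F z = g (fun i => z i.succ)` if
`z 0 = 1` and `F z = y` otherwise. `F` is continuous on the boundary: the boundary is the union of
the closed face `z 0 = 1` and the closed set `S` of boundary points with `z 0 = 0` or with some
`z i.succ` in `{0,1}`; on the face `F` is `g` of the other coordinates, on `S` it is constant `y`
(where both apply, `g = y` by the GenLoop condition). Let `G` be the extension. Then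
`(t, x) => G (Fin.cons t x)` is a homotopy rel boundary between the constant GenLoop (t = 0, face
`z 0 = 0`) and `g` (t = 1). So all GenLoops are homotopic to the constant one
(`GenLoop.Homotopic`, i.e. `ContinuousMap.HomotopicRel`), and the quotient is a subsingleton.
(See the end of `Pool/Agent/H85/Cube.lean`, theorem `trivial_pi`, for the last step.)
-/

namespace ASP87

open scoped unitInterval Topology
open Set

open Classical in
private theorem pi_homotopic {Y : Type*} [TopologicalSpace Y] {r : ℕ} (h : Ext (r + 1) Y) (y : Y)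
    (g : GenLoop (Fin r) Y y) : GenLoop.Homotopic GenLoop.const g := by
  set F : (Fin (r + 1) → I) → Y := fun z => if z 0 = 1 then g (fun i => z i.succ) else y with hF
  set A : Set (Fin (r + 1) → I) := {z | z 0 = 1} with hA
  set S : Set (Fin (r + 1) → I) := {z | z 0 = 0} ∪
    ⋃ i : Fin r, ({z | z i.succ = 0} ∪ {z | z i.succ = 1}) with hS
  have hAc : IsClosed A := isClosed_eq (continuous_apply 0) continuous_const
  have hSc : IsClosed S := by
    refine IsClosed.union (isClosed_eq (continuous_apply 0) continuous_const) ?_
    refine isClosed_iUnion_of_finite fun i => IsClosed.union ?_ ?_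
    · exact isClosed_eq (continuous_apply _) continuous_const
    · exact isClosed_eq (continuous_apply _) continuous_const
  have hg : ∀ z : Fin (r + 1) → I, (∃ i : Fin r, z i.succ = 0 ∨ z i.succ = 1) →
      g (fun i => z i.succ) = y := fun z hz => g.2 _ hz
  have hFS : ∀ z ∈ S, F z = y := by
    rintro z (hz | hz)
    · have hz' : z 0 = 0 := hz
      have : ¬ z 0 = 1 := by
        rw [hz']
        exact zero_ne_one
      rw [hF]
      simp only
      rw [if_neg this]
    · rw [mem_iUnion] at hz
      obtain ⟨i, hi⟩ := hz
      rw [hF]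
      simp only
      by_cases h0 : z 0 = 1
      · rw [if_pos h0]
        exact hg z ⟨i, hi⟩
      · rw [if_neg h0]
  have hFA : ∀ z ∈ A, F z = g (fun i => z i.succ) := by
    intro z hz
    have hz' : z 0 = 1 := hz
    rw [hF]
    simp only
    rw [if_pos hz']
  have hcA : ContinuousOn F A := by
    have : ContinuousOn (fun z : Fin (r + 1) → I => g (fun i => z i.succ)) A :=
      (g.1.continuous.comp (by fun_prop)).continuousOn
    exact this.congr hFA
  have hcS : ContinuousOn F S := continuousOn_const.congr hFS
  have hcont : ContinuousOn F (Cube.boundary (Fin (r + 1))) := by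
    refine (ContinuousOn.union_of_isClosed hcA hcS hAc hSc).mono ?_
    rintro z ⟨i, hi⟩
    refine Fin.cases (fun hi => ?_) (fun i hi => ?_) i hi
    · rcases hi with hi | hi
      · exact Or.inr (Or.inl hi)
      · exact Or.inl hi
    · exact Or.inr (Or.inr (mem_iUnion.2 ⟨i, hi⟩))
  obtain ⟨G, hGc, hGF⟩ := h F hcont
  have hcons : ∀ (t : I) (x : Fin r → I), x ∈ Cube.boundary (Fin r) →
      (Fin.cons t x : Fin (r + 1) → I) ∈ Cube.boundary (Fin (r + 1)) := by
    rintro t x ⟨i, hi⟩
    exact ⟨i.succ, by simpa using hi⟩
  refine ⟨⟨⟨⟨fun q => G (Fin.cons q.1 q.2), ?_⟩, ?_, ?_⟩, ?_⟩⟩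
  · refine hGc.comp ?_
    refine continuous_pi fun i => ?_
    refine Fin.cases ?_ (fun i => ?_) i
    · simp only [Fin.cons_zero]
      exact continuous_fst
    · simp only [Fin.cons_succ]
      exact (continuous_apply i).comp continuous_snd
  · intro x
    show G (Fin.cons 0 x) = y
    rw [hGF _ ⟨0, Or.inl (by simp)⟩]
    exact hFS _ (Or.inl (by simp))
  · intro x
    show G (Fin.cons 1 x) = g x
    rw [hGF _ ⟨0, Or.inr (by simp)⟩, hFA _ (by simp [hA])]
    congr 1
  · intro t x hx
    show G (Fin.cons t x) = y
    rw [hGF _ (hcons t x hx)]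
    obtain ⟨i, hi⟩ := hx
    exact hFS _ (Or.inr (mem_iUnion.2 ⟨i, by simpa using hi⟩))

theorem pi_trivial {Y : Type*} [TopologicalSpace Y] {r : ℕ} (h : Ext (r + 1) Y) (y : Y) :
    Subsingleton (HomotopyGroup (Fin r) Y y) := by
  constructor
  intro a b
  induction a using Quotient.inductionOn with
  | _ a =>
    induction b using Quotient.inductionOn with
    | _ b =>
      exact Quotient.sound ((pi_homotopic h y a).symm.trans (pi_homotopic h y b))

/-- an aspherical space in the sense of `Asph` has trivial homotopy groups from the second on -/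
theorem pi_trivial_of_asph {Y : Type*} [TopologicalSpace Y] (h : Asph Y) {r : ℕ} (hr : 2 ≤ r)
    (y : Y) : Subsingleton (HomotopyGroup (Fin r) Y y) :=
  pi_trivial (h (r + 1) (by omega)) y

end ASP87
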