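import Pool.Agent.ASP87.FSys
import Pool.Agent.ASP87.Dom

/-!
# ASP87/FFib0: no cone points: the fibre over the particles and punctures is a point

`forget (SK n 0 l m) jxd neK_jxd : GS .. -> Conf (Fin n + Fin l)`, fibre over `b`: the only point of `GS` is
given by the positions `b` (`Fin 0` is empty, so `jxd` is a bijection onto all points and there are no
relations; `ne` holds because `b` is injective). `Unique`, hence contractible: `ext_contractible`.
-/

namespace ASP87

open Complex Topology Set

/-- the positions -/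
private def pos0 {n l : ℕ} (b : Fin n ⊕ Fin l → ℂ) : Fin n ⊕ Fin 0 ⊕ Fin l → ℂ
  | Sum.inl i => b (Sum.inl i)
  | Sum.inr (Sum.inl j) => j.elim0
  | Sum.inr (Sum.inr a) => b (Sum.inr a)

private theorem pos0_inj {n l : ℕ} {b : Fin n ⊕ Fin l → ℂ} (hb : Function.Injective b) :
    Function.Injective (pos0 b) := by
  intro x y h
  rcases x with i | j | a
  · rcases y with i' | j' | a'
    · exact congrArg Sum.inl (Sum.inl_injective (hb h))
    · exact j'.elim0
    · exact absurd (hb h) (by simp)
  · exact j.elim0
  · rcases y with i' | j' | a'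
    · exact absurd (hb h) (by simp)
    · exact j'.elim0
    · exact congrArg (fun t => Sum.inr (Sum.inr t)) (Sum.inr_injective (hb h))

theorem fib_asph0 {n l : ℕ} (m : Fin 0 → ℕ) (b : Conf (Fin n ⊕ Fin l)) :
    Asph (forget (SK n 0 l m) jxd neK_jxd ⁻¹' {b}) := by
  have hu : ∀ y ∈ forget (SK n 0 l m) jxd neK_jxd ⁻¹' {b}, y.1.1 = pos0 b.1 := by
    intro y hy
    have h1 : forget (SK n 0 l m) jxd neK_jxd y = b := hy
    have h2 : ∀ c, y.1.1 (jxd c) = b.1 c := fun c => congrFun (congrArg Subtype.val h1) c
    funext a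
    rcases a with i | j | a
    · exact h2 (Sum.inl i)
    · exact j.elim0
    · exact h2 (Sum.inr a)
  let y0 : GS (SK n 0 l m) univ := ⟨(pos0 b.1, fun r => r.2.elim0), fun a => mem_univ _,
    fun r => r.2.elim0, fun a a' h h' => h.1 (pos0_inj b.2 h')⟩
  have hy0 : y0 ∈ forget (SK n 0 l m) jxd neK_jxd ⁻¹' {b} := by
    apply Subtype.ext
    funext c
    rcases c with i | a <;> rfl
  let hU : Unique (forget (SK n 0 l m) jxd neK_jxd ⁻¹' {b}) :=
    { default := ⟨y0, hy0⟩
      uniq := by
        rintro ⟨y, hy⟩
        apply Subtype.ext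
        apply Subtype.ext
        apply Prod.ext
        · exact hu y hy
        · funext r
          exact r.2.elim0 }
  intro d _
  exact ext_contractible _ d

end ASP87
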