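import Pool.Agent.ASP87.Cov

/-!
# ASP87/LogCov: adding logarithms of nonvanishing functions is a covering

`X` a space, `κ` finite, `f : κ -> X -> C` continuous, nowhere zero. `E = {(x, l) : exp (l k) = f k x for all k}`,
projection `E -> X`: a covering map, surjective.
PROOF: `x0 in X`. `B` = the open set of `x` with `f k x / f k x0` in `slitPlane` for all `k` (finitely many). Over
`B` a trivialization with discrete fibre `κ -> Z`: for `(x, l) in E`, `x in B` there is a unique `n k in Z` with
`l k = log (f k x0) + log (f k x / f k x0) + 2 pi i n k` (`Complex.exp_eq_exp_iff_exists_int`); `n k` is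
locally constant. Use for example `IsCoveringMap.mk` / `IsEvenlyCovered`, or a `Homeomorph` of the preimage of
`B` with `B x (κ -> Z)`. (Alternatively: pull back `isCoveringMap_exp`, Mathlib Analysis/Complex/CoveringMap.)
Surjective: `l k = log (f k x)`.
`asph_log`: `Asph E` implies `Asph X`: `ext_of_cover`.
-/

namespace ASP87

open Complex Topology Set

/-- the space with logarithms added -/
abbrev LogE {X κ : Type*} (f : κ → X → ℂ) : Type _ := {z : X × (κ → ℂ) // ∀ k, exp (z.2 k) = f k z.1}

private lemma lc_cast_cont {Y : Type*} [TopologicalSpace Y] {n : Y → ℤ}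
    (h : Continuous fun y => ((n y : ℤ) : ℝ)) : Continuous n :=
  Int.isClosedEmbedding_coe_real.isInducing.continuous_iff.2 h

theorem logCov {X κ : Type*} [TopologicalSpace X] [Finite κ] (f : κ → X → ℂ)
    (hf : ∀ k, Continuous (f k)) (h0 : ∀ k x, f k x ≠ 0) :
    IsCoveringMap (fun z : LogE f => z.1.1) ∧ Function.Surjective (fun z : LogE f => z.1.1) := by
  have hpc : Continuous (fun z : LogE f => z.1.1) := continuous_fst.comp continuous_subtype_val
  refine ⟨?_, ?_⟩
  · intro x0
    let U : Set X := {x | ∀ k, f k x / f k x0 ∈ slitPlane}
    have hU : IsOpen U := by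
      have : U = ⋂ k, {x | f k x / f k x0 ∈ slitPlane} := by
        ext x
        simp [U]
      rw [this]
      refine isOpen_iInter_of_finite fun k => ?_
      exact isOpen_slitPlane.preimage ((hf k).div_const _)
    have hx0 : x0 ∈ U := by
      intro k
      rw [div_self (h0 k x0)]
      simp
    have hex : ∀ (z : (fun z : LogE f => z.1.1) ⁻¹' U) (k : κ), ∃ m : ℤ,
        z.1.1.2 k = (log (f k x0) + log (f k z.1.1.1 / f k x0)) + m * (2 * Real.pi * I) := by
      intro z k
      rw [← exp_eq_exp_iff_exists_int, exp_add, exp_log (h0 k x0),
        exp_log (div_ne_zero (h0 k _) (h0 k x0)), z.1.2 k]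
      field_simp [h0 k x0]
    choose n hn using hex
    have h2pi : (2 * Real.pi * I : ℂ) ≠ 0 := two_pi_I_ne_zero
    have hncont : Continuous n := by
      refine continuous_pi fun k => lc_cast_cont ?_
      have hc1 : Continuous fun z : (fun z : LogE f => z.1.1) ⁻¹' U =>
          (z.1.1.2 k - (log (f k x0) + log (f k z.1.1.1 / f k x0))) / (2 * Real.pi * I) := by
        refine Continuous.div_const (Continuous.sub ?_ (Continuous.add continuous_const ?_)) _
        · exact (continuous_apply k).comp (continuous_snd.comp (continuous_subtype_val.comp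
            continuous_subtype_val))
        · refine Continuous.clog ?_ fun z => z.2 k
          exact ((hf k).comp (hpc.comp continuous_subtype_val)).div_const _
      have hc2 : ∀ z : (fun z : LogE f => z.1.1) ⁻¹' U,
          (z.1.1.2 k - (log (f k x0) + log (f k z.1.1.1 / f k x0))) / (2 * Real.pi * I) =
            ((n z k : ℤ) : ℂ) := by
        intro z
        rw [div_eq_iff h2pi, hn z k]
        ring
      have hc3 : (fun z : (fun z : LogE f => z.1.1) ⁻¹' U => ((n z k : ℤ) : ℝ)) =
          fun z => ((z.1.1.2 k - (log (f k x0) + log (f k z.1.1.1 / f k x0))) /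
            (2 * Real.pi * I)).re := by
        funext z
        rw [hc2 z, intCast_re]
      rw [hc3]
      exact continuous_re.comp hc1
    have hinv : ∀ q : U × (κ → ℤ), ∀ k,
        exp ((log (f k x0) + log (f k q.1.1 / f k x0)) + (q.2 k) * (2 * Real.pi * I)) =
          f k q.1.1 := by
      intro q k
      rw [exp_add, exp_int_mul_two_pi_mul_I, mul_one, exp_add, exp_log (h0 k x0),
        exp_log (div_ne_zero (h0 k _) (h0 k x0))]
      field_simp [h0 k x0]
    let H : (fun z : LogE f => z.1.1) ⁻¹' U ≃ₜ U × (κ → ℤ) :=
      { toFun := fun z => (⟨z.1.1.1, z.2⟩, n z)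
        invFun := fun q => ⟨⟨(q.1.1, fun k => (log (f k x0) + log (f k q.1.1 / f k x0)) +
          (q.2 k) * (2 * Real.pi * I)), hinv q⟩, q.1.2⟩
        left_inv := by
          intro z
          refine Subtype.ext (Subtype.ext (Prod.ext rfl ?_))
          funext k
          exact (hn z k).symm
        right_inv := by
          rintro ⟨x, m⟩
          refine Prod.ext rfl ?_
          funext k
          have h1 := hn ⟨⟨(x.1, fun k => (log (f k x0) + log (f k x.1 / f k x0)) +
            (m k) * (2 * Real.pi * I)), hinv (x, m)⟩, x.2⟩ k
          simp only at h1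
          have h2 := mul_right_cancel₀ h2pi (add_left_cancel h1)
          exact_mod_cast h2.symm
        continuous_toFun := by
          refine Continuous.prodMk ?_ hncont
          exact (hpc.comp continuous_subtype_val).subtype_mk _
        continuous_invFun := by
          refine Continuous.subtype_mk (Continuous.subtype_mk (Continuous.prodMk ?_ ?_) _) _
          · exact continuous_subtype_val.comp continuous_fst
          · refine continuous_pi fun k => ?_
            refine Continuous.add (Continuous.add continuous_const ?_)
              (Continuous.mul ?_ continuous_const)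
            · refine Continuous.clog ?_ fun q => q.1.2 k
              exact ((hf k).comp (continuous_subtype_val.comp continuous_fst)).div_const _
            · exact (continuous_of_discreteTopology (f := fun m : ℤ => (m : ℂ))).comp
                ((continuous_apply k).comp continuous_snd) }
    have hev : IsEvenlyCovered (fun z : LogE f => z.1.1) x0 (κ → ℤ) :=
      ⟨inferInstance, U, hx0, hU, hU.preimage hpc, H, fun _ => rfl⟩
    exact hev.to_isEvenlyCovered_preimage
  · intro x
    exact ⟨⟨(x, fun k => log (f k x)), fun k => exp_log (h0 k x)⟩, rfl⟩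

theorem asph_log {X κ : Type*} [TopologicalSpace X] [Finite κ] (f : κ → X → ℂ)
    (hf : ∀ k, Continuous (f k)) (h0 : ∀ k x, f k x ≠ 0) (h : Asph (LogE f)) : Asph X :=
  fun d hd => ext_of_cover (logCov f hf h0).1 (logCov f hf h0).2 hd (h d hd)

end ASP87
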