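import Mathlib

/-!
# ASP87/OPDir: a generic linear functional

`x : ι -> C` injective, `ι` finite. There is a unit vector `u` and `δ > 0` with
`4 δ < |Re (conj u (x i)) - Re (conj u (x j))|` for `i <> j`.
PROOF: take `u = exp (i θ)`. For a pair `i <> j`, `d = x i - x j <> 0`, `Re (exp (- i θ) d) = |d| cos (arg d - θ)`
vanishes only for `θ = arg d + pi/2 + pi k`, at most 2 values of `θ` in `[0, pi]` (or: countably many `θ` in `R`).
So there is `θ` outside the countable set of all zeros (`Set.Countable`, `Cardinal` or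
`Set.Countable.ae_notMem`/`Dense` argument; for example: `Set.uncountable`). Then the finitely many numbers
`|Re (conj u (x i - x j))|`, `i <> j`, are positive; take `δ` = a fifth of their minimum (1 if there is no pair).
-/

namespace ASP87

open Complex ComplexConjugate

theorem exists_dir {ι : Type*} [Finite ι] {x : ι → ℂ} (hx : Function.Injective x) :
    ∃ (u : ℂ) (δ : ℝ), ‖u‖ = 1 ∧ 0 < δ ∧ ∀ i j, i ≠ j →
      4 * δ < |(conj u * x i).re - (conj u * x j).re| := by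
  classical
  cases nonempty_fintype ι
  -- a slope avoiding finitely many values
  have hfin : (⋃ p : ι × ι, {t : ℝ | p.1 ≠ p.2 ∧
      (x p.1 - x p.2).re + t * (x p.1 - x p.2).im = 0}).Finite := by
    apply Set.finite_iUnion
    intro p
    apply Set.Subsingleton.finite
    rintro t ⟨hp, ht⟩ t' ⟨_, ht'⟩
    have hd : x p.1 - x p.2 ≠ 0 := sub_ne_zero.2 (fun h => hp (hx h))
    by_cases him : (x p.1 - x p.2).im = 0
    · exfalso
      rw [him, mul_zero, add_zero] at ht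
      exact hd (Complex.ext (by simpa using ht) (by simpa using him))
    · have h1 : (t - t') * (x p.1 - x p.2).im = 0 := by linear_combination ht - ht'
      rcases mul_eq_zero.1 h1 with h | h
      · linarith
      · exact absurd h him
  obtain ⟨t, ht⟩ := hfin.exists_notMem
  have hc : 0 < √(1 + t ^ 2) := Real.sqrt_pos.2 (by positivity)
  have hc2 : √(1 + t ^ 2) * √(1 + t ^ 2) = 1 + t ^ 2 := Real.mul_self_sqrt (by positivity)
  have hu : ∀ z : ℂ, (conj (((⟨1, t⟩ : ℂ)) / ((√(1 + t ^ 2) : ℝ) : ℂ)) * z).re =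
      (z.re + t * z.im) / √(1 + t ^ 2) := by
    intro z
    rw [map_div₀, Complex.conj_ofReal, div_mul_eq_mul_div, Complex.div_ofReal_re]
    congr 1
    simp [Complex.mul_re]
  have hpos : ∀ i j, i ≠ j → 0 < |(conj (((⟨1, t⟩ : ℂ)) / ((√(1 + t ^ 2) : ℝ) : ℂ)) * x i).re -
      (conj (((⟨1, t⟩ : ℂ)) / ((√(1 + t ^ 2) : ℝ) : ℂ)) * x j).re| := by
    intro i j hij
    rw [abs_pos, hu, hu]
    intro h
    apply ht
    rw [Set.mem_iUnion]
    refine ⟨(i, j), hij, ?_⟩
    rw [← sub_div, div_eq_zero_iff] at h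
    rcases h with h | h
    · rw [Complex.sub_re, Complex.sub_im]
      linear_combination h
    · exact absurd h hc.ne'
  have hmin : ∃ δ : ℝ, 0 < δ ∧ ∀ i j, i ≠ j →
      4 * δ < |(conj (((⟨1, t⟩ : ℂ)) / ((√(1 + t ^ 2) : ℝ) : ℂ)) * x i).re -
      (conj (((⟨1, t⟩ : ℂ)) / ((√(1 + t ^ 2) : ℝ) : ℂ)) * x j).re| := by
    rcases isEmpty_or_nonempty {p : ι × ι // p.1 ≠ p.2} with he | hne
    · exact ⟨1, one_pos, fun i j hij => (he.false ⟨(i, j), hij⟩).elim⟩
    · obtain ⟨p, hp⟩ := Finite.exists_min (fun p : {p : ι × ι // p.1 ≠ p.2} =>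
        |(conj (((⟨1, t⟩ : ℂ)) / ((√(1 + t ^ 2) : ℝ) : ℂ)) * x p.1.1).re -
          (conj (((⟨1, t⟩ : ℂ)) / ((√(1 + t ^ 2) : ℝ) : ℂ)) * x p.1.2).re|)
      have h0 := hpos p.1.1 p.1.2 p.2
      refine ⟨|(conj (((⟨1, t⟩ : ℂ)) / ((√(1 + t ^ 2) : ℝ) : ℂ)) * x p.1.1).re -
          (conj (((⟨1, t⟩ : ℂ)) / ((√(1 + t ^ 2) : ℝ) : ℂ)) * x p.1.2).re| / 5, by positivity, ?_⟩
      intro i j hij
      have h1 := hp ⟨(i, j), hij⟩
      simp only at h1
      linarith
  obtain ⟨δ, hδ, H⟩ := hmin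
  refine ⟨(⟨1, t⟩ : ℂ) / ((√(1 + t ^ 2) : ℝ) : ℂ), δ, ?_, hδ, H⟩
  rw [norm_div, Complex.norm_real, Real.norm_of_nonneg hc.le, Complex.norm_def]
  have h2 : Complex.normSq (⟨1, t⟩ : ℂ) = 1 + t ^ 2 := by
    rw [Complex.normSq_mk]
    ring
  rw [h2, div_self hc.ne']

end ASP87
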