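import Pool.Agent.ASP87.Walk

/-!
# ASP87/Gate: from the gates of the balls to a removal order

Hypotheses: rank function `rk` strictly monotone and bounded by `R`; `o` minimal; the poset is connected
(`hconn`, walks); gate property of the balls `Ball o r` (Theorem P).
CONCLUSION `exists_removal`: there is `par : V -> V` such that
(a) every finite set is contained in a finite set `A` with `o in A` and `par v in A` for `v in A`, `v <> o`
   (call such sets par-closed);
(b) if `A` is par-closed and `A <> {o}`, then there is `x in A`, `x <> o`, such that `A.erase x` is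
   par-closed, `Cmp (par x) x`, `par x in A.erase x` and `Cmp (par x) y` for all `y in A.erase x` with
   `Cmp x y`.

PROOF. `Ball o r` is increasing in `r` (reflexivity). Every `v` is in some ball (induction along a walk
from `o`: if `y in Ball o r` then both `y` and any comparable element are in `Ball o (r+2)`).
`lev v` = least `r` with `v in Ball o r`. `lev v = 0` iff `v = o`.
`{v : lev v <= s} = Ball o s` is an up-set if `s` is odd (`s = r + 1`, `r` even: defined as the up-closure
of `Ball o r`), a down-set if `s` is even (for `s = 0`: `o` is minimal).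
Let `lev v = r + 1`. If `r` is even: `v` is above some element of `Ball o r`, the set
`G = {y in Ball o r : y <= v}` is nonempty and directed (gate property: `v not in Ball o r`), so it has a
greatest element (take one of maximal rank; ranks are bounded; directedness and strict monotonicity
of `rk` show that it is the greatest): `par v`. If `r` is odd: dual, `par v` = least element of
`{y in Ball o r : v <= y}`. Always `lev (par v) < lev v`.
(a) iterate `par` (levels decrease, so each element adds at most `lev v` new ones).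
(b) let `s` be the largest level of an element of `A`, `s >= 1` (as `A <> {o}`), `s = r + 1`. If `r` is
even choose `x in A` of level `s` with minimal rank; if `r` is odd choose it with maximal rank.
`A.erase x` is par-closed because `lev (par v) < lev v <= s` so `par v <> x`. Let `y in A.erase x`,
`Cmp x y`, `r` even. If `lev y <= r`: not `x <= y` (the ball `r` is a down-set, `lev x > r`), so
`y <= x`, hence `y <= par x`. If `lev y = s`: `y < x` is impossible (smaller rank), so
`par x <= x <= y`. `r` odd: dual.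
-/

namespace ASP87

private theorem ball_succ_even {V : Type*} [PartialOrder V] (o : V) {r : ℕ} (h : Even r) :
    Ball o (r + 1) = {x | ∃ y ∈ Ball o r, y ≤ x} := by
  simp only [Ball]
  rw [if_pos h]

private theorem ball_succ_odd {V : Type*} [PartialOrder V] (o : V) {r : ℕ} (h : ¬ Even r) :
    Ball o (r + 1) = {x | ∃ y ∈ Ball o r, x ≤ y} := by
  simp only [Ball]
  rw [if_neg h]

private theorem ball_sub_succ {V : Type*} [PartialOrder V] (o : V) (r : ℕ) :
    Ball o r ⊆ Ball o (r + 1) := by
  intro x hx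
  by_cases h : Even r
  · rw [ball_succ_even o h]
    exact ⟨x, hx, le_rfl⟩
  · rw [ball_succ_odd o h]
    exact ⟨x, hx, le_rfl⟩

private theorem ball_mono {V : Type*} [PartialOrder V] (o : V) {r s : ℕ} (h : r ≤ s) :
    Ball o r ⊆ Ball o s := by
  induction h with
  | refl => exact subset_rfl
  | step _ ih => exact ih.trans (ball_sub_succ o _)

private theorem ball_cmp {V : Type*} [PartialOrder V] (o : V) {r : ℕ} {y z : V}
    (hy : y ∈ Ball o r) (h : Cmp y z) : z ∈ Ball o (r + 2) := by
  by_cases hr : Even r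
  · have hr1 : ¬ Even (r + 1) := by
      rw [Nat.even_add_one]
      exact fun h => h hr
    rcases h with h | h
    · apply ball_sub_succ
      rw [ball_succ_even o hr]
      exact ⟨y, hy, h⟩
    · rw [ball_succ_odd o hr1]
      exact ⟨y, ball_sub_succ o r hy, h⟩
  · have hr1 : Even (r + 1) := Nat.even_add_one.2 hr
    rcases h with h | h
    · rw [ball_succ_even o hr1]
      exact ⟨y, ball_sub_succ o r hy, h⟩
    · apply ball_sub_succ
      rw [ball_succ_odd o hr]
      exact ⟨y, hy, h⟩

private theorem ball_walk {V : Type*} [PartialOrder V] (o : V) (l : List V) :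
    ∀ (a : V) (r : ℕ), a ∈ Ball o r → IsWalk (a :: l) → ∀ b, (a :: l).getLast? = some b →
      ∃ r', b ∈ Ball o r' := by
  induction l with
  | nil =>
    intro a r ha _ b hb
    simp at hb
    exact ⟨r, hb ▸ ha⟩
  | cons c l ih =>
    intro a r ha hw b hb
    have h1 : Cmp a c ∧ IsWalk (c :: l) := by
      unfold IsWalk at hw
      rw [List.isChain_cons_cons] at hw
      exact hw
    rw [List.getLast?_cons_cons] at hb
    exact ih c (r + 2) (ball_cmp o ha h1.1) h1.2 b hb

/-- a set of elements of bounded rank has an element of maximal rank -/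
private theorem exists_max_rk {V : Type*} (rk : V → ℕ) (R : ℕ) (P : V → Prop)
    (hR : ∀ v, P v → rk v ≤ R) (hne : ∃ v, P v) : ∃ g, P g ∧ ∀ y, P y → rk y ≤ rk g := by
  by_contra hcon
  push Not at hcon
  have key : ∀ k : ℕ, ∃ v, P v ∧ k ≤ rk v := by
    intro k
    induction k with
    | zero =>
      obtain ⟨v, hv⟩ := hne
      exact ⟨v, hv, Nat.zero_le _⟩
    | succ k ih =>
      obtain ⟨v, hv, hk⟩ := ih
      obtain ⟨y, hy, hlt⟩ := hcon v hv
      exact ⟨y, hy, by omega⟩
  obtain ⟨v, hv, hk⟩ := key (R + 1)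
  have := hR v hv
  omega

private theorem exists_min_rk {V : Type*} (rk : V → ℕ) (P : V → Prop)
    (hne : ∃ v, P v) : ∃ g, P g ∧ ∀ y, P y → rk g ≤ rk y := by
  classical
  have h : ∃ k, ∃ v, P v ∧ rk v = k := by
    obtain ⟨v, hv⟩ := hne
    exact ⟨rk v, v, hv, rfl⟩
  obtain ⟨g, hg, hk⟩ := Nat.find_spec h
  refine ⟨g, hg, fun y hy => ?_⟩
  rw [hk]
  exact Nat.find_min' h ⟨y, hy, rfl⟩

theorem exists_removal {V : Type*} [PartialOrder V] (rk : V → ℕ) (hrk : StrictMono rk) (R : ℕ)
    (hR : ∀ v, rk v ≤ R) (o : V) (ho : ∀ v, v ≤ o → v = o)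
    (hconn : ∀ a b : V, ∃ l : List V, IsWalk (a :: l) ∧ (a :: l).getLast? = some b)
    (hup : ∀ r, Even r → ∀ x, x ∉ Ball o r → ∀ y ∈ Ball o r, ∀ y' ∈ Ball o r, y ≤ x → y' ≤ x →
      ∃ z ∈ Ball o r, y ≤ z ∧ y' ≤ z ∧ z ≤ x)
    (hdn : ∀ r, Odd r → ∀ x, x ∉ Ball o r → ∀ y ∈ Ball o r, ∀ y' ∈ Ball o r, x ≤ y → x ≤ y' →
      ∃ z ∈ Ball o r, z ≤ y ∧ z ≤ y' ∧ x ≤ z) :
    ∃ par : V → V,
      (∀ B : Set V, B.Finite → ∃ A : Set V, A.Finite ∧ B ⊆ A ∧ o ∈ A ∧
        ∀ v ∈ A, v ≠ o → par v ∈ A) ∧
      ∀ A : Set V, A.Finite → o ∈ A → (∀ v ∈ A, v ≠ o → par v ∈ A) → A ≠ {o} →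
        ∃ x ∈ A, x ≠ o ∧ par x ≠ x ∧ par x ∈ A ∧ Cmp (par x) x ∧
          (∀ v ∈ A \ {x}, v ≠ o → par v ∈ A \ {x}) ∧
          ∀ y ∈ A \ {x}, Cmp x y → Cmp (par x) y := by
  classical
  have hex : ∀ v, ∃ r, v ∈ Ball o r := by
    intro v
    obtain ⟨l, hl, hlast⟩ := hconn o v
    exact ball_walk o l o 0 rfl hl v hlast
  obtain ⟨lev, hlev⟩ : ∃ lev : V → ℕ, ∀ v r, v ∈ Ball o r ↔ lev v ≤ r := by
    refine ⟨fun v => Nat.find (hex v), fun v r => ⟨fun h => Nat.find_min' (hex v) h, fun h => ?_⟩⟩
    exact ball_mono o h (Nat.find_spec (hex v))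
  have hlev0 : ∀ v, lev v = 0 → v = o := by
    intro v hv
    have h1 : v ∈ Ball o 0 := (hlev v 0).2 hv.le
    exact h1
  -- the parents
  have hpar : ∀ v, ∃ g, v ≠ o → (lev g < lev v ∧ Cmp g v ∧
      (¬ Even (lev v) → g ≤ v ∧ ∀ y, lev y < lev v → y ≤ v → y ≤ g) ∧
      (Even (lev v) → v ≤ g ∧ ∀ y, lev y < lev v → v ≤ y → g ≤ y)) := by
    intro v
    by_cases hvo : v = o
    · exact ⟨o, fun h => absurd hvo h⟩
    obtain ⟨r, hr⟩ : ∃ r, lev v = r + 1 := by
      refine ⟨lev v - 1, ?_⟩
      have : lev v ≠ 0 := fun h => hvo (hlev0 v h)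
      omega
    have hv1 : v ∈ Ball o (r + 1) := (hlev v _).2 hr.le
    have hv2 : v ∉ Ball o r := by
      rw [hlev, hr]
      omega
    by_cases hre : Even r
    · rw [ball_succ_even o hre] at hv1
      obtain ⟨y₀, hy₀, hy₀v⟩ := hv1
      obtain ⟨g, ⟨hg1, hg2⟩, hmax⟩ := exists_max_rk rk R (fun y => y ∈ Ball o r ∧ y ≤ v)
        (fun y _ => hR y) ⟨y₀, hy₀, hy₀v⟩
      refine ⟨g, fun _ => ⟨?_, Or.inl hg2, fun _ => ⟨hg2, ?_⟩, ?_⟩⟩
      · rw [hlev] at hg1
        omega
      · intro y hy hyv
        have hyb : y ∈ Ball o r := by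
          rw [hlev]
          omega
        obtain ⟨z, hz, h1, h2, h3⟩ := hup r hre v hv2 g hg1 y hyb hg2 hyv
        have h4 : rk z ≤ rk g := hmax z ⟨hz, h3⟩
        have h5 : g = z := by
          rcases h1.eq_or_lt with h | h
          · exact h
          · have := hrk h
            omega
        rw [h5]
        exact h2
      · intro he
        rw [hr, Nat.even_add_one] at he
        exact absurd hre he
    · rw [ball_succ_odd o hre] at hv1
      obtain ⟨y₀, hy₀, hy₀v⟩ := hv1
      obtain ⟨g, ⟨hg1, hg2⟩, hmin⟩ := exists_min_rk rk (fun y => y ∈ Ball o r ∧ v ≤ y)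
        ⟨y₀, hy₀, hy₀v⟩
      refine ⟨g, fun _ => ⟨?_, Or.inr hg2, ?_, fun _ => ⟨hg2, ?_⟩⟩⟩
      · rw [hlev] at hg1
        omega
      · intro he
        rw [hr, Nat.even_add_one] at he
        exact absurd hre he
      · intro y hy hyv
        have hyb : y ∈ Ball o r := by
          rw [hlev]
          omega
        obtain ⟨z, hz, h1, h2, h3⟩ := hdn r (Nat.not_even_iff_odd.1 hre) v hv2 g hg1 y hyb hg2 hyv
        have h4 : rk g ≤ rk z := hmin z ⟨hz, h3⟩
        have h5 : z = g := by
          rcases h1.eq_or_lt with h | h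
          · exact h
          · have := hrk h
            omega
        rw [← h5]
        exact h2
  choose par hpar using hpar
  refine ⟨par, ?_, ?_⟩
  · -- closed finite sets
    have h1 : ∀ n : ℕ, ∀ v, lev v ≤ n → ∃ A : Set V, A.Finite ∧ v ∈ A ∧ o ∈ A ∧
        ∀ w ∈ A, w ≠ o → par w ∈ A := by
      intro n
      induction n with
      | zero =>
        intro v hv
        have hvo := hlev0 v (by omega)
        refine ⟨{o}, Set.finite_singleton o, hvo, rfl, ?_⟩
        intro w hw hwo
        exact absurd hw hwo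
      | succ n ih =>
        intro v hv
        by_cases hvo : v = o
        · refine ⟨{o}, Set.finite_singleton o, hvo, rfl, ?_⟩
          intro w hw hwo
          exact absurd hw hwo
        · obtain ⟨A, hA, hpA, hoA, hcl⟩ := ih (par v) (by
            have := (hpar v hvo).1
            omega)
          refine ⟨insert v A, hA.insert v, Set.mem_insert v A, Set.mem_insert_of_mem v hoA, ?_⟩
          intro w hw hwo
          rcases hw with hw | hw
          · rw [hw]
            exact Set.mem_insert_of_mem v hpA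
          · exact Set.mem_insert_of_mem v (hcl w hw hwo)
    intro B hB
    choose AA hA1 hA2 hA3 hA4 using fun v => h1 (lev v) v le_rfl
    refine ⟨⋃ v ∈ insert o B, AA v, (hB.insert o).biUnion fun v _ => hA1 v, ?_, ?_, ?_⟩
    · intro v hv
      exact Set.mem_biUnion (Set.mem_insert_of_mem o hv) (hA2 v)
    · exact Set.mem_biUnion (Set.mem_insert o B) (hA3 o)
    · intro w hw hwo
      rw [Set.mem_iUnion₂] at hw ⊢
      obtain ⟨v, hv, hwv⟩ := hw
      exact ⟨v, hv, hA4 v w hwv hwo⟩
  · intro A hA hoA hcl hne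
    -- an element different from `o`
    obtain ⟨a, haA, hao⟩ : ∃ a ∈ A, a ≠ o := by
      by_contra hcon
      push Not at hcon
      apply hne
      ext v
      constructor
      · intro hv
        exact hcon v hv
      · intro hv
        have : v = o := hv
        rw [this]
        exact hoA
    obtain ⟨m, hm, hmax⟩ := Set.exists_max_image A lev hA ⟨a, haA⟩
    have hm1 : 1 ≤ lev m := by
      have h1 : lev a ≠ 0 := fun h => hao (hlev0 a h)
      have h2 := hmax a haA
      omega
    have hne_o : ∀ x, lev x = lev m → x ≠ o := by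
      rintro x hx rfl
      have h1 : x ∈ Ball x 0 := rfl
      rw [hlev] at h1
      omega
    -- the choice of `x`
    have hfin : ∀ x ∈ A, lev x = lev m →
        (∀ y ∈ A \ {x}, Cmp x y → Cmp (par x) y) →
        ∃ x ∈ A, x ≠ o ∧ par x ≠ x ∧ par x ∈ A ∧ Cmp (par x) x ∧
          (∀ v ∈ A \ {x}, v ≠ o → par v ∈ A \ {x}) ∧
          ∀ y ∈ A \ {x}, Cmp x y → Cmp (par x) y := by
      intro x hxA hxm hy
      have hxo := hne_o x hxm
      obtain ⟨h1, h2, -, -⟩ := hpar x hxo
      refine ⟨x, hxA, hxo, ?_, hcl x hxA hxo, h2, ?_, hy⟩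
      · intro h
        rw [h] at h1
        exact lt_irrefl _ h1
      · rintro v ⟨hvA, -⟩ hvo
        refine ⟨hcl v hvA hvo, ?_⟩
        intro h
        have h3 : par v = x := h
        have h4 := (hpar v hvo).1
        have h5 := hmax v hvA
        rw [h3] at h4
        omega
    by_cases hse : Even (lev m)
    · obtain ⟨x, ⟨hxA, hxm⟩, hxmax⟩ := exists_max_rk rk R (fun x => x ∈ A ∧ lev x = lev m)
        (fun y _ => hR y) ⟨m, hm, rfl⟩
      refine hfin x hxA hxm ?_
      rintro y ⟨hyA, hyx⟩ hc
      obtain ⟨-, -, -, h4⟩ := hpar x (hne_o x hxm)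
      obtain ⟨h5, h6⟩ := h4 (by rw [hxm]; exact hse)
      rcases hc with hc | hc
      · rcases (hmax y hyA).lt_or_eq with h7 | h7
        · exact Or.inl (h6 y (by rw [hxm]; exact h7) hc)
        · exfalso
          have h8 := hxmax y ⟨hyA, h7⟩
          rcases hc.eq_or_lt with h9 | h9
          · exact hyx h9.symm
          · have := hrk h9
            omega
      · exact Or.inr (hc.trans h5)
    · obtain ⟨x, ⟨hxA, hxm⟩, hxmin⟩ := exists_min_rk rk (fun x => x ∈ A ∧ lev x = lev m)
        ⟨m, hm, rfl⟩
      refine hfin x hxA hxm ?_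
      rintro y ⟨hyA, hyx⟩ hc
      obtain ⟨-, -, h4, -⟩ := hpar x (hne_o x hxm)
      obtain ⟨h5, h6⟩ := h4 (by rw [hxm]; exact hse)
      rcases hc with hc | hc
      · exact Or.inl (h5.trans hc)
      · rcases (hmax y hyA).lt_or_eq with h7 | h7
        · exact Or.inr (h6 y (by rw [hxm]; exact h7) hc)
        · exfalso
          have h8 := hxmin y ⟨hyA, h7⟩
          rcases hc.eq_or_lt with h9 | h9
          · exact hyx h9
          · have := hrk h9
            omega

end ASP87
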