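import Pool.Agent.ASP87.GridWalk
import Pool.Agent.ASP87.Defs

/-!
# ASP87/Nerve: a simply connected space covered by open path connected sets indexed by a poset

`NCov W`: the sets `W v` are open, nonempty, path connected, cover `Z`, and `W v inter W w` is nonempty
iff `v, w` are comparable. Then the poset is connected and simply connected (`PSC`) if `Z` is simply
connected.

(a) `walk_path`: for a walk `v_0, ..., v_k` and points `za in W v_0`, `zb in W v_k` there is a continuous
`f : R -> Z` with `f 0 = za`, `f (k+1) = zb`, `f [i, i+1]` in `W v_i`. Induction on the walk: choose a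
point in `W v_{k-1} inter W v_k`, extend by a path in `W v_k` (constant outside `[0, k+1]`).
(b) connectedness: `a, b in V`, points `za, zb`, a path between them; Lebesgue: the path on
`[i/N, (i+1)/N]` lies in some `W (v i)`; consecutive labels share a point, so they are comparable;
`a, v 0` share `za`; `v (N-1), b` share `zb`.
(c) Let `a = v_0..v_k = b` and `a = v'_0 .. v'_k' = b` be walks, `f, f'` as in (a) with the same
`za, zb`, reparametrized to `[0,1]` (`t -> f ((k+1) t)`, `f' ((k'+1) t)`). They are homotopic rel ends: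
`H : I x I -> Z`, `H (t, 0) = f`, `H (t, 1) = f'`, `H (0, s) = za`, `H (1, s) = zb`. By Lebesgue there
is `N >= 1`, a multiple of `(k+1) (k'+1)`, such that `H` maps each square
`[i/N,(i+1)/N] x [j/N,(j+1)/N]` into some `W (M i j)`. Define `L : Nat -> Nat -> V` on
`0..N+1` (shifted by one): `L (i+1) (j+1) = M i j` for `i, j < N`; `L (i+1) 0 = v_{floor (i (k+1)/N)}`
(bottom row), `L (i+1) (N+1) = v'_{floor (i (k'+1)/N)}` for `i < N`; `L 0 j = a`, `L (N+1) j = b` for all
`j`. Any four labels around a grid vertex `(i/N, j/N)` contain the point `H (i/N, j/N)` (for the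
bottom row: `f` on `[i/N, (i+1)/N]` stays in `W v_{floor(i(k+1)/N)}` because `N` is a multiple of
`k+1`; left column: `za in W a`), hence are pairwise comparable. `row_walk` with `m = n = N+1` gives:
`a, (bottom row), b, b, ..., b` is equivalent to `a, ..., a, (top row), b`. By `eqv_dedup` (the bottom
row is `v_0` repeated `N/(k+1)` times, `v_1` repeated .., etc.) the first is equivalent to
`v_0, ..., v_k`, the second to `v'_0, ..., v'_k'`.
-/

namespace ASP87

open scoped unitInterval Topology
open Set

structure NCov {Z V : Type*} [TopologicalSpace Z] [PartialOrder V] (W : V → Set Z) : Prop where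
  op : ∀ v, IsOpen (W v)
  pc : ∀ v, IsPathConnected (W v)
  cover : ∀ z, ∃ v, z ∈ W v
  inter : ∀ v w, (W v ∩ W w).Nonempty ↔ Cmp v w

theorem walk_path {Z V : Type*} [TopologicalSpace Z] [PartialOrder V] {W : V → Set Z}
    (h : NCov W) (a : V) (l : List V) (hw : IsWalk (a :: l)) (za zb : Z) (ha : za ∈ W a)
    (hb : ∀ b, (a :: l).getLast? = some b → zb ∈ W b) :
    ∃ f : ℝ → Z, Continuous f ∧ f 0 = za ∧ f (l.length + 1) = zb ∧
      ∀ i : ℕ, ∀ v, (a :: l)[i]? = some v → ∀ t : ℝ, (i : ℝ) ≤ t → t ≤ i + 1 → f t ∈ W v := by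
  induction l generalizing a za with
  | nil =>
    have hzb : zb ∈ W a := hb a (by simp)
    obtain ⟨γ, hγ⟩ := (h.pc a).joinedIn za ha zb hzb
    refine ⟨γ.extend, γ.continuous_extend, γ.extend_zero, by simp, ?_⟩
    intro i v hv t h0 h1
    cases i with
    | zero =>
      simp only [List.getElem?_cons_zero, Option.some.injEq] at hv
      subst hv
      have h0' : (0 : ℝ) ≤ t := by simpa using h0
      have h1' : t ≤ 1 := by simpa using h1
      rw [Path.extend_apply γ ⟨h0', h1'⟩]
      exact hγ _
    | succ n => simp at hv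
  | cons b l ih =>
    have hw' : Cmp a b ∧ IsWalk (b :: l) := by
      unfold IsWalk at hw ⊢
      simpa [List.isChain_cons_cons] using hw
    obtain ⟨z1, hz1a, hz1b⟩ := (h.inter a b).2 hw'.1
    obtain ⟨f, hf, hf0, hf1, hfW⟩ := ih b hw'.2 z1 hz1b (by
      intro c hc
      apply hb
      rw [List.getLast?_cons_cons]
      exact hc)
    obtain ⟨γ, hγ⟩ := (h.pc a).joinedIn za ha z1 hz1a
    refine ⟨fun t => if t ≤ 1 then γ.extend t else f (t - 1), ?_, ?_, ?_, ?_⟩
    · refine Continuous.if_le γ.continuous_extend (hf.comp (continuous_id.sub continuous_const))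
        continuous_id continuous_const ?_
      intro t ht
      have ht' : t = 1 := ht
      subst ht'
      simp [hf0]
    · simp
    · have h2 : ¬ (((b :: l).length : ℝ) + 1 ≤ 1) := by
        push Not
        have : (0 : ℝ) < ((b :: l).length : ℝ) := by
          rw [List.length_cons]
          positivity
        linarith
      simp only [if_neg h2]
      rw [← hf1]
      congr 1
      rw [List.length_cons]
      push_cast
      ring
    · intro i v hv t h0 h1
      cases i with
      | zero =>
        simp only [List.getElem?_cons_zero, Option.some.injEq] at hv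
        subst hv
        have h0' : (0 : ℝ) ≤ t := by simpa using h0
        have h1' : t ≤ 1 := by simpa using h1
        simp only [if_pos h1']
        rw [Path.extend_apply γ ⟨h0', h1'⟩]
        exact hγ _
      | succ n =>
        rw [List.getElem?_cons_succ] at hv
        push_cast at h0 h1
        have key : f (t - 1) ∈ W v := hfW n v hv (t - 1) (by linarith) (by linarith)
        by_cases h2 : t ≤ 1
        · have h3 : t = 1 := by
            have : (0 : ℝ) ≤ n := Nat.cast_nonneg n
            linarith
          subst h3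
          simp only [le_refl, if_true, Path.extend_one]
          rw [sub_self, hf0] at key
          exact key
        · simp only [if_neg h2]
          exact key

/-- a Lebesgue grid -/
theorem grid_cover {Z V : Type*} [TopologicalSpace Z] {W : V → Set Z}
    (hop : ∀ v, IsOpen (W v)) (hcov : ∀ z, ∃ v, z ∈ W v) (H : ℝ → ℝ → Z)
    (hH : Continuous fun p : ℝ × ℝ => H p.1 p.2) :
    ∃ N0 : ℕ, 0 < N0 ∧ ∀ N : ℕ, N0 ≤ N → ∀ i < N, ∀ j < N, ∃ v, ∀ t s : ℝ,
      (i : ℝ) / N ≤ t → t ≤ (i + 1) / N → (j : ℝ) / N ≤ s → s ≤ (j + 1) / N → H t s ∈ W v := by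
  have hK : IsCompact (Icc (0 : ℝ) 1 ×ˢ Icc (0 : ℝ) 1) := isCompact_Icc.prod isCompact_Icc
  obtain ⟨δ, hδ, hL⟩ := lebesgue_number_lemma_of_metric (c := fun v => (fun p : ℝ × ℝ => H p.1 p.2) ⁻¹' W v) hK
    (fun v => (hop v).preimage hH) (by
      intro p _
      obtain ⟨v, hv⟩ := hcov (H p.1 p.2)
      exact mem_iUnion.2 ⟨v, hv⟩)
  obtain ⟨n, hn⟩ := exists_nat_one_div_lt hδ
  refine ⟨n + 1, by omega, ?_⟩
  intro N hN i hi j hj
  have hNpos : (0 : ℝ) < N := by
    have : 0 < N := by omega
    exact_mod_cast this
  have hlt : (1 : ℝ) / N < δ := by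
    refine lt_of_le_of_lt ?_ hn
    apply one_div_le_one_div_of_le (by positivity)
    exact_mod_cast hN
  have e1 : ∀ k : ℕ, k < N → ((k : ℝ) / N) ∈ Icc (0 : ℝ) 1 := by
    intro k hk
    refine ⟨by positivity, ?_⟩
    rw [div_le_one hNpos]
    exact_mod_cast hk.le
  obtain ⟨v, hv⟩ := hL ((i : ℝ) / N, (j : ℝ) / N) ⟨e1 i hi, e1 j hj⟩
  refine ⟨v, ?_⟩
  intro t s h1 h2 h3 h4
  have : ((t, s) : ℝ × ℝ) ∈ Metric.ball (((i : ℝ) / N, (j : ℝ) / N) : ℝ × ℝ) δ := by
    rw [Metric.mem_ball, Prod.dist_eq]
    apply max_lt
    · simp only [Real.dist_eq]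
      rw [abs_of_nonneg (by linarith)]
      rw [add_div] at h2
      linarith
    · simp only [Real.dist_eq]
      rw [abs_of_nonneg (by linarith)]
      rw [add_div] at h4
      linarith
  exact hv this

theorem cmp_of_mem {Z V : Type*} [TopologicalSpace Z] [PartialOrder V] {W : V → Set Z}
    (h : NCov W) {v w : V} {z : Z} (hv : z ∈ W v) (hw : z ∈ W w) : Cmp v w :=
  (h.inter v w).1 ⟨z, hv, hw⟩

theorem nerve_conn {Z V : Type*} [TopologicalSpace Z] [PartialOrder V] {W : V → Set Z}
    (h : NCov W) [PathConnectedSpace Z] (a b : V) :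
    ∃ l : List V, IsWalk (a :: l) ∧ (a :: l).getLast? = some b := by
  obtain ⟨za, hza⟩ := (h.pc a).nonempty
  obtain ⟨zb, hzb⟩ := (h.pc b).nonempty
  obtain ⟨γ⟩ := PathConnectedSpace.joined za zb
  obtain ⟨N, hN, hG⟩ := grid_cover h.op h.cover (fun t _ => γ.extend t)
    (γ.continuous_extend.comp continuous_fst)
  have hNR : (0 : ℝ) < N := by exact_mod_cast hN
  have hG' : ∀ i, ∃ v, i < N → ∀ t : ℝ, (i : ℝ) / N ≤ t → t ≤ (i + 1) / N → γ.extend t ∈ W v := by
    intro i
    by_cases hi : i < N
    · obtain ⟨v, hv⟩ := hG N le_rfl i hi 0 hN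
      refine ⟨v, fun _ t h1 h2 => hv t 0 h1 h2 (by simp) (by positivity)⟩
    · exact ⟨a, fun h => absurd h hi⟩
  choose v hv using hG'
  -- the walk v 0, ..., v (N-1)
  have hwalk : ∀ n, n < N → ∃ l : List V, IsWalk (a :: l) ∧ (a :: l).getLast? = some (v n) := by
    intro n
    induction n with
    | zero =>
      intro h0
      refine ⟨[v 0], ?_, by simp⟩
      have : Cmp a (v 0) := by
        apply cmp_of_mem h hza
        have := hv 0 h0 0 (by simp) (by positivity)
        simpa using this
      unfold IsWalk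
      simpa [List.isChain_cons_cons] using this
    | succ n ih =>
      intro hn
      obtain ⟨l, hl, hlast⟩ := ih (by omega)
      refine ⟨l ++ [v (n + 1)], ?_, ?_⟩
      · unfold IsWalk at hl ⊢
        rw [← List.cons_append]
        rw [List.isChain_append]
        refine ⟨hl, by simp, ?_⟩
        intro x hx y hy
        rw [hlast] at hx
        simp only [Option.mem_def, Option.some.injEq, List.head?_cons] at hx hy
        subst hx
        subst hy
        apply cmp_of_mem h (hv n (by omega) ((n + 1) / N) ?_ le_rfl)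
          (hv (n + 1) hn ((n + 1) / N) ?_ ?_)
        · gcongr
          linarith
        · push_cast
          exact le_rfl
        · push_cast
          gcongr
          linarith
      · rw [← List.cons_append, List.getLast?_append]
        simp
  obtain ⟨l, hl, hlast⟩ := hwalk (N - 1) (by omega)
  refine ⟨l ++ [b], ?_, ?_⟩
  · unfold IsWalk at hl ⊢
    rw [← List.cons_append]
    rw [List.isChain_append]
    refine ⟨hl, by simp, ?_⟩
    intro x hx y hy
    rw [hlast] at hx
    simp only [Option.mem_def, Option.some.injEq, List.head?_cons] at hx hy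
    subst hx
    subst hy
    have e : ((N - 1 : ℕ) : ℝ) = N - 1 := by
      rw [Nat.cast_sub hN]
      simp
    refine cmp_of_mem h (z := zb) ?_ hzb
    have := hv (N - 1) (by omega) 1 ?_ ?_
    · simpa using this
    · rw [e, div_le_one hNR]
      linarith
    · rw [e, le_div_iff₀ hNR]
      linarith
  · rw [← List.cons_append, List.getLast?_append]
    simp


theorem stutter {V : Type*} [PartialOrder V] (h : ℕ → V) (K c : ℕ) (hc : 0 < c) (hK : 0 < K) :
    Relation.EqvGen Move ((List.range (K * c)).map (fun i => h (i / c)))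
      ((List.range K).map h) := by
  have e := eqv_dedup ((List.range K).map (fun i => (h i, c - 1))) (by
    simp
    omega)
  have e1 : ((List.range K).map (fun i => (h i, c - 1))).flatMap
      (fun x => List.replicate (x.2 + 1) x.1) = (List.range (K * c)).map (fun i => h (i / c)) := by
    clear e hK
    induction K with
    | zero => simp
    | succ K ih =>
      rw [List.range_succ, List.map_append, List.flatMap_append, ih, Nat.succ_mul, List.range_add,
        List.map_append]
      congr 1
      have hc1 : c - 1 + 1 = c := by omega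
      simp only [List.map_cons, List.map_nil, List.flatMap_cons, List.flatMap_nil, List.append_nil,
        List.map_map, hc1]
      symm
      rw [List.eq_replicate_iff]
      refine ⟨by simp, ?_⟩
      intro b hb
      rw [List.mem_map] at hb
      obtain ⟨i, hi, rfl⟩ := hb
      rw [List.mem_range] at hi
      simp only [Function.comp]
      congr 1
      rw [Nat.mul_comm, Nat.mul_add_div hc, Nat.div_eq_of_lt hi, Nat.add_zero]
  rw [e1] at e
  have e2 : ((List.range K).map (fun i => (h i, c - 1))).map Prod.fst = (List.range K).map h := by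
    rw [List.map_map]
    rfl
  rw [e2] at e
  exact e

theorem absorb_left {V : Type*} [PartialOrder V] (n : ℕ) (a : V) (l : List V) :
    Relation.EqvGen Move (List.replicate n a ++ (a :: l)) (a :: l) := by
  induction n with
  | zero => exact Relation.EqvGen.refl _
  | succ n ih =>
    refine Relation.EqvGen.trans _ _ _ (Relation.EqvGen.rel _ _ ?_) ih
    have := Move.dup (List.replicate n a) l a
    rw [List.replicate_succ']
    simpa using this

theorem absorb_right {V : Type*} [PartialOrder V] (n : ℕ) (b : V) (l : List V)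
    (hl : l.getLast? = some b) :
    Relation.EqvGen Move (l ++ List.replicate n b) l := by
  obtain ⟨p, rfl⟩ := List.getLast?_eq_some_iff.1 hl
  induction n with
  | zero =>
    simp only [List.replicate_zero, List.append_nil]
    exact Relation.EqvGen.refl _
  | succ n ih =>
    refine Relation.EqvGen.trans _ _ _ (Relation.EqvGen.rel _ _ ?_) ih
    have := Move.dup p (List.replicate n b) b
    rw [List.replicate_succ]
    simpa using this

theorem cons_eq_map {V : Type*} (a : V) (l : List V) :
    (List.range (l.length + 1)).map (fun i => (a :: l).getD i a) = a :: l := by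
  apply List.ext_getElem
  · simp
  · intro i h1 h2
    simp only [List.getElem_map, List.getElem_range]
    rw [List.getD_eq_getElem _ _ h2]

theorem psc_of_cover {Z V : Type*} [TopologicalSpace Z] [PartialOrder V] {W : V → Set Z}
    (h : NCov W) [SimplyConnectedSpace Z] : PSC V := by
  refine ⟨fun a b => nerve_conn h a b, ?_⟩
  intro a l l' hw hw' hlast
  obtain ⟨b, hb⟩ : ∃ b, (a :: l).getLast? = some b := by
    rw [List.getLast?_eq_some_getLast (List.cons_ne_nil a l)]
    exact ⟨_, rfl⟩
  have hb' : (a :: l').getLast? = some b := by rw [← hlast, hb]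
  obtain ⟨za, hza⟩ := (h.pc a).nonempty
  obtain ⟨zb, hzb⟩ := (h.pc b).nonempty
  obtain ⟨f, hf, hf0, hf1, hfW⟩ := walk_path h a l hw za zb hza (by
    intro c hc
    rw [hb] at hc
    simp only [Option.some.injEq] at hc
    rw [← hc]
    exact hzb)
  obtain ⟨f', hf', hf0', hf1', hfW'⟩ := walk_path h a l' hw' za zb hza (by
    intro c hc
    rw [hb'] at hc
    simp only [Option.some.injEq] at hc
    rw [← hc]
    exact hzb)
  obtain ⟨F⟩ := SimplyConnectedSpace.paths_homotopic
    (⟨⟨fun t : I => f ((t : ℝ) * (l.length + 1)), by fun_prop⟩, by simp [hf0], by simp [hf1]⟩ :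
      Path za zb)
    (⟨⟨fun t : I => f' ((t : ℝ) * (l'.length + 1)), by fun_prop⟩, by simp [hf0'], by simp [hf1']⟩ :
      Path za zb)
  have HF0 : ∀ t : I, F (0, t) = f ((t : ℝ) * (l.length + 1)) := fun t => F.apply_zero t
  have HF1 : ∀ t : I, F (1, t) = f' ((t : ℝ) * (l'.length + 1)) := fun t => F.apply_one t
  have HFs : ∀ s : I, F (s, 0) = za := fun s => F.source s
  have HFt : ∀ s : I, F (s, 1) = zb := fun s => F.target s
  obtain ⟨N0, hN0, hG⟩ := grid_cover h.op h.cover
    (fun t s => F (projIcc 0 1 zero_le_one s, projIcc 0 1 zero_le_one t))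
    (F.continuous.comp ((continuous_projIcc.comp continuous_snd).prodMk
      (continuous_projIcc.comp continuous_fst)))
  obtain ⟨K, hK⟩ : ∃ K, K = l.length + 1 := ⟨_, rfl⟩
  obtain ⟨K', hK'⟩ : ∃ K', K' = l'.length + 1 := ⟨_, rfl⟩
  obtain ⟨c, hc⟩ : ∃ c, c = N0 * K' := ⟨_, rfl⟩
  obtain ⟨c', hc'⟩ : ∃ c', c' = N0 * K := ⟨_, rfl⟩
  obtain ⟨N, hN⟩ : ∃ N, N = K * c := ⟨_, rfl⟩
  have hN' : N = K' * c' := by rw [hN, hc, hc']; ring
  have hKp : 0 < K := by omega
  have hKp' : 0 < K' := by omega
  have hcp : 0 < c := by rw [hc]; positivity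
  have hcp' : 0 < c' := by rw [hc']; positivity
  have hNN : N0 ≤ N := by
    rw [hN, hc]
    calc N0 = 1 * (N0 * 1) := by ring
      _ ≤ K * (N0 * K') := by gcongr <;> omega
  have hNp : 0 < N := by omega
  have hNR : (0 : ℝ) < N := by exact_mod_cast hNp
  -- the labels
  have hM : ∀ i j, ∃ v, i < N → j < N → ∀ t s : ℝ,
      (i : ℝ) / N ≤ t → t ≤ (i + 1) / N → (j : ℝ) / N ≤ s → s ≤ (j + 1) / N →
      F (projIcc 0 1 zero_le_one s, projIcc 0 1 zero_le_one t) ∈ W v := by
    intro i j
    by_cases hij : i < N ∧ j < N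
    · obtain ⟨v, hv⟩ := hG N hNN i hij.1 j hij.2
      exact ⟨v, fun _ _ => hv⟩
    · exact ⟨a, fun h1 h2 => absurd ⟨h1, h2⟩ hij⟩
  choose M hMs using hM
  obtain ⟨v, hv⟩ : ∃ v : ℕ → V, v = fun i => (a :: l).getD i a := ⟨_, rfl⟩
  obtain ⟨v', hv'⟩ : ∃ v' : ℕ → V, v' = fun i => (a :: l').getD i a := ⟨_, rfl⟩
  obtain ⟨L, hL⟩ : ∃ L : ℕ → ℕ → V, L = fun i j => if i = 0 then a else if N < i then b else
      if j = 0 then v ((i - 1) / c) else if N < j then v' ((i - 1) / c') else M (i - 1) (j - 1) :=
    ⟨_, rfl⟩
  -- grid points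
  obtain ⟨P, hP⟩ : ∃ P : ℕ → ℕ → Z, P = fun (i j : ℕ) =>
      F (projIcc 0 1 zero_le_one ((j : ℝ) / N), projIcc 0 1 zero_le_one ((i : ℝ) / N)) := ⟨_, rfl⟩
  have hproj : ∀ i : ℕ, i ≤ N → ((projIcc (0 : ℝ) 1 zero_le_one ((i : ℝ) / N) : I) : ℝ) = (i : ℝ) / N := by
    intro i hi
    rw [projIcc_of_mem (h := (zero_le_one : (0 : ℝ) ≤ 1)) (x := (i : ℝ) / N) ⟨by positivity, by
      rw [div_le_one hNR]
      exact_mod_cast hi⟩]
  have hproj0 : (projIcc (0 : ℝ) 1 zero_le_one (((0 : ℕ) : ℝ) / N) : I) = 0 := by
    apply Subtype.ext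
    rw [hproj 0 (Nat.zero_le _)]
    simp
  have hprojN : (projIcc (0 : ℝ) 1 zero_le_one ((N : ℝ) / N) : I) = 1 := by
    apply Subtype.ext
    rw [hproj N le_rfl, div_self hNR.ne']
    simp
  -- bottom and top rows
  have row : ∀ (l₁ : List V) (g : ℝ → Z) (k d : ℕ), k = l₁.length + 1 → N = k * d → 0 < d →
      (∀ i : ℕ, ∀ v, (a :: l₁)[i]? = some v → ∀ t : ℝ, (i : ℝ) ≤ t → t ≤ i + 1 → g t ∈ W v) →
      ∀ i' i : ℕ, 1 ≤ i' → i' ≤ N → (i = i' ∨ i + 1 = i') →
        g ((i : ℝ) / N * (l₁.length + 1)) ∈ W ((a :: l₁).getD ((i' - 1) / d) a) := by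
    intro l₁ g k d hk hd hdp hg i' i h1 h2 h3
    have hlt : (i' - 1) / d < (a :: l₁).length := by
      rw [List.length_cons, ← hk]
      rw [Nat.div_lt_iff_lt_mul hdp]
      omega
    have hdR : (0 : ℝ) < d := by exact_mod_cast hdp
    have e1 : (i : ℝ) / N * (l₁.length + 1) = (i : ℝ) / d := by
      have : ((l₁.length : ℝ) + 1) = k := by
        rw [hk]
        push_cast
        ring
      rw [this, hd]
      have hkR : (k : ℝ) ≠ 0 := by
        rw [← this]
        positivity
      push_cast
      field_simp
    rw [e1]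
    have hm1 : ((i' - 1) / d) * d ≤ i' - 1 := Nat.div_mul_le_self _ _
    have hm2 : i' - 1 < ((i' - 1) / d + 1) * d := by
      rw [Nat.add_mul, Nat.one_mul]
      exact Nat.lt_div_mul_add hdp
    apply hg ((i' - 1) / d)
    · rw [List.getD_eq_getElem _ _ hlt, List.getElem?_eq_getElem hlt]
    · rw [le_div_iff₀ hdR]
      have : ((i' - 1) / d) * d ≤ i := by omega
      exact_mod_cast this
    · rw [div_le_iff₀ hdR]
      have : i ≤ ((i' - 1) / d + 1) * d := by omega
      exact_mod_cast this
  have hpt : ∀ i j i' j' : ℕ, i ≤ N → j ≤ N → (i = i' ∨ i + 1 = i') → (j = j' ∨ j + 1 = j') →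
      P i j ∈ W (L i' j') := by
    intro i j i' j' hi hj hi' hj'
    rw [hL]
    simp only
    by_cases h0 : i' = 0
    · rw [if_pos h0]
      have : i = 0 := by omega
      subst this
      rw [hP]
      simp only
      rw [hproj0, HFs]
      exact hza
    rw [if_neg h0]
    by_cases h1 : N < i'
    · rw [if_pos h1]
      have : i = N := by omega
      subst this
      rw [hP]
      simp only
      rw [hprojN, HFt]
      exact hzb
    rw [if_neg h1]
    by_cases h2 : j' = 0
    · rw [if_pos h2]
      have : j = 0 := by omega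
      subst this
      rw [hP]
      simp only
      rw [hproj0, HF0, hproj i hi, hv]
      exact row l f K c hK hN hcp hfW i' i (by omega) (by omega) hi'
    rw [if_neg h2]
    by_cases h3 : N < j'
    · rw [if_pos h3]
      have : j = N := by omega
      subst this
      rw [hP]
      simp only
      rw [hprojN, HF1, hproj i hi, hv']
      exact row l' f' K' c' hK' hN' hcp' hfW' i' i (by omega) (by omega) hi'
    rw [if_neg h3]
    rw [hP]
    simp only
    have aux : ∀ p p' : ℕ, p' ≠ 0 → (p = p' ∨ p + 1 = p') →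
        (((p' - 1 : ℕ) : ℝ) / N ≤ (p : ℝ) / N ∧ (p : ℝ) / N ≤ (((p' - 1 : ℕ) : ℝ) + 1) / N) := by
      intro p p' hp' hpp
      constructor
      · apply div_le_div_of_nonneg_right _ hNR.le
        have : p' - 1 ≤ p := by omega
        exact_mod_cast this
      · apply div_le_div_of_nonneg_right _ hNR.le
        have : p ≤ p' - 1 + 1 := by omega
        exact_mod_cast this
    exact hMs (i' - 1) (j' - 1) (by omega) (by omega) _ _ (aux i i' h0 hi').1 (aux i i' h0 hi').2
      (aux j j' h2 hj').1 (aux j j' h2 hj').2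
  have hrow := row_walk L (N + 1) (N + 1) (by
    intro i hi j hj
    have q1 := hpt i j i j (by omega) (by omega) (Or.inl rfl) (Or.inl rfl)
    have q2 := hpt i j (i + 1) j (by omega) (by omega) (Or.inr rfl) (Or.inl rfl)
    have q3 := hpt i j i (j + 1) (by omega) (by omega) (Or.inl rfl) (Or.inr rfl)
    have q4 := hpt i j (i + 1) (j + 1) (by omega) (by omega) (Or.inr rfl) (Or.inr rfl)
    exact ⟨cmp_of_mem h q1 q2, cmp_of_mem h q1 q3, cmp_of_mem h q1 q4, cmp_of_mem h q2 q3,
      cmp_of_mem h q2 q4, cmp_of_mem h q3 q4⟩)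
  -- the four pieces
  have s1 : (List.range (N + 1 + 1)).map (fun i => L i 0) =
      [a] ++ (List.range (K * c)).map (fun i => v (i / c)) ++ [b] := by
    rw [List.range_succ_eq_map, List.map_cons, List.map_map, List.range_succ, List.map_append,
      ← hN]
    have t1 : L 0 0 = a := by rw [hL]; simp
    have t2 : ∀ i ∈ List.range N, ((fun i => L i 0) ∘ Nat.succ) i = v (i / c) := by
      intro i hi
      rw [List.mem_range] at hi
      rw [hL]
      simp only [Function.comp]
      rw [if_neg (by omega), if_neg (by omega)]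
      simp
    rw [List.map_congr_left t2, t1]
    have t3 : ((fun i => L i 0) ∘ Nat.succ) N = b := by
      rw [hL]
      simp only [Function.comp]
      rw [if_neg (by omega), if_pos (by omega)]
    simp only [List.map_cons, List.map_nil, t3]
    simp
  have s2 : (List.range (N + 1)).map (fun j => L (N + 1) (j + 1)) = List.replicate (N + 1) b := by
    rw [List.eq_replicate_iff]
    refine ⟨by simp, ?_⟩
    intro x hx
    rw [List.mem_map] at hx
    obtain ⟨j, _, rfl⟩ := hx
    rw [hL]
    simp only
    rw [if_neg (by omega), if_pos (by omega)]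
  have s3 : (List.range (N + 1 + 1)).map (fun j => L 0 j) = List.replicate (N + 2) a := by
    rw [List.eq_replicate_iff]
    refine ⟨by simp, ?_⟩
    intro x hx
    rw [List.mem_map] at hx
    obtain ⟨j, _, rfl⟩ := hx
    rw [hL]
    simp
  have s4 : (List.range (N + 1)).map (fun i => L (i + 1) (N + 1)) =
      (List.range (K' * c')).map (fun i => v' (i / c')) ++ [b] := by
    rw [List.range_succ, List.map_append, ← hN']
    have t2 : ∀ i ∈ List.range N, (fun i => L (i + 1) (N + 1)) i = v' (i / c') := by
      intro i hi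
      rw [List.mem_range] at hi
      rw [hL]
      simp only
      rw [if_neg (by omega), if_neg (by omega), if_neg (by omega), if_pos (by omega)]
      simp
    rw [List.map_congr_left t2]
    congr 1
    simp only [List.map_cons, List.map_nil]
    rw [hL]
    simp only
    rw [if_neg (by omega), if_pos (by omega)]
  rw [s1, s2, s3, s4] at hrow
  -- simplify both sides
  have w1 : Relation.EqvGen Move ([a] ++ (List.range (K * c)).map (fun i => v (i / c)) ++ [b] ++
      List.replicate (N + 1) b) (a :: l) := by
    have st := stutter v K c hcp hKp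
    have e : (List.range K).map v = a :: l := by
      rw [hv, hK]
      exact cons_eq_map a l
    rw [e] at st
    have g1 := eqv_append st [a] ([b] ++ List.replicate (N + 1) b)
    have g2 := absorb_left 1 a (l ++ List.replicate (N + 2) b)
    have g3 := absorb_right (N + 2) b (a :: l) hb
    have r1 : [b] ++ List.replicate (N + 1) b = List.replicate (N + 2) b := by
      rw [List.replicate_succ (n := N + 1)]
      rfl
    rw [List.append_assoc]
    refine Relation.EqvGen.trans _ _ _ g1 ?_
    rw [r1]
    refine Relation.EqvGen.trans _ _ _ ?_ g3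
    simpa using g2
  have w2 : Relation.EqvGen Move (List.replicate (N + 2) a ++
      ((List.range (K' * c')).map (fun i => v' (i / c')) ++ [b])) (a :: l') := by
    have st := stutter v' K' c' hcp' hKp'
    have e : (List.range K').map v' = a :: l' := by
      rw [hv', hK']
      exact cons_eq_map a l'
    rw [e] at st
    have g1 := eqv_append st (List.replicate (N + 2) a) [b]
    have g2 := absorb_left (N + 2) a (l' ++ [b])
    have g3 := absorb_right 1 b (a :: l') hb'
    rw [← List.append_assoc]
    refine Relation.EqvGen.trans _ _ _ g1 ?_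
    refine Relation.EqvGen.trans _ _ _ ?_ g3
    simpa using g2
  exact Relation.EqvGen.trans _ _ _ (Relation.EqvGen.symm _ _ w1)
    (Relation.EqvGen.trans _ _ _ hrow w2)

end ASP87
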