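import Pool.Agent.ASP87.Cone
import Pool.Agent.ASP87.SC
import Pool.Agent.ASP87.Gate
import Pool.Agent.ASP87.Nerve

/-!
# ASP87/TW: a space covered by a good family indexed by a poset with a removal order is WC

`GoodCov W`: the `W v` are open, cover `Z`, `W v inter W w` is nonempty iff `Cmp v w`, and the
intersections over nonempty finite chains are weakly contractible.

`wc_finite`: for every finite par-closed `A` (containing `o`) the union of the `W v`, `v in A`, is WC:
induction on the number of elements. `A = {o}`: `W o` is WC (chain `{o}`). Otherwise let `x` be as in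
(b) of `exists_removal`, `A' = A \ {x}`: the union `U'` over `A'` is WC by induction, `W x` is WC, and
`W x inter U'` is the union over `L = {y in A' : Cmp x y}` of `W x inter W y`, with `par x in L`
comparable to all elements of `L`: `wc_cone` (the intersections over chains `s` of `L` are the
intersections of the `W` over the chain `insert x s`). By `wc_union` the union over `A` is WC.
`wc_of_removal`: nonempty: `W o` is. `Ext d Z`: let `f` be continuous on the boundary `K` of the cube; the
image of the compact set `K` is covered by finitely many `W v` (`IsCompact.elim_finite_subcover`; `K` is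
closed in the compact cube, `f` restricted to `K` is continuous); enlarge the finite set of indices to
a par-closed finite set `A`; the union over `A` is WC; extend there (`ext_set`).
`wc_of_gates`: combine with `exists_removal` and `nerve_conn` (the `W v` are path connected because they
are WC: `wc_simplyConnected`; `NCov` follows from `GoodCov`).
-/

namespace ASP87

open scoped unitInterval Topology
open Set

structure GoodCov {Z V : Type*} [TopologicalSpace Z] [PartialOrder V] (W : V → Set Z) :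
    Prop where
  op : ∀ v, IsOpen (W v)
  cover : ∀ z, ∃ v, z ∈ W v
  inter : ∀ v w, (W v ∩ W w).Nonempty ↔ Cmp v w
  wc : ∀ s : Finset V, s.Nonempty → (∀ a ∈ s, ∀ b ∈ s, Cmp a b) → WC (⋂ v ∈ s, W v : Set Z)

private theorem wc_single {Z V : Type*} [TopologicalSpace Z] [PartialOrder V] {W : V → Set Z}
    (h : GoodCov W) (v : V) : WC (W v : Set Z) := by
  have h1 := h.wc {v} (Finset.singleton_nonempty v) (by
    intro a ha b hb
    rw [Finset.mem_singleton] at ha hb
    rw [ha, hb]
    exact Or.inl le_rfl)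
  have h2 : (⋂ u ∈ ({v} : Finset V), W u) = W v := Finset.set_biInter_singleton v W
  rwa [h2] at h1

theorem GoodCov.nCov {Z V : Type*} [TopologicalSpace Z] [PartialOrder V] {W : V → Set Z}
    (h : GoodCov W) : NCov W := by
  refine ⟨h.op, fun v => ?_, h.cover, h.inter⟩
  have h1 : SimplyConnectedSpace (W v : Set Z) := wc_simplyConnected (wc_single h v)
  rw [isPathConnected_iff_pathConnectedSpace]
  infer_instance

private theorem wc_finite {Z V : Type*} [TopologicalSpace Z] [PartialOrder V] {W : V → Set Z}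
    (h : GoodCov W) (o : V) (par : V → V)
    (hb : ∀ A : Set V, A.Finite → o ∈ A → (∀ v ∈ A, v ≠ o → par v ∈ A) → A ≠ {o} →
        ∃ x ∈ A, x ≠ o ∧ par x ≠ x ∧ par x ∈ A ∧ Cmp (par x) x ∧
          (∀ v ∈ A \ {x}, v ≠ o → par v ∈ A \ {x}) ∧
          ∀ y ∈ A \ {x}, Cmp x y → Cmp (par x) y) :
    ∀ (n : ℕ) (A : Set V), A.Finite → A.ncard = n → o ∈ A → (∀ v ∈ A, v ≠ o → par v ∈ A) →
      WC (⋃ v ∈ A, W v : Set Z) := by
  classical
  intro n
  induction n using Nat.strong_induction_on with
  | _ n ih =>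
    intro A hA hn hoA hpar
    by_cases h1 : A = {o}
    · have h2 : (⋃ v ∈ A, W v) = W o := by rw [h1]; exact Set.biUnion_singleton o W
      rw [h2]
      exact wc_single h o
    · obtain ⟨x, hxA, hxo, hpx, hpxA, hcx, hpar', hcmp⟩ := hb A hA hoA hpar h1
      have hfin : (A \ {x}).Finite := hA.subset Set.diff_subset
      have hlt : (A \ {x}).ncard < n := by
        rw [← hn]
        exact Set.ncard_diff_singleton_lt_of_mem hxA hA
      have hU' : WC (⋃ v ∈ A \ {x}, W v : Set Z) :=
        ih _ hlt (A \ {x}) hfin rfl ⟨hoA, fun h2 => hxo h2.symm⟩ hpar'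
      obtain ⟨L, hL⟩ : ∃ L : Finset V, ∀ v, v ∈ L ↔ (v ∈ A ∧ v ≠ x) ∧ Cmp x v := by
        refine ⟨hfin.toFinset.filter (fun v => Cmp x v), fun v => ?_⟩
        rw [Finset.mem_filter, Set.Finite.mem_toFinset]
        rfl
      have hcone : WC (⋃ v ∈ L, (W x ∩ W v) : Set Z) := by
        refine wc_cone (fun v => W x ∩ W v) L (par x) ?_ ?_ ?_ ?_ ?_
        · exact (hL _).2 ⟨⟨hpxA, hpx⟩, hcx.symm⟩
        · intro v hv
          obtain ⟨⟨h2, h3⟩, h4⟩ := (hL v).1 hv
          exact hcmp v ⟨h2, h3⟩ h4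
        · intro v
          exact (h.op x).inter (h.op v)
        · intro v _ w _ hvw
          rw [Set.disjoint_iff_inter_eq_empty]
          by_contra h2
          rw [← Ne, ← Set.nonempty_iff_ne_empty] at h2
          obtain ⟨z, ⟨_, h3⟩, ⟨_, h4⟩⟩ := h2
          exact hvw ((h.inter v w).1 ⟨z, h3, h4⟩)
        · intro s hsL hs hch
          have h2 : (⋂ v ∈ s, (W x ∩ W v)) = ⋂ v ∈ insert x s, W v := by
            rw [Finset.set_biInter_insert]
            ext z
            simp only [Set.mem_iInter, Set.mem_inter_iff]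
            constructor
            · intro h3
              obtain ⟨v, hv⟩ := hs
              exact ⟨(h3 v hv).1, fun w hw => (h3 w hw).2⟩
            · rintro ⟨h3, h4⟩ v hv
              exact ⟨h3, h4 v hv⟩
          rw [h2]
          refine h.wc _ (Finset.insert_nonempty _ _) ?_
          intro a ha b hb'
          rw [Finset.mem_insert] at ha hb'
          rcases ha with rfl | ha
          · rcases hb' with rfl | hb'
            · exact Or.inl le_rfl
            · exact ((hL b).1 (hsL hb')).2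
          · rcases hb' with rfl | hb'
            · exact ((hL a).1 (hsL ha)).2.symm
            · exact hch a ha b hb'
      have hint : (⋃ v ∈ L, (W x ∩ W v)) = W x ∩ ⋃ v ∈ A \ {x}, W v := by
        ext z
        simp only [Set.mem_iUnion, Set.mem_inter_iff]
        constructor
        · rintro ⟨v, hv, h2, h3⟩
          exact ⟨h2, v, ((hL v).1 hv).1, h3⟩
        · rintro ⟨h2, v, hv, h3⟩
          exact ⟨v, (hL v).2 ⟨hv, (h.inter x v).1 ⟨z, h2, h3⟩⟩, h2, h3⟩
      rw [hint] at hcone
      have hun := wc_union (h.op x) (isOpen_biUnion fun v _ => h.op v) (wc_single h x) hU' hcone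
      have h2 : (W x ∪ ⋃ v ∈ A \ {x}, W v) = ⋃ v ∈ A, W v := by
        ext z
        simp only [Set.mem_iUnion, Set.mem_union]
        constructor
        · rintro (h3 | ⟨v, hv, h3⟩)
          · exact ⟨x, hxA, h3⟩
          · exact ⟨v, hv.1, h3⟩
        · rintro ⟨v, hv, h3⟩
          by_cases h4 : v = x
          · rw [h4] at h3
            exact Or.inl h3
          · exact Or.inr ⟨v, ⟨hv, h4⟩, h3⟩
      rwa [h2] at hun

private theorem closed_bdry (d : ℕ) : IsClosed (Cube.boundary (Fin d)) := by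
  have h : Cube.boundary (Fin d) =
      ⋃ i : Fin d, ({y : Fin d → I | y i = 0} ∪ {y : Fin d → I | y i = 1}) := by
    ext y
    simp only [Cube.boundary, Set.mem_setOf_eq, Set.mem_iUnion, Set.mem_union]
  rw [h]
  refine isClosed_iUnion_of_finite fun i => ?_
  exact (isClosed_eq (continuous_apply i) continuous_const).union
    (isClosed_eq (continuous_apply i) continuous_const)

theorem wc_of_removal {Z V : Type*} [TopologicalSpace Z] [PartialOrder V] {W : V → Set Z}
    (h : GoodCov W) (o : V) (par : V → V)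
    (ha : ∀ B : Set V, B.Finite → ∃ A : Set V, A.Finite ∧ B ⊆ A ∧ o ∈ A ∧
        ∀ v ∈ A, v ≠ o → par v ∈ A)
    (hb : ∀ A : Set V, A.Finite → o ∈ A → (∀ v ∈ A, v ≠ o → par v ∈ A) → A ≠ {o} →
        ∃ x ∈ A, x ≠ o ∧ par x ≠ x ∧ par x ∈ A ∧ Cmp (par x) x ∧
          (∀ v ∈ A \ {x}, v ≠ o → par v ∈ A \ {x}) ∧
          ∀ y ∈ A \ {x}, Cmp x y → Cmp (par x) y) : WC Z := by
  obtain ⟨z0, -, -⟩ := (h.inter o o).2 (Or.inl le_rfl)
  refine ⟨⟨z0⟩, fun d f hf => ?_⟩
  have hK : IsCompact (f '' Cube.boundary (Fin d)) :=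
    (closed_bdry d).isCompact.image_of_continuousOn hf
  obtain ⟨t, ht⟩ := hK.elim_finite_subcover W h.op (fun z _ => by
    obtain ⟨v, hv⟩ := h.cover z
    exact Set.mem_iUnion.2 ⟨v, hv⟩)
  obtain ⟨A, hA, hBA, hoA, hpar⟩ := ha (↑t) t.finite_toSet
  have hwc := wc_finite h o par hb _ A hA rfl hoA hpar
  have hne : (⋃ v ∈ A, W v : Set Z).Nonempty := by
    obtain ⟨⟨z, hz⟩⟩ := hwc.1
    exact ⟨z, hz⟩
  obtain ⟨g, hg, -, hgf⟩ := ext_set hne (hwc.2 d) f hf (fun x hx => by
    have h1 := ht ⟨x, hx, rfl⟩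
    simp only [Set.mem_iUnion] at h1 ⊢
    obtain ⟨v, hv, h2⟩ := h1
    exact ⟨v, hBA hv, h2⟩)
  exact ⟨g, hg, hgf⟩

theorem wc_of_gates {Z V : Type*} [TopologicalSpace Z] [PathConnectedSpace Z] [PartialOrder V]
    {W : V → Set Z} (h : GoodCov W) (rk : V → ℕ) (hrk : StrictMono rk) (R : ℕ)
    (hR : ∀ v, rk v ≤ R) (o : V) (ho : ∀ v, v ≤ o → v = o)
    (hup : ∀ r, Even r → ∀ x, x ∉ Ball o r → ∀ y ∈ Ball o r, ∀ y' ∈ Ball o r, y ≤ x → y' ≤ x →
      ∃ z ∈ Ball o r, y ≤ z ∧ y' ≤ z ∧ z ≤ x)
    (hdn : ∀ r, Odd r → ∀ x, x ∉ Ball o r → ∀ y ∈ Ball o r, ∀ y' ∈ Ball o r, x ≤ y → x ≤ y' →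
      ∃ z ∈ Ball o r, z ≤ y ∧ z ≤ y' ∧ x ≤ z) : WC Z := by
  obtain ⟨par, ha, hb⟩ := exists_removal rk hrk R hR o ho (fun a b => nerve_conn h.nCov a b)
    hup hdn
  exact wc_of_removal h o par ha hb

end ASP87
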