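import Pool.Agent.ASP87.PFinal
import Pool.Agent.ASP87.Acyc
import Pool.Agent.ASP87.TW

/-!
# ASP87/OPHyp: posets of rank 1

* `phyp_of_rank1`: a partial order with a strictly monotone rank with values `0, 1` and `PSC` satisfies `PHyp`.
  `CG V` is acyclic by `cg_acyclic`: three pairwise comparable elements: two of them have the same rank, and
  comparable elements of the same rank are equal.
  - mid: `a, a' <= w, w'`. If `a = a'` take `j = a`; if `w = w'` take `j = w`; if `a = w` then `a' <= w = a`, `a <= w'`: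
    take `j = a`; the same if `a = w'`, `a' = w`, `a' = w'`. Otherwise all four are different, `a - w - a' - w' - a`
    is a cycle of comparable elements: the walks `w - a - w'` and `w - a' - w'` are two different paths in an
    acyclic graph (`IsAcyclic.path_unique`), contradiction.
  - flUp: `b <= x, y, z`, pairwise bounded. If one of them is `b`, say `x = b`: a bound of `y, z` works. Otherwise
    `x, y, z` have rank 1 and are maximal; pairwise bounded gives `x = y = z`. flDown: dual (rank 0).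
* `wc_rank1`: `Z` simply connected with a `GoodCov` indexed by such a poset is WC: `psc_of_cover`
  (`GoodCov.nCov`), `phyp_of_rank1`; `o` = an element of minimal rank (`V` nonempty as `Z` is nonempty), so
  `v <= o` gives `v = o`; `ball_even`, `ball_odd`, `wc_of_gates`.
-/

namespace ASP87

open Topology Set

private theorem eq_of_rk {V : Type*} [PartialOrder V] {rk : V → ℕ} (hrk : StrictMono rk) {a b : V}
    (h : a ≤ b) (h' : rk b ≤ rk a) : a = b := by
  by_contra hne
  exact absurd (hrk (lt_of_le_of_ne h hne)) (not_lt.2 h')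

theorem phyp_of_rank1 {V : Type*} [PartialOrder V] (rk : V → ℕ) (hrk : StrictMono rk)
    (h1 : ∀ v, rk v ≤ 1) (hsc : PSC V) : PHyp V := by
  have hc : ∀ {a b : V}, Cmp a b → rk a = rk b → a = b := by
    intro a b h he
    rcases h with h | h
    · exact eq_of_rk hrk h he.ge
    · exact (eq_of_rk hrk h he.le).symm
  have h2 : ∀ p q s : V, Cmp p q → Cmp q s → Cmp p s → p = q ∨ q = s ∨ p = s := by
    intro p q s k1 k2 k3
    by_cases e1 : rk p = rk q
    · exact Or.inl (hc k1 e1)
    · by_cases e2 : rk q = rk s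
      · exact Or.inr (Or.inl (hc k2 e2))
      · have := h1 p
        have := h1 q
        have := h1 s
        exact Or.inr (Or.inr (hc k3 (by omega)))
  have hac := cg_acyclic hsc h2
  have hmax : ∀ {b x w : V}, b ≤ x → b ≠ x → x ≤ w → x = w := by
    intro b x w hb hne hw
    have := hrk (lt_of_le_of_ne hb hne)
    have := h1 w
    exact eq_of_rk hrk hw (by omega)
  have hmin : ∀ {b x w : V}, x ≤ b → x ≠ b → w ≤ x → w = x := by
    intro b x w hb hne hw
    have := hrk (lt_of_le_of_ne hb hne)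
    have := h1 b
    exact eq_of_rk hrk hw (by omega)
  refine ⟨⟨rk, 1, hrk, h1⟩, ?_, ?_, ?_, hsc⟩
  · intro a a' w w' haw haw' ha'w ha'w'
    by_cases e1 : a = a'
    · subst e1
      exact ⟨a, le_rfl, le_rfl, haw, haw'⟩
    by_cases e2 : w = w'
    · subst e2
      exact ⟨w, haw, ha'w, le_rfl, le_rfl⟩
    by_cases e3 : a = w
    · subst e3
      exact ⟨a, le_rfl, ha'w, le_rfl, haw'⟩
    by_cases e4 : a = w'
    · subst e4
      exact ⟨a, le_rfl, ha'w', haw, le_rfl⟩
    by_cases e5 : a' = w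
    · subst e5
      exact ⟨a', haw, le_rfl, le_rfl, ha'w'⟩
    by_cases e6 : a' = w'
    · subst e6
      exact ⟨a', haw', le_rfl, ha'w, le_rfl⟩
    exfalso
    have mk : ∀ c : V, c ≤ w → c ≤ w' → c ≠ w → c ≠ w' →
        ∃ q : (CG V).Path w w', q.1.support = [w, c, w'] := by
      intro c hcw hcw' n1 n2
      have ad1 : (CG V).Adj w c := ⟨n1.symm, Or.inr hcw⟩
      have ad2 : (CG V).Adj c w' := ⟨n2, Or.inl hcw'⟩
      refine ⟨⟨SimpleGraph.Walk.cons ad1 (SimpleGraph.Walk.cons ad2 SimpleGraph.Walk.nil), ?_⟩,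
        by simp⟩
      rw [SimpleGraph.Walk.isPath_def]
      simp [n1.symm, n2, e2]
    obtain ⟨q, hq⟩ := mk a haw haw' e3 e4
    obtain ⟨q', hq'⟩ := mk a' ha'w ha'w' e5 e6
    have h3 : q = q' := (hac.subsingleton_path w w').elim q q'
    rw [h3, hq'] at hq
    simp only [List.cons.injEq, and_true, true_and] at hq
    exact e1 hq.symm
  · rintro b x y z hx hy hz ⟨w1, a1, a2⟩ ⟨w2, b1, b2⟩ ⟨w3, c1, c2⟩
    by_cases ex : b = x
    · subst ex
      exact ⟨w2, hy.trans b1, b1, b2⟩
    by_cases ey : b = y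
    · subst ey
      exact ⟨w3, c1, hx.trans c1, c2⟩
    by_cases ez : b = z
    · subst ez
      exact ⟨w1, a1, a2, hx.trans a1⟩
    have k1 : x = y := (hmax hx ex a1).trans (hmax hy ey a2).symm
    have k2 : y = z := (hmax hy ey b1).trans (hmax hz ez b2).symm
    subst k1
    subst k2
    exact ⟨x, le_rfl, le_rfl, le_rfl⟩
  · rintro b x y z hx hy hz ⟨w1, a1, a2⟩ ⟨w2, b1, b2⟩ ⟨w3, c1, c2⟩
    by_cases ex : x = b
    · subst ex
      exact ⟨w2, b1.trans hy, b1, b2⟩
    by_cases ey : y = b
    · subst ey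
      exact ⟨w3, c1, c1.trans hx, c2⟩
    by_cases ez : z = b
    · subst ez
      exact ⟨w1, a1, a2, a1.trans hx⟩
    have k1 : x = y := (hmin hx ex a1).symm.trans (hmin hy ey a2)
    have k2 : y = z := (hmin hy ey b1).symm.trans (hmin hz ez b2)
    subst k1
    subst k2
    exact ⟨x, le_rfl, le_rfl, le_rfl⟩

theorem wc_rank1 {Z V : Type*} [TopologicalSpace Z] [SimplyConnectedSpace Z] [PartialOrder V]
    {W : V → Set Z} (h : GoodCov W) (rk : V → ℕ) (hrk : StrictMono rk)
    (h1 : ∀ v, rk v ≤ 1) : WC Z := by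
  have hP := phyp_of_rank1 rk hrk h1 (psc_of_cover h.nCov)
  obtain ⟨z⟩ : Nonempty Z := inferInstance
  obtain ⟨v0, -⟩ := h.cover z
  obtain ⟨o, ho⟩ : ∃ o : V, ∀ v, rk o ≤ rk v := by
    by_cases hex : ∃ o, rk o = 0
    · obtain ⟨o, ho⟩ := hex
      exact ⟨o, fun v => by omega⟩
    · refine ⟨v0, fun v => ?_⟩
      have h2 : rk v ≠ 0 := fun h0 => hex ⟨v, h0⟩
      have := h1 v0
      omega
  have ho' : ∀ v, v ≤ o → v = o := fun v hv => eq_of_rk hrk hv (ho v)
  exact wc_of_gates h rk hrk 1 h1 o ho'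
    (fun r hr x hx y hy y' hy' k1 k2 => ball_even hP ho' hr hx hy hy' k1 k2)
    (fun r hr x hx y hy y' hy' k1 k2 => ball_odd hP ho' hr hx hy hy' k1 k2)

end ASP87
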