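import Pool.Agent.ASP87.OPSlc
import Pool.Agent.ASP87.OPDir
import Pool.Agent.ASP87.OPHyp
import Pool.Agent.ASP87.Comp

/-!
# ASP87/OPWc: one particle in the plane with finitely many special points: asphericity

Fix `u, δ` as in `exists_dir`, `f c = Re (conj u c)`. States: `inl A` (`A` a set of indices), `inr i`.
`RO (inl A) = {c | f (x i) + δ < f c for i in A, f c < f (x i) - δ for i not in A}`,
`RO (inr i) = {c | |f c - f (x i)| < 2 δ}`. Open, convex. `VO p = Σ s, Comp p {y | y.1.1 in RO s}`; order: `v = w` or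
`v` is `inl`, `w` is `inr` and the components intersect (as for `TT` in OneTree).
* Directions: `eA A m = - u` if `m in A`, `u` otherwise: on `RO (inl A)` `Re (conj (eA m) (x m - c)) > 0`. On
  `RO (inr i)`, `m <> i`: `|f (x m) - f (x i)| > 4 δ`, so `eP i m = - u` if `f (x m) < f (x i)`, `u` otherwise works.
* cells: `oneCell` for `RO (inl A)` (no cone index; base point any point of it, it must be nonempty),
  `RO (inr i)` (cone index `i`, base point `x i`), `RO (inl A) inter RO (inr i)` (directions `eA A`, no cone index,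
  nonempty).
* `vo_good`: GoodCov. op: `comp_open`. cover: if `|f c - f (x i)| < 2 δ` for some `i`: `inr i`; otherwise
  `inl {i | f (x i) < f c}`. inter: `inl A`, `inl B` at the same point: `A = B` (an index in `A \ B` would give
  `f (x i) + δ < f c < f (x i) - δ`), then `comp_disj`; `inr i`, `inr j`: `i = j` by `4 δ < |f (x i) - f (x j)|`.
  wc: a chain is `{v}` or `{v, w}`, `v` over `inl A`, `w` over `inr i` (three pairwise comparable elements: two of
  them equal). `{v}`: `cell_wc`. `{v, w}`: for `z` in both, the intersection is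
  `{z' | JoinedIn (p^-1 (RO (inl A) inter RO (inr i))) z z'}`: if `z'` is in both then `z, z'` are joined over
  `RO (inl A)`, labels agree (`cell_lab`), `cell_Q` to the intersection cell (same label function). `cell_wc`.
* `wc_rank1` with rank 0 for `inl`, 1 for `inr`.
* `asph_YP`: `asph_of_ucovers`, `slc_YP`.
-/

namespace ASP87

open Complex Topology Set ComplexConjugate

variable {ι : Type} [Fintype ι] [DecidableEq ι]

/-- state regions -/
def RO (x : ι → ℂ) (u : ℂ) (δ : ℝ) (s : Set ι ⊕ ι) : Set ℂ :=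
  match s with
  | Sum.inl A => {c | (∀ i ∈ A, (conj u * x i).re + δ < (conj u * c).re) ∧
      ∀ i ∉ A, (conj u * c).re < (conj u * x i).re - δ}
  | Sum.inr i => {c | (conj u * x i).re - 2 * δ < (conj u * c).re ∧
      (conj u * c).re < (conj u * x i).re + 2 * δ}

/-- lifted states -/
def VO {x : ι → ℂ} {w : ι → ℕ} (u : ℂ) (δ : ℝ) {Z : Type} [TopologicalSpace Z]
    (p : Z → YP x w) : Type := Σ s : Set ι ⊕ ι, Comp p {y | y.1.1 ∈ RO x u δ s}

variable {x : ι → ℂ} {w : ι → ℕ} {u : ℂ} {δ : ℝ} {Z : Type} [TopologicalSpace Z]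

instance (p : Z → YP x w) : PartialOrder (VO u δ p) where
  le t t' := t = t' ∨ (t.1.isLeft = true ∧ t'.1.isRight = true ∧ (t.2.1 ∩ t'.2.1).Nonempty)
  le_refl t := Or.inl rfl
  le_trans a b c hab hbc := by
    rcases hab with rfl | ⟨h1, h2, h3⟩
    · exact hbc
    · rcases hbc with rfl | ⟨h4, h5, h6⟩
      · exact Or.inr ⟨h1, h2, h3⟩
      · exfalso
        cases hb : b.1 <;> simp [hb] at h2 h4
  le_antisymm a b hab hba := by
    rcases hab with rfl | ⟨h1, h2, h3⟩
    · rfl
    · rcases hba with h | ⟨h4, h5, h6⟩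
      · exact h.symm
      · exfalso
        cases hb : b.1 <;> simp [hb] at h2 h4

private theorem lin (u : ℂ) : IsLinearMap ℝ (fun c : ℂ => (conj u * c).re) := by
  constructor
  · intro a b
    rw [mul_add, add_re]
  · intro r a
    rw [Complex.real_smul, smul_eq_mul]
    rw [show conj u * ((r : ℂ) * a) = (r : ℂ) * (conj u * a) by ring, re_ofReal_mul]

private theorem contf (u : ℂ) : Continuous (fun c : ℂ => (conj u * c).re) :=
  continuous_re.comp (continuous_const.mul continuous_id)

private theorem RO_convex (s : Set ι ⊕ ι) : Convex ℝ (RO x u δ s) := by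
  cases s with
  | inl A =>
    intro c hc c' hc' a b ha hb hab
    refine ⟨fun i hi => ?_, fun i hi => ?_⟩
    · exact convex_halfSpace_gt (lin u) ((conj u * x i).re + δ) (hc.1 i hi) (hc'.1 i hi) ha hb hab
    · exact convex_halfSpace_lt (lin u) ((conj u * x i).re - δ) (hc.2 i hi) (hc'.2 i hi) ha hb hab
  | inr i =>
    intro c hc c' hc' a b ha hb hab
    refine ⟨?_, ?_⟩
    · exact convex_halfSpace_gt (lin u) ((conj u * x i).re - 2 * δ) hc.1 hc'.1 ha hb hab
    · exact convex_halfSpace_lt (lin u) ((conj u * x i).re + 2 * δ) hc.2 hc'.2 ha hb hab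

private theorem RO_open (s : Set ι ⊕ ι) : IsOpen (RO x u δ s) := by
  cases s with
  | inl A =>
    have e : RO x u δ (Sum.inl A) =
        (⋂ i : ι, {c | i ∈ A → (conj u * x i).re + δ < (conj u * c).re}) ∩
        ⋂ i : ι, {c | i ∉ A → (conj u * c).re < (conj u * x i).re - δ} := by
      ext c
      simp only [mem_inter_iff, mem_iInter, mem_ofPred_eq]
      rfl
    rw [e]
    refine IsOpen.inter (isOpen_iInter_of_finite fun i => ?_) (isOpen_iInter_of_finite fun i => ?_)
    · by_cases hi : i ∈ A
      · simp only [hi, true_imp_iff]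
        exact isOpen_lt continuous_const (contf u)
      · simp only [hi, false_imp_iff, ofPred_true]
        exact isOpen_univ
    · by_cases hi : i ∈ A
      · simp only [hi, not_true_eq_false, false_imp_iff, ofPred_true]
        exact isOpen_univ
      · simp only [hi, not_false_eq_true, true_imp_iff]
        exact isOpen_lt (contf u) continuous_const
  | inr i =>
    exact (isOpen_lt continuous_const (contf u)).inter (isOpen_lt (contf u) continuous_const)

private theorem pre_open {U : Set ℂ} (hU : IsOpen U) : IsOpen {y : YP x w | y.1.1 ∈ U} :=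
  hU.preimage (continuous_fst.comp continuous_subtype_val)

open Classical in
private noncomputable def eA (u : ℂ) (A : Set ι) (m : ι) : ℂ := if m ∈ A then -u else u

open Classical in
private noncomputable def eP (x : ι → ℂ) (u : ℂ) (i m : ι) : ℂ :=
  if (conj u * x m).re < (conj u * x i).re then -u else u

private theorem eA_norm (hu : ‖u‖ = 1) (A : Set ι) (m : ι) : ‖eA u A m‖ = 1 := by
  unfold eA
  split_ifs
  · rw [norm_neg, hu]
  · exact hu

private theorem eP_norm (hu : ‖u‖ = 1) (i m : ι) : ‖eP x u i m‖ = 1 := by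
  unfold eP
  split_ifs
  · rw [norm_neg, hu]
  · exact hu

private theorem eA_pos (hδ : 0 < δ) (A : Set ι) {q : ℂ} (hq : q ∈ RO x u δ (Sum.inl A)) (m : ι) :
    0 < (conj (eA u A m) * (x m - q)).re := by
  unfold eA
  by_cases hm : m ∈ A
  · rw [if_pos hm]
    have h1 := hq.1 m hm
    rw [map_neg, neg_mul, mul_sub, neg_re, sub_re]
    linarith
  · rw [if_neg hm]
    have h1 := hq.2 m hm
    rw [mul_sub, sub_re]
    linarith

private theorem eP_pos (hδ : 0 < δ)
    (hs : ∀ i j, i ≠ j → 4 * δ < |(conj u * x i).re - (conj u * x j).re|) (i : ι) {q : ℂ}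
    (hq : q ∈ RO x u δ (Sum.inr i)) (m : ι) (hm : m ≠ i) :
    0 < (conj (eP x u i m) * (x m - q)).re := by
  have h1 := hs m i hm
  obtain ⟨h2, h3⟩ := hq
  unfold eP
  by_cases hc : (conj u * x m).re < (conj u * x i).re
  · rw [if_pos hc, map_neg, neg_mul, mul_sub, neg_re, sub_re]
    rw [abs_of_neg (by linarith)] at h1
    linarith
  · rw [if_neg hc, mul_sub, sub_re]
    push Not at hc
    rw [abs_of_nonneg (by linarith)] at h1
    linarith

private theorem cellA (hu : ‖u‖ = 1) (hδ : 0 < δ) (A : Set ι)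
    (hn : (RO x u δ (Sum.inl A)).Nonempty) :
    GCell {y : YP x w | y.1.1 ∈ RO x u δ (Sum.inl A)} (oLab (eA u A) none) := by
  obtain ⟨b, hb⟩ := hn
  exact oneCell _ (RO_open _) (RO_convex _) (eA u A) (eA_norm hu A) none
    (fun q hq m _ => eA_pos hδ A hq m) b hb (fun m hm => by cases hm)

private theorem cellP (hu : ‖u‖ = 1) (hδ : 0 < δ)
    (hs : ∀ i j, i ≠ j → 4 * δ < |(conj u * x i).re - (conj u * x j).re|) (i : ι) :
    GCell {y : YP x w | y.1.1 ∈ RO x u δ (Sum.inr i)} (oLab (eP x u i) (some i)) := by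
  refine oneCell _ (RO_open _) (RO_convex _) (eP x u i) (eP_norm hu i) (some i)
    (fun q hq m hm => eP_pos hδ hs i hq m fun h => hm (by rw [h])) (x i) ?_ (fun m hm => ?_)
  · exact ⟨by linarith, by linarith⟩
  · rw [Option.some.inj hm]

private theorem cellAP (hu : ‖u‖ = 1) (hδ : 0 < δ) (A : Set ι) (i : ι)
    (hn : (RO x u δ (Sum.inl A) ∩ RO x u δ (Sum.inr i)).Nonempty) :
    GCell {y : YP x w | y.1.1 ∈ RO x u δ (Sum.inl A) ∩ RO x u δ (Sum.inr i)}
      (oLab (eA u A) none) := by
  obtain ⟨b, hb⟩ := hn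
  exact oneCell _ ((RO_open _).inter (RO_open _)) ((RO_convex _).inter (RO_convex _)) (eA u A)
    (eA_norm hu A) none (fun q hq m _ => eA_pos hδ A hq.1 m) b hb (fun m hm => by cases hm)

private theorem RO_inj (hδ : 0 < δ)
    (hs : ∀ i j, i ≠ j → 4 * δ < |(conj u * x i).re - (conj u * x j).re|) {s s' : Set ι ⊕ ι}
    {c : ℂ} (h : c ∈ RO x u δ s) (h' : c ∈ RO x u δ s') (hl : s.isLeft = s'.isLeft) : s = s' := by
  cases s with
  | inl A =>
    cases s' with
    | inl B =>
      congr 1
      ext i
      constructor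
      · intro hi
        by_contra hb
        have h1 := h.1 i hi
        have h2 := h'.2 i hb
        linarith
      · intro hi
        by_contra hb
        have h1 := h'.1 i hi
        have h2 := h.2 i hb
        linarith
    | inr j => simp at hl
  | inr i =>
    cases s' with
    | inl B => simp at hl
    | inr j =>
      congr 1
      by_contra hij
      have h1 := hs i j hij
      obtain ⟨a1, a2⟩ := h
      obtain ⟨b1, b2⟩ := h'
      rcases abs_cases ((conj u * x i).re - (conj u * x j).re) with ⟨h3, -⟩ | ⟨h3, -⟩ <;>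
        rw [h3] at h1 <;> linarith

private theorem RO_cover (hδ : 0 < δ) (c : ℂ) : ∃ s, c ∈ RO x u δ s := by
  by_cases h : ∃ i, c ∈ RO x u δ (Sum.inr i)
  · obtain ⟨i, hi⟩ := h
    exact ⟨_, hi⟩
  · push Not at h
    have h' : ∀ i, (conj u * x i).re - 2 * δ < (conj u * c).re →
        (conj u * x i).re + 2 * δ ≤ (conj u * c).re := by
      intro i hi
      by_contra hc
      push Not at hc
      exact h i ⟨hi, hc⟩
    refine ⟨Sum.inl {i | (conj u * x i).re < (conj u * c).re}, fun i hi => ?_, fun i hi => ?_⟩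
    · have h1 : (conj u * x i).re < (conj u * c).re := hi
      have := h' i (by linarith)
      linarith
    · have h1 : ¬ (conj u * x i).re < (conj u * c).re := hi
      by_contra h2
      push Not at h1 h2
      have := h' i (by linarith)
      linarith

private theorem same_eq {p : Z → YP x w} {a b : VO u δ p} (h : Cmp a b)
    (hl : a.1.isLeft = b.1.isLeft) : a = b := by
  rcases h with h | h
  · rcases h with h | ⟨h1, h2, -⟩
    · exact h
    · exfalso
      rw [h1] at hl
      cases hb : b.1 <;> simp [hb] at h2 hl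
  · rcases h with h | ⟨h1, h2, -⟩
    · exact h.symm
    · exfalso
      rw [h1] at hl
      cases hb : a.1 <;> simp [hb] at h2 hl

private theorem inter_iff (hδ : 0 < δ)
    (hs : ∀ i j, i ≠ j → 4 * δ < |(conj u * x i).re - (conj u * x j).re|)
    {p : Z → YP x w} (v w' : VO u δ p) : (v.2.1 ∩ w'.2.1).Nonempty ↔ Cmp v w' := by
  constructor
  · rintro ⟨z, hz, hz'⟩
    have h1 := comp_mem hz
    have h2 := comp_mem hz'
    by_cases hl : v.1.isLeft = w'.1.isLeft
    · have h3 : v.1 = w'.1 := RO_inj hδ hs h1 h2 hl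
      obtain ⟨s, C⟩ := v
      obtain ⟨s', C'⟩ := w'
      change s = s' at h3
      subst h3
      have : C = C' := comp_disj hz hz'
      subst this
      exact Or.inl (le_refl _)
    · cases hv : v.1 with
      | inl A =>
        cases hw : w'.1 with
        | inl B => simp [hv, hw] at hl
        | inr j => exact Or.inl (Or.inr ⟨by simp [hv], by simp [hw], z, hz, hz'⟩)
      | inr i =>
        cases hw : w'.1 with
        | inl B => exact Or.inr (Or.inr ⟨by simp [hw], by simp [hv], z, hz', hz⟩)
        | inr j => simp [hv, hw] at hl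
  · rintro (h | h)
    · rcases h with h | ⟨-, -, h⟩
      · rw [h]
        obtain ⟨z, hz⟩ := comp_nonempty w'.2
        exact ⟨z, hz, hz⟩
      · exact h
    · rcases h with h | ⟨-, -, h⟩
      · rw [h]
        obtain ⟨z, hz⟩ := comp_nonempty v.2
        exact ⟨z, hz, hz⟩
      · rw [inter_comm]
        exact h

private theorem wc_one (hu : ‖u‖ = 1) (hδ : 0 < δ)
    (hs : ∀ i j, i ≠ j → 4 * δ < |(conj u * x i).re - (conj u * x j).re|)
    {p : Z → YP x w} (hp : IsCoveringMap p) (v : VO u δ p) : WC (v.2.1 : Set Z) := by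
  obtain ⟨s, C, z, hz, rfl⟩ := v
  cases s with
  | inl A => exact cell_wc hp (cellA hu hδ A ⟨_, hz⟩) hz
  | inr i => exact cell_wc hp (cellP hu hδ hs i) hz

private theorem wc_two (hu : ‖u‖ = 1) (hδ : 0 < δ)
    {p : Z → YP x w} (hp : IsCoveringMap p) (v w' : VO u δ p) (hv : v.1.isLeft = true)
    (hw : w'.1.isRight = true) (hn : (v.2.1 ∩ w'.2.1).Nonempty) :
    WC (v.2.1 ∩ w'.2.1 : Set Z) := by
  obtain ⟨z, hz, hz'⟩ := hn
  obtain ⟨s, C⟩ := v
  obtain ⟨s', C'⟩ := w'
  cases s with
  | inr i => simp at hv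
  | inl A =>
    cases s' with
    | inl B => simp at hw
    | inr i =>
      have h1 : p z ∈ {y : YP x w | y.1.1 ∈ RO x u δ (Sum.inl A)} := comp_mem hz
      have h2 : p z ∈ {y : YP x w | y.1.1 ∈ RO x u δ (Sum.inr i)} := comp_mem hz'
      have h3 : p z ∈ {y : YP x w | y.1.1 ∈ RO x u δ (Sum.inl A) ∩ RO x u δ (Sum.inr i)} :=
        ⟨h1, h2⟩
      have hA : GCell {y : YP x w | y.1.1 ∈ RO x u δ (Sum.inl A)} (oLab (eA u A) none) :=
        cellA hu hδ A ⟨_, h1⟩
      have hAP : GCell {y : YP x w | y.1.1 ∈ RO x u δ (Sum.inl A) ∩ RO x u δ (Sum.inr i)}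
        (oLab (eA u A) none) := cellAP hu hδ A i ⟨_, h3⟩
      have e : ((C.1 ∩ C'.1 : Set Z)) =
          {z' | JoinedIn (p ⁻¹' {y : YP x w | y.1.1 ∈ RO x u δ (Sum.inl A) ∩
            RO x u δ (Sum.inr i)}) z z'} := by
        ext z'
        constructor
        · rintro ⟨a1, a2⟩
          have b1 := (comp_joined hz).1 a1
          have b2 : p z' ∈ {y : YP x w | y.1.1 ∈ RO x u δ (Sum.inl A)} := comp_mem a1
          have b3 : p z' ∈ {y : YP x w | y.1.1 ∈ RO x u δ (Sum.inr i)} := comp_mem a2
          exact cell_Q hp hA hAP (fun y hy => hy.1) b1 h3 ⟨b2, b3⟩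
            (cell_lab hp hA b1).symm
        · intro hj
          exact ⟨(comp_joined hz).2 (hj.mono fun y hy => hy.1),
            (comp_joined hz').2 (hj.mono fun y hy => hy.2)⟩
      show WC (C.1 ∩ C'.1 : Set Z)
      rw [e]
      exact cell_wc hp hAP h3

theorem vo_good [LocallyPathConnectedSpace Z] {p : Z → YP x w} (hp : IsCoveringMap p)
    (hu : ‖u‖ = 1) (hδ : 0 < δ)
    (hs : ∀ i j, i ≠ j → 4 * δ < |(conj u * x i).re - (conj u * x j).re|) :
    GoodCov (fun v : VO u δ p => v.2.1) := by
  refine ⟨fun v => comp_open hp.continuous (pre_open (RO_open v.1)) v.2, fun z => ?_,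
    inter_iff hδ hs, fun s hne hch => ?_⟩
  · obtain ⟨s, hs'⟩ := RO_cover (x := x) (u := u) hδ (p z).1.1
    exact ⟨⟨s, compOf p _ z hs'⟩, mem_compOf_self (q := p) hs'⟩
  · by_cases hlr : (∃ a ∈ s, a.1.isLeft = true) ∧ ∃ b ∈ s, b.1.isRight = true
    · obtain ⟨⟨a, ha, hal⟩, b, hb, hbr⟩ := hlr
      have hbl : b.1.isLeft = false := by
        cases h : b.1 <;> simp [h] at hbr ⊢
      have e : (⋂ v ∈ s, (v.2.1 : Set Z)) = a.2.1 ∩ b.2.1 := by
        ext z
        simp only [mem_iInter, mem_inter_iff]
        constructor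
        · intro h
          exact ⟨h a ha, h b hb⟩
        · rintro ⟨h1, h2⟩ v hv
          by_cases hvl : v.1.isLeft = true
          · rw [same_eq (hch v hv a ha) (by rw [hvl, hal])]
            exact h1
          · rw [same_eq (hch v hv b hb) (by rw [hbl]; simpa using hvl)]
            exact h2
      rw [e]
      exact wc_two hu hδ hp a b hal hbr ((inter_iff hδ hs a b).2 (hch a ha b hb))
    · obtain ⟨a, ha⟩ := hne
      have hall : ∀ v ∈ s, v = a := by
        intro v hv
        refine same_eq (hch v hv a ha) ?_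
        by_contra hne
        apply hlr
        cases h1 : v.1 with
        | inl A =>
          cases h2 : a.1 with
          | inl B => simp [h1, h2] at hne
          | inr j => exact ⟨⟨v, hv, by simp [h1]⟩, a, ha, by simp [h2]⟩
        | inr i =>
          cases h2 : a.1 with
          | inl B => exact ⟨⟨a, ha, by simp [h2]⟩, v, hv, by simp [h1]⟩
          | inr j => simp [h1, h2] at hne
      have e : (⋂ v ∈ s, (v.2.1 : Set Z)) = a.2.1 := by
        ext z
        simp only [mem_iInter]
        constructor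
        · intro h
          exact h a ha
        · intro h v hv
          rw [hall v hv]
          exact h
      rw [e]
      exact wc_one hu hδ hs hp a

theorem wc_YP [SimplyConnectedSpace Z] [LocallyPathConnectedSpace Z]
    (hx : Function.Injective x) {p : Z → YP x w} (hp : IsCoveringMap p) : WC Z := by
  obtain ⟨u, δ, hu, hδ, hs⟩ := exists_dir hx
  refine wc_rank1 (vo_good hp hu hδ hs) (fun v => if v.1.isLeft then 0 else 1) ?_ ?_
  · intro a b hab
    rcases hab.le with h | ⟨h1, h2, -⟩
    · exact absurd h hab.ne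
    · have h3 : b.1.isLeft = false := by
        cases h : b.1 <;> simp [h] at h2 ⊢
      show (if a.1.isLeft then 0 else 1) < (if b.1.isLeft then 0 else 1)
      rw [h1, h3]
      simp
  · intro v
    show (if v.1.isLeft then 0 else 1) ≤ 1
    split_ifs <;> simp

theorem asph_YP (hx : Function.Injective x) (w : ι → ℕ) : Asph (YP x w) :=
  asph_of_ucovers (YP x w) (slc_YP hx w) fun Z _ p _ _ h3 => wc_YP hx h3

end ASP87
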