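import Pool.Agent.ASP87.FSys
import Pool.Agent.ASP87.OPWc
import Pool.Agent.ASP87.LogCov

/-!
# ASP87/FFib1: one cone point: the fibre over the particles and punctures

`F` = the fibre over `b : Conf (Fin n + Fin l)`. Its points are given by the position `c 0` of the cone point and
`s (i, 0)` with `bw (m 0) (s (i, 0)) = b (inl i) - c 0`.
`LogE` over `F` with `κ = Fin l`, `f a = c 0 - b (inr a)` (not 0: `ne`) is homeomorphic to `YP b w`,
`w = Sum.elim (fun _ => m 0) (fun _ => 0)`:
`(c, s, lg) |-> (c 0, s')`, `s' (inl i) = act (m 0) (s (i, 0)) (rt (m 0) (pi I))` (then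
`bw s' = - (b (inl i) - c 0) = c 0 - b (inl i)`, `exp (pi I) = -1`), `s' (inr a) = lg a`. Inverse:
`s (i, 0) = act (m 0) (s' (inl i)) (rt (m 0) (- pi I))`. `asph_YP` (`b.2` injective), `ext_homeo`, `asph_log`.
-/

namespace ASP87

open Complex Topology Set

private theorem ff1_act_act (w : ℕ) (s t t' : ℂ) (h : t + t' = 0) :
    act w (act w s (rt w t)) (rt w t') = s := by
  rcases eq_or_ne w 0 with rfl | hw
  · simp only [act, rt, if_true]
    rw [add_assoc, h, add_zero]
  · simp only [act, rt, hw, if_false]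
    rw [mul_assoc, ← exp_add, ← add_div, h, zero_div, exp_zero, mul_one]

private theorem ff1_act_cont (w : ℕ) {A : Type*} [TopologicalSpace A] {k : A → ℂ} (t : ℂ)
    (hk : Continuous k) : Continuous (fun a => act w (k a) (rt w t)) := by
  unfold act
  by_cases hw : w = 0
  · simp only [hw, if_true]
    exact hk.add continuous_const
  · simp only [hw, if_false]
    exact hk.mul continuous_const

theorem fib_asph1 {n l : ℕ} (m : Fin 1 → ℕ) (b : Conf (Fin n ⊕ Fin l)) :
    Asph (forget (SK n 1 l m) jxd neK_jxd ⁻¹' {b}) := by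
  set F := (forget (SK n 1 l m) jxd neK_jxd ⁻¹' {b}) with hF
  let cc : Fin n ⊕ Fin 1 ⊕ Fin l := Sum.inr (Sum.inl 0)
  let f : Fin l → F → ℂ := fun a y => y.1.1.1 cc - b.1 (Sum.inr a)
  have hyb : ∀ (y : F) (i : Fin n ⊕ Fin l), y.1.1.1 (jxd i) = b.1 i := by
    intro y i
    have h1 : forget (SK n 1 l m) jxd neK_jxd y.1 = b := y.2
    rw [← h1]
    rfl
  have hcont1 : ∀ a, Continuous (fun y : F => y.1.1.1 a) := fun a =>
    (continuous_apply a).comp (continuous_fst.comp
      (continuous_subtype_val.comp continuous_subtype_val))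
  have hcont2 : ∀ r, Continuous (fun y : F => y.1.1.2 r) := fun r =>
    (continuous_apply r).comp (continuous_snd.comp
      (continuous_subtype_val.comp continuous_subtype_val))
  have hf : ∀ k, Continuous (f k) := fun k => (hcont1 cc).sub continuous_const
  have hfeq : ∀ a y, f a y = y.1.1.1 cc - b.1 (Sum.inr a) := fun a y => rfl
  have h0 : ∀ k y, f k y ≠ 0 := by
    intro k y
    rw [hfeq, ← hyb y (Sum.inr k)]
    refine sub_ne_zero.2 ?_
    refine y.1.2.2.2 cc (Sum.inr (Sum.inr k)) ?_
    refine ⟨by simp [cc], ?_⟩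
    rintro ⟨i, j, ⟨h1, -⟩ | ⟨h1, -⟩⟩
    · exact absurd h1 (by simp [cc])
    · exact absurd h1 (by simp)
  refine asph_log f hf h0 ?_
  intro d hd
  let w : Fin n ⊕ Fin l → ℕ := Sum.elim (fun _ => m 0) (fun _ => 0)
  have hexp1 : exp (Real.pi * I) = -1 := exp_pi_mul_I
  have hexp2 : exp (-(Real.pi * I)) = -1 := by
    rw [exp_neg, hexp1]; norm_num
  let j : LogE f → YP b.1 w := fun z =>
    ⟨(z.1.1.1.1.1 cc, fun i => match i with
      | Sum.inl i => act (m 0) (z.1.1.1.1.2 (i, 0)) (rt (m 0) (Real.pi * I))
      | Sum.inr a => z.1.2 a), by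
      rintro (i | a)
      · show bw (m 0) (act (m 0) (z.1.1.1.1.2 (i, 0)) (rt (m 0) (Real.pi * I))) =
          z.1.1.1.1.1 cc - b.1 (Sum.inl i)
        have h1 : bw (m 0) (z.1.1.1.1.2 (i, 0)) = z.1.1.1.1.1 (Sum.inl i) - z.1.1.1.1.1 cc :=
          z.1.1.1.2.2.1 (i, 0)
        rw [bw_act, bw_rt, h1, hexp1, ← hyb z.1.1 (Sum.inl i)]
        show _ = z.1.1.1.1.1 cc - z.1.1.1.1.1 (Sum.inl i)
        ring
      · show bw 0 (z.1.2 a) = z.1.1.1.1.1 cc - b.1 (Sum.inr a)
        have h1 := z.2 a
        rw [hfeq] at h1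
        rw [← h1]
        simp [bw]⟩
  let r : YP b.1 w → LogE f := fun q =>
    ⟨(⟨⟨(fun a => match a with
        | Sum.inl i => b.1 (Sum.inl i)
        | Sum.inr (Sum.inl _) => q.1.1
        | Sum.inr (Sum.inr a) => b.1 (Sum.inr a),
        fun ij => act (m 0) (q.1.2 (Sum.inl ij.1)) (rt (m 0) (-(Real.pi * I)))), by
        refine ⟨fun _ => trivial, ?_, ?_⟩
        · rintro ⟨i, u⟩
          have hu : u = 0 := Subsingleton.elim _ _
          subst hu
          show bw (m 0) (act (m 0) (q.1.2 (Sum.inl i)) (rt (m 0) (-(Real.pi * I)))) =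
            b.1 (Sum.inl i) - q.1.1
          have h1 : bw (m 0) (q.1.2 (Sum.inl i)) = q.1.1 - b.1 (Sum.inl i) := q.2 (Sum.inl i)
          rw [bw_act, bw_rt, h1, hexp2]
          ring
        · have hqa : ∀ a, q.1.1 ≠ b.1 (Sum.inr a) := by
            intro a h
            have h1 : bw 0 (q.1.2 (Sum.inr a)) = q.1.1 - b.1 (Sum.inr a) := q.2 (Sum.inr a)
            rw [h, sub_self] at h1
            simp [bw] at h1
          rintro (i | u | a) (i' | u' | a') ⟨hne, hk⟩
          · show b.1 (Sum.inl i) ≠ b.1 (Sum.inl i')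
            intro h
            have := b.2 h
            exact hne (by rw [Sum.inl.inj this])
          · exact absurd ⟨i, u', Or.inl ⟨rfl, rfl⟩⟩ hk
          · show b.1 (Sum.inl i) ≠ b.1 (Sum.inr a')
            intro h
            cases b.2 h
          · exact absurd ⟨i', u, Or.inr ⟨rfl, rfl⟩⟩ hk
          · exact absurd (by rw [Subsingleton.elim u u']) hne
          · exact hqa a'
          · show b.1 (Sum.inr a) ≠ b.1 (Sum.inl i')
            intro h
            cases b.2 h
          · exact (hqa a).symm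
          · show b.1 (Sum.inr a) ≠ b.1 (Sum.inr a')
            intro h
            have := b.2 h
            exact hne (by rw [Sum.inr.inj this])⟩, by
        apply Subtype.ext
        funext i
        rcases i with i | a <;> rfl⟩, fun a => q.1.2 (Sum.inr a)), by
      intro a
      show exp (q.1.2 (Sum.inr a)) = q.1.1 - b.1 (Sum.inr a)
      have h1 : bw 0 (q.1.2 (Sum.inr a)) = q.1.1 - b.1 (Sum.inr a) := q.2 (Sum.inr a)
      rw [← h1]
      simp [bw]⟩
  have hj : Continuous j := by
    refine Continuous.subtype_mk ?_ _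
    refine Continuous.prodMk ((hcont1 cc).comp (continuous_fst.comp continuous_subtype_val)) ?_
    refine continuous_pi fun i => ?_
    rcases i with i | a
    · exact ff1_act_cont (m 0) _ ((hcont2 (i, 0)).comp
        (continuous_fst.comp continuous_subtype_val))
    · exact (continuous_apply a).comp (continuous_snd.comp continuous_subtype_val)
  have hr : Continuous r := by
    have hq1 : Continuous (fun q : YP b.1 w => q.1.1) := continuous_fst.comp continuous_subtype_val
    have hq2 : ∀ i, Continuous (fun q : YP b.1 w => q.1.2 i) := fun i =>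
      (continuous_apply i).comp (continuous_snd.comp continuous_subtype_val)
    refine Continuous.subtype_mk (Continuous.prodMk ?_ ?_) _
    · refine Continuous.subtype_mk (Continuous.subtype_mk (Continuous.prodMk ?_ ?_) _) _
      · refine continuous_pi fun a => ?_
        rcases a with i | u | a
        · exact continuous_const
        · exact hq1
        · exact continuous_const
      · exact continuous_pi fun ij => ff1_act_cont (m 0) _ (hq2 _)
    · exact continuous_pi fun a => hq2 _
  refine ext_retract j hj r hr ?_ (asph_YP b.2 w d hd)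
  intro z
  apply Subtype.ext
  refine Prod.ext (Subtype.ext (Subtype.ext (Prod.ext ?_ ?_))) ?_
  · funext a
    rcases a with i | u | a
    · exact (hyb z.1.1 (Sum.inl i)).symm
    · have hu : u = 0 := Subsingleton.elim _ _
      subst hu
      rfl
    · exact (hyb z.1.1 (Sum.inr a)).symm
  · funext ij
    obtain ⟨i, u⟩ := ij
    have hu : u = 0 := Subsingleton.elim _ _
    subst hu
    exact ff1_act_act (m 0) _ _ _ (by ring)
  · rfl

end ASP87
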