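import Pool.Agent.ASP87.FSys
import Pool.Agent.ASP87.AsphYS
import Pool.Agent.ASP87.LogCov

/-!
# ASP87/FFib2: two cone points: the fibre over the particles and punctures

`F` = the fibre over `b : Conf (Fin n + Fin l)`. Its points are given by the positions `c j` of the cone points and
`s (i, j)` with `bw (m j) (s (i, j)) = b (inl i) - c j`.
`LogE` over `F` with `κ = Fin l + Fin l + Unit`, `f (inl a) = c 0 - b (inr a)`, `f (inr (inl a)) = c 1 - b (inr a)`,
`f (inr (inr ())) = c 1 - c 0` (nonzero by `ne`), is homeomorphic to `YS univ b w1 w2`,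
`w1 = Sum.elim (fun _ => m 0) (fun _ => 0)`, `w2 = Sum.elim (fun _ => m 1) (fun _ => 0)` (never 1):
`(c, s, lg) |-> (c 0, c 1, s1, s2, lg (inr (inr ())))`, `s1 (inl i) = act (m 0) (s (i, 0)) (rt (m 0) (pi I))` (then
`bw s1 = c 0 - b (inl i)`), `s1 (inr a) = lg (inl a)`, `s2 (inl i) = act (m 1) (s (i, 1)) (rt (m 1) (pi I))`,
`s2 (inr a) = lg (inr (inl a))`. Inverse with `- pi I`. `asph_YS`, `ext_homeo`, `asph_log`.
-/

namespace ASP87

open Complex Topology Set

private noncomputable def ze (w : ℕ) : ℂ := exp (Real.pi * I / w)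

private theorem ze_ne (w : ℕ) : ze w ≠ 0 := exp_ne_zero _

private theorem ze_pow {w : ℕ} (hw : w ≠ 0) : ze w ^ w = -1 := by
  have hw' : (w : ℂ) ≠ 0 := by exact_mod_cast hw
  unfold ze
  rw [← exp_nat_mul, mul_div_cancel₀ _ hw', exp_pi_mul_I]

private theorem bw_mul_ze {w : ℕ} (hw : w ≠ 0) (s : ℂ) : bw w (s * ze w) = -bw w s := by
  simp only [bw, hw, if_false]
  rw [mul_pow, ze_pow hw]
  ring

private theorem bw_div_ze {w : ℕ} (hw : w ≠ 0) (s : ℂ) : bw w (s / ze w) = -bw w s := by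
  simp only [bw, hw, if_false]
  rw [div_pow, ze_pow hw]
  ring

private theorem bw_zero (s : ℂ) : bw 0 s = exp s := by simp [bw]

section Fib

variable {n l : ℕ} {m : Fin 2 → ℕ} {b : Conf (Fin n ⊕ Fin l)}

/-- the fibre -/
private abbrev FF (n l : ℕ) (m : Fin 2 → ℕ) (b : Conf (Fin n ⊕ Fin l)) : Type :=
  ↥(forget (SK n 2 l m) jxd neK_jxd ⁻¹' {b})

private theorem ff_pt (y : FF n l m b) (c : Fin n ⊕ Fin l) : y.1.1.1 (jxd c) = b.1 c := by
  have h := y.2
  rw [mem_preimage, mem_singleton_iff] at h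
  exact congrFun (congrArg Subtype.val h) c

private theorem ff_inl (y : FF n l m b) (i : Fin n) : y.1.1.1 (Sum.inl i) = b.1 (Sum.inl i) :=
  ff_pt y (Sum.inl i)

private theorem ff_inr (y : FF n l m b) (a : Fin l) :
    y.1.1.1 (Sum.inr (Sum.inr a)) = b.1 (Sum.inr a) := ff_pt y (Sum.inr a)

/-- the functions -/
private def fk : (Fin l ⊕ Fin l ⊕ Unit) → FF n l m b → ℂ
  | Sum.inl a, y => y.1.1.1 (Sum.inr (Sum.inl 0)) - b.1 (Sum.inr a)
  | Sum.inr (Sum.inl a), y => y.1.1.1 (Sum.inr (Sum.inl 1)) - b.1 (Sum.inr a)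
  | Sum.inr (Sum.inr _), y => y.1.1.1 (Sum.inr (Sum.inl 1)) - y.1.1.1 (Sum.inr (Sum.inl 0))

private theorem ff_cont (a : Fin n ⊕ Fin 2 ⊕ Fin l) :
    Continuous fun y : FF n l m b => y.1.1.1 a :=
  (continuous_apply a).comp (continuous_fst.comp
    (continuous_subtype_val.comp continuous_subtype_val))

private theorem ff_cont2 (r : Fin n × Fin 2) :
    Continuous fun y : FF n l m b => y.1.1.2 r :=
  (continuous_apply r).comp (continuous_snd.comp
    (continuous_subtype_val.comp continuous_subtype_val))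

private theorem fk_cont (k : Fin l ⊕ Fin l ⊕ Unit) :
    Continuous (fk (n := n) (m := m) (b := b) k) := by
  rcases k with a | a | u
  · exact (ff_cont _).sub continuous_const
  · exact (ff_cont _).sub continuous_const
  · exact (ff_cont _).sub (ff_cont _)

private theorem fk_ne (k : Fin l ⊕ Fin l ⊕ Unit) (y : FF n l m b) : fk k y ≠ 0 := by
  have hne := y.1.2.2.2
  rcases k with a | a | u
  · show y.1.1.1 (Sum.inr (Sum.inl 0)) - b.1 (Sum.inr a) ≠ 0
    rw [← ff_inr y a]
    exact sub_ne_zero.2 (hne _ _ (neK_inr _ _ (by simp)))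
  · show y.1.1.1 (Sum.inr (Sum.inl 1)) - b.1 (Sum.inr a) ≠ 0
    rw [← ff_inr y a]
    exact sub_ne_zero.2 (hne _ _ (neK_inr _ _ (by simp)))
  · show y.1.1.1 (Sum.inr (Sum.inl 1)) - y.1.1.1 (Sum.inr (Sum.inl 0)) ≠ 0
    exact sub_ne_zero.2 (hne _ _ (neK_inr _ _ (by simp)))

/-- the weights -/
private def ww (n l : ℕ) (c : ℕ) : Fin n ⊕ Fin l → ℕ := Sum.elim (fun _ => c) (fun _ => 0)

private theorem rel_eq (y : FF n l m b) (i : Fin n) (j : Fin 2) :
    bw (m j) (y.1.1.2 (i, j)) = b.1 (Sum.inl i) - y.1.1.1 (Sum.inr (Sum.inl j)) := by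
  have h := y.1.2.2.1 (i, j)
  rw [← ff_inl y i]
  exact h

/-- from the fibre with logarithms to the two-particle space -/
private noncomputable def toY (z : LogE (fk (n := n) (l := l) (m := m) (b := b))) :
    Amb (Fin n ⊕ Fin l) :=
  (z.1.1.1.1.1 (Sum.inr (Sum.inl 0)), z.1.1.1.1.1 (Sum.inr (Sum.inl 1)),
    Sum.elim (fun i => z.1.1.1.1.2 (i, 0) * ze (m 0)) (fun a => z.1.2 (Sum.inl a)),
    Sum.elim (fun i => z.1.1.1.1.2 (i, 1) * ze (m 1)) (fun a => z.1.2 (Sum.inr (Sum.inl a))),
    z.1.2 (Sum.inr (Sum.inr ())))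

private theorem toY_mem (hm : ∀ j, 2 ≤ m j)
    (z : LogE (fk (n := n) (l := l) (m := m) (b := b))) :
    toY z ∈ YS univ b.1 (ww n l (m 0)) (ww n l (m 1)) := by
  have hm0 : m 0 ≠ 0 := by have := hm 0; omega
  have hm1 : m 1 ≠ 0 := by have := hm 1; omega
  refine ⟨mem_univ _, mem_univ _, ?_, ?_, ?_⟩
  · rintro (i | a)
    · show bw (m 0) (z.1.1.1.1.2 (i, 0) * ze (m 0)) = z.1.1.1.1.1 (Sum.inr (Sum.inl 0)) - b.1 (Sum.inl i)
      rw [bw_mul_ze hm0, rel_eq z.1.1 i 0]
      ring
    · show bw 0 (z.1.2 (Sum.inl a)) = z.1.1.1.1.1 (Sum.inr (Sum.inl 0)) - b.1 (Sum.inr a)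
      rw [bw_zero]
      exact z.2 (Sum.inl a)
  · rintro (i | a)
    · show bw (m 1) (z.1.1.1.1.2 (i, 1) * ze (m 1)) = z.1.1.1.1.1 (Sum.inr (Sum.inl 1)) - b.1 (Sum.inl i)
      rw [bw_mul_ze hm1, rel_eq z.1.1 i 1]
      ring
    · show bw 0 (z.1.2 (Sum.inr (Sum.inl a))) =
        z.1.1.1.1.1 (Sum.inr (Sum.inl 1)) - b.1 (Sum.inr a)
      rw [bw_zero]
      exact z.2 (Sum.inr (Sum.inl a))
  · exact z.2 (Sum.inr (Sum.inr ()))

/-- the points -/
private def ptY (b : Conf (Fin n ⊕ Fin l)) (y : Amb (Fin n ⊕ Fin l)) :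
    Fin n ⊕ Fin 2 ⊕ Fin l → ℂ
  | Sum.inl i => b.1 (Sum.inl i)
  | Sum.inr (Sum.inl j) => if j = 0 then y.1 else y.2.1
  | Sum.inr (Sum.inr a) => b.1 (Sum.inr a)

/-- the roots -/
private noncomputable def roY (m : Fin 2 → ℕ) (y : Amb (Fin n ⊕ Fin l)) (r : Fin n × Fin 2) : ℂ :=
  (if r.2 = 0 then y.2.2.1 (Sum.inl r.1) else y.2.2.2.1 (Sum.inl r.1)) / ze (m r.2)

private theorem ptY_mem (hm : ∀ j, 2 ≤ m j) (y : YS univ b.1 (ww n l (m 0)) (ww n l (m 1))) :
    (ptY b y.1, roY m y.1) ∈ GS (SK n 2 l m) univ := by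
  have hm' : ∀ j, m j ≠ 0 := fun j => by have := hm j; omega
  obtain ⟨-, -, h1, h2, h3⟩ := y.2
  have hc : y.1.1 ≠ y.1.2.1 := by
    intro h
    rw [h, sub_self] at h3
    exact exp_ne_zero _ h3
  have hd1 : ∀ a : Fin l, y.1.1 ≠ b.1 (Sum.inr a) := by
    intro a h
    have h4 := h1 (Sum.inr a)
    have h5 : bw 0 (y.1.2.2.1 (Sum.inr a)) = y.1.1 - b.1 (Sum.inr a) := h4
    rw [bw_zero, h, sub_self] at h5
    exact exp_ne_zero _ h5
  have hd2 : ∀ a : Fin l, y.1.2.1 ≠ b.1 (Sum.inr a) := by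
    intro a h
    have h4 := h2 (Sum.inr a)
    have h5 : bw 0 (y.1.2.2.2.1 (Sum.inr a)) = y.1.2.1 - b.1 (Sum.inr a) := h4
    rw [bw_zero, h, sub_self] at h5
    exact exp_ne_zero _ h5
  have hd : ∀ (j : Fin 2) (a : Fin l),
      (if j = 0 then y.1.1 else y.1.2.1) ≠ b.1 (Sum.inr a) := by
    intro j a
    split_ifs
    · exact hd1 a
    · exact hd2 a
  refine ⟨fun _ => mem_univ _, ?_, ?_⟩
  · rintro ⟨i, j⟩
    show bw (m j) (roY m y.1 (i, j)) = b.1 (Sum.inl i) - (if j = 0 then y.1.1 else y.1.2.1)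
    unfold roY
    simp only
    rw [bw_div_ze (hm' j)]
    fin_cases j
    · have h4 : bw (m 0) (y.1.2.2.1 (Sum.inl i)) = y.1.1 - b.1 (Sum.inl i) := h1 (Sum.inl i)
      simp only [Fin.zero_eta, if_true]
      rw [h4]
      ring
    · have h4 : bw (m 1) (y.1.2.2.2.1 (Sum.inl i)) = y.1.2.1 - b.1 (Sum.inl i) := h2 (Sum.inl i)
      simp only [Fin.mk_one, one_ne_zero, if_false]
      rw [h4]
      ring
  · rintro a a' ⟨hne, hnk⟩
    rcases a with i | j | a <;> rcases a' with i' | j' | a'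
    · show b.1 (Sum.inl i) ≠ b.1 (Sum.inl i')
      intro h
      have h4 := Sum.inl_injective (b.2 h)
      exact hne (by rw [h4])
    · exact absurd ⟨i, j', Or.inl ⟨rfl, rfl⟩⟩ hnk
    · show b.1 (Sum.inl i) ≠ b.1 (Sum.inr a')
      intro h
      have h4 := b.2 h
      cases h4
    · exact absurd ⟨i', j, Or.inr ⟨rfl, rfl⟩⟩ hnk
    · show (if j = 0 then y.1.1 else y.1.2.1) ≠ (if j' = 0 then y.1.1 else y.1.2.1)
      fin_cases j <;> fin_cases j'
      · exact absurd rfl hne
      · simpa using hc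
      · simpa using hc.symm
      · exact absurd rfl hne
    · exact hd j a'
    · show b.1 (Sum.inr a) ≠ b.1 (Sum.inl i')
      intro h
      have h4 := b.2 h
      cases h4
    · exact (hd j' a).symm
    · show b.1 (Sum.inr a) ≠ b.1 (Sum.inr a')
      intro h
      have h4 := Sum.inr_injective (b.2 h)
      exact hne (by rw [h4])

private noncomputable def ofY (hm : ∀ j, 2 ≤ m j)
    (y : YS univ b.1 (ww n l (m 0)) (ww n l (m 1))) : FF n l m b :=
  ⟨⟨(ptY b y.1, roY m y.1), ptY_mem hm y⟩, by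
    rw [mem_preimage, mem_singleton_iff]
    refine Subtype.ext (funext fun c => ?_)
    rcases c with i | a <;> rfl⟩

/-- the logarithms -/
private def lgY (y : Amb (Fin n ⊕ Fin l)) : Fin l ⊕ Fin l ⊕ Unit → ℂ
  | Sum.inl a => y.2.2.1 (Sum.inr a)
  | Sum.inr (Sum.inl a) => y.2.2.2.1 (Sum.inr a)
  | Sum.inr (Sum.inr _) => y.2.2.2.2

private theorem lgY_exp (hm : ∀ j, 2 ≤ m j) (y : YS univ b.1 (ww n l (m 0)) (ww n l (m 1)))
    (k : Fin l ⊕ Fin l ⊕ Unit) : exp (lgY y.1 k) = fk k (ofY hm y) := by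
  obtain ⟨-, -, h1, h2, h3⟩ := y.2
  rcases k with a | a | u
  · have h5 : bw 0 (y.1.2.2.1 (Sum.inr a)) = y.1.1 - b.1 (Sum.inr a) := h1 (Sum.inr a)
    rw [bw_zero] at h5
    exact h5
  · have h5 : bw 0 (y.1.2.2.2.1 (Sum.inr a)) = y.1.2.1 - b.1 (Sum.inr a) := h2 (Sum.inr a)
    rw [bw_zero] at h5
    exact h5
  · exact h3

private theorem elim_cont {X A B : Type} [TopologicalSpace X] {f : X → A → ℂ} {g : X → B → ℂ}
    (hf : ∀ a, Continuous fun x => f x a) (hg : ∀ a, Continuous fun x => g x a) :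
    Continuous fun x => Sum.elim (f x) (g x) := by
  refine continuous_pi fun c => ?_
  rcases c with a | a
  · exact hf a
  · exact hg a

private noncomputable def homY (hm : ∀ j, 2 ≤ m j) :
    YS univ b.1 (ww n l (m 0)) (ww n l (m 1)) ≃ₜ LogE (fk (n := n) (l := l) (m := m) (b := b)) where
  toFun y := ⟨(ofY hm y, lgY y.1), lgY_exp hm y⟩
  invFun z := ⟨toY z, toY_mem hm z⟩
  left_inv y := by
    refine Subtype.ext ?_
    refine Prod.ext rfl (Prod.ext rfl (Prod.ext ?_ (Prod.ext ?_ rfl)))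
    · funext c
      rcases c with i | a
      · show y.1.2.2.1 (Sum.inl i) / ze (m 0) * ze (m 0) = y.1.2.2.1 (Sum.inl i)
        exact div_mul_cancel₀ _ (ze_ne _)
      · rfl
    · funext c
      rcases c with i | a
      · show y.1.2.2.2.1 (Sum.inl i) / ze (m 1) * ze (m 1) = y.1.2.2.2.1 (Sum.inl i)
        exact div_mul_cancel₀ _ (ze_ne _)
      · rfl
  right_inv z := by
    refine Subtype.ext (Prod.ext (Subtype.ext (Subtype.ext (Prod.ext ?_ ?_))) ?_)
    · funext c
      rcases c with i | j | a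
      · exact (ff_inl z.1.1 i).symm
      · show (if j = 0 then z.1.1.1.1.1 (Sum.inr (Sum.inl 0)) else
          z.1.1.1.1.1 (Sum.inr (Sum.inl 1))) = z.1.1.1.1.1 (Sum.inr (Sum.inl j))
        fin_cases j <;> simp
      · exact (ff_inr z.1.1 a).symm
    · funext r
      obtain ⟨i, j⟩ := r
      show (if j = 0 then z.1.1.1.1.2 (i, 0) * ze (m 0) else z.1.1.1.1.2 (i, 1) * ze (m 1)) /
        ze (m j) = z.1.1.1.1.2 (i, j)
      fin_cases j
      · simp only [Fin.zero_eta, if_true]
        exact mul_div_cancel_right₀ _ (ze_ne _)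
      · simp only [Fin.mk_one, one_ne_zero, if_false]
        exact mul_div_cancel_right₀ _ (ze_ne _)
    · funext k
      rcases k with a | a | u <;> rfl
  continuous_toFun := by
    refine Continuous.subtype_mk (Continuous.prodMk ?_ ?_) _
    · refine Continuous.subtype_mk (Continuous.subtype_mk (Continuous.prodMk ?_ ?_) _) _
      · refine continuous_pi fun c => ?_
        rcases c with i | j | a
        · exact continuous_const
        · show Continuous fun y : YS univ b.1 (ww n l (m 0)) (ww n l (m 1)) =>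
            (if j = 0 then y.1.1 else y.1.2.1)
          split_ifs
          · exact continuous_fst.comp continuous_subtype_val
          · exact continuous_fst.comp (continuous_snd.comp continuous_subtype_val)
        · exact continuous_const
      · refine continuous_pi fun r => ?_
        obtain ⟨i, j⟩ := r
        show Continuous fun y : YS univ b.1 (ww n l (m 0)) (ww n l (m 1)) =>
          (if j = 0 then y.1.2.2.1 (Sum.inl i) else y.1.2.2.2.1 (Sum.inl i)) / ze (m j)
        refine Continuous.div_const ?_ _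
        split_ifs
        · exact (continuous_apply _).comp (continuous_fst.comp (continuous_snd.comp
            (continuous_snd.comp continuous_subtype_val)))
        · exact (continuous_apply _).comp (continuous_fst.comp (continuous_snd.comp
            (continuous_snd.comp (continuous_snd.comp continuous_subtype_val))))
    · refine continuous_pi fun k => ?_
      rcases k with a | a | u
      · exact (continuous_apply _).comp (continuous_fst.comp (continuous_snd.comp
            (continuous_snd.comp continuous_subtype_val)))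
      · exact (continuous_apply _).comp (continuous_fst.comp (continuous_snd.comp
            (continuous_snd.comp (continuous_snd.comp continuous_subtype_val))))
      · exact continuous_snd.comp (continuous_snd.comp
            (continuous_snd.comp (continuous_snd.comp continuous_subtype_val)))
  continuous_invFun := by
    have hF : Continuous fun z : LogE (fk (n := n) (l := l) (m := m) (b := b)) => z.1.1 :=
      continuous_fst.comp continuous_subtype_val
    have hL : ∀ k, Continuous fun z : LogE (fk (n := n) (l := l) (m := m) (b := b)) => z.1.2 k :=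
      fun k => (continuous_apply k).comp (continuous_snd.comp continuous_subtype_val)
    refine Continuous.subtype_mk ?_ _
    refine Continuous.prodMk ((ff_cont _).comp hF) (Continuous.prodMk ((ff_cont _).comp hF)
      (Continuous.prodMk ?_ (Continuous.prodMk ?_ (hL _))))
    · exact elim_cont (fun i => ((ff_cont2 (i, 0)).comp hF).mul continuous_const)
        (fun a => hL (Sum.inl a))
    · exact elim_cont (fun i => ((ff_cont2 (i, 1)).comp hF).mul continuous_const)
        (fun a => hL (Sum.inr (Sum.inl a)))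

end Fib

theorem fib_asph2 {n l : ℕ} (m : Fin 2 → ℕ) (hm : ∀ j, 2 ≤ m j) (b : Conf (Fin n ⊕ Fin l)) :
    Asph (forget (SK n 2 l m) jxd neK_jxd ⁻¹' {b}) := by
  have hw : ∀ c, 2 ≤ c → ∀ i, ww n l c i ≠ 1 := by
    intro c hc i
    rcases i with i | i
    · show c ≠ 1
      omega
    · exact zero_ne_one
  have h1 : Asph (YS univ b.1 (ww n l (m 0)) (ww n l (m 1))) :=
    asph_YS b.2 (hw _ (hm 0)) (hw _ (hm 1))
  refine asph_log (fk (n := n) (l := l) (m := m) (b := b)) fk_cont fk_ne fun d hd => ?_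
  exact ext_homeo (homY hm) (h1 d hd)

end ASP87
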