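import Pool.Agent.ASP87.FSys
import Pool.Agent.ASP87.AsphYS
import Pool.Agent.ASP87.LogCov
import Pool.Agent.ASP87.OPWc
import Pool.Agent.ASP87.Dom

/-!
# ASP87/FXSn: at most two particles, any number of cone points

`n = 0`: `XS` is one point (`ext_contractible`). `n = 1`: `LogE` over `XS` with `κ = Fin l`, `f a = x 0 - d a`, is
homeomorphic to `YP (Sum.elim c d) (Sum.elim m 0)`. `n = 2`: `LogE` over `XS` with `κ = Fin l + Fin l + Unit`,
`f = x 0 - d a, x 1 - d a, x 1 - x 0`, is homeomorphic to `YS univ (Sum.elim c d) w w`, `w = Sum.elim m 0`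
(weights different from 1). (`bw (m j) s = s ^ (m j)` as `m j <> 0`, `bw 0 s = exp s`.) In the inverse direction
`x 0 <> d a` follows from `exp (..) = x 0 - d a`, `x 0 <> x 1` from `exp l = x 1 - x 0`. `asph_YP`, `asph_YS`,
`ext_homeo`, `asph_log`.
-/

namespace ASP87

open Complex Topology Set

private theorem bw_pos {w : ℕ} (hw : 2 ≤ w) (s : ℂ) : bw w s = s ^ w := by
  unfold bw
  rw [if_neg (by omega)]

private theorem bw_zero (s : ℂ) : bw 0 s = exp s := by
  unfold bw
  rw [if_pos rfl]

theorem asph_XS_one {k l : ℕ} {c : Fin k → ℂ} {m : Fin k → ℕ} {d : Fin l → ℂ}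
    (hm : ∀ j, 2 ≤ m j) (hcd : Function.Injective (Sum.elim c d)) :
    Asph (XS (n := 1) c m d) := by
  classical
  let f : Fin l → XS (n := 1) c m d → ℂ := fun a y => y.1.1 0 - d a
  have hf : ∀ a, Continuous (f a) := fun a =>
    (((continuous_apply 0).comp (continuous_fst.comp continuous_subtype_val)).sub
      continuous_const)
  have h0 : ∀ a x, f a x ≠ 0 := fun a x => sub_ne_zero.2 (x.2.2.1 0 a)
  refine asph_log f hf h0 ?_
  let w : Fin k ⊕ Fin l → ℕ := Sum.elim m (fun _ => 0)
  have hY : Asph (YP (Sum.elim c d) w) := asph_YP hcd w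
  let F : YP (Sum.elim c d) w → LogE f := fun y =>
    ⟨(⟨(fun _ => y.1.1, fun _ j => y.1.2 (Sum.inl j)), by
      refine ⟨fun i j => ?_, fun i a h => ?_, fun i i' _ => Subsingleton.elim i i'⟩
      · have h := y.2 (Sum.inl j)
        rw [show w (Sum.inl j) = m j from rfl, bw_pos (hm j)] at h
        exact h
      · have h1 := y.2 (Sum.inr a)
        rw [show w (Sum.inr a) = 0 from rfl, bw_zero] at h1
        have h2 : y.1.1 - d a = 0 := sub_eq_zero.2 h
        exact exp_ne_zero _ (h1.trans h2)⟩, fun a => y.1.2 (Sum.inr a)), fun a => by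
      have h1 := y.2 (Sum.inr a)
      rw [show w (Sum.inr a) = 0 from rfl, bw_zero] at h1
      exact h1⟩
  let G : LogE f → YP (Sum.elim c d) w := fun z =>
    ⟨(z.1.1.1.1 0, Sum.elim (fun j => z.1.1.1.2 0 j) z.1.2), by
      rintro (j | a)
      · show bw (m j) (z.1.1.1.2 0 j) = z.1.1.1.1 0 - c j
        rw [bw_pos (hm j)]
        exact z.1.1.2.1 0 j
      · show bw 0 (z.1.2 a) = z.1.1.1.1 0 - d a
        rw [bw_zero]
        exact z.2 a⟩
  have hFc : Continuous F := by
    refine Continuous.subtype_mk (Continuous.prodMk (Continuous.subtype_mk (Continuous.prodMk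
      ?_ ?_) _) ?_) _
    · exact continuous_pi fun _ => continuous_fst.comp continuous_subtype_val
    · exact continuous_pi fun _ => continuous_pi fun j =>
        (continuous_apply (Sum.inl j)).comp (continuous_snd.comp continuous_subtype_val)
    · exact continuous_pi fun a =>
        (continuous_apply (Sum.inr a)).comp (continuous_snd.comp continuous_subtype_val)
  have hGc : Continuous G := by
    refine Continuous.subtype_mk (Continuous.prodMk ?_ ?_) _
    · exact (continuous_apply 0).comp (continuous_fst.comp (continuous_subtype_val.comp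
        (continuous_fst.comp continuous_subtype_val)))
    · refine continuous_pi ?_
      rintro (j | a)
      · exact (continuous_apply j).comp ((continuous_apply 0).comp (continuous_snd.comp
          (continuous_subtype_val.comp (continuous_fst.comp continuous_subtype_val))))
      · exact (continuous_apply a).comp (continuous_snd.comp continuous_subtype_val)
  have hGF : ∀ y, G (F y) = y := by
    intro y
    refine Subtype.ext (Prod.ext rfl (funext ?_))
    rintro (j | a) <;> rfl
  have hFG : ∀ z, F (G z) = z := by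
    intro z
    refine Subtype.ext (Prod.ext (Subtype.ext (Prod.ext (funext fun i => ?_)
      (funext fun i => ?_))) rfl)
    · rw [Subsingleton.elim i 0]
    · rw [Subsingleton.elim i 0]
      rfl
  intro e he
  exact ext_homeo (⟨⟨F, G, hGF, hFG⟩, hFc, hGc⟩ : YP (Sum.elim c d) w ≃ₜ LogE f) (hY e he)

theorem asph_XS_two {k l : ℕ} {c : Fin k → ℂ} {m : Fin k → ℕ} {d : Fin l → ℂ}
    (hm : ∀ j, 2 ≤ m j) (hcd : Function.Injective (Sum.elim c d)) :
    Asph (XS (n := 2) c m d) := by
  classical
  let f : Fin l ⊕ Fin l ⊕ Unit → XS (n := 2) c m d → ℂ := fun r y =>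
    match r with
    | Sum.inl a => y.1.1 0 - d a
    | Sum.inr (Sum.inl a) => y.1.1 1 - d a
    | Sum.inr (Sum.inr _) => y.1.1 1 - y.1.1 0
  have hx : ∀ i, Continuous (fun y : XS (n := 2) c m d => y.1.1 i) := fun i =>
    (continuous_apply i).comp (continuous_fst.comp continuous_subtype_val)
  have hs : ∀ i j, Continuous (fun y : XS (n := 2) c m d => y.1.2 i j) := fun i j =>
    (continuous_apply j).comp ((continuous_apply i).comp
      (continuous_snd.comp continuous_subtype_val))
  have hf : ∀ a, Continuous (f a) := by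
    rintro (a | a | a)
    · exact (hx 0).sub continuous_const
    · exact (hx 1).sub continuous_const
    · exact (hx 1).sub (hx 0)
  have h0 : ∀ a x, f a x ≠ 0 := by
    rintro (a | a | a) x
    · exact sub_ne_zero.2 (x.2.2.1 0 a)
    · exact sub_ne_zero.2 (x.2.2.1 1 a)
    · refine sub_ne_zero.2 fun h => ?_
      have h1 : (1 : Fin 2) = 0 := x.2.2.2 h
      exact absurd h1 (by decide)
  refine asph_log f hf h0 ?_
  let w : Fin k ⊕ Fin l → ℕ := Sum.elim m (fun _ => 0)
  have hw : ∀ i, w i ≠ 1 := by
    rintro (j | a)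
    · have := hm j
      show m j ≠ 1
      omega
    · show (0 : ℕ) ≠ 1
      omega
  have hY : Asph (YS univ (Sum.elim c d) w w) := asph_YS hcd hw hw
  let F : YS univ (Sum.elim c d) w w → LogE f := fun y =>
    ⟨(⟨(![y.1.1, y.1.2.1], ![fun j => y.1.2.2.1 (Sum.inl j),
        fun j => y.1.2.2.2.1 (Sum.inl j)]), by
      refine ⟨?_, ?_, ?_⟩
      · rw [Fin.forall_fin_two]
        refine ⟨fun j => ?_, fun j => ?_⟩
        · have h := y.2.2.2.1 (Sum.inl j)
          rw [show w (Sum.inl j) = m j from rfl, bw_pos (hm j)] at h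
          exact h
        · have h := y.2.2.2.2.1 (Sum.inl j)
          rw [show w (Sum.inl j) = m j from rfl, bw_pos (hm j)] at h
          exact h
      · rw [Fin.forall_fin_two]
        refine ⟨fun a h => ?_, fun a h => ?_⟩
        · have h1 := y.2.2.2.1 (Sum.inr a)
          rw [show w (Sum.inr a) = 0 from rfl, bw_zero] at h1
          have h2 : y.1.1 - d a = 0 := sub_eq_zero.2 h
          exact exp_ne_zero _ (h1.trans h2)
        · have h1 := y.2.2.2.2.1 (Sum.inr a)
          rw [show w (Sum.inr a) = 0 from rfl, bw_zero] at h1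
          have h2 : y.1.2.1 - d a = 0 := sub_eq_zero.2 h
          exact exp_ne_zero _ (h1.trans h2)
      · have h1 := y.2.2.2.2.2
        have h2 : y.1.2.1 ≠ y.1.1 := by
          intro h
          rw [h, sub_self] at h1
          exact exp_ne_zero _ h1
        intro i i' h
        fin_cases i <;> fin_cases i'
        · rfl
        · exact absurd h.symm h2
        · exact absurd h h2
        · rfl⟩,
      fun r => match r with
        | Sum.inl a => y.1.2.2.1 (Sum.inr a)
        | Sum.inr (Sum.inl a) => y.1.2.2.2.1 (Sum.inr a)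
        | Sum.inr (Sum.inr _) => y.1.2.2.2.2), by
      rintro (a | a | a)
      · have h1 := y.2.2.2.1 (Sum.inr a)
        rw [show w (Sum.inr a) = 0 from rfl, bw_zero] at h1
        exact h1
      · have h1 := y.2.2.2.2.1 (Sum.inr a)
        rw [show w (Sum.inr a) = 0 from rfl, bw_zero] at h1
        exact h1
      · exact y.2.2.2.2.2⟩
  let G : LogE f → YS univ (Sum.elim c d) w w := fun z =>
    ⟨(z.1.1.1.1 0, z.1.1.1.1 1, Sum.elim (fun j => z.1.1.1.2 0 j) (fun a => z.1.2 (Sum.inl a)),
      Sum.elim (fun j => z.1.1.1.2 1 j) (fun a => z.1.2 (Sum.inr (Sum.inl a))),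
      z.1.2 (Sum.inr (Sum.inr ()))), by
      refine ⟨mem_univ _, mem_univ _, ?_, ?_, ?_⟩
      · rintro (j | a)
        · show bw (m j) (z.1.1.1.2 0 j) = z.1.1.1.1 0 - c j
          rw [bw_pos (hm j)]
          exact z.1.1.2.1 0 j
        · show bw 0 (z.1.2 (Sum.inl a)) = z.1.1.1.1 0 - d a
          rw [bw_zero]
          exact z.2 (Sum.inl a)
      · rintro (j | a)
        · show bw (m j) (z.1.1.1.2 1 j) = z.1.1.1.1 1 - c j
          rw [bw_pos (hm j)]
          exact z.1.1.2.1 1 j
        · show bw 0 (z.1.2 (Sum.inr (Sum.inl a))) = z.1.1.1.1 1 - d a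
          rw [bw_zero]
          exact z.2 (Sum.inr (Sum.inl a))
      · exact z.2 (Sum.inr (Sum.inr ()))⟩
  have hFc : Continuous F := by
    have k1 : Continuous (fun y : YS univ (Sum.elim c d) w w => y.1.1) :=
      continuous_fst.comp continuous_subtype_val
    have k2 : Continuous (fun y : YS univ (Sum.elim c d) w w => y.1.2.1) :=
      continuous_fst.comp (continuous_snd.comp continuous_subtype_val)
    have k3 : ∀ i, Continuous (fun y : YS univ (Sum.elim c d) w w => y.1.2.2.1 i) := fun i =>
      (continuous_apply i).comp (continuous_fst.comp (continuous_snd.comp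
        (continuous_snd.comp continuous_subtype_val)))
    have k4 : ∀ i, Continuous (fun y : YS univ (Sum.elim c d) w w => y.1.2.2.2.1 i) := fun i =>
      (continuous_apply i).comp (continuous_fst.comp (continuous_snd.comp (continuous_snd.comp
        (continuous_snd.comp continuous_subtype_val))))
    have k5 : Continuous (fun y : YS univ (Sum.elim c d) w w => y.1.2.2.2.2) :=
      continuous_snd.comp (continuous_snd.comp (continuous_snd.comp
        (continuous_snd.comp continuous_subtype_val)))
    refine Continuous.subtype_mk (Continuous.prodMk (Continuous.subtype_mk (Continuous.prodMk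
      ?_ ?_) _) ?_) _
    · refine continuous_pi ?_
      rw [Fin.forall_fin_two]
      exact ⟨k1, k2⟩
    · refine continuous_pi ?_
      rw [Fin.forall_fin_two]
      exact ⟨continuous_pi fun j => k3 _, continuous_pi fun j => k4 _⟩
    · refine continuous_pi ?_
      rintro (a | a | a)
      · exact k3 _
      · exact k4 _
      · exact k5
  have hGc : Continuous G := by
    have g1 : ∀ i, Continuous (fun z : LogE f => z.1.1.1.1 i) := fun i =>
      (hx i).comp (continuous_fst.comp continuous_subtype_val)
    have g2 : ∀ i j, Continuous (fun z : LogE f => z.1.1.1.2 i j) := fun i j =>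
      (hs i j).comp (continuous_fst.comp continuous_subtype_val)
    have g3 : ∀ r, Continuous (fun z : LogE f => z.1.2 r) := fun r =>
      (continuous_apply r).comp (continuous_snd.comp continuous_subtype_val)
    refine Continuous.subtype_mk (Continuous.prodMk (g1 0) (Continuous.prodMk (g1 1)
      (Continuous.prodMk ?_ (Continuous.prodMk ?_ (g3 _))))) _
    · refine continuous_pi ?_
      rintro (j | a)
      · exact g2 0 j
      · exact g3 _
    · refine continuous_pi ?_
      rintro (j | a)
      · exact g2 1 j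
      · exact g3 _
  have hGF : ∀ y, G (F y) = y := by
    intro y
    refine Subtype.ext (Prod.ext rfl (Prod.ext rfl (Prod.ext (funext ?_)
      (Prod.ext (funext ?_) rfl))))
    · rintro (j | a) <;> rfl
    · rintro (j | a) <;> rfl
  have hFG : ∀ z, F (G z) = z := by
    intro z
    refine Subtype.ext (Prod.ext (Subtype.ext (Prod.ext (funext ?_) (funext ?_))) (funext ?_))
    · rw [Fin.forall_fin_two]
      exact ⟨rfl, rfl⟩
    · rw [Fin.forall_fin_two]
      exact ⟨rfl, rfl⟩
    · rintro (a | a | a) <;> rfl
  intro e he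
  exact ext_homeo (⟨⟨F, G, hGF, hFG⟩, hFc, hGc⟩ : YS univ (Sum.elim c d) w w ≃ₜ LogE f)
    (hY e he)

theorem asph_XS_n {n k l : ℕ} {c : Fin k → ℂ} {m : Fin k → ℕ} {d : Fin l → ℂ}
    (hm : ∀ j, 2 ≤ m j) (hcd : Function.Injective (Sum.elim c d)) (hn : n ≤ 2) :
    Asph (XS (n := n) c m d) := by
  interval_cases n
  · have hu : Nonempty (Unique (XS (n := 0) c m d)) := by
      refine ⟨⟨⟨⟨(fun i => i.elim0, fun i => i.elim0), ?_⟩⟩, ?_⟩⟩
      · exact ⟨fun i => i.elim0, fun i => i.elim0, fun i => i.elim0⟩
      · intro y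
        exact Subtype.ext (Prod.ext (Subsingleton.elim _ _) (Subsingleton.elim _ _))
    obtain ⟨hu⟩ := hu
    intro e _
    exact ext_contractible _ e
  · exact asph_XS_one hm hcd
  · exact asph_XS_two hm hcd

end ASP87
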