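import Pool.Agent.ASP87.FXSk
import Pool.Agent.ASP87.FXSn
import Pool.Agent.ASP87.ExtPi

/-!
# ASP87/FPB: the space `PB_n(M~, H)`

`MT c m d` = the curve `{(x, s) : s_j ^ (m j) = x - c j, x <> d a}`; the group `HG m` of tuples of roots of unity
acts on it (`HG_smul`). Orbits are the fibres of the first projection (`orbit_iff`): `s_j ^ m = s'_j ^ m`, `m <> 0`:
if `s_j = 0` then `s'_j = 0` and any root of unity works, otherwise `zeta = s'_j / s_j`.
`PBn n c m d` = the `n`-tuples of points of the curve in different orbits.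
`PBn_homeo`: `PBn n` is homeomorphic to `XS (n := n) c m d`: `x |-> (positions, roots)`; injectivity of the positions is
`orbit_iff`.
`asph_PBn`: `asph_XS_k`, `asph_XS_n`, `ext_homeo`.
-/

namespace ASP87

open Complex Topology Set

/-- the curve over the plane with cone points `c j` of order `m j` and punctures `d a` -/
def MT {k l : ℕ} (c : Fin k → ℂ) (m : Fin k → ℕ) (d : Fin l → ℂ) : Type :=
  {p : ℂ × (Fin k → ℂ) // (∀ j, p.2 j ^ m j = p.1 - c j) ∧ ∀ a, p.1 ≠ d a}

instance {k l : ℕ} (c : Fin k → ℂ) (m : Fin k → ℕ) (d : Fin l → ℂ) :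
    TopologicalSpace (MT c m d) :=
  inferInstanceAs (TopologicalSpace {p : ℂ × (Fin k → ℂ) //
    (∀ j, p.2 j ^ m j = p.1 - c j) ∧ ∀ a, p.1 ≠ d a})

/-- the group `H` = product of the groups of `m j`-th roots of unity -/
abbrev HG {k : ℕ} (m : Fin k → ℕ) : Type := ∀ j, ↥(rootsOfUnity (m j) ℂ)

instance {k l : ℕ} (c : Fin k → ℂ) (m : Fin k → ℕ) (d : Fin l → ℂ) :
    MulAction (HG m) (MT c m d) where
  smul z p := ⟨(p.1.1, fun j => ((z j : ℂˣ) : ℂ) * p.1.2 j), by
    refine ⟨fun j => ?_, p.2.2⟩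
    have h : ((z j : ℂˣ)) ^ m j = 1 := (z j).2
    have h' : (((z j : ℂˣ) : ℂ)) ^ m j = 1 := by
      rw [← Units.val_pow_eq_pow_val, h, Units.val_one]
    show (((z j : ℂˣ) : ℂ) * p.1.2 j) ^ m j = p.1.1 - c j
    rw [mul_pow, h', one_mul, p.2.1 j]⟩
  one_smul p := by
    apply Subtype.ext
    apply Prod.ext
    · rfl
    · funext j
      show (((1 : HG m) j : ℂˣ) : ℂ) * p.1.2 j = p.1.2 j
      simp
  mul_smul z w p := by
    apply Subtype.ext
    apply Prod.ext
    · rfl
    · funext j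
      show ((((z * w) j : rootsOfUnity (m j) ℂ) : ℂˣ) : ℂ) * p.1.2 j =
        ((z j : ℂˣ) : ℂ) * (((w j : ℂˣ) : ℂ) * p.1.2 j)
      simp [mul_assoc]

theorem orbit_iff {k l : ℕ} {c : Fin k → ℂ} {m : Fin k → ℕ} {d : Fin l → ℂ}
    (hm : ∀ j, m j ≠ 0) (p q : MT c m d) :
    MulAction.orbit (HG m) p = MulAction.orbit (HG m) q ↔ p.1.1 = q.1.1 := by
  rw [MulAction.orbit_eq_iff]
  constructor
  · rintro ⟨z, hz⟩
    have hz' : z • q = p := hz
    rw [← hz']
    rfl
  · intro h
    have key : ∀ j, ∃ z : ↥(rootsOfUnity (m j) ℂ), ((z : ℂˣ) : ℂ) * q.1.2 j = p.1.2 j := by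
      intro j
      have hpq : p.1.2 j ^ m j = q.1.2 j ^ m j := by rw [p.2.1 j, q.2.1 j, h]
      by_cases h0 : q.1.2 j = 0
      · refine ⟨1, ?_⟩
        rw [h0, zero_pow (hm j)] at hpq
        rw [h0, mul_zero, (pow_eq_zero_iff (hm j)).1 hpq]
      · have : NeZero (m j) := ⟨hm j⟩
        have h1 : (p.1.2 j / q.1.2 j) ^ m j = 1 := by
          rw [div_pow, hpq, div_self (pow_ne_zero _ h0)]
        refine ⟨rootsOfUnity.mkOfPowEq _ h1, ?_⟩
        rw [rootsOfUnity.coe_mkOfPowEq, div_mul_cancel₀ _ h0]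
    choose z hz using key
    refine ⟨z, ?_⟩
    show z • q = p
    apply Subtype.ext
    apply Prod.ext
    · exact h.symm
    · funext j
      exact hz j

/-- `PB_n(M~, H)` -/
def PBn (n : ℕ) {k l : ℕ} (c : Fin k → ℂ) (m : Fin k → ℕ) (d : Fin l → ℂ) : Type :=
  {x : Fin n → MT c m d //
    ∀ i j, i ≠ j → MulAction.orbit (HG m) (x i) ≠ MulAction.orbit (HG m) (x j)}

instance (n : ℕ) {k l : ℕ} (c : Fin k → ℂ) (m : Fin k → ℕ) (d : Fin l → ℂ) :
    TopologicalSpace (PBn n c m d) :=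
  inferInstanceAs (TopologicalSpace {x : Fin n → MT c m d //
    ∀ i j, i ≠ j → MulAction.orbit (HG m) (x i) ≠ MulAction.orbit (HG m) (x j)})

theorem PBn_homeo {n k l : ℕ} {c : Fin k → ℂ} {m : Fin k → ℕ} {d : Fin l → ℂ}
    (hm : ∀ j, m j ≠ 0) : Nonempty (PBn n c m d ≃ₜ XS (n := n) c m d) := by
  refine ⟨{ toFun := fun x => ⟨(fun i => (x.1 i).1.1, fun i => (x.1 i).1.2), ?_⟩
            invFun := fun y => ⟨fun i => ⟨(y.1.1 i, y.1.2 i), ?_⟩, ?_⟩
            left_inv := fun x => rfl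
            right_inv := fun y => rfl
            continuous_toFun := ?_
            continuous_invFun := ?_ }⟩
  · refine ⟨fun i j => (x.1 i).2.1 j, fun i a => (x.1 i).2.2 a, ?_⟩
    intro i j hij
    by_contra hne
    exact x.2 i j hne ((orbit_iff hm _ _).2 hij)
  · exact ⟨fun j => y.2.1 i j, fun a => y.2.2.1 i a⟩
  · intro i j hij h
    exact hij (y.2.2.2 ((orbit_iff hm _ _).1 h))
  · refine Continuous.subtype_mk ?_ _
    have h1 : ∀ i : Fin n, Continuous fun x : PBn n c m d => (x.1 i) :=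
      fun i => (continuous_apply i).comp continuous_subtype_val
    have h2 : ∀ i : Fin n, Continuous fun x : PBn n c m d => (x.1 i).1 :=
      fun i => continuous_subtype_val.comp (h1 i)
    exact (continuous_pi fun i => continuous_fst.comp (h2 i)).prodMk
      (continuous_pi fun i => continuous_snd.comp (h2 i))
  · refine Continuous.subtype_mk (continuous_pi fun i => Continuous.subtype_mk ?_ _) _
    exact ((continuous_apply i).comp (continuous_fst.comp continuous_subtype_val)).prodMk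
      ((continuous_apply i).comp (continuous_snd.comp continuous_subtype_val))

theorem asph_PBn {n k l : ℕ} {c : Fin k → ℂ} {m : Fin k → ℕ} {d : Fin l → ℂ}
    (hm : ∀ j, 2 ≤ m j) (hcd : Function.Injective (Sum.elim c d)) (hnk : n ≤ 2 ∨ k ≤ 2) :
    Asph (PBn n c m d) := by
  have hm0 : ∀ j, m j ≠ 0 := fun j => by
    have := hm j
    omega
  obtain ⟨e⟩ := PBn_homeo (n := n) (c := c) (d := d) hm0
  intro r hr
  rcases hnk with hn | hk
  · exact ext_homeo e.symm (asph_XS_n hm hcd hn r hr)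
  · exact ext_homeo e.symm (asph_XS_k hm hcd hk r hr)

end ASP87
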