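import Pool.Agent.ASP87.TSys

/-!
# ASP87/FSys: particles, cone points and punctures as one system (definitions)

Points: particles `inl i` (`i : Fin n`), cone points `inr (inl j)` (`j : Fin k`), punctures `inr (inr a)`
(`a : Fin l`). Relations `(i, j)`: root of order `m j` of `x i - c j`. All pairs of different points except the pairs
particle / cone point are required to be distinct.

`XS c m d` = the configurations of `n` particles with fixed cone points `c` and punctures `d`:
`XS_homeo`: homeomorphic to the fibre of `forget` to the cone points and punctures: forget / insert the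
coordinates `c`, `d` (`bw (m j) s = s ^ (m j)` for `m j <> 0`).
-/

namespace ASP87

open Complex Topology Set

/-- the relation of points that are required to be distinct -/
def neK {n k l : ℕ} (a b : Fin n ⊕ Fin k ⊕ Fin l) : Prop :=
  a ≠ b ∧ ¬ (∃ i j, (a = Sum.inl i ∧ b = Sum.inr (Sum.inl j)) ∨
    (b = Sum.inl i ∧ a = Sum.inr (Sum.inl j)))

/-- particles, cone points, punctures -/
def SK (n k l : ℕ) (m : Fin k → ℕ) : Sys (Fin n ⊕ Fin k ⊕ Fin l) (Fin n × Fin k) where
  src r := Sum.inl r.1
  tgt r := Sum.inr (Sum.inl r.2)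
  wt r := m r.2
  ne := neK

theorem neK_inr {n k l : ℕ} (b b' : Fin k ⊕ Fin l) (h : b ≠ b') :
    neK (n := n) (Sum.inr b) (Sum.inr b') := by
  refine ⟨fun h' => h (Sum.inr_injective h'), ?_⟩
  rintro ⟨i, j, ⟨h1, -⟩ | ⟨h1, -⟩⟩ <;> cases h1

/-- particles and punctures among all points -/
def jxd {n k l : ℕ} (b : Fin n ⊕ Fin l) : Fin n ⊕ Fin k ⊕ Fin l :=
  match b with
  | Sum.inl i => Sum.inl i
  | Sum.inr a => Sum.inr (Sum.inr a)

theorem neK_jxd {n k l : ℕ} (b b' : Fin n ⊕ Fin l) (h : b ≠ b') :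
    neK (n := n) (k := k) (jxd b) (jxd b') := by
  refine ⟨fun h' => h ?_, ?_⟩
  · rcases b with i | a <;> rcases b' with i' | a' <;> simp [jxd] at h' ⊢ <;> exact h'
  · rcases b with i | a <;> rcases b' with i' | a' <;> rintro ⟨i, j, ⟨h1, h2⟩ | ⟨h1, h2⟩⟩ <;>
      simp [jxd] at h1 h2

/-- `n` particles with cone points `c j` of order `m j` and punctures `d a` -/
def XS {n k l : ℕ} (c : Fin k → ℂ) (m : Fin k → ℕ) (d : Fin l → ℂ) :
    Set ((Fin n → ℂ) × (Fin n → Fin k → ℂ)) :=
  {y | (∀ i j, y.2 i j ^ m j = y.1 i - c j) ∧ (∀ i a, y.1 i ≠ d a) ∧ Function.Injective y.1}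

private theorem bw_pos' {w : ℕ} (hw : w ≠ 0) (s : ℂ) : bw w s = s ^ w := by
  unfold bw
  rw [if_neg hw]

theorem XS_homeo {n k l : ℕ} {c : Fin k → ℂ} {m : Fin k → ℕ} {d : Fin l → ℂ}
    (hm : ∀ j, m j ≠ 0) (hcd : Function.Injective (Sum.elim c d)) :
    Nonempty (XS (n := n) c m d ≃ₜ
      (forget (SK n k l m) (fun b => Sum.inr b) neK_inr ⁻¹' {⟨Sum.elim c d, hcd⟩})) := by
  have hF : ∀ y : XS (n := n) c m d,
      ((Sum.elim y.1.1 (Sum.elim c d), fun r : Fin n × Fin k => y.1.2 r.1 r.2) :
        (Fin n ⊕ Fin k ⊕ Fin l → ℂ) × (Fin n × Fin k → ℂ)) ∈ GS (SK n k l m) univ := by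
    intro y
    obtain ⟨h1, h2, h3⟩ := y.2
    refine ⟨fun _ => mem_univ _, fun r => ?_, ?_⟩
    · show bw (m r.2) (y.1.2 r.1 r.2) = y.1.1 r.1 - c r.2
      rw [bw_pos' (hm _), h1]
    · rintro a b ⟨hab, hnc⟩ h
      rcases a with i | a <;> rcases b with i' | b
      · exact hab (congrArg Sum.inl (h3 h))
      · rcases b with j | a'
        · exact hnc ⟨i, j, Or.inl ⟨rfl, rfl⟩⟩
        · exact h2 i a' h
      · rcases a with j | a'
        · exact hnc ⟨i', j, Or.inr ⟨rfl, rfl⟩⟩
        · exact h2 i' a' h.symm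
      · exact hab (congrArg Sum.inr (hcd h))
  have key : ∀ w : (forget (SK n k l m) (fun b => Sum.inr b) neK_inr ⁻¹'
      {⟨Sum.elim c d, hcd⟩}), ∀ b, w.1.1.1 (Sum.inr b) = Sum.elim c d b := by
    intro w b
    have hw : forget (SK n k l m) (fun b => Sum.inr b) neK_inr w.1 = ⟨Sum.elim c d, hcd⟩ := w.2
    exact congrFun (congrArg Subtype.val hw) b
  have hG : ∀ w : (forget (SK n k l m) (fun b => Sum.inr b) neK_inr ⁻¹'
      {⟨Sum.elim c d, hcd⟩}), ((fun i => w.1.1.1 (Sum.inl i), fun i j => w.1.1.2 (i, j)) :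
        (Fin n → ℂ) × (Fin n → Fin k → ℂ)) ∈ XS (n := n) c m d := by
    intro w
    obtain ⟨-, h1, h2⟩ := w.1.2
    refine ⟨fun i j => ?_, fun i a h => ?_, fun i i' h => ?_⟩
    · have h3 : bw (m j) (w.1.1.2 (i, j)) = w.1.1.1 (Sum.inl i) - w.1.1.1 (Sum.inr (Sum.inl j)) :=
        h1 (i, j)
      rw [bw_pos' (hm j), key w (Sum.inl j)] at h3
      exact h3
    · refine h2 (Sum.inl i) (Sum.inr (Sum.inr a)) ⟨?_, ?_⟩ ?_
      · intro h'
        cases h'
      · rintro ⟨i', j, ⟨-, h'⟩ | ⟨h', -⟩⟩
        · cases h'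
        · cases h'
      · rw [key w (Sum.inr a)]
        exact h
    · by_contra hne
      refine h2 (Sum.inl i) (Sum.inl i') ⟨fun h' => hne (Sum.inl_injective h'), ?_⟩ h
      rintro ⟨i'', j, ⟨-, h'⟩ | ⟨-, h'⟩⟩
      · cases h'
      · cases h'
  refine ⟨{
    toFun := fun y => ⟨⟨_, hF y⟩, Subtype.ext (funext fun b => rfl)⟩
    invFun := fun w => ⟨_, hG w⟩
    left_inv := fun y => Subtype.ext rfl
    right_inv := fun w => ?_
    continuous_toFun := ?_
    continuous_invFun := ?_ }⟩
  · refine Subtype.ext (Subtype.ext (Prod.ext (funext fun a => ?_) rfl))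
    rcases a with i | b
    · rfl
    · exact (key w b).symm
  · refine Continuous.subtype_mk (Continuous.subtype_mk ?_ _) _
    refine Continuous.prodMk (continuous_pi fun a => ?_) (continuous_pi fun r => ?_)
    · rcases a with i | b
      · exact (continuous_apply i).comp (continuous_fst.comp continuous_subtype_val)
      · exact continuous_const
    · exact (continuous_apply r.2).comp
        ((continuous_apply r.1).comp (continuous_snd.comp continuous_subtype_val))
  · refine Continuous.subtype_mk ?_ _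
    refine Continuous.prodMk (continuous_pi fun i => ?_)
      (continuous_pi fun i => continuous_pi fun j => ?_)
    · exact (continuous_apply (Sum.inl i)).comp
        (continuous_fst.comp (continuous_subtype_val.comp continuous_subtype_val))
    · exact (continuous_apply (i, j)).comp
        (continuous_snd.comp (continuous_subtype_val.comp continuous_subtype_val))

end ASP87
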