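import Pool.Agent.ASP87.BunCube
import Pool.Agent.ASP87.Collar
import Pool.Agent.ASP87.ExtBasic

/-!
# ASP87/Fib: `Ext` for the total space and for the fibre of a bundle

`ext_total`: `f : K -> E` continuous on the boundary `K` of the `d`-cube. `p o f` extends to
`G : cube -> B` (Ext d B). The pullback `PB p G` over the cube is trivial (`LocTriv.pullback`,
`bundle_cube_trivial`): `t`, `s` (if `PB p G` is empty then `K` is empty, i.e. `d = 0`: use `ext_zero`).
`phi z = t <(z, f z), _>` is continuous on `K` with values in `F` (write it as the composition of `t` with a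
map into the subtype; outside `K` use a junk point of `PB p G`); extend it to `phi' : cube -> F`
(Ext d F). `g z = (s (z, phi' z)).1.2` is continuous, and for `z in K`:
`s (z, phi z) = <(z, f z), _>` by `st`, so `g z = f z`.

`ext_fibre`: let `b0` be a point, `E0 = p^-1 {b0}`. It suffices to prove `Ext d E0` because `E0` is
homeomorphic to `F` (a trivialization near `b0`: `f => s (b0, f)`, inverse `t`). By `ext_of_set`
let `f : K -> E`, `p (f z) = b0` on `K`. `Ext d E`: extend `f` to `g : cube -> E`. `p o g : cube -> B` maps `K`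
to `b0`. On the boundary of the cube `Fin (d+1) -> I` define `k z = p (g (tail z))` if `z 0 = 0`,
`k z = b0` otherwise (on the boundary: continuous, two closed pieces: the face `z 0 = 0`, and the set of
boundary points with `z 0 = 1` or tail in `K`, on which `k = b0`). `Ext (d+1) B`: extend `k` to
`M : (Fin (d+1) -> I) -> B`. Trivialize the pullback of `p` along `M`: `t`, `s`. Put for `x` in the
`d`-cube and `u in I`: `h (x, u) = (s ((u, x), t <((0, x), g x), _>)).1.2`, a point of the fibre over
`M (u, x)`. `h (x, 0) = g x`. For `x in K` or `u = 1` we have `M (u, x) = b0`, so `h (x, u)` lies in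
`E0`. So `h` restricted to `K x I` is a homotopy in `E0` from `f` to `h (., 1)`, and `h (., 1)` is
defined and in `E0` on the whole cube: `collar` gives an extension of `f` with values in `E0`
(the values of `G` in `collar` are values of `g` or of `h`).
-/

namespace ASP87

open scoped unitInterval Topology
open Set

private theorem fib_bd_closed (d : ℕ) : IsClosed (Cube.boundary (Fin d)) := by
  have h1 : Cube.boundary (Fin d) = ⋃ i : Fin d, ({x : Fin d → I | x i = 0} ∪
      {x : Fin d → I | x i = 1}) := by
    ext x
    simp only [Cube.boundary, mem_ofPred_eq, mem_iUnion, mem_union]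
  rw [h1]
  refine isClosed_iUnion_of_finite fun i => ?_
  exact (isClosed_eq (continuous_apply i) continuous_const).union
    (isClosed_eq (continuous_apply i) continuous_const)

private theorem fib_bd_nonempty {d : ℕ} (hd : d ≠ 0) :
    (fun _ => 0 : Fin d → I) ∈ Cube.boundary (Fin d) :=
  ⟨⟨0, Nat.pos_of_ne_zero hd⟩, Or.inl rfl⟩

theorem ext_total {F E B : Type*} [TopologicalSpace F] [TopologicalSpace E] [TopologicalSpace B]
    {p : E → B} (hp : LocTriv F p) {d : ℕ} (hB : Ext d B) (hF : Ext d F) : Ext d E := by
  classical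
  by_cases hd : d = 0
  · subst hd
    exact ext_zero E
  intro f hf
  obtain ⟨G, hG, hGf⟩ := hB (fun z => p (f z)) (hp.1.comp_continuousOn hf)
  let pt : PB p G := ⟨((fun _ => 0 : Fin d → I), f (fun _ => 0)), hGf _ (fib_bd_nonempty hd)⟩
  obtain ⟨t, s, hts⟩ := bundle_cube_trivial (hp.pullback hG ⟨pt⟩)
  let m : (Fin d → I) → PB p G := fun z =>
    if h : G z = p (f z) then ⟨(z, f z), h⟩ else pt
  have hm : ∀ z ∈ Cube.boundary (Fin d), (m z).1 = (z, f z) := by
    intro z hz
    have h1 : m z = ⟨(z, f z), hGf z hz⟩ := dif_pos (hGf z hz)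
    rw [h1]
  have hmc : ContinuousOn m (Cube.boundary (Fin d)) := by
    have hind : Topology.IsInducing (Subtype.val : PB p G → (Fin d → I) × E) := ⟨rfl⟩
    rw [hind.continuousOn_iff]
    exact (continuousOn_id.prodMk hf).congr hm
  have htc : Continuous t := by
    have h1 := hts.ct
    rw [preimage_univ, continuousOn_univ] at h1
    exact h1
  have hsc : Continuous s := by
    have h1 := hts.cs
    rw [univ_prod_univ, continuousOn_univ] at h1
    exact h1
  obtain ⟨φ, hφ, hφt⟩ := hF (fun z => t (m z)) (htc.comp_continuousOn hmc)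
  refine ⟨fun z => (s (z, φ z)).1.2, ?_, ?_⟩
  · exact continuous_snd.comp (continuous_subtype_val.comp (hsc.comp (continuous_id.prodMk hφ)))
  · intro z hz
    have h1 : pbProj p G (m z) = z := by
      show (m z).1.1 = z
      rw [hm z hz]
    have h2 := hts.st (m z) (mem_univ _)
    rw [h1] at h2
    show (s (z, φ z)).1.2 = f z
    rw [hφt z hz, h2, hm z hz]

theorem ext_fibre {F E B : Type*} [TopologicalSpace F] [TopologicalSpace E] [TopologicalSpace B]
    {p : E → B} (hp : LocTriv F p) (b0 : B) {d : ℕ} (hB : Ext (d + 1) B) (hE : Ext d E) :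
    Ext d F := by
  classical
  by_cases hd : d = 0
  · subst hd
    exact ext_zero F
  -- it is enough to treat the fibre
  have key : Ext d (p ⁻¹' {b0} : Set E) := by
    refine ext_of_set fun f hf hfb => ?_
    obtain ⟨g, hg, hgf⟩ := hE f hf
    have hpc : Continuous p := hp.1
    let tl : (Fin (d + 1) → I) → (Fin d → I) := fun z i => z i.succ
    have htl : Continuous tl := continuous_pi fun i => continuous_apply _
    let k : (Fin (d + 1) → I) → B := fun z => if z 0 = 0 then p (g (tl z)) else b0
    have hk1 : ∀ z ∈ {z : Fin (d + 1) → I | z 0 = 0}, k z = p (g (tl z)) := fun z hz => if_pos hz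
    have hk2 : ∀ z ∈ {z : Fin (d + 1) → I | z 0 = 1} ∪ tl ⁻¹' (Cube.boundary (Fin d)),
        k z = b0 := by
      intro z hz
      by_cases h0 : z 0 = 0
      · have h1 : k z = p (g (tl z)) := if_pos h0
        rcases hz with hz | hz
        · have hz' : z 0 = 1 := hz
          rw [h0] at hz'
          exact absurd hz' (by
            intro h
            have := congrArg Subtype.val h
            exact zero_ne_one this)
        · have hz' : tl z ∈ Cube.boundary (Fin d) := hz
          rw [h1, hgf _ hz']
          exact hfb _ hz'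
      · exact if_neg h0
    have hkc : ContinuousOn k ({z : Fin (d + 1) → I | z 0 = 0} ∪
        ({z : Fin (d + 1) → I | z 0 = 1} ∪ tl ⁻¹' (Cube.boundary (Fin d)))) := by
      refine ContinuousOn.union_of_isClosed ?_ ?_
        (isClosed_eq (continuous_apply 0) continuous_const)
        ((isClosed_eq (continuous_apply 0) continuous_const).union
          ((fib_bd_closed d).preimage htl))
      · exact ((hpc.comp (hg.comp htl)).continuousOn).congr hk1
      · exact continuousOn_const.congr hk2
    have hbd : Cube.boundary (Fin (d + 1)) ⊆ {z : Fin (d + 1) → I | z 0 = 0} ∪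
        ({z : Fin (d + 1) → I | z 0 = 1} ∪ tl ⁻¹' (Cube.boundary (Fin d))) := by
      rintro z ⟨i, hi⟩
      refine Fin.cases (fun hi => ?_) (fun j hi => ?_) i hi
      · rcases hi with hi | hi
        · exact Or.inl hi
        · exact Or.inr (Or.inl hi)
      · exact Or.inr (Or.inr ⟨j, hi⟩)
    obtain ⟨M, hM, hMk⟩ := hB k (hkc.mono hbd)
    have hb0 : ∀ x : Fin d → I, (Fin.cons 0 x : Fin (d + 1) → I) ∈ Cube.boundary (Fin (d + 1)) :=
      fun x => ⟨0, Or.inl rfl⟩
    have hb1 : ∀ x : Fin d → I, (Fin.cons 1 x : Fin (d + 1) → I) ∈ Cube.boundary (Fin (d + 1)) :=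
      fun x => ⟨0, Or.inr rfl⟩
    have hbK : ∀ (u : I), ∀ x ∈ Cube.boundary (Fin d),
        (Fin.cons u x : Fin (d + 1) → I) ∈ Cube.boundary (Fin (d + 1)) := by
      rintro u x ⟨i, hi⟩
      exact ⟨i.succ, hi⟩
    have htlc : ∀ (u : I) (x : Fin d → I), tl (Fin.cons u x) = x := fun u x => rfl
    have hM0 : ∀ x : Fin d → I, M (Fin.cons 0 x) = p (g x) := by
      intro x
      rw [hMk _ (hb0 x), hk1 _ rfl, htlc]
    have hM1 : ∀ x : Fin d → I, M (Fin.cons 1 x) = b0 := by
      intro x
      rw [hMk _ (hb1 x), hk2 _ (Or.inl rfl)]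
    have hMK : ∀ (u : I), ∀ x ∈ Cube.boundary (Fin d), M (Fin.cons u x) = b0 := by
      intro u x hx
      rw [hMk _ (hbK u x hx), hk2 _ (Or.inr hx)]
    let m0 : (Fin d → I) → PB p M := fun x => ⟨(Fin.cons 0 x, g x), hM0 x⟩
    have hcons : Continuous (fun z : (Fin d → I) × I => (Fin.cons z.2 z.1 : Fin (d + 1) → I)) := by
      refine continuous_pi fun i => ?_
      refine Fin.cases ?_ (fun j => ?_) i
      · exact continuous_snd
      · exact (continuous_apply j).comp continuous_fst
    have hm0 : Continuous m0 := by
      refine Continuous.subtype_mk ?_ _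
      exact (hcons.comp (continuous_id.prodMk continuous_const)).prodMk hg
    obtain ⟨t, s, hts⟩ := bundle_cube_trivial (hp.pullback hM ⟨m0 (fun _ => 0)⟩)
    have htc : Continuous t := by
      have h1 := hts.ct
      rw [preimage_univ, continuousOn_univ] at h1
      exact h1
    have hsc : Continuous s := by
      have h1 := hts.cs
      rw [univ_prod_univ, continuousOn_univ] at h1
      exact h1
    let h : (Fin d → I) × I → E := fun z => (s (Fin.cons z.2 z.1, t (m0 z.1))).1.2
    have hh : Continuous h :=
      continuous_snd.comp (continuous_subtype_val.comp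
        (hsc.comp (hcons.prodMk (htc.comp (hm0.comp continuous_fst)))))
    have hph : ∀ x u, p (h (x, u)) = M (Fin.cons u x) := by
      intro x u
      have h1 := (s (Fin.cons u x, t (m0 x))).2
      have h2 : (s (Fin.cons u x, t (m0 x))).1.1 = Fin.cons u x :=
        hts.ps (Fin.cons u x) (mem_univ _) (t (m0 x))
      rw [h2] at h1
      exact h1.symm
    have hh0 : ∀ x, h (x, 0) = g x := by
      intro x
      have h1 := hts.st (m0 x) (mem_univ _)
      have h2 : pbProj p M (m0 x) = Fin.cons 0 x := rfl
      rw [h2] at h1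
      show (s (Fin.cons 0 x, t (m0 x))).1.2 = g x
      rw [h1]
    obtain ⟨G, hG, hGh, hGr⟩ := collar h hh.continuousOn (fun x => h (x, 1))
      (hh.comp (continuous_id.prodMk continuous_const)) (fun x _ => rfl)
    refine ⟨G, hG, fun x => ?_, fun x hx => ?_⟩
    · show p (G x) = b0
      rcases hGr x with ⟨y, hy⟩ | ⟨z, hz, u, hu⟩
      · rw [← hy]
        show p (h (y, 1)) = b0
        rw [hph, hM1]
      · rw [hu, hph, hMK u z hz]
    · rw [hGh x hx, hh0, hgf x hx]
  -- the fibre is homeomorphic to `F`
  obtain ⟨U, hU, t, s, hts⟩ := hp.2 b0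
  have hbU : b0 ∈ U := mem_of_mem_nhds hU
  let e : (p ⁻¹' {b0} : Set E) ≃ₜ F :=
    { toFun := fun e => t e.1
      invFun := fun f => ⟨s (b0, f), hts.ps b0 hbU f⟩
      left_inv := fun e => by
        apply Subtype.ext
        have h1 : p e.1 = b0 := e.2
        have h2 := hts.st e.1 (by rw [h1]; exact hbU)
        rw [h1] at h2
        exact h2
      right_inv := fun f => hts.ts b0 hbU f
      continuous_toFun := by
        refine hts.ct.comp_continuous continuous_subtype_val fun e => ?_
        have h1 : p e.1 = b0 := e.2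
        show p e.1 ∈ U
        rw [h1]
        exact hbU
      continuous_invFun := by
        refine Continuous.subtype_mk ?_ _
        exact hts.cs.comp_continuous (continuous_const.prodMk continuous_id)
          (fun f => ⟨hbU, mem_univ _⟩) }
  exact ext_homeo e key

end ASP87
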