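import Pool.Agent.ASP87.TForget
import Pool.Agent.ASP87.OPWc
import Pool.Agent.ASP87.LogCov
import Pool.Agent.ASP87.Fib

/-!
# ASP87/TConfA: configuration spaces of the plane are aspherical

Induction on the finite type `B` (`Finite.induction_empty_option`): equivalent types give homeomorphic `Conf`;
`Conf PEmpty` is one point (`ext_contractible`). Step `Conf (Option B)`: `S : Sys (Option B) Empty` with
`ne a b := a <> b` (`src`, `tgt`, `wt` by `Empty.elim`); `GS S univ` is homeomorphic to `Conf (Option B)`
(`z |-> (z, Empty.elim)`). `p = forget S some _`: `forget_loctriv`. Fibre over `b`: homeomorphic to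
`{c : C // forall i, c <> b i}` (`z none = c`); its `LogE` with `f i c = c - b i` is homeomorphic to
`YP b (fun _ => 0)` (`bw 0 s = exp s`; in `YP` the condition gives `c - b i = exp (s i) <> 0`), so it is aspherical by
`asph_YP`, `asph_log`. `ext_total` with the induction hypothesis for the base: `Asph` of the total space.
(`asph_YP` wants `DecidableEq`: `classical`.)
-/

namespace ASP87

open Complex Topology Set

private theorem tca_empty : Asph (Conf PEmpty.{1}) := by
  intro d _ f _
  have hs : ∀ a b : Conf PEmpty.{1}, a = b := fun a b => Subtype.ext (funext fun i => i.elim)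
  exact ⟨fun _ => ⟨fun i => i.elim, fun i => i.elim⟩, continuous_const, fun x _ => hs _ _⟩

private theorem tca_equiv {α β : Type} (e : α ≃ β) (h : Asph (Conf α)) : Asph (Conf β) := by
  intro d hd
  refine ext_retract (X := Conf α) (Y := Conf β)
    (fun b => ⟨fun a => b.1 (e a), b.2.comp e.injective⟩) ?_
    (fun a => ⟨fun b => a.1 (e.symm b), a.2.comp e.symm.injective⟩) ?_ ?_ (h d hd)
  · refine Continuous.subtype_mk (continuous_pi fun a => ?_) _
    have h1 : Continuous fun b : β → ℂ => b (e a) := continuous_apply (e a)
    exact h1.comp continuous_subtype_val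
  · refine Continuous.subtype_mk (continuous_pi fun b => ?_) _
    have h1 : Continuous fun a : α → ℂ => a (e.symm b) := continuous_apply (e.symm b)
    exact h1.comp continuous_subtype_val
  · intro b
    apply Subtype.ext
    funext x
    show b.1 (e (e.symm x)) = b.1 x
    rw [e.apply_symm_apply]

private def tcaS (α : Type) : Sys (Option α) Empty where
  src := Empty.elim
  tgt := Empty.elim
  wt := Empty.elim
  ne := fun a b => a ≠ b

private theorem tca_hj (α : Type) : ∀ b b' : α, b ≠ b' → (tcaS α).ne (some b) (some b') :=
  fun _ _ h h' => h (Option.some_injective _ h')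

private theorem tca_log {α : Type} [Fintype α] (b0 : Conf α) :
    Asph {c : ℂ // ∀ i, c ≠ b0.1 i} := by
  classical
  have h1 : Asph (YP b0.1 (fun _ => 0)) := asph_YP b0.2 _
  let f : α → {c : ℂ // ∀ i, c ≠ b0.1 i} → ℂ := fun i c => c.1 - b0.1 i
  have hbw : ∀ s : ℂ, bw 0 s = exp s := fun s => if_pos rfl
  have hz : ∀ z : LogE f, ((z.1.1.1, z.1.2) : ℂ × (α → ℂ)) ∈ YP b0.1 (fun _ => 0) := by
    intro z i
    show bw 0 (z.1.2 i) = z.1.1.1 - b0.1 i
    rw [hbw]
    exact z.2 i
  have hy : ∀ y : YP b0.1 (fun _ => 0), ∀ i, exp (y.1.2 i) = y.1.1 - b0.1 i := by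
    intro y i
    rw [← hbw]
    exact y.2 i
  have hy' : ∀ y : YP b0.1 (fun _ => 0), ∀ i, y.1.1 ≠ b0.1 i := by
    intro y i h
    have h3 := hy y i
    rw [h, sub_self] at h3
    exact exp_ne_zero _ h3
  have h2 : Asph (LogE f) := by
    intro d hd
    refine ext_retract (X := YP b0.1 (fun _ => 0)) (Y := LogE f)
      (fun z => ⟨(z.1.1.1, z.1.2), hz z⟩) ?_
      (fun y => ⟨(⟨y.1.1, hy' y⟩, y.1.2), hy y⟩) ?_ (fun z => rfl) (h1 d hd)
    · exact Continuous.subtype_mk ((continuous_subtype_val.comp
        (continuous_fst.comp continuous_subtype_val)).prodMk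
        (continuous_snd.comp continuous_subtype_val)) _
    · exact Continuous.subtype_mk ((Continuous.subtype_mk
        (continuous_fst.comp continuous_subtype_val) _).prodMk
        (continuous_snd.comp continuous_subtype_val)) _
  exact asph_log f (fun i => continuous_subtype_val.sub continuous_const)
    (fun i c => sub_ne_zero.2 (c.2 i)) h2

private theorem tca_fib {α : Type} [Fintype α] (b0 : Conf α) :
    Asph (forget (tcaS α) some (tca_hj α) ⁻¹' {b0}) := by
  have h2 := tca_log b0
  have hval : ∀ y : (forget (tcaS α) some (tca_hj α) ⁻¹' {b0}), ∀ i,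
      y.1.1.1 (some i) = b0.1 i := fun y i => congrFun (congrArg Subtype.val y.2) i
  have hne : ∀ y : (forget (tcaS α) some (tca_hj α) ⁻¹' {b0}), ∀ i,
      y.1.1.1 none ≠ b0.1 i := by
    intro y i h
    rw [← hval y i] at h
    exact y.1.2.2.2 none (some i) (by simp [tcaS]) h
  have hmem : ∀ c : {c : ℂ // ∀ i, c ≠ b0.1 i},
      (((fun o : Option α => o.elim c.1 b0.1), fun r : Empty => r.elim) :
        (Option α → ℂ) × (Empty → ℂ)) ∈ GS (tcaS α) univ := by
    intro c
    refine ⟨fun _ => trivial, fun r => r.elim, ?_⟩
    intro a b hab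
    have hab' : a ≠ b := hab
    cases a with
    | none =>
      cases b with
      | none => exact absurd rfl hab'
      | some j => exact c.2 j
    | some i =>
      cases b with
      | none => exact (c.2 i).symm
      | some j =>
        intro h
        exact hab' (congrArg some (b0.2 h))
  intro d hd
  refine ext_retract (X := {c : ℂ // ∀ i, c ≠ b0.1 i})
    (Y := (forget (tcaS α) some (tca_hj α) ⁻¹' {b0}))
    (fun y => ⟨y.1.1.1 none, hne y⟩) ?_
    (fun c => ⟨⟨_, hmem c⟩, Subtype.ext (funext fun i => rfl)⟩) ?_ ?_ (h2 d hd)
  · exact Continuous.subtype_mk ((continuous_apply none).comp (continuous_fst.comp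
      (continuous_subtype_val.comp continuous_subtype_val))) _
  · refine Continuous.subtype_mk (Continuous.subtype_mk (Continuous.prodMk ?_
      continuous_const) _) _
    refine continuous_pi fun o => ?_
    cases o with
    | none => exact continuous_subtype_val
    | some i => exact continuous_const
  · intro y
    apply Subtype.ext
    apply Subtype.ext
    refine Prod.ext (funext fun o => ?_) (funext fun r => r.elim)
    cases o with
    | none => rfl
    | some i => exact (hval y i).symm

private theorem tca_option {α : Type} [Fintype α] (h : Asph (Conf α)) :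
    Asph (Conf (Option α)) := by
  intro d hd
  obtain ⟨b0⟩ : Nonempty (Conf α) := (conf_pc α).nonempty
  have h1 := ext_total (forget_loctriv (tcaS α) some (tca_hj α) b0) (h d hd)
    (tca_fib b0 d hd)
  refine ext_retract (X := GS (tcaS α) univ) (Y := Conf (Option α))
    (fun z => ⟨(z.1, fun r => r.elim), ⟨fun _ => trivial, fun r => r.elim,
      fun a b hab hz => hab (z.2 hz)⟩⟩) ?_
    (fun y => ⟨y.1.1, fun a b hab => by
      by_contra hne
      exact y.2.2.2 a b hne hab⟩) ?_ (fun z => rfl) h1
  · exact Continuous.subtype_mk (continuous_subtype_val.prodMk continuous_const) _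
  · exact Continuous.subtype_mk (continuous_fst.comp continuous_subtype_val) _

theorem asph_conf (B : Type) [Finite B] : Asph (Conf B) := by
  exact Finite.induction_empty_option (P := fun α : Type => Asph (Conf α))
    (fun e h => tca_equiv e h) tca_empty (fun h => tca_option h) B

end ASP87
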