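import Pool.Agent.ASP87.FFib0
import Pool.Agent.ASP87.FFib1
import Pool.Agent.ASP87.FFib2
import Pool.Agent.ASP87.TConfA

/-!
# ASP87/FXSk: at most two cone points, any number of particles

* `asph_K`: `k <= 2`: `GS (SK n k l m) univ` is aspherical: `forget .. jxd` is locally trivial
  (`forget_loctriv` at any `b0`; `Conf (Fin n + Fin l)` is nonempty by `conf_pc`) with aspherical fibre
  (`fib_asph0/1/2`, cases `k = 0, 1, 2`) and aspherical base (`asph_conf`): `ext_total`.
* `asph_XS_k`: `k <= 2`: `forget .. inr` is locally trivial with fibre over `(c, d)` homeomorphic to `XS c m d`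
  (`XS_homeo`): `ext_fibre` (`Ext (d+1)` of the base from `asph_conf`, `Ext d` of the total space), `ext_homeo`.
-/

namespace ASP87

open Complex Topology Set

theorem asph_K {n k l : ℕ} (m : Fin k → ℕ) (hm : ∀ j, 2 ≤ m j) (hk : k ≤ 2) :
    Asph (GS (SK n k l m) univ) := by
  obtain ⟨b0⟩ : Nonempty (Conf (Fin n ⊕ Fin l)) := inferInstance
  have hp := forget_loctriv (SK n k l m) jxd neK_jxd b0
  intro e he
  refine ext_total hp (asph_conf (Fin n ⊕ Fin l) e he) ?_
  interval_cases k
  · exact fib_asph0 m b0 e he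
  · exact fib_asph1 m b0 e he
  · exact fib_asph2 m hm b0 e he

theorem asph_XS_k {n k l : ℕ} {c : Fin k → ℂ} {m : Fin k → ℕ} {d : Fin l → ℂ}
    (hm : ∀ j, 2 ≤ m j) (hcd : Function.Injective (Sum.elim c d)) (hk : k ≤ 2) :
    Asph (XS (n := n) c m d) := by
  let b0 : Conf (Fin k ⊕ Fin l) := ⟨Sum.elim c d, hcd⟩
  have hp := forget_loctriv (SK n k l m) (fun b => Sum.inr b) neK_inr b0
  obtain ⟨E⟩ := XS_homeo (n := n) (fun j => by have := hm j; omega : ∀ j, m j ≠ 0) hcd
  intro e he
  refine ext_homeo E.symm ?_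
  exact ext_fibre hp b0 (asph_conf (Fin k ⊕ Fin l) (e + 1) (by omega)) (asph_K m hm hk e he)

end ASP87
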