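import Pool.Agent.ASP87.Cov

/-!
# ASP87/GCell: cells and their lifts to a covering

`GCell U L`: `U` open in `Y`, the label `L` is locally constant on `U`, and every set
`{y' in U : L y' = L y}` (`y in U`) is weakly contractible (hence path connected, simply connected).
Let `p : Z -> Y` be a covering map. `JoinedIn (p^-1 U) z z'` = same path component of the preimage.

* `cell_lab`: along a path in `p^-1 U`, `L o p` is locally constant, hence constant (the interval is
  preconnected).
* `cell_sheet`: let `g` be a path in `p^-1 U` from `z` to `z'`, `p z = p z'`. `p o g` is a loop in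
  `K = {y' in U : L y' = L (p z)}` (by `cell_lab`), `K` simply connected (`wc_simplyConnected`), so
  `p o g` is homotopic rel end points to the constant path in `K`, hence in `Y`. `g` and the constant
  path at `z` are lifts of homotopic paths with the same start, so they have the same end
  (`IsCoveringMap.liftPath_apply_one_eq_of_homotopicRel` or `monodromy_theorem`, Mathlib
  Topology/Homotopy/Lifting.lean): `z' = z`.
* `cell_move`: `K` is path connected; take a path in `K` from `p z` to `y` and lift it from `z`.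
* `cell_Q`: `z, z'` joined over `U`, both over `U'` (a subset of `U`, with its own label `L'`), equal
  `L'` labels: by `cell_move` for `U'` there is `z''` joined to `z` over `U'`, `p z'' = p z'`; then
  `z''` and `z'` are joined over `U`, so equal by `cell_sheet`.
* `cell_wc`: `C = {z' : JoinedIn (p^-1 U) z z'}` is WC. Nonempty. `Ext d`: `d = 0` is `ext_zero`. Let
  `d >= 1`, `f` continuous on the boundary `B` of the cube with values in `C` (use `ext_of_set`).
  `p o f` has values in `K`, extend it to `g : cube -> K` (`ext_set`). Lift `g` to `g' : cube -> Z` with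
  `g' 0 = f 0` (`0` is in `B`; the cube is simply connected and locally path connected,
  `Pool.Agent.H85.Cube`). All values of `g'` are joined to `g' 0 = f 0` over `U`. For `x in B`, `g' x` and
  `f x` are both in `C` and have the same image, so they are equal by `cell_sheet`.
* `cell_lift`: a continuous map from a simply connected locally path connected space `A` into `Y` lifts
  (Mathlib `IsCoveringMap.existsUnique_continuousMap_lifts`), not needed here.
-/

namespace ASP87

open scoped unitInterval Topology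
open Set

structure GCell {Y α : Type*} [TopologicalSpace Y] (U : Set Y) (L : Y → α) : Prop where
  op : IsOpen U
  lc : ∀ y ∈ U, ∀ᶠ y' in 𝓝 y, L y' = L y
  wc : ∀ y ∈ U, WC {y' : Y | y' ∈ U ∧ L y' = L y}

variable {Y Z α β : Type*} [TopologicalSpace Y] [TopologicalSpace Z] {p : Z → Y} {U U' : Set Y}
  {L : Y → α} {L' : Y → β}

private theorem lab_const {A : Type*} [TopologicalSpace A] [PreconnectedSpace A]
    (h : GCell U L) {g : A → Y} (hg : Continuous g) (hU : ∀ a, g a ∈ U) (a b : A) :
    L (g a) = L (g b) := by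
  have h1 : IsLocallyConstant (fun a => L (g a)) := by
    rw [IsLocallyConstant.iff_eventually_eq]
    intro x
    exact hg.continuousAt.eventually (h.lc (g x) (hU x))
  exact h1.apply_eq_of_preconnectedSpace a b

theorem cell_lab (hp : IsCoveringMap p) (h : GCell U L) {z z' : Z}
    (hz : JoinedIn (p ⁻¹' U) z z') : L (p z') = L (p z) := by
  obtain ⟨γ, hγ⟩ := hz
  have h1 := lab_const h (g := fun t : I => p (γ t)) (hp.continuous.comp γ.continuous) hγ 1 0
  simpa using h1

private theorem mem_cell (h : GCell U L) {y : Y} (hy : y ∈ U) :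
    SimplyConnectedSpace {y' : Y | y' ∈ U ∧ L y' = L y} :=
  wc_simplyConnected (h.wc y hy)

theorem cell_sheet (hp : IsCoveringMap p) (h : GCell U L) {z z' : Z}
    (hz : JoinedIn (p ⁻¹' U) z z') (he : p z = p z') : z = z' := by
  obtain ⟨γ, hγ⟩ := hz
  have hzU : p z ∈ U := by
    have := hγ 0
    rwa [γ.source] at this
  have hsc := mem_cell h hzU
  have hK : ∀ t, p (γ t) ∈ {y' : Y | y' ∈ U ∧ L y' = L (p z)} := by
    intro t
    refine ⟨hγ t, ?_⟩
    have h1 := lab_const h (g := fun t : I => p (γ t)) (hp.continuous.comp γ.continuous) hγ t 0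
    simpa using h1
  let x0 : {y' : Y | y' ∈ U ∧ L y' = L (p z)} := ⟨p z, hzU, rfl⟩
  let δ : Path x0 x0 :=
    { toFun := fun t => ⟨p (γ t), hK t⟩
      continuous_toFun := (hp.continuous.comp γ.continuous).subtype_mk _
      source' := by
        apply Subtype.ext
        show p (γ 0) = p z
        rw [γ.source]
      target' := by
        apply Subtype.ext
        show p (γ 1) = p z
        rw [γ.target, he] }
  obtain ⟨F⟩ := SimplyConnectedSpace.paths_homotopic δ (Path.refl x0)
  have hcomp : (ContinuousMap.comp ⟨p, hp.continuous⟩ γ.toContinuousMap).HomotopicRel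
      (ContinuousMap.comp ⟨p, hp.continuous⟩ (ContinuousMap.const I z)) {0, 1} :=
    ⟨ContinuousMap.HomotopyRel.compContinuousMap F ⟨Subtype.val, continuous_subtype_val⟩⟩
  obtain ⟨G⟩ := (hp.homotopicRel_iff_comp (f₀ := γ.toContinuousMap)
    (f₁ := ContinuousMap.const I z) (S := {0, 1}) ⟨0, Or.inl rfl, γ.source⟩).mpr hcomp
  have e1 := G.eq_fst 0 (show (1 : I) ∈ ({0, 1} : Set I) from Or.inr rfl)
  have e2 := G.eq_snd 0 (show (1 : I) ∈ ({0, 1} : Set I) from Or.inr rfl)
  have e3 : γ 1 = z := e1.symm.trans e2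
  rw [γ.target] at e3
  exact e3.symm

theorem cell_move (hp : IsCoveringMap p) (h : GCell U L) {z : Z} {y : Y} (hz : p z ∈ U)
    (hy : y ∈ U) (hL : L y = L (p z)) : ∃ z', JoinedIn (p ⁻¹' U) z z' ∧ p z' = y := by
  have hsc := mem_cell h hz
  obtain ⟨δ⟩ := PathConnectedSpace.joined
    (⟨p z, hz, rfl⟩ : {y' : Y | y' ∈ U ∧ L y' = L (p z)}) ⟨y, hy, hL⟩
  obtain ⟨Γ, hΓ, hΓ0⟩ := hp.exists_path_lifts
    ((⟨Subtype.val, continuous_subtype_val⟩ : C({y' : Y | y' ∈ U ∧ L y' = L (p z)}, Y)).comp
      δ.toContinuousMap) z (by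
        show ((δ 0 : {y' : Y | y' ∈ U ∧ L y' = L (p z)}) : Y) = p z
        rw [δ.source])
  have hv : ∀ t, p (Γ t) = (δ t : Y) := fun t => congrFun hΓ t
  refine ⟨Γ 1, ⟨⟨Γ, hΓ0, rfl⟩, fun t => ?_⟩, ?_⟩
  · show p (Γ t) ∈ U
    rw [hv]
    exact (δ t).2.1
  · rw [hv, δ.target]

theorem cell_Q (hp : IsCoveringMap p) (h : GCell U L) (h' : GCell U' L') (hU : U' ⊆ U)
    {z z' : Z} (hz : JoinedIn (p ⁻¹' U) z z') (hz1 : p z ∈ U') (hz2 : p z' ∈ U')
    (hL : L' (p z) = L' (p z')) : JoinedIn (p ⁻¹' U') z z' := by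
  obtain ⟨z'', hz'', he⟩ := cell_move hp h' hz1 hz2 hL.symm
  have h1 : JoinedIn (p ⁻¹' U) z'' z' :=
    (hz''.mono (preimage_mono hU)).symm.trans hz
  rw [← cell_sheet hp h h1 he]
  exact hz''

theorem cell_wc (hp : IsCoveringMap p) (h : GCell U L) {z : Z} (hz : p z ∈ U) :
    WC {z' : Z | JoinedIn (p ⁻¹' U) z z'} := by
  refine ⟨⟨⟨z, JoinedIn.refl hz⟩⟩, fun d => ?_⟩
  rcases Nat.eq_zero_or_pos d with rfl | hd
  · exact ext_zero _
  refine ext_of_set fun f hf hfC => ?_
  have ha : (fun _ => 0 : Fin d → I) ∈ Cube.boundary (Fin d) := ⟨⟨0, hd⟩, Or.inl rfl⟩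
  have hK : ∀ x ∈ Cube.boundary (Fin d), p (f x) ∈ {y' : Y | y' ∈ U ∧ L y' = L (p z)} := by
    intro x hx
    exact ⟨(hfC x hx).target_mem, cell_lab hp h (hfC x hx)⟩
  obtain ⟨g, hg, hgK, hgf⟩ := ext_set (s := {y' : Y | y' ∈ U ∧ L y' = L (p z)}) ⟨p z, hz, rfl⟩
    ((h.wc _ hz).2 d) (fun x => p (f x)) (hp.continuous.comp_continuousOn hf) hK
  have i1 := Pool.Agent.H85.Cube.lpc_cube d
  have i2 := Pool.Agent.H85.Cube.contractible_cube d
  obtain ⟨G, ⟨hG1, hG2⟩, -⟩ := hp.existsUnique_continuousMap_lifts ⟨g, hg⟩ (fun _ => 0)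
    (f (fun _ => 0)) (hgf _ ha).symm
  have hG : ∀ x, p (G x) = g x := fun x => congrFun hG2 x
  have hGC : ∀ x, JoinedIn (p ⁻¹' U) z (G x) := by
    intro x
    refine (hfC _ ha).trans ?_
    obtain ⟨γ⟩ := PathConnectedSpace.joined (fun _ => 0 : Fin d → I) x
    refine ⟨⟨⟨fun t => G (γ t), G.continuous.comp γ.continuous⟩, ?_, ?_⟩, fun t => ?_⟩
    · show G (γ 0) = f (fun _ => 0)
      rw [γ.source, hG1]
    · show G (γ 1) = G x
      rw [γ.target]
    · show p (G (γ t)) ∈ U
      rw [hG]
      exact (hgK _).1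
  refine ⟨G, G.continuous, hGC, fun x hx => ?_⟩
  refine cell_sheet hp h ((hGC x).symm.trans (hfC x hx)) ?_
  rw [hG, hgf x hx]

end ASP87
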