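import Pool.Agent.ASP87.LineTree
import Pool.Agent.ASP87.Walk

/-!
# ASP87/TPP: the abstract poset of lifted states of two particles

State `(none, none)`: both particles in the centre; `some i`: in petal `i`. See the note of helper87
(MP_a2c37e_gt, 11:15): `k1 v m`, `k2 v m` labels, `K1`, `K2` times (directions), `phi i` component in the
one-special-point system, `A i xi` line of `xi` in the acyclic graph `G i`, `L1 i x`, `L2 i x` vertices.

* `cl4`: two elements of `X i` whose lines agree at two different times are equal: `line_eq` gives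
  agreement at `k` and `k + 1` (for `k < k'`), then `A6inj`.
* `cl4'`: form used below: `a, a' <= u` and `a, a' <= u'` with times `K u <> K u'` of particle 1 (resp. 2).
* `rk v` = number of `some` in the state; strictly monotone: if `v < w` then `st v <> st w` (strict) and
  `StLe`, so the number of `some` increases; at most 2.
* `minst`: rank 0 below: an element with state `(none,none)` has nothing strictly below it.
-/

namespace ASP87

/-- states -/
abbrev St (ι : Type*) := Option ι × Option ι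

def StLe {ι : Type*} (s t : St ι) : Prop := (s.1 = none ∨ s.1 = t.1) ∧ (s.2 = none ∨ s.2 = t.2)

structure TPP {ι V : Type*} [PartialOrder V] (X T : ι → Type*) (st : V → St ι)
    (k1 k2 : V → ι → ℂ) (K1 K2 : V → ℤ) (phi : ∀ i, V → X i) (G : ∀ i, SimpleGraph (T i))
    (A : ∀ i, X i → ℤ → T i) (L1 L2 : ∀ i, V → T i) : Prop where
  mono : ∀ v w, v ≤ w → StLe (st v) (st w)
  strict : ∀ v w, v ≤ w → st v = st w → v = w
  k1mono : ∀ v w, v ≤ w → ∀ m, (st w).1 ≠ some m → k1 v m = k1 w m
  k2mono : ∀ v w, v ≤ w → ∀ m, (st w).2 ≠ some m → k2 v m = k2 w m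
  K1mono : ∀ v w i, v ≤ w → (st v).1 = some i → (st v).2 ≠ some i → (st w).2 ≠ some i →
    K1 v = K1 w
  K2mono : ∀ v w i, v ≤ w → (st v).2 = some i → (st v).1 ≠ some i → (st w).1 ≠ some i →
    K2 v = K2 w
  K1odd : ∀ v i, (st v).1 = some i → (st v).2 ≠ some i → Odd (K1 v)
  K2even : ∀ v i, (st v).2 = some i → (st v).1 ≠ some i → Even (K2 v)
  A1a : ∀ v u i j, v ≤ u → st v = (none, none) → st u = (some i, some j) → i ≠ j →
    ∃ w, v ≤ w ∧ w ≤ u ∧ st w = (some i, none)
  A1b : ∀ v u i j, v ≤ u → st v = (none, none) → st u = (some i, some j) → i ≠ j →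
    ∃ w, v ≤ w ∧ w ≤ u ∧ st w = (none, some j)
  A2a : ∀ v w w' i, v ≤ w → v ≤ w' → st w = (some i, none) → st w' = (some i, none) →
    K1 w = K1 w' → w = w'
  A2b : ∀ v w w' j, v ≤ w → v ≤ w' → st w = (none, some j) → st w' = (none, some j) →
    K2 w = K2 w' → w = w'
  A2c : ∀ v w w' i j, v ≤ w → v ≤ w' → st w = (some i, some j) → st w' = (some i, some j) →
    i ≠ j → K1 w = K1 w' → w = w'
  A2d : ∀ v w w' i, v ≤ w → v ≤ w' → st v ≠ (some i, some i) → st w = (some i, some i) →
    st w' = (some i, some i) → w = w'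
  A3 : ∀ v i, (st v = (none, none) ∨ st v = (some i, none) ∨ st v = (none, some i)) →
    ∃ u, v ≤ u ∧ st u = (some i, some i)
  A4 : ∀ v v' u, v ≤ u → v' ≤ u → st v = st v' → (∀ i, st u ≠ (some i, some i)) →
    (∀ i, (st u).1 = some i → (st v).1 = none → k1 v i = k1 v' i) →
    (∀ j, (st u).2 = some j → (st v).2 = none → k2 v j = k2 v' j) → v = v'
  A5a : ∀ v v' x i, v ≤ x → v' ≤ x → st v = (none, none) → st v' = (none, none) →
    (st x).1 ≠ some i → (st x).2 ≠ some i → phi i v = phi i v'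
  A5b : ∀ v v' u i, v ≤ u → v' ≤ u → st v = (none, none) → st v' = (none, none) →
    st u = (some i, some i) → phi i v = phi i v' → v = v'
  A5c : ∀ v v' i, st v = (none, none) → st v' = (none, none) → phi i v = phi i v' →
    k1 v i = k1 v' i ∧ k2 v i = k2 v' i
  acyc : ∀ i, (G i).IsAcyclic
  line : ∀ i xi, IsLine (G i) (A i xi)
  A6inj : ∀ i xi xi' k, A i xi k = A i xi' k → A i xi (k + 1) = A i xi' (k + 1) → xi = xi'
  A6a : ∀ v x i, v ≤ x → st v = (none, none) → (st x).1 = some i → (st x).2 ≠ some i →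
    A i (phi i v) (K1 x) = L1 i x
  A6b : ∀ v x i, v ≤ x → st v = (none, none) → (st x).2 = some i → (st x).1 ≠ some i →
    A i (phi i v) (K2 x) = L2 i x
  A7 : ∀ u u' i j, st u = (some i, some j) → st u' = (some i, some j) → i ≠ j →
    (K1 u = K1 u' ↔ K2 u = K2 u')

variable {ι V : Type*} [PartialOrder V] {X T : ι → Type*} {st : V → St ι}
  {k1 k2 : V → ι → ℂ} {K1 K2 : V → ℤ} {phi : ∀ i, V → X i} {G : ∀ i, SimpleGraph (T i)}
  {A : ∀ i, X i → ℤ → T i} {L1 L2 : ∀ i, V → T i}

theorem TPP.cl4 (h : TPP X T st k1 k2 K1 K2 phi G A L1 L2) (i : ι) {xi xi' : X i} {k k' : ℤ}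
    (hk : k ≠ k') (h1 : A i xi k = A i xi' k) (h2 : A i xi k' = A i xi' k') : xi = xi' := by
  rcases lt_or_gt_of_ne hk with hlt | hlt
  · exact h.A6inj i xi xi' k h1
      (line_eq (h.acyc i) (h.line i xi) (h.line i xi') hlt h1 h2 (k + 1) (by omega) (by omega))
  · exact h.A6inj i xi xi' k' h2
      (line_eq (h.acyc i) (h.line i xi) (h.line i xi') hlt h2 h1 (k' + 1) (by omega) (by omega))

/-- rank of a state -/
def rkS {ι : Type*} (s : St ι) : ℕ := (if s.1.isSome then 1 else 0) + if s.2.isSome then 1 else 0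

theorem TPP.rk_strictMono (h : TPP X T st k1 k2 K1 K2 phi G A L1 L2) :
    StrictMono (fun v => rkS (st v)) := by
  intro v w hvw
  have h1 := h.mono v w hvw.le
  have h2 : st v ≠ st w := fun hh => hvw.ne (h.strict v w hvw.le hh)
  obtain ⟨h3, h4⟩ := h1
  show rkS (st v) < rkS (st w)
  generalize st v = s at *
  generalize st w = t at *
  obtain ⟨s1, s2⟩ := s
  obtain ⟨t1, t2⟩ := t
  simp only at h3 h4
  unfold rkS
  rcases h3 with h3 | h3 <;> rcases h4 with h4 | h4 <;> subst h3 <;> subst h4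
  · cases t1 <;> cases t2 <;> simp at h2 ⊢
  · cases t1 <;> cases s2 <;> simp at h2 ⊢
  · cases s1 <;> cases t2 <;> simp at h2 ⊢
  · exact absurd rfl h2

theorem rkS_le {ι : Type*} (s : St ι) : rkS s ≤ 2 := by
  unfold rkS
  split_ifs <;> omega

/-- two elements of state `(none,none)` below `u, u'` with different times of particle 1 in petal `i`
have the same image in the one-point system -/
theorem TPP.cl4a (h : TPP X T st k1 k2 K1 K2 phi G A L1 L2) {a a' u u' : V} {i : ι}
    (ha : st a = (none, none)) (ha' : st a' = (none, none)) (h1 : a ≤ u) (h2 : a ≤ u')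
    (h3 : a' ≤ u) (h4 : a' ≤ u') (hu : (st u).1 = some i) (hu2 : (st u).2 ≠ some i)
    (hu' : (st u').1 = some i) (hu2' : (st u').2 ≠ some i) (hK : K1 u ≠ K1 u') :
    phi i a = phi i a' := by
  refine h.cl4 i hK ?_ ?_
  · exact (h.A6a a u i h1 ha hu hu2).trans (h.A6a a' u i h3 ha' hu hu2).symm
  · exact (h.A6a a u' i h2 ha hu' hu2').trans (h.A6a a' u' i h4 ha' hu' hu2').symm

theorem TPP.cl4b (h : TPP X T st k1 k2 K1 K2 phi G A L1 L2) {a a' u u' : V} {i : ι}
    (ha : st a = (none, none)) (ha' : st a' = (none, none)) (h1 : a ≤ u) (h2 : a ≤ u')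
    (h3 : a' ≤ u) (h4 : a' ≤ u') (hu : (st u).2 = some i) (hu2 : (st u).1 ≠ some i)
    (hu' : (st u').2 = some i) (hu2' : (st u').1 ≠ some i) (hK : K2 u ≠ K2 u') :
    phi i a = phi i a' := by
  refine h.cl4 i hK ?_ ?_
  · exact (h.A6b a u i h1 ha hu hu2).trans (h.A6b a' u i h3 ha' hu hu2).symm
  · exact (h.A6b a u' i h2 ha hu' hu2').trans (h.A6b a' u' i h4 ha' hu' hu2').symm

end ASP87
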