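import Pool.Agent.ASP87.Root
import Pool.Agent.ASP87.TPP

/-!
# ASP87/Geo: the geometry of the disc with caps

Directions `e i` (unit vectors), radii `0 < r0 < r1 < r2 < 1`, `|e i + e j| <= 2 r0` for `i <> j`. Special
points `x i = r2 e i`, depth `d i z = Re (conj (e i) z)`. `inR o rho z`: at level `rho` the point `z` is in
petal `i` (`o = some i`: `rho < d i z`) or in the centre (`o = none`: `d i z < rho` for all `i`).
`U s` = pairs of points of the unit disc which have state `s` at some level `rho` in `(r0, r1)`.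

* `d_x`: `d i (x i) = r2 |e i|^2 = r2`. `d` is real linear and continuous, `|d i z| <= |z|`.
* `disj`: if `|z| < 1`, `r0 < d i z`, `m <> i`, then `d m z <= r0`: otherwise
  `2 r0 < d i z + d m z = Re (conj (e i + e m) z) <= |e i + e m| |z| <= 2 r0`.
* `half`: `Re (conj (e m) (x m - c)) = r2 - d m c`.
* `U_open`: for fixed `rho` the conditions are open (finitely many `i`), union over `rho`.
* `U_convex`: if `(c1, c2)` has state `s` at level `rho` and `(c1', c2')` at level `rho'`, the convex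
  combination has state `s` at level `(1-t) rho + t rho'` (all conditions are linear in `(c, rho)`).
* `U_cover` (finite index type): choose `rho` in `(r0, r1)` different from the finitely many numbers
  `d i c1`, `d i c2`. If `rho < d i c1` for some `i` take `s.1 = some i`, otherwise `none`.
* `U_chain`: if `(c1,c2)` has state `s` at `rho` and `t` at `rho'` with `rho' <= rho`, then `StLe s t`: if
  `s.1 = some i` then `rho' <= rho < d i c1`, so `t.1` is not `none`, and `t.1 = some j` gives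
  `r0 < rho' < d j c1`, so `j = i` by `disj`.
* `U_lt1`: `q in U s`, `s.1 <> some m`: if `s.1 = none`, `d m q.1 < rho < r1`; if `s.1 = some i`, `disj`.
* `U_sep1`: `s.1 = some i`, `s.2 <> some i`: `d i q.2 < d i q.1`: `rho < d i q.1`, and `d i q.2 < rho` if
  `s.2 = none`, `d i q.2 <= r0` if `s.2 = some j`. `Re (conj (-e i) (q.2 - q.1)) = d i q.1 - d i q.2`.
* `U_00`, `U_ij`: remove the level: for `U_00` take `rho` between the maximum of the `d i` (and `r0`) and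
  `r1` (finite index type).
-/

namespace ASP87

open Complex Topology Set ComplexConjugate

structure Geo (ι : Type*) where
  e : ι → ℂ
  r0 : ℝ
  r1 : ℝ
  r2 : ℝ
  he : ∀ i, ‖e i‖ = 1
  h0 : 0 < r0
  h01 : r0 < r1
  h12 : r1 < r2
  h2 : r2 < 1
  hd : ∀ i j, i ≠ j → ‖e i + e j‖ ≤ 2 * r0

variable {ι : Type*} (g : Geo ι)

/-- special points -/
noncomputable def Geo.x (i : ι) : ℂ := (g.r2 : ℂ) * g.e i

/-- depth -/
def Geo.d (i : ι) (z : ℂ) : ℝ := (conj (g.e i) * z).re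

/-- region at level `rho` -/
def Geo.inR (o : Option ι) (rho : ℝ) (z : ℂ) : Prop :=
  match o with
  | none => ∀ i, g.d i z < rho
  | some i => rho < g.d i z

/-- state regions -/
def Geo.U (s : St ι) : Set (ℂ × ℂ) :=
  {q | ‖q.1‖ < 1 ∧ ‖q.2‖ < 1 ∧ ∃ rho, g.r0 < rho ∧ rho < g.r1 ∧ g.inR s.1 rho q.1 ∧
    g.inR s.2 rho q.2}

theorem Geo.d_add (i : ι) (z w : ℂ) : g.d i (z + w) = g.d i z + g.d i w := by
  unfold Geo.d
  rw [mul_add, Complex.add_re]

theorem Geo.d_sub (i : ι) (z w : ℂ) : g.d i (z - w) = g.d i z - g.d i w := by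
  unfold Geo.d
  rw [mul_sub, Complex.sub_re]

theorem Geo.d_smul (i : ι) (t : ℝ) (z : ℂ) : g.d i (t • z) = t * g.d i z := by
  unfold Geo.d
  rw [mul_smul_comm, Complex.smul_re, smul_eq_mul]

theorem Geo.d_cont (i : ι) : Continuous (g.d i) := by
  unfold Geo.d
  exact Complex.continuous_re.comp (continuous_const.mul continuous_id)

theorem Geo.d_x (i : ι) : g.d i (g.x i) = g.r2 := by
  unfold Geo.d Geo.x
  have h : conj (g.e i) * ((g.r2 : ℂ) * g.e i) = ((g.r2 * Complex.normSq (g.e i) : ℝ) : ℂ) := by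
    push_cast
    rw [Complex.normSq_eq_conj_mul_self]
    ring
  rw [h, Complex.ofReal_re, Complex.normSq_eq_norm_sq, g.he]
  ring

theorem Geo.disj {z : ℂ} (hz : ‖z‖ < 1) {i m : ι} (hi : g.r0 < g.d i z) (hm : m ≠ i) :
    g.d m z ≤ g.r0 := by
  by_contra hc
  rw [not_le] at hc
  have h1 : g.d i z + g.d m z = (conj (g.e i + g.e m) * z).re := by
    unfold Geo.d
    rw [map_add, add_mul, Complex.add_re]
  have h2 : (conj (g.e i + g.e m) * z).re ≤ ‖g.e i + g.e m‖ * ‖z‖ := by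
    refine (Complex.re_le_norm _).trans ?_
    rw [norm_mul, RCLike.norm_conj]
  have h3 : ‖g.e i + g.e m‖ * ‖z‖ ≤ 2 * g.r0 * 1 :=
    mul_le_mul (g.hd i m (Ne.symm hm)) hz.le (norm_nonneg z) (by linarith [g.h0])
  linarith

theorem Geo.half {c : ℂ} {m : ι} (h : g.d m c < g.r2) :
    0 < (conj (g.e m) * (g.x m - c)).re := by
  have h1 : (conj (g.e m) * (g.x m - c)).re = g.d m (g.x m - c) := rfl
  rw [h1, g.d_sub, g.d_x]
  linarith

theorem Geo.norm_x (i : ι) : ‖g.x i‖ < 1 := by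
  have h0 : 0 < g.r2 := g.h0.trans (g.h01.trans g.h12)
  unfold Geo.x
  rw [norm_mul, g.he, mul_one, Complex.norm_real, Real.norm_of_nonneg h0.le]
  exact g.h2

theorem Geo.x_inj : Function.Injective g.x := by
  intro i j h
  by_contra hij
  have h0 : 0 < g.r2 := g.h0.trans (g.h01.trans g.h12)
  have h1 : g.e i = g.e j := mul_left_cancel₀ (by exact_mod_cast h0.ne') h
  have h2 := g.hd i j hij
  rw [← h1, ← two_mul, norm_mul, g.he] at h2
  have h3 : ‖(2 : ℂ)‖ = 2 := by norm_num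
  rw [h3] at h2
  have h4 := g.h01.trans (g.h12.trans g.h2)
  linarith

theorem Geo.inR_open [Finite ι] (o : Option ι) (rho : ℝ) : IsOpen {z : ℂ | g.inR o rho z} := by
  cases o with
  | none =>
    have h : {z : ℂ | g.inR none rho z} = ⋂ i, {z : ℂ | g.d i z < rho} := by
      ext z
      simp only [Set.mem_setOf_eq, Set.mem_iInter]
      exact Iff.rfl
    rw [h]
    exact isOpen_iInter_of_finite fun i => isOpen_lt (g.d_cont i) continuous_const
  | some i => exact isOpen_lt continuous_const (g.d_cont i)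

theorem Geo.U_open [Finite ι] (s : St ι) : IsOpen (g.U s) := by
  rw [isOpen_iff_mem_nhds]
  rintro q ⟨h1, h2, rho, h3, h4, h5, h6⟩
  have o1 : IsOpen {q : ℂ × ℂ | ‖q.1‖ < 1} := isOpen_lt (continuous_fst.norm) continuous_const
  have o2 : IsOpen {q : ℂ × ℂ | ‖q.2‖ < 1} := isOpen_lt (continuous_snd.norm) continuous_const
  have o3 : IsOpen {q : ℂ × ℂ | g.inR s.1 rho q.1} := (g.inR_open s.1 rho).preimage continuous_fst
  have o4 : IsOpen {q : ℂ × ℂ | g.inR s.2 rho q.2} := (g.inR_open s.2 rho).preimage continuous_snd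
  filter_upwards [o1.mem_nhds h1, o2.mem_nhds h2, o3.mem_nhds h5, o4.mem_nhds h6]
    with p p1 p2 p3 p4
  exact ⟨p1, p2, rho, h3, h4, p3, p4⟩

private theorem comb_lt {a b x y x' y' : ℝ} (ha : 0 ≤ a) (hb : 0 ≤ b) (hab : a + b = 1)
    (h : x < y) (h' : x' < y') : a * x + b * x' < a * y + b * y' := by
  rcases eq_or_lt_of_le ha with h0 | h0
  · have hb1 : b = 1 := by linarith
    rw [← h0, hb1]
    linarith
  · have h1 : a * x < a * y := mul_lt_mul_of_pos_left h h0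
    have h2 : b * x' ≤ b * y' := mul_le_mul_of_nonneg_left h'.le hb
    linarith

theorem Geo.inR_comb {o : Option ι} {a b rho rho' : ℝ} {z z' : ℂ} (ha : 0 ≤ a) (hb : 0 ≤ b)
    (hab : a + b = 1) (h : g.inR o rho z) (h' : g.inR o rho' z') :
    g.inR o (a * rho + b * rho') (a • z + b • z') := by
  cases o with
  | none =>
    intro i
    rw [g.d_add, g.d_smul, g.d_smul]
    exact comb_lt ha hb hab (h i) (h' i)
  | some i =>
    show a * rho + b * rho' < g.d i (a • z + b • z')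
    rw [g.d_add, g.d_smul, g.d_smul]
    exact comb_lt ha hb hab h h'

theorem Geo.U_convex (s : St ι) : Convex ℝ (g.U s) := by
  rintro q ⟨h1, h2, rho, h3, h4, h5, h6⟩ q' ⟨h1', h2', rho', h3', h4', h5', h6'⟩ a b ha hb hab
  have nrm : ∀ {z z' : ℂ}, ‖z‖ < 1 → ‖z'‖ < 1 → ‖a • z + b • z'‖ < 1 := by
    intro z z' hz hz'
    refine (norm_add_le _ _).trans_lt ?_
    rw [norm_smul, norm_smul, Real.norm_of_nonneg ha, Real.norm_of_nonneg hb]
    have := comb_lt ha hb hab hz hz'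
    linarith
  refine ⟨nrm h1 h1', nrm h2 h2', a * rho + b * rho', ?_, ?_, g.inR_comb ha hb hab h5 h5',
    g.inR_comb ha hb hab h6 h6'⟩
  · have h7 := comb_lt ha hb hab h3 h3'
    have h8 : a * g.r0 + b * g.r0 = g.r0 := by rw [← add_mul, hab, one_mul]
    linarith
  · have h7 := comb_lt ha hb hab h4 h4'
    have h8 : a * g.r1 + b * g.r1 = g.r1 := by rw [← add_mul, hab, one_mul]
    linarith

theorem Geo.inR_exists {z : ℂ} {rho : ℝ} (h : ∀ i, g.d i z ≠ rho) : ∃ o, g.inR o rho z := by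
  by_cases hex : ∃ i, rho < g.d i z
  · obtain ⟨i, hi⟩ := hex
    exact ⟨some i, hi⟩
  · refine ⟨none, fun i => ?_⟩
    rcases lt_trichotomy (g.d i z) rho with h1 | h1 | h1
    · exact h1
    · exact absurd h1 (h i)
    · exact absurd ⟨i, h1⟩ hex

theorem Geo.U_cover [Finite ι] {a b : ℂ} (ha : ‖a‖ < 1) (hb : ‖b‖ < 1) :
    ∃ s, (a, b) ∈ g.U s := by
  have hfin : (Set.range (fun i => g.d i a) ∪ Set.range (fun i => g.d i b)).Finite :=
    (Set.finite_range _).union (Set.finite_range _)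
  obtain ⟨rho, ⟨h1, h2⟩, h3⟩ := (Set.Ioo_infinite g.h01).exists_notMem_finite hfin
  obtain ⟨o, ho⟩ := g.inR_exists (z := a) (rho := rho) fun i hi => h3 (Or.inl ⟨i, hi⟩)
  obtain ⟨o', ho'⟩ := g.inR_exists (z := b) (rho := rho) fun i hi => h3 (Or.inr ⟨i, hi⟩)
  exact ⟨(o, o'), ha, hb, rho, h1, h2, ho, ho'⟩

theorem Geo.inR_le {o o' : Option ι} {rho rho' : ℝ} {z : ℂ} (hz : ‖z‖ < 1) (hr : rho' ≤ rho)
    (h0 : g.r0 < rho') (h : g.inR o rho z) (h' : g.inR o' rho' z) : o = none ∨ o = o' := by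
  cases o with
  | none => exact Or.inl rfl
  | some i =>
    right
    have hi : rho < g.d i z := h
    cases o' with
    | none =>
      have hi' : g.d i z < rho' := h' i
      linarith
    | some j =>
      have hj : rho' < g.d j z := h'
      by_contra hne
      have hij : i ≠ j := fun e => hne (by rw [e])
      have := g.disj hz (h0.trans hj) hij
      linarith

theorem Geo.U_chain {q : ℂ × ℂ} {s t : St ι} (hs : q ∈ g.U s) (ht : q ∈ g.U t) :
    StLe s t ∨ StLe t s := by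
  obtain ⟨h1, h2, rho, h3, h4, h5, h6⟩ := hs
  obtain ⟨-, -, rho', h3', h4', h5', h6'⟩ := ht
  rcases le_total rho' rho with h | h
  · exact Or.inl ⟨g.inR_le h1 h h3' h5 h5', g.inR_le h2 h h3' h6 h6'⟩
  · exact Or.inr ⟨g.inR_le h1 h h3 h5' h5, g.inR_le h2 h h3 h6' h6⟩

theorem Geo.inR_lt {o : Option ι} {rho : ℝ} {z : ℂ} (hz : ‖z‖ < 1) (h0 : g.r0 < rho)
    (h : g.inR o rho z) {m : ι} (hm : o ≠ some m) : g.d m z < rho := by
  cases o with
  | none => exact h m
  | some i =>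
    have hi : rho < g.d i z := h
    have him : m ≠ i := fun e => hm (by rw [e])
    have := g.disj hz (h0.trans hi) him
    linarith

theorem Geo.U_lt1 {q : ℂ × ℂ} {s : St ι} (hs : q ∈ g.U s) {m : ι} (hm : s.1 ≠ some m) :
    g.d m q.1 < g.r1 := by
  obtain ⟨h1, h2, rho, h3, h4, h5, h6⟩ := hs
  exact (g.inR_lt h1 h3 h5 hm).trans h4

theorem Geo.U_lt2 {q : ℂ × ℂ} {s : St ι} (hs : q ∈ g.U s) {m : ι} (hm : s.2 ≠ some m) :
    g.d m q.2 < g.r1 := by
  obtain ⟨h1, h2, rho, h3, h4, h5, h6⟩ := hs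
  exact (g.inR_lt h2 h3 h6 hm).trans h4

theorem Geo.U_sep1 {q : ℂ × ℂ} {s : St ι} (hs : q ∈ g.U s) {i : ι} (h1 : s.1 = some i)
    (h2 : s.2 ≠ some i) : 0 < (conj (-g.e i) * (q.2 - q.1)).re := by
  obtain ⟨n1, n2, rho, h3, h4, h5, h6⟩ := hs
  have h7 := g.inR_lt n2 h3 h6 h2
  rw [h1] at h5
  have h8 : rho < g.d i q.1 := h5
  have h9 : (conj (-g.e i) * (q.2 - q.1)).re = g.d i q.1 - g.d i q.2 := by
    have : conj (-g.e i) * (q.2 - q.1) = conj (g.e i) * (q.1 - q.2) := by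
      rw [map_neg]
      ring
    rw [this]
    exact g.d_sub i q.1 q.2
  rw [h9]
  linarith

theorem Geo.U_sep2 {q : ℂ × ℂ} {s : St ι} (hs : q ∈ g.U s) {j : ι} (h1 : s.2 = some j)
    (h2 : s.1 ≠ some j) : 0 < (conj (g.e j) * (q.2 - q.1)).re := by
  obtain ⟨n1, n2, rho, h3, h4, h5, h6⟩ := hs
  have h7 := g.inR_lt n1 h3 h5 h2
  rw [h1] at h6
  have h8 : rho < g.d j q.2 := h6
  have h9 : (conj (g.e j) * (q.2 - q.1)).re = g.d j q.2 - g.d j q.1 := g.d_sub j q.2 q.1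
  rw [h9]
  linarith

theorem Geo.U_00 [Finite ι] {q : ℂ × ℂ} : q ∈ g.U (none, none) ↔
    ‖q.1‖ < 1 ∧ ‖q.2‖ < 1 ∧ ∀ i, g.d i q.1 < g.r1 ∧ g.d i q.2 < g.r1 := by
  constructor
  · rintro ⟨n1, n2, rho, h3, h4, h5, h6⟩
    exact ⟨n1, n2, fun i => ⟨(h5 i).trans h4, (h6 i).trans h4⟩⟩
  · rintro ⟨n1, n2, h⟩
    have hev : ∀ {c : ℝ}, c < g.r1 → ∀ᶠ x in 𝓝[<] g.r1, c < x := fun hc =>
      (eventually_gt_nhds hc).filter_mono nhdsWithin_le_nhds
    have e1 : ∀ᶠ x in 𝓝[<] g.r1, ∀ i, g.d i q.1 < x := Filter.eventually_all.2 fun i => hev (h i).1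
    have e2 : ∀ᶠ x in 𝓝[<] g.r1, ∀ i, g.d i q.2 < x := Filter.eventually_all.2 fun i => hev (h i).2
    have e3 : ∀ᶠ x in 𝓝[<] g.r1, x < g.r1 := self_mem_nhdsWithin
    obtain ⟨rho, r1, r2, r3, r4⟩ := (e1.and (e2.and (e3.and (hev g.h01)))).exists
    exact ⟨n1, n2, rho, r4, r3, r1, r2⟩

theorem Geo.U_ij {q : ℂ × ℂ} {i j : ι} : q ∈ g.U (some i, some j) ↔
    ‖q.1‖ < 1 ∧ ‖q.2‖ < 1 ∧ g.r0 < g.d i q.1 ∧ g.r0 < g.d j q.2 := by
  constructor
  · rintro ⟨n1, n2, rho, h3, h4, h5, h6⟩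
    exact ⟨n1, n2, h3.trans h5, h3.trans h6⟩
  · rintro ⟨n1, n2, h1, h2⟩
    obtain ⟨rho, h3, h4⟩ := exists_between (lt_min g.h01 (lt_min h1 h2))
    rw [lt_min_iff, lt_min_iff] at h4
    exact ⟨n1, n2, rho, h3, h4.1, h4.2.1, h4.2.2⟩

end ASP87
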