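import Pool.Agent.ASP87.Geo

/-!
# ASP87/GeoPt: points with prescribed states

`S` = a chain of states with least element `s` (`s in S`, `StLe s t` for all `t in S`).
Levels `L k = r0 + (r1 - r0) k / 8`, `k = 1..7`. The point `lam e m` (`lam` real, `0 <= lam < 1`) has depth
`lam` in direction `m` and, for `m' <> m`, depth `<= r0` (by `disj` if `lam > r0`, by
`|d m' z| <= |z| = lam` otherwise).

`chain_pt`: `b.a` for particle `a` (other particle `b'`):
 (i) `s.a = some m`: `b.a = x m` (depth `r2 > r1`);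
 (ii) all `t in S` have `t.a = none`: `b.a = 0`;
 (iii) otherwise some `t in S` has `t.a = some m` (the same `m` for all such `t`, chain), `s.a = none`:
   `b.a = L 6 e m` if some `t in S` has `t.a <> none` and `t.b' = none` (particle `a` moves first);
   `b.a = L 2 e m` if some `t in S` has `t.a = none`, `t.b' <> none` (it moves second; both cannot
   happen, because `S` is a chain); `b.a = L 4 e m` otherwise.
Level for `t in S`: `(none,none)`: `L 7`; exactly one particle in a petal: `L 4`; both: `L 1`.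
CHECK. `t = (none,none)`: then `s = (none,none)`, all depths `<= L 6 < L 7`. `t = (some i, none)`: particle 1
is `x i` or moves first (witness `t`), depth `r2` or `L 6 > L 4`; particle 2: all none (0), or it moves
later: depth `L 2 < L 4` (witness `t`: `t.2 = none`, `t.1 <> none`). Both: depths `>= L 2 > L 1`, in the right
directions.
`chain_pt2`: the same with `b.a = lam_a e m` in case (i), `lam_1 = (r1 + r2)/2`, `lam_2 = (r1 + 3 r2)/4`
(depth between `r1` and `r2`, different from `r2`), `L 5` instead of `L 4` for particle 2 in case (iii)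
(between `L 1` and `L 7`), and in case (ii) `b.1 = 0`, `b.2 = r0/2` (a real number; `|d i b.2| <= r0/2 < r0`).
No special point is hit: `x m` has norm `r2`, the chosen points have smaller norms. `b.1 <> b.2`: the two
norms are always different.
-/

set_option linter.unusedVariables false

namespace ASP87

open Complex Topology Set ComplexConjugate

variable {ι : Type*} (g : Geo ι)

/-- depth profile of a point -/
def Geo.Good (o : Option ι) (l : ℝ) (z : ℂ) : Prop :=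
  ‖z‖ < 1 ∧ (∀ i, o ≠ some i → g.d i z ≤ g.r0) ∧ ∀ i, o = some i → g.d i z = l

theorem Geo.d_le_norm (i : ι) (z : ℂ) : g.d i z ≤ ‖z‖ := by
  unfold Geo.d
  calc (conj (g.e i) * z).re ≤ ‖conj (g.e i) * z‖ := Complex.re_le_norm _
    _ = ‖z‖ := by rw [norm_mul, Complex.norm_conj, g.he i, one_mul]

theorem Geo.d_smul_e (l : ℝ) (i : ι) : g.d i ((l : ℂ) * g.e i) = l := by
  have h : conj (g.e i) * ((l : ℂ) * g.e i) = (l : ℂ) * (conj (g.e i) * g.e i) := by ring
  have h2 : conj (g.e i) * g.e i = ((1 : ℝ) : ℂ) := by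
    rw [mul_comm, Complex.mul_conj, Complex.normSq_eq_norm_sq, g.he i]
    norm_num
  unfold Geo.d
  rw [h, h2]
  simp

theorem Geo.norm_smul_e {l : ℝ} (hl : 0 ≤ l) (i : ι) : ‖(l : ℂ) * g.e i‖ = l := by
  rw [norm_mul, g.he i, mul_one, Complex.norm_real, Real.norm_eq_abs, abs_of_nonneg hl]

theorem Geo.good_some {l : ℝ} (h0 : g.r0 < l) (h1 : l < 1) (m : ι) :
    g.Good (some m) l ((l : ℂ) * g.e m) := by
  have hl : 0 ≤ l := (g.h0.trans h0).le
  have hn : ‖(l : ℂ) * g.e m‖ < 1 := by rw [g.norm_smul_e hl]; exact h1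
  refine ⟨hn, ?_, ?_⟩
  · intro i hi
    refine g.disj hn (i := m) ?_ ?_
    · rw [g.d_smul_e]; exact h0
    · intro h
      exact hi (by rw [h])
  · intro i hi
    have : m = i := Option.some.inj hi
    subst this
    exact g.d_smul_e l m

theorem Geo.good_none {l : ℝ} {z : ℂ} (hz : ‖z‖ ≤ g.r0) : g.Good none l z := by
  refine ⟨?_, ?_, ?_⟩
  · have := g.h01; have := g.h12; have := g.h2; linarith
  · intro i _
    exact (g.d_le_norm i z).trans hz
  · intro i hi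
    cases hi

theorem Geo.inR_of_good {o t : Option ι} {l rho : ℝ} {z : ℂ} (hg : g.Good o l z)
    (ht : t = none ∨ t = o) (hr : g.r0 < rho) (c1 : t = none → l < rho)
    (c2 : t ≠ none → rho < l) : g.inR t rho z := by
  obtain ⟨_, h2, h3⟩ := hg
  cases t with
  | none =>
    intro i
    by_cases hi : o = some i
    · rw [h3 i hi]; exact c1 rfl
    · exact (h2 i hi).trans_lt hr
  | some j =>
    have hj : o = some j := by
      rcases ht with h | h
      · cases h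
      · exact h.symm
    change rho < g.d j z
    rw [h3 j hj]
    exact c2 (by simp)

theorem Geo.mem_U {o1 o2 : Option ι} {l1 l2 rho : ℝ} {b : ℂ × ℂ} {t : St ι}
    (h1 : g.Good o1 l1 b.1) (h2 : g.Good o2 l2 b.2) (t1 : t.1 = none ∨ t.1 = o1)
    (t2 : t.2 = none ∨ t.2 = o2) (hr : g.r0 < rho) (hr' : rho < g.r1)
    (c1 : t.1 = none → l1 < rho) (c1' : t.1 ≠ none → rho < l1)
    (c2 : t.2 = none → l2 < rho) (c2' : t.2 ≠ none → rho < l2) : b ∈ g.U t :=
  ⟨h1.1, h2.1, rho, hr, hr', g.inR_of_good h1 t1 hr c1 c1', g.inR_of_good h2 t2 hr c2 c2'⟩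

theorem chain_top (S : Set (St ι)) (hS : ∀ s ∈ S, ∀ t ∈ S, StLe s t ∨ StLe t s) :
    (∃ o1 : Option ι, ∀ t ∈ S, t.1 = none ∨ t.1 = o1) ∧
      ∃ o2 : Option ι, ∀ t ∈ S, t.2 = none ∨ t.2 = o2 := by
  constructor
  · by_cases h : ∃ t ∈ S, t.1 ≠ none
    · obtain ⟨t0, ht0, hn⟩ := h
      refine ⟨t0.1, fun t ht => ?_⟩
      rcases hS t ht t0 ht0 with h | h
      · exact h.1
      · rcases h.1 with h | h
        · exact absurd h hn
        · exact Or.inr h.symm
    · push Not at h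
      exact ⟨none, fun t ht => Or.inl (h t ht)⟩
  · by_cases h : ∃ t ∈ S, t.2 ≠ none
    · obtain ⟨t0, ht0, hn⟩ := h
      refine ⟨t0.2, fun t ht => ?_⟩
      rcases hS t ht t0 ht0 with h | h
      · exact h.2
      · rcases h.2 with h | h
        · exact absurd h hn
        · exact Or.inr h.symm
    · push Not at h
      exact ⟨none, fun t ht => Or.inl (h t ht)⟩

/-- the levels -/
noncomputable def Geo.L (k : ℝ) : ℝ := g.r0 + (g.r1 - g.r0) * (k / 8)

theorem Geo.L_lt {a b : ℝ} (h : a < b) : g.L a < g.L b := by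
  unfold Geo.L
  have := g.h01
  nlinarith

theorem Geo.r0_lt_L {a : ℝ} (h : 0 < a) : g.r0 < g.L a := by
  unfold Geo.L
  have := g.h01
  nlinarith

theorem Geo.L_lt_r1 {a : ℝ} (h : a < 8) : g.L a < g.r1 := by
  unfold Geo.L
  have := g.h01
  nlinarith

open Classical in
/-- depth of a particle (`m1`: it moves first, `m2`: it moves second) -/
noncomputable def Geo.lvl (o : Option ι) (r c : ℝ) (m1 m2 : Prop) : ℝ :=
  if o ≠ none then r else if m1 then g.L 6 else if m2 then g.L 2 else g.L c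

/-- the common argument -/
theorem Geo.chain_aux (S : Set (St ι)) (hS : ∀ s ∈ S, ∀ t ∈ S, StLe s t ∨ StLe t s) (s : St ι)
    (hmin : ∀ t ∈ S, StLe s t) (R1 R2 c : ℝ) (hR1 : g.r1 < R1) (hR2 : g.r1 < R2)
    (hc0 : 1 < c) (hc : c < 7)
    (o1 o2 : Option ι) (ho1 : ∀ t ∈ S, t.1 = none ∨ t.1 = o1)
    (ho2 : ∀ t ∈ S, t.2 = none ∨ t.2 = o2) (b : ℂ × ℂ)
    (hb1 : g.Good o1 (g.lvl s.1 R1 4 (∃ t ∈ S, t.1 ≠ none ∧ t.2 = none)
      (∃ t ∈ S, t.1 = none ∧ t.2 ≠ none)) b.1)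
    (hb2 : g.Good o2 (g.lvl s.2 R2 c (∃ t ∈ S, t.1 = none ∧ t.2 ≠ none)
      (∃ t ∈ S, t.1 ≠ none ∧ t.2 = none)) b.2) : ∀ t ∈ S, b ∈ g.U t := by
  have hF : ¬ ((∃ t ∈ S, t.1 ≠ none ∧ t.2 = none) ∧ ∃ t ∈ S, t.1 = none ∧ t.2 ≠ none) := by
    rintro ⟨⟨t, ht, h1, h2⟩, t', ht', h1', h2'⟩
    rcases hS t ht t' ht' with h | h
    · rcases h.1 with h | h
      · exact h1 h
      · exact h1 (h.trans h1')
    · rcases h.2 with h | h
      · exact h2' h
      · exact h2' (h.trans h2)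
  have L12 := g.L_lt (show (1 : ℝ) < 2 by norm_num)
  have L24 := g.L_lt (show (2 : ℝ) < 4 by norm_num)
  have L46 := g.L_lt (show (4 : ℝ) < 6 by norm_num)
  have L67 := g.L_lt (show (6 : ℝ) < 7 by norm_num)
  have L1c := g.L_lt hc0
  have Lc7 := g.L_lt hc
  have L7 := g.L_lt_r1 (show (7 : ℝ) < 8 by norm_num)
  have L0 := g.r0_lt_L (show (0 : ℝ) < 1 by norm_num)
  intro t ht
  have hst := hmin t ht
  have s1 : t.1 = none → s.1 = none := fun h => by
    rcases hst.1 with h' | h'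
    · exact h'
    · exact h'.trans h
  have s2 : t.2 = none → s.2 = none := fun h => by
    rcases hst.2 with h' | h'
    · exact h'
    · exact h'.trans h
  by_cases h1 : t.1 = none
  · by_cases h2 : t.2 = none
    · refine g.mem_U hb1 hb2 (ho1 t ht) (ho2 t ht) (rho := g.L 7) (by linarith) (by linarith)
        (fun _ => ?_) (fun h => absurd h1 h) (fun _ => ?_) (fun h => absurd h2 h)
      · unfold Geo.lvl
        rw [if_neg (not_not.2 (s1 h1))]
        split_ifs <;> linarith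
      · unfold Geo.lvl
        rw [if_neg (not_not.2 (s2 h2))]
        split_ifs <;> linarith
    · have F2 : ∃ t ∈ S, t.1 = none ∧ t.2 ≠ none := ⟨t, ht, h1, h2⟩
      have F1 : ¬ ∃ t ∈ S, t.1 ≠ none ∧ t.2 = none := fun h => hF ⟨h, F2⟩
      refine g.mem_U hb1 hb2 (ho1 t ht) (ho2 t ht) (rho := g.L 4) (by linarith) (by linarith)
        (fun _ => ?_) (fun h => absurd h1 h) (fun h => absurd h h2) (fun _ => ?_)
      · unfold Geo.lvl
        rw [if_neg (not_not.2 (s1 h1)), if_neg F1, if_pos F2]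
        linarith
      · unfold Geo.lvl
        rw [if_pos F2]
        split_ifs <;> linarith
  · by_cases h2 : t.2 = none
    · have F1 : ∃ t ∈ S, t.1 ≠ none ∧ t.2 = none := ⟨t, ht, h1, h2⟩
      have F2 : ¬ ∃ t ∈ S, t.1 = none ∧ t.2 ≠ none := fun h => hF ⟨F1, h⟩
      refine g.mem_U hb1 hb2 (ho1 t ht) (ho2 t ht) (rho := g.L 4) (by linarith) (by linarith)
        (fun h => absurd h h1) (fun _ => ?_) (fun _ => ?_) (fun h => absurd h2 h)
      · unfold Geo.lvl
        rw [if_pos F1]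
        split_ifs <;> linarith
      · unfold Geo.lvl
        rw [if_neg (not_not.2 (s2 h2)), if_neg F2, if_pos F1]
        linarith
    · refine g.mem_U hb1 hb2 (ho1 t ht) (ho2 t ht) (rho := g.L 1) (by linarith) (by linarith)
        (fun h => absurd h h1) (fun _ => ?_) (fun h => absurd h h2) (fun _ => ?_)
      · unfold Geo.lvl
        split_ifs <;> linarith
      · unfold Geo.lvl
        split_ifs <;> linarith

theorem Geo.lvl_gt {o : Option ι} {r c : ℝ} {m1 m2 : Prop} (hr : g.r1 < r) (hc : 0 < c) :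
    g.r0 < g.lvl o r c m1 m2 := by
  have h1 := g.r0_lt_L hc
  have h2 := g.r0_lt_L (show (0 : ℝ) < 2 by norm_num)
  have h6 := g.r0_lt_L (show (0 : ℝ) < 6 by norm_num)
  have := g.h01
  unfold Geo.lvl
  split_ifs <;> linarith

theorem Geo.lvl_le {o : Option ι} {r c : ℝ} {m1 m2 : Prop} (hr : g.r1 < r) (hc : c < 8) :
    g.lvl o r c m1 m2 ≤ r := by
  have h1 := g.L_lt_r1 hc
  have h2 := g.L_lt_r1 (show (2 : ℝ) < 8 by norm_num)
  have h6 := g.L_lt_r1 (show (6 : ℝ) < 8 by norm_num)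
  unfold Geo.lvl
  split_ifs <;> linarith

theorem Geo.chain_pt (S : Set (St ι)) (hS : ∀ s ∈ S, ∀ t ∈ S, StLe s t ∨ StLe t s) (s : St ι)
    (hs : s ∈ S) (hmin : ∀ t ∈ S, StLe s t) :
    ∃ b : ℂ × ℂ, (∀ t ∈ S, b ∈ g.U t) ∧ (∀ m, s.1 = some m → b.1 = g.x m) ∧
      (∀ m, s.2 = some m → b.2 = g.x m) := by
  obtain ⟨⟨o1, ho1⟩, o2, ho2⟩ := chain_top S hS
  have key : ∀ (o : Option ι) (so : Option ι) (m1 m2 : Prop), (so = none ∨ so = o) →
      ∃ z : ℂ, g.Good o (g.lvl so g.r2 4 m1 m2) z ∧ ∀ m, so = some m → z = g.x m := by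
    intro o so m1 m2 h
    cases o with
    | none =>
      refine ⟨0, g.good_none (by simpa using g.h0.le), fun m hm => ?_⟩
      rcases h with h | h <;> rw [h] at hm <;> cases hm
    | some j =>
      refine ⟨((g.lvl so g.r2 4 m1 m2 : ℝ) : ℂ) * g.e j,
        g.good_some (g.lvl_gt g.h12 (by norm_num)) ?_ j, fun m hm => ?_⟩
      · exact (g.lvl_le g.h12 (by norm_num)).trans_lt g.h2
      · have hj : j = m := by
          rcases h with h | h
          · rw [h] at hm; cases hm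
          · rw [h] at hm; exact Option.some.inj hm
        subst hj
        unfold Geo.lvl Geo.x
        rw [if_pos (by rw [hm]; simp)]
  obtain ⟨z1, hz1, hx1⟩ := key o1 s.1 (∃ t ∈ S, t.1 ≠ none ∧ t.2 = none)
    (∃ t ∈ S, t.1 = none ∧ t.2 ≠ none) (ho1 s hs)
  obtain ⟨z2, hz2, hx2⟩ := key o2 s.2 (∃ t ∈ S, t.1 = none ∧ t.2 ≠ none)
    (∃ t ∈ S, t.1 ≠ none ∧ t.2 = none) (ho2 s hs)
  exact ⟨(z1, z2), g.chain_aux S hS s hmin g.r2 g.r2 4 g.h12 g.h12 (by norm_num) (by norm_num)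
    o1 o2 ho1 ho2 (z1, z2) hz1 hz2, hx1, hx2⟩

theorem Geo.chain_pt2 (S : Set (St ι)) (hS : ∀ s ∈ S, ∀ t ∈ S, StLe s t ∨ StLe t s) (s : St ι)
    (hs : s ∈ S) (hmin : ∀ t ∈ S, StLe s t) :
    ∃ b : ℂ × ℂ, (∀ t ∈ S, b ∈ g.U t) ∧ (∀ m, b.1 ≠ g.x m) ∧ (∀ m, b.2 ≠ g.x m) ∧
      b.1 ≠ b.2 := by
  obtain ⟨⟨o1, ho1⟩, o2, ho2⟩ := chain_top S hS
  have hF : ¬ ((∃ t ∈ S, t.1 ≠ none ∧ t.2 = none) ∧ ∃ t ∈ S, t.1 = none ∧ t.2 ≠ none) := by
    rintro ⟨⟨t, ht, h1, h2⟩, t', ht', h1', h2'⟩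
    rcases hS t ht t' ht' with h | h
    · rcases h.1 with h | h
      · exact h1 h
      · exact h1 (h.trans h1')
    · rcases h.2 with h | h
      · exact h2' h
      · exact h2' (h.trans h2)
  have h0 := g.h0
  have h01 := g.h01
  have h12 := g.h12
  have h2 := g.h2
  have hR1 : g.r1 < (g.r1 + g.r2) / 2 := by linarith
  have hR2 : g.r1 < (g.r1 + 3 * g.r2) / 4 := by linarith
  have key : ∀ (o : Option ι) (R c u : ℝ) (so : Option ι) (m1 m2 : Prop), g.r1 < R → R < 1 →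
      0 < c → c < 8 → 0 ≤ u → u ≤ g.r0 →
      ∃ z : ℂ, g.Good o (g.lvl so R c m1 m2) z ∧
        ((o = none ∧ ‖z‖ = u) ∨ (o ≠ none ∧ ‖z‖ = g.lvl so R c m1 m2)) := by
    intro o R c u so m1 m2 hR hR' hc0 hc hu0 hu
    have hn : ‖(u : ℂ)‖ = u := by
      rw [Complex.norm_real, Real.norm_eq_abs, abs_of_nonneg hu0]
    cases o with
    | none => exact ⟨(u : ℂ), g.good_none (by rw [hn]; exact hu), Or.inl ⟨rfl, hn⟩⟩
    | some j =>
      have hgt := g.lvl_gt (o := so) (m1 := m1) (m2 := m2) hR hc0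
      refine ⟨((g.lvl so R c m1 m2 : ℝ) : ℂ) * g.e j, g.good_some hgt ?_ j,
        Or.inr ⟨by simp, g.norm_smul_e (h0.trans hgt).le j⟩⟩
      exact (g.lvl_le hR hc).trans_lt hR'
  obtain ⟨z1, hz1, hn1⟩ := key o1 ((g.r1 + g.r2) / 2) 4 0 s.1
    (∃ t ∈ S, t.1 ≠ none ∧ t.2 = none) (∃ t ∈ S, t.1 = none ∧ t.2 ≠ none) hR1 (by linarith)
    (by norm_num) (by norm_num) le_rfl h0.le
  obtain ⟨z2, hz2, hn2⟩ := key o2 ((g.r1 + 3 * g.r2) / 4) 5 (g.r0 / 2) s.2
    (∃ t ∈ S, t.1 = none ∧ t.2 ≠ none) (∃ t ∈ S, t.1 ≠ none ∧ t.2 = none) hR2 (by linarith)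
    (by norm_num) (by norm_num) (by linarith) (by linarith)
  have hxn : ∀ m, ‖g.x m‖ = g.r2 := fun m => g.norm_smul_e (by linarith) m
  have l1 := g.lvl_le (o := s.1) (m1 := ∃ t ∈ S, t.1 ≠ none ∧ t.2 = none)
    (m2 := ∃ t ∈ S, t.1 = none ∧ t.2 ≠ none) hR1 (show (4 : ℝ) < 8 by norm_num)
  have l2 := g.lvl_le (o := s.2) (m1 := ∃ t ∈ S, t.1 = none ∧ t.2 ≠ none)
    (m2 := ∃ t ∈ S, t.1 ≠ none ∧ t.2 = none) hR2 (show (5 : ℝ) < 8 by norm_num)
  have g1 := g.lvl_gt (o := s.1) (m1 := ∃ t ∈ S, t.1 ≠ none ∧ t.2 = none)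
    (m2 := ∃ t ∈ S, t.1 = none ∧ t.2 ≠ none) hR1 (show (0 : ℝ) < 4 by norm_num)
  have g2 := g.lvl_gt (o := s.2) (m1 := ∃ t ∈ S, t.1 = none ∧ t.2 ≠ none)
    (m2 := ∃ t ∈ S, t.1 ≠ none ∧ t.2 = none) hR2 (show (0 : ℝ) < 5 by norm_num)
  refine ⟨(z1, z2), g.chain_aux S hS s hmin _ _ 5 hR1 hR2 (by norm_num) (by norm_num)
    o1 o2 ho1 ho2 (z1, z2) hz1 hz2, fun m h => ?_, fun m h => ?_, fun h => ?_⟩
  · have h' : ‖z1‖ = g.r2 := by rw [← hxn m]; exact congrArg norm h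
    rcases hn1 with ⟨_, h1⟩ | ⟨_, h1⟩ <;> linarith
  · have h' : ‖z2‖ = g.r2 := by rw [← hxn m]; exact congrArg norm h
    rcases hn2 with ⟨_, h1⟩ | ⟨_, h1⟩ <;> linarith
  · have h' : ‖z1‖ = ‖z2‖ := congrArg norm h
    rcases hn1 with ⟨_, h1⟩ | ⟨_, h1⟩
    · rcases hn2 with ⟨_, h3⟩ | ⟨_, h3⟩ <;> linarith
    · rcases hn2 with ⟨_, h3⟩ | ⟨_, h3⟩
      · linarith
      · rw [h1, h3] at h'
        have L24 := g.L_lt (show (2 : ℝ) < 4 by norm_num)
        have L45 := g.L_lt (show (4 : ℝ) < 5 by norm_num)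
        have L56 := g.L_lt (show (5 : ℝ) < 6 by norm_num)
        have L6 := g.L_lt_r1 (show (6 : ℝ) < 8 by norm_num)
        unfold Geo.lvl at h'
        by_cases F1 : ∃ t ∈ S, t.1 ≠ none ∧ t.2 = none
        · have F2 : ¬ ∃ t ∈ S, t.1 = none ∧ t.2 ≠ none := fun h => hF ⟨F1, h⟩
          rw [if_pos F1, if_neg F2, if_pos F1] at h'
          split_ifs at h' <;> linarith
        · rw [if_neg F1, if_neg F1] at h'
          split_ifs at h' <;> linarith

end ASP87
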