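import Pool.Agent.ASP87.ExtBasic

/-!
# ASP87/Grid: maps from grid sets to weakly contractible spaces extend

Cells of the grid of mesh `1/n` (n >= 1): `c : Fin D -> Nat` with `c i <= 2 n`. Open cell
`O c = {x : forall i, cellOf n (x i) = c i}`; here `cellOf n t = 2j` iff `t = j/n` and `2j+1` iff
`j/n < t < (j+1)/n` (floor + ceiling of `n t`). The open cells partition the cube. Closed cell
`K c = {x : forall i, if c i = 2j is even then x i = j/n, if c i = 2j+1 then j/n <= x i <= (j+1)/n}`.
A point of `K c` not in `O c` has `cellOf n (x i) in {c i, c i - 1, c i + 1}` with at least one odd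
`c i` replaced by an even number, so it lies in an open cell with fewer odd entries.

PROOF of `grid_ext`. Induction on the number of cells `c : Fin D -> Fin (2n+1)` with `O c` not
contained in `A` (then `O c` is disjoint from `A` by the second property of `GridSet`). If there is
none, `A = univ` and `g = f`. Otherwise take such a `c` with the least number of odd entries. Then
`K c \ O c` is contained in `A`, and `A inter K c = K c \ O c`. Let `J = {i : c i odd}` and
`phi : (J -> I) -> (Fin D -> I)`, `phi s i = (j_i + s_i)/n` for `i in J` (`c i = 2 j_i + 1`) and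
`= j_i/n` for `c i = 2 j_i`. `phi` is a homeomorphism onto `K c` (inverse: `s_i = n x_i - j_i`,
clamped by `Set.projIcc` so that it is defined and continuous everywhere) which maps the boundary of
the cube `J -> I` onto `K c \ O c`. `f o phi` is continuous on the boundary, extend it by
`ext_fintype` (Ext of `card J`) to `gc`. Let `f' = f` on `A` and `gc o phi^-1` on `K c`. It is
continuous on `A union K c` (two closed sets, equal on the intersection), and `A union K c` is a
`GridSet` with fewer missing cells.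
-/

namespace ASP87

open scoped unitInterval Topology
open Set

private theorem gr_lo {n : ℕ} (a : ℕ) (t : I) : 2 * a ≤ cellOf n t ↔ (a : ℝ) ≤ (t : ℝ) * n := by
  have h0 : (0 : ℝ) ≤ (t : ℝ) * n := mul_nonneg t.2.1 (Nat.cast_nonneg n)
  unfold cellOf
  constructor
  · intro h
    by_contra hlt
    push Not at hlt
    have h1 : ⌊(t : ℝ) * n⌋₊ < a := (Nat.floor_lt h0).2 hlt
    have h2 : ⌈(t : ℝ) * n⌉₊ ≤ a := Nat.ceil_le.2 hlt.le
    omega
  · intro h
    have h1 : a ≤ ⌊(t : ℝ) * n⌋₊ := Nat.le_floor h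
    have h2 : ⌊(t : ℝ) * n⌋₊ ≤ ⌈(t : ℝ) * n⌉₊ := Nat.floor_le_ceil _
    omega

private theorem gr_hi {n : ℕ} (b : ℕ) (t : I) : cellOf n t ≤ 2 * b ↔ (t : ℝ) * n ≤ (b : ℝ) := by
  have h0 : (0 : ℝ) ≤ (t : ℝ) * n := mul_nonneg t.2.1 (Nat.cast_nonneg n)
  unfold cellOf
  constructor
  · intro h
    by_contra hlt
    push Not at hlt
    have h1 : b ≤ ⌊(t : ℝ) * n⌋₊ := Nat.le_floor hlt.le
    have h2 : b < ⌈(t : ℝ) * n⌉₊ := Nat.lt_ceil.2 hlt
    omega
  · intro h
    have h1 : ⌈(t : ℝ) * n⌉₊ ≤ b := Nat.ceil_le.2 h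
    have h2 : ⌊(t : ℝ) * n⌋₊ ≤ ⌈(t : ℝ) * n⌉₊ := Nat.floor_le_ceil _
    omega

private theorem gr_le {n : ℕ} (t : I) : cellOf n t ≤ 2 * n := by
  rw [gr_hi]
  exact mul_le_of_le_one_left (Nat.cast_nonneg n) t.2.2

/-- the closed cell -/
private def grK (n : ℕ) {D : ℕ} (c : Fin D → ℕ) : Set (Fin D → I) :=
  {x | ∀ i, 2 * (c i / 2) ≤ cellOf n (x i) ∧ cellOf n (x i) ≤ 2 * ((c i + 1) / 2)}

private theorem grK_closed (n : ℕ) {D : ℕ} (c : Fin D → ℕ) : IsClosed (grK n c) := by
  have h1 : grK n c = ⋂ i : Fin D, {x : Fin D → I | ((c i / 2 : ℕ) : ℝ) ≤ (x i : ℝ) * n} ∩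
      {x : Fin D → I | (x i : ℝ) * n ≤ (((c i + 1) / 2 : ℕ) : ℝ)} := by
    ext x
    simp only [grK, mem_ofPred_eq, mem_iInter, mem_inter_iff, gr_lo, gr_hi]
  rw [h1]
  refine isClosed_iInter fun i => ?_
  have hc : Continuous (fun x : Fin D → I => (x i : ℝ) * n) :=
    (continuous_subtype_val.comp (continuous_apply i)).mul continuous_const
  exact (isClosed_le continuous_const hc).inter (isClosed_le hc continuous_const)

private theorem gr_mem_self (n : ℕ) {D : ℕ} {c : Fin D → ℕ} {x : Fin D → I}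
    (h : ∀ i, cellOf n (x i) = c i) : x ∈ grK n c := by
  intro i
  rw [h i]
  omega

/-- the parametrization of the closed cell -/
private noncomputable def grPhi (n : ℕ) {D : ℕ} (c : Fin D → ℕ)
    (s : {i : Fin D // Odd (c i)} → I) : Fin D → I := by
  classical
  exact fun i => projIcc (0 : ℝ) 1 zero_le_one
    ((((c i / 2 : ℕ) : ℝ) + (if h : Odd (c i) then (s ⟨i, h⟩ : ℝ) else 0)) / n)

/-- its inverse -/
private noncomputable def grPsi (n : ℕ) {D : ℕ} (c : Fin D → ℕ) (x : Fin D → I) :
    {i : Fin D // Odd (c i)} → I :=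
  fun i => projIcc (0 : ℝ) 1 zero_le_one ((x i.1 : ℝ) * n - ((c i.1 / 2 : ℕ) : ℝ))

private theorem grPhi_cont (n : ℕ) {D : ℕ} (c : Fin D → ℕ) : Continuous (grPhi n c) := by
  classical
  refine continuous_pi fun i => ?_
  refine continuous_projIcc.comp ?_
  refine Continuous.div_const ?_ _
  refine continuous_const.add ?_
  by_cases h : Odd (c i)
  · simp only [h, dite_true]
    exact continuous_subtype_val.comp (continuous_apply _)
  · simp only [h, dite_false]
    exact continuous_const

private theorem grPsi_cont (n : ℕ) {D : ℕ} (c : Fin D → ℕ) : Continuous (grPsi n c) := by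
  refine continuous_pi fun i => ?_
  refine continuous_projIcc.comp ?_
  exact ((continuous_subtype_val.comp (continuous_apply _)).mul continuous_const).sub
    continuous_const

private theorem gr_lo_lt {n : ℕ} {c : ℕ} (hc : c ≤ 2 * n) (ho : Odd c) : c / 2 + 1 ≤ n := by
  obtain ⟨j, hj⟩ := ho
  omega

/-- the value of `n * phi s i` -/
private theorem grPhi_val {n : ℕ} (hn : 0 < n) {D : ℕ} {c : Fin D → ℕ} (hc : ∀ i, c i ≤ 2 * n)
    (s : {i : Fin D // Odd (c i)} → I) (i : Fin D) (h : Odd (c i)) :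
    (grPhi n c s i : ℝ) * n = ((c i / 2 : ℕ) : ℝ) + (s ⟨i, h⟩ : ℝ) := by
  classical
  have hn' : (0 : ℝ) < n := by exact_mod_cast hn
  have h1 : (((c i / 2 : ℕ) : ℝ) + (s ⟨i, h⟩ : ℝ)) / n ∈ Icc (0 : ℝ) 1 := by
    constructor
    · exact div_nonneg (add_nonneg (Nat.cast_nonneg _) (s ⟨i, h⟩).2.1) hn'.le
    · rw [div_le_one hn']
      have h2 : c i / 2 + 1 ≤ n := gr_lo_lt (hc i) h
      have h3 : (((c i / 2 : ℕ) : ℝ)) + 1 ≤ n := by exact_mod_cast h2
      have h4 := (s ⟨i, h⟩).2.2
      linarith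
  have h5 : grPhi n c s i = projIcc (0 : ℝ) 1 zero_le_one
      ((((c i / 2 : ℕ) : ℝ) + (s ⟨i, h⟩ : ℝ)) / n) := by
    unfold grPhi
    simp only [h, dite_true]
  rw [h5, projIcc_of_mem zero_le_one h1]
  show (((c i / 2 : ℕ) : ℝ) + (s ⟨i, h⟩ : ℝ)) / n * n = _
  rw [div_mul_cancel₀ _ hn'.ne']

private theorem grPhi_val' {n : ℕ} (hn : 0 < n) {D : ℕ} {c : Fin D → ℕ} (hc : ∀ i, c i ≤ 2 * n)
    (s : {i : Fin D // Odd (c i)} → I) (i : Fin D) (h : ¬ Odd (c i)) :
    (grPhi n c s i : ℝ) * n = ((c i / 2 : ℕ) : ℝ) := by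
  classical
  have hn' : (0 : ℝ) < n := by exact_mod_cast hn
  have h1 : (((c i / 2 : ℕ) : ℝ) + 0) / n ∈ Icc (0 : ℝ) 1 := by
    rw [add_zero]
    constructor
    · exact div_nonneg (Nat.cast_nonneg _) hn'.le
    · rw [div_le_one hn']
      have h2 : c i / 2 ≤ n := by
        have := hc i
        omega
      exact_mod_cast h2
  have h5 : grPhi n c s i = projIcc (0 : ℝ) 1 zero_le_one ((((c i / 2 : ℕ) : ℝ) + 0) / n) := by
    unfold grPhi
    simp only [h, dite_false]
  rw [h5, projIcc_of_mem zero_le_one h1]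
  show (((c i / 2 : ℕ) : ℝ) + 0) / n * n = _
  rw [div_mul_cancel₀ _ hn'.ne', add_zero]

/-- points of the boundary are mapped to the relative boundary of the cell -/
private theorem grPhi_bd {n : ℕ} (hn : 0 < n) {D : ℕ} {c : Fin D → ℕ} (hc : ∀ i, c i ≤ 2 * n)
    (s : {i : Fin D // Odd (c i)} → I) (hs : s ∈ Cube.boundary {i : Fin D // Odd (c i)}) :
    grPhi n c s ∈ grK n c ∧ ∃ i, cellOf n (grPhi n c s i) ≠ c i := by
  constructor
  · intro i
    by_cases h : Odd (c i)
    · have h1 := grPhi_val hn hc s i h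
      have h2 : (c i + 1) / 2 = c i / 2 + 1 := by
        obtain ⟨j, hj⟩ := h
        omega
      rw [gr_lo, gr_hi, h1, h2]
      have h3 := (s ⟨i, h⟩).2.1
      have h4 := (s ⟨i, h⟩).2.2
      push_cast
      constructor <;> linarith
    · have h1 := grPhi_val' hn hc s i h
      have h2 : (c i + 1) / 2 = c i / 2 := by
        rw [Nat.not_odd_iff_even] at h
        obtain ⟨j, hj⟩ := h
        omega
      rw [gr_lo, gr_hi, h1, h2]
      exact ⟨le_refl _, le_refl _⟩
  · obtain ⟨⟨i, h⟩, hi⟩ := hs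
    refine ⟨i, fun heq => ?_⟩
    have h1 := grPhi_val hn hc s i h
    obtain ⟨j, hj⟩ := h
    have hj2 : c i / 2 = j := by omega
    rcases hi with hi | hi
    · rw [hi] at h1
      have h2 : (grPhi n c s i : ℝ) * n ≤ (j : ℝ) := by
        rw [h1, hj2]
        show (j : ℝ) + 0 ≤ j
        linarith
      rw [← gr_hi] at h2
      omega
    · rw [hi] at h1
      have h2 : ((j + 1 : ℕ) : ℝ) ≤ (grPhi n c s i : ℝ) * n := by
        rw [h1, hj2]
        show ((j + 1 : ℕ) : ℝ) ≤ (j : ℝ) + 1
        push_cast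
        exact le_refl _
      rw [← gr_lo] at h2
      omega

private theorem grPhi_psi {n : ℕ} (hn : 0 < n) {D : ℕ} {c : Fin D → ℕ} (hc : ∀ i, c i ≤ 2 * n)
    {x : Fin D → I} (hx : x ∈ grK n c) : grPhi n c (grPsi n c x) = x := by
  have hn' : (0 : ℝ) < n := by exact_mod_cast hn
  funext i
  apply Subtype.ext
  apply mul_right_cancel₀ hn'.ne'
  have h1 := (gr_lo (n := n) _ _).1 (hx i).1
  have h2 := (gr_hi (n := n) _ _).1 (hx i).2
  by_cases h : Odd (c i)
  · rw [grPhi_val hn hc _ i h]
    have h3 : (c i + 1) / 2 = c i / 2 + 1 := by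
      obtain ⟨j, hj⟩ := h
      omega
    rw [h3] at h2
    push_cast at h2
    have h4 : (x i : ℝ) * n - ((c i / 2 : ℕ) : ℝ) ∈ Icc (0 : ℝ) 1 := by
      push_cast
      push_cast at h1
      constructor <;> linarith
    have h5 : grPsi n c x ⟨i, h⟩ = ⟨_, h4⟩ := projIcc_of_mem zero_le_one h4
    rw [h5]
    show ((c i / 2 : ℕ) : ℝ) + ((x i : ℝ) * n - ((c i / 2 : ℕ) : ℝ)) = _
    ring
  · rw [grPhi_val' hn hc _ i h]
    have h3 : (c i + 1) / 2 = c i / 2 := by
      rw [Nat.not_odd_iff_even] at h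
      obtain ⟨j, hj⟩ := h
      omega
    rw [h3] at h2
    exact le_antisymm h1 h2

private theorem grPsi_bd {n : ℕ} {D : ℕ} {c : Fin D → ℕ}
    {x : Fin D → I} (hx : x ∈ grK n c) (hne : ∃ i, cellOf n (x i) ≠ c i) :
    grPsi n c x ∈ Cube.boundary {i : Fin D // Odd (c i)} := by
  obtain ⟨i, hi⟩ := hne
  have h1 := (hx i).1
  have h2 := (hx i).2
  have ho : Odd (c i) := by
    by_contra h
    rw [Nat.not_odd_iff_even] at h
    obtain ⟨j, hj⟩ := h
    omega
  refine ⟨⟨i, ho⟩, ?_⟩
  obtain ⟨j, hj⟩ := ho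
  have hj2 : c i / 2 = j := by omega
  have h3 : cellOf n (x i) ≤ 2 * j ∨ 2 * (j + 1) ≤ cellOf n (x i) := by omega
  have h4 : grPsi n c x ⟨i, ⟨j, hj⟩⟩ =
      projIcc (0 : ℝ) 1 zero_le_one ((x i : ℝ) * n - ((c i / 2 : ℕ) : ℝ)) := rfl
  rw [h4, hj2]
  rcases h3 with h3 | h3
  · left
    rw [gr_hi] at h3
    exact projIcc_of_le_left zero_le_one (by linarith)
  · right
    rw [gr_lo] at h3
    push_cast at h3
    exact projIcc_of_right_le zero_le_one (by linarith)

/-- the cells which are not contained in `A` -/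
private noncomputable def grMiss (n : ℕ) {D : ℕ} (A : Set (Fin D → I)) :
    Finset (Fin D → Fin (2 * n + 1)) := by
  classical
  exact Finset.univ.filter (fun c => ∃ x, (∀ i, cellOf n (x i) = c i) ∧ x ∉ A)

private theorem mem_grMiss {n : ℕ} {D : ℕ} {A : Set (Fin D → I)} {c : Fin D → Fin (2 * n + 1)} :
    c ∈ grMiss n A ↔ ∃ x, (∀ i, cellOf n (x i) = c i) ∧ x ∉ A := by
  classical
  unfold grMiss
  rw [Finset.mem_filter]
  exact ⟨fun h => h.2, fun h => ⟨Finset.mem_univ _, h⟩⟩

private theorem gr_main {D n : ℕ} (hn : 0 < n) {Y : Type*} [TopologicalSpace Y] (hY : WC Y) :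
    ∀ (k : ℕ) (A : Set (Fin D → I)), (grMiss n A).card ≤ k → GridSet n A →
      ∀ f : (Fin D → I) → Y, ContinuousOn f A →
      ∃ g : (Fin D → I) → Y, Continuous g ∧ ∀ x ∈ A, g x = f x := by
  classical
  intro k
  induction k with
  | zero =>
    intro A hk hA f hf
    have hAu : A = univ := by
      rw [eq_univ_iff_forall]
      intro x
      by_contra hx
      have h1 : (fun i => (⟨cellOf n (x i), Nat.lt_succ_of_le (gr_le (x i))⟩ :
          Fin (2 * n + 1))) ∈ grMiss n A := mem_grMiss.2 ⟨x, fun i => rfl, hx⟩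
      have h2 := Finset.card_pos.2 ⟨_, h1⟩
      omega
    rw [hAu, continuousOn_univ] at hf
    exact ⟨f, hf, fun _ _ => rfl⟩
  | succ k ih =>
    intro A hk hA f hf
    by_cases hAu : A = univ
    · rw [hAu, continuousOn_univ] at hf
      exact ⟨f, hf, fun _ _ => rfl⟩
    · rw [eq_univ_iff_forall] at hAu
      push Not at hAu
      -- a missing point with the least number of odd entries
      let odd : (Fin D → I) → ℕ := fun x =>
        (Finset.univ.filter (fun i : Fin D => Odd (cellOf n (x i)))).card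
      have hex : ∃ m : ℕ, ∃ x, x ∉ A ∧ odd x = m := by
        obtain ⟨x, hx⟩ := hAu
        exact ⟨_, x, hx, rfl⟩
      obtain ⟨x, hxA, hxm⟩ := Nat.find_spec hex
      have hmin : ∀ y, odd y < odd x → y ∈ A := by
        intro y hy
        by_contra hyA
        have h1 := Nat.find_min hex (m := odd y) (by rw [← hxm]; exact hy)
        exact h1 ⟨y, hyA, rfl⟩
      set c : Fin D → ℕ := fun i => cellOf n (x i) with hcdef
      have hc : ∀ i, c i ≤ 2 * n := fun i => gr_le (x i)
      have hxK : x ∈ grK n c := gr_mem_self n (fun i => rfl)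
      -- the relative boundary is in `A`
      have hbd : ∀ y ∈ grK n c, (∃ i, cellOf n (y i) ≠ c i) → y ∈ A := by
        intro y hy hne
        apply hmin
        apply Finset.card_lt_card
        rw [Finset.ssubset_iff_of_subset]
        · obtain ⟨i, hi⟩ := hne
          have h1 := hy i
          refine ⟨i, ?_, ?_⟩
          · rw [Finset.mem_filter]
            refine ⟨Finset.mem_univ _, ?_⟩
            show Odd (c i)
            by_contra h
            rw [Nat.not_odd_iff_even] at h
            obtain ⟨j, hj⟩ := h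
            omega
          · rw [Finset.mem_filter]
            rintro ⟨_, h2⟩
            obtain ⟨j, hj⟩ := h2
            omega
        · intro i hi
          rw [Finset.mem_filter] at hi ⊢
          refine ⟨Finset.mem_univ _, ?_⟩
          show Odd (c i)
          have h1 := hy i
          by_contra h
          rw [Nat.not_odd_iff_even] at h
          obtain ⟨j, hj⟩ := h
          obtain ⟨l, hl⟩ := hi.2
          omega
      -- the open cell is disjoint from `A`
      have hdis : ∀ y ∈ A, y ∈ grK n c → ∃ i, cellOf n (y i) ≠ c i := by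
        intro y hyA _
        by_contra hcon
        push Not at hcon
        exact hxA (hA.2 y x (fun i => hcon i) hyA)
      obtain ⟨gc, hgc, hgcb⟩ := ext_fintype (N := {i : Fin D // Odd (c i)})
        (hY.2 _) (fun s => f (grPhi n c s)) (by
          refine hf.comp (grPhi_cont n c).continuousOn ?_
          intro s hs
          have h1 := grPhi_bd hn hc s hs
          exact hbd _ h1.1 h1.2)
      let f' : (Fin D → I) → Y := fun y => if y ∈ grK n c then gc (grPsi n c y) else f y
      have hf'A : ∀ y ∈ A, f' y = f y := by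
        intro y hy
        by_cases hyK : y ∈ grK n c
        · have h1 : f' y = gc (grPsi n c y) := if_pos hyK
          rw [h1, hgcb _ (grPsi_bd hyK (hdis y hy hyK)), grPhi_psi hn hc hyK]
        · exact if_neg hyK
      have hf'K : ∀ y ∈ grK n c, f' y = gc (grPsi n c y) := fun y hy => if_pos hy
      have hcont : ContinuousOn f' (A ∪ grK n c) := by
        refine ContinuousOn.union_of_isClosed ?_ ?_ hA.1 (grK_closed n c)
        · exact hf.congr hf'A
        · exact ((hgc.comp (grPsi_cont n c)).continuousOn).congr hf'K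
      have hgrid : GridSet n (A ∪ grK n c) := by
        refine ⟨hA.1.union (grK_closed n c), ?_⟩
        intro y z hyz hy
        rcases hy with hy | hy
        · exact Or.inl (hA.2 y z hyz hy)
        · right
          intro i
          rw [← hyz i]
          exact hy i
      have hcard : (grMiss n (A ∪ grK n c)).card ≤ k := by
        have h1 : grMiss n (A ∪ grK n c) ⊂ grMiss n A := by
          rw [Finset.ssubset_iff_of_subset]
          · refine ⟨fun i => ⟨c i, Nat.lt_succ_of_le (hc i)⟩, ?_, ?_⟩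
            · exact mem_grMiss.2 ⟨x, fun i => rfl, hxA⟩
            · intro h
              obtain ⟨z, hz, hzA⟩ := mem_grMiss.1 h
              exact hzA (Or.inr (gr_mem_self n hz))
          · intro e he
            obtain ⟨z, hz, hzA⟩ := mem_grMiss.1 he
            exact mem_grMiss.2 ⟨z, hz, fun h => hzA (Or.inl h)⟩
        have h2 := Finset.card_lt_card h1
        omega
      obtain ⟨g, hg, hgf⟩ := ih (A ∪ grK n c) hcard hgrid f' hcont
      exact ⟨g, hg, fun y hy => (hgf y (Or.inl hy)).trans (hf'A y hy)⟩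

theorem grid_ext {D n : ℕ} (hn : 0 < n) {Y : Type*} [TopologicalSpace Y] (hY : WC Y)
    {A : Set (Fin D → I)} (hA : GridSet n A) (f : (Fin D → I) → Y) (hf : ContinuousOn f A) :
    ∃ g : (Fin D → I) → Y, Continuous g ∧ ∀ x ∈ A, g x = f x :=
  gr_main hn hY _ A le_rfl hA f hf

/-- version for maps with values in a subset -/
theorem grid_ext_set {D n : ℕ} (hn : 0 < n) {X : Type*} [TopologicalSpace X] {s : Set X}
    (hs : WC s) {A : Set (Fin D → I)} (hA : GridSet n A) (f : (Fin D → I) → X)
    (hf : ContinuousOn f A) (hfs : ∀ x ∈ A, f x ∈ s) :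
    ∃ g : (Fin D → I) → X, Continuous g ∧ (∀ x, g x ∈ s) ∧ ∀ x ∈ A, g x = f x := by
  classical
  obtain ⟨s0⟩ := hs.1
  let f' : (Fin D → I) → s := fun x => if h : f x ∈ s then ⟨f x, h⟩ else s0
  have hval : ∀ x ∈ A, (f' x : X) = f x := by
    intro x hx
    have h1 : f' x = ⟨f x, hfs x hx⟩ := dif_pos (hfs x hx)
    rw [h1]
  have hf' : ContinuousOn f' A := by
    rw [Topology.IsInducing.subtypeVal.continuousOn_iff]
    exact hf.congr hval
  obtain ⟨g, hg, hgf⟩ := grid_ext hn hs hA f' hf'
  refine ⟨fun x => (g x : X), continuous_subtype_val.comp hg, fun x => (g x).2, fun x hx => ?_⟩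
  show (g x : X) = f x
  rw [hgf x hx]
  exact hval x hx

end ASP87
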