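import Pool.Agent.ASP87.Defs

/-!
# ASP87/GridCov: splitting the boundary of the cube along an open cover by two sets

Let `U, V` be open in `X` and `f : (Fin d -> I) -> X` continuous on the boundary `K` of the cube with
`f x in U union V` there. Then for some `n >= 1` there are grid sets `A, B` with `A union B = K`,
`f (A)` in `U`, `f (B)` in `V`.

PROOF. There are open sets `U', V'` of the cube with `U' inter K = K inter f^-1 U`, and similarly
`V'` (`ContinuousOn` and openness: `continuousOn_iff'`). `K` is compact (closed in a compact space) and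
covered by `U', V'`; by the Lebesgue number lemma (`lebesgue_number_lemma_of_metric`) there is
`eps > 0` such that every ball `ball x eps`, `x in K`, lies in `U'` or in `V'`. Take `n` with
`1/n < eps`. For `x` in the cube let `K x = {y : forall i, |n y_i - floor (n x_i)| ..}` be the closed cell
of `x`: `y i in [floor (n x_i)/n, ceil (n x_i)/n]` for all `i`. It is a closed grid set (for
`y' ` with the same cells as `y in K x` also `y' in K x`), contained in `K` if `x in K` (the
coordinate of `x` equal to 0 or 1 is kept), its points have distance `<= 1/n < eps` from `x`, so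
`f (K x)` lies in `U` or in `V`. Only finitely many sets `K x` occur (they depend on the cells
`cellOf n (x i) <= 2n`). `A` = the union of those `K x`, `x in K`, with `f (K x)` in `U`; `B` the same
for `V`. Finite unions of closed sets are closed. `x in K x`, so `A union B = K`.
-/

namespace ASP87

open scoped unitInterval Topology
open Set

theorem boundary_isClosed (d : ℕ) : IsClosed (Cube.boundary (Fin d)) := by
  have h1 : Cube.boundary (Fin d) = ⋃ i : Fin d, ({y : Fin d → I | y i = 0} ∪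
      {y : Fin d → I | y i = 1}) := by
    ext y
    simp [Cube.boundary]
  rw [h1]
  refine isClosed_iUnion_of_finite fun i => ?_
  exact (isClosed_eq (continuous_apply i) continuous_const).union
    (isClosed_eq (continuous_apply i) continuous_const)

theorem cellOf_eq {n : ℕ} {s t : I} (h : cellOf n s = cellOf n t) :
    ⌊(s : ℝ) * n⌋₊ = ⌊(t : ℝ) * n⌋₊ ∧ ⌈(s : ℝ) * n⌉₊ = ⌈(t : ℝ) * n⌉₊ := by
  unfold cellOf at h
  have h1 := Nat.floor_le_ceil ((s : ℝ) * n)
  have h2 := Nat.floor_le_ceil ((t : ℝ) * n)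
  have h3 := Nat.ceil_le_floor_add_one ((s : ℝ) * n)
  have h4 := Nat.ceil_le_floor_add_one ((t : ℝ) * n)
  omega

/-- the boundary is a grid set (for every `n >= 1`) -/
theorem boundary_gridSet {d n : ℕ} (hn : 0 < n) : GridSet n (Cube.boundary (Fin d)) := by
  refine ⟨boundary_isClosed d, ?_⟩
  rintro x y hxy ⟨i, hi⟩
  refine ⟨i, ?_⟩
  have hn' : (0 : ℝ) < n := Nat.cast_pos.2 hn
  obtain ⟨h1, h2⟩ := cellOf_eq (hxy i)
  have hy0 := (y i).2.1
  have hy1 := (y i).2.2
  rcases hi with hi | hi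
  · left
    rw [hi] at h2
    have h3 : ⌈((y i : I) : ℝ) * n⌉₊ = 0 := by
      rw [← h2]
      simp
    rw [Nat.ceil_eq_zero] at h3
    apply Subtype.ext
    show ((y i : I) : ℝ) = 0
    nlinarith
  · right
    rw [hi] at h1
    have h3 : ⌊((y i : I) : ℝ) * n⌋₊ = n := by
      rw [← h1]
      simp
    have h4 : (n : ℝ) ≤ (y i : ℝ) * n := by
      have h5 := Nat.floor_le (show (0 : ℝ) ≤ (y i : ℝ) * n by positivity)
      rw [h3] at h5
      exact h5
    apply Subtype.ext
    show ((y i : I) : ℝ) = 1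
    nlinarith

/-- the closed cell with given floors and ceilings -/
def ccell (n : ℕ) {d : ℕ} (a b : Fin d → ℕ) : Set (Fin d → I) :=
  {y | ∀ i, (a i : ℝ) ≤ (y i : ℝ) * n ∧ (y i : ℝ) * n ≤ (b i : ℝ)}

theorem ccell_gridSet (n : ℕ) {d : ℕ} (a b : Fin d → ℕ) : GridSet n (ccell n a b) := by
  constructor
  · have h1 : ccell n a b = ⋂ i : Fin d, {y : Fin d → I | (a i : ℝ) ≤ (y i : ℝ) * n} ∩
        {y : Fin d → I | (y i : ℝ) * n ≤ (b i : ℝ)} := by
      ext y
      simp [ccell]
    rw [h1]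
    refine isClosed_iInter fun i => ?_
    have hc : Continuous (fun y : Fin d → I => (y i : ℝ) * n) :=
      (continuous_subtype_val.comp (continuous_apply i)).mul continuous_const
    exact (isClosed_le continuous_const hc).inter (isClosed_le hc continuous_const)
  · intro x y hxy hx i
    obtain ⟨h1, h2⟩ := cellOf_eq (hxy i)
    have hx0 := (x i).2.1
    have hy0 := (y i).2.1
    obtain ⟨h3, h4⟩ := hx i
    constructor
    · have h5 : a i ≤ ⌊(x i : ℝ) * n⌋₊ := Nat.le_floor h3
      rw [h1] at h5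
      have h6 := Nat.floor_le (show (0 : ℝ) ≤ (y i : ℝ) * n by positivity)
      exact (Nat.cast_le.2 h5).trans h6
    · have h5 : ⌈(x i : ℝ) * n⌉₊ ≤ b i := Nat.ceil_le.2 h4
      rw [h2] at h5
      exact (Nat.le_ceil _).trans (Nat.cast_le.2 h5)

theorem grid_split {d : ℕ} {X : Type*} [TopologicalSpace X] {U V : Set X} (hU : IsOpen U)
    (hV : IsOpen V) (f : (Fin d → I) → X) (hf : ContinuousOn f (Cube.boundary (Fin d)))
    (hfUV : ∀ x ∈ Cube.boundary (Fin d), f x ∈ U ∪ V) :
    ∃ n : ℕ, 0 < n ∧ ∃ A B : Set (Fin d → I), GridSet n A ∧ GridSet n B ∧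
      A ∪ B = Cube.boundary (Fin d) ∧ (∀ x ∈ A, f x ∈ U) ∧ ∀ x ∈ B, f x ∈ V := by
  obtain ⟨U', hU', hUK⟩ := continuousOn_iff'.1 hf U hU
  obtain ⟨V', hV', hVK⟩ := continuousOn_iff'.1 hf V hV
  have hcomp : IsCompact (Cube.boundary (Fin d)) := (boundary_isClosed d).isCompact
  obtain ⟨δ, hδ, hball⟩ := lebesgue_number_lemma_of_metric (c := fun b : Bool => cond b U' V')
    hcomp (by intro b; cases b; exacts [hV', hU']) (by
      intro x hx
      rw [Set.mem_iUnion]
      rcases hfUV x hx with h | h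
      · have h1 : x ∈ U' ∩ Cube.boundary (Fin d) := by
          rw [← hUK]
          exact ⟨h, hx⟩
        exact ⟨true, h1.1⟩
      · have h1 : x ∈ V' ∩ Cube.boundary (Fin d) := by
          rw [← hVK]
          exact ⟨h, hx⟩
        exact ⟨false, h1.1⟩)
  obtain ⟨n, hn⟩ := exists_nat_one_div_lt hδ
  set N := n + 1 with hN
  have hN0 : 0 < N := Nat.succ_pos n
  have hNr : (0 : ℝ) < N := Nat.cast_pos.2 hN0
  have hNd : 1 / (N : ℝ) < δ := by
    rw [hN]
    push_cast
    exact hn
  -- the closed cell of a point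
  set cc : (Fin d → I) → Set (Fin d → I) := fun x =>
    ccell N (fun i => ⌊(x i : ℝ) * N⌋₊) (fun i => ⌈(x i : ℝ) * N⌉₊) with hcc
  have hmem : ∀ x, x ∈ cc x := by
    intro x i
    have hx0 := (x i).2.1
    exact ⟨Nat.floor_le (by positivity), Nat.le_ceil _⟩
  have hdist : ∀ x, ∀ y ∈ cc x, dist y x < δ := by
    intro x y hy
    refine (dist_pi_lt_iff hδ).2 fun i => ?_
    obtain ⟨h1, h2⟩ := hy i
    obtain ⟨h3, h4⟩ := hmem x i
    have h5 : (⌈(x i : ℝ) * N⌉₊ : ℝ) ≤ (⌊(x i : ℝ) * N⌋₊ : ℝ) + 1 := by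
      exact_mod_cast Nat.ceil_le_floor_add_one ((x i : ℝ) * N)
    have h6 : |(y i : ℝ) - (x i : ℝ)| ≤ 1 / N := by
      have h8 : |(y i : ℝ) - (x i : ℝ)| * N = |((y i : ℝ) - (x i : ℝ)) * N| := by
        rw [abs_mul, abs_of_pos hNr]
      rw [le_div_iff₀ hNr, h8, abs_le]
      constructor
      · rw [sub_mul]; linarith
      · rw [sub_mul]; linarith
    have h7 : dist (y i) (x i) = |(y i : ℝ) - (x i : ℝ)| := rfl
    rw [h7]
    linarith
  have hbd : ∀ x ∈ Cube.boundary (Fin d), cc x ⊆ Cube.boundary (Fin d) := by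
    rintro x ⟨i, hi⟩ y hy
    refine ⟨i, ?_⟩
    obtain ⟨h1, h2⟩ := hy i
    have hy0 := (y i).2.1
    have hy1 := (y i).2.2
    rcases hi with hi | hi
    · left
      simp only [hi] at h2
      have h3 : (y i : ℝ) * N ≤ 0 := by
        have h4 : (⌈((0 : I) : ℝ) * N⌉₊ : ℝ) = 0 := by simp
        rw [h4] at h2
        exact h2
      apply Subtype.ext
      show ((y i : I) : ℝ) = 0
      nlinarith
    · right
      simp only [hi] at h1
      have h3 : (N : ℝ) ≤ (y i : ℝ) * N := by
        have h4 : (⌊((1 : I) : ℝ) * N⌋₊ : ℝ) = N := by simp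
        rw [h4] at h1
        exact h1
      apply Subtype.ext
      show ((y i : I) : ℝ) = 1
      nlinarith
  -- finitely many cells
  have hfin : ∀ P : Set (Fin d → I) → Prop,
      {C | P C ∧ ∃ x ∈ Cube.boundary (Fin d), C = cc x}.Finite := by
    intro P
    have h1 : (Set.range (fun q : (Fin d → Fin (N + 1)) × (Fin d → Fin (N + 1)) =>
        ccell (d := d) N (fun i => (q.1 i : ℕ)) (fun i => (q.2 i : ℕ)))).Finite :=
      Set.finite_range _
    refine h1.subset ?_
    rintro C ⟨-, x, -, rfl⟩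
    have hle : ∀ i, (x i : ℝ) * N ≤ N := by
      intro i
      have hx1 := (x i).2.2
      nlinarith
    have h2 : ∀ i, ⌊(x i : ℝ) * N⌋₊ < N + 1 := by
      intro i
      have h3 := Nat.floor_le_floor (hle i)
      rw [Nat.floor_natCast] at h3
      omega
    have h4 : ∀ i, ⌈(x i : ℝ) * N⌉₊ < N + 1 := by
      intro i
      have h3 := Nat.ceil_le.2 (hle i)
      omega
    exact ⟨(fun i => ⟨_, h2 i⟩, fun i => ⟨_, h4 i⟩), rfl⟩
  have hgrid : ∀ P : Set (Fin d → I) → Prop,
      GridSet N (⋃₀ {C | P C ∧ ∃ x ∈ Cube.boundary (Fin d), C = cc x}) := by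
    intro P
    constructor
    · rw [Set.sUnion_eq_biUnion]
      refine (hfin P).isClosed_biUnion ?_
      rintro C ⟨-, x, -, rfl⟩
      exact (ccell_gridSet N _ _).1
    · rintro x y hxy ⟨C, ⟨hP, z, hz, rfl⟩, hx⟩
      exact ⟨cc z, ⟨hP, z, hz, rfl⟩, (ccell_gridSet N _ _).2 x y hxy hx⟩
  refine ⟨N, hN0, ⋃₀ {C | (∀ x ∈ C, f x ∈ U) ∧ ∃ x ∈ Cube.boundary (Fin d), C = cc x},
    ⋃₀ {C | (∀ x ∈ C, f x ∈ V) ∧ ∃ x ∈ Cube.boundary (Fin d), C = cc x}, hgrid _, hgrid _,
    ?_, ?_, ?_⟩
  · apply Set.Subset.antisymm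
    · rintro y (⟨C, ⟨-, x, hx, rfl⟩, hy⟩ | ⟨C, ⟨-, x, hx, rfl⟩, hy⟩)
      · exact hbd x hx hy
      · exact hbd x hx hy
    · intro x hx
      obtain ⟨b, hb⟩ := hball x hx
      have hsub : ∀ y ∈ cc x, y ∈ cond b U' V' := fun y hy => hb (hdist x y hy)
      cases b with
      | true =>
        left
        refine ⟨cc x, ⟨fun y hy => ?_, x, hx, rfl⟩, hmem x⟩
        have h1 : y ∈ U' ∩ Cube.boundary (Fin d) := ⟨hsub y hy, hbd x hx hy⟩
        rw [← hUK] at h1
        exact h1.1
      | false =>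
        right
        refine ⟨cc x, ⟨fun y hy => ?_, x, hx, rfl⟩, hmem x⟩
        have h1 : y ∈ V' ∩ Cube.boundary (Fin d) := ⟨hsub y hy, hbd x hx hy⟩
        rw [← hVK] at h1
        exact h1.1
  · rintro x ⟨C, ⟨hC, -⟩, hx⟩
    exact hC x hx
  · rintro x ⟨C, ⟨hC, -⟩, hx⟩
    exact hC x hx

end ASP87
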