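import Pool.Agent.ASP87.Walk

/-!
# ASP87/GridWalk: homotopy of walks along a grid of pairwise comparable labels

`Relation.EqvGen Move` is compatible with adding a prefix and a suffix (`eqv_append`).
`eqv_dedup`: the list `replicate (k+1) a` is equivalent to `[a]` inside any context.
`row_walk`: let `L : Nat -> Nat -> V` such that for `i < m`, `j < n` the four labels
`L i j, L (i+1) j, L i (j+1), L (i+1) (j+1)` are pairwise comparable. Then the walk
`L 0 0, L 1 0, ..., L m 0, L m 1, ..., L m n` (bottom row, then right column) is equivalent to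
`L 0 0, L 0 1, ..., L 0 n, L 1 n, ..., L m n` (left column, then top row).
PROOF. Elementary step across one square: `.., L i j, L (i+1) j, L (i+1) (j+1), ..` is equivalent to
`.., L i j, L (i+1) (j+1), ..` and to `.., L i j, L i (j+1), L (i+1) (j+1), ..`. Induction on `n`
(one row at a time): it is enough to show for a fixed `j`: row `j` followed by `L m (j+1)` is
equivalent to `L 0 j` followed by row `j+1`; this is induction on `m`: move the vertical step from
position `i+1` to position `i`. If `m = 0` or `n = 0` both sides are the same list.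
-/

namespace ASP87

variable {V : Type*} [PartialOrder V]

theorem eqv_append {l l' : List V} (h : Relation.EqvGen Move l l') (p q : List V) :
    Relation.EqvGen Move (p ++ l ++ q) (p ++ l' ++ q) := by
  induction h with
  | rel x y hxy =>
    cases hxy with
    | tri l r a b c h1 h2 h3 =>
      have h4 := Relation.EqvGen.rel _ _ (Move.tri (p ++ l) (r ++ q) a b c h1 h2 h3)
      simpa using h4
    | dup l r a =>
      have h4 := Relation.EqvGen.rel _ _ (Move.dup (p ++ l) (r ++ q) a)
      simpa using h4
  | refl x => exact Relation.EqvGen.refl _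
  | symm x y _ ih => exact Relation.EqvGen.symm _ _ ih
  | trans x y z _ _ ih1 ih2 => exact Relation.EqvGen.trans _ _ _ ih1 ih2

/-- moves keep walks walks, the first and the last element -/
theorem eqv_isWalk {l l' : List V} (h : Relation.EqvGen Move l l') :
    (IsWalk l ↔ IsWalk l') ∧ l.head? = l'.head? ∧ l.getLast? = l'.getLast? := by
  induction h with
  | rel x y hxy =>
    cases hxy with
    | tri l r a b c h1 h2 h3 =>
      refine ⟨?_, ?_, ?_⟩
      · unfold IsWalk
        simp only [List.isChain_append_cons_cons, List.isChain_cons_cons]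
        tauto
      · cases l <;> simp
      · simp [List.getLast?_append, List.getLast?_cons]
    | dup l r a =>
      refine ⟨?_, ?_, ?_⟩
      · unfold IsWalk
        have h1 : Cmp a a := Or.inl le_rfl
        rw [List.isChain_append_cons_cons]
        rw [List.isChain_split (c := a) (l₁ := l) (l₂ := r)]
        tauto
      · cases l <;> simp
      · simp [List.getLast?_append, List.getLast?_cons]
  | refl x => exact ⟨Iff.rfl, rfl, rfl⟩
  | symm x y _ ih => exact ⟨ih.1.symm, ih.2.1.symm, ih.2.2.symm⟩
  | trans x y z _ _ ih1 ih2 =>
    exact ⟨ih1.1.trans ih2.1, ih1.2.1.trans ih2.2.1, ih1.2.2.trans ih2.2.2⟩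

private theorem eqv_replicate (a : V) : ∀ k : ℕ,
    Relation.EqvGen Move (List.replicate (k + 1) a) [a]
  | 0 => Relation.EqvGen.refl _
  | k + 1 => by
    have h1 := Relation.EqvGen.rel _ _ (Move.dup [] (List.replicate k a) a)
    exact Relation.EqvGen.trans _ _ _ h1 (eqv_replicate a k)

/-- repetitions can be removed: replace every element `a i` of a list by `k i + 1` copies -/
theorem eqv_dedup (l : List (V × ℕ)) (hl : l ≠ []) :
    Relation.EqvGen Move (l.flatMap fun x => List.replicate (x.2 + 1) x.1) (l.map Prod.fst) := by
  clear hl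
  induction l with
  | nil => exact Relation.EqvGen.refl _
  | cons x t ih =>
    have h1 := eqv_append (eqv_replicate x.1 x.2) []
      (t.flatMap fun x => List.replicate (x.2 + 1) x.1)
    have h2 := eqv_append ih [x.1] []
    rw [List.append_nil, List.append_nil] at h2
    rw [List.nil_append, List.nil_append] at h1
    rw [List.flatMap_cons, List.map_cons]
    exact Relation.EqvGen.trans _ _ _ h1 h2

private theorem one_row (a b : ℕ → V) : ∀ m : ℕ,
    (∀ i < m, Cmp (a i) (a (i + 1)) ∧ Cmp (a i) (b i) ∧ Cmp (a i) (b (i + 1)) ∧
      Cmp (a (i + 1)) (b i) ∧ Cmp (a (i + 1)) (b (i + 1)) ∧ Cmp (b i) (b (i + 1))) →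
    Relation.EqvGen Move ((List.range (m + 1)).map a ++ [b m])
      ([a 0] ++ (List.range (m + 1)).map b)
  | 0, _ => by
    simpa using Relation.EqvGen.refl (r := Move) [a 0, b 0]
  | m + 1, h => by
    obtain ⟨h1, h2, h3, h4, h5, h6⟩ := h m (Nat.lt_succ_self m)
    have ih := one_row a b m (fun i hi => h i (hi.trans (Nat.lt_succ_self m)))
    have ih' := eqv_append ih [] [b (m + 1)]
    have s1 := Relation.EqvGen.rel _ _
      (Move.tri ((List.range m).map a) [] (a m) (a (m + 1)) (b (m + 1)) h1 h5 h3)
    have s2 := Relation.EqvGen.rel _ _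
      (Move.tri ((List.range m).map a) [] (a m) (b m) (b (m + 1)) h2 h6 h3)
    have e1 : (List.range (m + 1 + 1)).map a ++ [b (m + 1)] =
        (List.range m).map a ++ a m :: a (m + 1) :: b (m + 1) :: [] := by
      simp [List.range_succ]
    have e2 : [] ++ ((List.range (m + 1)).map a ++ [b m]) ++ [b (m + 1)] =
        (List.range m).map a ++ a m :: b m :: b (m + 1) :: [] := by
      simp [List.range_succ]
    have e3 : [] ++ ([a 0] ++ (List.range (m + 1)).map b) ++ [b (m + 1)] =
        [a 0] ++ (List.range (m + 1 + 1)).map b := by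
      rw [List.range_succ (n := m + 1)]
      simp
    rw [e2, e3] at ih'
    rw [e1]
    exact Relation.EqvGen.trans _ _ _ s1 (Relation.EqvGen.trans _ _ _
      (Relation.EqvGen.symm _ _ s2) ih')

theorem row_walk (L : ℕ → ℕ → V) (m n : ℕ)
    (h : ∀ i < m, ∀ j < n, Cmp (L i j) (L (i + 1) j) ∧ Cmp (L i j) (L i (j + 1)) ∧
      Cmp (L i j) (L (i + 1) (j + 1)) ∧ Cmp (L (i + 1) j) (L i (j + 1)) ∧
      Cmp (L (i + 1) j) (L (i + 1) (j + 1)) ∧ Cmp (L i (j + 1)) (L (i + 1) (j + 1))) :
    Relation.EqvGen Move
      ((List.range (m + 1)).map (fun i => L i 0) ++ (List.range n).map (fun j => L m (j + 1)))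
      ((List.range (n + 1)).map (fun j => L 0 j) ++ (List.range m).map (fun i => L (i + 1) n)) := by
  induction n with
  | zero =>
    have e : (List.range (m + 1)).map (fun i => L i 0) ++
          (List.range 0).map (fun j => L m (j + 1)) =
        (List.range (0 + 1)).map (fun j => L 0 j) ++
          (List.range m).map (fun i => L (i + 1) 0) := by
      rw [List.range_succ_eq_map]
      simp [Function.comp_def]
    rw [e]
    exact Relation.EqvGen.refl _
  | succ n ih =>
    have ih1 := ih (fun i hi j hj => h i hi j (hj.trans (Nat.lt_succ_self n)))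
    have ih2 := eqv_append ih1 [] [L m (n + 1)]
    have r := one_row (fun i => L i n) (fun i => L i (n + 1)) m (fun i hi => by
      obtain ⟨h1, h2, h3, h4, h5, h6⟩ := h i hi n (Nat.lt_succ_self n)
      exact ⟨h1, h2, h3, h4, h5, h6⟩)
    have r2 := eqv_append r ((List.range n).map (fun j => L 0 j)) []
    have e1 : (List.range (m + 1)).map (fun i => L i 0) ++
          (List.range (n + 1)).map (fun j => L m (j + 1)) =
        [] ++ ((List.range (m + 1)).map (fun i => L i 0) ++
          (List.range n).map (fun j => L m (j + 1))) ++ [L m (n + 1)] := by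
      rw [List.range_succ (n := n)]
      simp
    have e2 : [] ++ ((List.range (n + 1)).map (fun j => L 0 j) ++
          (List.range m).map (fun i => L (i + 1) n)) ++ [L m (n + 1)] =
        (List.range n).map (fun j => L 0 j) ++ ((List.range (m + 1)).map (fun i => L i n) ++
          [L m (n + 1)]) ++ [] := by
      rw [List.range_succ (n := n), List.range_succ_eq_map (n := m)]
      simp [Function.comp_def]
    have e3 : (List.range (n + 1 + 1)).map (fun j => L 0 j) ++
          (List.range m).map (fun i => L (i + 1) (n + 1)) =
        (List.range n).map (fun j => L 0 j) ++ ([L 0 n] ++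
          (List.range (m + 1)).map (fun i => L i (n + 1))) ++ [] := by
      rw [List.range_succ (n := n + 1), List.range_succ (n := n),
        List.range_succ_eq_map (n := m)]
      simp [Function.comp_def]
    rw [e1, e3]
    rw [e2] at ih2
    exact Relation.EqvGen.trans _ _ _ ih2 r2

end ASP87
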