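import Pool.Agent.ASP87.Spaces

/-!
# ASP87/Time: the time function of a direction

`kk e l = round ((l.im - arg e)/pi)`. For `|e| = 1`:
`conj e * exp l = exp (l - i arg e)`, real part `exp (l.re) cos (l.im - arg e)`.
* `kk_spec`: if `Re (conj e exp l) <> 0` then `|l.im - arg e - pi kk| < pi/2` (round gives `<= 1/2`, equality
  is a zero of the cosine).
* `kk_eq`: conversely `|l.im - arg e - pi k| < pi/2` gives `kk e l = k`.
* `kk_even`: real part `> 0` gives `kk` even; `< 0` gives `kk` odd
  (`cos (theta + pi k) = (-1)^k cos theta`).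
* `kk_joined`: along a path on which the real part does not vanish `kk` is constant (continuity of `l.im`,
  `kk_spec`: `kk` is locally constant there).
* `LU_kk`: if `Re (conj e exp l) > 0` then `l - LU e (exp l) = pi kk i`:
  `log (conj e exp l)` has imaginary part in `(-pi/2, pi/2)` and equal to `l.im - arg e` modulo `2 pi`, so it
  is `l.im - arg e - pi kk`; `log e = i arg e` as `|e| = 1`; real parts agree.
* `LU_kk_neg`: if `Re (conj (-e) exp l) > 0` then
  `l - LU (-e) (exp l) = i (pi kk e l + arg e - arg (-e))`.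
* `kk_rel`: `d, d'` in the intersection of the half planes `Re (conj (-e) d) > 0` and `Re (conj e' d) > 0`
  (a convex set), `exp l = d`, `exp l' = d'`. Then `kk e l = kk e l'` iff `kk e' l = kk e' l'`: the function
  `d |-> LU (-e) d - LU e' d` is continuous on this convex set with values in `2 pi i Z` (both are
  logarithms of `d`), hence constant; with `LU_kk`, `LU_kk_neg`:
  `kk e' l - kk e l` is the same for `l` and `l'`.
-/

namespace ASP87

open Complex Topology Set ComplexConjugate

noncomputable def kk (e l : ℂ) : ℤ := round ((l.im - arg e) / Real.pi)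

theorem re_exp {e : ℂ} (he : ‖e‖ = 1) (l : ℂ) :
    (conj e * exp l).re = Real.exp l.re * Real.cos (l.im - arg e) := by
  have h1 : e = exp ((arg e : ℝ) * I) := by
    have := Complex.norm_mul_exp_arg_mul_I e
    rw [he] at this
    simpa using this.symm
  have h2 : conj e = exp (-((arg e : ℝ) * I)) := by
    conv_lhs => rw [h1]
    rw [← Complex.exp_conj]
    congr 1
    simp
  rw [h2, ← exp_add]
  rw [Complex.exp_re]
  congr 1
  · congr 1
    simp
  · congr 1
    simp
    ring

theorem kk_spec {e l : ℂ} (he : ‖e‖ = 1) (h : (conj e * exp l).re ≠ 0) :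
    |l.im - arg e - Real.pi * kk e l| < Real.pi / 2 := by
  have hpi := Real.pi_pos
  set t : ℝ := (l.im - arg e) / Real.pi with ht
  have hte : l.im - arg e = Real.pi * t := by rw [ht]; field_simp
  have h1 : |t - round t| ≤ 1 / 2 := abs_sub_round t
  have hk : kk e l = round t := rfl
  rw [hk, hte, ← mul_sub, abs_mul, abs_of_pos hpi]
  rcases h1.lt_or_eq with h2 | h2
  · nlinarith
  · exfalso
    apply h
    rw [re_exp he, hte]
    have h3 : Real.cos (Real.pi * t) = 0 := by
      rw [Real.cos_eq_zero_iff]
      obtain ⟨r, hr⟩ : ∃ r : ℤ, r = round t := ⟨_, rfl⟩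
      rw [← hr] at h2
      rcases abs_eq (by norm_num : (0 : ℝ) ≤ 1 / 2) |>.1 h2 with h4 | h4
      · refine ⟨r, ?_⟩
        have h5 : t = r + 1 / 2 := by linarith
        rw [h5]
        ring
      · refine ⟨r - 1, ?_⟩
        have h5 : t = r - 1 / 2 := by linarith
        rw [h5]
        push_cast
        ring
    rw [h3, mul_zero]

theorem kk_eq {e l : ℂ} {k : ℤ} (h : |l.im - arg e - Real.pi * k| < Real.pi / 2) :
    kk e l = k := by
  have hpi := Real.pi_pos
  unfold kk
  set t : ℝ := (l.im - arg e) / Real.pi with ht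
  have hte : l.im - arg e = Real.pi * t := by rw [ht]; field_simp
  rw [hte, ← mul_sub, abs_mul, abs_of_pos hpi] at h
  have h2 : |t - k| < 1 / 2 := by
    by_contra h3
    push Not at h3
    nlinarith
  rw [round_eq, Int.floor_eq_iff]
  rw [abs_lt] at h2
  constructor <;> linarith [h2.1, h2.2]

private theorem cos_sign {e l : ℂ} (he : ‖e‖ = 1) (h : (conj e * exp l).re ≠ 0) :
    (conj e * exp l).re = Real.exp l.re * ((-1) ^ (kk e l) *
      Real.cos (l.im - arg e - Real.pi * kk e l)) ∧
      0 < Real.cos (l.im - arg e - Real.pi * kk e l) := by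
  have h1 := kk_spec he h
  refine ⟨?_, ?_⟩
  · rw [re_exp he]
    congr 1
    have h2 : l.im - arg e = (l.im - arg e - Real.pi * kk e l) + kk e l * Real.pi := by ring
    conv_lhs => rw [h2]
    rw [Real.cos_add_int_mul_pi]
  · rw [abs_lt] at h1
    exact Real.cos_pos_of_mem_Ioo ⟨by linarith [h1.1], by linarith [h1.2]⟩

theorem kk_even {e l : ℂ} (he : ‖e‖ = 1) (h : 0 < (conj e * exp l).re) : Even (kk e l) := by
  obtain ⟨h1, h2⟩ := cos_sign he h.ne'
  by_contra hk
  rw [Int.not_even_iff_odd] at hk
  rw [h1, hk.neg_one_zpow] at h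
  have h3 := Real.exp_pos l.re
  nlinarith [mul_pos h3 h2]

theorem kk_odd {e l : ℂ} (he : ‖e‖ = 1) (h : (conj e * exp l).re < 0) : Odd (kk e l) := by
  obtain ⟨h1, h2⟩ := cos_sign he h.ne
  by_contra hk
  rw [Int.not_odd_iff_even] at hk
  rw [h1, hk.neg_one_zpow] at h
  have h3 := Real.exp_pos l.re
  nlinarith [mul_pos h3 h2]

theorem kk_joined {Z : Type*} [TopologicalSpace Z] {f : Z → ℂ} (hf : Continuous f) {e : ℂ}
    (he : ‖e‖ = 1) {F : Set Z} (hF : ∀ z ∈ F, (conj e * exp (f z)).re ≠ 0) {z z' : Z}
    (h : JoinedIn F z z') : kk e (f z) = kk e (f z') := by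
  obtain ⟨g, hg⟩ := h
  have hloc : IsLocallyConstant (fun t : unitInterval => kk e (f (g t))) := by
    rw [IsLocallyConstant.iff_eventually_eq]
    intro t
    have hc : Continuous (fun t' : unitInterval =>
        |(f (g t')).im - arg e - Real.pi * kk e (f (g t))|) := by
      have : Continuous (fun t' : unitInterval => (f (g t')).im) :=
        Complex.continuous_im.comp (hf.comp g.continuous)
      fun_prop
    have h1 : ∀ᶠ t' in 𝓝 t, |(f (g t')).im - arg e - Real.pi * kk e (f (g t))| < Real.pi / 2 :=
      hc.continuousAt.eventually_lt continuousAt_const (kk_spec he (hF _ (hg t)))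
    filter_upwards [h1] with t' ht'
    exact kk_eq ht'
  have := hloc.apply_eq_of_isPreconnected (s := Set.univ) isPreconnected_univ
    (Set.mem_univ (0 : unitInterval)) (Set.mem_univ (1 : unitInterval))
  simpa using this

private theorem log_of_unit {e : ℂ} (he : ‖e‖ = 1) : log e = (arg e : ℝ) * I := by
  apply Complex.ext
  · rw [log_re, he]; simp
  · rw [log_im]; simp

theorem LU_kk {e l : ℂ} (he : ‖e‖ = 1) (h : 0 < (conj e * exp l).re) :
    l - LU e (exp l) = Real.pi * kk e l * I := by
  obtain ⟨m, hm⟩ := kk_even he h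
  have hs := kk_spec he h.ne'
  have hpi := Real.pi_pos
  have h1 : e = exp ((arg e : ℝ) * I) := by
    have := Complex.norm_mul_exp_arg_mul_I e
    rw [he] at this
    simpa using this.symm
  have h2 : conj e = exp (-((arg e : ℝ) * I)) := by
    conv_lhs => rw [h1]
    rw [← Complex.exp_conj]
    congr 1
    simp
  have h3 : conj e * exp l = exp (l - (arg e : ℝ) * I - (kk e l : ℝ) * Real.pi * I) := by
    rw [h2, ← exp_add]
    rw [hm]
    have h4 : l - (arg e : ℝ) * I - ((m + m : ℤ) : ℝ) * Real.pi * I =
        (-((arg e : ℝ) * I) + l) - (m : ℂ) * (2 * Real.pi * I) := by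
      push_cast
      ring
    rw [h4, exp_sub, exp_int_mul_two_pi_mul_I, div_one]
  have him : (l - (arg e : ℝ) * I - (kk e l : ℝ) * Real.pi * I).im =
      l.im - arg e - Real.pi * kk e l := by
    simp
    ring
  rw [abs_lt] at hs
  unfold LU
  rw [h3, log_exp (by rw [him]; linarith [hs.1]) (by rw [him]; linarith [hs.2]), log_of_unit he]
  push_cast
  ring

theorem LU_kk_neg {e l : ℂ} (he : ‖e‖ = 1) (h : 0 < (conj (-e) * exp l).re) :
    l - LU (-e) (exp l) = (Real.pi * kk e l + arg e - arg (-e)) * I := by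
  have hneg : (conj e * exp l).re < 0 := by
    have : conj (-e) * exp l = -(conj e * exp l) := by rw [map_neg]; ring
    rw [this, neg_re] at h
    linarith
  obtain ⟨m, hm⟩ := kk_odd he hneg
  have hs := kk_spec he hneg.ne
  have hpi := Real.pi_pos
  have he' : ‖-e‖ = 1 := by rw [norm_neg, he]
  have h1 : e = exp ((arg e : ℝ) * I) := by
    have := Complex.norm_mul_exp_arg_mul_I e
    rw [he] at this
    simpa using this.symm
  have h2 : conj e = exp (-((arg e : ℝ) * I)) := by
    conv_lhs => rw [h1]
    rw [← Complex.exp_conj]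
    congr 1
    simp
  have h3 : conj (-e) * exp l = exp (l - (arg e : ℝ) * I - (kk e l : ℝ) * Real.pi * I) := by
    rw [map_neg, h2, neg_mul, ← exp_add]
    rw [hm]
    have h4 : l - (arg e : ℝ) * I - ((2 * m + 1 : ℤ) : ℝ) * Real.pi * I =
        (-((arg e : ℝ) * I) + l) - (m : ℂ) * (2 * Real.pi * I) - Real.pi * I := by
      push_cast
      ring
    rw [h4, exp_sub, exp_sub, exp_int_mul_two_pi_mul_I, div_one, exp_pi_mul_I]
    rw [div_neg, div_one]
  have him : (l - (arg e : ℝ) * I - (kk e l : ℝ) * Real.pi * I).im =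
      l.im - arg e - Real.pi * kk e l := by
    simp
    ring
  rw [abs_lt] at hs
  unfold LU
  rw [h3, log_exp (by rw [him]; linarith [hs.1]) (by rw [him]; linarith [hs.2]), log_of_unit he']
  push_cast
  ring

theorem kk_rel {e e' l l' : ℂ} (he : ‖e‖ = 1) (he' : ‖e'‖ = 1)
    (h1 : 0 < (conj (-e) * exp l).re) (h2 : 0 < (conj e' * exp l).re)
    (h1' : 0 < (conj (-e) * exp l').re) (h2' : 0 < (conj e' * exp l').re) :
    kk e l = kk e l' ↔ kk e' l = kk e' l' := by
  have hne : ‖-e‖ = 1 := by rw [norm_neg, he]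
  have hpi := Real.pi_pos
  -- the intersection of the two half planes
  set H : Set ℂ := {d | 0 < (conj (-e) * d).re ∧ 0 < (conj e' * d).re} with hH
  have hconv : Convex ℝ H := by
    intro a ha b hb s t hs ht hst
    have key : ∀ u : ℂ, 0 < (conj u * a).re → 0 < (conj u * b).re →
        0 < (conj u * (s • a + t • b)).re := by
      intro u ua ub
      have : (conj u * (s • a + t • b)).re = s * (conj u * a).re + t * (conj u * b).re := by
        simp only [Complex.real_smul, mul_add, add_re]
        have e1 : conj u * ((s : ℂ) * a) = (s : ℂ) * (conj u * a) := by ring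
        have e2 : conj u * ((t : ℂ) * b) = (t : ℂ) * (conj u * b) := by ring
        rw [e1, e2, re_ofReal_mul, re_ofReal_mul]
      rw [this]
      rcases hs.lt_or_eq with hs' | hs'
      · have := mul_pos hs' ua
        have := mul_nonneg ht ub.le
        linarith
      · have ht' : t = 1 := by linarith
        rw [← hs', ht']
        simpa using ub
    exact ⟨key _ ha.1 hb.1, key _ ha.2 hb.2⟩
  have hcont : ContinuousOn (fun d => LU (-e) d - LU e' d) H :=
    ((LU_continuousOn (-e)).mono fun d hd => hd.1).sub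
      ((LU_continuousOn e').mono fun d hd => hd.2)
  have hmaps : Set.MapsTo (fun d => LU (-e) d - LU e' d) H {k : ℂ | bw 0 k = 1} := by
    intro d hd
    show bw 0 (LU (-e) d - LU e' d) = 1
    have hd0 : d ≠ 0 := by
      rintro rfl
      have := hd.1
      simp at this
    simp only [bw, if_true]
    rw [exp_sub, exp_LU hne hd.1, exp_LU he' hd.2, div_self hd0]
  have hlab : LU (-e) (exp l) - LU e' (exp l) = LU (-e) (exp l') - LU e' (exp l') := by
    have := lab_const (X := ℂ) hconv.isPreconnected 0 (fun d => LU (-e) d) (fun d => LU e' d)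
      ((LU_continuousOn (-e)).mono fun d hd => hd.1)
      ((LU_continuousOn e').mono fun d hd => hd.2)
      (fun d hd => by
        show bw 0 (LU (-e) d) = exp (LU e' d)
        rw [exp_LU he' hd.2]
        simp only [bw, if_true]
        exact exp_LU hne hd.1) (exp l) ⟨h1, h2⟩ (exp l') ⟨h1', h2'⟩
    simpa [lab, rt] using this
  have a1 := LU_kk_neg he h1
  have a1' := LU_kk_neg he h1'
  have a2 := LU_kk he' h2
  have a2' := LU_kk he' h2'
  have key : ((Real.pi : ℂ) * I) * ((kk e l : ℂ) - kk e' l) =
      ((Real.pi : ℂ) * I) * ((kk e l' : ℂ) - kk e' l') := by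
    linear_combination -a1 + a2 + a1' - a2' - hlab
  have hpI : ((Real.pi : ℂ) * I) ≠ 0 :=
    mul_ne_zero (by exact_mod_cast hpi.ne') I_ne_zero
  have key2 : ((kk e l : ℂ) - kk e' l) = ((kk e l' : ℂ) - kk e' l') := mul_left_cancel₀ hpI key
  have key3 : kk e l - kk e' l = kk e l' - kk e' l' := by exact_mod_cast key2
  constructor <;> intro h <;> omega

end ASP87
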