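import Pool.Agent.ASP87.DiaCell
import Pool.Agent.ASP87.SepCell
import Pool.Agent.ASP87.Surj
import Pool.Agent.ASP87.Time
import Pool.Agent.ASP87.Comp

/-!
# ASP87/OneLam: the standard line in a component of the outer region

One special point `x ()`, unit vector `e`, real `r < Re (conj e (x ()))`. Outer region
`OS e r = {Re (conj e c1) < r, Re (conj e c2) < r}`: a diagonal cell (`diaCell` with
`D' = {c : Re (conj e c) < r}`, direction `e`; `Re (conj e (x - c)) > 0` there).
`OP e r s`, `s = true/false`: `OS` and `Re (conj e (c2 - c1)) > 0` (true) or `< 0` (false): separated cells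
(`sepCell`, `U` convex open, `u = e` or `-e`, `i1 = i2 = none`, base point
`((r - 2) e, (r - 1) e)` or `((r - 1) e, (r - 2) e)`).

`exists_lam`: `q : Z -> YS` covering, `C` a component of `q^-1 OS`. Let `z0 in C` and `k1, k2` the labels
`diaLab` of `q z0` (`bw` of them is 1, `bw_lab`). Define `y : R -> YS`: `c1 = (r-2) e`, `ll = (arg e + H) i`,
so `exp ll = e exp (i H)`, `c2 = (r - 2) e + e exp (i H)`, `Re (conj e c2) = r - 2 + cos H < r`;
`s1 = act (w1 ()) k1 (rt (w1 ()) (LL e x c1))` (constant), `s2 = act (w2 ()) k2 (rt (w2 ()) (LL e x c2))`. It is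
continuous, `s1`, `s2`, `c2` are `2 pi`-periodic. Its labels are `k1, k2` (`lab_act`). By `cell_move` (GCell
of `OS`) there is `z in C` over `y 0`. `R` is simply connected and locally path connected: lift `y` to
`Lam : R -> Z` with `Lam 0 = z`. `Lam H` is joined to `z` in `q^-1 OS`.
`joined_of_kk`: `z, z' in C` with `Re (conj e exp ll) <> 0` at both and the same `kk e (ll)`: by `kk_even`,
`kk_odd` the real parts have the same sign, so both are over `OP s`; the labels `sepLab` agree: first two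
components are `diaLab` (`cell_lab` for `OS`), third by `LU_kk` / `LU_kk_neg` (`exp (ll) = c2 - c1`).
`cell_Q`: they are joined over `OP s`.
-/

namespace ASP87

open Complex Topology Set ComplexConjugate

variable {x : Unit → ℂ} {w1 w2 : Unit → ℕ}

/-- outer region -/
def OS (x : Unit → ℂ) (w1 w2 : Unit → ℕ) (e : ℂ) (r : ℝ) : Set (YS univ x w1 w2) :=
  {y | (conj e * c1 y).re < r ∧ (conj e * c2 y).re < r}

/-- its two separated halves -/
def OP (x : Unit → ℂ) (w1 w2 : Unit → ℕ) (e : ℂ) (r : ℝ) (s : Bool) :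
    Set (YS univ x w1 w2) :=
  {y | y ∈ OS x w1 w2 e r ∧ if s then 0 < (conj e * exp (ll y)).re
    else (conj e * exp (ll y)).re < 0}

private theorem conj_mul_one {e : ℂ} (he : ‖e‖ = 1) : conj e * e = 1 := by
  rw [mul_comm, Complex.mul_conj, Complex.normSq_eq_norm_sq, he]
  simp

private theorem re_base {e : ℂ} (he : ‖e‖ = 1) (a : ℝ) : (conj e * ((a : ℂ) * e)).re = a := by
  have h1 : conj e * ((a : ℂ) * e) = (a : ℂ) := by
    linear_combination (a : ℂ) * conj_mul_one he
  rw [h1, ofReal_re]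

private theorem re_cont (e : ℂ) : Continuous (fun c : ℂ => (conj e * c).re) :=
  continuous_re.comp (continuous_const.mul continuous_id)

private theorem re_comb (e : ℂ) (a b : ℝ) (c c' : ℂ) :
    (conj e * (a • c + b • c')).re = a * (conj e * c).re + b * (conj e * c').re := by
  rw [mul_add, add_re, mul_smul_comm, mul_smul_comm, smul_re, smul_re, smul_eq_mul,
    smul_eq_mul]

private theorem comb_lt {a b u v c : ℝ} (ha : 0 ≤ a) (hb : 0 ≤ b) (hab : a + b = 1)
    (hu : u < c) (hv : v < c) : a * u + b * v < c := by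
  have h1 : a * u + b * v - c = a * (u - c) + b * (v - c) := by
    linear_combination c * hab
  rcases eq_or_lt_of_le ha with h | h
  · have hb1 : b = 1 := by linarith
    rw [← h, hb1]
    linarith
  · nlinarith

private theorem comb_gt {a b u v c : ℝ} (ha : 0 ≤ a) (hb : 0 ≤ b) (hab : a + b = 1)
    (hu : c < u) (hv : c < v) : c < a * u + b * v := by
  have h1 := comb_lt ha hb hab (neg_lt_neg hu) (neg_lt_neg hv)
  linarith

theorem OS_cell {e : ℂ} (he : ‖e‖ = 1) {r : ℝ} (hr : r < (conj e * x ()).re) :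
    GCell (OS x w1 w2 e r) (diaLab (fun _ => e)) := by
  refine diaCell (D := univ) {c : ℂ | (conj e * c).re < r} ?_ ?_ ?_ (subset_univ _)
    (fun _ => e) (fun _ => he) ?_
  · exact isOpen_lt (re_cont e) continuous_const
  · intro c hc c' hc' a b ha hb hab
    show (conj e * (a • c + b • c')).re < r
    rw [re_comb]
    exact comb_lt ha hb hab hc hc'
  · refine ⟨((r - 1 : ℝ) : ℂ) * e, ?_⟩
    show (conj e * (((r - 1 : ℝ) : ℂ) * e)).re < r
    rw [re_base he]
    linarith
  · intro c hc m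
    have hc' : (conj e * c).re < r := hc
    rw [mul_sub, sub_re]
    have hm : m = () := rfl
    rw [hm]
    linarith

private theorem exp_ll' (y : YS univ x w1 w2) : exp (ll y) = c2 y - c1 y := y.2.2.2.2.2

private theorem OP_aux {e u : ℂ} (he : ‖e‖ = 1) (hu : ‖u‖ = 1) {r : ℝ}
    (hr : r < (conj e * x ()).re) (b : ℂ × ℂ) (hb1 : (conj e * b.1).re < r)
    (hb2 : (conj e * b.2).re < r) (hb3 : 0 < (conj u * (b.2 - b.1)).re) :
    GCell {y : YS univ x w1 w2 | (c1 y, c2 y) ∈ {q : ℂ × ℂ | (conj e * q.1).re < r ∧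
      (conj e * q.2).re < r ∧ 0 < (conj u * (q.2 - q.1)).re}}
      (sepLab (fun _ => e) u none none) := by
  refine sepCell _ ?_ ?_ (fun q _ => ⟨mem_univ _, mem_univ _⟩) (fun _ => e) (fun _ => he) u hu
    none none ?_ ?_ (fun q hq => hq.2.2) b ⟨hb1, hb2, hb3⟩ (fun m hm => by cases hm)
    (fun m hm => by cases hm)
  · refine IsOpen.inter ?_ (IsOpen.inter ?_ ?_)
    · exact isOpen_lt ((re_cont e).comp continuous_fst) continuous_const
    · exact isOpen_lt ((re_cont e).comp continuous_snd) continuous_const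
    · exact isOpen_lt continuous_const ((re_cont u).comp (continuous_snd.sub continuous_fst))
  · rintro c ⟨h1, h2, h3⟩ c' ⟨h1', h2', h3'⟩ a b ha hb hab
    refine ⟨?_, ?_, ?_⟩
    · show (conj e * (a • c.1 + b • c'.1)).re < r
      rw [re_comb]
      exact comb_lt ha hb hab h1 h1'
    · show (conj e * (a • c.2 + b • c'.2)).re < r
      rw [re_comb]
      exact comb_lt ha hb hab h2 h2'
    · show 0 < (conj u * ((a • c.2 + b • c'.2) - (a • c.1 + b • c'.1))).re
      have h4 : (a • c.2 + b • c'.2) - (a • c.1 + b • c'.1) =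
          a • (c.2 - c.1) + b • (c'.2 - c'.1) := by
        rw [smul_sub, smul_sub]
        ring
      rw [h4, re_comb]
      exact comb_gt ha hb hab h3 h3'
  · rintro c ⟨h1, -, -⟩ m -
    rw [mul_sub, sub_re]
    have hm : m = () := rfl
    rw [hm]
    linarith
  · rintro c ⟨-, h2, -⟩ m -
    rw [mul_sub, sub_re]
    have hm : m = () := rfl
    rw [hm]
    linarith

theorem OP_cell {e : ℂ} (he : ‖e‖ = 1) {r : ℝ} (hr : r < (conj e * x ()).re) (s : Bool) :
    GCell (OP x w1 w2 e r s) (sepLab (fun _ => e) (if s then e else -e) none none) := by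
  cases s with
  | true =>
    have h1 : OP x w1 w2 e r true = {y : YS univ x w1 w2 | (c1 y, c2 y) ∈
        {q : ℂ × ℂ | (conj e * q.1).re < r ∧ (conj e * q.2).re < r ∧
          0 < (conj e * (q.2 - q.1)).re}} := by
      ext y
      show (((conj e * c1 y).re < r ∧ (conj e * c2 y).re < r) ∧ (if (true : Bool) = true then
        0 < (conj e * exp (ll y)).re else (conj e * exp (ll y)).re < 0)) ↔
        ((conj e * c1 y).re < r ∧ (conj e * c2 y).re < r ∧ 0 < (conj e * (c2 y - c1 y)).re)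
      rw [if_pos rfl, exp_ll', and_assoc]
    rw [h1]
    have h2 := OP_aux (w1 := w1) (w2 := w2) he he hr (((r - 2 : ℝ) : ℂ) * e, ((r - 1 : ℝ) : ℂ) * e)
      (by rw [re_base he]; linarith) (by rw [re_base he]; linarith)
      (by
        show 0 < (conj e * (((r - 1 : ℝ) : ℂ) * e - ((r - 2 : ℝ) : ℂ) * e)).re
        rw [mul_sub, sub_re, re_base he, re_base he]
        norm_num)
    exact h2
  | false =>
    have hne : ‖-e‖ = 1 := by rw [norm_neg, he]
    have h1 : OP x w1 w2 e r false = {y : YS univ x w1 w2 | (c1 y, c2 y) ∈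
        {q : ℂ × ℂ | (conj e * q.1).re < r ∧ (conj e * q.2).re < r ∧
          0 < (conj (-e) * (q.2 - q.1)).re}} := by
      ext y
      show (((conj e * c1 y).re < r ∧ (conj e * c2 y).re < r) ∧ (if (false : Bool) = true then
        0 < (conj e * exp (ll y)).re else (conj e * exp (ll y)).re < 0)) ↔
        ((conj e * c1 y).re < r ∧ (conj e * c2 y).re < r ∧ 0 < (conj (-e) * (c2 y - c1 y)).re)
      rw [if_neg Bool.false_ne_true, exp_ll', and_assoc, map_neg, neg_mul, neg_re,
        Left.neg_pos_iff]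
    rw [h1]
    have h2 := OP_aux (w1 := w1) (w2 := w2) he hne hr
      (((r - 1 : ℝ) : ℂ) * e, ((r - 2 : ℝ) : ℂ) * e)
      (by rw [re_base he]; linarith) (by rw [re_base he]; linarith)
      (by
        show 0 < (conj (-e) * (((r - 2 : ℝ) : ℂ) * e - ((r - 1 : ℝ) : ℂ) * e)).re
        rw [map_neg, neg_mul, neg_re, mul_sub, sub_re, re_base he, re_base he]
        norm_num)
    exact h2

variable {Z : Type*} [TopologicalSpace Z] {q : Z → YS univ x w1 w2}

private theorem act_cont (w : ℕ) (k : ℂ) : Continuous (act w k) := by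
  unfold act
  by_cases hw : w = 0
  · simp only [hw, if_true]
    exact continuous_const.add continuous_id
  · simp only [hw, if_false]
    exact continuous_const.mul continuous_id

private theorem lam_c2 {e : ℂ} (he : ‖e‖ = 1) (r H : ℝ) :
    (conj e * (((r - 2 : ℝ) : ℂ) * e + exp (((arg e + H : ℝ) : ℂ) * I))).re < r := by
  rw [mul_add, add_re, re_base he, re_exp he, re_ofReal_mul, im_ofReal_mul, I_re, I_im,
    mul_zero, mul_one, Real.exp_zero, one_mul]
  have h1 := Real.cos_le_one (arg e + H - arg e)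
  linarith

private theorem lam_half {e : ℂ} {r : ℝ} (hr : r < (conj e * x ()).re) {c : ℂ}
    (hc : (conj e * c).re < r) : 0 < (conj e * (x () - c)).re := by
  rw [mul_sub, sub_re]
  linarith

private theorem lam_bw {e : ℂ} (he : ‖e‖ = 1) {r : ℝ} (hr : r < (conj e * x ()).re) {w : ℕ}
    {k c : ℂ} (hk : bw w k = 1) (hc : (conj e * c).re < r) :
    bw w (act w k (rt w (LL e (x ()) c))) = c - x () := by
  rw [bw_act, hk, bw_rt, exp_LL he (lam_half hr hc), one_mul]

private noncomputable def lamY {e : ℂ} (he : ‖e‖ = 1) {r : ℝ} (hr : r < (conj e * x ()).re)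
    {k1 k2 : ℂ} (hk1 : bw (w1 ()) k1 = 1) (hk2 : bw (w2 ()) k2 = 1) (H : ℝ) :
    YS univ x w1 w2 :=
  ⟨(((r - 2 : ℝ) : ℂ) * e, ((r - 2 : ℝ) : ℂ) * e + exp (((arg e + H : ℝ) : ℂ) * I),
    fun _ => act (w1 ()) k1 (rt (w1 ()) (LL e (x ()) (((r - 2 : ℝ) : ℂ) * e))),
    fun _ => act (w2 ()) k2 (rt (w2 ()) (LL e (x ()) (((r - 2 : ℝ) : ℂ) * e +
      exp (((arg e + H : ℝ) : ℂ) * I)))), ((arg e + H : ℝ) : ℂ) * I),
    mem_univ _, mem_univ _,
    fun _ => lam_bw he hr hk1 (by rw [re_base he]; linarith),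
    fun _ => lam_bw he hr hk2 (lam_c2 he r H),
    by
      show exp (((arg e + H : ℝ) : ℂ) * I) = ((r - 2 : ℝ) : ℂ) * e +
        exp (((arg e + H : ℝ) : ℂ) * I) - ((r - 2 : ℝ) : ℂ) * e
      ring⟩

private theorem lamY_cont {e : ℂ} (he : ‖e‖ = 1) {r : ℝ} (hr : r < (conj e * x ()).re)
    {k1 k2 : ℂ} (hk1 : bw (w1 ()) k1 = 1) (hk2 : bw (w2 ()) k2 = 1) :
    Continuous (lamY (w1 := w1) (w2 := w2) he hr hk1 hk2) := by
  have h1 : Continuous (fun H : ℝ => ((arg e + H : ℝ) : ℂ) * I) :=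
    (continuous_ofReal.comp (continuous_const.add continuous_id)).mul continuous_const
  have h2 : Continuous (fun H : ℝ => ((r - 2 : ℝ) : ℂ) * e +
      exp (((arg e + H : ℝ) : ℂ) * I)) := continuous_const.add (continuous_exp.comp h1)
  refine Continuous.subtype_mk (continuous_const.prodMk (h2.prodMk (continuous_const.prodMk
    (Continuous.prodMk (continuous_pi fun _ => ?_) h1)))) _
  refine (act_cont _ _).comp ((rt_continuous _).comp ?_)
  exact (LL_continuousOn e (x ())).comp_continuous h2 fun H => lam_half hr (lam_c2 he r H)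

theorem exists_lam (hq : IsCoveringMap q) {e : ℂ} (he : ‖e‖ = 1) {r : ℝ}
    (hr : r < (conj e * x ()).re) (C : Comp q (OS x w1 w2 e r)) :
    ∃ L : ℝ → Z, Continuous L ∧ (∀ H, L H ∈ C.1) ∧ (∀ H, c1 (q (L H)) = ((r - 2 : ℝ) : ℂ) * e) ∧
      (∀ H, ll (q (L H)) = ((arg e + H : ℝ) : ℂ) * I) ∧
      (∀ H, s1 (q (L (H + 2 * Real.pi))) () = s1 (q (L H)) ()) ∧
      ∀ H, s2 (q (L (H + 2 * Real.pi))) () = s2 (q (L H)) () := by
  obtain ⟨z0, hz0⟩ := comp_nonempty C
  have hO := comp_mem hz0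
  have hk1 : bw (w1 ()) (lab (w1 ()) (s1 (q z0) ()) (rt (w1 ()) (LL e (x ()) (c1 (q z0))))) =
      1 := by
    apply bw_lab
    rw [exp_LL he (lam_half hr hO.1)]
    exact (q z0).2.2.2.1 ()
  have hk2 : bw (w2 ()) (lab (w2 ()) (s2 (q z0) ()) (rt (w2 ()) (LL e (x ()) (c2 (q z0))))) =
      1 := by
    apply bw_lab
    rw [exp_LL he (lam_half hr hO.2)]
    exact (q z0).2.2.2.2.1 ()
  have hyO : ∀ H, lamY (w1 := w1) (w2 := w2) he hr hk1 hk2 H ∈ OS x w1 w2 e r := by
    intro H
    refine ⟨?_, lam_c2 he r H⟩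
    show (conj e * (((r - 2 : ℝ) : ℂ) * e)).re < r
    rw [re_base he]
    linarith
  have hlab : diaLab (fun _ => e) (lamY (w1 := w1) (w2 := w2) he hr hk1 hk2 0) =
      diaLab (fun _ => e) (q z0) := by
    refine Prod.ext ?_ ?_
    · funext m
      exact lab_act _ _ _
    · funext m
      exact lab_act _ _ _
  obtain ⟨z, hz, hqz⟩ := cell_move hq (OS_cell he hr) hO (hyO 0) hlab
  have hzC : z ∈ C.1 := (comp_joined hz0).2 hz
  obtain ⟨L, ⟨hL1, hL2⟩, -⟩ := hq.existsUnique_continuousMap_lifts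
    ⟨lamY (w1 := w1) (w2 := w2) he hr hk1 hk2, lamY_cont he hr hk1 hk2⟩ 0 z hqz
  have hL : ∀ H, q (L H) = lamY (w1 := w1) (w2 := w2) he hr hk1 hk2 H := fun H =>
    congrFun hL2 H
  refine ⟨L, L.continuous, ?_, ?_, ?_, ?_, ?_⟩
  · intro H
    refine (comp_joined hzC).2 ?_
    obtain ⟨γ⟩ := PathConnectedSpace.joined (0 : ℝ) H
    refine ⟨⟨⟨fun t => L (γ t), L.continuous.comp γ.continuous⟩, ?_, ?_⟩, fun t => ?_⟩
    · show L (γ 0) = z
      rw [γ.source, hL1]
    · show L (γ 1) = L H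
      rw [γ.target]
    · show q (L (γ t)) ∈ OS x w1 w2 e r
      rw [hL]
      exact hyO _
  · intro H
    rw [hL]
    rfl
  · intro H
    rw [hL]
    rfl
  · intro H
    rw [hL, hL]
    rfl
  · intro H
    rw [hL, hL]
    show act (w2 ()) _ (rt (w2 ()) (LL e (x ()) (((r - 2 : ℝ) : ℂ) * e +
      exp (((arg e + (H + 2 * Real.pi) : ℝ) : ℂ) * I)))) = act (w2 ()) _ (rt (w2 ()) (LL e (x ())
        (((r - 2 : ℝ) : ℂ) * e + exp (((arg e + H : ℝ) : ℂ) * I))))
    have h1 : exp (((arg e + (H + 2 * Real.pi) : ℝ) : ℂ) * I) =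
        exp (((arg e + H : ℝ) : ℂ) * I) := by
      have h2 : ((arg e + (H + 2 * Real.pi) : ℝ) : ℂ) * I =
          ((arg e + H : ℝ) : ℂ) * I + 2 * Real.pi * I := by
        push_cast
        ring
      rw [h2, exp_add, exp_two_pi_mul_I, mul_one]
    rw [h1]

theorem joined_of_kk (hq : IsCoveringMap q) {e : ℂ} (he : ‖e‖ = 1) {r : ℝ}
    (hr : r < (conj e * x ()).re) {C : Comp q (OS x w1 w2 e r)} {z z' : Z} (hz : z ∈ C.1)
    (hz' : z' ∈ C.1) (h : (conj e * exp (ll (q z))).re ≠ 0)
    (h' : (conj e * exp (ll (q z'))).re ≠ 0) (hk : kk e (ll (q z)) = kk e (ll (q z'))) :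
    ∃ s : Bool, (s = true ↔ Even (kk e (ll (q z)))) ∧
      JoinedIn (q ⁻¹' (OP x w1 w2 e r s)) z z' := by
  have hj : JoinedIn (q ⁻¹' (OS x w1 w2 e r)) z z' := (comp_joined hz).1 hz'
  have hd : diaLab (fun _ => e) (q z') = diaLab (fun _ => e) (q z) :=
    cell_lab hq (OS_cell he hr) hj
  have hd1 : (diaLab (fun _ => e) (q z)).1 = (diaLab (fun _ => e) (q z')).1 := by rw [hd]
  have hd2 : (diaLab (fun _ => e) (q z)).2 = (diaLab (fun _ => e) (q z')).2 := by rw [hd]
  rcases lt_or_gt_of_ne h with hn | hp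
  · have hodd := kk_odd he hn
    have hn' : (conj e * exp (ll (q z'))).re < 0 := by
      rcases lt_or_gt_of_ne h' with hn' | hp'
      · exact hn'
      · exfalso
        have hev := kk_even he hp'
        rw [← hk] at hev
        exact Int.not_even_iff_odd.2 hodd hev
    refine ⟨false, ⟨fun hb => (by cases hb), fun hev =>
      absurd hev (Int.not_even_iff_odd.2 hodd)⟩, ?_⟩
    refine cell_Q hq (OS_cell he hr) (OP_cell he hr false) (fun y hy => hy.1) hj
      ⟨comp_mem hz, ?_⟩ ⟨comp_mem hz', ?_⟩ ?_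
    · show (conj e * exp (ll (q z))).re < 0
      exact hn
    · show (conj e * exp (ll (q z'))).re < 0
      exact hn'
    · have hng : ∀ l : ℂ, (conj e * exp l).re < 0 → 0 < (conj (-e) * exp l).re := by
        intro l hl
        rw [map_neg, neg_mul, neg_re]
        linarith
      have h3 : ll (q z) - LU (-e) (c2 (q z) - c1 (q z)) =
          ll (q z') - LU (-e) (c2 (q z') - c1 (q z')) := by
        rw [← exp_ll', ← exp_ll', LU_kk_neg he (hng _ hn), LU_kk_neg he (hng _ hn'), hk]
      exact Prod.ext hd1 (Prod.ext hd2 h3)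
  · have hev := kk_even he hp
    have hp' : 0 < (conj e * exp (ll (q z'))).re := by
      rcases lt_or_gt_of_ne h' with hn' | hp'
      · exfalso
        have hodd := kk_odd he hn'
        rw [← hk] at hodd
        exact Int.not_even_iff_odd.2 hodd hev
      · exact hp'
    refine ⟨true, ⟨fun _ => hev, fun _ => rfl⟩, ?_⟩
    refine cell_Q hq (OS_cell he hr) (OP_cell he hr true) (fun y hy => hy.1) hj
      ⟨comp_mem hz, ?_⟩ ⟨comp_mem hz', ?_⟩ ?_
    · show 0 < (conj e * exp (ll (q z))).re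
      exact hp
    · show 0 < (conj e * exp (ll (q z'))).re
      exact hp'
    · have h3 : ll (q z) - LU e (c2 (q z) - c1 (q z)) =
          ll (q z') - LU e (c2 (q z') - c1 (q z')) := by
        rw [← exp_ll', ← exp_ll', LU_kk he hp, LU_kk he hp', hk]
      exact Prod.ext hd1 (Prod.ext hd2 h3)

end ASP87
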