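import Pool.Agent.ASP87.IIWc
import Pool.Agent.ASP87.OneLam

/-!
# ASP87/IIShell: injectivity of the comparison below a state (i,i)

`r1 < r2 = Re (conj (e i) (x i))`, so `OS (e i) r1` is the outer region of the one-point space.
`shellII`: `z, z'` have the states `(none,none)` and `(some i, some i)`; `f z, f z'` are joined over
`OS (e i) r1`; `z, z'` are joined over `(some i, some i)`. Then they are joined over the set of points
having both states.
PROOF. In the one-point space: `T' = {y : |c1|, |c2| < 1, r0 < d i c1 < r1, r0 < d i c2 < r1}` is a diagonal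
cell (`diaCell`, `D' = {|z| < 1, r0 < d i z < r1}` open convex nonempty, direction `e i`; labels
`diaLab (fun _ => e i)`, the same labels as for `OS`), contained in `OS (e i) r1` and in `capV i`.
`f z, f z'` are over `T'` (`U_00`, `U_ij`) and joined over `OS`, so their labels agree (`cell_lab`), so by
`cell_Q` they are joined over `T'` by a path `P`. `liftII` with `A = I`: `E : I -> Z`, `E 0 = z`, `f o E = P`.
`p (E t)` has both states: `c1, c2` of it are those of `q (P t)`, in `D'` (for `m <> i`, `d m <= r0 < r1`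
by `disj`; `U_00`, `U_ij`). `f (E 1) = f z'`, and `E 1` is joined to `z`, hence to `z'`, over `(i,i)`:
`injU`: `E 1 = z'`.
-/

set_option linter.unusedSectionVars false

namespace ASP87

open Complex Topology Set ComplexConjugate

variable {ι : Type*} [Fintype ι] [DecidableEq ι] {g : Geo ι} {w1 w2 : ι → ℕ} {i : ι}
variable {Z Z1 : Type*} [TopologicalSpace Z] [TopologicalSpace Z1] {p : Z → YD g w1 w2}
  {q : Z1 → Y1 g w1 w2 i} {f : Z → Z1}

theorem geo_hr (g : Geo ι) (i : ι) : g.r1 < (conj (g.e i) * g.x i).re := by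
  have h1 : g.d i (g.x i) = g.r2 := g.d_x i
  have h2 : (conj (g.e i) * g.x i).re = g.r2 := h1
  rw [h2]
  exact g.h12

private theorem d_cont (g : Geo ι) (i : ι) : Continuous (g.d i) := by
  unfold Geo.d
  exact Complex.continuous_re.comp (continuous_const.mul continuous_id)

private theorem d_comb (g : Geo ι) (i : ι) (a b : ℝ) (x y : ℂ) :
    g.d i (a • x + b • y) = a * g.d i x + b * g.d i y := by
  unfold Geo.d
  have e1 : conj (g.e i) * (a • x + b • y) =
      (a : ℂ) * (conj (g.e i) * x) + (b : ℂ) * (conj (g.e i) * y) := by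
    simp only [Complex.real_smul]
    ring
  rw [e1, add_re, re_ofReal_mul, re_ofReal_mul]

/-- the shell -/
private def SH (g : Geo ι) (i : ι) : Set ℂ := {c | ‖c‖ < 1 ∧ g.r0 < g.d i c ∧ g.d i c < g.r1}

private theorem SH_open (g : Geo ι) (i : ι) : IsOpen (SH g i) :=
  (isOpen_lt continuous_norm continuous_const).inter
    ((isOpen_lt continuous_const (d_cont g i)).inter (isOpen_lt (d_cont g i) continuous_const))

private theorem comb_lt' {a b u v c : ℝ} (ha : 0 ≤ a) (hb : 0 ≤ b) (hab : a + b = 1) (hu : u < c)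
    (hv : v < c) : a * u + b * v < c := by
  rcases ha.lt_or_eq with h | h
  · have e : a * c + b * c = c := by rw [← add_mul, hab, one_mul]
    have e1 := mul_lt_mul_of_pos_left hu h
    have e2 := mul_le_mul_of_nonneg_left hv.le hb
    linarith
  · have hb1 : b = 1 := by linarith
    rw [← h, hb1]
    linarith

private theorem SH_convex (g : Geo ι) (i : ι) : Convex ℝ (SH g i) := by
  intro x hx y hy a b ha hb hab
  refine ⟨?_, ?_, ?_⟩
  · refine lt_of_le_of_lt (norm_add_le _ _) ?_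
    rw [norm_smul, norm_smul, Real.norm_eq_abs, Real.norm_eq_abs, abs_of_nonneg ha,
      abs_of_nonneg hb]
    exact comb_lt' ha hb hab hx.1 hy.1
  · rw [d_comb]
    have := comb_lt' ha hb hab (neg_lt_neg hx.2.1) (neg_lt_neg hy.2.1)
    linarith
  · rw [d_comb]
    exact comb_lt' ha hb hab hx.2.2 hy.2.2

private theorem SH_nonempty (g : Geo ι) (i : ι) : (SH g i).Nonempty := by
  have h0 := g.h0
  have h01 := g.h01
  have h12 := g.h12
  have h2 := g.h2
  refine ⟨(((g.r0 + g.r1) / 2 : ℝ) : ℂ) * g.e i, ?_⟩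
  have hd : g.d i ((((g.r0 + g.r1) / 2 : ℝ) : ℂ) * g.e i) = (g.r0 + g.r1) / 2 := by
    have h : conj (g.e i) * ((((g.r0 + g.r1) / 2 : ℝ) : ℂ) * g.e i) =
        (((g.r0 + g.r1) / 2 : ℝ) : ℂ) * (conj (g.e i) * g.e i) := by ring
    have h' : conj (g.e i) * g.e i = ((1 : ℝ) : ℂ) := by
      rw [mul_comm, Complex.mul_conj, Complex.normSq_eq_norm_sq, g.he i]
      norm_num
    unfold Geo.d
    rw [h, h']
    simp only [ofReal_one, mul_one, ofReal_re]
  refine ⟨?_, ?_, ?_⟩
  · rw [norm_mul, g.he, mul_one, Complex.norm_real, Real.norm_eq_abs, abs_of_pos (by linarith)]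
    linarith
  · rw [hd]; linarith
  · rw [hd]; linarith

private theorem chU2_iff (g : Geo ι) (w1 w2 : ι → ℕ) (i : ι) (y : YD g w1 w2) :
    y ∈ chU g w1 w2 {(none, none), (some i, some i)} ↔ c1 y ∈ SH g i ∧ c2 y ∈ SH g i := by
  have h01 := g.h01
  show (∀ t ∈ ({(none, none), (some i, some i)} : Set (St ι)), (c1 y, c2 y) ∈ g.U t) ↔ _
  constructor
  · intro h
    obtain ⟨h1, h2, h3⟩ := g.U_00.1 (h (none, none) (Set.mem_insert _ _))
    obtain ⟨_, _, h6, h7⟩ := g.U_ij.1 (h (some i, some i)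
      (Set.mem_insert_of_mem _ (Set.mem_singleton _)))
    exact ⟨⟨h1, h6, (h3 i).1⟩, h2, h7, (h3 i).2⟩
  · rintro ⟨⟨h1, h2, h3⟩, h4, h5, h6⟩ t ht
    have key : ∀ c : ℂ, ‖c‖ < 1 → g.r0 < g.d i c → g.d i c < g.r1 → ∀ m, g.d m c < g.r1 := by
      intro c k1 k2 k3 m
      by_cases hm : m = i
      · rw [hm]; exact k3
      · exact (g.disj k1 k2 hm).trans_lt h01
    rw [Set.mem_insert_iff, Set.mem_singleton_iff] at ht
    rcases ht with rfl | rfl
    · exact g.U_00.2 ⟨h1, h4, fun m => ⟨key _ h1 h2 h3 m, key _ h4 h5 h6 m⟩⟩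
    · exact g.U_ij.2 ⟨h1, h4, h2, h5⟩

theorem shellII (h : IIS g w1 w2 i p q f) (hZ : WC Z1) {z z' : Z}
    (hz : p z ∈ chU g w1 w2 {(none, none), (some i, some i)})
    (hz' : p z' ∈ chU g w1 w2 {(none, none), (some i, some i)})
    (h1 : JoinedIn (q ⁻¹' OS (fun _ => g.x i) (fun _ => w1 i) (fun _ => w2 i) (g.e i) g.r1)
      (f z) (f z'))
    (h2 : JoinedIn (p ⁻¹' chU g w1 w2 {(some i, some i)}) z z') :
    JoinedIn (p ⁻¹' chU g w1 w2 {(none, none), (some i, some i)}) z z' := by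
  have hhalf : ∀ c ∈ SH g i, ∀ _m : Unit, 0 < (conj (g.e i) * (g.x i - c)).re :=
    fun c hc _ => g.half (hc.2.2.trans g.h12)
  have hC1 := OS_cell (x := fun _ : Unit => g.x i) (w1 := fun _ => w1 i) (w2 := fun _ => w2 i)
    (g.he i) (geo_hr g i)
  have hC2 := diaCell (D := univ) (x := fun _ : Unit => g.x i) (w1 := fun _ => w1 i)
    (w2 := fun _ => w2 i) (SH g i) (SH_open g i) (SH_convex g i) (SH_nonempty g i)
    (subset_univ _) (fun _ => g.e i) (fun _ => g.he i) hhalf
  have hsub : {y : Y1 g w1 w2 i | c1 y ∈ SH g i ∧ c2 y ∈ SH g i} ⊆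
      OS (fun _ => g.x i) (fun _ => w1 i) (fun _ => w2 i) (g.e i) g.r1 :=
    fun y hy => ⟨hy.1.2.2, hy.2.2.2⟩
  have hmem : ∀ w : Z, p w ∈ chU g w1 w2 {(none, none), (some i, some i)} ↔
      q (f w) ∈ {y : Y1 g w1 w2 i | c1 y ∈ SH g i ∧ c2 y ∈ SH g i} := by
    intro w
    rw [chU2_iff, h.comm]
    rfl
  have hL := cell_lab h.hq hC1 h1
  obtain ⟨P, hP⟩ := cell_Q h.hq hC1 hC2 hsub h1 ((hmem z).1 hz) ((hmem z').1 hz') hL.symm
  have hP' : ∀ t, q (P t) ∈ {y : Y1 g w1 w2 i | c1 y ∈ SH g i ∧ c2 y ∈ SH g i} := hP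
  have := scI87
  have := lpcI87
  obtain ⟨E, hE, hE0, hEf⟩ := liftII h (A := unitInterval) (fun t => P t) P.continuous
    (fun t => ⟨(hP' t).1.1, (hP' t).2.1, (hP' t).1.2.1, (hP' t).2.2.1⟩) 0 z
    (by show f z = P 0; rw [P.source])
  have hEm : ∀ t, p (E t) ∈ chU g w1 w2 {(none, none), (some i, some i)} := by
    intro t
    rw [hmem, hEf]
    exact hP' t
  have hj : JoinedIn (p ⁻¹' chU g w1 w2 {(none, none), (some i, some i)}) z (E 1) :=
    ⟨⟨⟨E, hE⟩, hE0, rfl⟩, fun t => hEm t⟩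
  have hmono : chU g w1 w2 {(none, none), (some i, some i)} ⊆ chU g w1 w2 {(some i, some i)} :=
    fun y hy t ht => hy t (Set.mem_insert_of_mem _ ht)
  have he : E 1 = z' := by
    refine injU h hZ ((hj.mono (preimage_mono hmono)).symm.trans h2) ?_
    rw [hEf, P.target]
  rw [he] at hj
  exact hj

end ASP87
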