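import Pool.Agent.ASP87.II

/-!
# ASP87/IIWc: the cap part of the universal cover of the one-point space is weakly contractible

`wcR`: `Z1` weakly contractible, `q : Z1 -> Y1 i` covering, `capV` nonempty in the image:
`{z : q z in capV i}` is WC.
Scaling on `Y1 i` around `x i` by a real factor `a > 0`: `Sc a y` = (`x + a (c1 - x)`, `x + a (c2 - x)`,
`scl w1 a s1`, `scl w2 a s2`, `ll + log a`), `x = g.x i`: again in `Y1 i` (`bw_scl`), jointly continuous in
`(a, y)` for `a > 0`, `Sc 1 y = y`. The cap `K = {|z| < 1, r0 < d i z}` is convex and contains `x`, so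
`Sc a` maps `capV` to itself for `a in (0, 1]`. Let `eta > 0` with `ball x eta` in `K`, and
`F y = eta / (eta + |c1 - x| + |c2 - x|)` in `(0, 1]`: `Sc (F y) y in capV` for all `y`.
Homotopy on `Y1 i`: `M (y, t) = Sc (1 - t + t F y) y`, `M (y, 0) = y`. Lift to `Z1`: the map
`(t, z) |-> M (q z, t)` from `I x Z1` has a continuous lift `M'` with `M' (0, z) = z`
(Mathlib `IsCoveringMap.liftHomotopy`, with `f = id`). `q (M' (1, z)) in capV`. If `q z in capV` then
`q (M' (t, z)) in capV` for all `t`.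
Domination (`wc_dom`): `X = Z1`, `Y = R = {z : q z in capV}`; `j : Z1 -> R`, `j z = M' (1, z)`;
`r : R -> Z1` inclusion; homotopy `H : R x I -> R`, `H (z, t) = M' (t, z)`: `H (z,0) = z`,
`H (z, 1) = j (r z)`.

`injU`: `z, z'` joined over state `(i,i)` and `f z = f z'` gives `z = z'`. Let `P` be a path in
`p^-1 (state (i,i))` from `z` to `z'`. `f o P` is a loop in `R`; `R` is simply connected
(`wc_simplyConnected`), so there is a homotopy `H : I x I -> R` rel end points from `f o P` (`t = 0`) to the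
constant (`t = 1`). `liftII` with `A = I x I` (simply connected, locally path connected: convex subset /
product; see `Pool.Agent.H85.Cube` and `scI87`, `lpcI87` in UCSC) gives `E : I x I -> Z`, `E (0,0) = z`,
`f o E = H`. By `uniqII`: `E (s, 0) = P s` (both lie over `(i,i)`: `mem_capV_iff`); `E (0, t) = z`;
`E (s, 1) = z` (start `E (0,1) = z`); `E (1, t) = z'` (start `E (1, 0) = P 1 = z'`). So `z' = E (1,1) = z`.

`wcU`: the component `C` of `z0` over `(i,i)` in `Z` is WC: `Ext d`, `d = 0`: `ext_zero`; `d >= 1`: let `k` be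
continuous on the boundary `B` of the cube with values in `C`; `f o k` has values in `R`, extend it to
`G : cube -> R`; `liftII` with `A` = cube, start `k 0` (`0 in B`): `E : cube -> Z`, `f o E = G`. `E x` is
joined to `E 0 = k 0` over `(i,i)`, so `E x in C`; for `x in B`: `f (E x) = f (k x)`, both in `C`, `injU`:
`E x = k x`.
-/

namespace ASP87

open scoped unitInterval
open Complex Topology Set ComplexConjugate

variable {ι : Type*} [Fintype ι] [DecidableEq ι] {g : Geo ι} {w1 w2 : ι → ℕ} {i : ι}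
variable {Z Z1 : Type*} [TopologicalSpace Z] [TopologicalSpace Z1] {p : Z → YD g w1 w2}
  {q : Z1 → Y1 g w1 w2 i} {f : Z → Z1}

private theorem y1c1 : Continuous (fun y : Y1 g w1 w2 i => c1 y) :=
  continuous_fst.comp continuous_subtype_val

private theorem y1c2 : Continuous (fun y : Y1 g w1 w2 i => c2 y) :=
  (continuous_fst.comp continuous_snd).comp continuous_subtype_val

private theorem y1s1 : Continuous (fun y : Y1 g w1 w2 i => s1 y ()) :=
  (continuous_apply ()).comp
    ((continuous_fst.comp (continuous_snd.comp continuous_snd)).comp continuous_subtype_val)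

private theorem y1s2 : Continuous (fun y : Y1 g w1 w2 i => s2 y ()) :=
  (continuous_apply ()).comp
    ((continuous_fst.comp (continuous_snd.comp (continuous_snd.comp continuous_snd))).comp
      continuous_subtype_val)

private theorem y1ll : Continuous (fun y : Y1 g w1 w2 i => ll y) :=
  (continuous_snd.comp (continuous_snd.comp (continuous_snd.comp continuous_snd))).comp
    continuous_subtype_val

/-- scaling around the special point -/
private noncomputable def Sc (a : ℝ) (ha : 0 < a) (y : Y1 g w1 w2 i) : Y1 g w1 w2 i :=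
  ⟨(g.x i + (a : ℂ) * (c1 y - g.x i), g.x i + (a : ℂ) * (c2 y - g.x i),
    fun _ => scl (w1 i) a (s1 y ()), fun _ => scl (w2 i) a (s2 y ()), ll y + (Real.log a : ℂ)),
    mem_univ _, mem_univ _,
    fun _ => by
      show bw (w1 i) (scl (w1 i) a (s1 y ())) = g.x i + (a : ℂ) * (c1 y - g.x i) - g.x i
      have h1 : bw (w1 i) (s1 y ()) = c1 y - g.x i := y.2.2.2.1 ()
      rw [bw_scl _ ha, h1]
      ring,
    fun _ => by
      show bw (w2 i) (scl (w2 i) a (s2 y ())) = g.x i + (a : ℂ) * (c2 y - g.x i) - g.x i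
      have h1 : bw (w2 i) (s2 y ()) = c2 y - g.x i := y.2.2.2.2.1 ()
      rw [bw_scl _ ha, h1]
      ring,
    by
      show exp (ll y + (Real.log a : ℂ)) = g.x i + (a : ℂ) * (c2 y - g.x i) -
        (g.x i + (a : ℂ) * (c1 y - g.x i))
      have h1 : exp (ll y) = c2 y - c1 y := y.2.2.2.2.2
      rw [exp_add, h1, ← ofReal_exp, Real.exp_log ha]
      ring⟩

private theorem Sc_one (y : Y1 g w1 w2 i) {a : ℝ} (ha : 0 < a) (h1 : a = 1) : Sc a ha y = y := by
  subst h1
  apply Subtype.ext
  refine Prod.ext ?_ (Prod.ext ?_ (Prod.ext ?_ (Prod.ext ?_ ?_)))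
  · show g.x i + ((1 : ℝ) : ℂ) * (c1 y - g.x i) = c1 y
    rw [ofReal_one]
    ring
  · show g.x i + ((1 : ℝ) : ℂ) * (c2 y - g.x i) = c2 y
    rw [ofReal_one]
    ring
  · funext u
    exact scl_one _ _
  · funext u
    exact scl_one _ _
  · show ll y + (Real.log 1 : ℂ) = ll y
    rw [Real.log_one, ofReal_zero, add_zero]

private theorem Sc_cont {A : Type*} [TopologicalSpace A] {a : A → ℝ} (ha : Continuous a)
    (hp : ∀ t, 0 < a t) {Y : A → Y1 g w1 w2 i} (hY : Continuous Y) :
    Continuous (fun t => Sc (a t) (hp t) (Y t)) := by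
  have ha' : Continuous (fun t => (a t : ℂ)) := continuous_ofReal.comp ha
  refine Continuous.subtype_mk (Continuous.prodMk ?_ (Continuous.prodMk ?_
    (Continuous.prodMk ?_ (Continuous.prodMk ?_ ?_)))) _
  · exact continuous_const.add (ha'.mul ((y1c1.comp hY).sub continuous_const))
  · exact continuous_const.add (ha'.mul ((y1c2.comp hY).sub continuous_const))
  · refine continuous_pi fun _ => ?_
    exact (scl_continuousOn (w1 i)).comp_continuous (ha.prodMk (y1s1.comp hY)) hp
  · refine continuous_pi fun _ => ?_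
    exact (scl_continuousOn (w2 i)).comp_continuous (ha.prodMk (y1s2.comp hY)) hp
  · exact (y1ll.comp hY).add (continuous_ofReal.comp (ha.log fun t => (hp t).ne'))

private def Kc (g : Geo ι) (i : ι) : Set ℂ := {z | ‖z‖ < 1 ∧ g.r0 < g.d i z}

private theorem Kc_x (g : Geo ι) (i : ι) : g.x i ∈ Kc g i :=
  ⟨g.norm_x i, by rw [g.d_x]; exact g.h01.trans g.h12⟩

private theorem Kc_open (g : Geo ι) (i : ι) : IsOpen (Kc g i) :=
  (isOpen_lt continuous_norm continuous_const).inter
    (isOpen_lt continuous_const (g.d_cont i))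

private theorem Kc_scale (g : Geo ι) (i : ι) {a : ℝ} (ha : 0 < a) (ha1 : a ≤ 1) {c : ℂ}
    (hc : c ∈ Kc g i) : g.x i + (a : ℂ) * (c - g.x i) ∈ Kc g i := by
  obtain ⟨h1, h2⟩ := hc
  obtain ⟨h3, h4⟩ := Kc_x g i
  have h5 : g.x i + (a : ℂ) * (c - g.x i) = (1 - a) • g.x i + a • c := by
    rw [real_smul, real_smul]
    push_cast
    ring
  rw [h5]
  constructor
  · have hb : Convex ℝ (Metric.ball (0 : ℂ) 1) := convex_ball _ _
    have h6 := hb (mem_ball_zero_iff.2 h3) (mem_ball_zero_iff.2 h1)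
      (by linarith : (0 : ℝ) ≤ 1 - a) ha.le (by ring)
    exact mem_ball_zero_iff.1 h6
  · show g.r0 < g.d i ((1 - a) • g.x i + a • c)
    rw [g.d_add, g.d_smul, g.d_smul]
    rcases eq_or_lt_of_le ha1 with h | h
    · rw [h]
      linarith
    · nlinarith

private theorem Sc_cap {a : ℝ} (ha : 0 < a) (ha1 : a ≤ 1) {y : Y1 g w1 w2 i}
    (hy : y ∈ capV g w1 w2 i) : Sc a ha y ∈ capV g w1 w2 i := by
  have h1 := Kc_scale g i ha ha1 (c := c1 y) ⟨hy.1, hy.2.2.1⟩
  have h2 := Kc_scale g i ha ha1 (c := c2 y) ⟨hy.2.1, hy.2.2.2⟩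
  exact ⟨h1.1, h2.1, h1.2, h2.2⟩

private noncomputable def FF (η : ℝ) (y : Y1 g w1 w2 i) : ℝ :=
  η / (η + ‖c1 y - g.x i‖ + ‖c2 y - g.x i‖)

private theorem FF_den {η : ℝ} (hη : 0 < η) (y : Y1 g w1 w2 i) :
    0 < η + ‖c1 y - g.x i‖ + ‖c2 y - g.x i‖ := by positivity

private theorem FF_pos {η : ℝ} (hη : 0 < η) (y : Y1 g w1 w2 i) : 0 < FF η y :=
  div_pos hη (FF_den hη y)

private theorem FF_le {η : ℝ} (hη : 0 < η) (y : Y1 g w1 w2 i) : FF η y ≤ 1 := by
  unfold FF
  rw [div_le_one (FF_den hη y)]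
  have h1 := norm_nonneg (c1 y - g.x i)
  have h2 := norm_nonneg (c2 y - g.x i)
  linarith

private theorem FF_cont {η : ℝ} (hη : 0 < η) :
    Continuous (fun y : Y1 g w1 w2 i => FF η y) := by
  refine continuous_const.div ?_ fun y => (FF_den hη y).ne'
  exact (continuous_const.add (y1c1.sub continuous_const).norm).add
    (y1c2.sub continuous_const).norm

private theorem FF_cap {η : ℝ} (hη : 0 < η) (hb : Metric.ball (g.x i) η ⊆ Kc g i)
    (y : Y1 g w1 w2 i) : Sc (FF η y) (FF_pos hη y) y ∈ capV g w1 w2 i := by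
  have hd := FF_den hη y
  have n1 := norm_nonneg (c1 y - g.x i)
  have n2 := norm_nonneg (c2 y - g.x i)
  have h1 : g.x i + (FF η y : ℂ) * (c1 y - g.x i) ∈ Kc g i := by
    apply hb
    rw [Metric.mem_ball, dist_eq_norm, add_sub_cancel_left, norm_mul, norm_real,
      Real.norm_of_nonneg (FF_pos hη y).le]
    unfold FF
    rw [div_mul_eq_mul_div, div_lt_iff₀ hd]
    nlinarith
  have h2 : g.x i + (FF η y : ℂ) * (c2 y - g.x i) ∈ Kc g i := by
    apply hb
    rw [Metric.mem_ball, dist_eq_norm, add_sub_cancel_left, norm_mul, norm_real,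
      Real.norm_of_nonneg (FF_pos hη y).le]
    unfold FF
    rw [div_mul_eq_mul_div, div_lt_iff₀ hd]
    nlinarith
  exact ⟨h1.1, h2.1, h1.2, h2.2⟩

private theorem mix_pos {F : ℝ} (hF : 0 < F) (t : I) : 0 < 1 - (t : ℝ) + t * F := by
  have h1 := t.2.1
  have h2 := t.2.2
  rcases eq_or_lt_of_le h2 with h | h
  · rw [h]
    linarith
  · nlinarith [mul_nonneg h1 hF.le]

private theorem mix_le {F : ℝ} (hF : F ≤ 1) (t : I) : 1 - (t : ℝ) + t * F ≤ 1 := by
  have h1 := t.2.1
  nlinarith

theorem wcR (hq : IsCoveringMap q) (hZ : WC Z1) : WC {z : Z1 | q z ∈ capV g w1 w2 i} := by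
  obtain ⟨η, hη, hb⟩ := Metric.isOpen_iff.1 (Kc_open g i) _ (Kc_x g i)
  have hc : Continuous (fun a : I × Z1 => Sc (1 - (a.1 : ℝ) + a.1 * FF η (q a.2))
      (mix_pos (FF_pos hη (q a.2)) a.1) (q a.2)) := by
    refine Sc_cont ?_ (fun a => mix_pos (FF_pos hη (q a.2)) a.1)
      (hq.continuous.comp continuous_snd)
    exact (continuous_const.sub (continuous_subtype_val.comp continuous_fst)).add
      ((continuous_subtype_val.comp continuous_fst).mul
        ((FF_cont hη).comp (hq.continuous.comp continuous_snd)))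
  let M : C(I × Z1, Y1 g w1 w2 i) := ⟨_, hc⟩
  have hM0 : ∀ z : Z1, M (0, z) = q ((ContinuousMap.id Z1) z) := by
    intro z
    exact Sc_one (q z) (mix_pos (FF_pos hη (q z)) 0) (by simp)
  let M' := hq.liftHomotopy M (ContinuousMap.id Z1) hM0
  have hM'l : ∀ a, q (M' a) = M a := fun a =>
    congrFun (hq.liftHomotopy_lifts M (ContinuousMap.id Z1) hM0) a
  have hM'0 : ∀ z, M' (0, z) = z := fun z =>
    hq.liftHomotopy_zero M (ContinuousMap.id Z1) hM0 z
  have hM'1 : ∀ z, q (M' (1, z)) ∈ capV g w1 w2 i := by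
    intro z
    rw [hM'l]
    have h1 : ∀ {a : ℝ} (ha : 0 < a), a = FF η (q z) → Sc a ha (q z) ∈ capV g w1 w2 i := by
      rintro a ha rfl
      exact FF_cap hη hb (q z)
    exact h1 (mix_pos (FF_pos hη (q z)) 1) (by simp)
  have hM't : ∀ z t, q z ∈ capV g w1 w2 i → q (M' (t, z)) ∈ capV g w1 w2 i := by
    intro z t hz
    rw [hM'l]
    exact Sc_cap (mix_pos (FF_pos hη (q z)) t) (mix_le (FF_le hη (q z)) t) hz
  refine wc_dom (X := Z1) (fun z => (⟨M' (1, z), hM'1 z⟩ : {z : Z1 | q z ∈ capV g w1 w2 i}))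
    ?_ (fun z => z.1) continuous_subtype_val
    (fun a => (⟨M' (a.2, a.1.1), hM't _ _ a.1.2⟩ : {z : Z1 | q z ∈ capV g w1 w2 i}))
    ?_ ?_ ?_ hZ
  · exact Continuous.subtype_mk (M'.continuous.comp (continuous_const.prodMk continuous_id)) _
  · exact Continuous.subtype_mk (M'.continuous.comp
      (continuous_snd.prodMk (continuous_subtype_val.comp continuous_fst))) _
  · intro z
    exact Subtype.ext (hM'0 z.1)
  · intro z
    rfl

private theorem scI : SimplyConnectedSpace I := by
  have : ContractibleSpace I := (convex_Icc (0 : ℝ) 1).contractibleSpace ⟨0, by simp⟩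
  infer_instance

theorem injU (h : IIS g w1 w2 i p q f) (hZ : WC Z1) {z z' : Z}
    (hz : JoinedIn (p ⁻¹' chU g w1 w2 {(some i, some i)}) z z') (hf : f z = f z') : z = z' := by
  obtain ⟨P, hP⟩ := hz
  have hR := wcR (g := g) (w1 := w1) (w2 := w2) (i := i) h.hq hZ
  have hsc := wc_simplyConnected hR
  have cI : ContractibleSpace I := (convex_Icc (0 : ℝ) 1).contractibleSpace ⟨0, by simp⟩
  have lI : LocallyPathConnectedSpace I := (convex_Icc (0 : ℝ) 1).locallyPathConnectedSpace
  have hPR : ∀ t, q (f (P t)) ∈ capV g w1 w2 i := by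
    intro t
    rw [h.comm, mem_capV_iff]
    exact hP t
  let R : Set Z1 := {z : Z1 | q z ∈ capV g w1 w2 i}
  let x0 : R := ⟨f z, by
    have h1 := hPR 0
    rw [P.source] at h1
    exact h1⟩
  let δ : Path x0 x0 :=
    { toFun := fun t => ⟨f (P t), hPR t⟩
      continuous_toFun := (h.hf.comp P.continuous).subtype_mk _
      source' := by
        apply Subtype.ext
        show f (P 0) = f z
        rw [P.source]
      target' := by
        apply Subtype.ext
        show f (P 1) = f z
        rw [P.target, hf] }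
  obtain ⟨F⟩ : Path.Homotopic δ (Path.refl x0) := SimplyConnectedSpace.paths_homotopic _ _
  have F0 : ∀ s, (F (0, s)).1 = f (P s) := by
    intro s
    have h1 := F.apply_zero s
    rw [h1]
    rfl
  have F1 : ∀ s, (F (1, s)).1 = f z := by
    intro s
    have h1 := F.apply_one s
    rw [h1]
    rfl
  have Fs : ∀ t, (F (t, 0)).1 = f z := by
    intro t
    rw [F.source]
  have Ft : ∀ t, (F (t, 1)).1 = f z := by
    intro t
    rw [F.target]
  obtain ⟨E, hE, hE0, hEf⟩ := liftII h (A := I × I) (fun a => (F a).1)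
    (continuous_subtype_val.comp F.continuous) (fun a => (F a).2) (0, 0) z (by
      rw [Fs])
  have hEc : ∀ a, p (E a) ∈ chU g w1 w2 {(some i, some i)} := by
    intro a
    rw [← mem_capV_iff, ← h.comm, hEf]
    exact (F a).2
  have hzc : p z ∈ chU g w1 w2 {(some i, some i)} := by
    have h1 := hP 0
    rw [P.source] at h1
    exact h1
  have hzc' : p z' ∈ chU g w1 w2 {(some i, some i)} := by
    have h1 := hP 1
    rw [P.target] at h1
    exact h1
  have a1 : (fun s : I => E (0, s)) = P := by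
    refine uniqII h _ _ (hE.comp (continuous_const.prodMk continuous_id)) P.continuous
      (fun s => hEc _) hP (fun s => ?_) 0 ?_
    · rw [hEf, F0]
    · show E (0, 0) = P 0
      rw [hE0, P.source]
  have a2 : (fun t : I => E (t, 0)) = fun _ => z := by
    refine uniqII h _ _ (hE.comp (continuous_id.prodMk continuous_const)) continuous_const
      (fun s => hEc _) (fun _ => hzc) (fun s => ?_) 0 hE0
    rw [hEf, Fs]
  have b1 : E (0, 1) = z' := by
    have h1 := congrFun a1 1
    rw [P.target] at h1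
    exact h1
  have a3 : (fun t : I => E (t, 1)) = fun _ => z' := by
    refine uniqII h _ _ (hE.comp (continuous_id.prodMk continuous_const)) continuous_const
      (fun s => hEc _) (fun _ => hzc') (fun s => ?_) 0 b1
    rw [hEf, Ft, hf]
  have a4 : (fun s : I => E (1, s)) = fun _ => z := by
    refine uniqII h _ _ (hE.comp (continuous_const.prodMk continuous_id)) continuous_const
      (fun s => hEc _) (fun _ => hzc) (fun s => ?_) 0 (congrFun a2 1)
    rw [hEf, F1]
  have b2 : E (1, 1) = z := congrFun a4 1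
  have b3 : E (1, 1) = z' := congrFun a3 1
  rw [← b2, b3]

theorem wcU (h : IIS g w1 w2 i p q f) (hZ : WC Z1) {z : Z}
    (hz : p z ∈ chU g w1 w2 {(some i, some i)}) :
    WC {z' : Z | JoinedIn (p ⁻¹' chU g w1 w2 {(some i, some i)}) z z'} := by
  refine ⟨⟨⟨z, JoinedIn.refl hz⟩⟩, fun d => ?_⟩
  rcases Nat.eq_zero_or_pos d with rfl | hd
  · exact ext_zero _
  refine ext_of_set fun k hk hkC => ?_
  have ha : (fun _ => 0 : Fin d → I) ∈ Cube.boundary (Fin d) := ⟨⟨0, hd⟩, Or.inl rfl⟩
  have hR := wcR (g := g) (w1 := w1) (w2 := w2) (i := i) h.hq hZ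
  have hmem : ∀ z' : Z, p z' ∈ chU g w1 w2 {(some i, some i)} ↔
      f z' ∈ {z : Z1 | q z ∈ capV g w1 w2 i} := by
    intro z'
    rw [← mem_capV_iff, ← h.comm]
    exact Iff.rfl
  have hK : ∀ x ∈ Cube.boundary (Fin d), f (k x) ∈ {z : Z1 | q z ∈ capV g w1 w2 i} := by
    intro x hx
    exact (hmem _).1 (hkC x hx).target_mem
  obtain ⟨G, hG, hGR, hGf⟩ := ext_set (s := {z : Z1 | q z ∈ capV g w1 w2 i})
    ⟨f z, (hmem z).1 hz⟩ (hR.2 d) (fun x => f (k x)) (h.hf.comp_continuousOn hk) hK
  have i1 := Pool.Agent.H85.Cube.lpc_cube d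
  have i2 := Pool.Agent.H85.Cube.contractible_cube d
  obtain ⟨E, hE, hE0, hEf⟩ := liftII h G hG hGR (fun _ => 0) (k (fun _ => 0)) (hGf _ ha).symm
  have hEc : ∀ a, p (E a) ∈ chU g w1 w2 {(some i, some i)} := by
    intro a
    rw [hmem, hEf]
    exact hGR a
  have hEC : ∀ x, JoinedIn (p ⁻¹' chU g w1 w2 {(some i, some i)}) z (E x) := by
    intro x
    refine (hkC _ ha).trans ?_
    obtain ⟨γ⟩ := PathConnectedSpace.joined (fun _ => 0 : Fin d → I) x
    refine ⟨⟨⟨fun t => E (γ t), hE.comp γ.continuous⟩, ?_, ?_⟩, fun t => ?_⟩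
    · show E (γ 0) = k (fun _ => 0)
      rw [γ.source, hE0]
    · show E (γ 1) = E x
      rw [γ.target]
    · exact hEc _
  refine ⟨E, hE, hEC, fun x hx => ?_⟩
  refine injU h hZ ((hEC x).symm.trans (hkC x hx)) ?_
  rw [hEf, hGf x hx]

end ASP87
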