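import Mathlib

/-!
# ASP87/LineTree: non-backtracking lines with a common time parameter in an acyclic graph

A line: `A : Int -> V`, `A k ~ A (k+1)`, `A k <> A (k+2)`. In an acyclic graph a non-backtracking walk is
a path (`SimpleGraph.IsAcyclic.isPath_iff_isChain`, or `IsTrail`), paths are unique
(`IsAcyclic.path_unique`), and their length is the distance. The part of a line between times `k < k'`
is a walk of length `k' - k` (`lineWalk`, by induction) whose consecutive edges are different.

`line_eq`: the two walks from `A k = B k` to `A k' = B k'` are both paths, hence equal, hence the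
vertices at time `j` agree (`Walk.getVert`).
`line_mid`: `A k1 = B k1`, `A k2 = C k2`, `B k3 = C k3`, `k1 < k2 < k3`. The walk `A` from `k1` to `k2`
followed by `C` from `k2` to `k3` goes from `B k1` to `B k3` and has length `k3 - k1`; the walk of `B` from
`k1` to `k3` is a path of the same length, which is the distance (in an acyclic graph every walk
between two vertices is at least as long as the path: `Walk.bypass` of a walk is a path, equal to the
unique path, and not longer than the walk; if the walk has the same length as its bypass, it is the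
path: `Walk.length_bypass_le`, or `isPath_of_length_eq_dist`). So the two walks are equal and
`A k2 = B k2`.
-/

namespace ASP87

structure IsLine {V : Type*} (G : SimpleGraph V) (A : ℤ → V) : Prop where
  adj : ∀ k, G.Adj (A k) (A (k + 1))
  nb : ∀ k, A k ≠ A (k + 2)

private theorem exists_walk {V : Type*} {G : SimpleGraph V} {A : ℤ → V} (hA : IsLine G A)
    (n : ℕ) : ∀ (k : ℤ) (u v : V), A k = u → A (k + n) = v → ∃ p : G.Walk u v, p.length = n ∧
      (∀ i : ℕ, i ≤ n → p.getVert i = A (k + i)) ∧ List.IsChain (· ≠ ·) p.edges ∧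
      ∀ e ∈ p.edges.head?, e = s(A k, A (k + 1)) := by
  induction n with
  | zero =>
    intro k u v hu hv
    have huv : u = v := by
      rw [← hu, ← hv]
      simp
    subst huv
    refine ⟨SimpleGraph.Walk.nil, rfl, ?_, ?_, ?_⟩
    · intro i hi
      have : i = 0 := by omega
      subst this
      rw [SimpleGraph.Walk.getVert_nil, ← hu]
      simp
    · simp
    · intro e he
      simp at he
  | succ n ih =>
    intro k u v hu hv
    subst hu
    obtain ⟨p, hp1, hp2, hp3, hp4⟩ := ih (k + 1) (A (k + 1)) v rfl (by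
      rw [← hv]
      congr 1
      push_cast
      ring)
    refine ⟨SimpleGraph.Walk.cons (hA.adj k) p, ?_, ?_, ?_, ?_⟩
    · rw [SimpleGraph.Walk.length_cons, hp1]
    · intro i hi
      cases i with
      | zero =>
        rw [SimpleGraph.Walk.getVert_zero]
        simp
      | succ i =>
        rw [SimpleGraph.Walk.getVert_cons_succ, hp2 i (by omega)]
        congr 1
        push_cast
        ring
    · rw [SimpleGraph.Walk.edges_cons, List.isChain_cons]
      refine ⟨fun e he => ?_, hp3⟩
      rw [hp4 e he]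
      intro h
      rw [Sym2.eq_iff] at h
      rcases h with ⟨h1, _⟩ | ⟨h1, _⟩
      · exact (hA.adj k).ne h1
      · apply hA.nb k
        rw [h1]
        congr 1
        ring
    · intro e he
      rw [SimpleGraph.Walk.edges_cons, List.head?_cons, Option.mem_some_iff] at he
      exact he.symm

private theorem exists_path {V : Type*} {G : SimpleGraph V} (hG : G.IsAcyclic) {A : ℤ → V}
    (hA : IsLine G A) (k : ℤ) (n : ℕ) {u v : V} (hu : A k = u) (hv : A (k + n) = v) :
    ∃ p : G.Walk u v, p.length = n ∧ (∀ i : ℕ, i ≤ n → p.getVert i = A (k + i)) ∧ p.IsPath := by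
  obtain ⟨p, h1, h2, h3, _⟩ := exists_walk hA n k u v hu hv
  exact ⟨p, h1, h2, (hG.isPath_iff_isChain p).2 h3⟩

private theorem path_eq {V : Type*} {G : SimpleGraph V} (hG : G.IsAcyclic) {u v : V}
    {p q : G.Walk u v} (hp : p.IsPath) (hq : q.IsPath) : p = q :=
  congrArg Subtype.val ((hG.subsingleton_path u v).elim ⟨p, hp⟩ ⟨q, hq⟩)

theorem line_eq {V : Type*} {G : SimpleGraph V} (hG : G.IsAcyclic) {A B : ℤ → V}
    (hA : IsLine G A) (hB : IsLine G B) {k k' : ℤ} (hk : k < k') (h : A k = B k)
    (h' : A k' = B k') (j : ℤ) (hj : k ≤ j) (hj' : j ≤ k') : A j = B j := by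
  obtain ⟨n, hn⟩ : ∃ n : ℕ, k' = k + n := ⟨(k' - k).toNat, by omega⟩
  obtain ⟨i, hi⟩ : ∃ i : ℕ, j = k + i := ⟨(j - k).toNat, by omega⟩
  subst hn hi
  obtain ⟨p, _, hp2, hp⟩ := exists_path hG hA k n (u := A k) (v := A (k + n)) rfl rfl
  obtain ⟨q, _, hq2, hq⟩ := exists_path hG hB k n (u := A k) (v := A (k + n)) h.symm h'.symm
  have hpq := path_eq hG hp hq
  rw [← hp2 i (by omega), ← hq2 i (by omega), hpq]

theorem line_mid {V : Type*} {G : SimpleGraph V} (hG : G.IsAcyclic) {A B C : ℤ → V}
    (hA : IsLine G A) (hB : IsLine G B) (hC : IsLine G C) {k1 k2 k3 : ℤ} (h12 : k1 < k2)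
    (h23 : k2 < k3) (hAB : A k1 = B k1) (hAC : A k2 = C k2) (hBC : B k3 = C k3) :
    B k2 = A k2 := by
  classical
  obtain ⟨a, ha⟩ : ∃ a : ℕ, k2 = k1 + a := ⟨(k2 - k1).toNat, by omega⟩
  obtain ⟨b, hb⟩ : ∃ b : ℕ, k3 = k2 + b := ⟨(k3 - k2).toNat, by omega⟩
  obtain ⟨p1, hp1, _, _⟩ := exists_path hG hA k1 a (u := A k1) (v := A k2) rfl (by rw [ha])
  obtain ⟨p2, hp2, _, _⟩ := exists_path hG hC k2 b (u := A k2) (v := C k3) hAC.symm (by rw [hb])
  obtain ⟨q, hq1, hq2, hq⟩ := exists_path hG hB k1 (a + b) (u := A k1) (v := C k3) hAB.symm (by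
    rw [← hBC, hb, ha]
    congr 1
    push_cast
    ring)
  have h1 : (p1.append p2).bypass = q := path_eq hG (SimpleGraph.Walk.bypass_isPath _) hq
  have h2 : (p1.append p2).bypass = p1.append p2 := by
    apply SimpleGraph.Walk.bypass_eq_self_of_length_le_length_bypass
    rw [h1, hq1, SimpleGraph.Walk.length_append, hp1, hp2]
  have h3 : q.getVert a = A k2 := by
    rw [← h1, h2, SimpleGraph.Walk.getVert_append, if_neg (by omega), hp1, Nat.sub_self,
      SimpleGraph.Walk.getVert_zero]
  rw [hq2 a (by omega), ← ha] at h3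
  exact h3

end ASP87
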