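import Pool.Agent.ASP87.SepCell2

/-!
# ASP87/OPCell: one particle: the space and its cells

`YP x w` = `{(c, s) : bw (w i) (s i) = c - x i}`.
`oneCell`: `U` open convex in the plane, `e m` unit vectors, half plane conditions for all `m` except the cone
index `i`, base point `b in U`, `b = x m` if `i = some m`. Then the points over `U` form a `GCell` with labels
`oLab e i` (the labels `s m / root` for `m <> i`).
PROOF: exactly as `sepCell2` (file SepCell2) with the second particle and the logarithm removed:
* open: preimage of `U`. Labels locally constant: `lab_eventually` for each `m` (finitely many).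
* label pieces weakly contractible: scaling towards `b`. For `y` with positions `c in U` and `a in (0,1]` let
  `c_a = b + a (c - b) in U`; for `m <> i`: `s_a m = act (w m) (label) (rt (w m) (LL (e m) (x m) c_a))`; for `m = i`:
  `c_a - x m = a (c - x m)`, `s_a m = scl (w m) a (s m)` (`bw_scl`). As in `sepCell2` the piece is dominated by a
  contractible space (see there: choose `a` so small that the point lies in a small convex neighbourhood;
  `bw_small_convex` for the component `i`), use `wc_dom`. Follow the proof of `sepCell2` line by line.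
-/

namespace ASP87

open Complex Topology Set ComplexConjugate

/-- one particle, roots or logarithms at the special points -/
def YP {ι : Type*} (x : ι → ℂ) (w : ι → ℕ) : Set (ℂ × (ι → ℂ)) :=
  {y | ∀ i, bw (w i) (y.2 i) = y.1 - x i}

/-- labels -/
noncomputable def oLab {ι : Type*} [DecidableEq ι] {x : ι → ℂ} {w : ι → ℕ} (e : ι → ℂ)
    (i : Option ι) (y : YP x w) : ι → ℂ :=
  fun m => if i = some m then 0 else lab (w m) (y.1.2 m) (rt (w m) (LL (e m) (x m) y.1.1))

section aux

variable {ι : Type*}

private noncomputable def ev (x : ι → ℂ) (w : ι → ℕ) (i : Option ι) (t : ℂ) : ℂ :=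
  match i with
  | none => t
  | some m => x m + bw (w m) t

private noncomputable def Sc (w : ι → ℕ) (i : Option ι) (b : ℂ) (a : ℝ) (t : ℂ) : ℂ :=
  match i with
  | none => b + a * (t - b)
  | some m => scl (w m) a t

private theorem ev_cont (x : ι → ℂ) (w : ι → ℕ) (i : Option ι) : Continuous (ev x w i) := by
  cases i with
  | none => exact continuous_id
  | some m => exact continuous_const.add (bw_continuous (w m))

private theorem ev_Sc {x : ι → ℂ} {w : ι → ℕ} {i : Option ι} {b : ℂ}
    (hb : ∀ m, i = some m → b = x m) {a : ℝ} (ha : 0 < a) (t : ℂ) :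
    ev x w i (Sc w i b a t) = b + a * (ev x w i t - b) := by
  cases i with
  | none => rfl
  | some m =>
    show x m + bw (w m) (scl (w m) a t) = b + a * (x m + bw (w m) t - b)
    rw [bw_scl _ ha, hb m rfl]
    ring

private theorem Sc_one (w : ι → ℕ) (i : Option ι) (b t : ℂ) : Sc w i b 1 t = t := by
  cases i with
  | none =>
    show b + ((1 : ℝ) : ℂ) * (t - b) = t
    push_cast
    ring
  | some m => exact scl_one (w m) t

private theorem Sc_cont (w : ι → ℕ) (i : Option ι) (b : ℂ) :
    ContinuousOn (fun q : ℝ × ℂ => Sc w i b q.1 q.2) {q | 0 < q.1} := by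
  cases i with
  | none =>
    refine Continuous.continuousOn ?_
    show Continuous (fun q : ℝ × ℂ => b + (q.1 : ℂ) * (q.2 - b))
    fun_prop
  | some m => exact scl_continuousOn (w m)

private theorem S_convex {x : ι → ℂ} (w : ι → ℕ) {i : Option ι} {b : ℂ}
    (hb : ∀ m, i = some m → b = x m) {η : ℝ} (hη : 0 < η) :
    Convex ℝ {t : ℂ | ‖ev x w i t - b‖ < η} ∧ {t : ℂ | ‖ev x w i t - b‖ < η}.Nonempty := by
  cases i with
  | none =>
    have h1 : {t : ℂ | ‖ev x w none t - b‖ < η} = Metric.ball b η := by
      ext t
      show ‖t - b‖ < η ↔ dist t b < η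
      rw [dist_eq_norm]
    rw [h1]
    exact ⟨convex_ball b η, ⟨b, Metric.mem_ball_self hη⟩⟩
  | some m =>
    have h1 : {t : ℂ | ‖ev x w (some m) t - b‖ < η} = {s : ℂ | ‖bw (w m) s‖ < η} := by
      ext t
      show ‖x m + bw (w m) t - b‖ < η ↔ ‖bw (w m) t‖ < η
      rw [hb m rfl, add_sub_cancel_left]
    rw [h1]
    exact bw_small_convex (w m) hη

/-- the model space is weakly contractible -/
private theorem mod_wc {x : ι → ℂ} (w : ι → ℕ) {U : Set ℂ} (hUo : IsOpen U)
    (hUc : Convex ℝ U) {i : Option ι} {b : ℂ} (hb : b ∈ U)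
    (hbi : ∀ m, i = some m → b = x m) :
    WC {t : ℂ | ev x w i t ∈ U} := by
  obtain ⟨η, hη, hball⟩ := Metric.isOpen_iff.1 hUo b hb
  have hsub : ∀ q : ℂ, ‖q - b‖ < η → q ∈ U := by
    intro q h1
    refine hball ?_
    rw [Metric.mem_ball, dist_eq_norm]
    exact h1
  set S : Set ℂ := {t : ℂ | ‖ev x w i t - b‖ < η} with hS
  have hSc : ContractibleSpace S := by
    have h1 := S_convex (x := x) w hbi hη
    exact h1.1.contractibleSpace h1.2
  have hSW : WC S := wc_contractible S
  set M : Set ℂ := {t : ℂ | ev x w i t ∈ U} with hM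
  have hSM : ∀ t ∈ S, t ∈ M := fun t ht => hsub _ ht
  -- the scaling factor
  let N : ℂ → ℝ := fun t => ‖ev x w i t - b‖
  have hN0 : ∀ t, 0 ≤ N t := fun t => norm_nonneg _
  have hNc : Continuous N := ((ev_cont x w i).sub continuous_const).norm
  let f : ℂ → ℝ := fun t => η / (η + N t)
  have hfp : ∀ t, 0 < f t := fun t => div_pos hη (by have := hN0 t; linarith)
  have hf1 : ∀ t, f t ≤ 1 := by
    intro t
    have := hN0 t
    exact (div_le_one (by linarith)).2 (by linarith)
  have hfN : ∀ t, f t * N t < η := by
    intro t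
    have h0 := hN0 t
    show η / (η + N t) * N t < η
    rw [div_mul_eq_mul_div, div_lt_iff₀ (by linarith)]
    nlinarith
  have hfc : Continuous f :=
    continuous_const.div (continuous_const.add hNc) (fun t => by have := hN0 t; positivity)
  let G : ℝ → ℂ → ℂ := fun a t => Sc w i b a t
  have hGc : ContinuousOn (fun q : ℝ × ℂ => G q.1 q.2) {q | 0 < q.1} := Sc_cont w i b
  have hGM : ∀ a : ℝ, 0 < a → a ≤ 1 → ∀ t ∈ M, G a t ∈ M := by
    intro a ha ha1 t ht
    show ev x w i (Sc w i b a t) ∈ U
    rw [ev_Sc hbi ha]
    have h3 := hUc hb ht (by linarith : (0 : ℝ) ≤ 1 - a) ha.le (by ring)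
    convert h3 using 1
    simp only [Complex.real_smul]
    push_cast
    ring
  have hGS : ∀ t : ℂ, G (f t) t ∈ S := by
    intro t
    have hp := hfp t
    have hn := hfN t
    show ‖ev x w i (Sc w i b (f t) t) - b‖ < η
    rw [ev_Sc hbi hp, add_sub_cancel_left, norm_mul, Complex.norm_real, Real.norm_eq_abs,
      abs_of_pos hp]
    exact hn
  have hap : ∀ (τ : unitInterval) (t : ℂ), 0 < 1 - (τ : ℝ) + τ * f t ∧
      1 - (τ : ℝ) + τ * f t ≤ 1 := by
    intro τ t
    have h1 := τ.2.1
    have h2 := τ.2.2
    have h3 := hfp t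
    have h4 := hf1 t
    constructor
    · nlinarith [mul_nonneg (sub_nonneg.2 h2) (sub_nonneg.2 h4)]
    · nlinarith
  refine wc_dom (X := S) (Y := M) (fun t => ⟨t.1, hSM t.1 t.2⟩)
    (continuous_subtype_val.subtype_mk _)
    (fun t => ⟨G (f t.1) t.1, hGS t.1⟩) ?_
    (fun q => ⟨G (1 - (q.2 : ℝ) + q.2 * f q.1.1) q.1.1,
      hGM _ (hap q.2 q.1.1).1 (hap q.2 q.1.1).2 q.1.1 q.1.2⟩) ?_ ?_ ?_ hSW
  · refine Continuous.subtype_mk ?_ _
    refine hGc.comp_continuous (f := fun t : M => (f t.1, t.1)) ?_ (fun t => hfp t.1)
    exact (hfc.comp continuous_subtype_val).prodMk continuous_subtype_val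
  · refine Continuous.subtype_mk ?_ _
    refine hGc.comp_continuous
      (f := fun q : M × unitInterval => (1 - (q.2 : ℝ) + q.2 * f q.1.1, q.1.1)) ?_
      (fun q => (hap q.2 q.1.1).1)
    have hc1 : Continuous (fun q : M × unitInterval => (q.2 : ℝ)) :=
      continuous_subtype_val.comp continuous_snd
    have hc2 : Continuous (fun q : M × unitInterval => q.1.1) :=
      continuous_subtype_val.comp continuous_fst
    exact ((continuous_const.sub hc1).add (hc1.mul (hfc.comp hc2))).prodMk hc2
  · intro y
    apply Subtype.ext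
    show G (1 - ((0 : unitInterval) : ℝ) + ((0 : unitInterval) : ℝ) * f y.1) y.1 = y.1
    have : (1 - ((0 : unitInterval) : ℝ) + ((0 : unitInterval) : ℝ) * f y.1) = 1 := by simp
    rw [this]
    exact Sc_one _ _ _ _
  · intro y
    apply Subtype.ext
    show G (1 - ((1 : unitInterval) : ℝ) + ((1 : unitInterval) : ℝ) * f y.1) y.1 = G (f y.1) y.1
    have : (1 - ((1 : unitInterval) : ℝ) + ((1 : unitInterval) : ℝ) * f y.1) = f y.1 := by simp
    rw [this]

end aux

section yp

variable {ι : Type*} {x : ι → ℂ} {w : ι → ℕ}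

private theorem op_c_cont : Continuous (fun y : YP x w => y.1.1) :=
  continuous_fst.comp continuous_subtype_val

private theorem op_s_cont (m : ι) : Continuous (fun y : YP x w => y.1.2 m) :=
  (continuous_apply m).comp (continuous_snd.comp continuous_subtype_val)

private theorem op_s_eq (y : YP x w) (m : ι) : bw (w m) (y.1.2 m) = y.1.1 - x m := y.2 m

end yp

theorem oneCell {ι : Type*} [Fintype ι] [DecidableEq ι] {x : ι → ℂ} {w : ι → ℕ} (U : Set ℂ)
    (hUo : IsOpen U) (hUc : Convex ℝ U) (e : ι → ℂ) (he : ∀ m, ‖e m‖ = 1) (i : Option ι)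
    (h : ∀ q ∈ U, ∀ m, i ≠ some m → 0 < (conj (e m) * (x m - q)).re) (b : ℂ) (hb : b ∈ U)
    (hbi : ∀ m, i = some m → b = x m) :
    GCell {y : YP x w | y.1.1 ∈ U} (oLab e i) := by
  have hcc : Continuous (fun y : YP x w => y.1.1) := op_c_cont
  have hop : IsOpen {y : YP x w | y.1.1 ∈ U} := hUo.preimage hcc
  refine ⟨hop, ?_, ?_⟩
  · -- labels are locally constant
    intro y hy
    have hnh : 𝓝[{y : YP x w | y.1.1 ∈ U}] y = 𝓝 y := hop.nhdsWithin_eq hy
    have A1 : ∀ m, ∀ᶠ y' in 𝓝 y, (if i = some m then (0 : ℂ) else
        lab (w m) (y'.1.2 m) (rt (w m) (LL (e m) (x m) y'.1.1))) =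
        (if i = some m then (0 : ℂ) else
        lab (w m) (y.1.2 m) (rt (w m) (LL (e m) (x m) y.1.1))) := by
      intro m
      by_cases hm : i = some m
      · simp only [if_pos hm]
        exact Filter.Eventually.of_forall fun _ => trivial
      · simp only [if_neg hm]
        have h := lab_eventually (S := {y : YP x w | y.1.1 ∈ U}) (w m)
          (fun y => y.1.2 m) (fun y => LL (e m) (x m) y.1.1) (op_s_cont m).continuousOn
          ((LL_continuousOn (e m) (x m)).comp op_c_cont.continuousOn
            (fun z hz => h _ hz m hm))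
          (fun z hz => by
            rw [op_s_eq, exp_LL (he m) (h _ hz m hm)]) hy
        rwa [hnh] at h
    filter_upwards [Filter.eventually_all.2 A1] with z z1
    exact funext fun m => z1 m
  · -- weak contractibility
    intro y0 hy0
    have hM := mod_wc (x := x) w hUo hUc (i := i) hb hbi
    set M : Set ℂ := {t : ℂ | ev x w i t ∈ U} with hMdef
    let C1 : ℂ → ℂ := fun t => ev x w i t
    have hC1 : Continuous C1 := ev_cont x w i
    let k1 : ι → ℂ := fun m => lab (w m) (y0.1.2 m) (rt (w m) (LL (e m) (x m) y0.1.1))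
    let R1 : ℂ → ι → ℂ := fun t m => if i = some m then t else
      act (w m) (k1 m) (rt (w m) (LL (e m) (x m) (C1 t)))
    have hk1 : ∀ m, i ≠ some m → bw (w m) (k1 m) = 1 := fun m hm =>
      bw_lab (by rw [op_s_eq, exp_LL (he m) (h _ hy0 m hm)])
    have hmem : ∀ t ∈ M, ((C1 t, R1 t) : ℂ × (ι → ℂ)) ∈ YP x w := by
      intro t ht m
      show bw (w m) (R1 t m) = C1 t - x m
      by_cases hm : i = some m
      · simp only [R1, if_pos hm]
        show _ = ev x w i t - x m
        rw [hm]
        show _ = x m + bw (w m) t - x m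
        ring
      · simp only [R1, if_neg hm]
        rw [bw_act, hk1 m hm, bw_rt, exp_LL (he m) (h _ ht m hm), one_mul]
    let P : M → YP x w := fun t => ⟨(C1 t.1, R1 t.1), hmem t.1 t.2⟩
    have hPc : Continuous P := by
      refine Continuous.subtype_mk ?_ _
      have a1 : Continuous (fun t : M => C1 t.1) := hC1.comp continuous_subtype_val
      refine a1.prodMk ?_
      refine continuous_pi fun m => ?_
      by_cases hm : i = some m
      · simp only [R1, if_pos hm]
        exact continuous_subtype_val
      · simp only [R1, if_neg hm]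
        have h4 : Continuous (fun t : M => rt (w m) (LL (e m) (x m) (C1 t.1))) :=
          (rt_continuous (w m)).comp
            ((LL_continuousOn (e m) (x m)).comp_continuous a1 (fun t => h _ t.2 m hm))
        unfold act
        by_cases hw : w m = 0
        · simp only [if_pos hw]
          exact continuous_const.add h4
        · simp only [if_neg hw]
          exact continuous_const.mul h4
    have hPK : ∀ t : M, P t ∈ {y' : YP x w | y' ∈ {y : YP x w | y.1.1 ∈ U} ∧
        oLab e i y' = oLab e i y0} := by
      intro t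
      refine ⟨t.2, ?_⟩
      refine funext fun m => ?_
      show (if i = some m then (0 : ℂ) else
        lab (w m) (R1 t.1 m) (rt (w m) (LL (e m) (x m) (C1 t.1)))) =
        (if i = some m then (0 : ℂ) else k1 m)
      by_cases hm : i = some m
      · rw [if_pos hm, if_pos hm]
      · rw [if_neg hm, if_neg hm]
        simp only [R1, if_neg hm]
        exact lab_act _ _ _
    -- the coordinates
    let T : YP x w → ℂ := fun y => (match i with | none => y.1.1 | some m => y.1.2 m)
    have hT1 : ∀ y : YP x w, C1 (T y) = y.1.1 := by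
      intro y
      show ev x w i (match i with | none => y.1.1 | some m => y.1.2 m) = y.1.1
      cases i with
      | none => rfl
      | some m =>
        show x m + bw (w m) (y.1.2 m) = y.1.1
        rw [op_s_eq]
        ring
    have hTs1 : ∀ (y : YP x w) (m : ι), i = some m → T y = y.1.2 m := by
      intro y
      show ∀ m : ι, i = some m → (match i with | none => y.1.1 | some m => y.1.2 m) = y.1.2 m
      cases i with
      | none =>
        intro m hm
        cases hm
      | some m' =>
        intro m hm
        cases hm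
        rfl
    have hTc : Continuous T := by
      cases i with
      | none => exact op_c_cont
      | some m => exact op_s_cont m
    have hTM : ∀ y : YP x w, y.1.1 ∈ U → T y ∈ M := by
      intro y hy
      show C1 (T y) ∈ U
      rw [hT1]
      exact hy
    refine ⟨⟨⟨y0, hy0, rfl⟩⟩, fun d => ?_⟩
    refine ext_retract (X := M)
      (fun y => ⟨T y.1, hTM y.1 y.2.1⟩) ((hTc.comp continuous_subtype_val).subtype_mk _)
      (fun t => ⟨P t, hPK t⟩) (hPc.subtype_mk _) ?_ (hM.2 d)
    rintro ⟨y, hy, hL⟩
    apply Subtype.ext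
    apply Subtype.ext
    show ((C1 (T y), R1 (T y)) : ℂ × (ι → ℂ)) = y.1
    have e1 : R1 (T y) = y.1.2 := by
      funext m
      by_cases hm : i = some m
      · simp only [R1, if_pos hm]
        exact hTs1 y m hm
      · simp only [R1, if_neg hm]
        rw [hT1]
        have h5 := congrFun hL m
        have h6 : lab (w m) (y.1.2 m) (rt (w m) (LL (e m) (x m) y.1.1)) = k1 m := by
          have h7 : (if i = some m then (0 : ℂ) else
            lab (w m) (y.1.2 m) (rt (w m) (LL (e m) (x m) y.1.1))) =
            (if i = some m then (0 : ℂ) else k1 m) := h5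
          rwa [if_neg hm, if_neg hm] at h7
        rw [← h6, act_lab]
    rw [hT1, e1]

end ASP87
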