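import Pool.Agent.ASP87.OPCell
import Pool.Agent.ASP87.UCGen

/-!
# ASP87/OPSlc: one particle: small simply connected neighbourhoods

The same proof as `slc_YS` (file SLCY, see its header) with one particle: `y0 in YP x w`, `x` injective. Let
`i = some m` if `y0.1.1 = x m` (at most one `m`), else `none`. `e m` = unit vector of `x m - c0`, `c0 = y0.1.1`, if it
is not 0, else 1. `U = ball c0 eta` for small `eta`: half plane conditions hold. `K` = points over `U` with the labels
`oLab e i` of `y0`: open, contains `y0`, simply connected (`GCell.wc`, `wc_simplyConnected`), contained in a given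
neighbourhood for small `eta`: the coordinates `s m`, `m <> i`, are continuous functions of `c` on `K`
(`act_lab`), for `m = i` `|bw (w m) (s m)| = |c - c0| < eta` and `w m <> 0` (`bw 0` never vanishes), so `s m` is small.
-/

namespace ASP87

open Complex Topology Set ComplexConjugate

/-- the unit vector of `z`, or `1` -/
private noncomputable def uv (z : ℂ) : ℂ := if z = 0 then 1 else z / (‖z‖ : ℂ)

private theorem uv_norm (z : ℂ) : ‖uv z‖ = 1 := by
  unfold uv
  by_cases h : z = 0
  · rw [if_pos h, norm_one]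
  · rw [if_neg h, norm_div, Complex.norm_real, norm_norm, div_self (norm_ne_zero_iff.2 h)]

private theorem uv_pos {z : ℂ} (h : z ≠ 0) : 0 < (conj (uv z) * z).re := by
  unfold uv
  rw [if_neg h, map_div₀, Complex.conj_ofReal, div_mul_eq_mul_div, mul_comm, Complex.mul_conj,
    Complex.normSq_eq_norm_sq, ← Complex.ofReal_div, Complex.ofReal_re]
  have : 0 < ‖z‖ := norm_pos_iff.2 h
  positivity

private theorem act_continuous (w : ℕ) (k : ℂ) : Continuous (act w k) := by
  unfold act
  by_cases hw : w = 0
  · simp only [if_pos hw]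
    exact continuous_const.add continuous_id
  · simp only [if_neg hw]
    exact continuous_const.mul continuous_id

/-- convergence of a root coordinate, the point is not special -/
private theorem tend_root {Y : Type*} {l : Filter Y} {c s : Y → ℂ} {w : ℕ} {e p a s0 : ℂ}
    (hc : Filter.Tendsto c l (𝓝 a)) (ha : 0 < (conj e * (p - a)).re)
    (hl : ∀ᶠ y in l, lab w (s y) (rt w (LL e p (c y))) = lab w s0 (rt w (LL e p a))) :
    Filter.Tendsto s l (𝓝 s0) := by
  have hopen : IsOpen {c : ℂ | 0 < (conj e * (p - c)).re} :=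
    isOpen_lt continuous_const (Complex.continuous_re.comp
      (continuous_const.mul (continuous_const.sub continuous_id)))
  have h1 : ContinuousAt (LL e p) a := (LL_continuousOn e p).continuousAt (hopen.mem_nhds ha)
  have h2 : ContinuousAt (fun c => act w (lab w s0 (rt w (LL e p a))) (rt w (LL e p c))) a :=
    (act_continuous w _).continuousAt.comp ((rt_continuous w).continuousAt.comp h1)
  have h3 := h2.tendsto.comp hc
  rw [act_lab] at h3
  refine h3.congr' ?_
  filter_upwards [hl] with y hy
  show act w (lab w s0 (rt w (LL e p a))) (rt w (LL e p (c y))) = s y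
  rw [← hy, act_lab]

/-- convergence of a root coordinate at a special point -/
private theorem tend_cone {Y : Type*} {l : Filter Y} {c s : Y → ℂ} {w : ℕ} {p s0 : ℂ}
    (hc : Filter.Tendsto c l (𝓝 p)) (h0 : bw w s0 = 0) (h : ∀ y, bw w (s y) = c y - p) :
    Filter.Tendsto s l (𝓝 s0) := by
  have hw : w ≠ 0 := by
    intro hw
    rw [hw] at h0
    simp only [bw, if_true] at h0
    exact exp_ne_zero _ h0
  have hs : s0 = 0 := by
    simp only [bw, if_neg hw] at h0
    exact eq_zero_of_pow_eq_zero h0
  rw [hs]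
  apply bw_tendsto hw
  have h1 : Filter.Tendsto (fun y => c y - p) l (𝓝 (p - p)) := hc.sub_const p
  rw [sub_self] at h1
  exact h1.congr fun y => (h y).symm

theorem slc_YP {ι : Type*} [Fintype ι] [DecidableEq ι] {x : ι → ℂ}
    (hx : Function.Injective x) (w : ι → ℕ) : SLC (YP x w) := by
  intro y0 N hN
  classical
  set a := y0.1.1 with ha
  -- index
  obtain ⟨i, hi⟩ : ∃ i : Option ι, ∀ m, i = some m ↔ a = x m := by
    by_cases h : ∃ m, a = x m
    · obtain ⟨m0, hm0⟩ := h
      refine ⟨some m0, fun m => ⟨fun h1 => ?_, fun h1 => ?_⟩⟩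
      · cases h1
        exact hm0
      · rw [hx (hm0.symm.trans h1)]
    · refine ⟨none, fun m => ⟨fun h1 => ?_, fun h1 => (h ⟨m, h1⟩).elim⟩⟩
      cases h1
  let e : ι → ℂ := fun m => uv (x m - a)
  have p1 : ∀ m, i ≠ some m → 0 < (conj (e m) * (x m - a)).re := fun m hm =>
    uv_pos (fun h => hm ((hi m).2 (sub_eq_zero.1 h).symm))
  -- the good region
  have g3 : ∀ᶠ q : ℂ in 𝓝 a, ∀ m, i ≠ some m → 0 < (conj (e m) * (x m - q)).re := by
    rw [Filter.eventually_all]
    intro m
    by_cases hm : i = some m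
    · exact Filter.Eventually.of_forall fun q h => (h hm).elim
    · have h1 : Continuous fun q : ℂ => (conj (e m) * (x m - q)).re :=
        Complex.continuous_re.comp (continuous_const.mul (continuous_const.sub continuous_id))
      have h2 := (h1.continuousAt (x := a)).eventually (lt_mem_nhds (a := 0) (p1 m hm))
      filter_upwards [h2] with q hq _
      exact hq
  -- the filter
  let L := oLab (x := x) (w := w) e i
  let l : Filter (YP x w) :=
    Filter.comap (fun y => y.1.1) (𝓝 a) ⊓ Filter.principal {y | L y = L y0}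
  have t1 : Filter.Tendsto (fun y : YP x w => y.1.1) l (𝓝 a) :=
    Filter.tendsto_comap.mono_left inf_le_left
  have tL : ∀ᶠ y in l, L y = L y0 := Filter.mem_inf_of_right (Filter.mem_principal_self _)
  have ts : ∀ m, Filter.Tendsto (fun y : YP x w => y.1.2 m) l (𝓝 (y0.1.2 m)) := by
    intro m
    by_cases hm : i = some m
    · have h1 : a = x m := (hi m).1 hm
      refine tend_cone (p := x m) (w := w m) (c := fun y : YP x w => y.1.1) ?_ ?_
        (fun y => y.2 m)
      · rw [← h1]
        exact t1
      · rw [y0.2 m, ← ha, h1, sub_self]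
    · refine tend_root (w := w m) (e := e m) (p := x m) t1 (p1 m hm) ?_
      filter_upwards [tL] with y hy
      have h7 : (if i = some m then (0 : ℂ) else
        lab (w m) (y.1.2 m) (rt (w m) (LL (e m) (x m) y.1.1))) =
        (if i = some m then (0 : ℂ) else
        lab (w m) (y0.1.2 m) (rt (w m) (LL (e m) (x m) y0.1.1))) := congrFun hy m
      rwa [if_neg hm, if_neg hm] at h7
  have hl : l ≤ 𝓝 y0 := by
    have h1 : Filter.Tendsto (fun y : YP x w => (y : ℂ × (ι → ℂ))) l
        (𝓝 (y0 : ℂ × (ι → ℂ))) :=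
      t1.prodMk_nhds (tendsto_pi_nhds.2 ts)
    have h2 : Filter.Tendsto (id : YP x w → YP x w) l (𝓝 y0) :=
      tendsto_subtype_rng.2 h1
    rwa [Filter.tendsto_id'] at h2
  -- the radius
  have hNl : N ∈ l := hl hN
  have hN2 : {y : YP x w | L y = L y0 → y ∈ N} ∈
      Filter.comap (fun y : YP x w => y.1.1) (𝓝 a) :=
    Filter.mem_inf_principal.1 hNl
  obtain ⟨T, hT, hTN⟩ := Filter.mem_comap.1 hN2
  obtain ⟨δ, hδ, hball⟩ := Metric.mem_nhds_iff.1 (Filter.inter_mem hT g3)
  have hgood : ∀ q ∈ Metric.ball a δ, q ∈ T ∧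
      (∀ m, i ≠ some m → 0 < (conj (e m) * (x m - q)).re) := fun q hq => hball hq
  have hcell : GCell {y : YP x w | y.1.1 ∈ Metric.ball a δ} L :=
    oneCell (Metric.ball a δ) Metric.isOpen_ball (convex_ball _ _) e (fun m => uv_norm _) i
      (fun q hq => (hgood q hq).2) a (Metric.mem_ball_self hδ) (fun m hm => (hi m).1 hm)
  have hy0 : y0 ∈ {y : YP x w | y.1.1 ∈ Metric.ball a δ} := Metric.mem_ball_self hδ
  refine ⟨{y' : YP x w | y' ∈ {y : YP x w | y.1.1 ∈ Metric.ball a δ} ∧
    L y' = L y0}, ?_, ?_, ⟨hy0, rfl⟩, wc_simplyConnected (hcell.wc y0 hy0)⟩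
  · rintro y ⟨h1, h2⟩
    exact hTN (hgood _ h1).1 h2
  · rw [isOpen_iff_mem_nhds]
    rintro y ⟨h1, h2⟩
    filter_upwards [hcell.op.mem_nhds h1, hcell.lc y h1] with z hz1 hz2
    exact ⟨hz1, hz2.trans h2⟩

end ASP87
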