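import Pool.Agent.ASP87.SlitCell
import Pool.Agent.ASP87.Comp
import Pool.Agent.ASP87.Acyc
import Pool.Agent.ASP87.Nerve

/-!
# ASP87/OneTree: the tree of slit components

One special point: `YS univ x w1 w2` with index type `Unit`. `DS true` = `{1 - yy in slitPlane}`,
`DS false` = `{yy in slitPlane}`. `TT q` = the components of `q^-1 (DS b)`, `b : Bool`, for a map
`q : Z -> YS`. Order: `t < t'` iff `t` is a `false` component, `t'` a `true` component and they intersect.

`TT_ncov`: NCov for the family of all components. Open (`comp_open`; `DS b` is open: `yy` is continuous,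
`isOpen_slitPlane`), path connected, cover: `yy in slitPlane`, or else `yy` is a real number `<= 0`, then
`1 - yy >= 1` is in `slitPlane`. Intersection: two components with the same `b` intersect iff they are
equal (`comp_disj`), with different `b` by definition of the order.
`TT_acyc`: `psc_of_cover` and `cg_acyclic`: three pairwise comparable elements: two have the same `b`,
comparable with the same `b` means equal.
-/

namespace ASP87

open Complex Topology Set ComplexConjugate

variable {x : Unit → ℂ} {w1 w2 : Unit → ℕ} {Z : Type*} [TopologicalSpace Z]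

/-- slit sets -/
def DS (x : Unit → ℂ) (w1 w2 : Unit → ℕ) (b : Bool) : Set (YS univ x w1 w2) :=
  if b then {y | 1 - yy y ∈ slitPlane} else {y | yy y ∈ slitPlane}

/-- slit components -/
def TT (q : Z → YS univ x w1 w2) : Type _ := Σ b : Bool, Comp q (DS x w1 w2 b)

instance (q : Z → YS univ x w1 w2) : PartialOrder (TT q) where
  le t t' := t = t' ∨ (t.1 = false ∧ t'.1 = true ∧ (t.2.1 ∩ t'.2.1).Nonempty)
  le_refl t := Or.inl rfl
  le_trans a b c hab hbc := by
    rcases hab with rfl | ⟨h1, h2, h3⟩
    · exact hbc
    · rcases hbc with rfl | ⟨h4, h5, h6⟩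
      · exact Or.inr ⟨h1, h2, h3⟩
      · rw [h2] at h4
        cases h4
  le_antisymm a b hab hba := by
    rcases hab with rfl | ⟨h1, h2, h3⟩
    · rfl
    · rcases hba with h | ⟨h4, h5, h6⟩
      · exact h.symm
      · rw [h2] at h4
        cases h4

theorem TT_le_iff {q : Z → YS univ x w1 w2} {t t' : TT q} :
    t ≤ t' ↔ t = t' ∨ (t.1 = false ∧ t'.1 = true ∧ (t.2.1 ∩ t'.2.1).Nonempty) :=
  Iff.rfl

theorem yy_continuous : Continuous (yy : YS univ x w1 w2 → ℂ) := by
  have h1 : Continuous (fun y : YS univ x w1 w2 => y.1.1) :=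
    continuous_fst.comp continuous_subtype_val
  have h2 : Continuous (fun y : YS univ x w1 w2 => y.1.2.2.2.2) :=
    continuous_snd.comp (continuous_snd.comp (continuous_snd.comp (continuous_snd.comp
      continuous_subtype_val)))
  exact (continuous_const.sub h1).mul (continuous_exp.comp h2.neg)

theorem DS_open (b : Bool) : IsOpen (DS x w1 w2 b) := by
  cases b
  · exact isOpen_slitPlane.preimage yy_continuous
  · exact isOpen_slitPlane.preimage (continuous_const.sub yy_continuous)

theorem DS_cover (y : YS univ x w1 w2) : y ∈ DS x w1 w2 true ∨ y ∈ DS x w1 w2 false := by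
  by_cases h : yy y ∈ slitPlane
  · exact Or.inr h
  · left
    show 1 - yy y ∈ slitPlane
    rw [mem_slitPlane_iff, not_or, not_lt, not_not] at h
    rw [mem_slitPlane_iff]
    left
    rw [sub_re, one_re]
    linarith [h.1]

theorem TT_ncov [LocallyPathConnectedSpace Z] {q : Z → YS univ x w1 w2} (hq : Continuous q) :
    NCov (fun t : TT q => t.2.1) := by
  refine ⟨fun t => comp_open hq (DS_open t.1) t.2, fun t => comp_pc t.2, fun z => ?_,
    fun v w => ?_⟩
  · rcases DS_cover (q z) with h | h
    · exact ⟨⟨true, compOf q _ z h⟩, mem_compOf_self h⟩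
    · exact ⟨⟨false, compOf q _ z h⟩, mem_compOf_self h⟩
  · obtain ⟨b, C⟩ := v
    obtain ⟨b', C'⟩ := w
    constructor
    · rintro ⟨z, hz, hz'⟩
      by_cases hb : b = b'
      · subst hb
        have : C = C' := comp_disj hz hz'
        subst this
        exact Or.inl (le_refl _)
      · cases b
        · cases b'
          · exact absurd rfl hb
          · exact Or.inl (Or.inr ⟨rfl, rfl, z, hz, hz'⟩)
        · cases b'
          · exact Or.inr (Or.inr ⟨rfl, rfl, z, hz', hz⟩)
          · exact absurd rfl hb
    · rintro (h | h)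
      · rcases h with h | ⟨-, -, h⟩
        · rw [h]
          obtain ⟨z, hz⟩ := comp_nonempty (⟨b', C'⟩ : TT q).2
          exact ⟨z, hz, hz⟩
        · exact h
      · rcases h with h | ⟨-, -, h⟩
        · rw [h]
          obtain ⟨z, hz⟩ := comp_nonempty (⟨b, C⟩ : TT q).2
          exact ⟨z, hz, hz⟩
        · rw [inter_comm]
          exact h

private theorem cmp_same {q : Z → YS univ x w1 w2} {t t' : TT q} (h : Cmp t t')
    (hb : t.1 = t'.1) : t = t' := by
  rcases h with h | h
  · rcases h with h | ⟨h1, h2, -⟩
    · exact h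
    · rw [h1, h2] at hb
      cases hb
  · rcases h with h | ⟨h1, h2, -⟩
    · exact h.symm
    · rw [h1, h2] at hb
      cases hb

theorem TT_acyc [SimplyConnectedSpace Z] [LocallyPathConnectedSpace Z]
    {q : Z → YS univ x w1 w2} (hq : Continuous q) : (CG (TT q)).IsAcyclic := by
  refine cg_acyclic (psc_of_cover (TT_ncov hq)) fun p r s h1 h2 h3 => ?_
  by_cases hpr : p.1 = r.1
  · exact Or.inl (cmp_same h1 hpr)
  · by_cases hrs : r.1 = s.1
    · exact Or.inr (Or.inl (cmp_same h2 hrs))
    · refine Or.inr (Or.inr (cmp_same h3 ?_))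
      cases hp : p.1 <;> cases hr : r.1 <;> cases hs : s.1 <;> simp_all

end ASP87
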