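import Pool.Agent.ASP87.OneLam
import Pool.Agent.ASP87.OneTree
import Pool.Agent.ASP87.LineTree

/-!
# ASP87/OneLine: the line of a component of the outer region in the tree of slit components

Weights `w1 () <> 1`, `w2 () <> 1`. `lam C` = the curve of `exists_lam` (choice). `lineA C k` = the
component of `DS (odd k)` that contains `lam C (pi k)`.

* `slit_of`: `Re A > 0`, `Re B >= 0`, `B <> 0` gives `A / B in slitPlane`: otherwise `A / B = - t`, `t >= 0`
  real, `A = - t B`, `Re A <= 0`.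
* `OS_slit0`: on `OS`, if `Re (conj e exp ll) >= 0` then `yy in slitPlane`: `yy = (conj e (x - c1)) / (conj e exp ll)`.
  `OS_slit1`: if `<= 0` then `1 - yy in slitPlane`: `1 - yy = (conj e (x - c2)) / (- conj e exp ll)`
  (`yy_one_sub`).
* `Re (conj e exp ll)` at `lam C H` is `cos H` (`re_exp`, `kk e (ll) = k` at `H = pi k` by `kk_eq`). For
  `H in [pi k - pi/2, pi k + pi/2]` the sign of `cos H` is `(-1)^k` or it is 0, so `lam C H` is over
  `DS (odd k)`.
* `line_isLine`: adjacency: `lineA C k`, `lineA C (k+1)` have different first components; both contain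
  `lam C (pi k + pi/2)` (the pieces of the curve on `[pi k, pi k + pi/2]` and `[pi k + pi/2, pi k + pi]`
  stay over `DS (odd k)`, `DS (odd (k+1))`). Non-backtracking: suppose `lineA C k = lineA C (k+2)`, `k`
  odd: then `slLab1` agrees at `lam C (pi k)` and `lam C (pi k + 2 pi)` (`cell_lab`, `slitCell1`). At the
  second point `c1, c2, s1, s2` are the same, hence `exp ll`, `yy` too, and `ll` is larger by `2 pi i`. So
  `lab w2 s (rt w2 (t + 2 pi i)) = lab w2 s (rt w2 t)`; for `w2 = 0` this says `2 pi i = 0`; for `w2 >= 1`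
  (`s <> 0` because `bw w2 s = c2 - x <> 0` on `OS`) `exp (2 pi i / w2) = 1`, so `w2 = 1`; contradiction.
  `k` even: the same with `slLab2`, `s1`, `w1`.
* `lineA_inj`: `lineA C k = lineA C' k`, `lineA C (k+1) = lineA C' (k+1)`. Let `z = lam C (pi k + pi/2)`,
  `z' = lam C' (pi k + pi/2)`: in the same `true` component and in the same `false` component. `c1, ll`
  agree, so `c2 = c1 + exp ll` and `yy` agree. `slLab1` agrees (cell_lab), so `s2` agrees (`act_lab`); `slLab2`
  agrees, so `s1` agrees. So `q z = q z'`, and `cell_sheet` (slitCell1) gives `z = z'`, so `C = C'`.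
* `lineA_of_mem`: `z in C`, `Re (conj e exp ll) <> 0`, `k = kk e (ll (q z))`: `z` and `lam C (pi k)` are joined
  over `OP s` (`joined_of_kk`), which is contained in `DS (odd k)`; so `z` is in `lineA C k`.
-/

namespace ASP87

open Complex Topology Set ComplexConjugate

variable {x : Unit → ℂ} {w1 w2 : Unit → ℕ} {Z : Type*} [TopologicalSpace Z]
  {q : Z → YS univ x w1 w2}

/-- the standard curve in a component -/
noncomputable def lam (hq : IsCoveringMap q) {e : ℂ} (he : ‖e‖ = 1) {r : ℝ}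
    (hr : r < (conj e * x ()).re) (C : Comp q (OS x w1 w2 e r)) : ℝ → Z :=
  (exists_lam hq he hr C).choose

theorem slit_of {A B : ℂ} (hA : 0 < A.re) (hB : 0 ≤ B.re) (h0 : B ≠ 0) :
    A / B ∈ slitPlane := by
  by_contra h
  rw [mem_slitPlane_iff, not_or, not_lt, not_not] at h
  obtain ⟨h1, h2⟩ := h
  have h3 : A / B = ((A / B).re : ℂ) := by
    apply Complex.ext
    · rw [ofReal_re]
    · rw [ofReal_im, h2]
  have h4 : A = ((A / B).re : ℂ) * B := by
    rw [← h3, div_mul_cancel₀ _ h0]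
  have h5 : A.re = (A / B).re * B.re := by
    conv_lhs => rw [h4]
    rw [re_ofReal_mul]
  have h6 : (A / B).re * B.re ≤ 0 := mul_nonpos_of_nonpos_of_nonneg h1 hB
  linarith

theorem OS_slit {e : ℂ} {r : ℝ} (hr : r < (conj e * x ()).re) {y : YS univ x w1 w2}
    (hy : y ∈ OS x w1 w2 e r) :
    (0 ≤ (conj e * exp (ll y)).re → y ∈ DS x w1 w2 false) ∧
      ((conj e * exp (ll y)).re ≤ 0 → y ∈ DS x w1 w2 true) := by
  obtain ⟨hy1, hy2⟩ := hy
  have he0 : conj e ≠ 0 := by
    intro h0
    rw [h0, zero_mul, zero_re] at hr hy1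
    linarith
  have hB0 : conj e * exp (ll y) ≠ 0 := mul_ne_zero he0 (exp_ne_zero _)
  have hA1 : 0 < (conj e * (x () - c1 y)).re := by
    rw [mul_sub, sub_re]
    linarith
  have hA2 : 0 < (conj e * (x () - c2 y)).re := by
    rw [mul_sub, sub_re]
    linarith
  constructor
  · intro hB
    show yy y ∈ slitPlane
    have h1 : yy y = (conj e * (x () - c1 y)) / (conj e * exp (ll y)) := by
      unfold yy
      rw [exp_neg, mul_div_mul_left _ _ he0, div_eq_mul_inv]
    rw [h1]
    exact slit_of hA1 hB hB0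
  · intro hB
    show 1 - yy y ∈ slitPlane
    have h1 : 1 - yy y = (conj e * (x () - c2 y)) / (-(conj e * exp (ll y))) := by
      rw [yy_one_sub, exp_neg, ← mul_neg, mul_div_mul_left _ _ he0, div_neg, div_eq_mul_inv]
      ring
    rw [h1]
    refine slit_of hA2 ?_ (neg_ne_zero.2 hB0)
    rw [neg_re]
    linarith

private theorem lam_spec (hq : IsCoveringMap q) {e : ℂ} (he : ‖e‖ = 1) {r : ℝ}
    (hr : r < (conj e * x ()).re) (C : Comp q (OS x w1 w2 e r)) :
    Continuous (lam hq he hr C) ∧ (∀ H, lam hq he hr C H ∈ C.1) ∧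
      (∀ H, c1 (q (lam hq he hr C H)) = ((r - 2 : ℝ) : ℂ) * e) ∧
      (∀ H, ll (q (lam hq he hr C H)) = ((arg e + H : ℝ) : ℂ) * I) ∧
      (∀ H, s1 (q (lam hq he hr C (H + 2 * Real.pi))) () = s1 (q (lam hq he hr C H)) ()) ∧
      ∀ H, s2 (q (lam hq he hr C (H + 2 * Real.pi))) () = s2 (q (lam hq he hr C H)) () :=
  (exists_lam hq he hr C).choose_spec

private theorem lam_re (hq : IsCoveringMap q) {e : ℂ} (he : ‖e‖ = 1) {r : ℝ}
    (hr : r < (conj e * x ()).re) (C : Comp q (OS x w1 w2 e r)) (H : ℝ) :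
    (conj e * exp (ll (q (lam hq he hr C H)))).re = Real.cos H := by
  rw [re_exp he, (lam_spec hq he hr C).2.2.2.1 H, re_ofReal_mul, im_ofReal_mul, I_re, I_im,
    mul_zero, mul_one, Real.exp_zero, one_mul]
  congr 1
  ring

private theorem cos_near (k : ℤ) (H : ℝ) (hH : |H - Real.pi * k| ≤ Real.pi / 2) :
    (Odd k → Real.cos H ≤ 0) ∧ (¬ Odd k → 0 ≤ Real.cos H) := by
  obtain ⟨h1, h2⟩ := abs_le.1 hH
  have h3 : 0 ≤ Real.cos (H - Real.pi * k) := Real.cos_nonneg_of_mem_Icc ⟨h1, h2⟩
  have h4 : Real.cos H = (-1) ^ k * Real.cos (H - Real.pi * k) := by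
    have h5 : H = (H - Real.pi * k) + k * Real.pi := by ring
    conv_lhs => rw [h5]
    rw [Real.cos_add_int_mul_pi]
  constructor
  · intro hk
    rw [h4, hk.neg_one_zpow]
    linarith
  · intro hk
    rw [h4, (Int.not_odd_iff_even.1 hk).neg_one_zpow, one_mul]
    exact h3

theorem lam_mem_DS (hq : IsCoveringMap q) {e : ℂ} (he : ‖e‖ = 1) {r : ℝ}
    (hr : r < (conj e * x ()).re) (C : Comp q (OS x w1 w2 e r)) (k : ℤ) (H : ℝ)
    (hH : |H - Real.pi * k| ≤ Real.pi / 2) :
    q (lam hq he hr C H) ∈ DS x w1 w2 (decide (Odd k)) := by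
  have h1 := OS_slit hr (comp_mem ((lam_spec hq he hr C).2.1 H))
  rw [lam_re hq he hr C H] at h1
  by_cases hk : Odd k
  · rw [decide_eq_true hk]
    exact h1.2 ((cos_near k H hH).1 hk)
  · rw [decide_eq_false hk]
    exact h1.1 ((cos_near k H hH).2 hk)

/-- the line of a component -/
noncomputable def lineA (hq : IsCoveringMap q) {e : ℂ} (he : ‖e‖ = 1) {r : ℝ}
    (hr : r < (conj e * x ()).re) (C : Comp q (OS x w1 w2 e r)) (k : ℤ) : TT q :=
  ⟨decide (Odd k), compOf q _ (lam hq he hr C (Real.pi * k))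
    (lam_mem_DS hq he hr C k _ (by rw [sub_self, abs_zero]; positivity))⟩

private theorem lam_mem_line (hq : IsCoveringMap q) {e : ℂ} (he : ‖e‖ = 1) {r : ℝ}
    (hr : r < (conj e * x ()).re) (C : Comp q (OS x w1 w2 e r)) (k : ℤ) (H : ℝ)
    (hH : |H - Real.pi * k| ≤ Real.pi / 2) :
    lam hq he hr C H ∈ (lineA hq he hr C k).2.1 := by
  show JoinedIn (q ⁻¹' (DS x w1 w2 (decide (Odd k)))) (lam hq he hr C (Real.pi * k))
    (lam hq he hr C H)
  have h1 : IsPathConnected (Icc (Real.pi * k - Real.pi / 2) (Real.pi * k + Real.pi / 2)) :=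
    (convex_Icc _ _).isPathConnected ⟨Real.pi * k, by constructor <;> linarith [Real.pi_pos]⟩
  have h2 := h1.image (lam_spec hq he hr C).1
  have h3 : H ∈ Icc (Real.pi * k - Real.pi / 2) (Real.pi * k + Real.pi / 2) := by
    obtain ⟨h4, h5⟩ := abs_le.1 hH
    constructor <;> linarith
  have h4 : Real.pi * k ∈ Icc (Real.pi * k - Real.pi / 2) (Real.pi * k + Real.pi / 2) := by
    constructor <;> linarith [Real.pi_pos]
  refine (h2.joinedIn _ (mem_image_of_mem _ h4) _ (mem_image_of_mem _ h3)).mono ?_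
  rintro _ ⟨H', hH', rfl⟩
  refine lam_mem_DS hq he hr C k H' (abs_le.2 ⟨?_, ?_⟩) <;> linarith [hH'.1, hH'.2]

private theorem lab_shift {w : ℕ} (hw : w ≠ 1) {s t : ℂ} (hs : bw w s ≠ 0)
    (h : lab w s (rt w (t + 2 * Real.pi * I)) = lab w s (rt w t)) : False := by
  rcases eq_or_ne w 0 with rfl | hw0
  · simp only [lab, rt, if_true] at h
    have h1 : (2 : ℂ) * Real.pi * I = 0 := by linear_combination -h
    exact two_pi_I_ne_zero h1
  · simp only [bw, hw0, if_false] at hs
    have hs0 : s ≠ 0 := by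
      rintro rfl
      exact hs (zero_pow hw0)
    simp only [lab, rt, hw0, if_false] at h
    have hwc : (w : ℂ) ≠ 0 := by exact_mod_cast hw0
    have h1 : exp ((t + 2 * Real.pi * I) / w) = exp (t / w) := by
      have h2 := exp_ne_zero ((t + 2 * Real.pi * I) / w)
      have h3 := exp_ne_zero (t / w)
      rw [div_eq_div_iff h2 h3] at h
      exact (mul_left_cancel₀ hs0 h).symm
    rw [exp_eq_exp_iff_exists_int] at h1
    obtain ⟨n, hn⟩ := h1
    have h2 : (2 * Real.pi * I) * (1 : ℂ) = (2 * Real.pi * I) * ((n : ℂ) * w) := by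
      field_simp at hn
      linear_combination hn
    have h3 := mul_left_cancel₀ two_pi_I_ne_zero h2
    have h4 : (n * (w : ℤ) : ℤ) = 1 := by
      have h5 : (((n * (w : ℤ) : ℤ)) : ℂ) = 1 := by
        push_cast
        exact h3.symm
      exact_mod_cast h5
    have h5 : IsUnit (w : ℤ) := IsUnit.of_mul_eq_one n (by rw [mul_comm]; exact h4)
    rw [Int.isUnit_iff] at h5
    omega

private theorem c2_eq (y : YS univ x w1 w2) : c2 y = c1 y + exp (ll y) := by
  have h1 : exp (ll y) = c2 y - c1 y := y.2.2.2.2.2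
  rw [h1]
  ring

private theorem bw2_ne {y : YS univ x w1 w2} (h : 1 - yy y ∈ slitPlane) :
    bw (w2 ()) (s2 y ()) ≠ 0 := by
  have h1 : bw (w2 ()) (s2 y ()) = c2 y - x () := y.2.2.2.2.1 ()
  rw [h1]
  intro h2
  have h3 := yy_one_sub y
  rw [h2, zero_mul] at h3
  exact slitPlane_ne_zero h h3

private theorem bw1_ne {y : YS univ x w1 w2} (h : yy y ∈ slitPlane) :
    bw (w1 ()) (s1 y ()) ≠ 0 := by
  have h1 : bw (w1 ()) (s1 y ()) = c1 y - x () := y.2.2.2.1 ()
  rw [h1]
  intro h2
  have h3 : yy y = 0 := by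
    unfold yy
    have h4 : x () - c1 y = 0 := by linear_combination -h2
    rw [h4, zero_mul]
  exact slitPlane_ne_zero h h3

private theorem lam_shift (hq : IsCoveringMap q) {e : ℂ} (he : ‖e‖ = 1) {r : ℝ}
    (hr : r < (conj e * x ()).re) (C : Comp q (OS x w1 w2 e r)) (H : ℝ) :
    ll (q (lam hq he hr C (H + 2 * Real.pi))) =
      ll (q (lam hq he hr C H)) + 2 * Real.pi * I ∧
    yy (q (lam hq he hr C (H + 2 * Real.pi))) = yy (q (lam hq he hr C H)) := by
  obtain ⟨-, -, hc, hl, -, -⟩ := lam_spec hq he hr C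
  have h1 : ll (q (lam hq he hr C (H + 2 * Real.pi))) =
      ll (q (lam hq he hr C H)) + 2 * Real.pi * I := by
    rw [hl, hl]
    push_cast
    ring
  refine ⟨h1, ?_⟩
  unfold yy
  rw [h1, hc, hc, neg_add, exp_add, exp_neg (2 * Real.pi * I), exp_two_pi_mul_I, inv_one,
    mul_one]

theorem line_isLine (hq : IsCoveringMap q) {e : ℂ} (he : ‖e‖ = 1) {r : ℝ}
    (hr : r < (conj e * x ()).re) (hw1 : w1 () ≠ 1) (hw2 : w2 () ≠ 1)
    (C : Comp q (OS x w1 w2 e r)) : IsLine (CG (TT q)) (lineA hq he hr C) := by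
  constructor
  · intro k
    have hm1 : lam hq he hr C (Real.pi * k + Real.pi / 2) ∈ (lineA hq he hr C k).2.1 := by
      refine lam_mem_line hq he hr C k _ (abs_le.2 ⟨?_, ?_⟩) <;> linarith [Real.pi_pos]
    have hm2 : lam hq he hr C (Real.pi * k + Real.pi / 2) ∈
        (lineA hq he hr C (k + 1)).2.1 := by
      refine lam_mem_line hq he hr C (k + 1) _ (abs_le.2 ⟨?_, ?_⟩) <;> push_cast <;>
        linarith [Real.pi_pos]
    by_cases hk : Odd k
    · have h1 : (lineA hq he hr C k).1 = true := decide_eq_true hk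
      have h2 : (lineA hq he hr C (k + 1)).1 = false :=
        decide_eq_false (Int.not_odd_iff_even.2 hk.add_one)
      refine ⟨fun h => ?_, Or.inr (Or.inr ⟨h2, h1, ⟨_, hm2, hm1⟩⟩)⟩
      rw [h, h2] at h1
      cases h1
    · have h1 : (lineA hq he hr C k).1 = false := decide_eq_false hk
      have h2 : (lineA hq he hr C (k + 1)).1 = true :=
        decide_eq_true (Int.not_odd_iff_even.1 hk).add_one
      refine ⟨fun h => ?_, Or.inl (Or.inr ⟨h1, h2, ⟨_, hm1, hm2⟩⟩)⟩
      rw [h, h2] at h1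
      cases h1
  · intro k hk
    have h0 : lam hq he hr C (Real.pi * (k + 2 : ℤ)) ∈ (lineA hq he hr C (k + 2)).2.1 :=
      lam_mem_line hq he hr C (k + 2) _ (by rw [sub_self, abs_zero]; positivity)
    rw [← hk] at h0
    have h1 : JoinedIn (q ⁻¹' (DS x w1 w2 (decide (Odd k)))) (lam hq he hr C (Real.pi * k))
      (lam hq he hr C (Real.pi * (k + 2 : ℤ))) := h0
    have h2 : Real.pi * ((k + 2 : ℤ) : ℝ) = Real.pi * k + 2 * Real.pi := by
      push_cast
      ring
    rw [h2] at h1
    obtain ⟨hl, hy⟩ := lam_shift hq he hr C (Real.pi * k)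
    have hs1 := (lam_spec hq he hr C).2.2.2.2.1 (Real.pi * k)
    have hs2 := (lam_spec hq he hr C).2.2.2.2.2 (Real.pi * k)
    by_cases hko : Odd k
    · rw [decide_eq_true hko] at h1
      have h3 := cell_lab hq slitCell1 h1
      have h4 : 1 - yy (q (lam hq he hr C (Real.pi * k))) ∈ slitPlane := h1.source_mem
      unfold slLab1 at h3
      rw [hl, hy, hs2] at h3
      refine lab_shift hw2 (bw2_ne h4) (t := ll (q (lam hq he hr C (Real.pi * k))) +
        log (1 - yy (q (lam hq he hr C (Real.pi * k))))) ?_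
      rw [← h3]
      congr 2
      ring
    · rw [decide_eq_false hko] at h1
      have h3 := cell_lab hq slitCell2 h1
      have h4 : yy (q (lam hq he hr C (Real.pi * k))) ∈ slitPlane := h1.source_mem
      unfold slLab2 at h3
      rw [hl, hy, hs1] at h3
      refine lab_shift hw1 (bw1_ne h4) (t := ll (q (lam hq he hr C (Real.pi * k))) +
        log (yy (q (lam hq he hr C (Real.pi * k)))) + Real.pi * I) ?_
      rw [← h3]
      congr 2
      ring

private theorem both_joined (hq : IsCoveringMap q) {e : ℂ} (he : ‖e‖ = 1) {r : ℝ}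
    (hr : r < (conj e * x ()).re) {C C' : Comp q (OS x w1 w2 e r)} {k : ℤ}
    (h : lineA hq he hr C k = lineA hq he hr C' k) (H : ℝ)
    (hH : |H - Real.pi * k| ≤ Real.pi / 2) :
    JoinedIn (q ⁻¹' (DS x w1 w2 (decide (Odd k)))) (lam hq he hr C H) (lam hq he hr C' H) := by
  have h1 := lam_mem_line hq he hr C k H hH
  have h2 := lam_mem_line hq he hr C' k H hH
  rw [← h] at h2
  have h1' : JoinedIn (q ⁻¹' (DS x w1 w2 (decide (Odd k)))) (lam hq he hr C (Real.pi * k))
    (lam hq he hr C H) := h1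
  have h2' : JoinedIn (q ⁻¹' (DS x w1 w2 (decide (Odd k)))) (lam hq he hr C (Real.pi * k))
    (lam hq he hr C' H) := h2
  exact h1'.symm.trans h2'

theorem lineA_inj (hq : IsCoveringMap q) {e : ℂ} (he : ‖e‖ = 1) {r : ℝ}
    (hr : r < (conj e * x ()).re) {C C' : Comp q (OS x w1 w2 e r)} {k : ℤ}
    (h : lineA hq he hr C k = lineA hq he hr C' k)
    (h' : lineA hq he hr C (k + 1) = lineA hq he hr C' (k + 1)) : C = C' := by
  have h1 := both_joined hq he hr h (Real.pi * k + Real.pi / 2)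
    (by refine abs_le.2 ⟨?_, ?_⟩ <;> linarith [Real.pi_pos])
  have h2 := both_joined hq he hr h' (Real.pi * k + Real.pi / 2)
    (by refine abs_le.2 ⟨?_, ?_⟩ <;> push_cast <;> linarith [Real.pi_pos])
  obtain ⟨hT, hF⟩ : JoinedIn (q ⁻¹' (DS x w1 w2 true))
      (lam hq he hr C (Real.pi * k + Real.pi / 2)) (lam hq he hr C' (Real.pi * k + Real.pi / 2)) ∧
      JoinedIn (q ⁻¹' (DS x w1 w2 false))
      (lam hq he hr C (Real.pi * k + Real.pi / 2))
      (lam hq he hr C' (Real.pi * k + Real.pi / 2)) := by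
    by_cases hk : Odd k
    · rw [decide_eq_true hk] at h1
      rw [decide_eq_false (Int.not_odd_iff_even.2 hk.add_one)] at h2
      exact ⟨h1, h2⟩
    · rw [decide_eq_false hk] at h1
      rw [decide_eq_true (Int.not_odd_iff_even.1 hk).add_one] at h2
      exact ⟨h2, h1⟩
  set z := lam hq he hr C (Real.pi * k + Real.pi / 2) with hz
  set z' := lam hq he hr C' (Real.pi * k + Real.pi / 2) with hz'
  have e1 : c1 (q z) = c1 (q z') := by
    rw [(lam_spec hq he hr C).2.2.1, (lam_spec hq he hr C').2.2.1]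
  have e2 : ll (q z) = ll (q z') := by
    rw [(lam_spec hq he hr C).2.2.2.1, (lam_spec hq he hr C').2.2.2.1]
  have e3 : c2 (q z) = c2 (q z') := by
    rw [c2_eq, c2_eq, e1, e2]
  have e4 : yy (q z) = yy (q z') := by
    unfold yy
    rw [e1, e2]
  have e5 : s2 (q z) () = s2 (q z') () := by
    have h5 : slLab1 (q z') = slLab1 (q z) := cell_lab hq slitCell1 hT
    have h6 := act_lab (w2 ()) (s2 (q z) ()) (ll (q z) + log (1 - yy (q z)))
    have h7 := act_lab (w2 ()) (s2 (q z') ()) (ll (q z') + log (1 - yy (q z')))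
    rw [← h6, ← h7]
    have h8 : lab (w2 ()) (s2 (q z) ()) (rt (w2 ()) (ll (q z) + log (1 - yy (q z)))) =
      lab (w2 ()) (s2 (q z') ()) (rt (w2 ()) (ll (q z') + log (1 - yy (q z')))) := h5.symm
    rw [h8, e2, e4]
  have e6 : s1 (q z) () = s1 (q z') () := by
    have h5 : slLab2 (q z') = slLab2 (q z) := cell_lab hq slitCell2 hF
    have h6 := act_lab (w1 ()) (s1 (q z) ()) (ll (q z) + log (yy (q z)) + Real.pi * I)
    have h7 := act_lab (w1 ()) (s1 (q z') ()) (ll (q z') + log (yy (q z')) + Real.pi * I)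
    rw [← h6, ← h7]
    have h8 : lab (w1 ()) (s1 (q z) ()) (rt (w1 ()) (ll (q z) + log (yy (q z)) + Real.pi * I)) =
      lab (w1 ()) (s1 (q z') ()) (rt (w1 ()) (ll (q z') + log (yy (q z')) + Real.pi * I)) :=
      h5.symm
    rw [h8, e2, e4]
  have e7 : q z = q z' := by
    apply Subtype.ext
    refine Prod.ext e1 (Prod.ext e3 (Prod.ext ?_ (Prod.ext ?_ e2)))
    · funext u
      exact e6
    · funext u
      exact e5
  have e8 : z = z' := cell_sheet hq slitCell1 hT e7
  have m1 : z ∈ C.1 := (lam_spec hq he hr C).2.1 _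
  have m2 : z' ∈ C'.1 := (lam_spec hq he hr C').2.1 _
  rw [← e8] at m2
  exact comp_disj m1 m2

theorem lineA_of_mem (hq : IsCoveringMap q) {e : ℂ} (he : ‖e‖ = 1) {r : ℝ}
    (hr : r < (conj e * x ()).re) {C : Comp q (OS x w1 w2 e r)} {z : Z} (hz : z ∈ C.1)
    (h : (conj e * exp (ll (q z))).re ≠ 0) :
    z ∈ (lineA hq he hr C (kk e (ll (q z)))).2.1 := by
  set k := kk e (ll (q z)) with hk
  have h1 : (conj e * exp (ll (q (lam hq he hr C (Real.pi * k))))).re ≠ 0 := by
    rw [lam_re hq he hr C]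
    have h2 : Real.cos (Real.pi * k) = (-1) ^ k := by
      rw [mul_comm, Real.cos_int_mul_pi]
    rw [h2]
    exact zpow_ne_zero _ (by norm_num)
  have h2 : kk e (ll (q (lam hq he hr C (Real.pi * k)))) = k := by
    apply kk_eq
    rw [(lam_spec hq he hr C).2.2.2.1, im_ofReal_mul, I_im, mul_one]
    have h3 : arg e + Real.pi * k - arg e - Real.pi * k = 0 := by ring
    rw [h3, abs_zero]
    positivity
  obtain ⟨s, hs, hj⟩ := joined_of_kk hq he hr ((lam_spec hq he hr C).2.1 (Real.pi * k)) hz h1 h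
    (by rw [h2])
  rw [h2] at hs
  show JoinedIn (q ⁻¹' (DS x w1 w2 (decide (Odd k)))) (lam hq he hr C (Real.pi * k)) z
  refine hj.mono ?_
  intro z1 hz1
  obtain ⟨hz2, hz3⟩ := hz1
  have h3 := OS_slit hr hz2
  cases s with
  | true =>
    have hev : Even k := hs.1 rfl
    rw [decide_eq_false (Int.not_odd_iff_even.2 hev)]
    exact h3.1 (le_of_lt hz3)
  | false =>
    have hodd : Odd k := by
      rw [← Int.not_even_iff_odd]
      intro hev
      have := hs.2 hev
      cases this
    rw [decide_eq_true hodd]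
    exact h3.2 (le_of_lt (by simpa using hz3))

end ASP87
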