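import Pool.Agent.ASP87.PLift

/-!
# ASP87/PBall: balls and levels

PROOFS.
`BallR_succ`: reflexivity of `r` (either parity of `k + e`).
`stage_ball`: strong induction on `lev b`. Level `0`: `b = b0`, `f b = o`. Level `n + 1`:
  `Odd (n + 1 + e)`: gate `c` (`gate_odd`), `s c b`, `lev c ≤ n`, `f c` in the ball of radius `n`
  (`BallR_mono`), `Even (n + e)`, so `f b` in the ball of radius `n + 1`. `Even (n + 1 + e)`: dual.
`ball_walk`: induction on `k`; `k = 0`: `t = []`. `k → k + 1`, `x` comparable to `y` in the ball of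
  radius `k` (the direction depends on the parity of `k + e`): `t ++ [x]`. The lift `y'` of the walk
  to `y` has level `≤ k < N`: `up_full`/`down_full` gives `x'` over `x` above/below `y'`; its level is
  `≤ k + 1` by `closed_up`/`closed_down` for `k + 1`. (`List.getLast?` of `o :: (t ++ [x])` is
  `some x`; `List.IsChain` of `(o :: t) ++ [x]`.)
-/

namespace ASP87

universe u

variable {V B : Type u} {r : V → V → Prop} {s : B → B → Prop} {f : B → V} {lev : B → ℕ}
  {e N : ℕ} {o : V}

theorem BallR_succ (hr : PO r) {k : ℕ} {x : V} (h : BallR r e o k x) : BallR r e o (k + 1) x := by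
  rcases Nat.even_or_odd (k + e) with hk | hk
  · exact Or.inl ⟨hk, x, h, hr.refl x⟩
  · exact Or.inr ⟨hk, x, h, hr.refl x⟩

theorem BallR_mono (hr : PO r) {k k' : ℕ} (hk : k ≤ k') {x : V} (h : BallR r e o k x) :
    BallR r e o k' x := by
  induction hk with
  | refl => exact h
  | step _ ih => exact BallR_succ hr ih

theorem stage_ball (hr : PO r) (h : IsStage r s e N o f lev) (b : B) :
    BallR r e o (lev b) (f b) := by
  suffices H : ∀ n, ∀ b, lev b = n → BallR r e o n (f b) from H _ b rfl
  intro n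
  induction n using Nat.strong_induction_on with
  | _ n ih =>
    intro b hb
    obtain _ | n := n
    · obtain ⟨b0, h0, h1, h2⟩ := h.zero
      rw [h2 b hb]
      exact h1
    · rcases Nat.even_or_odd (n + e) with hk | hk
      · have hodd : Odd (lev b + e) := by
          rw [hb, show n + 1 + e = n + e + 1 by omega]
          exact hk.add_one
        obtain ⟨c, hc1, hc2, -⟩ := h.gate_odd b (by omega) hodd
        exact Or.inl ⟨hk, f c, BallR_mono hr (by omega) (ih (lev c) (by omega) c rfl),
          h.mono _ _ hc2⟩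
      · have heven : Even (lev b + e) := by
          rw [hb, show n + 1 + e = n + e + 1 by omega]
          exact hk.add_one
        obtain ⟨c, hc1, hc2, -⟩ := h.gate_even b (by omega) heven
        exact Or.inr ⟨hk, f c, BallR_mono hr (by omega) (ih (lev c) (by omega) c rfl),
          h.mono _ _ hc2⟩

private theorem LW_snoc {t : List V} {y : V} {y0 y' : B} (h : LW s f lev (o :: t) y0)
    (hf : f y' = y) (hc : CmpR s y0 y') : LW s f lev (o :: (t ++ [y])) y' := by
  obtain ⟨b0, h1, h2, h3⟩ := h
  exact ⟨b0, h1, h2, (lift_append t [y] b0 y').2 ⟨y0, h3, y', hf, hc, rfl⟩⟩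

private theorem chain_snoc {t : List V} {y0 y : V} (h : List.IsChain (CmpR r) (o :: t))
    (h1 : (o :: t).getLast? = some y0) (h2 : CmpR r y0 y) :
    List.IsChain (CmpR r) (o :: (t ++ [y])) ∧ (o :: (t ++ [y])).getLast? = some y := by
  rw [← List.cons_append]
  constructor
  · rw [List.isChain_append]
    refine ⟨h, List.isChain_singleton _, ?_⟩
    intro a ha b hb
    rw [h1] at ha
    simp only [Option.mem_def, Option.some.injEq] at ha
    simp only [List.head?_cons, Option.mem_def, Option.some.injEq] at hb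
    rw [← ha, ← hb]
    exact h2
  · rw [List.getLast?_append]
    rfl

theorem ball_walk {k : ℕ} {y : V} (hy : BallR r e o k y) :
    ∃ t : List V, List.IsChain (CmpR r) (o :: t) ∧ (o :: t).getLast? = some y ∧
      ∀ (N : ℕ), k < N → ∀ (B : Type u) (s : B → B → Prop) (f : B → V) (lev : B → ℕ),
        IsStage r s e N o f lev → ∃ y', LW s f lev (o :: t) y' ∧ f y' = y ∧ lev y' ≤ k := by
  induction k generalizing y with
  | zero =>
    have hy0 : y = o := hy
    subst hy0
    refine ⟨[], List.isChain_singleton _, rfl, ?_⟩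
    intro N hN B s f lev h
    obtain ⟨b0, h0, h1, h2⟩ := h.zero
    exact ⟨b0, ⟨b0, h0, h1, rfl⟩, h1, h0.le⟩
  | succ k ih =>
    rcases hy with ⟨hk, y0, hy0, hr0⟩ | ⟨hk, y0, hy0, hr0⟩
    · obtain ⟨t, ht1, ht2, ht3⟩ := ih hy0
      obtain ⟨h1, h2⟩ := chain_snoc ht1 ht2 (Or.inl hr0)
      refine ⟨t ++ [y], h1, h2, ?_⟩
      intro N hN B s f lev h
      obtain ⟨z, hz1, hz2, hz3⟩ := ht3 N (by omega) B s f lev h
      obtain ⟨z', hz4, hz5⟩ := h.up_full z (Or.inl (by omega)) y (by rw [hz2]; exact hr0)
      refine ⟨z', LW_snoc hz1 hz5 (Or.inl hz4), hz5, ?_⟩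
      refine h.closed_up (k + 1) ?_ z z' hz4 (by omega)
      rw [show k + 1 + e = k + e + 1 by omega]
      exact hk.add_one
    · obtain ⟨t, ht1, ht2, ht3⟩ := ih hy0
      obtain ⟨h1, h2⟩ := chain_snoc ht1 ht2 (Or.inr hr0)
      refine ⟨t ++ [y], h1, h2, ?_⟩
      intro N hN B s f lev h
      obtain ⟨z, hz1, hz2, hz3⟩ := ht3 N (by omega) B s f lev h
      obtain ⟨z', hz4, hz5⟩ := h.down_full z (Or.inl (by omega)) y (by rw [hz2]; exact hr0)
      refine ⟨z', LW_snoc hz1 hz5 (Or.inr hz4), hz5, ?_⟩
      refine h.closed_down (k + 1) ?_ z' z hz4 (by omega)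
      rw [show k + 1 + e = k + e + 1 by omega]
      exact hk.add_one

end ASP87
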