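import Pool.Agent.ASP87.PNew

/-!
# ASP87/PStepA: the extended poset `ExtP r s f`: order, map, fullness

PROOFS.
`ext_po`: case distinction; e.g. `old x ≤ new b v ≤ new b2 v2`: `s x b`, `s b b2`.
`ext_mono`: `old x ≤ new b v`: `r (f x) (f b)`, `r (f b) v` (first part of `New0`).
`ext_up_full`: `old x`, `r (f x) v`: if some `y` above `x` has `f y = v` take `old y`. Otherwise
  `New0 v x`, `exists_maxNew` gives `m` above `x`: take `new m v`.
  `new b v`, `r v v2`: `new0_mono` gives `New0 v2 b`, `exists_maxNew` gives `m` above `b`: `new m v2`.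
`ext_down_full_old`: the down-set of `old b` is the one of `b` (all down-sets of the old stage are
  full since `Even (N + e)`).
`ext_gate_new`: the elements below `new b v` of level `≤ N` are the `old x` with `s x b`.
`ext_closed_up`: `k` with `Odd (k + e)`. If `N + 1 ≤ k` all levels are `≤ k`. Otherwise `k < N`
  (`k ≠ N` by parity); `old x ≤ old y`: old stage. `old x ≤ new b v`: `New0 v x` (`new0_down`), so
  `lev x = N > k` (`new0_lev`), contradiction with `lev x ≤ k`. `new ≤ new`: level `N + 1 > k`.
`ext_closed_down`: `k` with `Even (k + e)`: `old ≤ old`: old stage; everything `≤ new`: the level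
  of `new` is `N + 1 ≤ k`, all levels are `≤ N + 1`; `new ≤ old` is impossible.
-/

namespace ASP87

universe u

variable {V B : Type u} {r : V → V → Prop} {s : B → B → Prop} {f : B → V} {lev : B → ℕ}
  {e N : ℕ} {o : V}

private theorem lv_le' (h : IsStage r s e N o f lev) (p : ExtP r s f) :
    ExtP.lv lev N p ≤ N + 1 := by
  cases p with
  | old x => exact (h.lev_le x).trans (Nat.le_succ N)
  | new b v hb => exact le_rfl

theorem ext_po (hV : Hyp r) (h : IsStage r s e N o f lev) :
    PO (ExtP.le : ExtP r s f → ExtP r s f → Prop) := by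
  refine ⟨?_, ?_, ?_⟩
  · intro p
    cases p with
    | old x => exact h.po.refl x
    | new b v hb => exact ⟨h.po.refl b, hV.po.refl v⟩
  · intro p q t h1 h2
    cases p with
    | old x =>
      cases q with
      | old y =>
        cases t with
        | old z => exact h.po.trans x y z h1 h2
        | new b v hb => exact h.po.trans x y b h1 h2
      | new b v hb =>
        cases t with
        | old z => exact False.elim h2
        | new b2 v2 hb2 => exact h.po.trans x b b2 h1 h2.1
    | new b v hb =>
      cases q with
      | old y => exact False.elim h1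
      | new b2 v2 hb2 =>
        cases t with
        | old z => exact False.elim h2
        | new b3 v3 hb3 =>
          exact ⟨h.po.trans b b2 b3 h1.1 h2.1, hV.po.trans v v2 v3 h1.2 h2.2⟩
  · intro p q h1 h2
    cases p with
    | old x =>
      cases q with
      | old y =>
        have e1 : x = y := h.po.anti x y h1 h2
        subst e1
        rfl
      | new b v hb => exact False.elim h2
    | new b v hb =>
      cases q with
      | old y => exact False.elim h1
      | new b2 v2 hb2 =>
        have e1 : b = b2 := h.po.anti b b2 h1.1 h2.1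
        have e2 : v = v2 := hV.po.anti v v2 h1.2 h2.2
        subst e1
        subst e2
        rfl

theorem ext_mono (hV : Hyp r) (h : IsStage r s e N o f lev) (p q : ExtP r s f)
    (hpq : ExtP.le p q) : r p.map q.map := by
  cases p with
  | old x =>
    cases q with
    | old y => exact h.mono x y hpq
    | new b v hb => exact hV.po.trans _ _ _ (h.mono x b hpq) hb.1.1
  | new b v hb =>
    cases q with
    | old y => exact False.elim hpq
    | new b2 v2 hb2 => exact hpq.2

theorem ext_up_full (hV : Hyp r) (h : IsStage r s e N o f lev) (hp : Even (N + e))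
    (p : ExtP r s f) (v : V) (hv : r p.map v) : ∃ q, ExtP.le p q ∧ q.map = v := by
  cases p with
  | old x =>
    by_cases hy : ∃ y, s x y ∧ f y = v
    · obtain ⟨y, hy, hyv⟩ := hy
      exact ⟨ExtP.old y, hy, hyv⟩
    · have h0 : New0 r s f v x := ⟨hv, fun y hy' e' => hy ⟨y, hy', e'⟩⟩
      obtain ⟨m, hm, hmm⟩ := exists_maxNew hV h h0
      exact ⟨ExtP.new m v hmm, hm, rfl⟩
  | new b v0 hb =>
    have h0 : New0 r s f v b := new0_mono hV h hp hb.1 hv
    obtain ⟨m, hm, hmm⟩ := exists_maxNew hV h h0
    exact ⟨ExtP.new m v hmm, ⟨hm, hv⟩, rfl⟩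

theorem ext_down_full_old (h : IsStage r s e N o f lev) (hp : Even (N + e))
    (b : B) (v : V) (hv : r v (f b)) :
    ∃ q : ExtP r s f, ExtP.le q (ExtP.old b) ∧ q.map = v := by
  obtain ⟨b', hb', hv'⟩ := h.down_full b (Or.inr hp) v hv
  exact ⟨ExtP.old b', hb', hv'⟩

theorem ext_gate_new (h : IsStage r s e N o f lev) (b : B) (v : V) (hb : MaxNew r s f v b) :
    ∃ c : ExtP r s f, ExtP.lv lev N c < N + 1 ∧ ExtP.le c (ExtP.new b v hb) ∧
      ∀ c', ExtP.lv lev N c' < N + 1 → ExtP.le c' (ExtP.new b v hb) → ExtP.le c' c := by
  refine ⟨ExtP.old b, Nat.lt_succ_of_le (h.lev_le b), h.po.refl b, ?_⟩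
  intro c' h1 h2
  cases c' with
  | old x => exact h2
  | new b2 v2 hb2 => exact absurd h1 (lt_irrefl _)

theorem ext_closed_up (hV : Hyp r) (h : IsStage r s e N o f lev) (hp : Even (N + e)) (k : ℕ)
    (hk : Odd (k + e)) (p q : ExtP r s f) (hpq : ExtP.le p q) (hl : ExtP.lv lev N p ≤ k) :
    ExtP.lv lev N q ≤ k := by
  rcases Nat.lt_or_ge k (N + 1) with h1 | h1
  · have h2 : k ≠ N := by
      rintro rfl
      exact (Nat.not_even_iff_odd.2 hk) hp
    have h3 : k < N := by omega
    cases p with
    | old x =>
      cases q with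
      | old y => exact h.closed_up k hk x y hpq hl
      | new b v hb =>
        exfalso
        have h4 : lev x = N := new0_lev h (new0_down hV h hb.1 hpq)
        have h5 : lev x ≤ k := hl
        omega
    | new b v hb =>
      exfalso
      have h5 : N + 1 ≤ k := hl
      omega
  · exact (lv_le' h q).trans h1

theorem ext_closed_down (h : IsStage r s e N o f lev) (k : ℕ)
    (hk : Even (k + e)) (p q : ExtP r s f) (hpq : ExtP.le p q) (hl : ExtP.lv lev N q ≤ k) :
    ExtP.lv lev N p ≤ k := by
  cases q with
  | old y =>
    cases p with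
    | old x => exact h.closed_down k hk x y hpq hl
    | new b v hb => exact False.elim hpq
  | new b v hb => exact (lv_le' h p).trans hl

end ASP87
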