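import Pool.Agent.ASP87.PNew

/-!
# ASP87/PStepB: the extended poset `ExtP r s f`: injectivity on stars (F1)

PROOFS. `ext_up_inj`: `c ≤ p, q`, `p.map ≤ q.map`.
 * `c = old x`, `p = old p`, `q = old q`: `up_inj`.
 * `c = old x`, `p = old p`, `q = new b v`: `s x p`, `s x b`, `r (f p) v`. `New0 v x` (`new0_down`),
   `New0 v p` (`new0_up` from `x`), so `s p b` by `le_maxNew` (from `x`).
 * `c = old x`, `p = new b v`, `q = old q`: `s x b`, `s x q`, `r v (f q)`. `down_full q` (all
   down-sets are full, `Even (N + e)`): `v = f q'`, `s q' q`; `New0 v x`, so `r (f x) (f q')`,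
   `down_inj q x q'` gives `s x q'`, contradiction with `New0 v x`.
 * `c = old x`, `p = new b1 v1`, `q = new b2 v2`: `s x b1`, `s x b2`, `r v1 v2`; `New0 v2 b1`
   (`new0_mono`), `le_maxNew` (from `x`, `m = b2`, `b' = b1`) gives `s b1 b2`.
 * `c = new b v`: `p = new b1 v1`, `q = new b2 v2` with `s b b1`, `s b b2`: as before with `x = b`.
`ext_down_inj`: `p, q ≤ c`, `p.map ≤ q.map`.
 * `c = old b`: `p, q` old: `down_inj`.
 * `c = new b v`, `p = old p`, `q = old q`: `down_inj b`.
 * `c = new b v`, `p = old p`, `q = new b0 v0`: `s p b`, `s b0 b`, `r (f p) v0`: `le_maxNew'`.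
 * `c = new b v`, `p = new b0 v0`, `q = old q`: `s b0 b`, `s q b`, `r v0 (f q)`: `v0 = f q'`,
   `s q' q`; `s q' b`, `down_inj b b0 q'` gives `s b0 q'`, contradiction with `New0 v0 b0`.
 * `c = new b v`, `p = new b1 v1`, `q = new b2 v2`: `s b1 b`, `s b2 b`, `r v1 v2`: `r (f b1) v2`, so
   `s b1 b2` by `le_maxNew'` (with `x = b1`, `m = b2`).
-/

namespace ASP87

universe u

variable {V B : Type u} {r : V → V → Prop} {s : B → B → Prop} {f : B → V} {lev : B → ℕ}
  {e N : ℕ} {o : V}

theorem ext_up_inj (hV : Hyp r) (h : IsStage r s e N o f lev) (hN : 1 ≤ N) (hp : Even (N + e))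
    (c p q : ExtP r s f) (hcp : ExtP.le c p) (hcq : ExtP.le c q) (hpq : r p.map q.map) :
    ExtP.le p q := by
  cases c with
  | old x =>
    cases p with
    | old p =>
      cases q with
      | old q => exact h.up_inj x p q hcp hcq hpq
      | new b v hm =>
        have hcp' : s x p := hcp
        have hcq' : s x b := hcq
        have hpq' : r (f p) v := hpq
        have key : s p b := le_maxNew hV h hN hp hm hcq'
          (new0_up h (new0_down hV h hm.1 hcq') hcp' hpq') hcp'
        exact key
    | new b v hm =>
      cases q with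
      | old q =>
        have hcp' : s x b := hcp
        have hcq' : s x q := hcq
        have hpq' : r v (f q) := hpq
        obtain ⟨q', h1, h2⟩ := h.down_full q (Or.inr hp) v hpq'
        have h3 := new0_down hV h hm.1 hcp'
        exact h3.2 q' (h.down_inj q x q' hcq' h1 (by rw [h2]; exact h3.1)) h2
      | new b2 v2 hm2 =>
        have hcp' : s x b := hcp
        have hcq' : s x b2 := hcq
        have hpq' : r v v2 := hpq
        exact ⟨le_maxNew hV h hN hp hm2 hcq' (new0_mono hV h hp hm.1 hpq') hcp', hpq'⟩
  | new x w hx =>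
    cases p with
    | old p => exact hcp.elim
    | new b v hm =>
      cases q with
      | old q => exact hcq.elim
      | new b2 v2 hm2 =>
        have hcp' : s x b := hcp.1
        have hcq' : s x b2 := hcq.1
        have hpq' : r v v2 := hpq
        exact ⟨le_maxNew hV h hN hp hm2 hcq' (new0_mono hV h hp hm.1 hpq') hcp', hpq'⟩

theorem ext_down_inj (hV : Hyp r) (h : IsStage r s e N o f lev) (hp : Even (N + e))
    (c p q : ExtP r s f) (hpc : ExtP.le p c) (hqc : ExtP.le q c) (hpq : r p.map q.map) :
    ExtP.le p q := by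
  cases c with
  | old b =>
    cases p with
    | old p =>
      cases q with
      | old q => exact h.down_inj b p q hpc hqc hpq
      | new b0 v0 h0 => exact hqc.elim
    | new b0 v0 h0 => exact hpc.elim
  | new b v hc =>
    cases p with
    | old p =>
      cases q with
      | old q =>
        have hpc' : s p b := hpc
        have hqc' : s q b := hqc
        exact h.down_inj b p q hpc' hqc' hpq
      | new b0 v0 h0 =>
        have hpc' : s p b := hpc
        have hqc' : s b0 b := hqc.1
        have hpq' : r (f p) v0 := hpq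
        have key : s p b0 := le_maxNew' hV h hp h0 hqc' hpc' hpq'
        exact key
    | new b0 v0 h0 =>
      cases q with
      | old q =>
        have hpc' : s b0 b := hpc.1
        have hqc' : s q b := hqc
        have hpq' : r v0 (f q) := hpq
        obtain ⟨q', h1, h2⟩ := h.down_full q (Or.inr hp) v0 hpq'
        exact h0.1.2 q' (h.down_inj b b0 q' hpc' (h.po.trans _ _ _ h1 hqc')
          (by rw [h2]; exact h0.1.1)) h2
      | new b2 v2 h2 =>
        have hpc' : s b0 b := hpc.1
        have hqc' : s b2 b := hqc.1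
        have hpq' : r v0 v2 := hpq
        exact ⟨le_maxNew' hV h hp h2 hqc' hpc' (hV.po.trans _ _ _ h0.1.1 hpq'), hpq'⟩

end ASP87
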