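import Pool.Agent.ASP87.PFlip
import Pool.Agent.ASP87.PStepA
import Pool.Agent.ASP87.PStepB

/-!
# ASP87/PExist: existence of stages of every height

PROOFS.
`step`: `B' = ExtP r s f`, `s' = ExtP.le`, `f' = ExtP.map`, `lev' = ExtP.lv lev N`; the fields of
`IsStage` are the lemmas of `PStepA`, `PStepB` (`zero`, gates of old elements: from the old stage; a
new element has level `N + 1`, so it is not of level `0`; the elements of smaller level than an old
element are old; `gate_even` for a new element is impossible by parity, `gate_odd` for a new element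
is `ext_gate_new`; `up_full` is `ext_up_full`; `down_full` at level `< N + 1`: old elements,
`ext_down_full_old`; `Even (N + 1 + e)` is false).
`start`: `B = {x // r o x}`, `s` = restriction of `r`, `f = Subtype.val`, `lev x = 0` if `x = o`,
else `1` (classical). `ho` gives `down_full` at `o` and `closed_down` for `k = 0`.
`exists_stage`: induction on `N`. `N → N + 1`: if `Even N` apply `step` with `e = 0`. If `Odd N`:
`IsStage.flip` (`e' = 1`), `step` for the dual (`Hyp.flip`, `Even (N + 1)`), then `IsStage.flip` back
(`e' = 0`); `fun a b => (fun a b => r b a) b a` is `r` definitionally.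
-/

namespace ASP87

universe u

variable {V B : Type u} {r : V → V → Prop} {s : B → B → Prop} {f : B → V} {lev : B → ℕ}
  {e N : ℕ} {o : V}

theorem step (hV : Hyp r) (h : IsStage r s e N o f lev) (hN : 1 ≤ N) (hp : Even (N + e)) :
    ∃ (B' : Type u) (s' : B' → B' → Prop) (f' : B' → V) (lev' : B' → ℕ),
      IsStage r s' e (N + 1) o f' lev' := by
  have hpar : Odd (N + 1 + e) := by
    rw [show N + 1 + e = N + e + 1 by ring]
    exact hp.add_one
  refine ⟨ExtP r s f, ExtP.le, ExtP.map, ExtP.lv lev N, ?_⟩
  refine
    { po := ext_po hV h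
      lev_le := ?_
      zero := ?_
      mono := ext_mono hV h
      up_inj := fun b x y => ext_up_inj hV h hN hp b x y
      down_inj := fun b x y => ext_down_inj hV h hp b x y
      up_full := fun b _ v hv => ext_up_full hV h hp b v hv
      down_full := ?_
      gate_odd := ?_
      gate_even := ?_
      closed_up := fun k hk x y hxy hl => ext_closed_up hV h hp k hk x y hxy hl
      closed_down := fun k hk x y hxy hl => ext_closed_down h k hk x y hxy hl }
  · rintro (b | ⟨b, v, hb⟩)
    · exact (h.lev_le b).trans (Nat.le_succ _)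
    · exact le_rfl
  · obtain ⟨b0, h0, h1, h2⟩ := h.zero
    refine ⟨ExtP.old b0, h0, h1, ?_⟩
    rintro (b | ⟨b, v, hb⟩) hl
    · rw [h2 b hl]
    · exact absurd hl (Nat.succ_ne_zero N)
  · rintro (b | ⟨b, v, hb⟩) hl v' hv
    · exact ext_down_full_old h hp b v' hv
    · rcases hl with hl | hl
      · exact absurd hl (lt_irrefl (N + 1))
      · exact absurd hpar (Nat.not_odd_iff_even.2 hl)
  · rintro (b | ⟨b, v, hb⟩) h0 hl
    · obtain ⟨c, hc, hcb, hc2⟩ := h.gate_odd b h0 hl
      refine ⟨ExtP.old c, hc, hcb, ?_⟩
      rintro (c' | ⟨c', v', hc'⟩) hlt hle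
      · exact hc2 c' hlt hle
      · exact absurd hle (fun hf => hf)
    · exact ext_gate_new h b v hb
  · rintro (b | ⟨b, v, hb⟩) h0 hl
    · obtain ⟨c, hc, hcb, hc2⟩ := h.gate_even b h0 hl
      refine ⟨ExtP.old c, hc, hcb, ?_⟩
      rintro (c' | ⟨c', v', hc'⟩) hlt hle
      · exact hc2 c' hlt hle
      · have h3 : N + 1 < lev b := hlt
        have h4 := h.lev_le b
        omega
    · exact absurd hpar (Nat.not_odd_iff_even.2 hl)

theorem start (hV : Hyp r) (ho : ∀ v, r v o → v = o) :
    ∃ (B' : Type u) (s' : B' → B' → Prop) (f' : B' → V) (lev' : B' → ℕ),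
      IsStage r s' 0 1 o f' lev' := by
  classical
  have key : ∀ z, z = o → ∀ a, r a z → a = o := fun z hz a h => ho a (hz ▸ h)
  have hle1 : ∀ b : {x // r o x}, (if b.1 = o then 0 else 1 : ℕ) ≤ 1 := by
    intro b
    split_ifs <;> simp
  refine ⟨{x // r o x}, fun x y => r x.1 y.1, Subtype.val, fun x => if x.1 = o then 0 else 1, ?_⟩
  refine
    { po := ⟨fun a => hV.po.refl _, fun a b c h1 h2 => hV.po.trans _ _ _ h1 h2,
        fun a b h1 h2 => Subtype.ext (hV.po.anti _ _ h1 h2)⟩
      lev_le := hle1
      zero := ⟨⟨o, hV.po.refl o⟩, by simp, rfl, ?_⟩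
      mono := fun x y h => h
      up_inj := fun b x y _ _ h => h
      down_inj := fun b x y _ _ h => h
      up_full := fun b _ v hv => ⟨⟨v, hV.po.trans _ _ _ b.2 hv⟩, hv, rfl⟩
      down_full := ?_
      gate_odd := ?_
      gate_even := ?_
      closed_up := ?_
      closed_down := ?_ }
  · intro b hb
    by_contra hne
    have : ¬ b.1 = o := fun h => hne (Subtype.ext h)
    simp [this] at hb
  · rintro b (hb | hb) v hv
    · have hbo : b.1 = o := by
        by_contra hne
        simp [hne] at hb
      have hvo : v = o := key b.1 hbo v hv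
      exact ⟨⟨v, by rw [hvo]; exact hV.po.refl o⟩, hv, rfl⟩
    · exact absurd hb (by decide)
  · intro b h0 _
    have hbo : ¬ b.1 = o := by
      intro h
      simp [h] at h0
    refine ⟨⟨o, hV.po.refl o⟩, ?_, b.2, ?_⟩
    · simp [hbo]
    · intro c' hc' _
      have hco : c'.1 = o := by
        by_contra hne
        simp [hne, hbo] at hc'
      show r c'.1 o
      rw [hco]
      exact hV.po.refl o
  · intro b h0 hev
    have hbo : ¬ b.1 = o := by
      intro h
      simp [h] at h0
    simp [hbo] at hev
  · intro k hk x y _ _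
    have : 1 ≤ k := by
      rcases Nat.eq_zero_or_pos k with h | h
      · subst h
        exact absurd hk (by decide)
      · exact h
    exact (hle1 y).trans this
  · intro k hk x y hxy hl
    rcases Nat.eq_zero_or_pos k with h | h
    · subst h
      have hyo : y.1 = o := by
        by_contra hne
        simp [hne] at hl
      have hxo : x.1 = o := key y.1 hyo x.1 hxy
      simp [hxo]
    · exact (hle1 x).trans h

theorem exists_stage (hV : Hyp r) (ho : ∀ v, r v o → v = o) (N : ℕ) (hN : 1 ≤ N) :
    ∃ (B' : Type u) (s' : B' → B' → Prop) (f' : B' → V) (lev' : B' → ℕ),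
      IsStage r s' 0 N o f' lev' := by
  induction N, hN using Nat.le_induction with
  | base => exact start hV ho
  | succ n hn ih =>
    obtain ⟨B, s, f, lev, h⟩ := ih
    rcases Nat.even_or_odd n with hp | hp
    · exact step hV h hn (by rwa [Nat.add_zero])
    · have h1 := h.flip (e' := 1) (by decide)
      obtain ⟨B', s', f', lev', h2⟩ := step hV.flip h1 hn hp.add_one
      exact ⟨B', fun a b => s' b a, f', lev', h2.flip (e' := 0) (by decide)⟩

end ASP87
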