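import Pool.Agent.ASP87.PLift

/-!
# ASP87/PInv: homotopic walks have the same lifts in high stages

PROOFS.
`lift_end`: induction on the list: `LiftsTo s f b (l ++ [v]) y → f y = v` (`lift_append`).
`LW_move`: `MoveR r l l'`, `l.length < N`. Case `tri l0 t p q s0`. If `l0 = []`: the start `b0` is over
  `p`, level `0 < N`, use `tri_iff`. If `l0 = v0 :: l1`: `LiftsTo b0 (l1 ++ p :: q :: s0 :: t)` is (by
  `lift_append`, `l1 ++ [p]`) a lift `m` of `l1 ++ [p]`, `f m = p` (`lift_end`), of level
  `≤ l1.length + 1 < N` (`lift_lev`), followed by a lift of `q :: s0 :: t`; use `tri_iff`.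
  Case `dup`: in the same way with `dup_iff`.
`LW_eqv`: induction on `Relation.EqvGen`; `N0 = l.length + 1` for a move (both directions), `0` for
  reflexivity, maximum for transitivity.
-/

namespace ASP87

universe u

variable {V B : Type u} {r : V → V → Prop} {s : B → B → Prop} {f : B → V} {lev : B → ℕ}
  {e N : ℕ} {o : V}

theorem lift_end (l : List V) (v : V) (b y : B) (h : LiftsTo s f b (l ++ [v]) y) : f y = v := by
  obtain ⟨m, -, c, hc, -, hcy⟩ := (lift_append l [v] b y).1 h
  obtain rfl : c = y := hcy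
  exact hc

/-- replacing the part of a walk after `p` -/
theorem LW_replace (h : IsStage r s e N o f lev) (l0 : List V) (p : V) (t t' : List V) (y : B)
    (hl : l0.length < N)
    (hrep : ∀ m : B, f m = p → lev m < N → (LiftsTo s f m t y ↔ LiftsTo s f m t' y)) :
    LW s f lev (l0 ++ p :: t) y ↔ LW s f lev (l0 ++ p :: t') y := by
  cases l0 with
  | nil =>
    constructor
    · rintro ⟨b0, h0, hb0, hL⟩
      exact ⟨b0, h0, hb0, (hrep b0 hb0 (by rw [h0]; exact hl)).1 hL⟩
    · rintro ⟨b0, h0, hb0, hL⟩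
      exact ⟨b0, h0, hb0, (hrep b0 hb0 (by rw [h0]; exact hl)).2 hL⟩
  | cons v0 l1 =>
    have key : ∀ (u u' : List V), (∀ m : B, f m = p → lev m < N → LiftsTo s f m u y →
        LiftsTo s f m u' y) → LW s f lev (v0 :: l1 ++ p :: u) y →
        LW s f lev (v0 :: l1 ++ p :: u') y := by
      rintro u u' hu ⟨b0, h0, hb0, hL⟩
      have e1 : ∀ w : List V, l1 ++ p :: w = (l1 ++ [p]) ++ w := fun w => by simp
      change LiftsTo s f b0 (l1 ++ p :: u) y at hL
      rw [e1, lift_append] at hL
      obtain ⟨m, hm1, hm2⟩ := hL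
      have hlm := lift_lev h _ hm1
      have hlt : lev m < N := by
        rw [h0, List.length_append, List.length_singleton] at hlm
        rw [List.length_cons] at hl
        omega
      refine ⟨b0, h0, hb0, ?_⟩
      change LiftsTo s f b0 (l1 ++ p :: u') y
      rw [e1, lift_append]
      exact ⟨m, hm1, hu m (lift_end _ _ _ _ hm1) hlt hm2⟩
    exact ⟨key t t' fun m h1 h2 => (hrep m h1 h2).1, key t' t fun m h1 h2 => (hrep m h1 h2).2⟩

theorem LW_move (hr : PO r) (h : IsStage r s e N o f lev) {l l' : List V} (hm : MoveR r l l')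
    (hl : l.length < N) (y : B) : LW s f lev l y ↔ LW s f lev l' y := by
  cases hm with
  | tri l0 t p q s0 h1 h2 h3 =>
    refine LW_replace h l0 p (q :: s0 :: t) (s0 :: t) y ?_ fun m hm1 hm2 =>
      tri_iff hr h hm1 hm2 h1 h2 h3 t y
    rw [List.length_append] at hl
    omega
  | dup l0 t p =>
    refine LW_replace h l0 p (p :: t) t y ?_ fun m hm1 _ => dup_iff hr h hm1 t y
    rw [List.length_append] at hl
    omega

theorem LW_eqv (hr : PO r) {l l' : List V} (hm : Relation.EqvGen (MoveR r) l l') :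
    ∃ N0 : ℕ, ∀ (N : ℕ), N0 ≤ N → ∀ (e : ℕ) (o : V) (B : Type u) (s : B → B → Prop) (f : B → V)
      (lev : B → ℕ), IsStage r s e N o f lev → ∀ y, LW s f lev l y ↔ LW s f lev l' y := by
  induction hm with
  | rel a b hab =>
    exact ⟨a.length + 1, fun N hN e o B s f lev h y => LW_move hr h hab (by omega) y⟩
  | refl a => exact ⟨0, fun N hN e o B s f lev h y => Iff.rfl⟩
  | symm a b _ ih =>
    obtain ⟨N0, hN0⟩ := ih
    exact ⟨N0, fun N hN e o B s f lev h y => (hN0 N hN e o B s f lev h y).symm⟩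
  | trans a b c _ _ ih1 ih2 =>
    obtain ⟨N1, hN1⟩ := ih1
    obtain ⟨N2, hN2⟩ := ih2
    exact ⟨max N1 N2, fun N hN e o B s f lev h y =>
      (hN1 N ((le_max_left _ _).trans hN) e o B s f lev h y).trans
        (hN2 N ((le_max_right _ _).trans hN) e o B s f lev h y)⟩

end ASP87
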