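import Pool.Agent.ASP87.PFlip
import Pool.Agent.ASP87.PInv
import Pool.Agent.ASP87.PBall
import Pool.Agent.ASP87.PExist

/-!
# ASP87/PConc: the conclusion of THEOREM P for relations

PROOF of `conc_even`. `ball_walk` for `y` and `y0` gives `t`, `t0`. The walks `o :: (t ++ [x])` and
`o :: (t0 ++ [x])` have the same ends (they are chains since `y`, `y0` are the last elements of
`o :: t`, `o :: t0` and comparable to `x`), so by `hsc` and `LW_eqv` there is `N0`. Take
`N = max N0 (k + 2)` and a stage of height `N`. Lifts `y'`, `y0'` of `o :: t`, `o :: t0` of level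
`≤ k`; `up_full` gives `x'` above `y'` over `x`, `x0'` above `y0'` over `x`. Both are ends of lifts of
the two long walks, which have the same lifts, and lifts are unique (`lift_unique`; the starting
points agree by the field `zero`): `x' = x0'`. Level: `lev x' ≤ k + 1` (`closed_up`, `Odd (k + 1 + e)`,
`lev y' ≤ k`), and not `≤ k` (otherwise `stage_ball` and `BallR_mono` put `x = f x'` in the ball of
radius `k`). So `lev x' = k + 1`, and `gate_odd` gives `c` with `lev c ≤ k`, `s c x'`, `s y' c`,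
`s y0' c`. Take `f c` (in the ball by `stage_ball`, `BallR_mono`).

`conc_odd`: `conc_even` for the dual (`Hyp.flip`, `SCR.flip`, `BallR_flip`; stages by `IsStage.flip`).
-/

namespace ASP87

universe u

variable {V : Type u} {r : V → V → Prop} {e : ℕ} {o : V}

/-- stages of all heights exist -/
def HasStages (r : V → V → Prop) (e : ℕ) (o : V) : Prop :=
  ∀ N : ℕ, 1 ≤ N → ∃ (B : Type u) (s : B → B → Prop) (f : B → V) (lev : B → ℕ),
    IsStage r s e N o f lev

private theorem lw_snoc {B : Type u} {s : B → B → Prop} {f : B → V} {lev : B → ℕ} {t : List V}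
    {y : V} {y0 y' : B} (h : LW s f lev (o :: t) y0) (hf : f y' = y) (hc : CmpR s y0 y') :
    LW s f lev (o :: (t ++ [y])) y' := by
  obtain ⟨b0, h1, h2, h3⟩ := h
  exact ⟨b0, h1, h2, (lift_append t [y] b0 y').2 ⟨y0, h3, y', hf, hc, rfl⟩⟩

private theorem ch_snoc {t : List V} {y0 y : V} (h : List.IsChain (CmpR r) (o :: t))
    (h1 : (o :: t).getLast? = some y0) (h2 : CmpR r y0 y) :
    List.IsChain (CmpR r) (o :: (t ++ [y])) ∧ (o :: (t ++ [y])).getLast? = some y := by
  rw [← List.cons_append]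
  constructor
  · rw [List.isChain_append]
    refine ⟨h, List.isChain_singleton _, ?_⟩
    intro a ha b hb
    rw [h1] at ha
    simp only [Option.mem_def, Option.some.injEq] at ha
    simp only [List.head?_cons, Option.mem_def, Option.some.injEq] at hb
    rw [← ha, ← hb]
    exact h2
  · rw [List.getLast?_append]
    rfl

theorem conc_even (hr : PO r) (hst : HasStages r e o) (hsc : SCR r) {k : ℕ} (hk : Even (k + e))
    {x y y0 : V} (hx : ¬ BallR r e o k x) (hy : BallR r e o k y) (hy0 : BallR r e o k y0)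
    (h1 : r y x) (h2 : r y0 x) : ∃ z, BallR r e o k z ∧ r y z ∧ r y0 z ∧ r z x := by
  obtain ⟨t, ht1, ht2, ht3⟩ := ball_walk hy
  obtain ⟨t0, hs1, hs2, hs3⟩ := ball_walk hy0
  obtain ⟨c1, c2⟩ := ch_snoc ht1 ht2 (Or.inl h1)
  obtain ⟨d1, d2⟩ := ch_snoc hs1 hs2 (Or.inl h2)
  obtain ⟨N0, hN0⟩ := LW_eqv hr (hsc o (t ++ [x]) (t0 ++ [x]) c1 d1 (c2.trans d2.symm))
  obtain ⟨B, s, f, lev, h⟩ := hst (max N0 (k + 2)) ((by omega : 1 ≤ k + 2).trans (le_max_right _ _))
  have hkN : k < max N0 (k + 2) := (by omega : k < k + 2).trans_le (le_max_right _ _)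
  obtain ⟨y', hy1, hy2, hy3⟩ := ht3 _ hkN B s f lev h
  obtain ⟨y0', hz1, hz2, hz3⟩ := hs3 _ hkN B s f lev h
  obtain ⟨x', hx1, hx2⟩ := h.up_full y' (Or.inl (hy3.trans_lt hkN)) x (by rw [hy2]; exact h1)
  obtain ⟨x0', hx3, hx4⟩ := h.up_full y0' (Or.inl (hz3.trans_lt hkN)) x (by rw [hz2]; exact h2)
  have hL1 := lw_snoc hy1 hx2 (Or.inl hx1)
  have hL2 := lw_snoc hz1 hx4 (Or.inl hx3)
  have hL3 := (hN0 _ (le_max_left _ _) e o B s f lev h x').1 hL1
  have hxx : x' = x0' := by
    obtain ⟨b, hb1, hb2, hb3⟩ := hL3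
    obtain ⟨b', hb4, hb5, hb6⟩ := hL2
    obtain ⟨b0, -, -, h0⟩ := h.zero
    have hbb : b = b' := (h0 b hb1).trans (h0 b' hb4).symm
    subst hbb
    exact lift_unique hr h _ hb3 hb6
  subst hxx
  have hodd : Odd (k + 1 + e) := by
    rw [show k + 1 + e = k + e + 1 by omega]
    exact hk.add_one
  have hle : lev x' ≤ k + 1 := h.closed_up (k + 1) hodd y' x' hx1 (by omega)
  have hnle : ¬ lev x' ≤ k := by
    intro hle'
    apply hx
    have := BallR_mono hr hle' (stage_ball hr h x')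
    rwa [hx2] at this
  have hlev : lev x' = k + 1 := by omega
  obtain ⟨c, hc1, hc2, hc3⟩ := h.gate_odd x' (by omega) (by rw [hlev]; exact hodd)
  refine ⟨f c, BallR_mono hr (by omega) (stage_ball hr h c), ?_, ?_, ?_⟩
  · have := h.mono _ _ (hc3 y' (by omega) hx1)
    rwa [hy2] at this
  · have := h.mono _ _ (hc3 y0' (by omega) hx3)
    rwa [hz2] at this
  · have := h.mono _ _ hc2
    rwa [hx2] at this

theorem conc_odd (hr : PO r) (hst : HasStages r e o) (hsc : SCR r) {k : ℕ} (hk : Odd (k + e))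
    {x y y0 : V} (hx : ¬ BallR r e o k x) (hy : BallR r e o k y) (hy0 : BallR r e o k y0)
    (h1 : r x y) (h2 : r x y0) : ∃ z, BallR r e o k z ∧ r z y ∧ r z y0 ∧ r x z := by
  have he : Odd (e + (e + 1)) := ⟨e, by ring⟩
  have hst' : HasStages (fun a b => r b a) (e + 1) o := by
    intro N hN
    obtain ⟨B, s, f, lev, h⟩ := hst N hN
    exact ⟨B, fun a b => s b a, f, lev, h.flip he⟩
  obtain ⟨z, hz1, hz2, hz3, hz4⟩ := conc_even (r := fun a b => r b a) (e := e + 1) (k := k)
    hr.flip hst' hsc.flip (by rw [← Nat.add_assoc]; exact hk.add_one)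
    (fun h => hx ((BallR_flip he).1 h)) ((BallR_flip he).2 hy) ((BallR_flip he).2 hy0) h1 h2
  exact ⟨z, (BallR_flip he).1 hz1, hz2, hz3, hz4⟩

end ASP87
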