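import Mathlib
import Pool.Agent.ASP87.Walk

/-!
# ASP87/PDefs: definitions for THEOREM P (local-to-global for posets)

Everything is stated for a relation `r : V → V → Prop` (a partial order in the sense of `PO`), so
that the order dual is simply `fun a b => r b a` (`IsStage.flip`, `Hyp.flip` in `PFlip`).
-/

namespace ASP87

universe u

/-- partial orders as relations -/
structure PO {V : Type u} (r : V → V → Prop) : Prop where
  refl : ∀ a, r a a
  trans : ∀ a b c, r a b → r b c → r a c
  anti : ∀ a b, r a b → r b a → a = b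

/-- the hypotheses of THEOREM P (without simple connectivity) -/
structure Hyp {V : Type u} (r : V → V → Prop) : Prop where
  po : PO r
  fin : ∃ (rk : V → ℕ) (M : ℕ), (∀ a b, r a b → a ≠ b → rk a < rk b) ∧ ∀ a, rk a ≤ M
  mid : ∀ a a' w w', r a w → r a w' → r a' w → r a' w' → ∃ j, r a j ∧ r a' j ∧ r j w ∧ r j w'
  flUp : ∀ b x y z, r b x → r b y → r b z → (∃ w, r x w ∧ r y w) → (∃ w, r y w ∧ r z w) →
    (∃ w, r x w ∧ r z w) → ∃ w, r x w ∧ r y w ∧ r z w
  flDown : ∀ b x y z, r x b → r y b → r z b → (∃ w, r w x ∧ r w y) → (∃ w, r w y ∧ r w z) →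
    (∃ w, r w x ∧ r w z) → ∃ w, r w x ∧ r w y ∧ r w z

/-- filtered stages of height `N`; `e` is a parity shift (`e = 0` for the original order,
`e = 1` for the dual) -/
structure IsStage {V B : Type u} (r : V → V → Prop) (s : B → B → Prop) (e N : ℕ) (o : V)
    (f : B → V) (lev : B → ℕ) : Prop where
  po : PO s
  lev_le : ∀ b, lev b ≤ N
  zero : ∃ b0, lev b0 = 0 ∧ f b0 = o ∧ ∀ b, lev b = 0 → b = b0
  mono : ∀ x y, s x y → r (f x) (f y)
  up_inj : ∀ b x y, s b x → s b y → r (f x) (f y) → s x y
  down_inj : ∀ b x y, s x b → s y b → r (f x) (f y) → s x y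
  up_full : ∀ b, (lev b < N ∨ Odd (N + e)) → ∀ v, r (f b) v → ∃ b', s b b' ∧ f b' = v
  down_full : ∀ b, (lev b < N ∨ Even (N + e)) → ∀ v, r v (f b) → ∃ b', s b' b ∧ f b' = v
  gate_odd : ∀ b, 0 < lev b → Odd (lev b + e) →
    ∃ c, lev c < lev b ∧ s c b ∧ ∀ c', lev c' < lev b → s c' b → s c' c
  gate_even : ∀ b, 0 < lev b → Even (lev b + e) →
    ∃ c, lev c < lev b ∧ s b c ∧ ∀ c', lev c' < lev b → s b c' → s c c'
  closed_up : ∀ k, Odd (k + e) → ∀ x y, s x y → lev x ≤ k → lev y ≤ k
  closed_down : ∀ k, Even (k + e) → ∀ x y, s x y → lev y ≤ k → lev x ≤ k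

/-- `b` lies below a missing copy of `v` -/
def New0 {V B : Type u} (r : V → V → Prop) (s : B → B → Prop) (f : B → V) (v : V) (b : B) : Prop :=
  r (f b) v ∧ ∀ y, s b y → f y ≠ v

/-- maximal elements of `New0` -/
def MaxNew {V B : Type u} (r : V → V → Prop) (s : B → B → Prop) (f : B → V) (v : V) (b : B) :
    Prop :=
  New0 r s f v b ∧ ∀ b', s b b' → New0 r s f v b' → b' = b

/-- the extended poset -/
inductive ExtP {V B : Type u} (r : V → V → Prop) (s : B → B → Prop) (f : B → V) : Type u
  | old (b : B) : ExtP r s f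
  | new (b : B) (v : V) (h : MaxNew r s f v b) : ExtP r s f

namespace ExtP

variable {V B : Type u} {r : V → V → Prop} {s : B → B → Prop} {f : B → V}

/-- the order of the extended poset -/
def le : ExtP r s f → ExtP r s f → Prop
  | old x, old y => s x y
  | old x, new b _ _ => s x b
  | new _ _ _, old _ => False
  | new b v _, new b' v' _ => s b b' ∧ r v v'

/-- the map of the extended poset -/
def map : ExtP r s f → V
  | old b => f b
  | new _ v _ => v

/-- the levels of the extended poset -/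
def lv (lev : B → ℕ) (N : ℕ) : ExtP r s f → ℕ
  | old b => lev b
  | new _ _ _ => N + 1

end ExtP

/-- comparability -/
def CmpR {V : Type u} (r : V → V → Prop) (a b : V) : Prop := r a b ∨ r b a

/-- elementary moves -/
inductive MoveR {V : Type u} (r : V → V → Prop) : List V → List V → Prop
  | tri (l t : List V) (p q s : V) (h1 : CmpR r p q) (h2 : CmpR r q s) (h3 : CmpR r p s) :
      MoveR r (l ++ p :: q :: s :: t) (l ++ p :: s :: t)
  | dup (l t : List V) (p : V) : MoveR r (l ++ p :: p :: t) (l ++ p :: t)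

/-- simple connectivity in terms of walks -/
def SCR {V : Type u} (r : V → V → Prop) : Prop :=
  ∀ (a : V) (l l' : List V), List.IsChain (CmpR r) (a :: l) → List.IsChain (CmpR r) (a :: l') →
    (a :: l).getLast? = (a :: l').getLast? → Relation.EqvGen (MoveR r) (a :: l) (a :: l')

/-- `LiftsTo s f b l b'`: the walk `f b :: l` lifts to a walk from `b` to `b'` -/
def LiftsTo {V B : Type u} (s : B → B → Prop) (f : B → V) : B → List V → B → Prop
  | b, [], b' => b = b'
  | b, v :: l, b' => ∃ c, f c = v ∧ CmpR s b c ∧ LiftsTo s f c l b'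

/-- the walk `l` lifts to a walk that starts at level `0` and ends at `y` -/
def LW {V B : Type u} (s : B → B → Prop) (f : B → V) (lev : B → ℕ) : List V → B → Prop
  | [], _ => False
  | v :: t, y => ∃ b0, lev b0 = 0 ∧ f b0 = v ∧ LiftsTo s f b0 t y

/-- the balls around `o` -/
def BallR {V : Type u} (r : V → V → Prop) (e : ℕ) (o : V) : ℕ → V → Prop
  | 0, x => x = o
  | k + 1, x => (Even (k + e) ∧ ∃ y, BallR r e o k y ∧ r y x) ∨
      (Odd (k + e) ∧ ∃ y, BallR r e o k y ∧ r x y)

end ASP87
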