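import Pool.Agent.ASP87.PConc

/-!
# ASP87/PFinal: THEOREM P for partial orders

`PHyp V`: the hypotheses. `ballP`: `Ball o k` is `BallR (· ≤ ·) 0 o k`. `gate_even`, `gate_odd`: the
conclusion. `exists_gate_even`, `exists_gate_odd`: maximum / minimum. `exists_levels`: level function
and gates.
-/

namespace ASP87

universe u

variable {V : Type u} [PartialOrder V]

/-- the hypotheses of THEOREM P -/
structure PHyp (V : Type u) [PartialOrder V] : Prop where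
  fin : ∃ (rk : V → ℕ) (M : ℕ), StrictMono rk ∧ ∀ a, rk a ≤ M
  mid : ∀ a a' w w' : V, a ≤ w → a ≤ w' → a' ≤ w → a' ≤ w' → ∃ j, a ≤ j ∧ a' ≤ j ∧ j ≤ w ∧ j ≤ w'
  flUp : ∀ b x y z : V, b ≤ x → b ≤ y → b ≤ z → (∃ w, x ≤ w ∧ y ≤ w) → (∃ w, y ≤ w ∧ z ≤ w) →
    (∃ w, x ≤ w ∧ z ≤ w) → ∃ w, x ≤ w ∧ y ≤ w ∧ z ≤ w
  flDown : ∀ b x y z : V, x ≤ b → y ≤ b → z ≤ b → (∃ w, w ≤ x ∧ w ≤ y) → (∃ w, w ≤ y ∧ w ≤ z) →
    (∃ w, w ≤ x ∧ w ≤ z) → ∃ w, w ≤ x ∧ w ≤ y ∧ w ≤ z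
  psc : PSC V

theorem PHyp.hyp (h : PHyp V) : Hyp (fun a b : V => a ≤ b) where
  po := ⟨fun a => le_rfl, fun _ _ _ h1 h2 => le_trans h1 h2, fun _ _ h1 h2 => le_antisymm h1 h2⟩
  fin := by
    obtain ⟨rk, M, h1, h2⟩ := h.fin
    exact ⟨rk, M, fun a b hab hne => h1 (lt_of_le_of_ne hab hne), h2⟩
  mid := h.mid
  flUp := h.flUp
  flDown := h.flDown

theorem PHyp.scr (h : PHyp V) : SCR (fun a b : V => a ≤ b) := by
  intro a l l' h1 h2 h3
  refine Relation.EqvGen.mono ?_ _ _ (h.psc.sc a l l' h1 h2 h3)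
  intro m m' hm
  cases hm with
  | tri l t p q s h1 h2 h3 => exact MoveR.tri l t p q s h1 h2 h3
  | dup l t p => exact MoveR.dup l t p

theorem mem_Ball_iff (o : V) (k : ℕ) (x : V) :
    x ∈ Ball o k ↔ BallR (fun a b : V => a ≤ b) 0 o k x := by
  induction k generalizing x with
  | zero => exact Iff.rfl
  | succ k ih =>
    unfold Ball BallR
    rw [add_zero]
    by_cases hk : Even k
    · rw [if_pos hk]
      have hk' : ¬ Odd k := Nat.not_odd_iff_even.2 hk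
      constructor
      · rintro ⟨y, hy, hyx⟩
        exact Or.inl ⟨hk, y, (ih y).1 hy, hyx⟩
      · rintro (⟨_, y, hy, hyx⟩ | ⟨h1, _⟩)
        · exact ⟨y, (ih y).2 hy, hyx⟩
        · exact absurd h1 hk'
    · rw [if_neg hk]
      have hk' : Odd k := Nat.not_even_iff_odd.1 hk
      constructor
      · rintro ⟨y, hy, hyx⟩
        exact Or.inr ⟨hk', y, (ih y).1 hy, hyx⟩
      · rintro (⟨h1, _⟩ | ⟨_, y, hy, hyx⟩)
        · exact absurd h1 hk
        · exact ⟨y, (ih y).2 hy, hyx⟩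

private theorem hasStages_PF (h : PHyp V) {o : V} (ho : ∀ v, v ≤ o → v = o) :
    HasStages (fun a b : V => a ≤ b) 0 o :=
  fun N hN => exists_stage h.hyp ho N hN

/-- CONCLUSION (6), even radius -/
theorem ball_even (h : PHyp V) {o : V} (ho : ∀ v, v ≤ o → v = o) {k : ℕ} (hk : Even k)
    {x y y0 : V} (hx : x ∉ Ball o k) (hy : y ∈ Ball o k) (hy0 : y0 ∈ Ball o k)
    (h1 : y ≤ x) (h2 : y0 ≤ x) : ∃ z ∈ Ball o k, y ≤ z ∧ y0 ≤ z ∧ z ≤ x := by
  rw [mem_Ball_iff] at hx hy hy0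
  obtain ⟨z, hz, h3, h4, h5⟩ := conc_even h.hyp.po (hasStages_PF h ho) h.scr (k := k)
    (by rw [add_zero]; exact hk) hx hy hy0 h1 h2
  exact ⟨z, (mem_Ball_iff o k z).2 hz, h3, h4, h5⟩

/-- CONCLUSION (6), odd radius -/
theorem ball_odd (h : PHyp V) {o : V} (ho : ∀ v, v ≤ o → v = o) {k : ℕ} (hk : Odd k)
    {x y y0 : V} (hx : x ∉ Ball o k) (hy : y ∈ Ball o k) (hy0 : y0 ∈ Ball o k)
    (h1 : x ≤ y) (h2 : x ≤ y0) : ∃ z ∈ Ball o k, z ≤ y ∧ z ≤ y0 ∧ x ≤ z := by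
  rw [mem_Ball_iff] at hx hy hy0
  obtain ⟨z, hz, h3, h4, h5⟩ := conc_odd h.hyp.po (hasStages_PF h ho) h.scr (k := k)
    (by rw [add_zero]; exact hk) hx hy hy0 h1 h2
  exact ⟨z, (mem_Ball_iff o k z).2 hz, h3, h4, h5⟩

/-- the gate of `x` in the ball of even radius (maximum of the elements below `x`; finite height) -/
theorem exists_gate_even (h : PHyp V) {o : V} (ho : ∀ v, v ≤ o → v = o) {k : ℕ} (hk : Even k)
    {x : V} (hx : x ∈ Ball o (k + 1)) (hx' : x ∉ Ball o k) :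
    ∃ z ∈ Ball o k, z ≤ x ∧ ∀ y ∈ Ball o k, y ≤ x → y ≤ z := by
  classical
  unfold Ball at hx
  rw [if_pos hk] at hx
  obtain ⟨y₀, hy₀, hyx₀⟩ := hx
  obtain ⟨rk, M, hrk, hM⟩ := h.fin
  -- an element of largest rank
  have hex : ∃ n, ∃ z ∈ Ball o k, z ≤ x ∧ rk z + n = M :=
    ⟨M - rk y₀, y₀, hy₀, hyx₀, by have := hM y₀; omega⟩
  obtain ⟨z, hz, hzx, hzn⟩ := Nat.find_spec hex
  refine ⟨z, hz, hzx, fun y hy hyx => ?_⟩
  obtain ⟨z', hz', h1, h2, h3⟩ := ball_even h ho hk hx' hz hy hzx hyx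
  have h4 : z = z' := by
    by_contra hne
    have h5 := hrk (lt_of_le_of_ne h1 hne)
    have h6 := hM z'
    have h7 := Nat.find_min' hex ⟨z', hz', h3, (by omega : rk z' + (M - rk z') = M)⟩
    omega
  rw [h4]
  exact h2

/-- the gate of `x` in the ball of odd radius (minimum of the elements above `x`) -/
theorem exists_gate_odd (h : PHyp V) {o : V} (ho : ∀ v, v ≤ o → v = o) {k : ℕ} (hk : Odd k)
    {x : V} (hx : x ∈ Ball o (k + 1)) (hx' : x ∉ Ball o k) :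
    ∃ z ∈ Ball o k, x ≤ z ∧ ∀ y ∈ Ball o k, x ≤ y → z ≤ y := by
  classical
  unfold Ball at hx
  rw [if_neg (Nat.not_even_iff_odd.2 hk)] at hx
  obtain ⟨y₀, hy₀, hyx₀⟩ := hx
  obtain ⟨rk, M, hrk, hM⟩ := h.fin
  have hex : ∃ n, ∃ z ∈ Ball o k, x ≤ z ∧ rk z = n := ⟨rk y₀, y₀, hy₀, hyx₀, rfl⟩
  obtain ⟨z, hz, hzx, hzn⟩ := Nat.find_spec hex
  refine ⟨z, hz, hzx, fun y hy hyx => ?_⟩
  obtain ⟨z', hz', h1, h2, h3⟩ := ball_odd h ho hk hx' hz hy hzx hyx
  have h4 : z' = z := by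
    by_contra hne
    have h5 := hrk (lt_of_le_of_ne h1 hne)
    have h7 := Nat.find_min' hex ⟨z', hz', h3, rfl⟩
    omega
  rw [← h4]
  exact h2

theorem Ball_subset_succ (o : V) (k : ℕ) : Ball o k ⊆ Ball o (k + 1) := by
  intro x hx
  have h1 : x ∈ (if Even k then {x | ∃ y ∈ Ball o k, y ≤ x} else {x | ∃ y ∈ Ball o k, x ≤ y}) := by
    split_ifs
    · exact ⟨x, hx, le_rfl⟩
    · exact ⟨x, hx, le_rfl⟩
  exact h1

private theorem Ball_mono_PF (o : V) {k k' : ℕ} (h : k ≤ k') : Ball o k ⊆ Ball o k' := by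
  induction k', h using Nat.le_induction with
  | base => exact subset_rfl
  | succ n _ ih => exact ih.trans (Ball_subset_succ o n)

private theorem Ball_up_PF {o x y : V} {k : ℕ} (hk : Even k) (hy : y ∈ Ball o k) (h : y ≤ x) :
    x ∈ Ball o (k + 1) := by
  unfold Ball
  rw [if_pos hk]
  exact ⟨y, hy, h⟩

private theorem Ball_down_PF {o x y : V} {k : ℕ} (hk : Odd k) (hy : y ∈ Ball o k) (h : x ≤ y) :
    x ∈ Ball o (k + 1) := by
  unfold Ball
  rw [if_neg (Nat.not_even_iff_odd.2 hk)]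
  exact ⟨y, hy, h⟩

private theorem Ball_cmp_PF {o x y : V} {k : ℕ} (hy : y ∈ Ball o k) (h : Cmp y x) :
    x ∈ Ball o (k + 2) := by
  rcases Nat.even_or_odd k with hk | hk
  · rcases h with h | h
    · exact Ball_subset_succ o (k + 1) (Ball_up_PF hk hy h)
    · exact Ball_down_PF hk.add_one (Ball_subset_succ o k hy) h
  · rcases h with h | h
    · exact Ball_up_PF hk.add_one (Ball_subset_succ o k hy) h
    · exact Ball_subset_succ o (k + 1) (Ball_down_PF hk hy h)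

/-- every element lies in some ball (connectivity: neighbours of `Ball o k` are in
`Ball o (k + 2)`) -/
theorem exists_mem_Ball (h : PSC V) (o x : V) : ∃ k, x ∈ Ball o k := by
  obtain ⟨l, h1, h2⟩ := h.conn o x
  have key : ∀ (l : List V) (y : V), (∃ k, y ∈ Ball o k) → IsWalk (y :: l) →
      (y :: l).getLast? = some x → ∃ k, x ∈ Ball o k := by
    intro l
    induction l with
    | nil =>
      intro y hy _ hl
      simp only [List.getLast?_singleton, Option.some.injEq] at hl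
      rw [← hl]
      exact hy
    | cons z l ih =>
      rintro y ⟨k, hk⟩ hw hl
      unfold IsWalk at hw
      rw [List.isChain_cons_cons] at hw
      refine ih z ⟨k + 2, Ball_cmp_PF hk hw.1⟩ hw.2 ?_
      rw [List.getLast?_cons_cons] at hl
      exact hl
  exact key l o ⟨0, rfl⟩ h1 h2

/-- levels and gates: `lev v` = least `k` with `v ∈ Ball o k` (`Nat.find`) -/
theorem exists_levels (h : PHyp V) {o : V} (ho : ∀ v, v ≤ o → v = o) :
    ∃ (lev : V → ℕ) (par : V → V), (∀ v k, v ∈ Ball o k ↔ lev v ≤ k) ∧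
      (∀ v, lev v = 0 ↔ v = o) ∧
      (∀ v k, lev v = k + 1 → lev (par v) ≤ k ∧
        (Even k → par v ≤ v ∧ ∀ y, y ≤ v → lev y ≤ k → y ≤ par v) ∧
        (Odd k → v ≤ par v ∧ ∀ y, v ≤ y → lev y ≤ k → par v ≤ y)) := by
  classical
  obtain ⟨lev, hlev⟩ : ∃ lev : V → ℕ, ∀ v k, v ∈ Ball o k ↔ lev v ≤ k := by
    refine ⟨fun v => Nat.find (exists_mem_Ball h.psc o v), fun v k => ⟨fun hv => ?_, fun hv => ?_⟩⟩
    · exact Nat.find_min' _ hv
    · exact Ball_mono_PF o hv (Nat.find_spec (exists_mem_Ball h.psc o v))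
  have h0 : ∀ v, lev v = 0 ↔ v = o := by
    intro v
    rw [← Nat.le_zero, ← hlev]
    exact Iff.rfl
  have hpar : ∀ v, ∃ p, ∀ k, lev v = k + 1 → lev p ≤ k ∧
        (Even k → p ≤ v ∧ ∀ y, y ≤ v → lev y ≤ k → y ≤ p) ∧
        (Odd k → v ≤ p ∧ ∀ y, v ≤ y → lev y ≤ k → p ≤ y) := by
    intro v
    rcases Nat.eq_zero_or_pos (lev v) with hv | hv
    · refine ⟨v, fun k hk => ?_⟩
      omega
    · obtain ⟨k, hk⟩ : ∃ k, lev v = k + 1 := ⟨lev v - 1, by omega⟩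
      have h1 : v ∈ Ball o (k + 1) := (hlev v (k + 1)).2 hk.le
      have h2 : v ∉ Ball o k := fun h3 => by
        have := (hlev v k).1 h3
        omega
      rcases Nat.even_or_odd k with hek | hok
      · obtain ⟨z, hz, hzv, hz2⟩ := exists_gate_even h ho hek h1 h2
        refine ⟨z, fun k' hk' => ?_⟩
        have hkk : k' = k := by omega
        subst hkk
        refine ⟨(hlev z k').1 hz, fun _ => ⟨hzv, fun y hy hly => hz2 y ((hlev y k').2 hly) hy⟩,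
          fun hodd => ?_⟩
        exact absurd hodd (Nat.not_odd_iff_even.2 hek)
      · obtain ⟨z, hz, hzv, hz2⟩ := exists_gate_odd h ho hok h1 h2
        refine ⟨z, fun k' hk' => ?_⟩
        have hkk : k' = k := by omega
        subst hkk
        refine ⟨(hlev z k').1 hz, fun heven => ?_,
          fun _ => ⟨hzv, fun y hy hly => hz2 y ((hlev y k').2 hly) hy⟩⟩
        exact absurd heven (Nat.not_even_iff_odd.2 hok)
  choose par hp using hpar
  exact ⟨lev, par, hlev, h0, hp⟩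

end ASP87
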