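import Pool.Agent.ASP87.PDefs

/-!
# ASP87/PFlip: the order dual of everything

All statements are bookkeeping: the dual relation is `fun a b => r b a`, the parity shift `e` is
replaced by `e + 1` (`Odd (N + (e + 1)) ↔ Even (N + e)`), or by any `e'` of the other parity.
-/

namespace ASP87

universe u

variable {V B : Type u} {r : V → V → Prop} {s : B → B → Prop} {f : B → V} {lev : B → ℕ}
  {e e' N k : ℕ} {o x y : V}

private theorem odd_sw (he : Odd (e + e')) (n : ℕ) : Odd (n + e') ↔ Even (n + e) := by
  rw [Nat.odd_iff] at he ⊢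
  rw [Nat.even_iff]
  omega

private theorem even_sw (he : Odd (e + e')) (n : ℕ) : Even (n + e') ↔ Odd (n + e) := by
  rw [Nat.odd_iff] at he ⊢
  rw [Nat.even_iff]
  omega

private theorem odd_st (he : Even (e + e')) (n : ℕ) : Odd (n + e') ↔ Odd (n + e) := by
  rw [Nat.even_iff] at he
  rw [Nat.odd_iff, Nat.odd_iff]
  omega

private theorem even_st (he : Even (e + e')) (n : ℕ) : Even (n + e') ↔ Even (n + e) := by
  rw [Nat.even_iff] at he
  rw [Nat.even_iff, Nat.even_iff]
  omega

theorem PO.flip (h : PO r) : PO (fun a b => r b a) :=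
  ⟨h.refl, fun a b c hab hbc => h.trans c b a hbc hab, fun a b hab hba => h.anti a b hba hab⟩

/-- rank of the dual: `M - rk` -/
theorem Hyp.flip (h : Hyp r) : Hyp (fun a b => r b a) := by
  obtain ⟨rk, M, h1, h2⟩ := h.fin
  refine ⟨h.po.flip, ⟨fun a => M - rk a, M, fun a b hab hne => ?_, fun a => Nat.sub_le _ _⟩,
    fun a a' w w' h1 h2 h3 h4 => ?_, h.flDown, h.flUp⟩
  · have h3 := h1 b a hab (Ne.symm hne)
    have h4 := h2 a
    show M - rk a < M - rk b
    omega
  · obtain ⟨j, j1, j2, j3, j4⟩ := h.mid w w' a a' h1 h3 h2 h4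
    exact ⟨j, j3, j4, j1, j2⟩

/-- the dual stage, `e` and `e'` of different parity -/
theorem IsStage.flip (h : IsStage r s e N o f lev) (he : Odd (e + e')) :
    IsStage (fun a b => r b a) (fun a b => s b a) e' N o f lev where
  po := h.po.flip
  lev_le := h.lev_le
  zero := h.zero
  mono := fun x y hxy => h.mono y x hxy
  up_inj := fun b x y hx hy hxy => h.down_inj b y x hy hx hxy
  down_inj := fun b x y hx hy hxy => h.up_inj b y x hy hx hxy
  up_full := fun b hb v hv => h.down_full b (hb.imp id (odd_sw he N).1) v hv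
  down_full := fun b hb v hv => h.up_full b (hb.imp id (even_sw he N).1) v hv
  gate_odd := fun b hb ho => h.gate_even b hb ((odd_sw he _).1 ho)
  gate_even := fun b hb ho => h.gate_odd b hb ((even_sw he _).1 ho)
  closed_up := fun k hk x y hxy hx => h.closed_down k ((odd_sw he k).1 hk) y x hxy hx
  closed_down := fun k hk x y hxy hy => h.closed_up k ((even_sw he k).1 hk) y x hxy hy

/-- only the parity of `e` matters -/
theorem IsStage.par (h : IsStage r s e N o f lev) (he : Even (e + e')) :
    IsStage r s e' N o f lev where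
  po := h.po
  lev_le := h.lev_le
  zero := h.zero
  mono := h.mono
  up_inj := h.up_inj
  down_inj := h.down_inj
  up_full := fun b hb v hv => h.up_full b (hb.imp id (odd_st he N).1) v hv
  down_full := fun b hb v hv => h.down_full b (hb.imp id (even_st he N).1) v hv
  gate_odd := fun b hb ho => h.gate_odd b hb ((odd_st he _).1 ho)
  gate_even := fun b hb ho => h.gate_even b hb ((even_st he _).1 ho)
  closed_up := fun k hk => h.closed_up k ((odd_st he k).1 hk)
  closed_down := fun k hk => h.closed_down k ((even_st he k).1 hk)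

theorem CmpR_flip {a b : V} : CmpR (fun a b => r b a) a b ↔ CmpR r a b := or_comm

theorem MoveR.flip {l l' : List V} (h : MoveR r l l') : MoveR (fun a b => r b a) l l' := by
  cases h with
  | tri l t p q s h1 h2 h3 =>
    exact MoveR.tri l t p q s (CmpR_flip.2 h1) (CmpR_flip.2 h2) (CmpR_flip.2 h3)
  | dup l t p => exact MoveR.dup l t p

theorem SCR.flip (h : SCR r) : SCR (fun a b => r b a) := by
  intro a l l' hl hl' he
  have hc : CmpR (fun a b => r b a) = CmpR r := by
    funext a b
    exact propext CmpR_flip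
  rw [hc] at hl hl'
  exact Relation.EqvGen.mono (fun _ _ hm => MoveR.flip hm) _ _ (h a l l' hl hl' he)

theorem BallR_flip (he : Odd (e + e')) : BallR (fun a b => r b a) e' o k x ↔ BallR r e o k x := by
  induction k generalizing x with
  | zero => exact Iff.rfl
  | succ k ih =>
    show (Even (k + e') ∧ ∃ y, BallR (fun a b => r b a) e' o k y ∧ r x y) ∨
      (Odd (k + e') ∧ ∃ y, BallR (fun a b => r b a) e' o k y ∧ r y x) ↔
      (Even (k + e) ∧ ∃ y, BallR r e o k y ∧ r y x) ∨ (Odd (k + e) ∧ ∃ y, BallR r e o k y ∧ r x y)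
    rw [odd_sw he, even_sw he, or_comm]
    simp only [ih]

theorem BallR_par (he : Even (e + e')) : BallR r e' o k x ↔ BallR r e o k x := by
  induction k generalizing x with
  | zero => exact Iff.rfl
  | succ k ih =>
    show (Even (k + e') ∧ ∃ y, BallR r e' o k y ∧ r y x) ∨
      (Odd (k + e') ∧ ∃ y, BallR r e' o k y ∧ r x y) ↔
      (Even (k + e) ∧ ∃ y, BallR r e o k y ∧ r y x) ∨ (Odd (k + e) ∧ ∃ y, BallR r e o k y ∧ r x y)
    rw [odd_st he, even_st he]
    simp only [ih]

end ASP87
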