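import Pool.Agent.ASP87.PDefs

/-!
# ASP87/PJoin: joins of pairs bounded above; ranks on stages

PROOF of `exists_join`: among the common upper bounds `j` of `a, a'` take one of least rank
(`Nat.find` or well-foundedness). For another common upper bound `w`, `mid` applied to
`a, a' ≤ j, w` gives `j' ≤ j, w` above `a, a'`; if `j' ≠ j` then `rk j' < rk j`, a contradiction,
so `j' = j ≤ w`.

PROOF of `stage_rank`: `rk ∘ f`; if `s a b`, `a ≠ b`, then `r (f a) (f b)` by `mono`, and
`f a ≠ f b` (otherwise `up_inj a b a` with `r (f b) (f a)` (reflexivity) gives `s b a`, so `a = b`).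
-/

namespace ASP87

universe u

variable {V B : Type u} {r : V → V → Prop} {s : B → B → Prop} {f : B → V} {lev : B → ℕ}
  {e N : ℕ} {o : V}

theorem exists_join (hV : Hyp r) {a a' w : V} (h : r a w) (h' : r a' w) :
    ∃ j, r a j ∧ r a' j ∧ ∀ z, r a z → r a' z → r j z := by
  classical
  obtain ⟨rk, M, hrk, hM⟩ := hV.fin
  have hex : ∃ n : ℕ, ∃ z, r a z ∧ r a' z ∧ rk z = n := ⟨_, w, h, h', rfl⟩
  obtain ⟨j, hj, hj', hjn⟩ := Nat.find_spec hex
  refine ⟨j, hj, hj', fun z hz hz' => ?_⟩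
  obtain ⟨j', h1, h2, h3, h4⟩ := hV.mid a a' j z hj hz hj' hz'
  have h5 : j' = j := by
    by_contra hne
    have h6 := hrk j' j h3 hne
    exact Nat.find_min hex (m := rk j') (by rw [← hjn]; exact h6) ⟨j', h1, h2, rfl⟩
  rw [← h5]
  exact h4

theorem stage_rank (hV : Hyp r) (h : IsStage r s e N o f lev) :
    ∃ (rk : B → ℕ) (M : ℕ), (∀ a b, s a b → a ≠ b → rk a < rk b) ∧ ∀ a, rk a ≤ M := by
  obtain ⟨rk, M, hrk, hM⟩ := hV.fin
  refine ⟨fun b => rk (f b), M, fun a b hab hne => ?_, fun a => hM _⟩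
  refine hrk _ _ (h.mono a b hab) fun hf => hne ?_
  refine h.po.anti a b hab ?_
  refine h.up_inj a b a hab (h.po.refl a) ?_
  rw [hf]
  exact hV.po.refl _

end ASP87
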