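import Pool.Agent.ASP87.PDefs

/-!
# ASP87/PLift: lifting walks to a stage

PROOFS.
`step_unique`: four cases. `s b c`, `s b c'`: `up_inj b` twice (reflexivity of `r`), then `anti`.
  `s c b`, `s c' b`: `down_inj b`. `s b c`, `s c' b`: `r (f b) (f c)`, `r (f c) = r (f c') (f b)`, so
  `f b = f c` (`anti`); `up_inj b c b` gives `s c b`, so `c = b`; `down_inj b`: similarly `c' = b`.
`step_lev`: if `s b c`: take `k = lev b` or `lev b + 1` with `Odd (k + e)`, `closed_up`; if `s c b`:
  `k` with `Even (k + e)`, `closed_down`.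
`step_exists`: `up_full`/`down_full` at `b` (`lev b < N`).
`lift_unique`, `lift_append`, `lift_lev`: induction on the list.
`tri_iff`: (→) `m - b' - c'` lifts, `f m = p`, `f b' = q`, `f c' = s0`, `CmpR r p s0`. If `s m b'`,
  `s c' b'`: `down_inj b'` gives `CmpR s m c'` from `CmpR r p s0`. If `s b' m`, `s b' c'`: `up_inj b'`.
  If `s m b'`, `s b' c'` (or reversed): transitivity.
  (←) `CmpR s m c'`; `step_exists` gives `b'` over `q` comparable to `m` (`lev m < N`). Show
  `CmpR s b' c'` in the same way: same side of `m`: `up_inj m` or `down_inj m` and `CmpR r q s0`;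
  different sides: transitivity.
`dup_iff`: a lift `b'` of `f m` comparable to `m` is `m` (`step_unique` with `c' = m`).
-/

namespace ASP87

universe u

variable {V B : Type u} {r : V → V → Prop} {s : B → B → Prop} {f : B → V} {lev : B → ℕ}
  {e N : ℕ} {o : V}

theorem step_unique (hr : PO r) (h : IsStage r s e N o f lev) {b c c' : B} (hf : f c = f c')
    (h1 : CmpR s b c) (h2 : CmpR s b c') : c = c' := by
  have hrf : ∀ x y : B, f x = f y → r (f x) (f y) := fun x y hxy => by rw [hxy]; exact hr.refl _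
  have mixed : ∀ {c c' : B}, f c = f c' → s b c → s c' b → c = c' := by
    intro c c' hf h1 h2
    have e1 : f b = f c := hr.anti _ _ (h.mono _ _ h1) (by rw [hf]; exact h.mono _ _ h2)
    have hcb : c = b := h.po.anti _ _ (h.up_inj b c b h1 (h.po.refl b) (hrf _ _ e1.symm)) h1
    have hcb' : c' = b := h.po.anti _ _ h2
      (h.down_inj b b c' (h.po.refl b) h2 (hrf _ _ (e1.trans hf)))
    rw [hcb, hcb']
  rcases h1 with h1 | h1 <;> rcases h2 with h2 | h2
  · exact h.po.anti _ _ (h.up_inj b c c' h1 h2 (hrf _ _ hf)) (h.up_inj b c' c h2 h1 (hrf _ _ hf.symm))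
  · exact mixed hf h1 h2
  · exact (mixed hf.symm h2 h1).symm
  · exact h.po.anti _ _ (h.down_inj b c c' h1 h2 (hrf _ _ hf))
      (h.down_inj b c' c h2 h1 (hrf _ _ hf.symm))

theorem step_lev (h : IsStage r s e N o f lev) {b c : B} (h1 : CmpR s b c) :
    lev c ≤ lev b + 1 := by
  rcases h1 with h1 | h1
  · rcases Nat.even_or_odd (lev b + e) with hp | hp
    · exact h.closed_up (lev b + 1) (by rw [show lev b + 1 + e = lev b + e + 1 by ring]; exact hp.add_one)
        b c h1 (Nat.le_succ _)
    · exact (h.closed_up (lev b) hp b c h1 le_rfl).trans (Nat.le_succ _)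
  · rcases Nat.even_or_odd (lev b + e) with hp | hp
    · exact (h.closed_down (lev b) hp c b h1 le_rfl).trans (Nat.le_succ _)
    · exact h.closed_down (lev b + 1) (by rw [show lev b + 1 + e = lev b + e + 1 by ring]; exact hp.add_one)
        c b h1 (Nat.le_succ _)

theorem step_exists (h : IsStage r s e N o f lev) {b : B} {v : V} (hb : lev b < N)
    (hv : CmpR r (f b) v) : ∃ c, f c = v ∧ CmpR s b c := by
  rcases hv with hv | hv
  · obtain ⟨c, hc, hc'⟩ := h.up_full b (Or.inl hb) v hv
    exact ⟨c, hc', Or.inl hc⟩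
  · obtain ⟨c, hc, hc'⟩ := h.down_full b (Or.inl hb) v hv
    exact ⟨c, hc', Or.inr hc⟩

theorem lift_unique (hr : PO r) (h : IsStage r s e N o f lev) (l : List V) {b x y : B}
    (h1 : LiftsTo s f b l x) (h2 : LiftsTo s f b l y) : x = y := by
  induction l generalizing b with
  | nil => exact h1.symm.trans h2
  | cons v l ih =>
    obtain ⟨c, hc, hbc, hl⟩ := h1
    obtain ⟨c', hc', hbc', hl'⟩ := h2
    obtain rfl := step_unique hr h (hc.trans hc'.symm) hbc hbc'
    exact ih hl hl'

theorem lift_append (l l' : List V) (b y : B) :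
    LiftsTo s f b (l ++ l') y ↔ ∃ m, LiftsTo s f b l m ∧ LiftsTo s f m l' y := by
  induction l generalizing b with
  | nil =>
    constructor
    · intro h
      exact ⟨b, rfl, h⟩
    · rintro ⟨m, rfl, h⟩
      exact h
  | cons v l ih =>
    constructor
    · rintro ⟨c, hc, hbc, hl⟩
      obtain ⟨m, h1, h2⟩ := (ih c).1 hl
      exact ⟨m, ⟨c, hc, hbc, h1⟩, h2⟩
    · rintro ⟨m, ⟨c, hc, hbc, h1⟩, h2⟩
      exact ⟨c, hc, hbc, (ih c).2 ⟨m, h1, h2⟩⟩

theorem lift_lev (h : IsStage r s e N o f lev) (l : List V) {b x : B}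
    (h1 : LiftsTo s f b l x) : lev x ≤ lev b + l.length := by
  induction l generalizing b with
  | nil =>
    obtain rfl : b = x := h1
    exact Nat.le_add_right _ _
  | cons v l ih =>
    obtain ⟨c, hc, hbc, hl⟩ := h1
    have h2 := ih hl
    have h3 := step_lev h hbc
    rw [List.length_cons]
    omega

/-- two elements on the same side of `m` with comparable images are comparable; on different
sides by transitivity -/
theorem cmp_of_cmp (h : IsStage r s e N o f lev) {m x y : B} (hx : CmpR s m x)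
    (hy : CmpR s m y) (hxy : CmpR r (f x) (f y)) : CmpR s x y := by
  rcases hx with hx | hx <;> rcases hy with hy | hy
  · rcases hxy with h1 | h1
    · exact Or.inl (h.up_inj m x y hx hy h1)
    · exact Or.inr (h.up_inj m y x hy hx h1)
  · exact Or.inr (h.po.trans _ _ _ hy hx)
  · exact Or.inl (h.po.trans _ _ _ hx hy)
  · rcases hxy with h1 | h1
    · exact Or.inl (h.down_inj m x y hx hy h1)
    · exact Or.inr (h.down_inj m y x hy hx h1)

theorem CmpR_symm {V : Type u} {r : V → V → Prop} {a b : V} (h : CmpR r a b) : CmpR r b a :=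
  Or.symm h

theorem tri_iff (hr : PO r) (h : IsStage r s e N o f lev) {m : B} {p q s0 : V} (hm : f m = p)
    (hl : lev m < N) (h1 : CmpR r p q) (h2 : CmpR r q s0) (h3 : CmpR r p s0) (t : List V) (y : B) :
    LiftsTo s f m (q :: s0 :: t) y ↔ LiftsTo s f m (s0 :: t) y := by
  subst hm
  constructor
  · rintro ⟨b', hb', hmb', c', hc', hbc', hl'⟩
    subst hb' hc'
    exact ⟨c', rfl, cmp_of_cmp h (CmpR_symm hmb') hbc' h3, hl'⟩
  · rintro ⟨c', hc', hmc', hl'⟩
    subst hc'
    obtain ⟨b', hb', hmb'⟩ := step_exists h hl h1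
    subst hb'
    exact ⟨b', rfl, hmb', c', rfl, cmp_of_cmp h hmb' hmc' h2, hl'⟩

theorem dup_iff (hr : PO r) (h : IsStage r s e N o f lev) {m : B} {p : V} (hm : f m = p)
    (t : List V) (y : B) : LiftsTo s f m (p :: t) y ↔ LiftsTo s f m t y := by
  subst hm
  constructor
  · rintro ⟨c, hc, hmc, hl⟩
    obtain rfl := step_unique hr h hc hmc (Or.inl (h.po.refl m))
    exact hl
  · intro hl
    exact ⟨m, rfl, Or.inl (h.po.refl m), hl⟩

end ASP87
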