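import Pool.Agent.ASP87.PJoin

/-!
# ASP87/PNew: the elements of `New0` (steps 3a - 3d of the note)

Throughout `h : IsStage r s e N o f lev`, `hV : Hyp r`, and where needed `hp : Even (N + e)`
(then ALL down-sets of the stage are full) and `hN : 1 ≤ N`.

PROOFS.
`new0_lev`: if `lev b < N` then `up_full` gives `y` above `b` over `v`; with `lev_le` we get `= N`.
`new0_down`: `f b' ≤ f b ≤ v`. If `v = f y`, `s b' y`, then `s b' b`, `r (f b) (f y)`, so `s b y` by
  `up_inj b' b y`; contradiction.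
`new0_up`: if `v = f y`, `s b'' y`, then `s b y`; contradiction.
`new0_mono`: if `v2 = f y`, `s b y`, then `r v (f y)`, so by `down_full y` (all down-sets are full)
  `v = f y'` with `s y' y`; `r (f b) (f y')`, so `s b y'` by `down_inj y b y'`; contradiction.
`new0_join` (JOIN STEP): all of `b0, b1, b2` have level `N` (`new0_lev`, `new0_down`). `gate_even`
  gives the gates `c0, c1, c2` of `b0, b1, b2`; `s c0 c1`, `s c0 c2` since `s b0 c1`, `s b0 c2`.
  `f c0, f b1, f b2` lie above `f b0` and are pairwise bounded above (by `f c1`, `f c2`, `v`). `flUp`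
  gives a common upper bound `t`. Let `j` be the join of `f b1, f b2` (`exists_join`, bounded by `v`);
  `r j t`, `r j v`. `lev c0 < N`, so `t = f t'` with `s c0 t'` (`up_full`), `s b0 t'`; `up_inj b0`
  gives `s b1 t'`, `s b2 t'`. `down_full t'`: `j = f j'`, `s j' t'`; `down_inj t'` gives `s b1 j'`,
  `s b2 j'`. `new0_up` (from `b1`, `f j' = j ≤ v`) gives `New0 v j'`.
`exists_maxNew`: by `stage_rank` take an element of `New0 v` above `b` of largest rank.
`le_maxNew`: `b` is in `New0 v` (`new0_down`), `new0_join` with `b0 = b`, `b1 = m`, `b2 = b'` gives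
  `b3` above `m` and `b'` in `New0 v`, so `b3 = m` by maximality.
`le_maxNew'`: let `j` be the join of `f x` and `f m` (both below `f b`), `r j (f b)`, `r j v`;
  `down_full b`: `j = f j'`, `s j' b`; `down_inj b`: `s x j'`, `s m j'`; `new0_up` (from `m`):
  `New0 v j'`; maximality: `j' = m`.
-/

namespace ASP87

universe u

variable {V B : Type u} {r : V → V → Prop} {s : B → B → Prop} {f : B → V} {lev : B → ℕ}
  {e N : ℕ} {o v v2 : V} {b b' b0 b1 b2 m x : B}

theorem new0_lev (h : IsStage r s e N o f lev) (hb : New0 r s f v b) : lev b = N := by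
  by_contra hne
  have h1 := h.lev_le b
  obtain ⟨b', h2, h3⟩ := h.up_full b (Or.inl (by omega)) v hb.1
  exact hb.2 b' h2 h3

theorem new0_down (hV : Hyp r) (h : IsStage r s e N o f lev) (hb : New0 r s f v b)
    (hs : s b' b) : New0 r s f v b' := by
  refine ⟨hV.po.trans _ _ _ (h.mono _ _ hs) hb.1, fun y hy hfy => ?_⟩
  exact hb.2 y (h.up_inj b' b y hs hy (by rw [hfy]; exact hb.1)) hfy

theorem new0_up (h : IsStage r s e N o f lev) (hb : New0 r s f v b)
    (hs : s b b') (hf : r (f b') v) : New0 r s f v b' :=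
  ⟨hf, fun y hy hfy => hb.2 y (h.po.trans _ _ _ hs hy) hfy⟩

theorem new0_mono (hV : Hyp r) (h : IsStage r s e N o f lev) (hp : Even (N + e))
    (hb : New0 r s f v b) (hv : r v v2) : New0 r s f v2 b := by
  refine ⟨hV.po.trans _ _ _ hb.1 hv, fun y hy hfy => ?_⟩
  obtain ⟨y', h1, h2⟩ := h.down_full y (Or.inr hp) v (by rw [hfy]; exact hv)
  exact hb.2 y' (h.down_inj y b y' hy h1 (by rw [h2]; exact hb.1)) h2

theorem new0_join (hV : Hyp r) (h : IsStage r s e N o f lev) (hN : 1 ≤ N) (hp : Even (N + e))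
    (h1 : New0 r s f v b1) (h2 : New0 r s f v b2) (h01 : s b0 b1) (h02 : s b0 b2) :
    ∃ b3, s b1 b3 ∧ s b2 b3 ∧ New0 r s f v b3 := by
  have hl1 := new0_lev h h1
  have hl2 := new0_lev h h2
  have hl0 := new0_lev h (new0_down hV h h1 h01)
  obtain ⟨c0, hc0, hbc0, hg0⟩ := h.gate_even b0 (by omega) (by rw [hl0]; exact hp)
  obtain ⟨c1, hc1, hbc1, -⟩ := h.gate_even b1 (by omega) (by rw [hl1]; exact hp)
  obtain ⟨c2, hc2, hbc2, -⟩ := h.gate_even b2 (by omega) (by rw [hl2]; exact hp)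
  have h3 : s c0 c1 := hg0 c1 (by omega) (h.po.trans _ _ _ h01 hbc1)
  have h4 : s c0 c2 := hg0 c2 (by omega) (h.po.trans _ _ _ h02 hbc2)
  obtain ⟨t, ht0, ht1, ht2⟩ := hV.flUp (f b0) (f c0) (f b1) (f b2) (h.mono _ _ hbc0)
    (h.mono _ _ h01) (h.mono _ _ h02) ⟨f c1, h.mono _ _ h3, h.mono _ _ hbc1⟩
    ⟨v, h1.1, h2.1⟩ ⟨f c2, h.mono _ _ h4, h.mono _ _ hbc2⟩
  obtain ⟨j, hj1, hj2, hjl⟩ := exists_join hV h1.1 h2.1
  obtain ⟨t', ht', hft'⟩ := h.up_full c0 (Or.inl (by omega)) t ht0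
  have h5 : s b0 t' := h.po.trans _ _ _ hbc0 ht'
  have h6 : s b1 t' := h.up_inj b0 b1 t' h01 h5 (by rw [hft']; exact ht1)
  have h7 : s b2 t' := h.up_inj b0 b2 t' h02 h5 (by rw [hft']; exact ht2)
  obtain ⟨j', hj', hfj'⟩ := h.down_full t' (Or.inr hp) j (by rw [hft']; exact hjl t ht1 ht2)
  have h8 : s b1 j' := h.down_inj t' b1 j' h6 hj' (by rw [hfj']; exact hj1)
  have h9 : s b2 j' := h.down_inj t' b2 j' h7 hj' (by rw [hfj']; exact hj2)
  exact ⟨j', h8, h9, new0_up h h1 h8 (by rw [hfj']; exact hjl v h1.1 h2.1)⟩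

theorem exists_maxNew (hV : Hyp r) (h : IsStage r s e N o f lev) (hb : New0 r s f v b) :
    ∃ m, s b m ∧ MaxNew r s f v m := by
  classical
  obtain ⟨rk, M, hrk, hM⟩ := stage_rank hV h
  have hex : ∃ n : ℕ, ∃ m, s b m ∧ New0 r s f v m ∧ M - rk m = n :=
    ⟨_, b, h.po.refl b, hb, rfl⟩
  obtain ⟨m, hbm, hm, hmn⟩ := Nat.find_spec hex
  refine ⟨m, hbm, hm, fun b' hmb' hb' => ?_⟩
  by_contra hne
  have h1 := hrk m b' hmb' (fun h' => hne h'.symm)
  have h2 := hM b'
  exact Nat.find_min hex (m := M - rk b') (by rw [← hmn]; omega)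
    ⟨b', h.po.trans _ _ _ hbm hmb', hb', rfl⟩

theorem le_maxNew (hV : Hyp r) (h : IsStage r s e N o f lev) (hN : 1 ≤ N) (hp : Even (N + e))
    (hm : MaxNew r s f v m) (hbm : s b m) (hb' : New0 r s f v b') (hbb : s b b') : s b' m := by
  obtain ⟨b3, h1, h2, h3⟩ := new0_join hV h hN hp hm.1 hb' hbm hbb
  have h4 := hm.2 b3 h1 h3
  rw [← h4]
  exact h2

theorem le_maxNew' (hV : Hyp r) (h : IsStage r s e N o f lev) (hp : Even (N + e))
    (hm : MaxNew r s f v m) (hmb : s m b) (hxb : s x b) (hx : r (f x) v) : s x m := by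
  obtain ⟨j, hj1, hj2, hjl⟩ := exists_join hV (h.mono _ _ hxb) (h.mono _ _ hmb)
  obtain ⟨j', hj', hfj'⟩ := h.down_full b (Or.inr hp) j
    (hjl _ (h.mono _ _ hxb) (h.mono _ _ hmb))
  have h1 : s x j' := h.down_inj b x j' hxb hj' (by rw [hfj']; exact hj1)
  have h2 : s m j' := h.down_inj b m j' hmb hj' (by rw [hfj']; exact hj2)
  have h3 : New0 r s f v j' := new0_up h hm.1 h2 (by rw [hfj']; exact hjl v hx hm.1.1)
  have h4 := hm.2 j' h2 h3
  rw [← h4]
  exact h1

end ASP87
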