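import Mathlib

/-!
# ASP87/Root: roots and logarithms with labels

`bw w s` = `s^w` for `w >= 1`, `exp s` for `w = 0`. `rt w t` is the standard root of `exp t`.
`lab w s r` = label of `s` relative to `r` (quotient or difference), `act` = its inverse,
`scl w a s` = scaling: `bw w (scl w a s) = a * bw w s` for real `a > 0`.

`lab_const`: on a preconnected set the label is a continuous function with values in the set
`{k : bw w k = 1}` (w-th roots of unity, or the integer multiples of `2 pi i`), which is discrete: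
use `IsPreconnected.constant_of_mapsTo` or `IsPreconnected.eqOn_const_of_mapsTo` with the subspace
topology discrete (w >= 1: finite set; w = 0: `{2 pi i n}`, distances at least `2 pi`).
`lab_eventually`: the same locally.
`bw_tendsto`: if `|bw w s|` tends to 0 then (w >= 1) `s` tends to 0.
-/

namespace ASP87

open Complex Topology Set

/-- weight map -/
noncomputable def bw (w : ℕ) (s : ℂ) : ℂ := if w = 0 then exp s else s ^ w

/-- standard root of `exp t` -/
noncomputable def rt (w : ℕ) (t : ℂ) : ℂ := if w = 0 then t else exp (t / w)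

/-- label of `s` relative to `r` -/
noncomputable def lab (w : ℕ) (s r : ℂ) : ℂ := if w = 0 then s - r else s / r

/-- inverse of `lab` -/
noncomputable def act (w : ℕ) (k r : ℂ) : ℂ := if w = 0 then k + r else k * r

/-- scaling by a positive real factor -/
noncomputable def scl (w : ℕ) (a : ℝ) (s : ℂ) : ℂ :=
  if w = 0 then s + (Real.log a : ℂ) else ((a ^ ((1 : ℝ) / w) : ℝ) : ℂ) * s

theorem bw_continuous (w : ℕ) : Continuous (bw w) := by
  rcases eq_or_ne w 0 with rfl | hw
  · have : bw 0 = fun s => exp s := by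
      funext s
      simp [bw]
    rw [this]
    exact continuous_exp
  · have : bw w = fun s => s ^ w := by
      funext s
      simp [bw, hw]
    rw [this]
    exact continuous_pow w

theorem rt_continuous (w : ℕ) : Continuous (rt w) := by
  rcases eq_or_ne w 0 with rfl | hw
  · have : rt 0 = fun t => t := by
      funext s
      simp [rt]
    rw [this]
    exact continuous_id
  · have : rt w = fun t => exp (t / w) := by
      funext s
      simp [rt, hw]
    rw [this]
    exact continuous_exp.comp (continuous_id.div_const _)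

theorem bw_rt (w : ℕ) (t : ℂ) : bw w (rt w t) = exp t := by
  rcases eq_or_ne w 0 with rfl | hw
  · simp [bw, rt]
  · have hw' : (w : ℂ) ≠ 0 := by exact_mod_cast hw
    simp only [bw, rt, hw, if_false]
    rw [← exp_nat_mul]
    congr 1
    field_simp

theorem act_lab (w : ℕ) (s t : ℂ) : act w (lab w s (rt w t)) (rt w t) = s := by
  rcases eq_or_ne w 0 with rfl | hw
  · simp [act, lab, rt]
  · simp only [act, lab, rt, hw, if_false]
    exact div_mul_cancel₀ _ (exp_ne_zero _)

theorem lab_act (w : ℕ) (k t : ℂ) : lab w (act w k (rt w t)) (rt w t) = k := by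
  rcases eq_or_ne w 0 with rfl | hw
  · simp [act, lab, rt]
  · simp only [act, lab, rt, hw, if_false]
    exact mul_div_cancel_right₀ _ (exp_ne_zero _)

theorem bw_act (w : ℕ) (k r : ℂ) : bw w (act w k r) = bw w k * bw w r := by
  rcases eq_or_ne w 0 with rfl | hw
  · simp [act, bw, exp_add]
  · simp only [act, bw, hw, if_false]
    exact mul_pow _ _ _

theorem bw_lab {w : ℕ} {s t : ℂ} (h : bw w s = exp t) : bw w (lab w s (rt w t)) = 1 := by
  have h1 := bw_act w (lab w s (rt w t)) (rt w t)
  rw [act_lab, bw_rt, h] at h1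
  have h2 : exp t ≠ 0 := exp_ne_zero t
  have h3 : bw w (lab w s (rt w t)) * exp t = 1 * exp t := by rw [← h1, one_mul]
  exact mul_right_cancel₀ h2 h3

theorem bw_scl (w : ℕ) {a : ℝ} (ha : 0 < a) (s : ℂ) : bw w (scl w a s) = a * bw w s := by
  rcases eq_or_ne w 0 with rfl | hw
  · simp only [bw, scl, if_true]
    rw [exp_add, ← ofReal_exp, Real.exp_log ha, mul_comm]
  · simp only [bw, scl, hw, if_false]
    rw [mul_pow, ← ofReal_pow, ← Real.rpow_natCast, ← Real.rpow_mul ha.le]
    have hw' : (w : ℝ) ≠ 0 := by exact_mod_cast hw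
    rw [one_div, inv_mul_cancel₀ hw', Real.rpow_one]

theorem scl_one (w : ℕ) (s : ℂ) : scl w 1 s = s := by
  rcases eq_or_ne w 0 with rfl | hw
  · simp [scl]
  · simp [scl, hw]

/-- joint continuity of the scaling -/
theorem scl_continuousOn (w : ℕ) :
    ContinuousOn (fun q : ℝ × ℂ => scl w q.1 q.2) {q | 0 < q.1} := by
  rcases eq_or_ne w 0 with rfl | hw
  · simp only [scl, if_true]
    refine continuousOn_snd.add ?_
    refine continuous_ofReal.comp_continuousOn ?_
    exact continuousOn_fst.log fun q hq => ne_of_gt hq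
  · simp only [scl, hw, if_false]
    refine ContinuousOn.mul ?_ continuousOn_snd
    refine continuous_ofReal.comp_continuousOn ?_
    exact continuousOn_fst.rpow_const fun q hq => Or.inl (ne_of_gt hq)

private theorem discrete_one (w : ℕ) : DiscreteTopology {k : ℂ | bw w k = 1} := by
  rcases eq_or_ne w 0 with rfl | hw
  · refine DiscreteTopology.of_forall_le_dist (r := 2 * Real.pi) (by positivity) ?_
    rintro ⟨x, hx⟩ ⟨y, hy⟩ hxy
    simp only [bw, if_true, Set.mem_ofPred_eq] at hx hy
    obtain ⟨m, hm⟩ := exp_eq_one_iff.1 hx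
    obtain ⟨n, hn⟩ := exp_eq_one_iff.1 hy
    have hmn : m ≠ n := by
      rintro rfl
      apply hxy
      apply Subtype.ext
      show x = y
      rw [hm, hn]
    rw [Subtype.dist_eq]
    show 2 * Real.pi ≤ dist x y
    rw [dist_eq_norm, hm, hn, ← sub_mul, norm_mul]
    have h1 : ‖(2 * (Real.pi : ℂ) * I)‖ = 2 * Real.pi := by
      rw [norm_mul, norm_mul, norm_I, mul_one, norm_real, Real.norm_eq_abs,
        abs_of_pos Real.pi_pos]
      norm_num
    rw [h1]
    have h2 : (1 : ℝ) ≤ ‖((m : ℂ) - (n : ℂ))‖ := by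
      have h3 : ((m : ℂ) - (n : ℂ)) = (((m - n : ℤ) : ℝ) : ℂ) := by push_cast; ring
      rw [h3, norm_real, Real.norm_eq_abs]
      have h4 : (1 : ℤ) ≤ |m - n| := Int.one_le_abs (sub_ne_zero.2 hmn)
      calc (1 : ℝ) = ((1 : ℤ) : ℝ) := by norm_num
        _ ≤ ((|m - n| : ℤ) : ℝ) := by exact_mod_cast h4
        _ = |((m - n : ℤ) : ℝ)| := by push_cast; rfl
    have h5 : 0 ≤ 2 * Real.pi := by positivity
    nlinarith
  · have hfin : {k : ℂ | bw w k = 1}.Finite := by
      have h1 : {k : ℂ | bw w k = 1} ⊆ ((Polynomial.nthRoots w (1 : ℂ)).toFinset : Set ℂ) := by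
        intro k hk
        simp only [bw, hw, if_false, Set.mem_ofPred_eq] at hk
        rw [Finset.mem_coe, Multiset.mem_toFinset,
          Polynomial.mem_nthRoots (Nat.pos_of_ne_zero hw)]
        exact hk
      exact (Finset.finite_toSet _).subset h1
    have : Finite {k : ℂ | bw w k = 1} := hfin.to_subtype
    infer_instance

private theorem lab_contOn {X : Type*} [TopologicalSpace X] {S : Set X} (w : ℕ)
    (s t : X → ℂ) (hs : ContinuousOn s S) (ht : ContinuousOn t S) :
    ContinuousOn (fun x => lab w (s x) (rt w (t x))) S := by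
  rcases eq_or_ne w 0 with rfl | hw
  · simp only [lab, rt, if_true]
    exact hs.sub ht
  · simp only [lab, rt, hw, if_false]
    refine hs.div ?_ fun x _ => exp_ne_zero _
    exact continuous_exp.comp_continuousOn (ht.div_const _)

theorem lab_const {X : Type*} [TopologicalSpace X] {S : Set X} (hS : IsPreconnected S) (w : ℕ)
    (s t : X → ℂ) (hs : ContinuousOn s S) (ht : ContinuousOn t S)
    (h : ∀ x ∈ S, bw w (s x) = exp (t x)) :
    ∀ x ∈ S, ∀ y ∈ S, lab w (s x) (rt w (t x)) = lab w (s y) (rt w (t y)) := by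
  intro x hx y hy
  exact hS.constant_of_mapsTo (T := {k : ℂ | bw w k = 1}) ⟨discrete_one w⟩
    (f := fun x => lab w (s x) (rt w (t x))) (lab_contOn w s t hs ht)
    (fun z hz => bw_lab (h z hz)) hx hy

theorem lab_eventually {X : Type*} [TopologicalSpace X] {S : Set X} (w : ℕ)
    (s t : X → ℂ) (hs : ContinuousOn s S) (ht : ContinuousOn t S)
    (h : ∀ x ∈ S, bw w (s x) = exp (t x)) {x : X} (hx : x ∈ S) :
    ∀ᶠ y in 𝓝[S] x, lab w (s y) (rt w (t y)) = lab w (s x) (rt w (t x)) := by
  have h1 : Filter.Tendsto (fun x => lab w (s x) (rt w (t x))) (𝓝[S] x)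
      (𝓝[{k : ℂ | bw w k = 1}] (lab w (s x) (rt w (t x)))) :=
    (lab_contOn w s t hs ht x hx).tendsto_nhdsWithin fun z hz => bw_lab (h z hz)
  rw [nhdsWithin_of_mem_discrete (s := {k : ℂ | bw w k = 1}) ⟨discrete_one w⟩ (bw_lab (h x hx))] at h1
  have h2 : {z : ℂ | z = lab w (s x) (rt w (t x))} ∈ (pure (lab w (s x) (rt w (t x))) : Filter ℂ) :=
    Filter.mem_pure.2 rfl
  exact h1 h2

theorem bw_tendsto {X : Type*} {l : Filter X} {w : ℕ} (hw : w ≠ 0) (s : X → ℂ)
    (h : Filter.Tendsto (fun x => bw w (s x)) l (𝓝 0)) : Filter.Tendsto s l (𝓝 0) := by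
  rw [Metric.tendsto_nhds] at h ⊢
  intro e he
  filter_upwards [h (e ^ w) (by positivity)] with x hx
  simp only [bw, hw, if_false, dist_zero_right, norm_pow] at hx
  rw [dist_zero_right]
  exact lt_of_pow_lt_pow_left₀ w he.le hx

/-- small convex pieces: `{s : |bw w s| < eta}` is convex and nonempty -/
theorem bw_small_convex (w : ℕ) {eta : ℝ} (he : 0 < eta) :
    Convex ℝ {s : ℂ | ‖bw w s‖ < eta} ∧ {s : ℂ | ‖bw w s‖ < eta}.Nonempty := by
  rcases eq_or_ne w 0 with rfl | hw
  · have h1 : {s : ℂ | ‖bw 0 s‖ < eta} = {s : ℂ | s.re < Real.log eta} := by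
      ext s
      simp only [bw, if_true, Set.mem_ofPred_eq, norm_exp]
      rw [Real.lt_log_iff_exp_lt he]
    rw [h1]
    refine ⟨convex_halfSpace_re_lt _, ⟨((Real.log eta - 1 : ℝ) : ℂ), ?_⟩⟩
    show (((Real.log eta - 1 : ℝ) : ℂ)).re < Real.log eta
    rw [ofReal_re]
    linarith
  · have h1 : {s : ℂ | ‖bw w s‖ < eta} = Metric.ball 0 (eta ^ ((1 : ℝ) / w)) := by
      ext s
      simp only [bw, hw, if_false, Set.mem_ofPred_eq, norm_pow, Metric.mem_ball, dist_zero_right]
      have hw' : (w : ℝ) ≠ 0 := by exact_mod_cast hw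
      have h2 : (eta ^ ((1 : ℝ) / w)) ^ w = eta := by
        rw [← Real.rpow_natCast, ← Real.rpow_mul he.le, one_div, inv_mul_cancel₀ hw',
          Real.rpow_one]
      have h3 : 0 ≤ eta ^ ((1 : ℝ) / w) := by positivity
      constructor
      · intro h4
        rw [← h2] at h4
        exact lt_of_pow_lt_pow_left₀ w h3 h4
      · intro h4
        rw [← h2]
        exact pow_lt_pow_left₀ h4 (norm_nonneg s) hw
    rw [h1]
    exact ⟨convex_ball _ _, ⟨0, Metric.mem_ball_self (by positivity)⟩⟩

end ASP87
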