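import Pool.Agent.ASP87.Spaces
import Pool.Agent.ASP87.Dom

/-!
# ASP87/SlitCell: the slit cells of the space with one special point

`Y1 = YS univ x w1 w2` with index type `Unit`, `x = x ()`. Let `y = (x - c1) exp (-l)`, so that
`1 - y = (c2 - x) exp (-l)`. `D1` = `{1 - y in slitPlane}` (i.e. `y` not in `[1, oo)`), `D2` =
`{y in slitPlane}`. Labels: on `D1`: `s2` relative to `rt (w2) (l + log (1 - y))` (a logarithm of
`c2 - x`); on `D2`: `s1` relative to `rt (w1) (l + log y + pi i)` (a logarithm of `c1 - x = - y exp l`).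

`slitCell1`: GCell for `D1`. Open, label locally constant (`lab_eventually`; `log` is continuous on
`slitPlane`). WC: `K` = points of `D1` with the label of `y0`; homeomorphic to
`Mod = {(l, s) : C x C | 1 + bw (w1 ()) s * exp (-l) in slitPlane}` by `y |-> (ll y, s1 y ())`; inverse:
`c1 = x + bw w1 s`, `c2 = c1 + exp l` (so `(c2 - x) exp (-l) = 1 + bw w1 s exp (-l)`),
`s2 = act w2 label (rt w2 (l + log ((c2 - x) exp (-l))))`.
Mod is WC: scaling `Sc a (l, s) = (l, scl w1 a s)` multiplies `q = bw w1 s exp (-l)` by `a`; for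
`a in (0,1]`, `1 + a q` is on the segment from `1` to `1 + q`, in `slitPlane` if `1 + q` is (star convex
around 1). `f = 1 / (1 + |q|)` gives `|f q| < 1`, so `1 + f q in slitPlane` for all `(l, s)`. Domination by
`C x C` as in DiaCell: `j = Sc f : C x C -> Mod`, `r` = inclusion, `H = Sc (1 - tau + tau f)`.
`slitCell2`: the same with the roles exchanged: `Mod = {(l, s) | - bw (w2) s exp (-l) ...}`: from
`c2 = x + bw w2 s`, `c1 = c2 - exp l`, `y = (x - c1) exp (-l) = 1 - bw w2 s exp (-l)`; scaling `s`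
keeps `y = 1 - q` in `slitPlane`.
-/

namespace ASP87

open Complex Topology Set ComplexConjugate

variable {x : Unit → ℂ} {w1 w2 : Unit → ℕ}

/-- normalized position of the special point -/
noncomputable def yy (y : YS univ x w1 w2) : ℂ := (x () - c1 y) * exp (-ll y)

theorem yy_one_sub (y : YS univ x w1 w2) : 1 - yy y = (c2 y - x ()) * exp (-ll y) := by
  have h1 : exp (ll y) = c2 y - c1 y := y.2.2.2.2.2
  have h2 : (c2 y - c1 y) * exp (-ll y) = 1 := by
    rw [← h1, ← exp_add, add_neg_cancel, exp_zero]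
  unfold yy
  rw [← h2]
  ring

noncomputable def slLab1 (y : YS univ x w1 w2) : ℂ :=
  lab (w2 ()) (s2 y ()) (rt (w2 ()) (ll y + log (1 - yy y)))

noncomputable def slLab2 (y : YS univ x w1 w2) : ℂ :=
  lab (w1 ()) (s1 y ()) (rt (w1 ()) (ll y + log (yy y) + Real.pi * I))

private theorem c1_cont : Continuous (fun y : YS univ x w1 w2 => c1 y) :=
  continuous_fst.comp continuous_subtype_val

private theorem c2_cont : Continuous (fun y : YS univ x w1 w2 => c2 y) :=
  (continuous_fst.comp continuous_snd).comp continuous_subtype_val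

private theorem s1_cont : Continuous (fun y : YS univ x w1 w2 => s1 y ()) :=
  (continuous_apply ()).comp
    ((continuous_fst.comp (continuous_snd.comp continuous_snd)).comp continuous_subtype_val)

private theorem s2_cont : Continuous (fun y : YS univ x w1 w2 => s2 y ()) :=
  (continuous_apply ()).comp
    ((continuous_fst.comp (continuous_snd.comp (continuous_snd.comp continuous_snd))).comp
      continuous_subtype_val)

private theorem ll_cont : Continuous (fun y : YS univ x w1 w2 => ll y) :=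
  (continuous_snd.comp (continuous_snd.comp (continuous_snd.comp continuous_snd))).comp
    continuous_subtype_val

private theorem yy_cont : Continuous (fun y : YS univ x w1 w2 => yy y) := by
  unfold yy
  exact (continuous_const.sub c1_cont).mul (continuous_exp.comp ll_cont.neg)

private theorem act_cont (w : ℕ) (k : ℂ) : Continuous (act w k) := by
  unfold act
  by_cases hw : w = 0
  · simp only [hw, if_true]
    exact continuous_const.add continuous_id
  · simp only [hw, if_false]
    exact continuous_const.mul continuous_id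

/-- the coordinate which is scaled -/
private noncomputable def qh (sg : ℂ) (w : ℕ) (q : ℂ × ℂ) : ℂ := sg * (bw w q.2 * exp (-q.1))

private theorem qh_cont (sg : ℂ) (w : ℕ) : Continuous (qh sg w) := by
  unfold qh
  exact continuous_const.mul (((bw_continuous w).comp continuous_snd).mul
    (continuous_exp.comp continuous_fst.neg))

private theorem qh_scl (sg : ℂ) (w : ℕ) (a : ℝ) (q : ℂ × ℂ) (ha : 0 < a) :
    qh sg w (q.1, scl w a q.2) = a * qh sg w q := by
  unfold qh
  simp only
  rw [bw_scl w ha]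
  ring

/-- the scaling factor -/
private noncomputable def ff (sg : ℂ) (w : ℕ) (q : ℂ × ℂ) : ℝ := 1 / (1 + ‖qh sg w q‖)

private theorem ff_pos (sg : ℂ) (w : ℕ) (q : ℂ × ℂ) : 0 < ff sg w q := by
  unfold ff
  positivity

private theorem ff_le (sg : ℂ) (w : ℕ) (q : ℂ × ℂ) : ff sg w q ≤ 1 := by
  unfold ff
  rw [div_le_one (by positivity)]
  have := norm_nonneg (qh sg w q)
  linarith

private theorem ff_cont (sg : ℂ) (w : ℕ) : Continuous (ff sg w) := by
  unfold ff
  refine continuous_const.div (continuous_const.add (qh_cont sg w).norm) fun q => ?_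
  have := norm_nonneg (qh sg w q)
  positivity

private theorem ff_mem (sg : ℂ) (w : ℕ) (q : ℂ × ℂ) :
    1 + qh sg w (q.1, scl w (ff sg w q) q.2) ∈ slitPlane := by
  rw [qh_scl _ _ _ _ (ff_pos sg w q), mem_slitPlane_iff]
  left
  have h1 : ‖(ff sg w q : ℂ) * qh sg w q‖ < 1 := by
    rw [norm_mul, Complex.norm_of_nonneg (ff_pos sg w q).le]
    unfold ff
    rw [div_mul_eq_mul_div, one_mul, div_lt_one (by positivity)]
    linarith
  have h2 := Complex.abs_re_le_norm ((ff sg w q : ℂ) * qh sg w q)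
  have h3 := neg_abs_le ((ff sg w q : ℂ) * qh sg w q).re
  rw [add_re, one_re]
  linarith

private theorem star_mem (sg : ℂ) (w : ℕ) (q : ℂ × ℂ) (a : ℝ) (ha : 0 < a) (ha1 : a ≤ 1)
    (hq : 1 + qh sg w q ∈ slitPlane) : 1 + qh sg w (q.1, scl w a q.2) ∈ slitPlane := by
  rw [qh_scl sg w a q ha, mem_slitPlane_iff]
  rw [mem_slitPlane_iff] at hq
  simp only [add_re, one_re, add_im, one_im, zero_add, re_ofReal_mul, im_ofReal_mul] at hq ⊢
  rcases hq with hq | hq
  · left
    nlinarith
  · right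
    exact mul_ne_zero ha.ne' hq

private theorem slit_wc {K : Type*} [TopologicalSpace K] {w : ℕ} {sg : ℂ}
    (r : K → ℂ × ℂ) (hr : Continuous r) (hrM : ∀ y, 1 + qh sg w (r y) ∈ slitPlane)
    (inv : {q : ℂ × ℂ // 1 + qh sg w q ∈ slitPlane} → K)
    (hinv : Continuous inv) (h : ∀ y, inv ⟨r y, hrM y⟩ = y) : WC K := by
  have ha0 : ∀ (y : K) (τ : unitInterval), 0 < 1 - (τ : ℝ) + τ * ff sg w (r y) := by
    intro y τ
    have h1 := τ.2.1
    have h2 := τ.2.2
    have h3 := ff_pos sg w (r y)
    rcases h2.eq_or_lt with h4 | h4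
    · rw [h4]
      linarith
    · have : 0 ≤ (τ : ℝ) * ff sg w (r y) := mul_nonneg h1 h3.le
      linarith
  have ha1 : ∀ (y : K) (τ : unitInterval), 1 - (τ : ℝ) + τ * ff sg w (r y) ≤ 1 := by
    intro y τ
    have h1 := τ.2.1
    have h3 := ff_le sg w (r y)
    nlinarith
  have hjc : Continuous (fun q : ℂ × ℂ =>
      (⟨(q.1, scl w (ff sg w q) q.2), ff_mem sg w q⟩ :
        {q : ℂ × ℂ // 1 + qh sg w q ∈ slitPlane})) := by
    refine Continuous.subtype_mk (continuous_fst.prodMk ?_) _
    exact (scl_continuousOn w).comp_continuous ((ff_cont sg w).prodMk continuous_snd)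
      fun q => ff_pos sg w q
  have hHc : Continuous (fun z : K × unitInterval =>
      (⟨((r z.1).1, scl w (1 - (z.2 : ℝ) + z.2 * ff sg w (r z.1)) (r z.1).2),
        star_mem sg w (r z.1) _ (ha0 z.1 z.2) (ha1 z.1 z.2) (hrM z.1)⟩ :
        {q : ℂ × ℂ // 1 + qh sg w q ∈ slitPlane})) := by
    have hr1 : Continuous (fun z : K × unitInterval => r z.1) := hr.comp continuous_fst
    have hτ : Continuous (fun z : K × unitInterval => (z.2 : ℝ)) :=
      continuous_subtype_val.comp continuous_snd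
    refine Continuous.subtype_mk ((continuous_fst.comp hr1).prodMk ?_) _
    exact (scl_continuousOn w).comp_continuous
      (((continuous_const.sub hτ).add (hτ.mul ((ff_cont sg w).comp hr1))).prodMk
        (continuous_snd.comp hr1)) fun z => ha0 z.1 z.2
  refine ⟨⟨inv ⟨_, ff_mem sg w (0, 0)⟩⟩, fun d => ?_⟩
  refine ext_dom _ (hinv.comp hjc) r hr _ (hinv.comp hHc) (fun y => ?_) (fun y => ?_)
    (ext_contractible (ℂ × ℂ) d)
  · refine Eq.trans (congrArg inv (Subtype.ext ?_)) (h y)
    show ((r y).1, scl w (1 - ((0 : unitInterval) : ℝ) +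
      ((0 : unitInterval) : ℝ) * ff sg w (r y)) (r y).2) = r y
    rw [Set.Icc.coe_zero, sub_zero, zero_mul, add_zero, scl_one]
  · refine congrArg inv (Subtype.ext ?_)
    show ((r y).1, scl w (1 - ((1 : unitInterval) : ℝ) +
      ((1 : unitInterval) : ℝ) * ff sg w (r y)) (r y).2) = ((r y).1, scl w (ff sg w (r y)) (r y).2)
    rw [Set.Icc.coe_one, sub_self, zero_add, one_mul]

theorem slitCell1 : GCell {y : YS univ x w1 w2 | 1 - yy y ∈ slitPlane} slLab1 := by
  have hop : IsOpen {y : YS univ x w1 w2 | 1 - yy y ∈ slitPlane} :=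
    isOpen_slitPlane.preimage (continuous_const.sub yy_cont)
  have hs : ContinuousOn (fun y : YS univ x w1 w2 => s2 y ())
      {y : YS univ x w1 w2 | 1 - yy y ∈ slitPlane} := s2_cont.continuousOn
  have ht : ContinuousOn (fun y : YS univ x w1 w2 => ll y + log (1 - yy y))
      {y : YS univ x w1 w2 | 1 - yy y ∈ slitPlane} :=
    ll_cont.continuousOn.add ((continuous_const.sub yy_cont).continuousOn.clog fun y hy => hy)
  have hb : ∀ y ∈ {y : YS univ x w1 w2 | 1 - yy y ∈ slitPlane},
      bw (w2 ()) (s2 y ()) = exp (ll y + log (1 - yy y)) := by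
    intro y hy
    have h1 : bw (w2 ()) (s2 y ()) = c2 y - x () := y.2.2.2.2.1 ()
    rw [h1, exp_add, exp_log (slitPlane_ne_zero hy), yy_one_sub, mul_comm (c2 y - x ()),
      ← mul_assoc, ← exp_add, add_neg_cancel, exp_zero, one_mul]
  refine ⟨hop, fun y hy => ?_, fun y0 hy0 => ?_⟩
  · have h1 := lab_eventually (w2 ()) _ _ hs ht hb hy
    rwa [hop.nhdsWithin_eq hy] at h1
  · obtain ⟨κ, hκ⟩ : ∃ κ, κ = slLab1 y0 := ⟨_, rfl⟩
    have hκ1 : bw (w2 ()) κ = 1 := by
      rw [hκ]
      exact bw_lab (hb y0 hy0)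
    rw [← hκ]
    obtain ⟨tt, htt⟩ : ∃ tt : ℂ × ℂ → ℂ,
        tt = fun q => q.1 + log (1 + 1 * (bw (w1 ()) q.2 * exp (-q.1))) := ⟨_, rfl⟩
    have hexp : ∀ q : ℂ × ℂ, 1 + 1 * (bw (w1 ()) q.2 * exp (-q.1)) ∈ slitPlane →
        exp (tt q) = bw (w1 ()) q.2 + exp q.1 := by
      intro q hq
      rw [htt]
      simp only
      rw [exp_add, exp_log (slitPlane_ne_zero hq), one_mul, mul_add, mul_one, mul_comm (bw _ _),
        ← mul_assoc, ← exp_add, add_neg_cancel, exp_zero, one_mul, add_comm]
    have hmemY : ∀ q : ℂ × ℂ, 1 + 1 * (bw (w1 ()) q.2 * exp (-q.1)) ∈ slitPlane →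
        ((x () + bw (w1 ()) q.2, x () + bw (w1 ()) q.2 + exp q.1, fun _ => q.2,
          fun _ => act (w2 ()) κ (rt (w2 ()) (tt q)), q.1) : Amb Unit) ∈ YS univ x w1 w2 := by
      intro q hq
      refine ⟨trivial, trivial, fun _ => ?_, fun _ => ?_, ?_⟩
      · show bw (w1 ()) q.2 = x () + bw (w1 ()) q.2 - x ()
        ring
      · show bw (w2 ()) (act (w2 ()) κ (rt (w2 ()) (tt q))) =
          x () + bw (w1 ()) q.2 + exp q.1 - x ()
        rw [bw_act, hκ1, bw_rt, hexp q hq]
        ring
      · show exp q.1 = x () + bw (w1 ()) q.2 + exp q.1 - (x () + bw (w1 ()) q.2)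
        ring
    obtain ⟨iv, hiv⟩ : ∃ iv : {q : ℂ × ℂ // 1 + 1 * (bw (w1 ()) q.2 * exp (-q.1)) ∈ slitPlane} →
        YS univ x w1 w2, iv = fun q => ⟨_, hmemY q.1 q.2⟩ := ⟨_, rfl⟩
    have hyy : ∀ q, 1 - yy (iv q) = 1 + 1 * (bw (w1 ()) q.1.2 * exp (-q.1.1)) := by
      intro q
      rw [hiv]
      show 1 - (x () - (x () + bw (w1 ()) q.1.2)) * exp (-q.1.1) =
        1 + 1 * (bw (w1 ()) q.1.2 * exp (-q.1.1))
      ring
    have hlab : ∀ q, slLab1 (iv q) = κ := by
      intro q
      unfold slLab1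
      rw [hyy q]
      have h1 : s2 (iv q) () = act (w2 ()) κ (rt (w2 ()) (tt q.1)) := by rw [hiv]; rfl
      have h2 : ll (iv q) = q.1.1 := by rw [hiv]; rfl
      rw [h1, h2]
      have h3 : q.1.1 + log (1 + 1 * (bw (w1 ()) q.1.2 * exp (-q.1.1))) = tt q.1 := by rw [htt]
      rw [h3, lab_act]
    have hivc : Continuous iv := by
      rw [hiv]
      have hq : Continuous (fun q : {q : ℂ × ℂ //
          1 + 1 * (bw (w1 ()) q.2 * exp (-q.1)) ∈ slitPlane} => q.1) := continuous_subtype_val
      have hbq := (bw_continuous (w1 ())).comp (continuous_snd.comp hq)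
      have heq := continuous_exp.comp (continuous_fst.comp hq)
      have hen := continuous_exp.comp (continuous_fst.comp hq).neg
      have httc : Continuous (fun q : {q : ℂ × ℂ //
          1 + 1 * (bw (w1 ()) q.2 * exp (-q.1)) ∈ slitPlane} => tt q.1) := by
        rw [htt]
        exact (continuous_fst.comp hq).add
          ((continuous_const.add (continuous_const.mul (hbq.mul hen))).clog fun q => q.2)
      refine Continuous.subtype_mk ?_ _
      refine (continuous_const.add hbq).prodMk (((continuous_const.add hbq).add heq).prodMk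
        ((continuous_pi fun _ => continuous_snd.comp hq).prodMk
          ((continuous_pi fun _ => ?_).prodMk (continuous_fst.comp hq))))
      exact (act_cont _ _).comp ((rt_continuous _).comp httc)
    refine slit_wc (w := w1 ()) (sg := 1) (fun y => (ll y.1, s1 y.1 ()))
      ((ll_cont.comp continuous_subtype_val).prodMk (s1_cont.comp continuous_subtype_val))
      (fun y => ?_) (fun q => ⟨iv q, ?_, hlab q⟩) (hivc.subtype_mk _) (fun y => ?_)
    · have h1 : bw (w1 ()) (s1 y.1 ()) = c1 y.1 - x () := y.1.2.2.2.1 ()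
      have h2 : 1 - yy y.1 ∈ slitPlane := y.2.1
      have h3 : 1 + 1 * (bw (w1 ()) (s1 y.1 ()) * exp (-ll y.1)) = 1 - yy y.1 := by
        rw [h1]
        unfold yy
        ring
      show 1 + 1 * (bw (w1 ()) (s1 y.1 ()) * exp (-ll y.1)) ∈ slitPlane
      rw [h3]
      exact h2
    · show 1 - yy (iv q) ∈ slitPlane
      rw [hyy q]
      exact q.2
    · apply Subtype.ext
      show iv _ = y.1
      apply Subtype.ext
      have h1 : bw (w1 ()) (s1 y.1 ()) = c1 y.1 - x () := y.1.2.2.2.1 ()
      have h4 : exp (ll y.1) = c2 y.1 - c1 y.1 := y.1.2.2.2.2.2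
      have h3 : 1 + 1 * (bw (w1 ()) (s1 y.1 ()) * exp (-ll y.1)) = 1 - yy y.1 := by
        rw [h1]
        unfold yy
        ring
      rw [hiv]
      show ((x () + bw (w1 ()) (s1 y.1 ()), x () + bw (w1 ()) (s1 y.1 ()) + exp (ll y.1),
        fun _ => s1 y.1 (), fun _ => act (w2 ()) κ (rt (w2 ()) (tt (ll y.1, s1 y.1 ()))),
        ll y.1) : Amb Unit) = y.1.1
      have h5 : x () + bw (w1 ()) (s1 y.1 ()) = c1 y.1 := by
        rw [h1]
        ring
      have h6 : tt (ll y.1, s1 y.1 ()) = ll y.1 + log (1 - yy y.1) := by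
        rw [htt]
        simp only
        rw [h3]
      have h7 : act (w2 ()) κ (rt (w2 ()) (tt (ll y.1, s1 y.1 ()))) = s2 y.1 () := by
        have h9 : slLab1 y.1 = κ := y.2.2
        rw [h6]
        exact Eq.trans (congrArg (fun k => act (w2 ()) k (rt (w2 ())
          (ll y.1 + log (1 - yy y.1)))) h9.symm) (act_lab _ _ _)
      rw [h7, h5, h4]
      have h8 : c1 y.1 + (c2 y.1 - c1 y.1) = c2 y.1 := by ring
      rw [h8]
      rfl

theorem slitCell2 : GCell {y : YS univ x w1 w2 | yy y ∈ slitPlane} slLab2 := by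
  have hop : IsOpen {y : YS univ x w1 w2 | yy y ∈ slitPlane} :=
    isOpen_slitPlane.preimage yy_cont
  have hs : ContinuousOn (fun y : YS univ x w1 w2 => s1 y ())
      {y : YS univ x w1 w2 | yy y ∈ slitPlane} := s1_cont.continuousOn
  have ht : ContinuousOn (fun y : YS univ x w1 w2 => ll y + log (yy y) + Real.pi * I)
      {y : YS univ x w1 w2 | yy y ∈ slitPlane} :=
    (ll_cont.continuousOn.add (yy_cont.continuousOn.clog fun y hy => hy)).add continuousOn_const
  have hb : ∀ y ∈ {y : YS univ x w1 w2 | yy y ∈ slitPlane},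
      bw (w1 ()) (s1 y ()) = exp (ll y + log (yy y) + Real.pi * I) := by
    intro y hy
    have h1 : bw (w1 ()) (s1 y ()) = c1 y - x () := y.2.2.2.1 ()
    have h2 : exp (ll y) * exp (-ll y) = 1 := by rw [← exp_add, add_neg_cancel, exp_zero]
    rw [h1, exp_add, exp_add, exp_log (slitPlane_ne_zero hy), exp_pi_mul_I]
    unfold yy
    calc c1 y - x () = (c1 y - x ()) * 1 := by ring
      _ = (c1 y - x ()) * (exp (ll y) * exp (-ll y)) := by rw [h2]
      _ = exp (ll y) * ((x () - c1 y) * exp (-ll y)) * -1 := by ring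
  refine ⟨hop, fun y hy => ?_, fun y0 hy0 => ?_⟩
  · have h1 := lab_eventually (w1 ()) _ _ hs ht hb hy
    rwa [hop.nhdsWithin_eq hy] at h1
  · obtain ⟨κ, hκ⟩ : ∃ κ, κ = slLab2 y0 := ⟨_, rfl⟩
    have hκ1 : bw (w1 ()) κ = 1 := by
      rw [hκ]
      exact bw_lab (hb y0 hy0)
    rw [← hκ]
    obtain ⟨tt, htt⟩ : ∃ tt : ℂ × ℂ → ℂ,
        tt = fun q => q.1 + log (1 + -1 * (bw (w2 ()) q.2 * exp (-q.1))) + Real.pi * I :=
      ⟨_, rfl⟩
    have hexp : ∀ q : ℂ × ℂ, 1 + -1 * (bw (w2 ()) q.2 * exp (-q.1)) ∈ slitPlane →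
        exp (tt q) = bw (w2 ()) q.2 - exp q.1 := by
      intro q hq
      have h2 : exp q.1 * exp (-q.1) = 1 := by rw [← exp_add, add_neg_cancel, exp_zero]
      rw [htt]
      simp only
      rw [exp_add, exp_add, exp_log (slitPlane_ne_zero hq), exp_pi_mul_I]
      calc exp q.1 * (1 + -1 * (bw (w2 ()) q.2 * exp (-q.1))) * -1 =
            bw (w2 ()) q.2 * (exp q.1 * exp (-q.1)) - exp q.1 := by ring
        _ = bw (w2 ()) q.2 - exp q.1 := by rw [h2, mul_one]
    have hmemY : ∀ q : ℂ × ℂ, 1 + -1 * (bw (w2 ()) q.2 * exp (-q.1)) ∈ slitPlane →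
        ((x () + bw (w2 ()) q.2 - exp q.1, x () + bw (w2 ()) q.2,
          fun _ => act (w1 ()) κ (rt (w1 ()) (tt q)), fun _ => q.2, q.1) : Amb Unit) ∈
          YS univ x w1 w2 := by
      intro q hq
      refine ⟨trivial, trivial, fun _ => ?_, fun _ => ?_, ?_⟩
      · show bw (w1 ()) (act (w1 ()) κ (rt (w1 ()) (tt q))) =
          x () + bw (w2 ()) q.2 - exp q.1 - x ()
        rw [bw_act, hκ1, bw_rt, hexp q hq]
        ring
      · show bw (w2 ()) q.2 = x () + bw (w2 ()) q.2 - x ()
        ring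
      · show exp q.1 = x () + bw (w2 ()) q.2 - (x () + bw (w2 ()) q.2 - exp q.1)
        ring
    obtain ⟨iv, hiv⟩ : ∃ iv : {q : ℂ × ℂ //
        1 + -1 * (bw (w2 ()) q.2 * exp (-q.1)) ∈ slitPlane} →
        YS univ x w1 w2, iv = fun q => ⟨_, hmemY q.1 q.2⟩ := ⟨_, rfl⟩
    have hyy : ∀ q, yy (iv q) = 1 + -1 * (bw (w2 ()) q.1.2 * exp (-q.1.1)) := by
      intro q
      have h2 : exp q.1.1 * exp (-q.1.1) = 1 := by rw [← exp_add, add_neg_cancel, exp_zero]
      rw [hiv]
      show (x () - (x () + bw (w2 ()) q.1.2 - exp q.1.1)) * exp (-q.1.1) =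
        1 + -1 * (bw (w2 ()) q.1.2 * exp (-q.1.1))
      calc (x () - (x () + bw (w2 ()) q.1.2 - exp q.1.1)) * exp (-q.1.1) =
            exp q.1.1 * exp (-q.1.1) + -1 * (bw (w2 ()) q.1.2 * exp (-q.1.1)) := by ring
        _ = 1 + -1 * (bw (w2 ()) q.1.2 * exp (-q.1.1)) := by rw [h2]
    have hlab : ∀ q, slLab2 (iv q) = κ := by
      intro q
      unfold slLab2
      rw [hyy q]
      have h1 : s1 (iv q) () = act (w1 ()) κ (rt (w1 ()) (tt q.1)) := by rw [hiv]; rfl
      have h2 : ll (iv q) = q.1.1 := by rw [hiv]; rfl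
      rw [h1, h2]
      have h3 : q.1.1 + log (1 + -1 * (bw (w2 ()) q.1.2 * exp (-q.1.1))) + Real.pi * I =
          tt q.1 := by rw [htt]
      rw [h3, lab_act]
    have hivc : Continuous iv := by
      rw [hiv]
      have hq : Continuous (fun q : {q : ℂ × ℂ //
          1 + -1 * (bw (w2 ()) q.2 * exp (-q.1)) ∈ slitPlane} => q.1) := continuous_subtype_val
      have hbq := (bw_continuous (w2 ())).comp (continuous_snd.comp hq)
      have heq := continuous_exp.comp (continuous_fst.comp hq)
      have hen := continuous_exp.comp (continuous_fst.comp hq).neg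
      have httc : Continuous (fun q : {q : ℂ × ℂ //
          1 + -1 * (bw (w2 ()) q.2 * exp (-q.1)) ∈ slitPlane} => tt q.1) := by
        rw [htt]
        exact ((continuous_fst.comp hq).add
          ((continuous_const.add (continuous_const.mul (hbq.mul hen))).clog fun q => q.2)).add
            continuous_const
      refine Continuous.subtype_mk ?_ _
      refine ((continuous_const.add hbq).sub heq).prodMk ((continuous_const.add hbq).prodMk
        ((continuous_pi fun _ => ?_).prodMk
          ((continuous_pi fun _ => continuous_snd.comp hq).prodMk (continuous_fst.comp hq))))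
      exact (act_cont _ _).comp ((rt_continuous _).comp httc)
    refine slit_wc (w := w2 ()) (sg := -1) (fun y => (ll y.1, s2 y.1 ()))
      ((ll_cont.comp continuous_subtype_val).prodMk (s2_cont.comp continuous_subtype_val))
      (fun y => ?_) (fun q => ⟨iv q, ?_, hlab q⟩) (hivc.subtype_mk _) (fun y => ?_)
    · have h1 : bw (w2 ()) (s2 y.1 ()) = c2 y.1 - x () := y.1.2.2.2.2.1 ()
      have h2 : yy y.1 ∈ slitPlane := y.2.1
      have h3 : 1 + -1 * (bw (w2 ()) (s2 y.1 ()) * exp (-ll y.1)) = yy y.1 := by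
        rw [h1, ← yy_one_sub]
        ring
      show 1 + -1 * (bw (w2 ()) (s2 y.1 ()) * exp (-ll y.1)) ∈ slitPlane
      rw [h3]
      exact h2
    · show yy (iv q) ∈ slitPlane
      rw [hyy q]
      exact q.2
    · apply Subtype.ext
      show iv _ = y.1
      apply Subtype.ext
      have h1 : bw (w2 ()) (s2 y.1 ()) = c2 y.1 - x () := y.1.2.2.2.2.1 ()
      have h4 : exp (ll y.1) = c2 y.1 - c1 y.1 := y.1.2.2.2.2.2
      have h3 : 1 + -1 * (bw (w2 ()) (s2 y.1 ()) * exp (-ll y.1)) = yy y.1 := by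
        rw [h1, ← yy_one_sub]
        ring
      rw [hiv]
      show ((x () + bw (w2 ()) (s2 y.1 ()) - exp (ll y.1), x () + bw (w2 ()) (s2 y.1 ()),
        fun _ => act (w1 ()) κ (rt (w1 ()) (tt (ll y.1, s2 y.1 ()))),
        fun _ => s2 y.1 (), ll y.1) : Amb Unit) = y.1.1
      have h5 : x () + bw (w2 ()) (s2 y.1 ()) = c2 y.1 := by
        rw [h1]
        ring
      have h6 : tt (ll y.1, s2 y.1 ()) = ll y.1 + log (yy y.1) + Real.pi * I := by
        rw [htt]
        simp only
        rw [h3]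
      have h7 : act (w1 ()) κ (rt (w1 ()) (tt (ll y.1, s2 y.1 ()))) = s1 y.1 () := by
        have h9 : slLab2 y.1 = κ := y.2.2
        rw [h6]
        exact Eq.trans (congrArg (fun k => act (w1 ()) k (rt (w1 ())
          (ll y.1 + log (yy y.1) + Real.pi * I))) h9.symm) (act_lab _ _ _)
      rw [h7, h5, h4]
      have h8 : c2 y.1 - (c2 y.1 - c1 y.1) = c1 y.1 := by ring
      rw [h8]
      rfl

end ASP87
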