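import Pool.Agent.ASP87.Root
import Pool.Agent.ASP87.GCell

/-!
# ASP87/Spaces: the two-particle spaces (definitions, first properties)

A point of `YS D x w1 w2`: `(c1, c2, s1, s2, l)`, two particles `c1, c2` in `D`, for each special point
`x i` roots (or logarithms, weight 0) `s1 i` of `c1 - x i` and `s2 i` of `c2 - x i`, and a logarithm `l`
of `c2 - c1` (so `c1 <> c2`).
`LL e x c` is a logarithm of `c - x`, continuous on the half plane `Re (conj e (x - c)) > 0`:
`exp (log (conj e (x - c)) + log (-e)) = conj e (x-c) (-e) = c - x` for `|e| = 1`.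
-/

namespace ASP87

open Complex Topology Set ComplexConjugate

abbrev Amb (ι : Type*) := ℂ × ℂ × (ι → ℂ) × (ι → ℂ) × ℂ

def YS {ι : Type*} (D : Set ℂ) (x : ι → ℂ) (w1 w2 : ι → ℕ) : Set (Amb ι) :=
  {y | y.1 ∈ D ∧ y.2.1 ∈ D ∧ (∀ i, bw (w1 i) (y.2.2.1 i) = y.1 - x i) ∧
    (∀ i, bw (w2 i) (y.2.2.2.1 i) = y.2.1 - x i) ∧ exp y.2.2.2.2 = y.2.1 - y.1}

variable {ι : Type*}

def c1 {D : Set ℂ} {x : ι → ℂ} {w1 w2 : ι → ℕ} (y : YS D x w1 w2) : ℂ := y.1.1
def c2 {D : Set ℂ} {x : ι → ℂ} {w1 w2 : ι → ℕ} (y : YS D x w1 w2) : ℂ := y.1.2.1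
def s1 {D : Set ℂ} {x : ι → ℂ} {w1 w2 : ι → ℕ} (y : YS D x w1 w2) : ι → ℂ := y.1.2.2.1
def s2 {D : Set ℂ} {x : ι → ℂ} {w1 w2 : ι → ℕ} (y : YS D x w1 w2) : ι → ℂ := y.1.2.2.2.1
def ll {D : Set ℂ} {x : ι → ℂ} {w1 w2 : ι → ℕ} (y : YS D x w1 w2) : ℂ := y.1.2.2.2.2

/-- logarithm of `c - x` on a half plane -/
noncomputable def LL (e x c : ℂ) : ℂ := log (conj e * (x - c)) + log (-e)

private theorem conj_mul_self_one {e : ℂ} (he : ‖e‖ = 1) : conj e * e = 1 := by
  rw [mul_comm, Complex.mul_conj, Complex.normSq_eq_norm_sq, he]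
  simp

theorem exp_LL {e x c : ℂ} (he : ‖e‖ = 1) (h : 0 < (conj e * (x - c)).re) :
    exp (LL e x c) = c - x := by
  have h1 : conj e * (x - c) ≠ 0 := by
    intro h0
    rw [h0, Complex.zero_re] at h
    exact lt_irrefl _ h
  have h2 : -e ≠ 0 := by
    intro h0
    rw [neg_eq_zero] at h0
    rw [h0, norm_zero] at he
    exact zero_ne_one he
  unfold LL
  rw [exp_add, exp_log h1, exp_log h2]
  have h3 := conj_mul_self_one he
  linear_combination (-(x - c)) * h3

theorem LL_continuousOn (e x : ℂ) :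
    ContinuousOn (LL e x) {c | 0 < (conj e * (x - c)).re} := by
  unfold LL
  refine ContinuousOn.add (ContinuousOn.clog ?_ ?_) continuousOn_const
  · exact (continuous_const.mul (continuous_const.sub continuous_id)).continuousOn
  · intro c hc
    exact Or.inl hc

/-- logarithm of `d` on the half plane around the direction `u` -/
noncomputable def LU (u d : ℂ) : ℂ := log (conj u * d) + log u

theorem exp_LU {u d : ℂ} (hu : ‖u‖ = 1) (h : 0 < (conj u * d).re) : exp (LU u d) = d := by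
  have h1 : conj u * d ≠ 0 := by
    intro h0
    rw [h0, Complex.zero_re] at h
    exact lt_irrefl _ h
  have h2 : u ≠ 0 := by
    intro h0
    rw [h0, norm_zero] at hu
    exact zero_ne_one hu
  unfold LU
  rw [exp_add, exp_log h1, exp_log h2]
  have h3 := conj_mul_self_one hu
  linear_combination d * h3

theorem LU_continuousOn (u : ℂ) : ContinuousOn (LU u) {d | 0 < (conj u * d).re} := by
  unfold LU
  refine ContinuousOn.add (ContinuousOn.clog ?_ ?_) continuousOn_const
  · exact (continuous_const.mul continuous_id).continuousOn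
  · intro c hc
    exact Or.inl hc

/-- labels for separated cells: `i1`, `i2` are the cone indices of the two particles (or none) -/
noncomputable def sepLab {D : Set ℂ} {x : ι → ℂ} {w1 w2 : ι → ℕ} [DecidableEq ι] (e : ι → ℂ)
    (u : ℂ) (i1 i2 : Option ι) (y : YS D x w1 w2) : (ι → ℂ) × (ι → ℂ) × ℂ :=
  (fun m => if i1 = some m then 0 else lab (w1 m) (s1 y m) (rt (w1 m) (LL (e m) (x m) (c1 y))),
   fun m => if i2 = some m then 0 else lab (w2 m) (s2 y m) (rt (w2 m) (LL (e m) (x m) (c2 y))),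
   ll y - LU u (c2 y - c1 y))

/-- labels for diagonal cells -/
noncomputable def diaLab {D : Set ℂ} {x : ι → ℂ} {w1 w2 : ι → ℕ} (e : ι → ℂ)
    (y : YS D x w1 w2) : (ι → ℂ) × (ι → ℂ) :=
  (fun m => lab (w1 m) (s1 y m) (rt (w1 m) (LL (e m) (x m) (c1 y))),
   fun m => lab (w2 m) (s2 y m) (rt (w2 m) (LL (e m) (x m) (c2 y))))

end ASP87
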