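import Pool.Agent.ASP87.TPP

/-!
# ASP87/TPPFl: the two flag properties

(Up) `b <= x, y, z`, pairwise bounded above. If two of them are comparable, say `x <= y`, the upper bound
of `y, z` works. So let `x, y, z` be pairwise incomparable; then `b < x, y, z`; if `x` has rank 2, an upper
bound of `x, y` is `>= x`, of rank 2, hence equal to `x`, so `y <= x`, contradiction. So `x, y, z` have rank 1
and `b` has state 00. Two of them have the same moving particle; say `x, y` have states `i0`, `i'0`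
(particle 1; mirror for particle 2; permute the names). Their upper bound has first coordinate
`some i` and `some i'`, so `i = i'`. The third one, `z`:
 * `st z = i''0`: as before `i'' = i`. A3: `u >= x`, `u' >= y`, `u'' >= z` of state (i,i), all above `b`: A2d:
   `u = u' = u''`.
 * `st z = (none, some j)`, `j = i`: the same (A3 applies to `z`): common upper bound of state (i,i).
 * `st z = (none, some j)`, `j <> i`: the upper bounds `u_xz`, `u_yz` have state (i,j) (rank 2, coordinates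
   from `x` and `z`). `K2 u_xz = K2 z = K2 u_yz` (K2mono), so by A7 `K1 u_xz = K1 u_yz`, so
   `K1 x = K1 y` (K1mono), A2a with `b`: `x = y`, contradiction.
(Down) `x, y, z <= u`, pairwise bounded below. If two are comparable, say `x <= y`, the lower bound of
`x, z` works. Otherwise all are `< u`; if `x` has rank 0 (state 00) then the lower bound of `x, y` equals `x`
(strict), `x <= y`, contradiction. So rank 1, `u` has rank 2, the pairwise lower bounds have state 00.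
 * `st u = (i,j)`, `i <> j`: the states are `i0` or `0j`; two are equal, say `st x = st y = i0`; with `b` the
   lower bound of `x, y`: `K1 x = K1 u = K1 y`, A2a: `x = y`, contradiction (mirror for `0j`: K2, A2b).
 * `st u = (i,i)`: states `i0` or `0i`. Put `k x = K1 x`, `l x = L1 i x` for `st x = i0`, and `k x = K2 x`,
   `l x = L2 i x` for `st x = 0i`. For `b <= x` of state 00: `A i (phi i b) (k x) = l x` (A6a, A6b). If
   `k x = k y` (two of the three): parity (K1odd, K2even) gives equal states, and A2a/A2b with the lower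
   bound of `x, y` gives `x = y`, contradiction. So the three times are different; permuting the names
   `k x < k y < k z`. Let `b1 <= x, y`, `b2 <= y, z`, `b3 <= x, z`, lines `A1, A2, A3`. `line_mid` with
   `A := A1`, `B := A3`, `C := A2` at the times `k x, k y, k z` (`A1 (k x) = A3 (k x) = l x`,
   `A1 (k y) = A2 (k y) = l y`, `A3 (k z) = A2 (k z) = l z`): `A3 (k y) = A1 (k y)`. So `A1, A3` agree at
   `k x` and `k y`: cl4: `phi i b1 = phi i b3`, A5b with `u`: `b1 = b3 <= x, y, z`.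
-/

namespace ASP87

variable {ι V : Type*} [PartialOrder V] {X T : ι → Type*} {st : V → St ι}
  {k1 k2 : V → ι → ℂ} {K1 K2 : V → ℤ} {phi : ∀ i, V → X i} {G : ∀ i, SimpleGraph (T i)}
  {A : ∀ i, X i → ℤ → T i} {L1 L2 : ∀ i, V → T i}

private theorem rk0 {s : St ι} (h : rkS s = 0) : s = (none, none) := by
  obtain ⟨a, b⟩ := s
  cases a <;> cases b <;> simp [rkS] at h ⊢

private theorem rk1 {s : St ι} (h : rkS s = 1) :
    (∃ i, s = (some i, none)) ∨ ∃ j, s = (none, some j) := by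
  obtain ⟨a, b⟩ := s
  cases a <;> cases b <;> simp [rkS] at h ⊢

private theorem rk2 {s : St ι} (h : rkS s = 2) : ∃ i j, s = (some i, some j) := by
  obtain ⟨a, b⟩ := s
  cases a <;> cases b <;> simp [rkS] at h ⊢

private theorem ranks (h : TPP X T st k1 k2 K1 K2 phi G A L1 L2) {a v u : V} (h1 : a < v)
    (h2 : v < u) : rkS (st a) = 0 ∧ rkS (st v) = 1 ∧ rkS (st u) = 2 := by
  have e1 : rkS (st a) < rkS (st v) := h.rk_strictMono h1
  have e2 : rkS (st v) < rkS (st u) := h.rk_strictMono h2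
  have e3 := rkS_le (st u)
  omega

private theorem fst_up (h : TPP X T st k1 k2 K1 K2 phi G A L1 L2) {v u : V} {i : ι}
    (h1 : v ≤ u) (h2 : st v = (some i, none)) : (st u).1 = some i := by
  have h3 := (h.mono v u h1).1
  rw [h2] at h3
  rcases h3 with h3 | h3
  · exact absurd h3 (by simp)
  · exact h3.symm

private theorem snd_up (h : TPP X T st k1 k2 K1 K2 phi G A L1 L2) {v u : V} {i : ι}
    (h1 : v ≤ u) (h2 : st v = (none, some i)) : (st u).2 = some i := by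
  have h3 := (h.mono v u h1).2
  rw [h2] at h3
  rcases h3 with h3 | h3
  · exact absurd h3 (by simp)
  · exact h3.symm

/-- three elements which can be completed to state `(i,i)` -/
private theorem up3 (h : TPP X T st k1 k2 K1 K2 phi G A L1 L2) {b x y z : V} {i : ι}
    (hb : st b = (none, none)) (hx : b ≤ x) (hy : b ≤ y) (hz : b ≤ z)
    (sx : st x = (some i, none) ∨ st x = (none, some i))
    (sy : st y = (some i, none) ∨ st y = (none, some i))
    (sz : st z = (some i, none) ∨ st z = (none, some i)) : ∃ u, x ≤ u ∧ y ≤ u ∧ z ≤ u := by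
  obtain ⟨u, hu, su⟩ := h.A3 x i (Or.inr sx)
  obtain ⟨v, hv, sv⟩ := h.A3 y i (Or.inr sy)
  obtain ⟨w, hw, sw⟩ := h.A3 z i (Or.inr sz)
  have hb' : st b ≠ (some i, some i) := by rw [hb]; simp
  have e1 := h.A2d b u v i (hx.trans hu) (hy.trans hv) hb' su sv
  have e2 := h.A2d b u w i (hx.trans hu) (hz.trans hw) hb' su sw
  subst e1
  subst e2
  exact ⟨_, hu, hv, hw⟩

private theorem core1 (h : TPP X T st k1 k2 K1 K2 phi G A L1 L2) {b x y z : V} {i : ι}
    (hb : st b = (none, none)) (hx : b ≤ x) (hy : b ≤ y) (hz : b ≤ z) (hxy : x ≠ y)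
    (sx : st x = (some i, none)) (sy : st y = (some i, none))
    (sz : (∃ j, st z = (some j, none)) ∨ ∃ j, st z = (none, some j))
    (h2 : ∃ u, y ≤ u ∧ z ≤ u) (h3 : ∃ u, x ≤ u ∧ z ≤ u) : ∃ u, x ≤ u ∧ y ≤ u ∧ z ≤ u := by
  obtain ⟨v, hyv, hzv⟩ := h2
  obtain ⟨u, hxu, hzu⟩ := h3
  rcases sz with ⟨j, sz⟩ | ⟨j, sz⟩
  · have e1 := fst_up h hxu sx
    have e2 := fst_up h hzu sz
    have e3 : i = j := Option.some.inj (e1.symm.trans e2)
    subst e3
    exact up3 h hb hx hy hz (Or.inl sx) (Or.inl sy) (Or.inl sz)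
  · by_cases hij : i = j
    · subst hij
      exact up3 h hb hx hy hz (Or.inl sx) (Or.inl sy) (Or.inr sz)
    · exfalso
      have a1 := fst_up h hxu sx
      have a2 := snd_up h hzu sz
      have b1 := fst_up h hyv sy
      have b2 := snd_up h hzv sz
      have hij' : some i ≠ some j := fun e => hij (Option.some.inj e)
      have c1 : K2 z = K2 u := h.K2mono z u j hzu (by rw [sz]) (by rw [sz]; simp)
        (by rw [a1]; exact hij')
      have c2 : K2 z = K2 v := h.K2mono z v j hzv (by rw [sz]) (by rw [sz]; simp)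
        (by rw [b1]; exact hij')
      have c3 : K1 u = K1 v := (h.A7 u v i j (Prod.ext a1 a2) (Prod.ext b1 b2) hij).2
        (c1.symm.trans c2)
      have c4 : K1 x = K1 u := h.K1mono x u i hxu (by rw [sx]) (by rw [sx]; simp)
        (by rw [a2]; exact hij'.symm)
      have c5 : K1 y = K1 v := h.K1mono y v i hyv (by rw [sy]) (by rw [sy]; simp)
        (by rw [b2]; exact hij'.symm)
      exact hxy (h.A2a b x y i hx hy sx sy (c4.trans (c3.trans c5.symm)))

private theorem core2 (h : TPP X T st k1 k2 K1 K2 phi G A L1 L2) {b x y z : V} {i : ι}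
    (hb : st b = (none, none)) (hx : b ≤ x) (hy : b ≤ y) (hz : b ≤ z) (hxy : x ≠ y)
    (sx : st x = (none, some i)) (sy : st y = (none, some i))
    (sz : (∃ j, st z = (some j, none)) ∨ ∃ j, st z = (none, some j))
    (h2 : ∃ u, y ≤ u ∧ z ≤ u) (h3 : ∃ u, x ≤ u ∧ z ≤ u) : ∃ u, x ≤ u ∧ y ≤ u ∧ z ≤ u := by
  obtain ⟨v, hyv, hzv⟩ := h2
  obtain ⟨u, hxu, hzu⟩ := h3
  rcases sz with ⟨j, sz⟩ | ⟨j, sz⟩
  · by_cases hij : i = j
    · subst hij
      exact up3 h hb hx hy hz (Or.inr sx) (Or.inr sy) (Or.inl sz)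
    · exfalso
      have a1 := snd_up h hxu sx
      have a2 := fst_up h hzu sz
      have b1 := snd_up h hyv sy
      have b2 := fst_up h hzv sz
      have hij' : some i ≠ some j := fun e => hij (Option.some.inj e)
      have c1 : K1 z = K1 u := h.K1mono z u j hzu (by rw [sz]) (by rw [sz]; simp)
        (by rw [a1]; exact hij')
      have c2 : K1 z = K1 v := h.K1mono z v j hzv (by rw [sz]) (by rw [sz]; simp)
        (by rw [b1]; exact hij')
      have c3 : K2 u = K2 v := (h.A7 u v j i (Prod.ext a2 a1) (Prod.ext b2 b1)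
        (Ne.symm hij)).1 (c1.symm.trans c2)
      have c4 : K2 x = K2 u := h.K2mono x u i hxu (by rw [sx]) (by rw [sx]; simp)
        (by rw [a2]; exact hij'.symm)
      have c5 : K2 y = K2 v := h.K2mono y v i hyv (by rw [sy]) (by rw [sy]; simp)
        (by rw [b2]; exact hij'.symm)
      exact hxy (h.A2b b x y i hx hy sx sy (c4.trans (c3.trans c5.symm)))
  · have e1 := snd_up h hxu sx
    have e2 := snd_up h hzu sz
    have e3 : i = j := Option.some.inj (e1.symm.trans e2)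
    subst e3
    exact up3 h hb hx hy hz (Or.inr sx) (Or.inr sy) (Or.inr sz)

/-- two of the three elements have the same moving particle -/
private theorem pair1 (h : TPP X T st k1 k2 K1 K2 phi G A L1 L2) {b x y z : V}
    (hb : st b = (none, none)) (hx : b ≤ x) (hy : b ≤ y) (hz : b ≤ z) (hxy : x ≠ y)
    (sx : ∃ j, st x = (some j, none)) (sy : ∃ j, st y = (some j, none))
    (sz : (∃ j, st z = (some j, none)) ∨ ∃ j, st z = (none, some j))
    (h1 : ∃ u, x ≤ u ∧ y ≤ u)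
    (h2 : ∃ u, y ≤ u ∧ z ≤ u) (h3 : ∃ u, x ≤ u ∧ z ≤ u) : ∃ u, x ≤ u ∧ y ≤ u ∧ z ≤ u := by
  obtain ⟨i, sx⟩ := sx
  obtain ⟨j, sy⟩ := sy
  obtain ⟨u, hxu, hyu⟩ := h1
  have e3 : i = j := Option.some.inj ((fst_up h hxu sx).symm.trans (fst_up h hyu sy))
  subst e3
  exact core1 h hb hx hy hz hxy sx sy sz h2 h3

private theorem pair2 (h : TPP X T st k1 k2 K1 K2 phi G A L1 L2) {b x y z : V}
    (hb : st b = (none, none)) (hx : b ≤ x) (hy : b ≤ y) (hz : b ≤ z) (hxy : x ≠ y)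
    (sx : ∃ j, st x = (none, some j)) (sy : ∃ j, st y = (none, some j))
    (sz : (∃ j, st z = (some j, none)) ∨ ∃ j, st z = (none, some j))
    (h1 : ∃ u, x ≤ u ∧ y ≤ u)
    (h2 : ∃ u, y ≤ u ∧ z ≤ u) (h3 : ∃ u, x ≤ u ∧ z ≤ u) : ∃ u, x ≤ u ∧ y ≤ u ∧ z ≤ u := by
  obtain ⟨i, sx⟩ := sx
  obtain ⟨j, sy⟩ := sy
  obtain ⟨u, hxu, hyu⟩ := h1
  have e3 : i = j := Option.some.inj ((snd_up h hxu sx).symm.trans (snd_up h hyu sy))
  subst e3
  exact core2 h hb hx hy hz hxy sx sy sz h2 h3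

theorem TPP.flUp (h : TPP X T st k1 k2 K1 K2 phi G A L1 L2) {b x y z : V} (hx : b ≤ x)
    (hy : b ≤ y) (hz : b ≤ z) (h1 : ∃ u, x ≤ u ∧ y ≤ u) (h2 : ∃ u, y ≤ u ∧ z ≤ u)
    (h3 : ∃ u, x ≤ u ∧ z ≤ u) : ∃ u, x ≤ u ∧ y ≤ u ∧ z ≤ u := by
  by_cases c1 : x ≤ y
  · obtain ⟨u, hu, hu'⟩ := h2
    exact ⟨u, c1.trans hu, hu, hu'⟩
  by_cases c2 : y ≤ x
  · obtain ⟨u, hu, hu'⟩ := h3
    exact ⟨u, hu, c2.trans hu, hu'⟩
  by_cases c3 : y ≤ z
  · obtain ⟨u, hu, hu'⟩ := h3
    exact ⟨u, hu, c3.trans hu', hu'⟩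
  by_cases c4 : z ≤ y
  · obtain ⟨u, hu, hu'⟩ := h1
    exact ⟨u, hu, hu', c4.trans hu'⟩
  by_cases c5 : x ≤ z
  · obtain ⟨u, hu, hu'⟩ := h2
    exact ⟨u, c5.trans hu', hu, hu'⟩
  by_cases c6 : z ≤ x
  · obtain ⟨u, hu, hu'⟩ := h1
    exact ⟨u, hu, hu', c6.trans hu⟩
  have lt1 : b < x := lt_of_le_of_ne hx (fun e => c1 (e ▸ hy))
  have lt2 : b < y := lt_of_le_of_ne hy (fun e => c2 (e ▸ hx))
  have lt3 : b < z := lt_of_le_of_ne hz (fun e => c4 (e ▸ hy))
  have r1 : rkS (st b) = 0 ∧ rkS (st x) = 1 := by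
    obtain ⟨u, hu, hu'⟩ := h1
    have := ranks h lt1 (lt_of_le_of_ne hu (fun e => c2 (e ▸ hu')))
    exact ⟨this.1, this.2.1⟩
  have r2 : rkS (st y) = 1 := by
    obtain ⟨u, hu, hu'⟩ := h1
    exact (ranks h lt2 (lt_of_le_of_ne hu' (fun e => c1 (e ▸ hu)))).2.1
  have r3 : rkS (st z) = 1 := by
    obtain ⟨u, hu, hu'⟩ := h2
    exact (ranks h lt3 (lt_of_le_of_ne hu' (fun e => c3 (e ▸ hu)))).2.1
  have hb := rk0 r1.1
  have sx := rk1 r1.2
  have sy := rk1 r2
  have sz := rk1 r3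
  have nxy : x ≠ y := fun e => c1 e.le
  have nyz : y ≠ z := fun e => c3 e.le
  have nxz : x ≠ z := fun e => c5 e.le
  have sw : ∀ {p q : V}, (∃ u, p ≤ u ∧ q ≤ u) → ∃ u, q ≤ u ∧ p ≤ u :=
    fun ⟨u, a, b⟩ => ⟨u, b, a⟩
  rcases sx with tx | tx <;> rcases sy with ty | ty
  · exact pair1 h hb hx hy hz nxy tx ty sz h1 h2 h3
  · rcases sz with tz | tz
    · obtain ⟨u, a1, a2, a3⟩ := pair1 h hb hx hz hy nxz tx tz (Or.inr ty) h3 (sw h2) h1
      exact ⟨u, a1, a3, a2⟩
    · obtain ⟨u, a1, a2, a3⟩ := pair2 h hb hy hz hx nyz ty tz (Or.inl tx) h2 (sw h3) (sw h1)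
      exact ⟨u, a3, a1, a2⟩
  · rcases sz with tz | tz
    · obtain ⟨u, a1, a2, a3⟩ := pair1 h hb hy hz hx nyz ty tz (Or.inr tx) h2 (sw h3) (sw h1)
      exact ⟨u, a3, a1, a2⟩
    · obtain ⟨u, a1, a2, a3⟩ := pair2 h hb hx hz hy nxz tx tz (Or.inl ty) h3 (sw h2) h1
      exact ⟨u, a1, a3, a2⟩
  · exact pair2 h hb hx hy hz nxy tx ty sz h1 h2 h3

/-- the time and the vertex of an element of state `(i,none)` or `(none,i)` -/
private def Dat (st : V → St ι) (K1 K2 : V → ℤ) (L1 L2 : ∀ i, V → T i) (i : ι) (v : V) (k : ℤ)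
    (l : T i) : Prop :=
  (st v = (some i, none) ∧ k = K1 v ∧ l = L1 i v) ∨ (st v = (none, some i) ∧ k = K2 v ∧ l = L2 i v)

private theorem dat_line (h : TPP X T st k1 k2 K1 K2 phi G A L1 L2) {i : ι} {v b : V} {k : ℤ}
    {l : T i} (hd : Dat st K1 K2 L1 L2 i v k l) (hb : b ≤ v) (sb : st b = (none, none)) :
    A i (phi i b) k = l := by
  rcases hd with ⟨sv, rfl, rfl⟩ | ⟨sv, rfl, rfl⟩
  · exact h.A6a b v i hb sb (by rw [sv]) (by rw [sv]; simp)
  · exact h.A6b b v i hb sb (by rw [sv]) (by rw [sv]; simp)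

private theorem dat_inj (h : TPP X T st k1 k2 K1 K2 phi G A L1 L2) {i : ι} {v v' b : V} {k : ℤ}
    {l l' : T i} (hd : Dat st K1 K2 L1 L2 i v k l) (hd' : Dat st K1 K2 L1 L2 i v' k l')
    (hb : b ≤ v) (hb' : b ≤ v') : v = v' := by
  rcases hd with ⟨sv, e, -⟩ | ⟨sv, e, -⟩ <;> rcases hd' with ⟨sv', e', -⟩ | ⟨sv', e', -⟩
  · exact h.A2a b v v' i hb hb' sv sv' (e.symm.trans e')
  · exfalso
    have a1 := h.K1odd v i (by rw [sv]) (by rw [sv]; simp)
    have a2 := h.K2even v' i (by rw [sv']) (by rw [sv']; simp)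
    rw [← e] at a1
    rw [← e'] at a2
    exact (Int.not_even_iff_odd.2 a1) a2
  · exfalso
    have a1 := h.K2even v i (by rw [sv]) (by rw [sv]; simp)
    have a2 := h.K1odd v' i (by rw [sv']) (by rw [sv']; simp)
    rw [← e] at a1
    rw [← e'] at a2
    exact (Int.not_even_iff_odd.2 a2) a1
  · exact h.A2b b v v' i hb hb' sv sv' (e.symm.trans e')

private theorem dn_core (h : TPP X T st k1 k2 K1 K2 phi G A L1 L2) {u x y z b1 b2 b3 : V} {i : ι}
    {kx ky kz : ℤ} {lx ly lz : T i} (su : st u = (some i, some i)) (hx : x ≤ u)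
    (dx : Dat st K1 K2 L1 L2 i x kx lx) (dy : Dat st K1 K2 L1 L2 i y ky ly)
    (dz : Dat st K1 K2 L1 L2 i z kz lz) (hxy : kx < ky) (hyz : ky < kz)
    (s1 : st b1 = (none, none)) (s2 : st b2 = (none, none)) (s3 : st b3 = (none, none))
    (h1x : b1 ≤ x) (h1y : b1 ≤ y) (h2y : b2 ≤ y) (h2z : b2 ≤ z) (h3x : b3 ≤ x) (h3z : b3 ≤ z) :
    ∃ b, b ≤ x ∧ b ≤ y ∧ b ≤ z := by
  have e1 := dat_line h dx h1x s1
  have e2 := dat_line h dx h3x s3
  have e3 := dat_line h dy h1y s1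
  have e4 := dat_line h dy h2y s2
  have e5 := dat_line h dz h3z s3
  have e6 := dat_line h dz h2z s2
  have e7 := line_mid (h.acyc i) (h.line i (phi i b1)) (h.line i (phi i b3)) (h.line i (phi i b2))
    hxy hyz (e1.trans e2.symm) (e3.trans e4.symm) (e5.trans e6.symm)
  have e8 : phi i b1 = phi i b3 := h.cl4 i (ne_of_lt hxy) (e1.trans e2.symm) e7.symm
  have e9 : b1 = b3 := h.A5b b1 b3 u i (h1x.trans hx) (h3x.trans hx) s1 s3 su e8
  subst e9
  exact ⟨b1, h1x, h1y, h3z⟩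

theorem TPP.flDn (h : TPP X T st k1 k2 K1 K2 phi G A L1 L2) {u x y z : V} (hx : x ≤ u)
    (hy : y ≤ u) (hz : z ≤ u) (h1 : ∃ b, b ≤ x ∧ b ≤ y) (h2 : ∃ b, b ≤ y ∧ b ≤ z)
    (h3 : ∃ b, b ≤ x ∧ b ≤ z) : ∃ b, b ≤ x ∧ b ≤ y ∧ b ≤ z := by
  by_cases c1 : x ≤ y
  · obtain ⟨b, hb, hb'⟩ := h3
    exact ⟨b, hb, hb.trans c1, hb'⟩
  by_cases c2 : y ≤ x
  · obtain ⟨b, hb, hb'⟩ := h2
    exact ⟨b, hb.trans c2, hb, hb'⟩
  by_cases c3 : y ≤ z
  · obtain ⟨b, hb, hb'⟩ := h1
    exact ⟨b, hb, hb', hb'.trans c3⟩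
  by_cases c4 : z ≤ y
  · obtain ⟨b, hb, hb'⟩ := h3
    exact ⟨b, hb, hb'.trans c4, hb'⟩
  by_cases c5 : x ≤ z
  · obtain ⟨b, hb, hb'⟩ := h1
    exact ⟨b, hb, hb', hb.trans c5⟩
  by_cases c6 : z ≤ x
  · obtain ⟨b, hb, hb'⟩ := h2
    exact ⟨b, hb'.trans c6, hb, hb'⟩
  have lt1 : x < u := lt_of_le_of_ne hx (fun e => c2 (e ▸ hy))
  have lt2 : y < u := lt_of_le_of_ne hy (fun e => c1 (e ▸ hx))
  have lt3 : z < u := lt_of_le_of_ne hz (fun e => c3 (e ▸ hy))
  obtain ⟨b1, h1x, h1y⟩ := h1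
  obtain ⟨b2, h2y, h2z⟩ := h2
  obtain ⟨b3, h3x, h3z⟩ := h3
  have r1 := ranks h (lt_of_le_of_ne h1x (fun e => c1 (e ▸ h1y))) lt1
  have r2 := ranks h (lt_of_le_of_ne h2y (fun e => c3 (e ▸ h2z))) lt2
  have r3 := ranks h (lt_of_le_of_ne h3z (fun e => c6 (e ▸ h3x))) lt3
  have s1 := rk0 r1.1
  have s2 := rk0 r2.1
  have s3 := rk0 r3.1
  have sx := rk1 r1.2.1
  have sy := rk1 r2.2.1
  have sz := rk1 r3.2.1
  obtain ⟨i, j, su⟩ := rk2 r1.2.2
  have nxy : x ≠ y := fun e => c1 e.le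
  have nyz : y ≠ z := fun e => c3 e.le
  have nxz : x ≠ z := fun e => c5 e.le
  have t1 : ∀ {v : V}, v ≤ u → ((∃ i, st v = (some i, none)) ∨ ∃ j, st v = (none, some j)) →
      st v = (some i, none) ∨ st v = (none, some j) := by
    intro v hv hs
    rcases hs with ⟨k, hk⟩ | ⟨k, hk⟩
    · left
      have e := fst_up h hv hk
      rw [su] at e
      have e' : i = k := Option.some.inj e
      rw [hk, e']
    · right
      have e := snd_up h hv hk
      rw [su] at e
      have e' : j = k := Option.some.inj e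
      rw [hk, e']
  have sx := t1 hx sx
  have sy := t1 hy sy
  have sz := t1 hz sz
  by_cases hij : i = j
  · subst hij
    have hd : ∀ {v : V}, (st v = (some i, none) ∨ st v = (none, some i)) →
        ∃ k l, Dat st K1 K2 L1 L2 i v k l := by
      intro v hv
      rcases hv with hv | hv
      · exact ⟨K1 v, L1 i v, Or.inl ⟨hv, rfl, rfl⟩⟩
      · exact ⟨K2 v, L2 i v, Or.inr ⟨hv, rfl, rfl⟩⟩
    obtain ⟨kx, lx, dx⟩ := hd sx
    obtain ⟨ky, ly, dy⟩ := hd sy
    obtain ⟨kz, lz, dz⟩ := hd sz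
    have q1 : kx ≠ ky := by
      rintro rfl
      exact nxy (dat_inj h dx dy h1x h1y)
    have q2 : ky ≠ kz := by
      rintro rfl
      exact nyz (dat_inj h dy dz h2y h2z)
    have q3 : kx ≠ kz := by
      rintro rfl
      exact nxz (dat_inj h dx dz h3x h3z)
    rcases lt_or_gt_of_ne q1 with p1 | p1 <;> rcases lt_or_gt_of_ne q2 with p2 | p2
    · exact dn_core h su hx dx dy dz p1 p2 s1 s2 s3 h1x h1y h2y h2z h3x h3z
    · rcases lt_or_gt_of_ne q3 with p3 | p3
      · -- kx < kz < ky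
        obtain ⟨b, e1, e2, e3⟩ := dn_core h su hx dx dz dy p3 p2 s3 s2 s1 h3x h3z h2z h2y h1x h1y
        exact ⟨b, e1, e3, e2⟩
      · -- kz < kx < ky
        obtain ⟨b, e1, e2, e3⟩ := dn_core h su hz dz dx dy p3 p1 s3 s1 s2 h3z h3x h1x h1y h2z h2y
        exact ⟨b, e2, e3, e1⟩
    · rcases lt_or_gt_of_ne q3 with p3 | p3
      · -- ky < kx < kz
        obtain ⟨b, e1, e2, e3⟩ := dn_core h su hy dy dx dz p1 p3 s1 s3 s2 h1y h1x h3x h3z h2y h2z
        exact ⟨b, e2, e1, e3⟩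
      · -- ky < kz < kx
        obtain ⟨b, e1, e2, e3⟩ := dn_core h su hy dy dz dx p2 p3 s2 s3 s1 h2y h2z h3z h3x h1y h1x
        exact ⟨b, e3, e1, e2⟩
    · -- kz < ky < kx
      obtain ⟨b, e1, e2, e3⟩ := dn_core h su hz dz dy dx p2 p1 s2 s1 s3 h2z h2y h1y h1x h3z h3x
      exact ⟨b, e3, e2, e1⟩
  · exfalso
    have hij' : some i ≠ some j := fun e => hij (Option.some.inj e)
    have f1 : ∀ {v w b : V}, v ≤ u → w ≤ u → b ≤ v → b ≤ w → st v = (some i, none) →
        st w = (some i, none) → v = w := by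
      intro v w b hv hw hbv hbw sv sw
      have c4 : K1 v = K1 u := h.K1mono v u i hv (by rw [sv]) (by rw [sv]; simp)
        (by rw [su]; exact hij'.symm)
      have c5 : K1 w = K1 u := h.K1mono w u i hw (by rw [sw]) (by rw [sw]; simp)
        (by rw [su]; exact hij'.symm)
      exact h.A2a b v w i hbv hbw sv sw (c4.trans c5.symm)
    have f2 : ∀ {v w b : V}, v ≤ u → w ≤ u → b ≤ v → b ≤ w → st v = (none, some j) →
        st w = (none, some j) → v = w := by
      intro v w b hv hw hbv hbw sv sw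
      have c4 : K2 v = K2 u := h.K2mono v u j hv (by rw [sv]) (by rw [sv]; simp)
        (by rw [su]; exact hij')
      have c5 : K2 w = K2 u := h.K2mono w u j hw (by rw [sw]) (by rw [sw]; simp)
        (by rw [su]; exact hij')
      exact h.A2b b v w j hbv hbw sv sw (c4.trans c5.symm)
    rcases sx with tx | tx <;> rcases sy with ty | ty
    · exact nxy (f1 hx hy h1x h1y tx ty)
    · rcases sz with tz | tz
      · exact nxz (f1 hx hz h3x h3z tx tz)
      · exact nyz (f2 hy hz h2y h2z ty tz)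
    · rcases sz with tz | tz
      · exact nyz (f1 hy hz h2y h2z ty tz)
      · exact nxz (f2 hx hz h3x h3z tx tz)
    · exact nxy (f2 hx hy h1x h1y tx ty)

end ASP87
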