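import Pool.Agent.ASP87.TPP

/-!
# ASP87/TPPMid: the middle property

`a, a' <= u, u'` implies that some `j` has `a, a' <= j <= u, u'`.
If `a <= a'` take `j = a'`; if `u <= u'` take `j = u` (and symmetric). So let `a, a'` be incomparable and
`u, u'` incomparable (then all four are different, `a, a' < u, u'`, ranks of `a, a'` are 0 or 1, those of
`u, u'` 1 or 2). Write states as `00, i0, 0j, ij`. `S` = the abbreviation 'contradiction'.
By the symmetry exchanging the two particles only one version of each case is written; prove a lemma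
for each case and its mirror image.

RANKS OF u, u' BOTH 2.
(C) `st u = st u' = (i,i)`: A2d with v = a: u = u', S.
(C') `st u = st u' = (i,j)`, `i <> j`. If `K1 u = K1 u'`: A2c, S. So `K1 u <> K1 u'`, and by A7
  `K2 u <> K2 u'`. If `st a = i0`: `K1 a = K1 u`, `K1 a = K1 u'` (K1mono), S; if `st a = 0j`: same with K2, S.
  So `a`, `a'` have state 00. cl4a (petal i): `phi i a = phi i a'`; A5c: `k1 a i = k1 a' i`. cl4b (petal j):
  `phi j a = phi j a'`, `k2 a j = k2 a' j`. A4 for `u`: `a = a'`, S.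
(D) `st u = (i,j)`, `st u' = (i,j')`, `j <> j'`, `i <> j`, `i <> j'`. The states of `a, a'` are 00 or i0
  (below both: `StLe`). If `K1 u = K1 u'`: let `w_a` be `a` if `st a = i0`, else the element with
  `a <= w_a <= u`, `st w_a = i0` (A1a); in the second case also `a <= w' <= u'`, `st w' = i0`, and
  `K1 w_a = K1 u = K1 u' = K1 w'` (K1mono), so `w_a = w'` by A2a; so `w_a <= u, u'`. The same for `a'`:
  `w_a'`. `k2 w_a j = k2 u' j = k2 w_a' j` (k2mono, `(st u').2 = some j' <> some j`). A4 for `w_a, w_a' <= u`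
  (first coordinate: both `some i`, no condition): `w_a = w_a'`: take `j := w_a`.
  If `K1 u <> K1 u'`: `st a = i0` is impossible (K1mono twice), so both 00; cl4a: `phi i a = phi i a'`, so
  `k1 a i = k1 a' i`; `k2 a j = k2 u' j = k2 a' j`; A4 for u: `a = a'`, S.
(B) `st u = (i,i)`, `st u' = (i,j')`, `j' <> i`. States of `a, a'`: 00 or i0. `w_a` = `a` if `st a = i0`, else
  `a <= w_a <= u'` with `st w_a = i0` (A1a for u'). A3: there is `u1 >= w_a` with state (i,i); `a <= u1` and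
  `a <= u`, so `u1 = u` by A2d; so `w_a <= u, u'`. Same for `a'`. `k2 w_a j' = k2 u j' = k2 w_a' j'`
  (`(st u).2 = some i <> some j'`). A4 for `w_a, w_a' <= u'`: equal. Take `j := w_a`.
(E) `st u = (i,j)`, `st u' = (i',j')`, `i <> i'`, `j <> j'`: `a, a'` have state 00. If `i <> j`:
  `k1 a i = k1 u' i = k1 a' i`, `k2 a j = k2 u' j = k2 a' j`, A4 for u: S. If `i' <> j'`: the same for u'. If
  `i = j` and `i' = j'`: A5a with `x = u'` and petal `i`: `phi i a = phi i a'`; A5b for u: S.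
(D), (B) mirrored: `st u = (i,j)`, `st u' = (i',j)`.
All pairs of states of rank 2 are covered: equal (C, C'), same first coordinate (D if both are not
diagonal, B if one is), same second coordinate (mirror), both different (E).

ONE OF RANK 1 (say `u'`; if `u` has rank 1 and `u'` rank 2 exchange them). Then `a, a'` have rank 0: state 00
(`a < u'`).
(F1) `st u = i0`, `st u' = i'0`. `i <> i'`: `k1 a i = k1 u' i = k1 a' i` (`(st u').1 = some i'`), A4 for u: S.
  `i = i'`: if `K1 u = K1 u'`: A2a, S; else cl4a: `phi i a = phi i a'`, `k1 a i = k1 a' i`, A4: S.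
(F2) `st u = 0j`, `st u' = i0`: `k1 a i = k1 u i = k1 a' i` (`(st u).1 = none`), A4 for u': S.
(F3) `st u = (i,j)`, `i <> j`, `st u' = i'0`. If `i' <> i`: `k1 a i = k1 u' i`, `k2 a j = k2 u' j`
  (`(st u').2 = none`), the same for `a'`: A4 for u: S. If `i' = i`: if `K1 u' = K1 u`: A1a gives
  `a <= w <= u`, `st w = i0`, `K1 w = K1 u = K1 u'`, A2a: `w = u'`, so `u' <= u`, S. If different: cl4a:
  `k1 a i = k1 a' i`; `k2 a j = k2 u' j = k2 a' j`; A4 for u: S.
(F4) `st u = (i,i)`, `st u' = i'0`. `i' = i`: A3 for `u'`: `u1 >= u'` of state (i,i); `a <= u1, u`: A2d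
  `u1 = u`, so `u' <= u`, S. `i' <> i`: A5a with `x = u'`, petal i; A5b: S.
Mirrors of F1-F4 with `u'` of state `0j'`.
-/

namespace ASP87

variable {ι V : Type*} [PartialOrder V] {X T : ι → Type*} {st : V → St ι}
  {k1 k2 : V → ι → ℂ} {K1 K2 : V → ℤ} {phi : ∀ i, V → X i} {G : ∀ i, SimpleGraph (T i)}
  {A : ∀ i, X i → ℤ → T i} {L1 L2 : ∀ i, V → T i}

/-- the facts used below, in a form which is symmetric in the two particles -/
private structure Sy (p q : V → Option ι) (k1 k2 : V → ι → ℂ) (K1 K2 : V → ℤ)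
    (phi : ∀ i, V → X i) : Prop where
  m1 : ∀ v w, v ≤ w → p v = none ∨ p v = p w
  m2 : ∀ v w, v ≤ w → q v = none ∨ q v = q w
  strict : ∀ v w, v ≤ w → p v = p w → q v = q w → v = w
  k1mono : ∀ v w, v ≤ w → ∀ m, p w ≠ some m → k1 v m = k1 w m
  k2mono : ∀ v w, v ≤ w → ∀ m, q w ≠ some m → k2 v m = k2 w m
  K1mono : ∀ v w i, v ≤ w → p v = some i → q v ≠ some i → q w ≠ some i → K1 v = K1 w
  K2mono : ∀ v w i, v ≤ w → q v = some i → p v ≠ some i → p w ≠ some i → K2 v = K2 w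
  A1a : ∀ v u i j, v ≤ u → p v = none → q v = none → p u = some i → q u = some j → i ≠ j →
    ∃ w, v ≤ w ∧ w ≤ u ∧ p w = some i ∧ q w = none
  A1b : ∀ v u i j, v ≤ u → q v = none → p v = none → q u = some i → p u = some j → i ≠ j →
    ∃ w, v ≤ w ∧ w ≤ u ∧ q w = some i ∧ p w = none
  A2a : ∀ v w w' i, v ≤ w → v ≤ w' → p w = some i → q w = none → p w' = some i → q w' = none →
    K1 w = K1 w' → w = w'
  A2b : ∀ v w w' i, v ≤ w → v ≤ w' → q w = some i → p w = none → q w' = some i → p w' = none →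
    K2 w = K2 w' → w = w'
  A2c : ∀ v w w' i j, v ≤ w → v ≤ w' → p w = some i → q w = some j → p w' = some i →
    q w' = some j → i ≠ j → K1 w = K1 w' → w = w'
  A2c' : ∀ v w w' i j, v ≤ w → v ≤ w' → q w = some i → p w = some j → q w' = some i →
    p w' = some j → i ≠ j → K2 w = K2 w' → w = w'
  A2d : ∀ v w w' i, v ≤ w → v ≤ w' → (p v = some i → q v = some i → False) → p w = some i →
    q w = some i → p w' = some i → q w' = some i → w = w'
  A3 : ∀ v i, p v = some i → q v = none → ∃ u, v ≤ u ∧ p u = some i ∧ q u = some i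
  A3' : ∀ v i, q v = some i → p v = none → ∃ u, v ≤ u ∧ q u = some i ∧ p u = some i
  A4 : ∀ v v' u, v ≤ u → v' ≤ u → p v = p v' → q v = q v' →
    (∀ i, p u = some i → q u = some i → False) →
    (∀ i, p u = some i → p v = none → k1 v i = k1 v' i) →
    (∀ j, q u = some j → q v = none → k2 v j = k2 v' j) → v = v'
  A5a : ∀ v v' x i, v ≤ x → v' ≤ x → p v = none → q v = none → p v' = none → q v' = none →
    p x ≠ some i → q x ≠ some i → phi i v = phi i v'
  A5b : ∀ v v' u i, v ≤ u → v' ≤ u → p v = none → q v = none → p v' = none → q v' = none →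
    p u = some i → q u = some i → phi i v = phi i v' → v = v'
  A5c : ∀ v v' i, p v = none → q v = none → p v' = none → q v' = none → phi i v = phi i v' →
    k1 v i = k1 v' i
  A5c' : ∀ v v' i, q v = none → p v = none → q v' = none → p v' = none → phi i v = phi i v' →
    k2 v i = k2 v' i
  A7 : ∀ u u' i j, p u = some i → q u = some j → p u' = some i → q u' = some j → i ≠ j →
    (K1 u = K1 u' ↔ K2 u = K2 u')
  c4a : ∀ a a' u u' i, p a = none → q a = none → p a' = none → q a' = none → a ≤ u → a ≤ u' →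
    a' ≤ u → a' ≤ u' → p u = some i → q u ≠ some i → p u' = some i → q u' ≠ some i →
    K1 u ≠ K1 u' → phi i a = phi i a'
  c4b : ∀ a a' u u' i, q a = none → p a = none → q a' = none → p a' = none → a ≤ u → a ≤ u' →
    a' ≤ u → a' ≤ u' → q u = some i → p u ≠ some i → q u' = some i → p u' ≠ some i →
    K2 u ≠ K2 u' → phi i a = phi i a'

variable {p q : V → Option ι}

private theorem Sy.swap (h : Sy p q k1 k2 K1 K2 phi) : Sy q p k2 k1 K2 K1 phi where
  m1 := h.m2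
  m2 := h.m1
  strict := fun v w h1 h2 h3 => h.strict v w h1 h3 h2
  k1mono := h.k2mono
  k2mono := h.k1mono
  K1mono := h.K2mono
  K2mono := h.K1mono
  A1a := h.A1b
  A1b := h.A1a
  A2a := h.A2b
  A2b := h.A2a
  A2c := h.A2c'
  A2c' := h.A2c
  A2d := fun v w w' i h1 h2 h3 h4 h5 h6 h7 =>
    h.A2d v w w' i h1 h2 (fun e1 e2 => h3 e2 e1) h5 h4 h7 h6
  A3 := h.A3'
  A3' := h.A3
  A4 := fun v v' u h1 h2 h3 h4 h5 h6 h7 =>
    h.A4 v v' u h1 h2 h4 h3 (fun i e1 e2 => h5 i e2 e1) h7 h6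
  A5a := fun v v' x i h1 h2 h3 h4 h5 h6 h7 h8 => h.A5a v v' x i h1 h2 h4 h3 h6 h5 h8 h7
  A5b := fun v v' x i h1 h2 h3 h4 h5 h6 h7 h8 h9 => h.A5b v v' x i h1 h2 h4 h3 h6 h5 h8 h7 h9
  A5c := h.A5c'
  A5c' := h.A5c
  A7 := fun u u' i j h1 h2 h3 h4 h5 => (h.A7 u u' j i h2 h1 h4 h3 h5.symm).symm
  c4a := h.c4b
  c4b := h.c4a

private structure Sq (a a' u u' : V) : Prop where
  h1 : a ≤ u
  h2 : a ≤ u'
  h3 : a' ≤ u
  h4 : a' ≤ u'
  n1 : ¬ a ≤ a'
  n2 : ¬ a' ≤ a
  n3 : ¬ u ≤ u'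
  n4 : ¬ u' ≤ u

private theorem Sq.fu {a a' u u' : V} (s : Sq a a' u u') : Sq a a' u' u :=
  ⟨s.h2, s.h1, s.h4, s.h3, s.n1, s.n2, s.n4, s.n3⟩

private theorem Sq.fa {a a' u u' : V} (s : Sq a a' u u') : Sq a' a u u' :=
  ⟨s.h3, s.h4, s.h1, s.h2, s.n2, s.n1, s.n3, s.n4⟩

private theorem Sq.au {a a' u u' : V} (s : Sq a a' u u') : a ≠ u := by
  rintro rfl
  exact s.n2 s.h3

private theorem Sq.na {a a' u u' : V} (s : Sq a a' u u') : a ≠ a' := fun h => s.n1 h.le

private theorem Sq.nu {a a' u u' : V} (s : Sq a a' u u') : u ≠ u' := fun h => s.n3 h.le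

variable {a a' u u' : V}

private theorem opt_both {x : Option ι} {i j : ι} (hij : i ≠ j) (h1 : x = none ∨ x = some i)
    (h2 : x = none ∨ x = some j) : x = none := by
  rcases h1 with h1 | h1
  · exact h1
  · rcases h2 with h2 | h2
    · exact h2
    · rw [h1] at h2
      exact absurd (Option.some_injective _ h2) hij

private theorem opt_none {x : Option ι} (h1 : x = none ∨ x = none) : x = none := by
  rcases h1 with h1 | h1 <;> exact h1

private theorem caseC (h : Sy p q k1 k2 K1 K2 phi) (s : Sq a a' u u') {i : ι}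
    (u1 : p u = some i) (u2 : q u = some i) (v1 : p u' = some i) (v2 : q u' = some i) : False := by
  refine s.nu (h.A2d a u u' i s.h1 s.h2 ?_ u1 u2 v1 v2)
  intro e1 e2
  exact s.au (h.strict a u s.h1 (by rw [e1, u1]) (by rw [e2, u2]))

private theorem caseC'_st (h : Sy p q k1 k2 K1 K2 phi) (s : Sq a a' u u') {i j : ι} (hij : i ≠ j)
    (u1 : p u = some i) (u2 : q u = some j) (v1 : p u' = some i) (v2 : q u' = some j)
    (hK1 : K1 u ≠ K1 u') (hK2 : K2 u ≠ K2 u') : p a = none ∧ q a = none := by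
  have e1 := h.m1 a u s.h1
  have e2 := h.m2 a u s.h1
  rw [u1] at e1
  rw [u2] at e2
  rcases e1 with e1 | e1
  · refine ⟨e1, ?_⟩
    rcases e2 with e2 | e2
    · exact e2
    · exfalso
      apply hK2
      have f1 := h.K2mono a u j s.h1 e2 (by rw [e1]; simp)
        (by rw [u1]; simpa using hij)
      have f2 := h.K2mono a u' j s.h2 e2 (by rw [e1]; simp)
        (by rw [v1]; simpa using hij)
      rw [← f1, f2]
  · exfalso
    rcases e2 with e2 | e2
    · apply hK1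
      have f1 := h.K1mono a u i s.h1 e1 (by rw [e2]; simp)
        (by rw [u2]; simpa using hij.symm)
      have f2 := h.K1mono a u' i s.h2 e1 (by rw [e2]; simp)
        (by rw [v2]; simpa using hij.symm)
      rw [← f1, f2]
    · exact s.au (h.strict a u s.h1 (by rw [e1, u1]) (by rw [e2, u2]))

private theorem caseC' (h : Sy p q k1 k2 K1 K2 phi) (s : Sq a a' u u') {i j : ι} (hij : i ≠ j)
    (u1 : p u = some i) (u2 : q u = some j) (v1 : p u' = some i) (v2 : q u' = some j) :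
    False := by
  have hK1 : K1 u ≠ K1 u' := fun e => s.nu (h.A2c a u u' i j s.h1 s.h2 u1 u2 v1 v2 hij e)
  have hK2 : K2 u ≠ K2 u' := fun e => hK1 ((h.A7 u u' i j u1 u2 v1 v2 hij).2 e)
  obtain ⟨a1, a2⟩ := caseC'_st h s hij u1 u2 v1 v2 hK1 hK2
  obtain ⟨b1, b2⟩ := caseC'_st h s.fa hij u1 u2 v1 v2 hK1 hK2
  have hij' : (some j : Option ι) ≠ some i := by simpa using hij.symm
  have hij'' : (some i : Option ι) ≠ some j := by simpa using hij
  have c1 := h.c4a a a' u u' i a1 a2 b1 b2 s.h1 s.h2 s.h3 s.h4 u1 (by rw [u2]; exact hij') v1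
    (by rw [v2]; exact hij') hK1
  have c2 := h.c4b a a' u u' j a2 a1 b2 b1 s.h1 s.h2 s.h3 s.h4 u2 (by rw [u1]; exact hij'') v2
    (by rw [v1]; exact hij'') hK2
  refine s.na (h.A4 a a' u s.h1 s.h3 (by rw [a1, b1]) (by rw [a2, b2]) ?_ ?_ ?_)
  · intro m e1 e2
    rw [u1] at e1
    rw [u2, ← e1] at e2
    exact hij' e2
  · intro m e1 _
    rw [u1] at e1
    obtain rfl := Option.some_injective _ e1
    exact h.A5c a a' i a1 a2 b1 b2 c1
  · intro m e1 _
    rw [u2] at e1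
    obtain rfl := Option.some_injective _ e1
    exact h.A5c' a a' j a2 a1 b2 b1 c2

/-- the element `w_a` in case (D), equal times -/
private theorem caseD_w (h : Sy p q k1 k2 K1 K2 phi) (s : Sq a a' u u') {i j j' : ι}
    (hjj : j ≠ j') (hij : i ≠ j) (hij' : i ≠ j')
    (u1 : p u = some i) (u2 : q u = some j) (v1 : p u' = some i) (v2 : q u' = some j')
    (hK : K1 u = K1 u') : ∃ w, a ≤ w ∧ w ≤ u ∧ w ≤ u' ∧ p w = some i ∧ q w = none := by
  have e1 := h.m1 a u s.h1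
  have e2 := h.m2 a u s.h1
  have e3 := h.m2 a u' s.h2
  rw [u1] at e1
  rw [u2] at e2
  rw [v2] at e3
  have e4 := opt_both hjj e2 e3
  have n1 : (some j : Option ι) ≠ some i := by simpa using hij.symm
  have n2 : (some j' : Option ι) ≠ some i := by simpa using hij'.symm
  rcases e1 with e1 | e1
  · obtain ⟨w, w1, w2, w3, w4⟩ := h.A1a a u i j s.h1 e1 e4 u1 u2 hij
    obtain ⟨w', w1', w2', w3', w4'⟩ := h.A1a a u' i j' s.h2 e1 e4 v1 v2 hij'
    have f1 := h.K1mono w u i w2 w3 (by rw [w4]; simp) (by rw [u2]; exact n1)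
    have f2 := h.K1mono w' u' i w2' w3' (by rw [w4']; simp) (by rw [v2]; exact n2)
    have f3 := h.A2a a w w' i w1 w1' w3 w4 w3' w4' (by rw [f1, f2, hK])
    exact ⟨w, w1, w2, f3 ▸ w2', w3, w4⟩
  · exact ⟨a, le_rfl, s.h1, s.h2, e1, e4⟩

private theorem caseD (h : Sy p q k1 k2 K1 K2 phi) (s : Sq a a' u u') {i j j' : ι}
    (hjj : j ≠ j') (hij : i ≠ j) (hij' : i ≠ j')
    (u1 : p u = some i) (u2 : q u = some j) (v1 : p u' = some i) (v2 : q u' = some j') :
    ∃ m, a ≤ m ∧ a' ≤ m ∧ m ≤ u ∧ m ≤ u' := by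
  have n1 : (some j : Option ι) ≠ some i := by simpa using hij.symm
  have n2 : (some j' : Option ι) ≠ some i := by simpa using hij'.symm
  have n3 : (some j' : Option ι) ≠ some j := by simpa using hjj.symm
  have hnd : ∀ m, p u = some m → q u = some m → False := by
    intro m e1 e2
    rw [u1] at e1
    rw [u2, ← e1] at e2
    exact n1 e2
  by_cases hK : K1 u = K1 u'
  · obtain ⟨w, w1, w2, w3, w4, w5⟩ := caseD_w h s hjj hij hij' u1 u2 v1 v2 hK
    obtain ⟨x, x1, x2, x3, x4, x5⟩ := caseD_w h s.fa hjj hij hij' u1 u2 v1 v2 hK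
    have e := h.A4 w x u w2 x2 (by rw [w4, x4]) (by rw [w5, x5]) hnd ?_ ?_
    · exact ⟨w, w1, e ▸ x1, w2, w3⟩
    · intro m _ e2
      rw [w4] at e2
      cases e2
    · intro m e1 _
      rw [u2] at e1
      obtain rfl := Option.some_injective _ e1
      rw [h.k2mono w u' w3 j (by rw [v2]; exact n3), h.k2mono x u' x3 j (by rw [v2]; exact n3)]
  · exfalso
    have key : ∀ {b b' : V}, Sq b b' u u' → p b = none ∧ q b = none := by
      intro b b' s
      have e1 := h.m1 b u s.h1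
      have e2 := h.m2 b u s.h1
      have e3 := h.m2 b u' s.h2
      rw [u1] at e1
      rw [u2] at e2
      rw [v2] at e3
      have e4 := opt_both hjj e2 e3
      rcases e1 with e1 | e1
      · exact ⟨e1, e4⟩
      · exfalso
        apply hK
        rw [← h.K1mono b u i s.h1 e1 (by rw [e4]; simp) (by rw [u2]; exact n1),
          h.K1mono b u' i s.h2 e1 (by rw [e4]; simp) (by rw [v2]; exact n2)]
    obtain ⟨a1, a2⟩ := key s
    obtain ⟨b1, b2⟩ := key s.fa
    have c1 := h.c4a a a' u u' i a1 a2 b1 b2 s.h1 s.h2 s.h3 s.h4 u1 (by rw [u2]; exact n1) v1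
      (by rw [v2]; exact n2) hK
    refine s.na (h.A4 a a' u s.h1 s.h3 (by rw [a1, b1]) (by rw [a2, b2]) hnd ?_ ?_)
    · intro m e1 _
      rw [u1] at e1
      obtain rfl := Option.some_injective _ e1
      exact h.A5c a a' i a1 a2 b1 b2 c1
    · intro m e1 _
      rw [u2] at e1
      obtain rfl := Option.some_injective _ e1
      rw [h.k2mono a u' s.h2 j (by rw [v2]; exact n3), h.k2mono a' u' s.h4 j (by rw [v2]; exact n3)]

private theorem caseB_w (h : Sy p q k1 k2 K1 K2 phi) (s : Sq a a' u u') {i j' : ι}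
    (hij' : i ≠ j')
    (u1 : p u = some i) (u2 : q u = some i) (v1 : p u' = some i) (v2 : q u' = some j') :
    ∃ w, a ≤ w ∧ w ≤ u ∧ w ≤ u' ∧ p w = some i ∧ q w = none := by
  have e1 := h.m1 a u s.h1
  have e2 := h.m2 a u s.h1
  have e3 := h.m2 a u' s.h2
  rw [u1] at e1
  rw [u2] at e2
  rw [v2] at e3
  have e4 := opt_both hij' e2 e3
  rcases e1 with e1 | e1
  · obtain ⟨w, w1, w2, w3, w4⟩ := h.A1a a u' i j' s.h2 e1 e4 v1 v2 hij'
    obtain ⟨x, x1, x2, x3⟩ := h.A3 w i w3 w4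
    have f := h.A2d a x u i (w1.trans x1) s.h1 (fun _ e => by rw [e4] at e; cases e) x2 x3 u1 u2
    exact ⟨w, w1, f ▸ x1, w2, w3, w4⟩
  · exact ⟨a, le_rfl, s.h1, s.h2, e1, e4⟩

private theorem caseB (h : Sy p q k1 k2 K1 K2 phi) (s : Sq a a' u u') {i j' : ι}
    (hij' : i ≠ j')
    (u1 : p u = some i) (u2 : q u = some i) (v1 : p u' = some i) (v2 : q u' = some j') :
    ∃ m, a ≤ m ∧ a' ≤ m ∧ m ≤ u ∧ m ≤ u' := by
  have n2 : (some j' : Option ι) ≠ some i := by simpa using hij'.symm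
  have n3 : (some i : Option ι) ≠ some j' := by simpa using hij'
  obtain ⟨w, w1, w2, w3, w4, w5⟩ := caseB_w h s hij' u1 u2 v1 v2
  obtain ⟨x, x1, x2, x3, x4, x5⟩ := caseB_w h s.fa hij' u1 u2 v1 v2
  have e := h.A4 w x u' w3 x3 (by rw [w4, x4]) (by rw [w5, x5]) ?_ ?_ ?_
  · exact ⟨w, w1, e ▸ x1, w2, w3⟩
  · intro m e1 e2
    rw [v1] at e1
    rw [v2, ← e1] at e2
    exact n2 e2
  · intro m _ e2
    rw [w4] at e2
    cases e2
  · intro m e1 _
    rw [v2] at e1
    obtain rfl := Option.some_injective _ e1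
    rw [h.k2mono w u w2 j' (by rw [u2]; exact n3), h.k2mono x u x2 j' (by rw [u2]; exact n3)]

/-- both of rank 2, same first coordinate -/
private theorem caseRow (h : Sy p q k1 k2 K1 K2 phi) (s : Sq a a' u u') {i j j' : ι}
    (hjj : j ≠ j')
    (u1 : p u = some i) (u2 : q u = some j) (v1 : p u' = some i) (v2 : q u' = some j') :
    ∃ m, a ≤ m ∧ a' ≤ m ∧ m ≤ u ∧ m ≤ u' := by
  by_cases hij : i = j
  · subst hij
    exact caseB h s hjj u1 u2 v1 v2
  · by_cases hij' : i = j'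
    · subst hij'
      obtain ⟨m, m1, m2, m3, m4⟩ := caseB h s.fu hij v1 v2 u1 u2
      exact ⟨m, m1, m2, m4, m3⟩
    · exact caseD h s hjj hij hij' u1 u2 v1 v2

/-- if the state of `u` is not diagonal and the labels of `a, a'` in it are determined by `u'` -/
private theorem viaA4 (h : Sy p q k1 k2 K1 K2 phi) (s : Sq a a' u u')
    (hd : ∀ m, p u = some m → q u = some m → False)
    (a1 : p a = none) (a2 : q a = none) (b1 : p a' = none) (b2 : q a' = none)
    (c1 : ∀ m, p u = some m → p u' ≠ some m) (c2 : ∀ m, q u = some m → q u' ≠ some m) :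
    False := by
  refine s.na (h.A4 a a' u s.h1 s.h3 (by rw [a1, b1]) (by rw [a2, b2]) hd ?_ ?_)
  · intro m e1 _
    rw [h.k1mono a u' s.h2 m (c1 m e1), h.k1mono a' u' s.h4 m (c1 m e1)]
  · intro m e1 _
    rw [h.k2mono a u' s.h2 m (c2 m e1), h.k2mono a' u' s.h4 m (c2 m e1)]

private theorem viaA5 (h : Sy p q k1 k2 K1 K2 phi) (s : Sq a a' u u') {i : ι}
    (a1 : p a = none) (a2 : q a = none) (b1 : p a' = none) (b2 : q a' = none)
    (u1 : p u = some i) (u2 : q u = some i) (c1 : p u' ≠ some i) (c2 : q u' ≠ some i) :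
    False :=
  s.na (h.A5b a a' u i s.h1 s.h3 a1 a2 b1 b2 u1 u2
    (h.A5a a a' u' i s.h2 s.h4 a1 a2 b1 b2 c1 c2))

private theorem caseE (h : Sy p q k1 k2 K1 K2 phi) (s : Sq a a' u u') {i j i' j' : ι}
    (hii : i ≠ i') (hjj : j ≠ j')
    (u1 : p u = some i) (u2 : q u = some j) (v1 : p u' = some i') (v2 : q u' = some j') :
    False := by
  have key : ∀ {b b' : V}, Sq b b' u u' → p b = none ∧ q b = none := by
    intro b b' s
    have e1 := h.m1 b u s.h1
    have e2 := h.m2 b u s.h1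
    have e3 := h.m1 b u' s.h2
    have e4 := h.m2 b u' s.h2
    rw [u1] at e1
    rw [u2] at e2
    rw [v1] at e3
    rw [v2] at e4
    exact ⟨opt_both hii e1 e3, opt_both hjj e2 e4⟩
  obtain ⟨a1, a2⟩ := key s
  obtain ⟨b1, b2⟩ := key s.fa
  have n1 : (some i' : Option ι) ≠ some i := by simpa using hii.symm
  have n2 : (some j' : Option ι) ≠ some j := by simpa using hjj.symm
  have n1' : (some i : Option ι) ≠ some i' := by simpa using hii
  have n2' : (some j : Option ι) ≠ some j' := by simpa using hjj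
  by_cases hij : i = j
  · subst hij
    by_cases hij' : i' = j'
    · subst hij'
      exact viaA5 h s a1 a2 b1 b2 u1 u2 (by rw [v1]; exact n1) (by rw [v2]; exact n1)
    · refine viaA4 h s.fu ?_ a1 a2 b1 b2 ?_ ?_
      · intro m e1 e2
        rw [v1] at e1
        rw [v2, ← e1] at e2
        exact hij' (Option.some_injective _ e2).symm
      · intro m e1
        rw [v1] at e1
        rw [u1, ← e1]
        exact n1'
      · intro m e1
        rw [v2] at e1
        rw [u2, ← e1]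
        exact n2'
  · refine viaA4 h s ?_ a1 a2 b1 b2 ?_ ?_
    · intro m e1 e2
      rw [u1] at e1
      rw [u2, ← e1] at e2
      exact hij (Option.some_injective _ e2).symm
    · intro m e1
      rw [u1] at e1
      rw [v1, ← e1]
      exact n1
    · intro m e1
      rw [u2] at e1
      rw [v2, ← e1]
      exact n2

private theorem case22 (h : Sy p q k1 k2 K1 K2 phi) (s : Sq a a' u u') {i j i' j' : ι}
    (u1 : p u = some i) (u2 : q u = some j) (v1 : p u' = some i') (v2 : q u' = some j') :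
    ∃ m, a ≤ m ∧ a' ≤ m ∧ m ≤ u ∧ m ≤ u' := by
  by_cases hii : i = i'
  · subst hii
    by_cases hjj : j = j'
    · subst hjj
      by_cases hij : i = j
      · subst hij
        exact (caseC h s u1 u2 v1 v2).elim
      · exact (caseC' h s hij u1 u2 v1 v2).elim
    · exact caseRow h s hjj u1 u2 v1 v2
  · by_cases hjj : j = j'
    · subst hjj
      exact caseRow h.swap s hii u2 u1 v2 v1
    · exact (caseE h s hii hjj u1 u2 v1 v2).elim

/-- states below a state of rank 1 -/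
private theorem rank0 (h : Sy p q k1 k2 K1 K2 phi) (s : Sq a a' u u') {i : ι}
    (v1 : p u' = some i) (v2 : q u' = none) : p a = none ∧ q a = none := by
  have e1 := h.m1 a u' s.h2
  have e2 := h.m2 a u' s.h2
  rw [v1] at e1
  rw [v2] at e2
  have e3 := opt_none e2
  refine ⟨?_, e3⟩
  rcases e1 with e1 | e1
  · exact e1
  · exact absurd (h.strict a u' s.h2 (by rw [e1, v1]) (by rw [e3, v2])) s.fu.au

private theorem caseF1 (h : Sy p q k1 k2 K1 K2 phi) (s : Sq a a' u u') {i i' : ι}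
    (u1 : p u = some i) (u2 : q u = none) (v1 : p u' = some i') (v2 : q u' = none) :
    False := by
  obtain ⟨a1, a2⟩ := rank0 h s v1 v2
  obtain ⟨b1, b2⟩ := rank0 h s.fa v1 v2
  by_cases hii : i = i'
  · subst hii
    have hK : K1 u ≠ K1 u' := fun e => s.nu (h.A2a a u u' i s.h1 s.h2 u1 u2 v1 v2 e)
    have c1 := h.c4a a a' u u' i a1 a2 b1 b2 s.h1 s.h2 s.h3 s.h4 u1 (by rw [u2]; simp) v1
      (by rw [v2]; simp) hK
    refine s.na (h.A4 a a' u s.h1 s.h3 (by rw [a1, b1]) (by rw [a2, b2]) ?_ ?_ ?_)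
    · intro m _ e2
      rw [u2] at e2
      cases e2
    · intro m e1 _
      rw [u1] at e1
      obtain rfl := Option.some_injective _ e1
      exact h.A5c a a' i a1 a2 b1 b2 c1
    · intro m e1 _
      rw [u2] at e1
      cases e1
  · refine viaA4 h s ?_ a1 a2 b1 b2 ?_ ?_
    · intro m _ e2
      rw [u2] at e2
      cases e2
    · intro m e1
      rw [u1] at e1
      rw [v1, ← e1]
      simpa using (Ne.symm hii)
    · intro m e1
      rw [u2] at e1
      cases e1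

private theorem caseF2 (h : Sy p q k1 k2 K1 K2 phi) (s : Sq a a' u u') {i j : ι}
    (u1 : p u = none) (u2 : q u = some j) (v1 : p u' = some i) (v2 : q u' = none) :
    False := by
  obtain ⟨a1, a2⟩ := rank0 h s v1 v2
  obtain ⟨b1, b2⟩ := rank0 h s.fa v1 v2
  refine viaA4 h s.fu ?_ a1 a2 b1 b2 ?_ ?_
  · intro m _ e2
    rw [v2] at e2
    cases e2
  · intro m _
    rw [u1]
    simp
  · intro m e1
    rw [v2] at e1
    cases e1

private theorem caseF3 (h : Sy p q k1 k2 K1 K2 phi) (s : Sq a a' u u') {i j i' : ι} (hij : i ≠ j)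
    (u1 : p u = some i) (u2 : q u = some j) (v1 : p u' = some i') (v2 : q u' = none) :
    False := by
  obtain ⟨a1, a2⟩ := rank0 h s v1 v2
  obtain ⟨b1, b2⟩ := rank0 h s.fa v1 v2
  have n1 : (some j : Option ι) ≠ some i := by simpa using hij.symm
  have hnd : ∀ m, p u = some m → q u = some m → False := by
    intro m e1 e2
    rw [u1] at e1
    rw [u2, ← e1] at e2
    exact n1 e2
  by_cases hii : i = i'
  · subst hii
    by_cases hK : K1 u = K1 u'
    · obtain ⟨w, w1, w2, w3, w4⟩ := h.A1a a u i j s.h1 a1 a2 u1 u2 hij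
      have f1 := h.K1mono w u i w2 w3 (by rw [w4]; simp) (by rw [u2]; exact n1)
      have f2 := h.A2a a w u' i w1 s.h2 w3 w4 v1 v2 (by rw [f1, hK])
      exact s.n4 (f2 ▸ w2)
    · have c1 := h.c4a a a' u u' i a1 a2 b1 b2 s.h1 s.h2 s.h3 s.h4 u1 (by rw [u2]; exact n1) v1
        (by rw [v2]; simp) hK
      refine s.na (h.A4 a a' u s.h1 s.h3 (by rw [a1, b1]) (by rw [a2, b2]) hnd ?_ ?_)
      · intro m e1 _
        rw [u1] at e1
        obtain rfl := Option.some_injective _ e1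
        exact h.A5c a a' i a1 a2 b1 b2 c1
      · intro m e1 _
        rw [h.k2mono a u' s.h2 m (by rw [v2]; simp), h.k2mono a' u' s.h4 m (by rw [v2]; simp)]
  · refine viaA4 h s hnd a1 a2 b1 b2 ?_ ?_
    · intro m e1
      rw [u1] at e1
      rw [v1, ← e1]
      simpa using (Ne.symm hii)
    · intro m _
      rw [v2]
      simp

private theorem caseF4 (h : Sy p q k1 k2 K1 K2 phi) (s : Sq a a' u u') {i i' : ι}
    (u1 : p u = some i) (u2 : q u = some i) (v1 : p u' = some i') (v2 : q u' = none) :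
    False := by
  obtain ⟨a1, a2⟩ := rank0 h s v1 v2
  obtain ⟨b1, b2⟩ := rank0 h s.fa v1 v2
  by_cases hii : i = i'
  · subst hii
    obtain ⟨x, x1, x2, x3⟩ := h.A3 u' i v1 v2
    have f := h.A2d a x u i (s.h2.trans x1) s.h1 (fun e _ => by rw [a1] at e; cases e) x2 x3 u1 u2
    exact s.n4 (f ▸ x1)
  · exact viaA5 h s a1 a2 b1 b2 u1 u2 (by rw [v1]; simpa using (Ne.symm hii))
      (by rw [v2]; simp)

/-- `u'` has state `i'0` -/
private theorem case1 (h : Sy p q k1 k2 K1 K2 phi) (s : Sq a a' u u') {i' : ι}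
    (v1 : p u' = some i') (v2 : q u' = none) : False := by
  obtain ⟨a1, a2⟩ := rank0 h s v1 v2
  rcases hu1 : p u with _ | i
  · rcases hu2 : q u with _ | j
    · exact s.au (h.strict a u s.h1 (by rw [a1, hu1]) (by rw [a2, hu2]))
    · exact caseF2 h s hu1 hu2 v1 v2
  · rcases hu2 : q u with _ | j
    · exact caseF1 h s hu1 hu2 v1 v2
    · by_cases hij : i = j
      · subst hij
        exact caseF4 h s hu1 hu2 v1 v2
      · exact caseF3 h s hij hu1 hu2 v1 v2

private theorem rank_pos (h : Sy p q k1 k2 K1 K2 phi) (s : Sq a a' u u')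
    (v1 : p u' = none) (v2 : q u' = none) : False := by
  have e1 := h.m1 a u' s.h2
  have e2 := h.m2 a u' s.h2
  rw [v1] at e1
  rw [v2] at e2
  exact s.fu.au (h.strict a u' s.h2 (by rw [opt_none e1, v1]) (by rw [opt_none e2, v2]))

private theorem mid_sq (h : Sy p q k1 k2 K1 K2 phi) (s : Sq a a' u u') :
    ∃ m, a ≤ m ∧ a' ≤ m ∧ m ≤ u ∧ m ≤ u' := by
  rcases hv1 : p u' with _ | i'
  · rcases hv2 : q u' with _ | j'
    · exact (rank_pos h s hv1 hv2).elim
    · exact (case1 h.swap s hv2 hv1).elim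
  · rcases hv2 : q u' with _ | j'
    · exact (case1 h s hv1 hv2).elim
    · rcases hu1 : p u with _ | i
      · rcases hu2 : q u with _ | j
        · exact (rank_pos h s.fu hu1 hu2).elim
        · exact (case1 h.swap s.fu hu2 hu1).elim
      · rcases hu2 : q u with _ | j
        · exact (case1 h s.fu hu1 hu2).elim
        · exact case22 h s hu1 hu2 hv1 hv2

private theorem st_ext {s : St ι} {x y : Option ι} : s = (x, y) ↔ s.1 = x ∧ s.2 = y := by
  constructor
  · rintro rfl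
    exact ⟨rfl, rfl⟩
  · rintro ⟨rfl, rfl⟩
    rfl

private theorem TPP.sy (h : TPP X T st k1 k2 K1 K2 phi G A L1 L2) :
    Sy (fun v => (st v).1) (fun v => (st v).2) k1 k2 K1 K2 phi where
  m1 := fun v w hvw => (h.mono v w hvw).1
  m2 := fun v w hvw => (h.mono v w hvw).2
  strict := fun v w h1 h2 h3 => h.strict v w h1 (Prod.ext h2 h3)
  k1mono := h.k1mono
  k2mono := h.k2mono
  K1mono := h.K1mono
  K2mono := h.K2mono
  A1a := fun v u i j h1 h2 h3 h4 h5 h6 => by
    obtain ⟨w, w1, w2, w3⟩ := h.A1a v u i j h1 (st_ext.2 ⟨h2, h3⟩) (st_ext.2 ⟨h4, h5⟩) h6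
    exact ⟨w, w1, w2, (st_ext.1 w3).1, (st_ext.1 w3).2⟩
  A1b := fun v u i j h1 h2 h3 h4 h5 h6 => by
    obtain ⟨w, w1, w2, w3⟩ := h.A1b v u j i h1 (st_ext.2 ⟨h3, h2⟩) (st_ext.2 ⟨h5, h4⟩) h6.symm
    exact ⟨w, w1, w2, (st_ext.1 w3).2, (st_ext.1 w3).1⟩
  A2a := fun v w w' i h1 h2 h3 h4 h5 h6 h7 =>
    h.A2a v w w' i h1 h2 (st_ext.2 ⟨h3, h4⟩) (st_ext.2 ⟨h5, h6⟩) h7
  A2b := fun v w w' i h1 h2 h3 h4 h5 h6 h7 =>
    h.A2b v w w' i h1 h2 (st_ext.2 ⟨h4, h3⟩) (st_ext.2 ⟨h6, h5⟩) h7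
  A2c := fun v w w' i j h1 h2 h3 h4 h5 h6 h7 h8 =>
    h.A2c v w w' i j h1 h2 (st_ext.2 ⟨h3, h4⟩) (st_ext.2 ⟨h5, h6⟩) h7 h8
  A2c' := fun v w w' i j h1 h2 h3 h4 h5 h6 h7 h8 =>
    h.A2c v w w' j i h1 h2 (st_ext.2 ⟨h4, h3⟩) (st_ext.2 ⟨h6, h5⟩) h7.symm
      ((h.A7 w w' j i (st_ext.2 ⟨h4, h3⟩) (st_ext.2 ⟨h6, h5⟩) h7.symm).2 h8)
  A2d := fun v w w' i h1 h2 h3 h4 h5 h6 h7 =>
    h.A2d v w w' i h1 h2 (fun e => h3 (st_ext.1 e).1 (st_ext.1 e).2) (st_ext.2 ⟨h4, h5⟩)
      (st_ext.2 ⟨h6, h7⟩)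
  A3 := fun v i h1 h2 => by
    obtain ⟨u, u1, u2⟩ := h.A3 v i (Or.inr (Or.inl (st_ext.2 ⟨h1, h2⟩)))
    exact ⟨u, u1, (st_ext.1 u2).1, (st_ext.1 u2).2⟩
  A3' := fun v i h1 h2 => by
    obtain ⟨u, u1, u2⟩ := h.A3 v i (Or.inr (Or.inr (st_ext.2 ⟨h2, h1⟩)))
    exact ⟨u, u1, (st_ext.1 u2).2, (st_ext.1 u2).1⟩
  A4 := fun v v' u h1 h2 h3 h4 h5 h6 h7 =>
    h.A4 v v' u h1 h2 (Prod.ext h3 h4) (fun i e => h5 i (st_ext.1 e).1 (st_ext.1 e).2) h6 h7
  A5a := fun v v' x i h1 h2 h3 h4 h5 h6 h7 h8 =>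
    h.A5a v v' x i h1 h2 (st_ext.2 ⟨h3, h4⟩) (st_ext.2 ⟨h5, h6⟩) h7 h8
  A5b := fun v v' x i h1 h2 h3 h4 h5 h6 h7 h8 h9 =>
    h.A5b v v' x i h1 h2 (st_ext.2 ⟨h3, h4⟩) (st_ext.2 ⟨h5, h6⟩) (st_ext.2 ⟨h7, h8⟩) h9
  A5c := fun v v' i h1 h2 h3 h4 h5 =>
    (h.A5c v v' i (st_ext.2 ⟨h1, h2⟩) (st_ext.2 ⟨h3, h4⟩) h5).1
  A5c' := fun v v' i h1 h2 h3 h4 h5 =>
    (h.A5c v v' i (st_ext.2 ⟨h2, h1⟩) (st_ext.2 ⟨h4, h3⟩) h5).2
  A7 := fun u u' i j h1 h2 h3 h4 h5 =>
    h.A7 u u' i j (st_ext.2 ⟨h1, h2⟩) (st_ext.2 ⟨h3, h4⟩) h5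
  c4a := fun a a' u u' i h1 h2 h3 h4 h5 h6 h7 h8 h9 h10 h11 h12 h13 =>
    h.cl4a (st_ext.2 ⟨h1, h2⟩) (st_ext.2 ⟨h3, h4⟩) h5 h6 h7 h8 h9 h10 h11 h12 h13
  c4b := fun a a' u u' i h1 h2 h3 h4 h5 h6 h7 h8 h9 h10 h11 h12 h13 =>
    h.cl4b (st_ext.2 ⟨h2, h1⟩) (st_ext.2 ⟨h4, h3⟩) h5 h6 h7 h8 h9 h10 h11 h12 h13

theorem TPP.mid (h : TPP X T st k1 k2 K1 K2 phi G A L1 L2) {a a' u u' : V} (h1 : a ≤ u)
    (h2 : a ≤ u') (h3 : a' ≤ u) (h4 : a' ≤ u') : ∃ j, a ≤ j ∧ a' ≤ j ∧ j ≤ u ∧ j ≤ u' := by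
  by_cases n1 : a ≤ a'
  · exact ⟨a', n1, le_rfl, h3, h4⟩
  by_cases n2 : a' ≤ a
  · exact ⟨a, le_rfl, n2, h1, h2⟩
  by_cases n3 : u ≤ u'
  · exact ⟨u, h1, h3, le_rfl, n3⟩
  by_cases n4 : u' ≤ u
  · exact ⟨u', h2, h4, n4, le_rfl⟩
  exact mid_sq h.sy ⟨h1, h2, h3, h4, n1, n2, n3, n4⟩

end ASP87
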