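import Pool.Agent.ASP87.Root
import Pool.Agent.ASP87.Defs

/-!
# ASP87/TSys: systems of points with roots of differences (definitions)

`Sys A R`: points indexed by `A`, relations indexed by `R`; the relation `r` asks for a root of order `wt r`
(a logarithm if `wt r = 0`) of `z (src r) - z (tgt r)`; `ne a b` asks for `z a <> z b`. `GS S D` = the space of
all solutions with all points in `D`. `Conf B` = injective maps `B -> C`. `forget` = restriction to some of
the points. `tr S H` = the effect of a map `H` of the plane. `MF D D' H`: a continuous family of strictly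
monotone maps `D -> D'`.
-/

namespace ASP87

open Complex Topology Set

structure Sys (A R : Type*) where
  src : R → A
  tgt : R → A
  wt : R → ℕ
  ne : A → A → Prop

def GS {A R : Type*} (S : Sys A R) (D : Set ℂ) : Set ((A → ℂ) × (R → ℂ)) :=
  {y | (∀ a, y.1 a ∈ D) ∧ (∀ r, bw (S.wt r) (y.2 r) = y.1 (S.src r) - y.1 (S.tgt r)) ∧
    ∀ a b, S.ne a b → y.1 a ≠ y.1 b}

abbrev Conf (B : Type*) : Type _ := {b : B → ℂ // Function.Injective b}

/-- restriction to the points `j b` -/
def forget {A R B : Type*} (S : Sys A R) (j : B → A)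
    (hj : ∀ b b', b ≠ b' → S.ne (j b) (j b')) (y : GS S univ) : Conf B :=
  ⟨fun b => y.1.1 (j b), fun b b' h => by
    by_contra hne
    exact y.2.2.2 _ _ (hj b b' hne) h⟩

/-- effect of a map of the plane -/
noncomputable def tr {A R : Type*} (S : Sys A R) (H : ℂ → ℂ) (y : (A → ℂ) × (R → ℂ)) :
    (A → ℂ) × (R → ℂ) :=
  (fun a => H (y.1 a), fun r => act (S.wt r) (y.2 r) (rt (S.wt r) (log
    ((H (y.1 (S.src r)) - H (y.1 (S.tgt r))) / (y.1 (S.src r) - y.1 (S.tgt r))))))

/-- continuous families of strictly monotone maps -/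
structure MF {N : Type*} [TopologicalSpace N] (D D' : Set ℂ) (H : N → ℂ → ℂ) : Prop where
  cont : ContinuousOn (fun q : N × ℂ => H q.1 q.2) (univ ×ˢ D)
  maps : ∀ n, ∀ z ∈ D, H n z ∈ D'
  mono : ∀ n, ∀ z ∈ D, ∀ z' ∈ D, z ≠ z' → 0 < ((H n z - H n z') / (z - z')).re

theorem forget_continuous {A R B : Type*} (S : Sys A R) (j : B → A)
    (hj : ∀ b b', b ≠ b' → S.ne (j b) (j b')) : Continuous (forget S j hj) := by
  refine Continuous.subtype_mk (continuous_pi fun b => ?_) _
  exact (continuous_apply (j b)).comp (continuous_fst.comp continuous_subtype_val)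

end ASP87
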