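import Pool.Agent.ASP87.TSys

/-!
# ASP87/TTr: transport by monotone maps

`q = (H z - H z') / (z - z')` has positive real part for `z <> z'` in `D`; in particular `H` is injective on `D`,
`q` is in `slitPlane`, `exp (log q) = q`.
* `tr_mem`: positions: `maps`. Relations: if `z src <> z tgt`: `bw (act w s (rt w (log q))) = bw s * q`
  (`bw_act`, `bw_rt`, `exp_log`) `= (z src - z tgt) q = H .. - H ..`. If they are equal then `bw w s = 0`, so
  `w <> 0` and `s = 0`, `act w 0 _ = 0`, `bw w 0 = 0 = H .. - H ..`. `ne`: `H` is injective on `D`.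
* `tr_cont`: positions: `cont`. Component `r` at a point `(n, y)`: if `z src <> z tgt` then `q` is continuous near
  the point, with values in `slitPlane`, `act`, `rt` are continuous (jointly; cases `w = 0`). If `z src = z tgt` at
  the point: `w <> 0` and the value there is 0; `bw w (component) = H .. - H .. ` (by `tr_mem`, on
  `univ x GS S D`) tends to 0, so the component tends to 0 (`bw_tendsto`). Work with
  `ContinuousWithinAt` at a point of `univ x GS S D`.
* `tr_inv`: `K (H z) = z` on `D`, `H` monotone on `D`. Positions clear. Component `r`, `z src <> z tgt`: the quotient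
  for `K` at `H z` is `1 / q = q^-1`, `log q^-1 = - log q` (`Complex.log_inv`, `arg q <> pi`),
  `act w (act w s (rt w t)) (rt w (-t)) = s`. If `z src = z tgt`: `s = 0`, `w <> 0`, `act w 0 _ = 0`.
* `tr_homeo`: `H : D -> D'`, `K : D' -> D` inverse to each other: the homeomorphism of `GS S D` with `GS S D'`,
  compatible with the restriction to the points `j b`: `{y : GS S D // y.1.1 o j = x}` is homeomorphic to
  `{y : GS S D' // y.1.1 o j = H o x}`. Here `N = Unit`. If `x b` is not in `D` for some `b` then both are empty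
  or not needed: assume `x b in D`.
-/

namespace ASP87

open Complex Topology Set

variable {A R : Type*} {S : Sys A R} {D D' : Set ℂ}

private lemma ttr_q {N : Type*} [TopologicalSpace N] {H : N → ℂ → ℂ} (h : MF D D' H) (n : N)
    {z z' : ℂ} (hz : z ∈ D) (hz' : z' ∈ D) (hne : z ≠ z') :
    (H n z - H n z') / (z - z') ∈ slitPlane ∧ (H n z - H n z') / (z - z') ≠ 0 ∧
      H n z ≠ H n z' := by
  have h1 := h.mono n z hz z' hz' hne
  have h2 : (H n z - H n z') / (z - z') ≠ 0 := by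
    intro h3
    rw [h3] at h1
    simp at h1
  refine ⟨Or.inl h1, h2, ?_⟩
  intro h3
  rw [h3, sub_self, zero_div] at h2
  exact h2 rfl

private lemma ttr_bw_zero {w : ℕ} {s : ℂ} (h : bw w s = 0) : w ≠ 0 ∧ s = 0 := by
  unfold bw at h
  by_cases hw : w = 0
  · rw [if_pos hw] at h
    exact absurd h (exp_ne_zero s)
  · rw [if_neg hw] at h
    exact ⟨hw, pow_eq_zero_iff hw |>.1 h⟩

private lemma ttr_act_zero {w : ℕ} (hw : w ≠ 0) (r : ℂ) : act w 0 r = 0 := by
  unfold act
  rw [if_neg hw, zero_mul]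

theorem tr_mem {N : Type*} [TopologicalSpace N] {H : N → ℂ → ℂ} (h : MF D D' H) (n : N)
    {y : (A → ℂ) × (R → ℂ)} (hy : y ∈ GS S D) : tr S (H n) y ∈ GS S D' := by
  obtain ⟨h1, h2, h3⟩ := hy
  refine ⟨fun a => h.maps n _ (h1 a), fun r => ?_, fun a b hab => ?_⟩
  · show bw (S.wt r) (act (S.wt r) (y.2 r) (rt (S.wt r) (log
      ((H n (y.1 (S.src r)) - H n (y.1 (S.tgt r))) / (y.1 (S.src r) - y.1 (S.tgt r)))))) =
      H n (y.1 (S.src r)) - H n (y.1 (S.tgt r))
    rw [bw_act, bw_rt, h2 r]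
    by_cases he : y.1 (S.src r) = y.1 (S.tgt r)
    · rw [he, sub_self, sub_self, zero_mul]
    · obtain ⟨_, h5, _⟩ := ttr_q h n (h1 _) (h1 _) he
      rw [exp_log h5, mul_div_cancel₀ _ (sub_ne_zero.2 he)]
  · exact (ttr_q h n (h1 a) (h1 b) (h3 a b hab)).2.2

theorem tr_cont {N : Type*} [TopologicalSpace N] {H : N → ℂ → ℂ} (h : MF D D' H) :
    ContinuousOn (fun q : N × ((A → ℂ) × (R → ℂ)) => tr S (H q.1) q.2) (univ ×ˢ GS S D) := by
  have hpos : ∀ a : A, ContinuousOn (fun q : N × ((A → ℂ) × (R → ℂ)) => H q.1 (q.2.1 a))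
      (univ ×ˢ GS S D) := by
    intro a
    refine h.cont.comp (f := fun q : N × ((A → ℂ) × (R → ℂ)) => (q.1, q.2.1 a)) ?_ ?_
    · refine Continuous.continuousOn ?_
      exact continuous_fst.prodMk ((continuous_apply a).comp
        (continuous_fst.comp continuous_snd))
    · rintro ⟨n, y⟩ hq
      exact ⟨trivial, hq.2.1 a⟩
  have hc : ∀ a : A, Continuous (fun q : N × ((A → ℂ) × (R → ℂ)) => q.2.1 a) := fun a =>
    (continuous_apply a).comp (continuous_fst.comp continuous_snd)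
  refine ContinuousOn.prodMk (continuousOn_pi.2 hpos) (continuousOn_pi.2 fun r => ?_)
  have hs : Continuous (fun q : N × ((A → ℂ) × (R → ℂ)) => q.2.2 r) :=
    (continuous_apply r).comp (continuous_snd.comp continuous_snd)
  intro p hp
  obtain ⟨h1, h2, h3⟩ := hp.2
  by_cases he : p.2.1 (S.src r) = p.2.1 (S.tgt r)
  · -- the two points coincide
    have h4 := h2 r
    rw [he, sub_self] at h4
    obtain ⟨hw, hs0⟩ := ttr_bw_zero h4
    have hv : act (S.wt r) (p.2.2 r) (rt (S.wt r) (log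
      ((H p.1 (p.2.1 (S.src r)) - H p.1 (p.2.1 (S.tgt r))) /
        (p.2.1 (S.src r) - p.2.1 (S.tgt r))))) = 0 := by
      rw [hs0, ttr_act_zero hw]
    show Filter.Tendsto _ _ _
    simp only [hv]
    refine bw_tendsto hw _ ?_
    have h5 : ContinuousWithinAt (fun q : N × ((A → ℂ) × (R → ℂ)) =>
        H q.1 (q.2.1 (S.src r)) - H q.1 (q.2.1 (S.tgt r))) (univ ×ˢ GS S D) p :=
      (hpos _ p hp).sub (hpos _ p hp)
    have h6 : Filter.Tendsto (fun q : N × ((A → ℂ) × (R → ℂ)) =>
        H q.1 (q.2.1 (S.src r)) - H q.1 (q.2.1 (S.tgt r))) (𝓝[univ ×ˢ GS S D] p) (𝓝 0) := by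
      have h7 := h5.tendsto
      simp only [he, sub_self] at h7
      exact h7
    refine h6.congr' ?_
    filter_upwards [self_mem_nhdsWithin] with q hq
    exact ((tr_mem h q.1 hq.2).2.1 r).symm
  · obtain ⟨h4, h5, h6⟩ := ttr_q h p.1 (h1 _) (h1 _) he
    have h7 : ContinuousWithinAt (fun q : N × ((A → ℂ) × (R → ℂ)) =>
        (H q.1 (q.2.1 (S.src r)) - H q.1 (q.2.1 (S.tgt r))) /
          (q.2.1 (S.src r) - q.2.1 (S.tgt r))) (univ ×ˢ GS S D) p :=
      ((hpos _ p hp).sub (hpos _ p hp)).div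
        (((hc _).sub (hc _)).continuousWithinAt) (sub_ne_zero.2 he)
    have h8 : ContinuousWithinAt (fun q : N × ((A → ℂ) × (R → ℂ)) => rt (S.wt r) (log
        ((H q.1 (q.2.1 (S.src r)) - H q.1 (q.2.1 (S.tgt r))) /
          (q.2.1 (S.src r) - q.2.1 (S.tgt r))))) (univ ×ˢ GS S D) p :=
      (rt_continuous (S.wt r)).continuousAt.comp_continuousWithinAt (h7.clog h4)
    show ContinuousWithinAt (fun q : N × ((A → ℂ) × (R → ℂ)) =>
      act (S.wt r) (q.2.2 r) (rt (S.wt r) (log
        ((H q.1 (q.2.1 (S.src r)) - H q.1 (q.2.1 (S.tgt r))) /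
          (q.2.1 (S.src r) - q.2.1 (S.tgt r)))))) (univ ×ˢ GS S D) p
    unfold act
    by_cases hw : S.wt r = 0
    · simp only [if_pos hw]
      exact hs.continuousWithinAt.add h8
    · simp only [if_neg hw]
      exact hs.continuousWithinAt.mul h8

theorem tr_inv {N : Type*} [TopologicalSpace N] {H : N → ℂ → ℂ} (h : MF D D' H) (n : N)
    {K : ℂ → ℂ} (hK : ∀ z ∈ D, K (H n z) = z) {y : (A → ℂ) × (R → ℂ)} (hy : y ∈ GS S D) :
    tr S K (tr S (H n) y) = y := by
  obtain ⟨h1, h2, h3⟩ := hy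
  refine Prod.ext (funext fun a => hK _ (h1 a)) (funext fun r => ?_)
  show act (S.wt r) (act (S.wt r) (y.2 r) (rt (S.wt r) (log
      ((H n (y.1 (S.src r)) - H n (y.1 (S.tgt r))) / (y.1 (S.src r) - y.1 (S.tgt r)))))) 
      (rt (S.wt r) (log ((K (H n (y.1 (S.src r))) - K (H n (y.1 (S.tgt r)))) /
        (H n (y.1 (S.src r)) - H n (y.1 (S.tgt r)))))) = y.2 r
  rw [hK _ (h1 _), hK _ (h1 _)]
  by_cases he : y.1 (S.src r) = y.1 (S.tgt r)
  · have h4 := h2 r
    rw [he, sub_self] at h4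
    obtain ⟨hw, hs0⟩ := ttr_bw_zero h4
    rw [hs0, ttr_act_zero hw, ttr_act_zero hw]
  · obtain ⟨h4, h5, h6⟩ := ttr_q h n (h1 _) (h1 _) he
    have h7 : (y.1 (S.src r) - y.1 (S.tgt r)) /
        (H n (y.1 (S.src r)) - H n (y.1 (S.tgt r))) =
        ((H n (y.1 (S.src r)) - H n (y.1 (S.tgt r))) /
          (y.1 (S.src r) - y.1 (S.tgt r)))⁻¹ := by
      rw [inv_div]
    rw [h7, log_inv _ (mem_slitPlane_iff_arg.1 h4).1]
    unfold act rt
    by_cases hw : S.wt r = 0
    · simp only [if_pos hw]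
      ring
    · simp only [if_neg hw]
      rw [mul_assoc, ← exp_add, ← add_div, add_neg_cancel, zero_div, exp_zero, mul_one]

theorem tr_homeo {H K : Unit → ℂ → ℂ} (h : MF D D' H) (h' : MF D' D K)
    (hKH : ∀ z ∈ D, K () (H () z) = z) (hHK : ∀ z ∈ D', H () (K () z) = z) {B : Type*}
    (j : B → A) (x : B → ℂ) (hx : ∀ b, x b ∈ D) :
    Nonempty ({y : GS S D // ∀ b, y.1.1 (j b) = x b} ≃ₜ
      {y : GS S D' // ∀ b, y.1.1 (j b) = H () (x b)}) := by
  have c1 : Continuous (fun y : GS S D => tr S (H ()) y.1) :=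
    (tr_cont (S := S) h).comp_continuous
      (f := fun y : GS S D => (((), y.1) : Unit × ((A → ℂ) × (R → ℂ))))
      (continuous_const.prodMk continuous_subtype_val) (fun y => ⟨trivial, y.2⟩)
  have c2 : Continuous (fun y : GS S D' => tr S (K ()) y.1) :=
    (tr_cont (S := S) h').comp_continuous
      (f := fun y : GS S D' => (((), y.1) : Unit × ((A → ℂ) × (R → ℂ))))
      (continuous_const.prodMk continuous_subtype_val) (fun y => ⟨trivial, y.2⟩)
  refine ⟨{
    toFun := fun y => ⟨⟨tr S (H ()) y.1.1, tr_mem h () y.1.2⟩, fun b => ?_⟩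
    invFun := fun y => ⟨⟨tr S (K ()) y.1.1, tr_mem h' () y.1.2⟩, fun b => ?_⟩
    left_inv := fun y => Subtype.ext (Subtype.ext (tr_inv h () hKH y.1.2))
    right_inv := fun y => Subtype.ext (Subtype.ext (tr_inv h' () hHK y.1.2))
    continuous_toFun := ((c1.comp continuous_subtype_val).subtype_mk _).subtype_mk _
    continuous_invFun := ((c2.comp continuous_subtype_val).subtype_mk _).subtype_mk _ }⟩
  · show H () (y.1.1.1 (j b)) = H () (x b)
    rw [y.2 b]
  · show K () (y.1.1.1 (j b)) = x b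
    rw [y.2 b, hKH _ (hx b)]

end ASP87
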