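import Pool.Agent.ASP87.UCTop

/-!
# ASP87/UCCov: the projection of the universal cover is a covering map

Hypothesis `SLC Y`: every point has arbitrarily small open simply connected neighbourhoods.
Let `y in Y` and let `W` be an open simply connected neighbourhood of `y`. Fibre `I = UCp^-1 {y}` with the
discrete topology (or `I` = the type `Path.Homotopic.Quotient y0 y` with the discrete topology). For
`w in W` choose a path `e_w` in `W` from `y` to `w`; its class does not depend on the choice
(`mk_eq_of_sc`). The trivialization over `W`: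
`z |-> (z.1, z.2 . [e_w]^-1)`, inverse `(w, q) |-> <w, q . [e_w]>`.
* First map continuous: the second component is locally constant: on `BS z W` (open, contains `z`): if
  `z' = z . [x]` with `x` in `W` then `[e_z'] = [e_z] . [x]` (mk_eq_of_sc), so
  `z'.2 . [e_z']^-1 = z.2 . [e_z]^-1`.
* Inverse continuous at `(w, q)`: let `S` be open containing `<w, q . [e_w]>`; there is an open `W'`
  containing `w` with `BS <w, ..> W'` in `S`; take an open simply connected `W''` with
  `w in W''`, `W''` in `W inter W'`; for `w'' in W''` a path `x` in `W''` from `w` to `w''` gives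
  `[e_w''] = [e_w] . [x]`, so `<w'', q . [e_w'']>` is in `BS <w, q . [e_w]> W'`, in `S`. `q` discrete.
Then use `IsCoveringMap.mk` / `IsEvenlyCovered` (Mathlib Topology/Covering/Basic.lean:
`IsEvenlyCovered f x I` = `DiscreteTopology I` and a homeomorphism of `f^-1 U` with `U x I` over `U`;
look at the exact definition).
-/

namespace ASP87

open scoped unitInterval Topology
open Set

universe u

/-- every point has arbitrarily small open simply connected neighbourhoods -/
def SLC (Y : Type u) [TopologicalSpace Y] : Prop :=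
  ∀ y : Y, ∀ U ∈ 𝓝 y, ∃ W : Set Y, W ⊆ U ∧ IsOpen W ∧ y ∈ W ∧ SimplyConnectedSpace W

private theorem q_assoc {Y : Type u} [TopologicalSpace Y] {a b c d : Y}
    (p : Path.Homotopic.Quotient a b) (q : Path.Homotopic.Quotient b c)
    (r : Path.Homotopic.Quotient c d) :
    Path.Homotopic.Quotient.trans (Path.Homotopic.Quotient.trans p q) r =
      Path.Homotopic.Quotient.trans p (Path.Homotopic.Quotient.trans q r) := by
  induction p using Path.Homotopic.Quotient.ind with | mk p =>
  induction q using Path.Homotopic.Quotient.ind with | mk q =>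
  induction r using Path.Homotopic.Quotient.ind with | mk r =>
  exact Quotient.sound ⟨Path.Homotopy.transAssoc p q r⟩

private theorem q_trans_refl {Y : Type u} [TopologicalSpace Y] {a b : Y}
    (p : Path.Homotopic.Quotient a b) :
    Path.Homotopic.Quotient.trans p (Path.Homotopic.Quotient.mk (Path.refl b)) = p := by
  induction p using Path.Homotopic.Quotient.ind with | mk p =>
  exact Quotient.sound ⟨Path.Homotopy.transRefl p⟩

private theorem q_cancel {Y : Type u} [TopologicalSpace Y] {a b c : Y}
    (p : Path.Homotopic.Quotient a b) (e : Path b c) :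
    Path.Homotopic.Quotient.trans (Path.Homotopic.Quotient.trans p
      (Path.Homotopic.Quotient.mk e)) (Path.Homotopic.Quotient.mk e.symm) = p := by
  rw [q_assoc]
  have h : Path.Homotopic.Quotient.mk (Path.refl b) =
      Path.Homotopic.Quotient.trans (Path.Homotopic.Quotient.mk e)
      (Path.Homotopic.Quotient.mk e.symm) := Quotient.sound ⟨Path.Homotopy.reflTransSymm e⟩
  rw [← h, q_trans_refl]

private theorem q_cancel' {Y : Type u} [TopologicalSpace Y] {a b c : Y}
    (p : Path.Homotopic.Quotient a c) (e : Path b c) :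
    Path.Homotopic.Quotient.trans (Path.Homotopic.Quotient.trans p
      (Path.Homotopic.Quotient.mk e.symm)) (Path.Homotopic.Quotient.mk e) = p := by
  rw [q_assoc]
  have h : Path.Homotopic.Quotient.mk (Path.refl c) =
      Path.Homotopic.Quotient.trans (Path.Homotopic.Quotient.mk e.symm)
      (Path.Homotopic.Quotient.mk e) := Quotient.sound ⟨Path.Homotopy.reflSymmTrans e⟩
  rw [← h, q_trans_refl]

private theorem in_trans {Y : Type u} [TopologicalSpace Y] {a b c : Y} {W : Set Y}
    {e : Path a b} {e' : Path b c} (h : ∀ t, e t ∈ W) (h' : ∀ t, e' t ∈ W) :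
    ∀ t, (e.trans e') t ∈ W := by
  intro t
  rw [Path.trans_apply]
  split_ifs
  · exact h _
  · exact h' _

private theorem in_symm {Y : Type u} [TopologicalSpace Y] {a b : Y} {W : Set Y}
    {e : Path a b} (h : ∀ t, e t ∈ W) : ∀ t, e.symm t ∈ W := by
  intro t
  exact h _

theorem UCp_covering {Y : Type u} [TopologicalSpace Y] (hY : SLC Y) (y0 : Y) :
    IsCoveringMap (UCp y0) := by
  intro y
  obtain ⟨W, -, hWo, hyW, hWsc⟩ := hY y univ Filter.univ_mem
  have hex : ∀ w : W, ∃ e : Path y w.1, ∀ t, e t ∈ W := fun w => exists_path_in hWsc hyW w.2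
  choose e he using hex
  let _ : TopologicalSpace (Path.Homotopic.Quotient y0 y) := ⊥
  have _ : DiscreteTopology (Path.Homotopic.Quotient y0 y) := ⟨rfl⟩
  have key : IsEvenlyCovered (UCp y0) y (Path.Homotopic.Quotient y0 y) := by
    refine ⟨inferInstance, W, hyW, hWo, hWo.preimage (UCp_continuous y0), ?_⟩
    refine ⟨{
      toFun := fun z => (⟨z.1.1, z.2⟩, Path.Homotopic.Quotient.trans z.1.2
        (Path.Homotopic.Quotient.mk (e ⟨z.1.1, z.2⟩).symm))
      invFun := fun x => ⟨(⟨x.1.1, Path.Homotopic.Quotient.trans x.2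
        (Path.Homotopic.Quotient.mk (e x.1))⟩ : UC y0), x.1.2⟩
      left_inv := ?_
      right_inv := ?_
      continuous_toFun := ?_
      continuous_invFun := ?_ }, fun x => rfl⟩
    · rintro ⟨⟨w, q⟩, hw⟩
      apply Subtype.ext
      show (⟨w, Path.Homotopic.Quotient.trans (Path.Homotopic.Quotient.trans q
        (Path.Homotopic.Quotient.mk (e ⟨w, hw⟩).symm))
        (Path.Homotopic.Quotient.mk (e ⟨w, hw⟩))⟩ : UC y0) = ⟨w, q⟩
      rw [q_cancel']
    · rintro ⟨⟨w, hw⟩, q⟩
      show ((⟨w, hw⟩ : W), Path.Homotopic.Quotient.trans (Path.Homotopic.Quotient.trans q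
        (Path.Homotopic.Quotient.mk (e ⟨w, hw⟩)))
        (Path.Homotopic.Quotient.mk (e ⟨w, hw⟩).symm)) = (⟨w, hw⟩, q)
      rw [q_cancel]
    · refine Continuous.prodMk ?_ ?_
      · exact ((UCp_continuous y0).comp continuous_subtype_val).subtype_mk _
      · apply IsLocallyConstant.continuous
        rw [IsLocallyConstant.iff_exists_open]
        intro z
        refine ⟨Subtype.val ⁻¹' (BS z.1 W), (BS_open z.1 hWo).preimage continuous_subtype_val,
          BS_self z.1 z.2, ?_⟩
        rintro z' ⟨x, hx, hz'⟩
        show Path.Homotopic.Quotient.trans z'.1.2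
          (Path.Homotopic.Quotient.mk (e ⟨z'.1.1, z'.2⟩).symm) = Path.Homotopic.Quotient.trans z.1.2
          (Path.Homotopic.Quotient.mk (e ⟨z.1.1, z.2⟩).symm)
        rw [hz', q_assoc]
        congr 1
        rw [← Path.Homotopic.Quotient.mk_trans]
        exact mk_eq_of_sc hWsc _ _ (in_trans hx (in_symm (he _))) (in_symm (he _))
    · refine Continuous.subtype_mk (continuous_iff_continuousAt.2 ?_) _
      rintro ⟨w, q⟩
      intro S hS
      obtain ⟨S', hS'S, hS'o, hS'⟩ := mem_nhds_iff.1 hS
      obtain ⟨W', hW'o, hwW', hBS⟩ := isOpen_UC.1 hS'o _ hS'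
      obtain ⟨W'', hW''s, hW''o, hwW'', hW''sc⟩ := hY w.1 (W' ∩ W)
        ((hW'o.inter hWo).mem_nhds ⟨hwW', w.2⟩)
      have hopen : IsOpen {x : W × Path.Homotopic.Quotient y0 y | x.1.1 ∈ W'' ∧ x.2 = q} :=
        (hW''o.preimage (continuous_subtype_val.comp continuous_fst)).inter
          ((isOpen_discrete {q}).preimage continuous_snd)
      refine Filter.mem_map.2 (Filter.mem_of_superset (hopen.mem_nhds ⟨hwW'', rfl⟩) ?_)
      rintro ⟨w', q'⟩ ⟨hw', hq'⟩
      have hq2 : q' = q := hq'
      subst hq2
      apply hS'S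
      apply hBS
      obtain ⟨x, hx⟩ := exists_path_in hW''sc hwW'' hw'
      refine ⟨x, fun t => (hW''s (hx t)).1, ?_⟩
      show Path.Homotopic.Quotient.trans q' (Path.Homotopic.Quotient.mk (e w')) =
        Path.Homotopic.Quotient.trans (Path.Homotopic.Quotient.trans q'
          (Path.Homotopic.Quotient.mk (e w))) (Path.Homotopic.Quotient.mk x)
      rw [q_assoc, ← Path.Homotopic.Quotient.mk_trans]
      congr 1
      exact mk_eq_of_sc hWsc _ _ (he _) (in_trans (he _) (fun t => (hW''s (hx t)).2))
  exact key.to_isEvenlyCovered_preimage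

end ASP87
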