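import Pool.Agent.ASP87.UCCov

/-!
# ASP87/UCSC: the universal cover is simply connected

Let `g : Path y0 y`. For `t in I` let `g_t` be the path `s |-> g (t s)` from `y0` to `g t`, and
`Gam g t = <g t, [g_t]>` (a point of `UC y0`; use `Path.cast` for the end points, or
`g.truncateOfLE`-type paths). `Gam g 0 = <y0, [const]>`, `Gam g 1 = <y, [g]>`.
(1) `Gam g` is continuous: at `t`, let `S` be open containing `Gam g t`, `W` open containing `g t` with
`BS (Gam g t) W` in `S`; for `s` near `t` the segment of `g` between `t` and `s` stays in `W`, and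
`[g_s] = [g_t] . [g restricted to [t,s]]`, because both sides are images under `g` of paths in `I` from
`0` to `s`, and `I` is simply connected (contractible) (`SimplyConnectedSpace.paths_homotopic`,
`Path.Homotopic.map`). So `UC y0` is path connected.
(2) Let `c = <y0, [const]>`. Every loop `L` at `c` is null homotopic: `g = UCp o L` is a loop at `y0`;
`L` and `Gam g` are both lifts of `g` starting at `c`, so `L = Gam g` (uniqueness of lifts,
`IsCoveringMap.eq_of_comp_eq`), so the end point `<y0, [g]>` equals `c`: `[g] = [const]`; by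
`IsCoveringMap.injective_path_homotopic_map` (Topology/Homotopy/Lifting.lean) `[L] = [const]`.
(3) Path connected and all loops at one point null homotopic gives simply connected: for a loop at
another point conjugate by a path (`simply_connected_iff_loops_nullhomotopic` may already ask only
this; otherwise use the fundamental groupoid: all `Hom(x,y)` are in bijection).
(4) `UC y0` is locally path connected: `UCp` is a local homeomorphism to `Y`, and `Y` is locally path
connected by `SLC` (basis of path connected open sets). For instance: the sets `BS z W`, `W` open and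
simply connected, are open, path connected and form a basis.
-/

namespace ASP87

open scoped unitInterval Topology
open Set

universe u

theorem scI87 : SimplyConnectedSpace I := by
  have : ContractibleSpace I := (convex_Icc (0 : ℝ) 1).contractibleSpace ⟨0, by simp⟩
  infer_instance

theorem lpcI87 : LocallyPathConnectedSpace I :=
  (convex_Icc (0 : ℝ) 1).locallyPathConnectedSpace

/-- the path `s ↦ t s` in the interval -/
def sg87 (t : I) : Path (0 : I) t where
  toFun s := t * s
  continuous_toFun := by fun_prop
  source' := by simp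
  target' := by simp

/-- initial segments of a path -/
def gm87 {Y : Type u} [TopologicalSpace Y] {y0 y : Y} (g : Path y0 y) (t : I) : Path y0 (g t) where
  toFun s := g (t * s)
  continuous_toFun := by fun_prop
  source' := by simp
  target' := by simp

theorem seg_eq87 {Y : Type u} [TopologicalSpace Y] {y0 y : Y} (g : Path y0 y) {t s : I}
    (e : Path t s) :
    (Path.Homotopic.Quotient.mk (gm87 g s) : Path.Homotopic.Quotient y0 (g s)) =
      Path.Homotopic.Quotient.trans (Path.Homotopic.Quotient.mk (gm87 g t))
        (Path.Homotopic.Quotient.mk (e.map g.continuous)) := by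
  rw [← Path.Homotopic.Quotient.mk_trans, Path.Homotopic.Quotient.eq]
  have h1 : gm87 g s = ((sg87 s).map g.continuous).cast g.source.symm rfl := by
    ext u
    rfl
  have h2 : (gm87 g t).trans (e.map g.continuous) =
      (((sg87 t).trans e).map g.continuous).cast g.source.symm rfl := by
    ext u
    show ((gm87 g t).trans (e.map g.continuous)) u = g (((sg87 t).trans e) u)
    rw [Path.trans_apply, Path.trans_apply]
    split_ifs <;> rfl
  rw [h1, h2]
  apply Path.Homotopic.pathCast
  have := scI87
  exact Path.Homotopic.map (SimplyConnectedSpace.paths_homotopic _ _) ⟨g, g.continuous⟩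

/-- the lift of a path -/
def Gam87 {Y : Type u} [TopologicalSpace Y] {y0 y : Y} (g : Path y0 y) (t : I) : UC y0 :=
  ⟨g t, Path.Homotopic.Quotient.mk (gm87 g t)⟩

theorem Gam87_continuous {Y : Type u} [TopologicalSpace Y] {y0 y : Y} (g : Path y0 y) :
    Continuous (Gam87 g) := by
  have := lpcI87
  rw [continuous_iff_continuousAt]
  intro t S hS
  obtain ⟨S', hS'S, hS'o, hmem⟩ := mem_nhds_iff.1 hS
  obtain ⟨W, hW, hzW, hWS⟩ := isOpen_UC.1 hS'o _ hmem
  have h1 : g ⁻¹' W ∈ 𝓝 t := (hW.preimage g.continuous).mem_nhds hzW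
  obtain ⟨U, ⟨hU, hUc⟩, hUW⟩ := (path_connected_basis t).mem_iff.1 h1
  rw [Filter.mem_map]
  refine Filter.mem_of_superset hU fun s hs => ?_
  obtain ⟨γ, hγ⟩ := hUc.joinedIn t (mem_of_mem_nhds hU) s hs
  exact hS'S (hWS ⟨γ.map g.continuous, fun u => hUW (hγ u), seg_eq87 g γ⟩)

theorem UC_ext87 {Y : Type u} [TopologicalSpace Y] {y0 a b : Y} (p : Path y0 a) (q : Path y0 b)
    (hab : a = b) (h : ∀ t, p t = q t) :
    (⟨a, Path.Homotopic.Quotient.mk p⟩ : UC y0) = ⟨b, Path.Homotopic.Quotient.mk q⟩ := by
  subst hab
  have : p = q := by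
    ext t
    exact h t
  rw [this]

theorem Gam87_zero {Y : Type u} [TopologicalSpace Y] {y0 y : Y} (g : Path y0 y) :
    Gam87 g 0 = ⟨y0, Path.Homotopic.Quotient.mk (Path.refl y0)⟩ := by
  apply UC_ext87
  · exact g.source
  · intro t
    show g (0 * t) = y0
    rw [zero_mul, g.source]

theorem Gam87_one {Y : Type u} [TopologicalSpace Y] {y0 y : Y} (g : Path y0 y) :
    Gam87 g 1 = ⟨y, Path.Homotopic.Quotient.mk g⟩ := by
  apply UC_ext87
  · exact g.target
  · intro t
    show g (1 * t) = g t
    rw [one_mul]

/-- the point of the universal cover given by a path -/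
def pt87 {Y : Type u} [TopologicalSpace Y] {y0 y : Y} (g : Path y0 y) : UC y0 :=
  ⟨y, Path.Homotopic.Quotient.mk g⟩

/-- `Gam87` as a path -/
def GamP87 {Y : Type u} [TopologicalSpace Y] {y0 y : Y} (g : Path y0 y) :
    Path (pt87 (Path.refl y0)) (pt87 g) where
  toFun := Gam87 g
  continuous_toFun := Gam87_continuous g
  source' := Gam87_zero g
  target' := Gam87_one g

theorem UC_pathConnected87 {Y : Type u} [TopologicalSpace Y] (y0 : Y) :
    PathConnectedSpace (UC y0) := by
  have h : ∀ z : UC y0, Joined (pt87 (Path.refl y0)) z := by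
    rintro ⟨y, q⟩
    induction q using Path.Homotopic.Quotient.ind with
    | _ g => exact ⟨GamP87 g⟩
  exact { nonempty := ⟨pt87 (Path.refl y0)⟩
          joined := fun x y => (h x).symm.trans (h y) }

theorem loop_null87 {X : Type*} [TopologicalSpace X] [PathConnectedSpace X] (c : X)
    (h : ∀ γ : Path c c, Path.Homotopic γ (Path.refl c)) (x : X) (γ : Path x x) :
    Path.Homotopic γ (Path.refl x) := by
  obtain ⟨δ⟩ := PathConnectedSpace.joined c x
  have h1 := h ((δ.trans γ).trans δ.symm)
  rw [← Path.Homotopic.Quotient.eq] at h1 ⊢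
  rw [Path.Homotopic.Quotient.mk_trans, Path.Homotopic.Quotient.mk_trans,
    Path.Homotopic.Quotient.mk_symm, Path.Homotopic.Quotient.mk_refl] at h1
  rw [Path.Homotopic.Quotient.mk_refl]
  set q := Path.Homotopic.Quotient.mk γ
  set d := Path.Homotopic.Quotient.mk δ
  have h2 : q = d.symm.trans (((d.trans q).trans d.symm).trans d) := by
    rw [Path.Homotopic.Quotient.trans_assoc (d.trans q), Path.Homotopic.Quotient.symm_trans,
      Path.Homotopic.Quotient.trans_refl, ← Path.Homotopic.Quotient.trans_assoc,
      Path.Homotopic.Quotient.symm_trans, Path.Homotopic.Quotient.refl_trans]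
  rw [h2, h1, Path.Homotopic.Quotient.refl_trans, Path.Homotopic.Quotient.symm_trans]

theorem UC_simplyConnected {Y : Type u} [TopologicalSpace Y] [PathConnectedSpace Y]
    (hY : SLC Y) (y0 : Y) : SimplyConnectedSpace (UC y0) := by
  have hpc := UC_pathConnected87 y0
  have hcov := UCp_covering hY y0
  rw [simply_connected_iff_loops_nullhomotopic]
  refine ⟨hpc, ?_⟩
  apply loop_null87 (pt87 (Path.refl y0))
  intro L
  let g : Path y0 y0 := L.map (UCp_continuous y0)
  have hg : ∀ t, g t = UCp y0 (L t) := fun t => rfl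
  have h1 : (L : I → UC y0) = Gam87 g := by
    apply hcov.eq_of_comp_eq L.continuous (Gam87_continuous g) _ 0
    · rw [Gam87_zero]
      exact L.source
    · funext t
      rfl
  have h2 : (⟨y0, Path.Homotopic.Quotient.mk (Path.refl y0)⟩ : UC y0) =
      ⟨y0, Path.Homotopic.Quotient.mk g⟩ := by
    rw [← Gam87_one g, ← h1]
    exact L.target.symm
  have h3 : (Path.Homotopic.Quotient.mk (Path.refl y0) : Path.Homotopic.Quotient y0 y0) =
      Path.Homotopic.Quotient.mk g := eq_of_heq (Sigma.mk.inj h2).2
  rw [← Path.Homotopic.Quotient.eq]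
  apply hcov.injective_path_homotopic_map
  show Path.Homotopic.Quotient.map (Path.Homotopic.Quotient.mk L) ⟨UCp y0, _⟩ =
    Path.Homotopic.Quotient.map (Path.Homotopic.Quotient.mk (Path.refl _)) ⟨UCp y0, _⟩
  rw [← Path.Homotopic.Quotient.mk_map, ← Path.Homotopic.Quotient.mk_map]
  exact h3.symm

theorem SLC.locPath {Y : Type u} [TopologicalSpace Y] (hY : SLC Y) :
    LocallyPathConnectedSpace Y := by
  refine ⟨fun y => ?_⟩
  rw [Filter.hasBasis_self]
  intro U hU
  obtain ⟨W, hWU, hW, hyW, hWs⟩ := hY y U hU
  exact ⟨W, hW.mem_nhds hyW, IsSimplyConnected.isPathConnected hWs, hWU⟩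

/-- a covering space of a space with `SLC` is again `SLC` -/
theorem SLC.cover {E : Type*} {Y : Type u} [TopologicalSpace E] [TopologicalSpace Y]
    (hY : SLC Y) {p : E → Y} (hp : IsCoveringMap p) : SLC E := by
  intro e U hU
  obtain ⟨φ, heφ, rfl⟩ := hp.isLocalHomeomorph e
  obtain ⟨U', hU'U, hU', heU'⟩ := mem_nhds_iff.1 hU
  have hemb := φ.isOpenEmbedding_restrict
  set f := φ.source.domRestrict φ with hf
  set V : Set φ.source := Subtype.val ⁻¹' U' with hV
  have hVo : IsOpen V := hU'.preimage continuous_subtype_val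
  have hfV : IsOpen (f '' V) := hemb.isOpenMap V hVo
  have hmem : f ⟨e, heφ⟩ ∈ f '' V := ⟨⟨e, heφ⟩, heU', rfl⟩
  obtain ⟨W, hWV, hW, hyW, hWs⟩ := hY _ _ (hfV.mem_nhds hmem)
  set W' : Set φ.source := f ⁻¹' W with hW'
  have hW'o : IsOpen W' := hW.preimage hemb.continuous
  have himg : f '' W' = W := by
    apply image_preimage_eq_of_subset
    exact hWV.trans (image_subset_range _ _)
  have hW's : IsSimplyConnected W' := by
    rw [← hemb.isEmbedding.isSimplyConnected_image, himg]
    exact hWs
  refine ⟨Subtype.val '' W', ?_, ?_, ⟨⟨e, heφ⟩, hyW, rfl⟩, ?_⟩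
  · rintro _ ⟨x, hx, rfl⟩
    obtain ⟨x', hx', hxx'⟩ := hWV hx
    have : x' = x := hemb.injective hxx'
    rw [← this]
    exact hU'U hx'
  · exact φ.open_source.isOpenMap_subtype_val W' hW'o
  · exact (Topology.IsEmbedding.isSimplyConnected_image Topology.IsEmbedding.subtypeVal).2 hW's

/-- existence of the universal cover -/
theorem exists_ucover (Y : Type u) [TopologicalSpace Y] [PathConnectedSpace Y] (hY : SLC Y) :
    ∃ (Z : Type u) (_ : TopologicalSpace Z) (p : Z → Y), SimplyConnectedSpace Z ∧
      LocallyPathConnectedSpace Z ∧ IsCoveringMap p ∧ Function.Surjective p := by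
  obtain ⟨y0⟩ := (PathConnectedSpace.nonempty : Nonempty Y)
  have hcov := UCp_covering hY y0
  refine ⟨UC y0, inferInstance, UCp y0, UC_simplyConnected hY y0, (hY.cover hcov).locPath, hcov,
    fun y => ?_⟩
  obtain ⟨γ⟩ := PathConnectedSpace.joined y0 y
  exact ⟨⟨y, Path.Homotopic.Quotient.mk γ⟩, rfl⟩

end ASP87
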