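import Pool.Agent.ASP87.Defs

/-!
# ASP87/UCTop: the universal cover as a space of homotopy classes of paths: topology

`UC y0` = pairs (end point, homotopy class of paths from `y0`). `BS z W` = the classes obtained from `z`
by adding a path inside `W`. A set `S` is open iff for every `z in S` there is an open `W` containing the
end point of `z` with `BS z W` in `S`.

* topology axioms: `univ`; `inter`: `BS z (W1 inter W2)` is contained in both; `sUnion` clear.
* `BS_open`: for `z' in BS z W`, `BS z' W` is contained in `BS z W` (concatenate the two paths in `W`;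
  associativity of `trans` for homotopy classes: `Path.Homotopic` / `Path.Homotopy.transAssoc`; there may
  be lemmas for `Path.Homotopic.Quotient` via the fundamental groupoid) and the end point of `z'` is in
  `W`.
* `BS_self`: constant path.
* `proj_continuous`: preimage of an open `W`: for `z` over `W`, `BS z W` is contained in the preimage.
* `simply connected W`: two paths in `W` with the same ends are homotopic in `Y`: they come from paths in
  the subspace `W` (`Path` into the subtype), homotopic there; map by the inclusion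
  (`Path.Homotopic.map`). This is `mk_eq_of_sc`.
-/

namespace ASP87

open scoped unitInterval Topology
open Set

universe u

/-- points of the universal cover -/
def UC {Y : Type u} [TopologicalSpace Y] (y0 : Y) : Type u :=
  Σ y : Y, Path.Homotopic.Quotient y0 y

/-- basic sets -/
def BS {Y : Type u} [TopologicalSpace Y] {y0 : Y} (z : UC y0) (W : Set Y) : Set (UC y0) :=
  {z' | ∃ e : Path z.1 z'.1, (∀ t, e t ∈ W) ∧
    z'.2 = Path.Homotopic.Quotient.trans z.2 (Path.Homotopic.Quotient.mk e)}

theorem BS_self {Y : Type u} [TopologicalSpace Y] {y0 : Y} (z : UC y0) {W : Set Y}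
    (h : z.1 ∈ W) : z ∈ BS z W := by
  refine ⟨Path.refl z.1, fun _ => h, ?_⟩
  rw [Path.Homotopic.Quotient.mk_refl, Path.Homotopic.Quotient.trans_refl]

theorem BS_mono {Y : Type u} [TopologicalSpace Y] {y0 : Y} (z : UC y0) {W W' : Set Y}
    (h : W ⊆ W') : BS z W ⊆ BS z W' := by
  rintro x ⟨e, he, hx⟩
  exact ⟨e, fun t => h (he t), hx⟩

private theorem trans_mem {Y : Type u} [TopologicalSpace Y] {a b c : Y} {W : Set Y}
    (e : Path a b) (e' : Path b c) (he : ∀ t, e t ∈ W) (he' : ∀ t, e' t ∈ W) (t : I) :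
    (e.trans e') t ∈ W := by
  rw [Path.trans_apply]
  split_ifs
  · exact he _
  · exact he' _

theorem BS_trans {Y : Type u} [TopologicalSpace Y] {y0 : Y} {z z' : UC y0} {W : Set Y}
    (h : z' ∈ BS z W) : BS z' W ⊆ BS z W := by
  obtain ⟨e, he, hz'⟩ := h
  rintro x ⟨e', he', hx⟩
  refine ⟨e.trans e', trans_mem e e' he he', ?_⟩
  rw [hx, hz', Path.Homotopic.Quotient.trans_assoc, ← Path.Homotopic.Quotient.mk_trans]

theorem BS_symm {Y : Type u} [TopologicalSpace Y] {y0 : Y} {z z' : UC y0} {W : Set Y}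
    (h : z' ∈ BS z W) : z ∈ BS z' W := by
  obtain ⟨e, he, hz'⟩ := h
  refine ⟨e.symm, fun t => he _, ?_⟩
  rw [hz', Path.Homotopic.Quotient.trans_assoc, Path.Homotopic.Quotient.mk_symm,
    Path.Homotopic.Quotient.trans_symm, Path.Homotopic.Quotient.trans_refl]

instance {Y : Type u} [TopologicalSpace Y] (y0 : Y) : TopologicalSpace (UC y0) where
  IsOpen S := ∀ z ∈ S, ∃ W : Set Y, IsOpen W ∧ z.1 ∈ W ∧ BS z W ⊆ S
  isOpen_univ := by
    intro z _
    exact ⟨univ, isOpen_univ, trivial, fun _ _ => trivial⟩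
  isOpen_inter := by
    intro S T hS hT z hz
    obtain ⟨W, hW, hzW, hWS⟩ := hS z hz.1
    obtain ⟨W', hW', hzW', hWT⟩ := hT z hz.2
    exact ⟨W ∩ W', hW.inter hW', ⟨hzW, hzW'⟩, fun x hx =>
      ⟨hWS (BS_mono z inter_subset_left hx), hWT (BS_mono z inter_subset_right hx)⟩⟩
  isOpen_sUnion := by
    intro C hC z hz
    obtain ⟨S, hS, hzS⟩ := hz
    obtain ⟨W, hW, hzW, hWS⟩ := hC S hS z hzS
    exact ⟨W, hW, hzW, fun x hx => ⟨S, hS, hWS hx⟩⟩

theorem isOpen_UC {Y : Type u} [TopologicalSpace Y] {y0 : Y} {S : Set (UC y0)} :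
    IsOpen S ↔ ∀ z ∈ S, ∃ W : Set Y, IsOpen W ∧ z.1 ∈ W ∧ BS z W ⊆ S :=
  Iff.rfl

theorem BS_open {Y : Type u} [TopologicalSpace Y] {y0 : Y} (z : UC y0) {W : Set Y}
    (hW : IsOpen W) : IsOpen (BS z W) := by
  rw [isOpen_UC]
  intro z' hz'
  refine ⟨W, hW, ?_, BS_trans hz'⟩
  obtain ⟨e, he, -⟩ := hz'
  have h := he 1
  rwa [e.target] at h

/-- the projection -/
def UCp {Y : Type u} [TopologicalSpace Y] (y0 : Y) : UC y0 → Y := Sigma.fst

theorem UCp_continuous {Y : Type u} [TopologicalSpace Y] (y0 : Y) : Continuous (UCp y0) := by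
  refine ⟨fun W hW => ?_⟩
  rw [isOpen_UC]
  intro z hz
  refine ⟨W, hW, hz, ?_⟩
  rintro x ⟨e, he, -⟩
  have h := he 1
  rw [e.target] at h
  exact h

private def liftPath {Y : Type u} [TopologicalSpace Y] {W : Set Y} {a b : Y} (e : Path a b)
    (he : ∀ t, e t ∈ W) (ha : a ∈ W) (hb : b ∈ W) : Path (⟨a, ha⟩ : W) ⟨b, hb⟩ where
  toFun t := ⟨e t, he t⟩
  continuous_toFun := e.continuous.subtype_mk he
  source' := Subtype.ext e.source
  target' := Subtype.ext e.target

theorem mk_eq_of_sc {Y : Type u} [TopologicalSpace Y] {W : Set Y} (hW : SimplyConnectedSpace W)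
    {a b : Y} (e e' : Path a b) (he : ∀ t, e t ∈ W) (he' : ∀ t, e' t ∈ W) :
    (Path.Homotopic.Quotient.mk e : Path.Homotopic.Quotient a b) =
      Path.Homotopic.Quotient.mk e' := by
  have ha : a ∈ W := by
    have h := he 0
    rwa [e.source] at h
  have hb : b ∈ W := by
    have h := he 1
    rwa [e.target] at h
  have h1 : Path.Homotopic (liftPath e he ha hb) (liftPath e' he' ha hb) :=
    SimplyConnectedSpace.paths_homotopic _ _
  have h2 := h1.map ⟨Subtype.val, continuous_subtype_val⟩
  rw [Path.Homotopic.Quotient.eq]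
  exact h2

/-- paths in a simply connected (or path connected) subset -/
theorem exists_path_in {Y : Type u} [TopologicalSpace Y] {W : Set Y}
    (hW : SimplyConnectedSpace W) {a b : Y} (ha : a ∈ W) (hb : b ∈ W) :
    ∃ e : Path a b, ∀ t, e t ∈ W := by
  have h1 : Joined (⟨a, ha⟩ : W) ⟨b, hb⟩ := PathConnectedSpace.joined _ _
  obtain ⟨e⟩ := h1
  exact ⟨e.map continuous_subtype_val, fun t => (e t).2⟩

end ASP87
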