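import Pool.Agent.ASP87.Grid
import Pool.Agent.ASP87.GridCov
import Pool.Agent.ASP87.Collar

/-!
# ASP87/Union: the union lemma

If `U, V` are open and `U, V, U inter V` are weakly contractible, then so is `U union V`.

PROOF. Nonempty: clear. Let `d` be given and `f` continuous on the boundary `K` of the `d`-cube with
values in `U union V` (use `ext_of_set`; for `d = 0` use `ext_zero`, or note that everything below works
with `K` empty). By `grid_split` there are `n` and grid sets `A, B`, `A union B = K`, `f A` in `U`,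
`f B` in `V`. `C = A inter B` is a grid set (intersection) and `f C` in `U inter V`.
Step 1. By `grid_ext_set` there is `g1 : cube -> X` continuous, values in `U inter V`, `g1 = f` on `C`.
Step 2. In the cube `Fin (d+1) -> I`, write a point as `(t, x)`, `t = z 0`, `x = fun i => z i.succ`. Let
`A' = {z : x in A and t = 0} union {z : x in C} union {z : x in A and t = 1}`: a grid set (closed; the
conditions `t = 0`, `t = 1` depend only on `cellOf n t`: `cellOf n t = 0` iff `t = 0`, `= 2n` iff
`t = 1`). `F z = f x` if `t = 0` or `x in C`, `F z = g1 x` if `t = 1`: well defined on `A'` (on `C` both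
agree), continuous on `A'` (three closed pieces), values in `U`. By `grid_ext_set` for `U` extend to
`F' : cube -> X` with values in `U`.
Step 3. `h (x, t) = F' (t, x)` for `x in A`, `= f x` for `x in B`: agree for `x in C`, continuous on
`K x I` (two closed pieces), `h (x, 0) = f x`; `h (x, 1) = g1 x` (in `V`) for `x in A`, `f x in V` for
`x in B`. By `Ext d V` (in the form `ext_set`) `h (., 1)` extends to `g : cube -> X` with values in `V`.
By `collar` there is `G` continuous with `G = h (., 0) = f` on `K` and values in the range of `g` (in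
`V`) or of the form `h (z, t)`, `z in K` (in `U union V`).
-/

namespace ASP87

open scoped unitInterval Topology
open Set

private theorem cellOf_eq_zero {n : ℕ} (hn : 0 < n) (t : I) : cellOf n t = 0 ↔ t = 0 := by
  have hn' : (0 : ℝ) < n := by exact_mod_cast hn
  constructor
  · intro h
    have h1 : ⌈(t : ℝ) * n⌉₊ = 0 := by unfold cellOf at h; omega
    have h2 : (t : ℝ) * n ≤ 0 := Nat.ceil_eq_zero.mp h1
    have h3 : (t : ℝ) ≤ 0 := by
      by_contra hc
      push Not at hc
      have := mul_pos hc hn'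
      linarith
    exact Subtype.ext (le_antisymm h3 t.2.1)
  · rintro rfl
    simp [cellOf]

private theorem cellOf_eq_two {n : ℕ} (hn : 0 < n) (t : I) : cellOf n t = 2 * n ↔ t = 1 := by
  have hn' : (0 : ℝ) < n := by exact_mod_cast hn
  constructor
  · intro h
    have h0 : (t : ℝ) * n ≤ n := by nlinarith [t.2.2]
    have h1 : ⌈(t : ℝ) * n⌉₊ ≤ n := Nat.ceil_le.mpr h0
    have h2 : n ≤ ⌊(t : ℝ) * n⌋₊ := by unfold cellOf at h; omega
    have h3 : (n : ℝ) ≤ (t : ℝ) * n := by
      have h4 : (⌊(t : ℝ) * n⌋₊ : ℝ) ≤ (t : ℝ) * n :=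
        Nat.floor_le (mul_nonneg t.2.1 hn'.le)
      have h5 : (n : ℝ) ≤ (⌊(t : ℝ) * n⌋₊ : ℝ) := by exact_mod_cast h2
      linarith
    have h6 : (1 : ℝ) ≤ t := by
      by_contra hc
      push Not at hc
      nlinarith
    exact Subtype.ext (le_antisymm t.2.2 h6)
  · rintro rfl
    simp [cellOf]
    omega

theorem wc_union {X : Type*} [TopologicalSpace X] {U V : Set X} (hU : IsOpen U) (hV : IsOpen V)
    (wU : WC U) (wV : WC V) (wUV : WC (U ∩ V : Set X)) : WC (U ∪ V : Set X) := by
  classical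
  obtain ⟨u0⟩ := wU.1
  obtain ⟨v0⟩ := wV.1
  refine ⟨⟨⟨u0, Or.inl u0.2⟩⟩, fun d => ext_of_set (fun f hf hfs => ?_)⟩
  obtain ⟨n, hn, A, B, hA, hB, hAB, hAU, hBV⟩ := grid_split hU hV f hf hfs
  have hAK : A ⊆ Cube.boundary (Fin d) := hAB ▸ subset_union_left
  have hBK : B ⊆ Cube.boundary (Fin d) := hAB ▸ subset_union_right
  -- step 1
  have hC : GridSet n (A ∩ B) :=
    ⟨hA.1.inter hB.1, fun x y hxy hx => ⟨hA.2 x y hxy hx.1, hB.2 x y hxy hx.2⟩⟩
  obtain ⟨g1, hg1, hg1s, hg1f⟩ := grid_ext_set hn wUV hC f (hf.mono (fun x hx => hAK hx.1))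
    (fun x hx => ⟨hAU x hx.1, hBV x hx.2⟩)
  -- step 2
  let tl : (Fin (d + 1) → I) → (Fin d → I) := fun z i => z i.succ
  have htl : Continuous tl := continuous_pi (fun i => continuous_apply _)
  have h01 : (0 : I) ≠ 1 := zero_ne_one
  let A1 : Set (Fin (d + 1) → I) := {z | tl z ∈ A ∧ z 0 = 0}
  let A2 : Set (Fin (d + 1) → I) := {z | tl z ∈ A ∩ B}
  let A3 : Set (Fin (d + 1) → I) := {z | tl z ∈ A ∧ z 0 = 1}
  have cA1 : IsClosed A1 := (hA.1.preimage htl).inter
    (isClosed_eq (continuous_apply 0) continuous_const)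
  have cA2 : IsClosed A2 := hC.1.preimage htl
  have cA3 : IsClosed A3 := (hA.1.preimage htl).inter
    (isClosed_eq (continuous_apply 0) continuous_const)
  have hA' : GridSet n (A1 ∪ A2 ∪ A3) := by
    refine ⟨(cA1.union cA2).union cA3, fun x y hxy hx => ?_⟩
    have ht : ∀ i, cellOf n (tl x i) = cellOf n (tl y i) := fun i => hxy i.succ
    rcases hx with (hx | hx) | hx
    · refine Or.inl (Or.inl ⟨hA.2 _ _ ht hx.1, ?_⟩)
      rw [← cellOf_eq_zero hn, ← hxy 0, cellOf_eq_zero hn]
      exact hx.2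
    · exact Or.inl (Or.inr (hC.2 _ _ ht hx))
    · refine Or.inr ⟨hA.2 _ _ ht hx.1, ?_⟩
      rw [← cellOf_eq_two hn, ← hxy 0, cellOf_eq_two hn]
      exact hx.2
  let F : (Fin (d + 1) → I) → X := fun z => if z 0 = 1 then g1 (tl z) else f (tl z)
  have F1 : ∀ z ∈ A1, F z = f (tl z) := by
    intro z hz
    have : z 0 ≠ 1 := by rw [hz.2]; exact h01
    simp only [F, if_neg this]
  have F2 : ∀ z ∈ A2, F z = f (tl z) := by
    intro z hz
    simp only [F]
    split_ifs
    · exact hg1f _ hz
    · rfl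
  have F3 : ∀ z ∈ A3, F z = g1 (tl z) := by
    intro z hz
    simp only [F, if_pos hz.2]
  have hF : ContinuousOn F (A1 ∪ A2 ∪ A3) := by
    refine ContinuousOn.union_of_isClosed (ContinuousOn.union_of_isClosed ?_ ?_ cA1 cA2) ?_
      (cA1.union cA2) cA3
    · refine ContinuousOn.congr ?_ F1
      exact hf.comp htl.continuousOn (fun z hz => hAK hz.1)
    · refine ContinuousOn.congr ?_ F2
      exact hf.comp htl.continuousOn (fun z hz => hAK hz.1)
    · refine ContinuousOn.congr ?_ F3
      exact (hg1.comp htl).continuousOn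
  obtain ⟨F', hF', hF's, hF'F⟩ := grid_ext_set hn wU hA' F hF (by
    rintro z ((hz | hz) | hz)
    · rw [F1 z hz]; exact hAU _ hz.1
    · rw [F2 z hz]; exact hAU _ hz.1
    · rw [F3 z hz]; exact (hg1s _).1)
  -- step 3
  let h : (Fin d → I) × I → X := fun p =>
    if p.1 ∈ A then F' (Fin.cons p.2 p.1) else f p.1
  have tlc : ∀ (t : I) (x : Fin d → I), tl (Fin.cons t x) = x := fun t x => rfl
  have hB' : ∀ x ∈ B, ∀ t, h (x, t) = f x := by
    intro x hx t
    by_cases hxA : x ∈ A
    · have hz : (Fin.cons t x : Fin (d + 1) → I) ∈ A2 := ⟨hxA, hx⟩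
      simp only [h, if_pos hxA]
      rw [hF'F _ (Or.inl (Or.inr hz)), F2 _ hz, tlc]
    · simp only [h, if_neg hxA]
  have h0 : ∀ x ∈ Cube.boundary (Fin d), h (x, 0) = f x := by
    intro x hx
    by_cases hxA : x ∈ A
    · have hz : (Fin.cons 0 x : Fin (d + 1) → I) ∈ A1 := ⟨hxA, rfl⟩
      simp only [h, if_pos hxA]
      rw [hF'F _ (Or.inl (Or.inl hz)), F1 _ hz, tlc]
    · simp only [h, if_neg hxA]
  have h1 : ∀ x ∈ Cube.boundary (Fin d), h (x, 1) ∈ V := by
    intro x hx
    by_cases hxA : x ∈ A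
    · have hz : (Fin.cons 1 x : Fin (d + 1) → I) ∈ A3 := ⟨hxA, rfl⟩
      simp only [h, if_pos hxA]
      rw [hF'F _ (Or.inr hz), F3 _ hz]
      exact (hg1s _).2
    · have hxB : x ∈ B := by
        rw [← hAB] at hx
        exact hx.resolve_left hxA
      rw [hB' x hxB]
      exact hBV x hxB
  have hc : ContinuousOn h (Cube.boundary (Fin d) ×ˢ univ) := by
    have : (Cube.boundary (Fin d) ×ˢ (univ : Set I)) = A ×ˢ univ ∪ B ×ˢ univ := by
      rw [← hAB, union_prod]
    rw [this]
    refine ContinuousOn.union_of_isClosed ?_ ?_ (hA.1.prod isClosed_univ)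
      (hB.1.prod isClosed_univ)
    · have hcons : Continuous (fun p : (Fin d → I) × I => (Fin.cons p.2 p.1 : Fin (d + 1) → I)) := by
        refine continuous_pi (fun i => ?_)
        refine Fin.cases ?_ (fun j => ?_) i
        · simpa using continuous_snd
        · simp only [Fin.cons_succ]
          exact (continuous_apply j).comp continuous_fst
      refine ContinuousOn.congr (f := fun p : (Fin d → I) × I => F' (Fin.cons p.2 p.1))
        (hF'.comp hcons).continuousOn ?_
      intro p hp
      simp only [h, if_pos hp.1]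
    · refine ContinuousOn.congr (f := fun p : (Fin d → I) × I => f p.1) ?_ ?_
      · exact hf.comp continuous_fst.continuousOn (fun p hp => hBK hp.1)
      · intro p hp
        exact hB' p.1 hp.1 p.2
  obtain ⟨g, hg, hgV, hgh⟩ := ext_set (s := V) ⟨v0, v0.2⟩ (wV.2 d) (fun x => h (x, 1))
    (hc.comp (f := fun x : Fin d → I => (x, (1 : I))) (by fun_prop)
      (fun x hx => ⟨hx, mem_univ _⟩)) h1
  obtain ⟨G, hG, hGf, hGv⟩ := collar h hc g hg hgh
  refine ⟨G, hG, fun x => ?_, fun x hx => (hGf x hx).trans (h0 x hx)⟩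
  rcases hGv x with ⟨y, hy⟩ | ⟨z, hz, t, ht⟩
  · rw [← hy]; exact Or.inr (hgV y)
  · rw [ht]
    by_cases hzA : z ∈ A
    · simp only [h, if_pos hzA]
      exact Or.inl (hF's _)
    · simp only [h, if_neg hzA]
      exact hfs z hz

end ASP87
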