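import Pool.Agent.ASP87.VBase

/-!
# ASP87/VMem: values on lifted states can be computed at any point

`v in VV p`, `z in v.2.1`: `repV v` and `z` are joined over `chU {v.1}` (`comp_joined`, `repV_mem`).

* `pos_of_mem`: `comp_mem` and the definition of `chU {v.1}`.
* `lab1_of_mem`: `v.1.1 <> some m`. On `F = p^-1 (chU {v.1})` one has `d m c1 < r1 < r2` (`U_lt1`), so the
  half plane condition (`half`) holds: `lab1_joined`. `lab2_of_mem`: the same.
* `kk1_of_mem`: `v.1.1 = some i`, `v.1.2 <> some i`: on `chU {v.1}`: `Re (conj (-e i) (c2 - c1)) > 0`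
  (`U_sep1`) and `exp ll = c2 - c1` (the last component of `YS`), so `Re (conj (e i) exp ll) < 0`, and
  `kk_joined` applies. `K1V v` unfolds (the state of `v` is `(some i, _)`; `unfold K1V; rw`/`simp [h]`, or
  destruct `v`).
* `kk2_of_mem`: `v.1.2 = some i`, `v.1.1 <> some i`: `U_sep2`.
* `os_of_mem`: `z in v.2.1`, `v.1.1 <> some i`, `v.1.2 <> some i`: `q (f z) = res (p z)` is in `OS`: `c1`, `c2` of
  `res y` are those of `y` (by `rfl`); `d i c1 < r1`, `d i c2 < r1` (`U_lt1`, `U_lt2`).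
* `phi_of_mem`: `v.1.1 <> some i`, `v.1.2 <> some i`, `z in v.2.1`: `f z` is in the component `phiV O d i v`: `f`
  maps a path over `chU {v.1}` to a path over `OS`; `phiV` unfolds with `dif_pos`.
* `ds1_of_mem`: `v.1.1 = some i`, `v.1.2 <> some i`, `z in v.2.1`: `1 - yy (res y) in slitPlane`, `y = p z`:
  `1 - yy = (c2 - x) exp (- ll)` (`yy_one_sub`) `= (conj e (x - c2)) / (conj e (c1 - c2))`, `slit_of` with
  `Re (conj e (x - c2)) = r2 - d i c2 > 0` (`U_lt2`, `half`) and `Re (conj e (c1 - c2)) > 0` (`U_sep1`).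
* `ds2_of_mem`: `v.1.2 = some i`, `v.1.1 <> some i`: `yy = (x - c1) exp (- ll) = (conj e (x - c1)) / (conj e (c2 - c1))`.
* `L1_of_mem`, `L2_of_mem`: `f z` is in the slit component `LV`, whose first entry is `true` / `false`.
-/

namespace ASP87

open Complex Topology Set ComplexConjugate

variable {ι : Type} [Fintype ι] [DecidableEq ι] {g : Geo ι} {w1 w2 : ι → ℕ}
variable {Z : Type} [TopologicalSpace Z] {p : Z → YD g w1 w2}

private theorem VM_U {s : St ι} {y : YD g w1 w2} (h : y ∈ chU g w1 w2 {s}) :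
    (c1 y, c2 y) ∈ g.U s := h s rfl

private theorem VM_joined {v : VV p} {z : Z} (hz : z ∈ v.2.1) :
    JoinedIn (p ⁻¹' chU g w1 w2 {v.1}) (repV v) z :=
  (comp_joined (repV_mem v)).1 hz

private theorem VM_ll (hp : IsCoveringMap p) : Continuous (fun z => ll (p z)) :=
  (continuous_snd.comp (continuous_snd.comp (continuous_snd.comp (continuous_snd.comp
    continuous_subtype_val)))).comp hp.continuous

private theorem VM_map (O : OneSys p) {i : ι} {V : Set (Y1 g w1 w2 i)} {s : St ι}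
    (hV : ∀ y ∈ chU g w1 w2 {s}, res g w1 w2 i y ∈ V) {z z' : Z}
    (h : JoinedIn (p ⁻¹' chU g w1 w2 {s}) z z') :
    JoinedIn (O.q i ⁻¹' V) (O.f i z) (O.f i z') := by
  obtain ⟨γ, hγ⟩ := h
  refine ⟨γ.map (O.iis i).hf, fun t => ?_⟩
  show O.q i (O.f i (γ t)) ∈ V
  rw [(O.iis i).comm]
  exact hV _ (hγ t)

private theorem VM_os {s : St ι} {i : ι} (h1 : s.1 ≠ some i) (h2 : s.2 ≠ some i)
    {y : YD g w1 w2} (hy : y ∈ chU g w1 w2 {s}) :
    res g w1 w2 i y ∈ OS (fun _ => g.x i) (fun _ => w1 i) (fun _ => w2 i) (g.e i) g.r1 :=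
  ⟨g.U_lt1 (VM_U hy) h1, g.U_lt2 (VM_U hy) h2⟩

private theorem VM_ds1 {s : St ι} {i : ι} (h1 : s.1 = some i) (h2 : s.2 ≠ some i)
    {y : YD g w1 w2} (hy : y ∈ chU g w1 w2 {s}) :
    res g w1 w2 i y ∈ DS (fun _ => g.x i) (fun _ => w1 i) (fun _ => w2 i) true := by
  show 1 - yy (res g w1 w2 i y) ∈ slitPlane
  have hU := VM_U hy
  have hA : 0 < (conj (g.e i) * (g.x i - c2 y)).re := g.half ((g.U_lt2 hU h2).trans g.h12)
  have hB0 := g.U_sep1 hU h1 h2
  have hB : 0 < (conj (g.e i) * (c1 y - c2 y)).re := by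
    have h4 : conj (g.e i) * (c1 y - c2 y) = conj (-g.e i) * (c2 y - c1 y) := by
      rw [map_neg]
      ring
    rw [h4]
    exact hB0
  have hBne : conj (g.e i) * (c1 y - c2 y) ≠ 0 := by
    intro h0
    rw [h0, zero_re] at hB
    exact lt_irrefl _ hB
  have hex : exp (ll y) = c2 y - c1 y := y.2.2.2.2.2
  have key : 1 - yy (res g w1 w2 i y) =
      (conj (g.e i) * (g.x i - c2 y)) / (conj (g.e i) * (c1 y - c2 y)) := by
    rw [yy_one_sub]
    show (c2 y - g.x i) * exp (-ll y) = _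
    rw [exp_neg, hex]
    have he : conj (g.e i) ≠ 0 := left_ne_zero_of_mul hBne
    have hd : c1 y - c2 y ≠ 0 := right_ne_zero_of_mul hBne
    have hd' : c2 y - c1 y ≠ 0 := fun h0 => hd (by linear_combination -h0)
    rw [mul_div_mul_left _ _ he, ← div_eq_mul_inv, div_eq_div_iff hd' hd]
    ring
  rw [key]
  exact slit_of hA hB.le hBne

private theorem VM_ds2 {s : St ι} {i : ι} (h1 : s.2 = some i) (h2 : s.1 ≠ some i)
    {y : YD g w1 w2} (hy : y ∈ chU g w1 w2 {s}) :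
    res g w1 w2 i y ∈ DS (fun _ => g.x i) (fun _ => w1 i) (fun _ => w2 i) false := by
  show yy (res g w1 w2 i y) ∈ slitPlane
  have hU := VM_U hy
  have hA : 0 < (conj (g.e i) * (g.x i - c1 y)).re := g.half ((g.U_lt1 hU h2).trans g.h12)
  have hB : 0 < (conj (g.e i) * (c2 y - c1 y)).re := g.U_sep2 hU h1 h2
  have hBne : conj (g.e i) * (c2 y - c1 y) ≠ 0 := by
    intro h0
    rw [h0, zero_re] at hB
    exact lt_irrefl _ hB
  have hex : exp (ll y) = c2 y - c1 y := y.2.2.2.2.2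
  have key : yy (res g w1 w2 i y) =
      (conj (g.e i) * (g.x i - c1 y)) / (conj (g.e i) * (c2 y - c1 y)) := by
    show (g.x i - c1 y) * exp (-ll y) = _
    rw [exp_neg, hex]
    have he : conj (g.e i) ≠ 0 := left_ne_zero_of_mul hBne
    rw [mul_div_mul_left _ _ he, ← div_eq_mul_inv]
  rw [key]
  exact slit_of hA hB.le hBne

private theorem VM_neg {s : St ι} {i : ι} (h1 : s.1 = some i) (h2 : s.2 ≠ some i)
    {y : YD g w1 w2} (hy : y ∈ chU g w1 w2 {s}) : (conj (g.e i) * exp (ll y)).re < 0 := by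
  have h3 := g.U_sep1 (VM_U hy) h1 h2
  have hex : exp (ll y) = c2 y - c1 y := y.2.2.2.2.2
  rw [hex]
  rw [map_neg, neg_mul, neg_re] at h3
  exact neg_pos.1 h3

private theorem VM_pos {s : St ι} {i : ι} (h1 : s.2 = some i) (h2 : s.1 ≠ some i)
    {y : YD g w1 w2} (hy : y ∈ chU g w1 w2 {s}) : 0 < (conj (g.e i) * exp (ll y)).re := by
  have h3 := g.U_sep2 (VM_U hy) h1 h2
  have hex : exp (ll y) = c2 y - c1 y := y.2.2.2.2.2
  rw [hex]
  exact h3

theorem pos_of_mem {v : VV p} {z : Z} (hz : z ∈ v.2.1) :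
    (c1 (p z), c2 (p z)) ∈ g.U v.1 := by
  exact VM_U (comp_mem hz)

theorem lab1_of_mem (hp : IsCoveringMap p) {v : VV p} {z : Z} (hz : z ∈ v.2.1) {m : ι}
    (hm : v.1.1 ≠ some m) :
    k1V v m = lab (w1 m) (s1 (p z) m) (rt (w1 m) (LL (g.e m) (g.x m) (c1 (p z)))) := by
  exact lab1_joined hp.continuous (g.he m) (F := p ⁻¹' chU g w1 w2 {v.1})
    (fun z' hz' => g.half ((g.U_lt1 (VM_U hz') hm).trans g.h12)) (VM_joined hz)

theorem lab2_of_mem (hp : IsCoveringMap p) {v : VV p} {z : Z} (hz : z ∈ v.2.1) {m : ι}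
    (hm : v.1.2 ≠ some m) :
    k2V v m = lab (w2 m) (s2 (p z) m) (rt (w2 m) (LL (g.e m) (g.x m) (c2 (p z)))) := by
  exact lab2_joined hp.continuous (g.he m) (F := p ⁻¹' chU g w1 w2 {v.1})
    (fun z' hz' => g.half ((g.U_lt2 (VM_U hz') hm).trans g.h12)) (VM_joined hz)

theorem kk1_of_mem (hp : IsCoveringMap p) {v : VV p} {z : Z} (hz : z ∈ v.2.1) {i : ι}
    (h1 : v.1.1 = some i) (h2 : v.1.2 ≠ some i) :
    K1V v = kk (g.e i) (ll (p z)) ∧ (conj (g.e i) * exp (ll (p z))).re < 0 := by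
  refine ⟨?_, VM_neg h1 h2 (comp_mem hz)⟩
  have hK : K1V v = kk (g.e i) (ll (p (repV v))) := by
    unfold K1V
    rw [h1]
  rw [hK]
  exact kk_joined (f := fun z' => ll (p z')) (VM_ll hp) (g.he i)
    (F := p ⁻¹' chU g w1 w2 {v.1}) (fun z' hz' => (VM_neg h1 h2 hz').ne) (VM_joined hz)

theorem kk2_of_mem (hp : IsCoveringMap p) {v : VV p} {z : Z} (hz : z ∈ v.2.1) {i : ι}
    (h1 : v.1.2 = some i) (h2 : v.1.1 ≠ some i) :
    K2V v = kk (g.e i) (ll (p z)) ∧ 0 < (conj (g.e i) * exp (ll (p z))).re := by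
  refine ⟨?_, VM_pos h1 h2 (comp_mem hz)⟩
  have hK : K2V v = kk (g.e i) (ll (p (repV v))) := by
    unfold K2V
    rw [h1]
  rw [hK]
  exact kk_joined (f := fun z' => ll (p z')) (VM_ll hp) (g.he i)
    (F := p ⁻¹' chU g w1 w2 {v.1}) (fun z' hz' => (VM_pos h1 h2 hz').ne') (VM_joined hz)

theorem os_of_mem (O : OneSys p) {v : VV p} {z : Z} (hz : z ∈ v.2.1) {i : ι}
    (h1 : v.1.1 ≠ some i) (h2 : v.1.2 ≠ some i) :
    O.q i (O.f i z) ∈ OS (fun _ => g.x i) (fun _ => w1 i) (fun _ => w2 i) (g.e i) g.r1 := by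
  rw [(O.iis i).comm]
  exact VM_os h1 h2 (comp_mem hz)

theorem phi_of_mem (O : OneSys p) (d : ∀ i, XV O i) {v : VV p} {z : Z} (hz : z ∈ v.2.1) {i : ι}
    (h1 : v.1.1 ≠ some i) (h2 : v.1.2 ≠ some i) : O.f i z ∈ (phiV O d i v).1 := by
  have hrep := os_of_mem O (repV_mem v) h1 h2
  have hphi : phiV O d i v = compOf (O.q i) _ (O.f i (repV v)) hrep := by
    unfold phiV
    rw [dif_pos hrep]
  rw [hphi]
  exact VM_map O (fun y hy => VM_os h1 h2 hy) (VM_joined hz)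

theorem ds1_of_mem (O : OneSys p) {v : VV p} {z : Z} (hz : z ∈ v.2.1) {i : ι}
    (h1 : v.1.1 = some i) (h2 : v.1.2 ≠ some i) :
    O.q i (O.f i z) ∈ DS (fun _ => g.x i) (fun _ => w1 i) (fun _ => w2 i) true := by
  rw [(O.iis i).comm]
  exact VM_ds1 h1 h2 (comp_mem hz)

theorem ds2_of_mem (O : OneSys p) {v : VV p} {z : Z} (hz : z ∈ v.2.1) {i : ι}
    (h1 : v.1.2 = some i) (h2 : v.1.1 ≠ some i) :
    O.q i (O.f i z) ∈ DS (fun _ => g.x i) (fun _ => w1 i) (fun _ => w2 i) false := by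
  rw [(O.iis i).comm]
  exact VM_ds2 h1 h2 (comp_mem hz)

theorem L1_of_mem (O : OneSys p) (d : ∀ i, XV O i) {v : VV p} {z : Z} (hz : z ∈ v.2.1) {i : ι}
    (h1 : v.1.1 = some i) (h2 : v.1.2 ≠ some i) :
    (LV O d true i v).1 = true ∧ O.f i z ∈ (LV O d true i v).2.1 := by
  have hrep := ds1_of_mem O (repV_mem v) h1 h2
  have hL : LV O d true i v = ⟨true, compOf (O.q i) _ (O.f i (repV v)) hrep⟩ := by
    unfold LV
    rw [dif_pos hrep]
  rw [hL]
  exact ⟨rfl, VM_map O (fun y hy => VM_ds1 h1 h2 hy) (VM_joined hz)⟩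

theorem L2_of_mem (O : OneSys p) (d : ∀ i, XV O i) {v : VV p} {z : Z} (hz : z ∈ v.2.1) {i : ι}
    (h1 : v.1.2 = some i) (h2 : v.1.1 ≠ some i) :
    (LV O d false i v).1 = false ∧ O.f i z ∈ (LV O d false i v).2.1 := by
  have hrep := ds2_of_mem O (repV_mem v) h1 h2
  have hL : LV O d false i v = ⟨false, compOf (O.q i) _ (O.f i (repV v)) hrep⟩ := by
    unfold LV
    rw [dif_pos hrep]
  rw [hL]
  exact ⟨rfl, VM_map O (fun y hy => VM_ds2 h1 h2 hy) (VM_joined hz)⟩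

end ASP87
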