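import Pool.Agent.ASP87.VMove
import Pool.Agent.ASP87.VMem

/-!
# ASP87/VA13: axioms A1, A3 for lifted states

`VLe v w` is the order of lifted states.

* `va1a`: `v <= u`, `v.1 = (none,none)`, `u.1 = (some i, some j)`, `i <> j`. Let `z` be in both,
  `S = {v.1, u.1}`, `S' = {v.1, (some i, none), u.1}` (chains with least element `(none,none)`; `u.1` is
  separated). `exists_move`: `z'` joined to `z` over `chU S`, `p z' in chU S'`. `w = mkV z' (some i, none)`;
  `z' in v.2.1`, `z' in u.2.1` (`of_joined`). `va1b`: the same with `(none, some j)`.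
* `va3`: `v.1 = (none,none)`: `exists_move0` with `S' = {(none,none), (some i, some i)}`; `v.1 = (some i, none)` or
  `(none, some i)`: `exists_move` with `S = {v.1}`, `S' = {v.1, (some i, some i)}`, `s = s' = t = v.1`. Start at any
  point of `v` (`comp_nonempty`). `u = mkV z' (some i, some i)`.
-/

namespace ASP87

open Complex Topology Set ComplexConjugate

variable {ι : Type} [Fintype ι] [DecidableEq ι] {g : Geo ι} {w1 w2 : ι → ℕ}
variable {Z : Type} [TopologicalSpace Z] {p : Z → YD g w1 w2}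

theorem va1a (hp : IsCoveringMap p) {v u : VV p} {i j : ι} (h : VLe v u)
    (hv : v.1 = (none, none)) (hu : u.1 = (some i, some j)) (hij : i ≠ j) :
    ∃ w : VV p, VLe v w ∧ VLe w u ∧ w.1 = (some i, none) := by
  obtain ⟨-, z, hz1, hz2⟩ := h
  obtain ⟨S, hS⟩ : ∃ S : Set (St ι), S = {(none, none), (some i, some j)} := ⟨_, rfl⟩
  obtain ⟨S', hS'⟩ : ∃ S' : Set (St ι), S' = {(none, none), (some i, none), (some i, some j)} := ⟨_, rfl⟩
  have h0S : ((none, none) : St ι) ∈ S := by rw [hS]; exact Or.inl rfl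
  have h2S : ((some i, some j) : St ι) ∈ S := by rw [hS]; exact Or.inr rfl
  have h0S' : ((none, none) : St ι) ∈ S' := by rw [hS']; exact Or.inl rfl
  have h1S' : ((some i, none) : St ι) ∈ S' := by rw [hS']; exact Or.inr (Or.inl rfl)
  have h2S' : ((some i, some j) : St ι) ∈ S' := by rw [hS']; exact Or.inr (Or.inr rfl)
  have hz : p z ∈ chU g w1 w2 S := by
    intro t ht
    rw [hS] at ht
    rcases ht with ht | ht
    · subst ht
      exact comp_mem hz1 _ hv.symm
    · have ht' : t = (some i, some j) := ht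
      subst ht'
      exact comp_mem hz2 _ hu.symm
  have hSS : S ⊆ S' := by
    intro t ht
    rw [hS] at ht
    rcases ht with ht | ht
    · subst ht
      exact h0S'
    · have ht' : t = (some i, some j) := ht
      subst ht'
      exact h2S'
  have hch : ∀ a ∈ S', ∀ b ∈ S', StLe a b ∨ StLe b a := by
    intro a ha b hb
    rw [hS'] at ha hb
    simp only [mem_insert_iff, mem_singleton_iff] at ha hb
    rcases ha with rfl | rfl | rfl <;> rcases hb with rfl | rfl | rfl <;> simp [StLe]
  obtain ⟨z', hz', hpz'⟩ := exists_move hp hSS hch h0S (fun a _ => ⟨Or.inl rfl, Or.inl rfl⟩) h0S'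
    (fun a _ => ⟨Or.inl rfl, Or.inl rfl⟩) h2S (by simpa using hij) hz
  have hzv : z' ∈ v.2.1 := of_joined hz1 (by rw [hv]; exact h0S) hz'
  have hzu : z' ∈ u.2.1 := of_joined hz2 (by rw [hu]; exact h2S) hz'
  have hpw : p z' ∈ chU g w1 w2 {((some i, none) : St ι)} := by
    intro t ht
    rw [mem_singleton_iff] at ht
    subst ht
    exact hpz' _ h1S'
  refine ⟨mkV z' (some i, none) hpw, ⟨?_, z', hzv, mem_mkV _ _ _⟩, ⟨?_, z', mem_mkV _ _ _, hzu⟩, rfl⟩
  · show StLe v.1 (some i, none)
    rw [hv]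
    exact ⟨Or.inl rfl, Or.inl rfl⟩
  · show StLe (some i, none) u.1
    rw [hu]
    exact ⟨Or.inr rfl, Or.inl rfl⟩

theorem va1b (hp : IsCoveringMap p) {v u : VV p} {i j : ι} (h : VLe v u)
    (hv : v.1 = (none, none)) (hu : u.1 = (some i, some j)) (hij : i ≠ j) :
    ∃ w : VV p, VLe v w ∧ VLe w u ∧ w.1 = (none, some j) := by
  obtain ⟨-, z, hz1, hz2⟩ := h
  obtain ⟨S, hS⟩ : ∃ S : Set (St ι), S = {(none, none), (some i, some j)} := ⟨_, rfl⟩
  obtain ⟨S', hS'⟩ : ∃ S' : Set (St ι), S' = {(none, none), (none, some j), (some i, some j)} := ⟨_, rfl⟩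
  have h0S : ((none, none) : St ι) ∈ S := by rw [hS]; exact Or.inl rfl
  have h2S : ((some i, some j) : St ι) ∈ S := by rw [hS]; exact Or.inr rfl
  have h0S' : ((none, none) : St ι) ∈ S' := by rw [hS']; exact Or.inl rfl
  have h1S' : ((none, some j) : St ι) ∈ S' := by rw [hS']; exact Or.inr (Or.inl rfl)
  have h2S' : ((some i, some j) : St ι) ∈ S' := by rw [hS']; exact Or.inr (Or.inr rfl)
  have hz : p z ∈ chU g w1 w2 S := by
    intro t ht
    rw [hS] at ht
    rcases ht with ht | ht
    · subst ht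
      exact comp_mem hz1 _ hv.symm
    · have ht' : t = (some i, some j) := ht
      subst ht'
      exact comp_mem hz2 _ hu.symm
  have hSS : S ⊆ S' := by
    intro t ht
    rw [hS] at ht
    rcases ht with ht | ht
    · subst ht
      exact h0S'
    · have ht' : t = (some i, some j) := ht
      subst ht'
      exact h2S'
  have hch : ∀ a ∈ S', ∀ b ∈ S', StLe a b ∨ StLe b a := by
    intro a ha b hb
    rw [hS'] at ha hb
    simp only [mem_insert_iff, mem_singleton_iff] at ha hb
    rcases ha with rfl | rfl | rfl <;> rcases hb with rfl | rfl | rfl <;> simp [StLe]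
  obtain ⟨z', hz', hpz'⟩ := exists_move hp hSS hch h0S (fun a _ => ⟨Or.inl rfl, Or.inl rfl⟩) h0S'
    (fun a _ => ⟨Or.inl rfl, Or.inl rfl⟩) h2S (by simpa using hij) hz
  have hzv : z' ∈ v.2.1 := of_joined hz1 (by rw [hv]; exact h0S) hz'
  have hzu : z' ∈ u.2.1 := of_joined hz2 (by rw [hu]; exact h2S) hz'
  have hpw : p z' ∈ chU g w1 w2 {((none, some j) : St ι)} := by
    intro t ht
    rw [mem_singleton_iff] at ht
    subst ht
    exact hpz' _ h1S'
  refine ⟨mkV z' (none, some j) hpw, ⟨?_, z', hzv, mem_mkV _ _ _⟩, ⟨?_, z', mem_mkV _ _ _, hzu⟩, rfl⟩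
  · show StLe v.1 (none, some j)
    rw [hv]
    exact ⟨Or.inl rfl, Or.inl rfl⟩
  · show StLe (none, some j) u.1
    rw [hu]
    exact ⟨Or.inl rfl, Or.inr rfl⟩

theorem va3 (hp : IsCoveringMap p) {v : VV p} {i : ι}
    (h : v.1 = (none, none) ∨ v.1 = (some i, none) ∨ v.1 = (none, some i)) :
    ∃ u : VV p, VLe v u ∧ u.1 = (some i, some i) := by
  obtain ⟨z, hz⟩ := comp_nonempty v.2
  have hle : StLe v.1 (some i, some i) := by
    rcases h with h | h | h <;> rw [h] <;> simp [StLe]
  obtain ⟨S', hS'⟩ : ∃ S' : Set (St ι), S' = {v.1, (some i, some i)} := ⟨_, rfl⟩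
  have h0S' : v.1 ∈ S' := by rw [hS']; exact Or.inl rfl
  have h1S' : ((some i, some i) : St ι) ∈ S' := by rw [hS']; exact Or.inr rfl
  have hch : ∀ a ∈ S', ∀ b ∈ S', StLe a b ∨ StLe b a := by
    intro a ha b hb
    rw [hS'] at ha hb
    simp only [mem_insert_iff, mem_singleton_iff] at ha hb
    rcases ha with rfl | rfl <;> rcases hb with rfl | rfl
    · exact Or.inl ⟨Or.inr rfl, Or.inr rfl⟩
    · exact Or.inl hle
    · exact Or.inr hle
    · exact Or.inl ⟨Or.inr rfl, Or.inr rfl⟩
  have hmin : ∀ a ∈ S', StLe v.1 a := by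
    intro a ha
    rw [hS'] at ha
    rcases ha with ha | ha
    · rw [ha]
      exact ⟨Or.inr rfl, Or.inr rfl⟩
    · have ha' : a = (some i, some i) := ha
      rw [ha']
      exact hle
  have hmv : ∃ z', JoinedIn (p ⁻¹' chU g w1 w2 {v.1}) z z' ∧ p z' ∈ chU g w1 w2 S' := by
    by_cases h0 : v.1 = (none, none)
    · have hz0 : p z ∈ chU g w1 w2 {((none, none) : St ι)} := by
        rw [← h0]
        exact comp_mem hz
      obtain ⟨z', hz', hpz'⟩ := exists_move0 hp hch (by rw [← h0]; exact h0S') hz0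
      rw [← h0] at hz'
      exact ⟨z', hz', hpz'⟩
    · refine exists_move hp (singleton_subset_iff.2 h0S') hch (mem_singleton v.1) ?_ h0S' hmin
        (mem_singleton v.1) ?_ (comp_mem hz)
      · intro a ha
        rw [mem_singleton_iff] at ha
        rw [ha]
        exact ⟨Or.inr rfl, Or.inr rfl⟩
      · rcases h with h | h | h
        · exact absurd h h0
        · rw [h]; simp
        · rw [h]; simp
  obtain ⟨z', hz', hpz'⟩ := hmv
  have hzv : z' ∈ v.2.1 := of_joined hz (mem_singleton v.1) hz'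
  have hpw : p z' ∈ chU g w1 w2 {((some i, some i) : St ι)} := by
    intro t ht
    rw [mem_singleton_iff] at ht
    subst ht
    exact hpz' _ h1S'
  exact ⟨mkV z' (some i, some i) hpw, ⟨hle, z', hzv, mem_mkV _ _ _⟩, rfl⟩

end ASP87
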