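import Pool.Agent.ASP87.VMove
import Pool.Agent.ASP87.VMem

/-!
# ASP87/VA2: axiom A2 for lifted states

`VLe v w` is the order of lifted states.

* `v_sep_unique`: `v.1` separated, `v <= w`, `v <= w'`, `w.1 = w'.1`: `w = w'`. `z in v, w`; `z' in v, w'`: joined
  over `chU {v.1}`. Cells `chainSep {v.1} v.1 v.1` and `chainSep {v.1, w.1} v.1 v.1` (least element `v.1`) have
  the same label; `cell_lab`, `cell_Q`: joined over `chU {v.1, w.1}`, `v_eq_of`.
* `va2a`: `w.1 = w'.1 = (some i, none)`. If `v.1 = (some i, none)`: `v_strict` twice. Else `v.1 = (none,none)` (from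
  `StLe`). `z in v, w`, `z' in v, w'`, joined over `chU {(none,none)}`. `cell_Q` with `chainDia0` and
  `chainSep {(none,none), (some i, none)} (none,none) (some i, none)`; labels `sepLab e (dirU ..) none none` with
  `dirU = - e i`: the first two are `diaLab` (`cell_lab`, `chainDia0`), the third is
  `ll - LU (- e i) (c2 - c1)`, by `LU_kk_neg` (`exp ll = c2 - c1`) a function of `kk (e i) ll = K1V w = K1V w'`
  (`kk1_of_mem`).
* `va2b`: `(none, some j)`, `dirU = e j`, `LU_kk`, `kk2_of_mem`.
* `va2c`: `w.1 = w'.1 = (some i, some j)`, `i <> j`, `K1V w = K1V w'`. If `v.1 = (none,none)`: as in `va2a` with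
  `t = (some i, some j)`, `dirU = - e i`. If `v.1` is separated: `v_sep_unique`.
* `va2d`: `w.1 = w'.1 = (some i, some i)`, `v.1 <> (some i, some i)`. `v.1` separated: `v_sep_unique`. Otherwise
  `v.1 = (none,none)`: `cell_Q` with `chainDia0` and `chainDia1 i` (same label `diaLab`).
-/

namespace ASP87

open Complex Topology Set ComplexConjugate

variable {ι : Type} [Fintype ι] [DecidableEq ι] {g : Geo ι} {w1 w2 : ι → ℕ}
variable {Z : Type} [TopologicalSpace Z] {p : Z → YD g w1 w2}

/-- points joined over `chU {v.1}` with the same labels over `chU {v.1, w.1}` -/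
private theorem core (hp : IsCoveringMap p) {v w w' : VV p} (hw : w.1 = w'.1) {z z' : Z}
    (hz : z ∈ v.2.1) (hzw : z ∈ w.2.1) (hz' : z' ∈ v.2.1) (hzw' : z' ∈ w'.2.1)
    {α β : Type} {L : YD g w1 w2 → α} {L' : YD g w1 w2 → β}
    (h1 : GCell (chU g w1 w2 {v.1}) L) (h2 : GCell (chU g w1 w2 {v.1, w.1}) L')
    (hL : L (p z') = L (p z) → L' (p z) = L' (p z')) : w = w' := by
  have hj : JoinedIn (p ⁻¹' chU g w1 w2 {v.1}) z z' := (comp_joined hz).1 hz'
  have hlab := cell_lab hp h1 hj
  have hm1 : p z ∈ chU g w1 w2 {v.1, w.1} := by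
    intro t ht
    rcases ht with rfl | ht
    · exact comp_mem hz _ rfl
    · rw [Set.mem_singleton_iff] at ht
      subst ht
      exact comp_mem hzw _ rfl
  have hm2 : p z' ∈ chU g w1 w2 {v.1, w.1} := by
    intro t ht
    rcases ht with rfl | ht
    · exact comp_mem hz' _ rfl
    · rw [Set.mem_singleton_iff] at ht
      rw [hw] at ht
      subst ht
      exact comp_mem hzw' _ rfl
  have hsub : chU g w1 w2 {v.1, w.1} ⊆ chU g w1 w2 {v.1} :=
    chU_mono (Set.singleton_subset_iff.2 (Set.mem_insert _ _))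
  have hQ := cell_Q hp h1 h2 hsub hj hm1 hm2 (hL hlab)
  exact v_eq_of hzw hzw' (S := {v.1, w.1}) (Set.mem_insert_of_mem _ (Set.mem_singleton _)) hw hQ

private theorem stLe_refl (s : St ι) : StLe s s := ⟨Or.inr rfl, Or.inr rfl⟩

private theorem pair_chain {s t : St ι} (h : StLe s t) :
    ∀ a ∈ ({s, t} : Set (St ι)), ∀ b ∈ ({s, t} : Set (St ι)), StLe a b ∨ StLe b a := by
  intro a ha b hb
  rcases ha with rfl | ha
  · rcases hb with rfl | hb
    · exact Or.inl (stLe_refl _)
    · rw [Set.mem_singleton_iff] at hb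
      subst hb
      exact Or.inl h
  · rw [Set.mem_singleton_iff] at ha
    subst ha
    rcases hb with rfl | hb
    · exact Or.inr h
    · rw [Set.mem_singleton_iff] at hb
      subst hb
      exact Or.inl (stLe_refl _)

private theorem pair_min {s t : St ι} (h : StLe s t) : ∀ a ∈ ({s, t} : Set (St ι)), StLe s a := by
  intro a ha
  rcases ha with rfl | ha
  · exact stLe_refl _
  · rw [Set.mem_singleton_iff] at ha
    subst ha
    exact h

private theorem single_chain (s : St ι) :
    ∀ a ∈ ({s} : Set (St ι)), ∀ b ∈ ({s} : Set (St ι)), StLe a b ∨ StLe b a := by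
  intro a ha b hb
  rw [Set.mem_singleton_iff] at ha hb
  subst ha
  subst hb
  exact Or.inl (stLe_refl _)

private theorem single_min (s : St ι) : ∀ a ∈ ({s} : Set (St ι)), StLe s a := by
  intro a ha
  rw [Set.mem_singleton_iff] at ha
  subst ha
  exact stLe_refl _

private theorem exp_ll (y : YD g w1 w2) : exp (ll y) = c2 y - c1 y := y.2.2.2.2.2

theorem v_sep_unique (hp : IsCoveringMap p) {v w w' : VV p} (h : VLe v w) (h' : VLe v w')
    (hv : v.1.1 ≠ v.1.2) (hw : w.1 = w'.1) : w = w' := by
  obtain ⟨hst, z, hz, hzw⟩ := h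
  obtain ⟨-, z', hz', hzw'⟩ := h'
  refine core hp hw hz hzw hz' hzw'
    (chainSep g w1 w2 {v.1} (single_chain _) v.1 rfl (single_min _) v.1 rfl hv)
    (chainSep g w1 w2 {v.1, w.1} (pair_chain hst) v.1 (Set.mem_insert _ _) (pair_min hst) v.1
      (Set.mem_insert _ _) hv) fun hL => hL.symm

/-- the common part of `va2a`, `va2b`, `va2c` -/
private theorem core0 (hp : IsCoveringMap p) {v w w' : VV p} (h : VLe v w) (h' : VLe v w')
    (hv : v.1 = (none, none)) (hw : w.1 = w'.1) (hwt : w.1.1 ≠ w.1.2)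
    (hK : ∀ z ∈ w.2.1, ∀ z' ∈ w'.2.1,
      ll (p z) - LU (dirU g w.1) (exp (ll (p z))) =
        ll (p z') - LU (dirU g w.1) (exp (ll (p z')))) : w = w' := by
  obtain ⟨hst, z, hz, hzw⟩ := h
  obtain ⟨-, z', hz', hzw'⟩ := h'
  have hc1 : GCell (chU g w1 w2 {v.1}) (diaLab (D := Metric.ball (0 : ℂ) 1) (x := g.x)
      (w1 := w1) (w2 := w2) g.e) := by
    rw [hv]
    exact chainDia0 g w1 w2
  have hc2 : GCell (chU g w1 w2 {v.1, w.1}) (sepLab (D := Metric.ball (0 : ℂ) 1) (x := g.x)
      (w1 := w1) (w2 := w2) g.e (dirU g w.1) none none) := by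
    have := chainSep g w1 w2 {v.1, w.1} (pair_chain hst) v.1 (Set.mem_insert _ _) (pair_min hst)
      w.1 (Set.mem_insert_of_mem _ rfl) hwt
    rw [hv] at this ⊢
    exact this
  refine core hp hw hz hzw hz' hzw' hc1 hc2 fun hL => ?_
  have h3 := hK z hzw z' hzw'
  rw [exp_ll, exp_ll] at h3
  unfold diaLab at hL
  unfold sepLab
  simp only [Prod.mk.injEq] at hL ⊢
  simp only [reduceCtorEq, if_false]
  exact ⟨hL.1.symm, hL.2.symm, h3⟩

theorem va2a (hp : IsCoveringMap p) {v w w' : VV p} {i : ι} (h : VLe v w) (h' : VLe v w')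
    (hw : w.1 = (some i, none)) (hw' : w'.1 = (some i, none)) (hK : K1V w = K1V w') :
    w = w' := by
  have hww : w.1 = w'.1 := by rw [hw, hw']
  have hst := h.1
  rw [hw] at hst
  by_cases hv1 : v.1.1 = none
  · have hv : v.1 = (none, none) := by
      apply Prod.ext
      · exact hv1
      · rcases hst.2 with h2 | h2
        · exact h2
        · exact h2
    refine core0 hp h h' hv hww (by rw [hw]; simp) ?_
    intro z hz z' hz'
    obtain ⟨e1, e2⟩ := kk1_of_mem hp hz (i := i) (by rw [hw]) (by rw [hw]; simp)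
    obtain ⟨e3, e4⟩ := kk1_of_mem hp hz' (i := i) (by rw [hw']) (by rw [hw']; simp)
    have ed : dirU g w.1 = -g.e i := by rw [hw]; rfl
    have hn : ∀ l : ℂ, (conj (g.e i) * exp l).re < 0 → 0 < (conj (-g.e i) * exp l).re := by
      intro l hl
      have : conj (-g.e i) * exp l = -(conj (g.e i) * exp l) := by rw [map_neg]; ring
      rw [this, neg_re]
      linarith
    rw [ed, LU_kk_neg (g.he i) (hn _ e2), LU_kk_neg (g.he i) (hn _ e4), ← e1, ← e3, hK]
  · have hv : v.1 = w.1 := by
      rw [hw]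
      apply Prod.ext
      · exact hst.1.resolve_left hv1
      · rcases hst.2 with h2 | h2
        · exact h2
        · exact h2
    rw [← v_strict h hv, ← v_strict h' (hv.trans hww)]

theorem va2b (hp : IsCoveringMap p) {v w w' : VV p} {j : ι} (h : VLe v w) (h' : VLe v w')
    (hw : w.1 = (none, some j)) (hw' : w'.1 = (none, some j)) (hK : K2V w = K2V w') :
    w = w' := by
  have hww : w.1 = w'.1 := by rw [hw, hw']
  have hst := h.1
  rw [hw] at hst
  by_cases hv1 : v.1.2 = none
  · have hv : v.1 = (none, none) := by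
      apply Prod.ext
      · rcases hst.1 with h2 | h2
        · exact h2
        · exact h2
      · exact hv1
    refine core0 hp h h' hv hww (by rw [hw]; simp) ?_
    intro z hz z' hz'
    obtain ⟨e1, e2⟩ := kk2_of_mem hp hz (i := j) (by rw [hw]) (by rw [hw]; simp)
    obtain ⟨e3, e4⟩ := kk2_of_mem hp hz' (i := j) (by rw [hw']) (by rw [hw']; simp)
    have ed : dirU g w.1 = g.e j := by rw [hw]; rfl
    rw [ed, LU_kk (g.he j) e2, LU_kk (g.he j) e4, ← e1, ← e3, hK]
  · have hv : v.1 = w.1 := by
      rw [hw]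
      apply Prod.ext
      · rcases hst.1 with h2 | h2
        · exact h2
        · exact h2
      · exact hst.2.resolve_left hv1
    rw [← v_strict h hv, ← v_strict h' (hv.trans hww)]

theorem va2c (hp : IsCoveringMap p) {v w w' : VV p} {i j : ι} (h : VLe v w) (h' : VLe v w')
    (hw : w.1 = (some i, some j)) (hw' : w'.1 = (some i, some j)) (hij : i ≠ j)
    (hK : K1V w = K1V w') : w = w' := by
  have hww : w.1 = w'.1 := by rw [hw, hw']
  have hst := h.1
  rw [hw] at hst
  have hij' : (some i : Option ι) ≠ some j := fun e => hij (Option.some.inj e)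
  by_cases hv : v.1 = (none, none)
  · refine core0 hp h h' hv hww (by rw [hw]; exact hij') ?_
    intro z hz z' hz'
    obtain ⟨e1, e2⟩ := kk1_of_mem hp hz (i := i) (by rw [hw]) (by rw [hw]; exact hij'.symm)
    obtain ⟨e3, e4⟩ := kk1_of_mem hp hz' (i := i) (by rw [hw']) (by rw [hw']; exact hij'.symm)
    have ed : dirU g w.1 = -g.e i := by rw [hw]; rfl
    have hn : ∀ l : ℂ, (conj (g.e i) * exp l).re < 0 → 0 < (conj (-g.e i) * exp l).re := by
      intro l hl
      have : conj (-g.e i) * exp l = -(conj (g.e i) * exp l) := by rw [map_neg]; ring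
      rw [this, neg_re]
      linarith
    rw [ed, LU_kk_neg (g.he i) (hn _ e2), LU_kk_neg (g.he i) (hn _ e4), ← e1, ← e3, hK]
  · refine v_sep_unique hp h h' ?_ hww
    intro he
    rcases hst.1 with h1 | h1
    · rcases hst.2 with h2 | h2
      · exact hv (Prod.ext h1 h2)
      · rw [h1, h2] at he
        exact absurd he (by simp)
    · rcases hst.2 with h2 | h2
      · rw [h1, h2] at he
        exact absurd he (by simp)
      · rw [h1, h2] at he
        exact hij' he

theorem va2d (hp : IsCoveringMap p) {v w w' : VV p} {i : ι} (h : VLe v w) (h' : VLe v w')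
    (hv : v.1 ≠ (some i, some i)) (hw : w.1 = (some i, some i))
    (hw' : w'.1 = (some i, some i)) : w = w' := by
  have hww : w.1 = w'.1 := by rw [hw, hw']
  have hst := h.1
  rw [hw] at hst
  by_cases hv0 : v.1 = (none, none)
  · obtain ⟨-, z, hz, hzw⟩ := h
    obtain ⟨-, z', hz', hzw'⟩ := h'
    have hc1 : GCell (chU g w1 w2 {v.1}) (diaLab (D := Metric.ball (0 : ℂ) 1) (x := g.x)
        (w1 := w1) (w2 := w2) g.e) := by
      rw [hv0]
      exact chainDia0 g w1 w2
    have hc2 : GCell (chU g w1 w2 {v.1, w.1}) (diaLab (D := Metric.ball (0 : ℂ) 1) (x := g.x)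
        (w1 := w1) (w2 := w2) g.e) := by
      rw [hv0, hw]
      exact chainDia1 g w1 w2 i
    exact core hp hww hz hzw hz' hzw' hc1 hc2 fun hL => hL.symm
  · refine v_sep_unique hp h h' ?_ hww
    intro he
    rcases hst.1 with h1 | h1
    · rcases hst.2 with h2 | h2
      · exact hv0 (Prod.ext h1 h2)
      · rw [h1, h2] at he
        exact absurd he (by simp)
    · rcases hst.2 with h2 | h2
      · rw [h1, h2] at he
        exact absurd he (by simp)
      · exact hv (Prod.ext h1 h2)

end ASP87
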