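import Pool.Agent.ASP87.VMove
import Pool.Agent.ASP87.VMem

/-!
# ASP87/VA47: axioms A4, A7 for lifted states

`VLe v w` is the order of lifted states.

* `va4`: `v, v' <= u`, `v.1 = v'.1`, `u.1` not `(some i, some i)`. `z in v, u`; `z' in v', u`. If `u.1 = (none,none)` then
  `v.1 = v'.1 = (none,none)` by `StLe`, `v = u = v'` (`v_strict`). Otherwise `u.1` is separated. `z, z'` are joined
  over `chU {u.1}`: cell `chainSep {u.1} u.1 u.1`, label `sepLab e (dirU u.1) u.1.1 u.1.2`. Cell
  `chainSep {v.1, u.1} v.1 u.1`, label `sepLab e (dirU u.1) v.1.1 v.1.2`. These labels agree at `p z`, `p z'`: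
  component `m` of the first part with `v.1.1 <> some m`: if `u.1.1 <> some m` by `cell_lab` for the first cell
  (congruence, `if_neg`); if `u.1.1 = some m` then `v.1.1 = none` (`StLe`) and the hypothesis
  `k1V v m = k1V v' m` with `lab1_of_mem`. The same for the second part; third part by `cell_lab`.
  `cell_Q`: joined over `chU {v.1, u.1}`; `v_eq_of`.
* `va7`: at points `z in u`, `z' in u'`: `kk1_of_mem`, `kk2_of_mem`, `kk_rel` with `e = g.e i`, `e' = g.e j`
  (`U_sep1`, `U_sep2` with `exp ll = c2 - c1`; or the sign statements of `kk1_of_mem`, `kk2_of_mem`).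
-/

set_option linter.unusedSectionVars false

namespace ASP87

open Complex Topology Set ComplexConjugate

variable {ι : Type} [Fintype ι] [DecidableEq ι] {g : Geo ι} {w1 w2 : ι → ℕ}
variable {Z : Type} [TopologicalSpace Z] {p : Z → YD g w1 w2}

private theorem StLe_rfl' (s : St ι) : StLe s s := ⟨Or.inr rfl, Or.inr rfl⟩

theorem va4 (hp : IsCoveringMap p) {v v' u : VV p} (h : VLe v u) (h' : VLe v' u)
    (hv : v.1 = v'.1) (hu : ∀ i, u.1 ≠ (some i, some i))
    (h1 : ∀ i, u.1.1 = some i → v.1.1 = none → k1V v i = k1V v' i)
    (h2 : ∀ j, u.1.2 = some j → v.1.2 = none → k2V v j = k2V v' j) : v = v' := by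
  have hst := h.1
  have hst' := h'.1
  by_cases htt : u.1.1 = u.1.2
  · have hn : u.1.1 = none := by
      by_contra hne
      obtain ⟨i, hi⟩ := Option.ne_none_iff_exists'.1 hne
      exact hu i (Prod.ext hi (htt ▸ hi))
    have hn2 : u.1.2 = none := by rw [← htt]; exact hn
    have key : ∀ w : VV p, StLe w.1 u.1 → w.1 = u.1 := by
      intro w hw
      refine Prod.ext ?_ ?_
      · rcases hw.1 with k | k
        · rw [k, hn]
        · exact k
      · rcases hw.2 with k | k
        · rw [k, hn2]
        · exact k
    rw [v_strict h (key v hst), v_strict h' (key v' hst')]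
  · obtain ⟨z, hzv, hzu⟩ := h.2
    obtain ⟨z', hzv', hzu'⟩ := h'.2
    have cellu := chainSep g w1 w2 {u.1}
      (fun a ha b hb => by
        rw [Set.mem_singleton_iff] at ha hb
        rw [ha, hb]
        exact Or.inl (StLe_rfl' _)) u.1 rfl
      (fun a ha => by rw [Set.mem_singleton_iff] at ha; rw [ha]; exact StLe_rfl' _) u.1 rfl htt
    have cellvu := chainSep g w1 w2 {v.1, u.1}
      (fun a ha b hb => by
        rcases ha with rfl | ha <;> rcases hb with rfl | hb
        · exact Or.inl (StLe_rfl' _)
        · rw [Set.mem_singleton_iff] at hb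
          rw [hb]
          exact Or.inl hst
        · rw [Set.mem_singleton_iff] at ha
          rw [ha]
          exact Or.inr hst
        · rw [Set.mem_singleton_iff] at ha hb
          rw [ha, hb]
          exact Or.inl (StLe_rfl' _)) v.1 (Or.inl rfl)
      (fun a ha => by
        rcases ha with rfl | ha
        · exact StLe_rfl' _
        · rw [Set.mem_singleton_iff] at ha
          rw [ha]
          exact hst) u.1 (Or.inr rfl) htt
    have j0 : JoinedIn (p ⁻¹' chU g w1 w2 {u.1}) z z' := (comp_joined hzu).1 hzu'
    have hl := cell_lab hp cellu j0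
    have m1 : p z ∈ chU g w1 w2 {v.1, u.1} := by
      intro a ha
      rcases ha with rfl | ha
      · exact pos_of_mem hzv
      · rw [Set.mem_singleton_iff] at ha
        rw [ha]
        exact pos_of_mem hzu
    have m2 : p z' ∈ chU g w1 w2 {v.1, u.1} := by
      intro a ha
      rcases ha with rfl | ha
      · rw [hv]
        exact pos_of_mem hzv'
      · rw [Set.mem_singleton_iff] at ha
        rw [ha]
        exact pos_of_mem hzu'
    have hsub : chU g w1 w2 {v.1, u.1} ⊆ chU g w1 w2 {u.1} :=
      chU_mono (fun a ha => Or.inr ha)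
    have hL : sepLab g.e (dirU g u.1) v.1.1 v.1.2 (p z) =
        sepLab g.e (dirU g u.1) v.1.1 v.1.2 (p z') := by
      refine Prod.ext ?_ (Prod.ext ?_ ?_)
      · funext m
        simp only [sepLab]
        by_cases hm : v.1.1 = some m
        · rw [if_pos hm, if_pos hm]
        · rw [if_neg hm, if_neg hm]
          have hm' : v'.1.1 ≠ some m := by rw [← hv]; exact hm
          by_cases hum : u.1.1 = some m
          · have hn : v.1.1 = none := by
              rcases hst.1 with k | k
              · exact k
              · exact absurd (k.trans hum) hm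
            rw [← lab1_of_mem hp hzv hm, ← lab1_of_mem hp hzv' hm']
            exact h1 m hum hn
          · have e := congrFun (congrArg Prod.fst hl) m
            simp only [sepLab] at e
            rw [if_neg hum, if_neg hum] at e
            exact e.symm
      · funext m
        simp only [sepLab]
        by_cases hm : v.1.2 = some m
        · rw [if_pos hm, if_pos hm]
        · rw [if_neg hm, if_neg hm]
          have hm' : v'.1.2 ≠ some m := by rw [← hv]; exact hm
          by_cases hum : u.1.2 = some m
          · have hn : v.1.2 = none := by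
              rcases hst.2 with k | k
              · exact k
              · exact absurd (k.trans hum) hm
            rw [← lab2_of_mem hp hzv hm, ← lab2_of_mem hp hzv' hm']
            exact h2 m hum hn
          · have e := congrFun (congrArg (fun q => q.2.1) hl) m
            simp only [sepLab] at e
            rw [if_neg hum, if_neg hum] at e
            exact e.symm
      · have e := congrArg (fun q => q.2.2) hl
        simp only [sepLab] at e ⊢
        exact e.symm
    have hj := cell_Q hp cellu cellvu hsub j0 m1 m2 hL
    exact v_eq_of hzv hzv' (Or.inl rfl) hv hj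

theorem va7 (hp : IsCoveringMap p) {u u' : VV p} {i j : ι} (hu : u.1 = (some i, some j))
    (hu' : u'.1 = (some i, some j)) (hij : i ≠ j) : K1V u = K1V u' ↔ K2V u = K2V u' := by
  obtain ⟨z, hz⟩ := comp_nonempty u.2
  obtain ⟨z', hz'⟩ := comp_nonempty u'.2
  have hji : (some j : Option ι) ≠ some i := fun h => hij (Option.some.inj h).symm
  have hij' : (some i : Option ι) ≠ some j := fun h => hij (Option.some.inj h)
  obtain ⟨a1, b1⟩ := kk1_of_mem hp hz (i := i) (by rw [hu]) (by rw [hu]; exact hji)
  obtain ⟨a2, b2⟩ := kk2_of_mem hp hz (i := j) (by rw [hu]) (by rw [hu]; exact hij')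
  obtain ⟨a3, b3⟩ := kk1_of_mem hp hz' (i := i) (by rw [hu']) (by rw [hu']; exact hji)
  obtain ⟨a4, b4⟩ := kk2_of_mem hp hz' (i := j) (by rw [hu']) (by rw [hu']; exact hij')
  have neg : ∀ l : ℂ, (conj (g.e i) * exp l).re < 0 → 0 < (conj (-g.e i) * exp l).re := by
    intro l hl
    have : conj (-g.e i) * exp l = -(conj (g.e i) * exp l) := by rw [map_neg]; ring
    rw [this, neg_re]
    linarith
  rw [a1, a2, a3, a4]
  exact kk_rel (g.he i) (g.he j) (neg _ b1) b2 (neg _ b3) b4

end ASP87
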