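import Pool.Agent.ASP87.VMove
import Pool.Agent.ASP87.VMem

/-!
# ASP87/VA56: axioms A5, A6 for lifted states

`VLe v w` is the order of lifted states.

* `va5a`: `z in v, x`; `z' in v', x`. `f z in phi v`, `f z' in phi v'` (`phi_of_mem`). `z, z'` are joined over
  `chU {x.1}` and `f` maps this path into `q^-1 OS` (every point of the path is in `x.2.1`, `os_of_mem`). So
  `phi v = phi v'` (`comp_eq_of_mem`, `compOf_eq_iff`).
* `va5b`: `z in v, u`; `z' in v', u`: `p z, p z' in chU {(none,none), (some i, some i)}`; `f z, f z'` are in the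
  same component of `OS` (`phi_of_mem`, `comp_joined`); `z, z'` joined over `chU {(some i, some i)}`
  (both in `u.2.1`). `shellII` (`O.iis i`, `O.wc i`), `v_eq_of`.
* `va5c`: `z in v`, `z' in v'`. `lab1_of_mem` at `m = i`. `s1 (p z) i = s1 (q (f z)) ()`, `c1 (p z) = c1 (q (f z))`
  (`(O.iis i).comm`, `rfl`). `f z, f z'` joined over `OS` (`phi_of_mem`): `cell_lab` with `OS_cell`
  (`(O.iis i).hq`): `diaLab (fun _ => e i)` agrees, evaluate at `()`.
* `TT_eq_of_mem`: two slit components with the same first entry and a common point are equal (`comp_disj`).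
* `va6a`: `z in v, x`. `f z in (phiV v).1` and `Re (conj e exp ll) < 0` at `q (f z)` (`kk1_of_mem`; `ll (res y) = ll y`):
  `lineA_of_mem`: `f z in (lineA (phiV v) (kk ..)).2.1`, `kk .. = K1V x`. First entries: `decide (Odd (K1V x)) = true`
  (`kk_odd`), `L1_of_mem`. `TT_eq_of_mem`.
* `va6b`: the same with `kk2_of_mem`, `L2_of_mem`, `K2V x` even, first entry `false`.
-/

namespace ASP87

open Complex Topology Set ComplexConjugate

variable {ι : Type} [Fintype ι] [DecidableEq ι] {g : Geo ι} {w1 w2 : ι → ℕ}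
variable {Z : Type} [TopologicalSpace Z] {p : Z → YD g w1 w2}

theorem va5a (O : OneSys p) (d : ∀ i, XV O i) {v v' x : VV p} {i : ι} (h : VLe v x)
    (h' : VLe v' x) (hv : v.1 = (none, none)) (hv' : v'.1 = (none, none))
    (h1 : x.1.1 ≠ some i) (h2 : x.1.2 ≠ some i) : phiV O d i v = phiV O d i v' := by
  obtain ⟨-, z, hz, hzx⟩ := h
  obtain ⟨-, z', hz', hzx'⟩ := h'
  have n1 : v.1.1 ≠ some i := fun k => by rw [hv] at k; cases k
  have n2 : v.1.2 ≠ some i := fun k => by rw [hv] at k; cases k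
  have n1' : v'.1.1 ≠ some i := fun k => by rw [hv'] at k; cases k
  have n2' : v'.1.2 ≠ some i := fun k => by rw [hv'] at k; cases k
  have e1 : phiV O d i v = phiV O d i x :=
    comp_disj (phi_of_mem O d hz n1 n2) (phi_of_mem O d hzx h1 h2)
  have e2 : phiV O d i v' = phiV O d i x :=
    comp_disj (phi_of_mem O d hz' n1' n2') (phi_of_mem O d hzx' h1 h2)
  rw [e1, e2]

theorem va5b (O : OneSys p) (d : ∀ i, XV O i) {v v' u : VV p} {i : ι} (h : VLe v u)
    (h' : VLe v' u) (hv : v.1 = (none, none)) (hv' : v'.1 = (none, none))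
    (hu : u.1 = (some i, some i)) (hphi : phiV O d i v = phiV O d i v') : v = v' := by
  obtain ⟨-, z, hz, hzu⟩ := h
  obtain ⟨-, z', hz', hzu'⟩ := h'
  have n1 : v.1.1 ≠ some i := fun k => by rw [hv] at k; cases k
  have n2 : v.1.2 ≠ some i := fun k => by rw [hv] at k; cases k
  have n1' : v'.1.1 ≠ some i := fun k => by rw [hv'] at k; cases k
  have n2' : v'.1.2 ≠ some i := fun k => by rw [hv'] at k; cases k
  have m1 : p z ∈ chU g w1 w2 {(none, none), (some i, some i)} := by
    intro t ht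
    rcases ht with rfl | ht
    · rw [← hv]
      exact pos_of_mem hz
    · rw [Set.mem_singleton_iff] at ht
      rw [ht, ← hu]
      exact pos_of_mem hzu
  have m2 : p z' ∈ chU g w1 w2 {(none, none), (some i, some i)} := by
    intro t ht
    rcases ht with rfl | ht
    · rw [← hv']
      exact pos_of_mem hz'
    · rw [Set.mem_singleton_iff] at ht
      rw [ht, ← hu]
      exact pos_of_mem hzu'
  have f1 := phi_of_mem O d hz n1 n2
  have f2 := phi_of_mem O d hz' n1' n2'
  rw [← hphi] at f2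
  have j1 := (comp_joined f1).1 f2
  have j2 : JoinedIn (p ⁻¹' chU g w1 w2 {(some i, some i)}) z z' := by
    have j3 := (comp_joined hzu).1 hzu'
    rwa [hu] at j3
  have j := shellII (O.iis i) (O.wc i) m1 m2 j1 j2
  refine v_eq_of hz hz' ?_ (hv.trans hv'.symm) j
  rw [hv]
  exact Or.inl rfl

theorem va5c (O : OneSys p) (d : ∀ i, XV O i) {v v' : VV p} {i : ι}
    (hv : v.1 = (none, none)) (hv' : v'.1 = (none, none))
    (hphi : phiV O d i v = phiV O d i v') : k1V v i = k1V v' i ∧ k2V v i = k2V v' i := by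
  have n1 : v.1.1 ≠ some i := fun k => by rw [hv] at k; cases k
  have n2 : v.1.2 ≠ some i := fun k => by rw [hv] at k; cases k
  have n1' : v'.1.1 ≠ some i := fun k => by rw [hv'] at k; cases k
  have n2' : v'.1.2 ≠ some i := fun k => by rw [hv'] at k; cases k
  have f1 := phi_of_mem O d (repV_mem v) n1 n2
  have f2 := phi_of_mem O d (repV_mem v') n1' n2'
  rw [← hphi] at f2
  have j1 := (comp_joined f1).1 f2
  have hL := cell_lab (O.iis i).hq (OS_cell (g.he i) (geo_hr g i)) j1
  rw [(O.iis i).comm, (O.iis i).comm] at hL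
  exact ⟨(congrFun (congrArg Prod.fst hL) ()).symm, (congrFun (congrArg Prod.snd hL) ()).symm⟩

theorem TT_eq_of_mem {x : Unit → ℂ} {w1 w2 : Unit → ℕ} {Z : Type*} [TopologicalSpace Z]
    {q : Z → YS univ x w1 w2} {t t' : TT q} {z : Z} (h : t.1 = t'.1) (hz : z ∈ t.2.1)
    (hz' : z ∈ t'.2.1) : t = t' := by
  obtain ⟨b, C⟩ := t
  obtain ⟨b', C'⟩ := t'
  have hb : b = b' := h
  subst hb
  have : C = C' := comp_disj hz hz'
  rw [this]

theorem va6a (O : OneSys p) (d : ∀ i, XV O i) {v x : VV p} {i : ι} (h : VLe v x)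
    (hv : v.1 = (none, none)) (h1 : x.1.1 = some i) (h2 : x.1.2 ≠ some i) :
    AV O i (phiV O d i v) (K1V x) = LV O d true i x := by
  obtain ⟨-, z, hz, hzx⟩ := h
  have n1 : v.1.1 ≠ some i := fun k => by rw [hv] at k; cases k
  have n2 : v.1.2 ≠ some i := fun k => by rw [hv] at k; cases k
  have f1 := phi_of_mem O d hz n1 n2
  obtain ⟨k1, k2⟩ := kk1_of_mem (O.iis i).hp hzx h1 h2
  obtain ⟨l1, l2⟩ := L1_of_mem O d hzx h1 h2
  have e1 : ll (O.q i (O.f i z)) = ll (p z) := by
    rw [(O.iis i).comm]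
    rfl
  have k3 : (conj (g.e i) * exp (ll (O.q i (O.f i z)))).re ≠ 0 := by
    rw [e1]
    exact k2.ne
  have m1 := lineA_of_mem (O.iis i).hq (g.he i) (geo_hr g i) f1 k3
  rw [e1, ← k1] at m1
  refine TT_eq_of_mem ?_ m1 l2
  rw [l1]
  have hodd := kk_odd (g.he i) k2
  rw [← k1] at hodd
  exact decide_eq_true hodd

theorem va6b (O : OneSys p) (d : ∀ i, XV O i) {v x : VV p} {i : ι} (h : VLe v x)
    (hv : v.1 = (none, none)) (h1 : x.1.2 = some i) (h2 : x.1.1 ≠ some i) :
    AV O i (phiV O d i v) (K2V x) = LV O d false i x := by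
  obtain ⟨-, z, hz, hzx⟩ := h
  have n1 : v.1.1 ≠ some i := fun k => by rw [hv] at k; cases k
  have n2 : v.1.2 ≠ some i := fun k => by rw [hv] at k; cases k
  have f1 := phi_of_mem O d hz n1 n2
  obtain ⟨k1, k2⟩ := kk2_of_mem (O.iis i).hp hzx h1 h2
  obtain ⟨l1, l2⟩ := L2_of_mem O d hzx h1 h2
  have e1 : ll (O.q i (O.f i z)) = ll (p z) := by
    rw [(O.iis i).comm]
    rfl
  have k3 : (conj (g.e i) * exp (ll (O.q i (O.f i z)))).re ≠ 0 := by
    rw [e1]
    exact k2.ne'
  have m1 := lineA_of_mem (O.iis i).hq (g.he i) (geo_hr g i) f1 k3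
  rw [e1, ← k1] at m1
  refine TT_eq_of_mem ?_ m1 l2
  rw [l1]
  have hev := kk_even (g.he i) k2
  rw [← k1] at hev
  exact decide_eq_false (Int.not_odd_iff_even.2 hev)

end ASP87
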