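import Pool.Agent.ASP87.VMove
import Pool.Agent.ASP87.VMem

/-!
# ASP87/VAM: labels and times are monotone

`VLe v w` is the order of lifted states.

* `va_k1mono` etc.: `v <= w`: take `z` in both and compute both sides at `z` (`lab1_of_mem`, `kk1_of_mem`; by
  `StLe`, `v.1.1 = none` or `= w.1.1`).
-/

namespace ASP87

open Complex Topology Set ComplexConjugate

variable {ι : Type} [Fintype ι] [DecidableEq ι] {g : Geo ι} {w1 w2 : ι → ℕ}
variable {Z : Type} [TopologicalSpace Z] {p : Z → YD g w1 w2}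

theorem va_k1mono (hp : IsCoveringMap p) {v w : VV p} (h : VLe v w) {m : ι}
    (hm : w.1.1 ≠ some m) : k1V v m = k1V w m := by
  obtain ⟨hst, z, hz1, hz2⟩ := h
  have hv : v.1.1 ≠ some m := by
    rcases hst.1 with h | h
    · rw [h]; simp
    · rw [h]; exact hm
  rw [lab1_of_mem hp hz1 hv, lab1_of_mem hp hz2 hm]

theorem va_k2mono (hp : IsCoveringMap p) {v w : VV p} (h : VLe v w) {m : ι}
    (hm : w.1.2 ≠ some m) : k2V v m = k2V w m := by
  obtain ⟨hst, z, hz1, hz2⟩ := h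
  have hv : v.1.2 ≠ some m := by
    rcases hst.2 with h | h
    · rw [h]; simp
    · rw [h]; exact hm
  rw [lab2_of_mem hp hz1 hv, lab2_of_mem hp hz2 hm]

theorem va_K1mono (hp : IsCoveringMap p) {v w : VV p} (h : VLe v w) {i : ι}
    (h1 : v.1.1 = some i) (h2 : v.1.2 ≠ some i) (h3 : w.1.2 ≠ some i) : K1V v = K1V w := by
  obtain ⟨hst, z, hz1, hz2⟩ := h
  have hw : w.1.1 = some i := by
    rcases hst.1 with h | h
    · rw [h] at h1; cases h1
    · rw [← h]; exact h1
  exact (kk1_of_mem hp hz1 h1 h2).1.trans (kk1_of_mem hp hz2 hw h3).1.symm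

theorem va_K2mono (hp : IsCoveringMap p) {v w : VV p} (h : VLe v w) {i : ι}
    (h1 : v.1.2 = some i) (h2 : v.1.1 ≠ some i) (h3 : w.1.1 ≠ some i) : K2V v = K2V w := by
  obtain ⟨hst, z, hz1, hz2⟩ := h
  have hw : w.1.2 = some i := by
    rcases hst.2 with h | h
    · rw [h] at h1; cases h1
    · rw [← h]; exact h1
  exact (kk2_of_mem hp hz1 h1 h2).1.trans (kk2_of_mem hp hz2 hw h3).1.symm

theorem va_K1odd (hp : IsCoveringMap p) {v : VV p} {i : ι} (h1 : v.1.1 = some i)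
    (h2 : v.1.2 ≠ some i) : Odd (K1V v) := by
  obtain ⟨h3, h4⟩ := kk1_of_mem hp (repV_mem v) h1 h2
  rw [h3]
  exact kk_odd (g.he i) h4

theorem va_K2even (hp : IsCoveringMap p) {v : VV p} {i : ι} (h1 : v.1.2 = some i)
    (h2 : v.1.1 ≠ some i) : Even (K2V v) := by
  obtain ⟨h3, h4⟩ := kk2_of_mem hp (repV_mem v) h1 h2
  rw [h3]
  exact kk_even (g.he i) h4

end ASP87
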