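import Pool.Agent.ASP87.IIShell
import Pool.Agent.ASP87.OneLine
import Pool.Agent.ASP87.TPP
import Pool.Agent.ASP87.TW

/-!
# ASP87/VBase: the poset of lifted states (definitions, transitivity)

`VV p` = pairs (state `s`, path component of the preimage of the region of `s`). Order: `StLe` and the
components intersect. `vv_trans` gives transitivity:
PROOF of `vv_trans` (`C` over `s`, `C'` over `t`, `C''` over `u`, `StLe s t`, `StLe t u`, `C inter C'` and
`C' inter C''` nonempty; claim: triple intersection nonempty). If `s = t` then `C = C'` (`comp_disj`, after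
`subst`), if `t = u` then `C' = C''`. Otherwise the number of `some` increases strictly twice, so
`s = (none,none)`, `t = (some i, none)` or `(none, some j)`, in particular `t.1 <> t.2`. Let `z1 in C inter C'`,
`z2 in C' inter C''`. `chain_pt2` for `{s,t,u}`: `b`. `sep_surj` with `y0 = p z1`, `i1 = i2 = none`,
`u = dirU t`, `q = b` (half plane conditions: `U_lt1`, `U_lt2` for the state `(none,none)` and `half`;
`dirU_pos`): `y` with positions `b`, `sepLab e (dirU t) none none y = ... (p z1)`. By `cell_move` for the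
cell `chainSep {s,t}` (least element `s`, separated state `t`; labels `sepLab e (dirU t) none none`): `z''` joined
to `z1` over `{s,t}`, `p z'' = y`. Let `L = sepLab e (dirU t) t.1 t.2` (labels of the cells `{t}` and `{t,u}`, least
element `t`, separated state `t`): `L y = L (p z1)` (the components of `L` are 0 or components of the
previous labels), `L (p z1) = L (p z2)` (`cell_lab` for `{t}`; `z1, z2 in C'`). `cell_move` for `{t,u}`: `z'''`
joined to `z2` over `{t,u}`, `p z''' = y`. `z''` and `z'''` are joined over `{t}`: `cell_sheet`: equal. This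
point is in `C`, `C'` and `C''`.
-/

set_option linter.unusedSectionVars false

namespace ASP87

open Complex Topology Set ComplexConjugate

universe u

variable {ι : Type} [Fintype ι] [DecidableEq ι] {g : Geo ι} {w1 w2 : ι → ℕ}
variable {Z : Type} [TopologicalSpace Z]

/-- lifted states -/
def VV (p : Z → YD g w1 w2) : Type := Σ s : St ι, Comp p (chU g w1 w2 {s})

theorem chU_mono {S S' : Set (St ι)} (h : S ⊆ S') : chU g w1 w2 S' ⊆ chU g w1 w2 S :=
  fun _ hy t ht => hy t (h ht)

theorem StLe_refl' (s : St ι) : StLe s s := ⟨Or.inr rfl, Or.inr rfl⟩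

theorem StLe_trans {s t u : St ι} (h : StLe s t) (h' : StLe t u) : StLe s u := by
  refine ⟨?_, ?_⟩
  · rcases h.1 with h1 | h1
    · exact Or.inl h1
    · rcases h'.1 with h2 | h2
      · exact Or.inl (h1.trans h2)
      · exact Or.inr (h1.trans h2)
  · rcases h.2 with h1 | h1
    · exact Or.inl h1
    · rcases h'.2 with h2 | h2
      · exact Or.inl (h1.trans h2)
      · exact Or.inr (h1.trans h2)

theorem StLe_antisymm {s t : St ι} (h : StLe s t) (h' : StLe t s) : s = t := by
  refine Prod.ext ?_ ?_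
  · rcases h.1 with h1 | h1
    · rcases h'.1 with h2 | h2
      · rw [h1, h2]
      · exact h2.symm
    · exact h1
  · rcases h.2 with h1 | h1
    · rcases h'.2 with h2 | h2
      · rw [h1, h2]
      · exact h2.symm
    · exact h1

private theorem strict_twice {s t u : St ι} (hst : StLe s t) (htu : StLe t u) (h : s ≠ t)
    (h' : t ≠ u) : s.1 = none ∧ s.2 = none ∧ t.1 ≠ t.2 := by
  have A1 : s.1 = none := by
    by_contra hn
    have e1 : s.1 = t.1 := hst.1.resolve_left hn
    have e2 : t.1 = u.1 := htu.1.resolve_left (fun k => hn (e1.trans k))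
    have e3 : t.2 = none := by
      rcases htu.2 with k | k
      · exact k
      · exact absurd (Prod.ext e2 k) h'
    have e4 : s.2 = t.2 := by
      rcases hst.2 with k | k
      · rw [k, e3]
      · exact k
    exact h (Prod.ext e1 e4)
  have A2 : s.2 = none := by
    by_contra hn
    have e1 : s.2 = t.2 := hst.2.resolve_left hn
    have e2 : t.2 = u.2 := htu.2.resolve_left (fun k => hn (e1.trans k))
    have e3 : t.1 = none := by
      rcases htu.1 with k | k
      · exact k
      · exact absurd (Prod.ext k e2) h'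
    have e4 : s.1 = t.1 := by
      rcases hst.1 with k | k
      · rw [k, e3]
      · exact k
    exact h (Prod.ext e4 e1)
  refine ⟨A1, A2, fun k => ?_⟩
  by_cases hn : t.1 = none
  · exact h (Prod.ext (A1.trans hn.symm) (A2.trans (k ▸ hn).symm))
  · have e1 : t.1 = u.1 := htu.1.resolve_left hn
    have e2 : t.2 = u.2 := htu.2.resolve_left (fun k' => hn (k.trans k'))
    exact h' (Prod.ext e1 e2)

private theorem sepLab_none {D : Set ℂ} {x : ι → ℂ} {w1 w2 : ι → ℕ} (e : ι → ℂ) (u : ℂ)
    (i1 i2 : Option ι) {y y' : YS D x w1 w2}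
    (h : sepLab e u none none y = sepLab e u none none y') :
    sepLab e u i1 i2 y = sepLab e u i1 i2 y' := by
  have h1 := congrArg Prod.fst h
  have h2 := congrArg (fun q => q.2.1) h
  have h3 := congrArg (fun q => q.2.2) h
  refine Prod.ext ?_ (Prod.ext ?_ ?_)
  · funext m
    have := congrFun h1 m
    simp only [sepLab, reduceCtorEq, if_false] at this
    simp only [sepLab]
    rw [this]
  · funext m
    have := congrFun h2 m
    simp only [sepLab, reduceCtorEq, if_false] at this
    simp only [sepLab]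
    rw [this]
  · simpa only [sepLab] using h3

theorem vv_trans {p : Z → YD g w1 w2} (hp : IsCoveringMap p) {s t u : St ι}
    (C : Comp p (chU g w1 w2 {s})) (C' : Comp p (chU g w1 w2 {t}))
    (C'' : Comp p (chU g w1 w2 {u})) (hst : StLe s t) (htu : StLe t u)
    (h1 : (C.1 ∩ C'.1).Nonempty) (h2 : (C'.1 ∩ C''.1).Nonempty) :
    (C.1 ∩ C'.1 ∩ C''.1).Nonempty := by
  obtain ⟨z1, hz1, hz1'⟩ := h1
  obtain ⟨z2, hz2, hz2'⟩ := h2
  by_cases e1 : s = t
  · subst e1
    have : C = C' := comp_disj hz1 hz1'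
    subst this
    exact ⟨z2, ⟨hz2, hz2⟩, hz2'⟩
  by_cases e2 : t = u
  · subst e2
    have : C' = C'' := comp_disj hz2 hz2'
    subst this
    exact ⟨z1, ⟨hz1, hz1'⟩, hz1'⟩
  obtain ⟨hs1, hs2, htt⟩ := strict_twice hst htu e1 e2
  have hsu := StLe_trans hst htu
  have hchain : ∀ a ∈ ({s, t, u} : Set (St ι)), ∀ b ∈ ({s, t, u} : Set (St ι)),
      StLe a b ∨ StLe b a := by
    intro a ha b hb
    rcases ha with rfl | rfl | ha <;> rcases hb with rfl | rfl | hb
    · exact Or.inl (StLe_refl' _)
    · exact Or.inl hst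
    · rw [Set.mem_singleton_iff] at hb
      subst hb
      exact Or.inl hsu
    · exact Or.inr hst
    · exact Or.inl (StLe_refl' _)
    · rw [Set.mem_singleton_iff] at hb
      subst hb
      exact Or.inl htu
    · rw [Set.mem_singleton_iff] at ha
      subst ha
      exact Or.inr hsu
    · rw [Set.mem_singleton_iff] at ha
      subst ha
      exact Or.inr htu
    · rw [Set.mem_singleton_iff] at ha hb
      subst ha
      subst hb
      exact Or.inl (StLe_refl' _)
  have hmin : ∀ a ∈ ({s, t, u} : Set (St ι)), StLe s a := by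
    intro a ha
    rcases ha with rfl | rfl | ha
    · exact StLe_refl' _
    · exact hst
    · rw [Set.mem_singleton_iff] at ha
      subst ha
      exact hsu
  have ms : s ∈ ({s, t, u} : Set (St ι)) := Or.inl rfl
  have mt : t ∈ ({s, t, u} : Set (St ι)) := Or.inr (Or.inl rfl)
  have mu : u ∈ ({s, t, u} : Set (St ι)) := Or.inr (Or.inr rfl)
  obtain ⟨b, hb, hb1, hb2, -⟩ := g.chain_pt2 _ hchain s ms hmin
  -- states of `p z1`
  have q1s : (c1 (p z1), c2 (p z1)) ∈ g.U s := comp_mem hz1 s rfl
  have q1t : (c1 (p z1), c2 (p z1)) ∈ g.U t := comp_mem hz1' t rfl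
  have q2t : (c1 (p z2), c2 (p z2)) ∈ g.U t := comp_mem hz2 t rfl
  have q2u : (c1 (p z2), c2 (p z2)) ∈ g.U u := comp_mem hz2' u rfl
  have ns1 : ∀ m, s.1 ≠ some m := fun m h => by rw [hs1] at h; cases h
  have ns2 : ∀ m, s.2 ≠ some m := fun m h => by rw [hs2] at h; cases h
  obtain ⟨y, hy1, hy2, hyL⟩ := sep_surj g.e g.he (dirU g t) (norm_dirU g t) none none (p z1)
    (fun m _ => g.half ((g.U_lt1 q1s (ns1 m)).trans g.h12))
    (fun m _ => g.half ((g.U_lt2 q1s (ns2 m)).trans g.h12))
    (dirU_pos g htt q1t) b (mem_ball_zero_iff.2 (hb s ms).1) (mem_ball_zero_iff.2 (hb s ms).2.1)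
    (fun m _ => g.half ((g.U_lt1 (hb s ms) (ns1 m)).trans g.h12))
    (fun m _ => g.half ((g.U_lt2 (hb s ms) (ns2 m)).trans g.h12))
    (dirU_pos g htt (hb t mt)) (fun m _ => hb1 m) (fun m _ => hb2 m)
  have hyU : ∀ a ∈ ({s, t, u} : Set (St ι)), (c1 y, c2 y) ∈ g.U a := by
    intro a ha
    rw [hy1, hy2]
    exact hb a ha
  -- the cells
  have sub1 : ({s, t} : Set (St ι)) ⊆ {s, t, u} := by
    intro a ha
    rcases ha with rfl | rfl
    · exact ms
    · exact mt
  have sub2 : ({t, u} : Set (St ι)) ⊆ {s, t, u} := by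
    intro a ha
    rcases ha with rfl | rfl
    · exact mt
    · exact mu
  have sub3 : ({t} : Set (St ι)) ⊆ {s, t, u} := by
    intro a ha
    rw [Set.mem_singleton_iff] at ha
    rw [ha]
    exact mt
  have cell1 := chainSep g w1 w2 {s, t} (fun a ha b hb => hchain a (sub1 ha) b (sub1 hb)) s
    (Or.inl rfl) (fun a ha => hmin a (sub1 ha)) t (Or.inr rfl) htt
  rw [hs1, hs2] at cell1
  have min2 : ∀ a ∈ ({t, u} : Set (St ι)), StLe t a := by
    intro a ha
    rcases ha with rfl | rfl
    · exact StLe_refl' _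
    · exact htu
  have cell2 := chainSep g w1 w2 {t, u} (fun a ha b hb => hchain a (sub2 ha) b (sub2 hb)) t
    (Or.inl rfl) min2 t (Or.inl rfl) htt
  have cell3 := chainSep g w1 w2 {t} (fun a ha b hb => hchain a (sub3 ha) b (sub3 hb)) t
    rfl (fun a ha => by rw [Set.mem_singleton_iff] at ha; rw [ha]; exact StLe_refl' _) t rfl htt
  obtain ⟨z3, hz3, hp3⟩ := cell_move hp cell1 (z := z1) (y := y)
    (by
      intro a ha
      rcases ha with rfl | rfl
      · exact q1s
      · exact q1t)
    (fun a ha => hyU a (sub1 ha)) hyL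
  have hLy : sepLab g.e (dirU g t) t.1 t.2 y = sepLab g.e (dirU g t) t.1 t.2 (p z1) :=
    sepLab_none _ _ _ _ hyL
  have hj12 : JoinedIn (p ⁻¹' chU g w1 w2 {t}) z1 z2 := (comp_joined hz1').1 hz2
  have hL12 := cell_lab hp cell3 hj12
  obtain ⟨z4, hz4, hp4⟩ := cell_move hp cell2 (z := z2) (y := y)
    (by
      intro a ha
      rcases ha with rfl | rfl
      · exact q2t
      · exact q2u)
    (fun a ha => hyU a (sub2 ha)) (hLy.trans hL12.symm)
  have j3t : JoinedIn (p ⁻¹' chU g w1 w2 {t}) z1 z3 :=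
    hz3.mono (preimage_mono (chU_mono (by
      intro a ha
      rw [Set.mem_singleton_iff] at ha
      rw [ha]
      exact Or.inr rfl)))
  have j3s : JoinedIn (p ⁻¹' chU g w1 w2 {s}) z1 z3 :=
    hz3.mono (preimage_mono (chU_mono (by
      intro a ha
      rw [Set.mem_singleton_iff] at ha
      rw [ha]
      exact Or.inl rfl)))
  have j4t : JoinedIn (p ⁻¹' chU g w1 w2 {t}) z2 z4 :=
    hz4.mono (preimage_mono (chU_mono (by
      intro a ha
      rw [Set.mem_singleton_iff] at ha
      rw [ha]
      exact Or.inl rfl)))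
  have j4u : JoinedIn (p ⁻¹' chU g w1 w2 {u}) z2 z4 :=
    hz4.mono (preimage_mono (chU_mono (by
      intro a ha
      rw [Set.mem_singleton_iff] at ha
      rw [ha]
      exact Or.inr rfl)))
  have heq : z3 = z4 := cell_sheet hp cell3 ((j3t.symm.trans hj12).trans j4t)
    (by rw [hp3, hp4])
  refine ⟨z3, ⟨(comp_joined hz1).2 j3s, (comp_joined hz1').2 j3t⟩, ?_⟩
  rw [heq]
  exact (comp_joined hz2').2 j4u

/-- the order of the lifted states -/
@[reducible] def vvOrder {p : Z → YD g w1 w2} (hp : IsCoveringMap p) :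
    PartialOrder (VV p) where
  le v w := StLe v.1 w.1 ∧ (v.2.1 ∩ w.2.1).Nonempty
  le_refl v := ⟨⟨Or.inr rfl, Or.inr rfl⟩, by
    rw [inter_self]
    exact comp_nonempty v.2⟩
  le_trans a b c hab hbc := ⟨StLe_trans hab.1 hbc.1, by
    obtain ⟨z, hz⟩ := vv_trans hp a.2 b.2 c.2 hab.1 hbc.1 hab.2 hbc.2
    exact ⟨z, hz.1.1, hz.2⟩⟩
  le_antisymm a b hab hba := by
    obtain ⟨s, C⟩ := a
    obtain ⟨t, C'⟩ := b
    have hst : s = t := StLe_antisymm hab.1 hba.1
    subst hst
    obtain ⟨z, hz1, hz2⟩ := hab.2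
    have : C = C' := comp_disj hz1 hz2
    rw [this]

/-- a point of a lifted state -/
noncomputable def repV {p : Z → YD g w1 w2} (v : VV p) : Z := (comp_nonempty v.2).choose

theorem repV_mem {p : Z → YD g w1 w2} (v : VV p) : repV v ∈ v.2.1 :=
  (comp_nonempty v.2).choose_spec

/-- label of particle 1 -/
noncomputable def k1V {p : Z → YD g w1 w2} (v : VV p) (m : ι) : ℂ :=
  lab (w1 m) (s1 (p (repV v)) m) (rt (w1 m) (LL (g.e m) (g.x m) (c1 (p (repV v)))))

noncomputable def k2V {p : Z → YD g w1 w2} (v : VV p) (m : ι) : ℂ :=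
  lab (w2 m) (s2 (p (repV v)) m) (rt (w2 m) (LL (g.e m) (g.x m) (c2 (p (repV v)))))

/-- time of particle 1 in a petal -/
noncomputable def K1V {p : Z → YD g w1 w2} (v : VV p) : ℤ :=
  match v.1.1 with
  | some i => kk (g.e i) (ll (p (repV v)))
  | none => 0

noncomputable def K2V {p : Z → YD g w1 w2} (v : VV p) : ℤ :=
  match v.1.2 with
  | some i => kk (g.e i) (ll (p (repV v)))
  | none => 0

/-- the one-point systems below `Z` -/
structure OneSys (p : Z → YD g w1 w2) where
  Z1 : ι → Type
  top : ∀ i, TopologicalSpace (Z1 i)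
  q : ∀ i, Z1 i → Y1 g w1 w2 i
  f : ∀ i, Z → Z1 i
  iis : ∀ i, IIS g w1 w2 i p (q i) (f i)
  sc : ∀ i, SimplyConnectedSpace (Z1 i)
  lpc : ∀ i, LocallyPathConnectedSpace (Z1 i)
  wc : ∀ i, WC (Z1 i)

attribute [instance] OneSys.top OneSys.sc OneSys.lpc

/-- outer components of the one-point systems -/
abbrev XV {p : Z → YD g w1 w2} (O : OneSys p) (i : ι) : Type :=
  Comp (O.q i) (OS (fun _ => g.x i) (fun _ => w1 i) (fun _ => w2 i) (g.e i) g.r1)

open Classical in
/-- the component of a lifted state in the one-point system (default `d` if it is not outside) -/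
noncomputable def phiV {p : Z → YD g w1 w2} (O : OneSys p) (d : ∀ i, XV O i) (i : ι) (v : VV p) :
    XV O i :=
  if h : O.q i (O.f i (repV v)) ∈ OS (fun _ => g.x i) (fun _ => w1 i) (fun _ => w2 i) (g.e i)
    g.r1 then compOf (O.q i) _ (O.f i (repV v)) h else d i

/-- lines -/
noncomputable def AV {p : Z → YD g w1 w2} (O : OneSys p) (i : ι) (xi : XV O i) (k : ℤ) :
    TT (O.q i) :=
  lineA (O.iis i).hq (g.he i) (geo_hr g i) xi k

open Classical in
/-- slit component of a lifted state (`b = true` for particle 1, `false` for particle 2) -/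
noncomputable def LV {p : Z → YD g w1 w2} (O : OneSys p) (d : ∀ i, XV O i) (b : Bool) (i : ι)
    (v : VV p) : TT (O.q i) :=
  if h : O.q i (O.f i (repV v)) ∈ DS (fun _ => g.x i) (fun _ => w1 i) (fun _ => w2 i) b
  then ⟨b, compOf (O.q i) _ (O.f i (repV v)) h⟩ else AV O i (d i) 0

end ASP87
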