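import Pool.Agent.ASP87.VMove

/-!
# ASP87/VChain: chains of lifted states

`VLe v w` is the order of lifted states.

* `chU_open`: `chU S` is the finite intersection of preimages of `g.U s` under the continuous map `(c1, c2)`.
* `rkS_lt`: `StLe s t`, `s <> t` gives `rkS s < rkS t` (cases).
* `chain3`: a nonempty pairwise comparable finite set `s` of lifted states has `v0, v1, v2 in s` with
  `VLe v0 v1`, `VLe v1 v2`, `VLe v0 v` for all `v in s` and every element of `s` is one of `v0, v1, v2`.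
  PROOF: two elements of `s` with the same rank are equal (comparable and states of equal rank with `StLe`
  are equal by `rkS_lt`, then `v_strict`). Ranks are `0, 1, 2` (`rkS_le`). `v0` = element of minimal rank,
  `v2` = of maximal rank (`Finset.exists_min_image`, `exists_max_image`), `v1` = an element different from
  both if there is one (rank 1 = the only value strictly between), else `v0`.
-/

namespace ASP87

open Complex Topology Set ComplexConjugate

variable {ι : Type} [Fintype ι] [DecidableEq ι] {g : Geo ι} {w1 w2 : ι → ℕ}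
variable {Z : Type} [TopologicalSpace Z] {p : Z → YD g w1 w2}

private theorem c1_cont' {D : Set ℂ} {x : ι → ℂ} : Continuous (c1 : YS D x w1 w2 → ℂ) :=
  continuous_fst.comp continuous_subtype_val

private theorem c2_cont' {D : Set ℂ} {x : ι → ℂ} : Continuous (c2 : YS D x w1 w2 → ℂ) :=
  continuous_fst.comp (continuous_snd.comp continuous_subtype_val)

theorem chU_open (S : Set (St ι)) : IsOpen (chU g w1 w2 S) := by
  have h : chU g w1 w2 S = ⋂ t ∈ S, (fun y : YD g w1 w2 => (c1 y, c2 y)) ⁻¹' g.U t := by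
    ext y
    simp only [mem_iInter, mem_preimage]
    rfl
  rw [h]
  exact S.toFinite.isOpen_biInter fun t _ => (g.U_open t).preimage (c1_cont'.prodMk c2_cont')

theorem rkS_lt {s t : St ι} (h : StLe s t) (hst : s ≠ t) : rkS s < rkS t := by
  obtain ⟨h3, h4⟩ := h
  obtain ⟨s1, s2⟩ := s
  obtain ⟨t1, t2⟩ := t
  simp only at h3 h4
  unfold rkS
  rcases h3 with h3 | h3 <;> rcases h4 with h4 | h4 <;> subst h3 <;> subst h4
  · cases t1 <;> cases t2 <;> simp at hst ⊢
  · cases t1 <;> cases s2 <;> simp at hst ⊢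
  · cases s1 <;> cases t2 <;> simp at hst ⊢
  · exact absurd rfl hst

theorem VLe_lt {v w : VV p} (h : VLe v w) (hvw : v ≠ w) : rkS v.1 < rkS w.1 :=
  rkS_lt h.1 fun hh => hvw (v_strict h hh)

theorem chain3 (s : Finset (VV p)) (hs : s.Nonempty)
    (hc : ∀ a ∈ s, ∀ b ∈ s, VLe a b ∨ VLe b a) :
    ∃ v0 ∈ s, ∃ v1 ∈ s, ∃ v2 ∈ s, VLe v0 v1 ∧ VLe v1 v2 ∧ (∀ v ∈ s, VLe v0 v) ∧
      ∀ v ∈ s, v = v0 ∨ v = v1 ∨ v = v2 := by
  classical
  have key : ∀ a ∈ s, ∀ b ∈ s, rkS a.1 ≤ rkS b.1 → VLe a b := by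
    intro a ha b hb hab
    rcases hc a ha b hb with h | h
    · exact h
    · by_cases e : b = a
      · subst e
        exact h
      · exact absurd (VLe_lt h e) (not_lt.mpr hab)
  have keq : ∀ a ∈ s, ∀ b ∈ s, rkS a.1 = rkS b.1 → a = b := by
    intro a ha b hb hab
    by_contra hne
    exact absurd (VLe_lt (key a ha b hb hab.le) hne) (by rw [hab]; exact lt_irrefl _)
  obtain ⟨v0, hv0, hmin⟩ := s.exists_min_image (fun v => rkS v.1) hs
  obtain ⟨v2, hv2, hmax⟩ := s.exists_max_image (fun v => rkS v.1) hs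
  by_cases hex : ∃ v ∈ s, v ≠ v0 ∧ v ≠ v2
  · obtain ⟨v1, hv1, h10, h12⟩ := hex
    refine ⟨v0, hv0, v1, hv1, v2, hv2, key _ hv0 _ hv1 (hmin _ hv1), key _ hv1 _ hv2 (hmax _ hv1),
      fun v hv => key _ hv0 _ hv (hmin _ hv), ?_⟩
    intro v hv
    by_contra hcon
    push Not at hcon
    obtain ⟨a1, a2, a3⟩ := hcon
    have b1 := VLe_lt (key _ hv0 _ hv1 (hmin _ hv1)) h10.symm
    have b2 := VLe_lt (key _ hv1 _ hv2 (hmax _ hv1)) h12
    have b3 := VLe_lt (key _ hv0 _ hv (hmin _ hv)) (Ne.symm a1)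
    have b4 := VLe_lt (key _ hv _ hv2 (hmax _ hv)) a3
    have b5 := rkS_le v2.1
    apply a2
    apply keq v hv v1 hv1
    omega
  · push Not at hex
    refine ⟨v0, hv0, v0, hv0, v2, hv2, key _ hv0 _ hv0 le_rfl, key _ hv0 _ hv2 (hmax _ hv0),
      fun v hv => key _ hv0 _ hv (hmin _ hv), ?_⟩
    intro v hv
    by_cases e : v = v0
    · exact Or.inl e
    · exact Or.inr (Or.inr (hex v hv e))

end ASP87
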