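import Pool.Agent.ASP87.VJoin

/-!
# ASP87/VGood: the lifted states form a good cover

`GoodCov` for `fun v : VV p => v.2.1` with the order `vvOrder hp`, if the components of states `(i,i)` are
weakly contractible.

* op: `comp_open`. cover: `U_cover` for `p z` (`c1, c2` are in the unit ball), `mkV`.
* inter: a common point has both states: `U_chain`; conversely by definition of the order (`inter_comm`).
* wc: `s` a nonempty chain, `S = {v.1 | v in s}`. Nonempty intersection: `chain3` and `vv_trans`. If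
  `S = {(some i, some i)}` then `s = {v0}` (`v_strict`) and `hII` applies. Otherwise the intersection equals
  `{z' | JoinedIn (p^-1 (chU S)) z z'}` for any `z` in it (`chain_joined`; conversely `of_joined`), `chain_cell`.
-/

namespace ASP87

open Complex Topology Set ComplexConjugate

variable {ι : Type} [Fintype ι] [DecidableEq ι] {g : Geo ι} {w1 w2 : ι → ℕ}
variable {Z : Type} [TopologicalSpace Z] {p : Z → YD g w1 w2}

theorem vv_good [LocallyPathConnectedSpace Z] (hp : IsCoveringMap p)
    (hII : ∀ (i : ι) (C : Comp p (chU g w1 w2 {((some i, some i) : St ι)})), WC (C.1 : Set Z)) :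
    @GoodCov Z (VV p) _ (vvOrder hp) (fun v => v.2.1) := by
  refine @GoodCov.mk Z (VV p) _ (vvOrder hp) _ ?_ ?_ ?_ ?_
  · intro v
    exact comp_open hp.continuous (chU_open _) v.2
  · intro z
    have h1 : ‖c1 (p z)‖ < 1 := by
      have h : c1 (p z) ∈ Metric.ball (0 : ℂ) 1 := (p z).2.1
      simpa using h
    have h2 : ‖c2 (p z)‖ < 1 := by
      have h : c2 (p z) ∈ Metric.ball (0 : ℂ) 1 := (p z).2.2.1
      simpa using h
    obtain ⟨s, hs⟩ := g.U_cover h1 h2
    have hs' : p z ∈ chU g w1 w2 {s} := by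
      intro t ht
      obtain rfl : t = s := ht
      exact hs
    exact ⟨mkV z s hs', mem_mkV z s hs'⟩
  · intro v w
    constructor
    · rintro ⟨z, hz1, hz2⟩
      have h1 : (c1 (p z), c2 (p z)) ∈ g.U v.1 := comp_mem hz1 v.1 rfl
      have h2 : (c1 (p z), c2 (p z)) ∈ g.U w.1 := comp_mem hz2 w.1 rfl
      rcases g.U_chain h1 h2 with h | h
      · exact Or.inl ⟨h, z, hz1, hz2⟩
      · exact Or.inr ⟨h, z, hz2, hz1⟩
    · rintro (h | h)
      · exact h.2
      · rw [inter_comm]
        exact h.2
  · intro s hs hc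
    have hc' : ∀ a ∈ s, ∀ b ∈ s, VLe a b ∨ VLe b a := hc
    by_cases hn : ∃ v ∈ s, ∃ i, v.1 = (some i, some i) ∧ s = {v}
    · obtain ⟨v, hv, i, hvi, hsv⟩ := hn
      have h1 : (⋂ u ∈ s, (fun v : VV p => v.2.1) u) = v.2.1 := by
        rw [hsv]
        exact Finset.set_biInter_singleton v (fun v : VV p => v.2.1)
      rw [h1]
      obtain ⟨t, C⟩ := v
      dsimp only at hvi
      subst hvi
      exact hII i C
    · have hn' : ∀ v ∈ s, ∀ i, v.1 = (some i, some i) → s ≠ {v} :=
        fun v hv i h1 h2 => hn ⟨v, hv, i, h1, h2⟩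
      obtain ⟨z, hz⟩ : ∃ z, ∀ v ∈ s, z ∈ v.2.1 := by
        obtain ⟨v0, h0, v1, h1, v2, h2, h01, h12, -, h4⟩ := chain3 s hs hc'
        obtain ⟨z, ⟨hz0, hz1⟩, hz2⟩ := vv_trans hp v0.2 v1.2 v2.2 h01.1 h12.1 h01.2 h12.2
        refine ⟨z, fun v hv => ?_⟩
        rcases h4 v hv with rfl | rfl | rfl
        · exact hz0
        · exact hz1
        · exact hz2
      have h1 : (⋂ u ∈ s, (fun v : VV p => v.2.1) u) =
          {z' : Z | JoinedIn (p ⁻¹' chU g w1 w2 {t | ∃ v ∈ s, v.1 = t}) z z'} := by
        ext z'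
        rw [mem_iInter₂]
        constructor
        · intro h
          exact chain_joined hp s hs hc' hn' hz h
        · intro h v hv
          exact of_joined (S := {t | ∃ v ∈ s, v.1 = t}) (hz v hv) ⟨v, hv, rfl⟩ h
      rw [h1]
      exact chain_cell hp s hs hc' hn' hz

end ASP87
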