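import Pool.Agent.ASP87.VChain

/-!
# ASP87/VJoin: intersections over chains of lifted states

`VLe v w` is the order of lifted states.

* `chain_joined`: `s` a nonempty pairwise comparable finite set (see `chain3`), `z, z'` in all `v.2.1`, `v in s`, `S = {v.1 | v in s}`, `S` not of the form
  `{(some i, some i)}`. Then `z, z'` are joined over `chU S`. Let `v0` be the least element.
  - `v0.1` separated (`v0.1.1 <> v0.1.2`): cells `chainSep {v0.1} v0.1 v0.1` and `chainSep S v0.1 v0.1` have the
    same label function `sepLab e (dirU v0.1) v0.1.1 v0.1.2`; `z, z'` are joined over `chU {v0.1}` (both in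
    `v0.2.1`), labels agree by `cell_lab`, `cell_Q`.
  - `v0.1 = (none,none)`, some `t in S` separated, `t = v.1`: cells `chainDia0` and `chainSep S (none,none) t` with
    label `sepLab e (dirU t) none none`. The first two components are those of `diaLab` (equal by `cell_lab`
    for `chainDia0`), the third is `ll - LU (dirU t) (c2 - c1)`, equal by `cell_lab` for the cell
    `chainSep {t} t t` (`z, z'` both in `v.2.1`, joined over `chU {t}`). `cell_Q`.
  - `v0.1 = (none,none)`, no separated state in `S`: `S = {(none,none)}` (then `S` = `{v0.1}`, trivial), or `S`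
    contains `(some i, some i)`; all elements of `S` are comparable, so `S = {(none,none), (some i, some i)}`:
    `cell_Q` with `chainDia0`, `chainDia1 i` (same label `diaLab`).
  - `v0.1 = (some i, some i)`: all elements of `S` are `(some i, some i)`: excluded.
* `chain_cell`: for the same `S` (not `{(some i, some i)}`) there are a type and a label making `chU S` a GCell
  (the cells named above). State it as: for `z in` all `v.2.1`, `WC {z' | JoinedIn (p^-1 (chU S)) z z'}`
  (`cell_wc`).
-/

set_option linter.unusedSectionVars false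

namespace ASP87

open Complex Topology Set ComplexConjugate

variable {ι : Type} [Fintype ι] [DecidableEq ι] {g : Geo ι} {w1 w2 : ι → ℕ}
variable {Z : Type} [TopologicalSpace Z] {p : Z → YD g w1 w2}

private theorem st_comp {a b : St ι} (hab : StLe a b) (ha : a.1 ≠ none) (ha' : a.2 ≠ none) :
    a = b := by
  refine Prod.ext ?_ ?_
  · rcases hab.1 with h | h
    · exact absurd h ha
    · exact h
  · rcases hab.2 with h | h
    · exact absurd h ha'
    · exact h

private theorem chain_key (hp : IsCoveringMap p) (s : Finset (VV p)) (hs : s.Nonempty)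
    (hc : ∀ a ∈ s, ∀ b ∈ s, VLe a b ∨ VLe b a) (hn : ∀ v ∈ s, ∀ i,
      v.1 = (some i, some i) → s ≠ {v}) {z z' : Z} (hz : ∀ v ∈ s, z ∈ v.2.1)
    (hz' : ∀ v ∈ s, z' ∈ v.2.1) :
    ∃ v0 ∈ s, ∃ (α β : Type) (L : YD g w1 w2 → α) (L0 : YD g w1 w2 → β),
      GCell (chU g w1 w2 {t | ∃ v ∈ s, v.1 = t}) L ∧ GCell (chU g w1 w2 {v0.1}) L0 ∧
        L (p z) = L (p z') := by
  obtain ⟨v0, hv0, -, -, -, -, -, -, hmin, -⟩ := chain3 s hs hc
  set S : Set (St ι) := {t | ∃ v ∈ s, v.1 = t} with hS
  have hchain : ∀ a ∈ S, ∀ b ∈ S, StLe a b ∨ StLe b a := by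
    rintro a ⟨v, hv, rfl⟩ b ⟨w, hw, rfl⟩
    rcases hc v hv w hw with h | h
    · exact Or.inl h.1
    · exact Or.inr h.1
  have hminS : ∀ a ∈ S, StLe v0.1 a := by
    rintro a ⟨v, hv, rfl⟩
    exact (hmin v hv).1
  have h0S : v0.1 ∈ S := ⟨v0, hv0, rfl⟩
  have single : ∀ t : St ι, t.1 ≠ t.2 → GCell (chU g w1 w2 {t}) (sepLab g.e (dirU g t) t.1 t.2) := by
    intro t ht
    refine chainSep g w1 w2 {t} ?_ t rfl ?_ t rfl ht
    · intro a ha b hb
      rw [Set.mem_singleton_iff] at ha hb
      rw [ha, hb]
      exact Or.inl (StLe_refl' _)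
    · intro a ha
      rw [Set.mem_singleton_iff] at ha
      rw [ha]
      exact StLe_refl' _
  have joined : ∀ v ∈ s, JoinedIn (p ⁻¹' chU g w1 w2 {v.1}) z z' := fun v hv =>
    (comp_joined (hz v hv)).1 (hz' v hv)
  refine ⟨v0, hv0, ?_⟩
  by_cases hsep : v0.1.1 ≠ v0.1.2
  · -- the least state is separated
    have c1 := single v0.1 hsep
    have c2 := chainSep g w1 w2 S hchain v0.1 h0S hminS v0.1 h0S hsep
    exact ⟨_, _, _, _, c2, c1, (cell_lab hp c1 (joined v0 hv0)).symm⟩
  rw [not_not] at hsep
  rcases hv0s : v0.1.1 with _ | i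
  · -- the least state is `(none, none)`
    have h00 : v0.1 = (none, none) := Prod.ext hv0s (hsep.symm.trans hv0s)
    have hj0 := joined v0 hv0
    rw [h00] at hj0 hminS h0S ⊢
    have lab0 := cell_lab hp (chainDia0 g w1 w2) hj0
    by_cases hex : ∃ v ∈ s, v.1.1 ≠ v.1.2
    · obtain ⟨v, hv, hvs⟩ := hex
      have c2 := chainSep g w1 w2 S hchain (none, none) h0S hminS v.1 ⟨v, hv, rfl⟩ hvs
      have lab1 := cell_lab hp (single v.1 hvs) (joined v hv)
      refine ⟨_, _, _, _, c2, chainDia0 g w1 w2, ?_⟩
      have e1 := congrArg Prod.fst lab0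
      have e2 := congrArg Prod.snd lab0
      have e3 := congrArg (fun q => q.2.2) lab1
      refine Prod.ext ?_ (Prod.ext ?_ ?_)
      · funext m
        have := congrFun e1 m
        simp only [diaLab] at this
        simp only [sepLab, reduceCtorEq, if_false]
        exact this.symm
      · funext m
        have := congrFun e2 m
        simp only [diaLab] at this
        simp only [sepLab, reduceCtorEq, if_false]
        exact this.symm
      · simp only [sepLab] at e3 ⊢
        exact e3.symm
    · push Not at hex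
      by_cases hall : ∀ v ∈ s, v.1 = (none, none)
      · have hSe : S = {(none, none)} := by
          ext t
          constructor
          · rintro ⟨v, hv, rfl⟩
            exact hall v hv
          · intro ht
            rw [Set.mem_singleton_iff] at ht
            rw [ht]
            exact h0S
        rw [hSe]
        exact ⟨_, _, _, _, chainDia0 g w1 w2, chainDia0 g w1 w2, lab0.symm⟩
      · push Not at hall
        obtain ⟨v, hv, hvn⟩ := hall
        obtain ⟨i, hi⟩ : ∃ i, v.1.1 = some i := by
          rcases h : v.1.1 with _ | i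
          · exact absurd (Prod.ext h ((hex v hv).symm.trans h)) hvn
          · exact ⟨i, rfl⟩
        have hvi : v.1 = (some i, some i) := Prod.ext hi ((hex v hv).symm.trans hi)
        have hSe : S = {(none, none), (some i, some i)} := by
          ext t
          constructor
          · rintro ⟨w, hw, rfl⟩
            rcases h : w.1.1 with _ | j
            · left
              exact Prod.ext h ((hex w hw).symm.trans h)
            · right
              rw [Set.mem_singleton_iff, ← hvi]
              have hw2 : w.1.2 = some j := (hex w hw).symm.trans h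
              have hv2 : v.1.2 = some i := (hex v hv).symm.trans hi
              rcases hc w hw v hv with h1 | h1
              · exact st_comp h1.1 (by rw [h]; simp) (by rw [hw2]; simp)
              · exact (st_comp h1.1 (by rw [hi]; simp) (by rw [hv2]; simp)).symm
          · rintro (ht | ht)
            · rw [ht]
              exact h0S
            · rw [Set.mem_singleton_iff] at ht
              exact ⟨v, hv, hvi.trans ht.symm⟩
        rw [hSe]
        exact ⟨_, _, _, _, chainDia1 g w1 w2 i, chainDia0 g w1 w2, lab0.symm⟩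
  · -- the least state is `(some i, some i)`: excluded
    exfalso
    have h0i : v0.1 = (some i, some i) := Prod.ext hv0s (hsep.symm.trans hv0s)
    apply hn v0 hv0 i h0i
    ext w
    rw [Finset.mem_singleton]
    constructor
    · intro hw
      have h1 := hmin w hw
      exact (v_strict h1 (st_comp h1.1 (by rw [h0i]; simp) (by rw [h0i]; simp))).symm
    · rintro rfl
      exact hv0

private theorem chain_mem {s : Finset (VV p)} {z : Z} (hz : ∀ v ∈ s, z ∈ v.2.1) :
    p z ∈ chU g w1 w2 {t | ∃ v ∈ s, v.1 = t} := by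
  rintro t ⟨v, hv, rfl⟩
  exact comp_mem (hz v hv) v.1 rfl

theorem chain_joined (hp : IsCoveringMap p) (s : Finset (VV p)) (hs : s.Nonempty)
    (hc : ∀ a ∈ s, ∀ b ∈ s, VLe a b ∨ VLe b a) (hn : ∀ v ∈ s, ∀ i,
      v.1 = (some i, some i) → s ≠ {v}) {z z' : Z} (hz : ∀ v ∈ s, z ∈ v.2.1)
    (hz' : ∀ v ∈ s, z' ∈ v.2.1) :
    JoinedIn (p ⁻¹' chU g w1 w2 {t | ∃ v ∈ s, v.1 = t}) z z' := by
  obtain ⟨v0, hv0, α, β, L, L0, h1, h2, h3⟩ := chain_key hp s hs hc hn hz hz'
  refine cell_Q hp h2 h1 (chU_mono ?_) ((comp_joined (hz v0 hv0)).1 (hz' v0 hv0))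
    (chain_mem hz) (chain_mem hz') h3
  intro t ht
  rw [Set.mem_singleton_iff] at ht
  exact ⟨v0, hv0, ht.symm⟩

theorem chain_cell (hp : IsCoveringMap p) (s : Finset (VV p)) (hs : s.Nonempty)
    (hc : ∀ a ∈ s, ∀ b ∈ s, VLe a b ∨ VLe b a) (hn : ∀ v ∈ s, ∀ i,
      v.1 = (some i, some i) → s ≠ {v}) {z : Z} (hz : ∀ v ∈ s, z ∈ v.2.1) :
    WC {z' : Z | JoinedIn (p ⁻¹' chU g w1 w2 {t | ∃ v ∈ s, v.1 = t}) z z'} := by
  obtain ⟨v0, hv0, α, β, L, L0, h1, h2, h3⟩ := chain_key hp s hs hc hn hz hz
  exact cell_wc hp h1 (chain_mem hz)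

end ASP87
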