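import Pool.Agent.ASP87.VBase

/-!
# ASP87/VMove: moving inside a component to a point with more states

`VLe v w` = the order relation of lifted states (`vvOrder`).

* `exists_move`: `S, S'` chains of states, `S` contained in `S'`, `s` least in `S`, `s'` least in `S'`, `t in S`
  separated, `p z in chU S`. `chain_pt2` for `S'` gives `b` in all `g.U t'`, `t' in S'`. `sep_surj` with `e = g.e`,
  `u = dirU g t`, `i1 = s.1`, `i2 = s.2`, `y0 = p z`, `q = b` (hypotheses: `U_lt1`, `U_lt2` for the state `s`,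
  `h12`, `half`; `dirU_pos`; `b.1`, `b.2` are not special points) gives `y` with positions `b` and the labels
  of `p z`. `cell_move` for the cell `chainSep S s t`: `z'` joined to `z` over `chU S`, `p z' = y in chU S'`.
* `exists_move0`: the same from `S = {(none,none)}` with `chainDia0`, `dia_surj`: `S'` a chain with
  `(none,none) in S'` (it is then the least element), `b` from `chain_pt2`, `l = log (b.2 - b.1)` (`b.1 <> b.2`).
* `of_joined`: `z in v.2.1`, `z'` joined to `z` over `chU S`, `v.1 in S`: `z' in v.2.1` (`comp_joined`, `JoinedIn.mono`,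
  `chU_mono`).
* `mkV z s h` = the lifted state of state `s` that contains `z` (`p z in chU {s}`).
* `v_eq_of`: `z in v.2.1`, `z' in v'.2.1`, `z, z'` joined over `chU S`, `v.1 = v'.1 in S`: `v = v'`.
-/

namespace ASP87

open Complex Topology Set ComplexConjugate

variable {ι : Type} [Fintype ι] [DecidableEq ι] {g : Geo ι} {w1 w2 : ι → ℕ}
variable {Z : Type} [TopologicalSpace Z] {p : Z → YD g w1 w2}

/-- the order relation of lifted states -/
def VLe (v w : VV p) : Prop := StLe v.1 w.1 ∧ (v.2.1 ∩ w.2.1).Nonempty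

/-- lifted state through a point -/
def mkV (z : Z) (s : St ι) (h : p z ∈ chU g w1 w2 {s}) : VV p := ⟨s, compOf p _ z h⟩

theorem mem_mkV (z : Z) (s : St ι) (h : p z ∈ chU g w1 w2 {s}) : z ∈ (mkV z s h).2.1 :=
  mem_compOf_self h

theorem of_joined {v : VV p} {z z' : Z} {S : Set (St ι)} (hz : z ∈ v.2.1) (hv : v.1 ∈ S)
    (h : JoinedIn (p ⁻¹' chU g w1 w2 S) z z') : z' ∈ v.2.1 :=
  (comp_joined hz).2 (h.mono (preimage_mono (chU_mono (singleton_subset_iff.2 hv))))

theorem v_eq_of {v v' : VV p} {z z' : Z} {S : Set (St ι)} (hz : z ∈ v.2.1) (hz' : z' ∈ v'.2.1)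
    (hv : v.1 ∈ S) (hvv : v.1 = v'.1) (h : JoinedIn (p ⁻¹' chU g w1 w2 S) z z') : v = v' := by
  have h1 : z' ∈ v.2.1 := of_joined hz hv h
  obtain ⟨s, C⟩ := v
  obtain ⟨s', C'⟩ := v'
  have hss : s = s' := hvv
  subst hss
  have : C = C' := comp_disj h1 hz'
  rw [this]

theorem exists_move (hp : IsCoveringMap p) {S S' : Set (St ι)} (hSS : S ⊆ S')
    (hS' : ∀ a ∈ S', ∀ b ∈ S', StLe a b ∨ StLe b a) {s s' t : St ι} (hs : s ∈ S)
    (hmin : ∀ a ∈ S, StLe s a) (hs' : s' ∈ S') (hmin' : ∀ a ∈ S', StLe s' a) (ht : t ∈ S)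
    (htt : t.1 ≠ t.2) {z : Z} (hz : p z ∈ chU g w1 w2 S) :
    ∃ z', JoinedIn (p ⁻¹' chU g w1 w2 S) z z' ∧ p z' ∈ chU g w1 w2 S' := by
  obtain ⟨b, hb, hb1, hb2, -⟩ := g.chain_pt2 S' hS' s' hs' hmin'
  have hS : ∀ a ∈ S, ∀ c ∈ S, StLe a c ∨ StLe c a :=
    fun a ha c hc => hS' a (hSS ha) c (hSS hc)
  have hcell := chainSep g w1 w2 S hS s hs hmin t ht htt
  have hzs := hz s hs
  have hbs := hb s (hSS hs)
  obtain ⟨y, hy1, hy2, hyL⟩ := sep_surj g.e g.he (dirU g t) (norm_dirU g t) s.1 s.2 (p z)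
    (fun m hm => g.half ((g.U_lt1 hzs hm).trans g.h12))
    (fun m hm => g.half ((g.U_lt2 hzs hm).trans g.h12)) (dirU_pos g htt (hz t ht)) b
    (mem_ball_zero_iff.2 hbs.1) (mem_ball_zero_iff.2 hbs.2.1)
    (fun m hm => g.half ((g.U_lt1 hbs hm).trans g.h12))
    (fun m hm => g.half ((g.U_lt2 hbs hm).trans g.h12)) (dirU_pos g htt (hb t (hSS ht)))
    (fun m _ => hb1 m) (fun m _ => hb2 m)
  have hyS' : y ∈ chU g w1 w2 S' := fun t' ht' => by
    rw [hy1, hy2]
    exact hb t' ht'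
  obtain ⟨z', hz', he⟩ := cell_move hp hcell hz (chU_mono hSS hyS') hyL
  exact ⟨z', hz', by rw [he]; exact hyS'⟩

theorem exists_move0 (hp : IsCoveringMap p) {S' : Set (St ι)}
    (hS' : ∀ a ∈ S', ∀ b ∈ S', StLe a b ∨ StLe b a) (h0 : ((none, none) : St ι) ∈ S')
    {z : Z} (hz : p z ∈ chU g w1 w2 {((none, none) : St ι)}) :
    ∃ z', JoinedIn (p ⁻¹' chU g w1 w2 {((none, none) : St ι)}) z z' ∧ p z' ∈ chU g w1 w2 S' := by
  obtain ⟨b, hb, hb1, hb2, hb3⟩ := g.chain_pt2 S' hS' (none, none) h0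
    (fun t _ => ⟨Or.inl rfl, Or.inl rfl⟩)
  have hzs := hz (none, none) (mem_singleton _)
  have hbs := hb (none, none) h0
  have hn : ∀ m : ι, ((none, none) : St ι).1 ≠ some m := fun m h => by cases h
  have hn' : ∀ m : ι, ((none, none) : St ι).2 ≠ some m := fun m h => by cases h
  obtain ⟨y, hy1, hy2, -, hyL⟩ := dia_surj g.e g.he (p z)
    (fun m => g.half ((g.U_lt1 hzs (hn m)).trans g.h12))
    (fun m => g.half ((g.U_lt2 hzs (hn' m)).trans g.h12)) b
    (mem_ball_zero_iff.2 hbs.1) (mem_ball_zero_iff.2 hbs.2.1)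
    (fun m => g.half ((g.U_lt1 hbs (hn m)).trans g.h12))
    (fun m => g.half ((g.U_lt2 hbs (hn' m)).trans g.h12)) (log (b.2 - b.1))
    (exp_log (sub_ne_zero.2 (Ne.symm hb3)))
  have hyS' : y ∈ chU g w1 w2 S' := fun t' ht' => by
    rw [hy1, hy2]
    exact hb t' ht'
  obtain ⟨z', hz', he⟩ := cell_move hp (chainDia0 g w1 w2) hz
    (chU_mono (singleton_subset_iff.2 h0) hyS') hyL
  exact ⟨z', hz', by rw [he]; exact hyS'⟩

theorem v_strict {v w : VV p} (h : VLe v w) (hs : v.1 = w.1) : v = w := by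
  obtain ⟨-, z, hz1, hz2⟩ := h
  obtain ⟨s, C⟩ := v
  obtain ⟨s', C'⟩ := w
  have hss : s = s' := hs
  subst hss
  have : C = C' := comp_disj hz1 hz2
  rw [this]

end ASP87
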