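import Pool.Agent.ASP87.VGood
import Pool.Agent.ASP87.VAM
import Pool.Agent.ASP87.VA13
import Pool.Agent.ASP87.VA2
import Pool.Agent.ASP87.VA47
import Pool.Agent.ASP87.VA56
import Pool.Agent.ASP87.TPPMid
import Pool.Agent.ASP87.TPPFl
import Pool.Agent.ASP87.PFinal

/-!
# ASP87/WcZ: the universal cover of the two-particle space is weakly contractible

* `tppV`: all axioms from VAM, VA13, VA2, VA47, VA56, `TT_acyc` (`O.sc i`, `O.lpc i`, `(O.iis i).hq.continuous`), `line_isLine`
  (`hw1 i`, `hw2 i`), `lineA_inj`. The order of `vvOrder hp` is `VLe` by definition. `K1mono` has the hypothesis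
  `(st v).1 = some i` etc.: `va_K1mono`.
* `exists_00`: if some `z` is over a separated state `t` then there is a point over `(none,none)`:
  `exists_move` with `S = {t}`, `S' = {(none,none), t}`, `s = t`, `s' = (none,none)`.
* `wcZ`: `Z` is nonempty (simply connected spaces are path connected).
  Case 1: some point `z0` is over `(none,none)`. `d i = compOf (q i) OS (f i z0)` (membership: `os_of_mem` with
  `mkV z0 (none,none)`). `tppV` gives `TPP`, `rk v = rkS v.1` is strictly monotone (`TPP.rk_strictMono`), `<= 2`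
  (`rkS_le`). `GoodCov` = `vv_good` (the components of `(some i, some i)` are WC by `wcU`: `C.1` is of the form
  `{z' | JoinedIn .. z z'}`). `PSC (VV p)`: `psc_of_cover` with `GoodCov.nCov`. `PHyp (VV p)`: `mid` = `TPP.mid`,
  `flUp` = `TPP.flUp`, `flDown` = `TPP.flDn`. `o = mkV z0 (none,none)`: `v <= o` gives `StLe v.1 (none,none)`, so
  `v.1 = (none,none)`, `v_strict`. `ball_even`, `ball_odd`, `wc_of_gates`.
  Case 2: no point is over `(none,none)`. By `exists_00` no point is over a separated state; by `U_cover` every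
  point has a state, so it is `(some i, some i)` for some `i`. The sets `A i = p^-1 (chU {(some i, some i)})` are
  open, cover `Z` and are pairwise disjoint (`U_chain`: two states of a point are comparable,
  `(some i, some i)` and `(some j, some j)` are comparable only for `i = j`). `Z` is connected, so `Z = A i` for
  one `i` (`z0 in A i`; `A i` is clopen). `Z` path connected: `{z' | JoinedIn (A i) z0 z'} = Z`: `wcU` gives
  `WC` of this set, transport along the homeomorphism with `univ` (`Homeomorph.Set.univ`; `ext_homeo`).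
-/

namespace ASP87

open Complex Topology Set ComplexConjugate

variable {ι : Type} [Fintype ι] [DecidableEq ι] {g : Geo ι} {w1 w2 : ι → ℕ}
variable {Z : Type} [TopologicalSpace Z] {p : Z → YD g w1 w2}

theorem tppV (hp : IsCoveringMap p) (O : OneSys p) (hw1 : ∀ i, w1 i ≠ 1) (hw2 : ∀ i, w2 i ≠ 1)
    (d : ∀ i, XV O i) :
    @TPP ι (VV p) (vvOrder hp) (XV O) (fun i => TT (O.q i)) (fun v => v.1) k1V k2V K1V K2V
      (phiV O d) (fun i => CG (TT (O.q i))) (AV O) (fun i v => LV O d true i v)
      (fun i v => LV O d false i v) := by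
  let _ := vvOrder hp
  exact
    { mono := fun v w h => h.1
      strict := fun v w h hs => v_strict (show VLe v w from h) hs
      k1mono := fun v w h m hm => va_k1mono hp (show VLe v w from h) hm
      k2mono := fun v w h m hm => va_k2mono hp (show VLe v w from h) hm
      K1mono := fun v w i h h1 h2 h3 => va_K1mono hp (show VLe v w from h) h1 h2 h3
      K2mono := fun v w i h h1 h2 h3 => va_K2mono hp (show VLe v w from h) h1 h2 h3
      K1odd := fun v i h1 h2 => va_K1odd hp h1 h2
      K2even := fun v i h1 h2 => va_K2even hp h1 h2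
      A1a := fun v u i j h hv hu hij => va1a hp (show VLe v u from h) hv hu hij
      A1b := fun v u i j h hv hu hij => va1b hp (show VLe v u from h) hv hu hij
      A2a := fun v w w' i h h' hw hw' hK =>
        va2a hp (show VLe v w from h) (show VLe v w' from h') hw hw' hK
      A2b := fun v w w' j h h' hw hw' hK =>
        va2b hp (show VLe v w from h) (show VLe v w' from h') hw hw' hK
      A2c := fun v w w' i j h h' hw hw' hij hK =>
        va2c hp (show VLe v w from h) (show VLe v w' from h') hw hw' hij hK
      A2d := fun v w w' i h h' hv hw hw' =>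
        va2d hp (show VLe v w from h) (show VLe v w' from h') hv hw hw'
      A3 := fun v i h => va3 hp h
      A4 := fun v v' u h h' hv hu h1 h2 =>
        va4 hp (show VLe v u from h) (show VLe v' u from h') hv hu h1 h2
      A5a := fun v v' x i h h' hv hv' h1 h2 =>
        va5a O d (show VLe v x from h) (show VLe v' x from h') hv hv' h1 h2
      A5b := fun v v' u i h h' hv hv' hu hphi =>
        va5b O d (show VLe v u from h) (show VLe v' u from h') hv hv' hu hphi
      A5c := fun v v' i hv hv' hphi => va5c O d hv hv' hphi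
      acyc := fun i => TT_acyc (O.iis i).hq.continuous
      line := fun i xi => line_isLine (O.iis i).hq (g.he i) (geo_hr g i) (hw1 i) (hw2 i) xi
      A6inj := fun i xi xi' k h h' => lineA_inj (O.iis i).hq (g.he i) (geo_hr g i) h h'
      A6a := fun v x i h hv h1 h2 => va6a O d (show VLe v x from h) hv h1 h2
      A6b := fun v x i h hv h1 h2 => va6b O d (show VLe v x from h) hv h1 h2
      A7 := fun u u' i j hu hu' hij => va7 hp hu hu' hij }

theorem exists_00 (hp : IsCoveringMap p) {z : Z} {t : St ι} (hz : p z ∈ chU g w1 w2 {t})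
    (htt : t.1 ≠ t.2) : ∃ z', p z' ∈ chU g w1 w2 {((none, none) : St ι)} := by
  have hbot : ∀ a : St ι, StLe ((none, none) : St ι) a := fun a => ⟨Or.inl rfl, Or.inl rfl⟩
  obtain ⟨z', -, hz'⟩ := exists_move (p := p) hp (S := {t}) (S' := {((none, none) : St ι), t})
    (by rintro a rfl; exact Or.inr rfl)
    (by
      rintro a (rfl | rfl) b hb
      · exact Or.inl (hbot b)
      · rcases hb with rfl | rfl
        · exact Or.inr (hbot _)
        · exact Or.inl (StLe_refl' _))
    (s := t) (s' := (none, none)) (t := t) rfl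
    (by rintro a rfl; exact StLe_refl' _) (Or.inl rfl) (fun a _ => hbot a) rfl htt hz
  refine ⟨z', fun a ha => hz' a ?_⟩
  exact Or.inl ha

private theorem wcz_case1 (hp : IsCoveringMap p) [SimplyConnectedSpace Z]
    [LocallyPathConnectedSpace Z] (O : OneSys p) (hw1 : ∀ i, w1 i ≠ 1) (hw2 : ∀ i, w2 i ≠ 1)
    {z0 : Z} (hz0 : p z0 ∈ chU g w1 w2 {((none, none) : St ι)}) : WC Z := by
  let _ := vvOrder hp
  have hmem := mem_mkV z0 _ hz0
  have T := tppV hp O hw1 hw2 (fun i => compOf (O.q i) _ (O.f i z0)
    (os_of_mem O hmem (fun h => by cases h) (fun h => by cases h)))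
  have good : GoodCov (fun v : VV p => v.2.1) := vv_good hp (by
    rintro i ⟨C, z, hz, rfl⟩
    exact wcU (O.iis i) (O.wc i) hz)
  have psc : PSC (VV p) := psc_of_cover good.nCov
  have P : PHyp (VV p) :=
    ⟨⟨fun v => rkS v.1, 2, T.rk_strictMono, fun v => rkS_le v.1⟩,
      fun a a' w w' h1 h2 h3 h4 => T.mid h1 h2 h3 h4,
      fun b x y z hx hy hz h1 h2 h3 => T.flUp hx hy hz h1 h2 h3,
      fun b x y z hx hy hz h1 h2 h3 => T.flDn hx hy hz h1 h2 h3, psc⟩
  have ho : ∀ v : VV p, v ≤ mkV z0 _ hz0 → v = mkV z0 _ hz0 := by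
    intro v hv
    have hv' : VLe v (mkV z0 _ hz0) := hv
    refine v_strict hv' ?_
    have h1 : StLe v.1 ((none, none) : St ι) := hv'.1
    refine Prod.ext ?_ ?_
    · rcases h1.1 with h | h
      · exact h
      · exact h
    · rcases h1.2 with h | h
      · exact h
      · exact h
  exact wc_of_gates good (fun v => rkS v.1) T.rk_strictMono 2 (fun v => rkS_le v.1)
    (mkV z0 _ hz0) ho
    (fun r hr x hx y hy y' hy' h1 h2 => ball_even P ho hr hx hy hy' h1 h2)
    (fun r hr x hx y hy y' hy' h1 h2 => ball_odd P ho hr hx hy hy' h1 h2)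

theorem wcZ (hp : IsCoveringMap p) [SimplyConnectedSpace Z] [LocallyPathConnectedSpace Z]
    (O : OneSys p) (hw1 : ∀ i, w1 i ≠ 1) (hw2 : ∀ i, w2 i ≠ 1) : WC Z := by
  by_cases h0 : ∃ z0, p z0 ∈ chU g w1 w2 {((none, none) : St ι)}
  · obtain ⟨z0, hz0⟩ := h0
    exact wcz_case1 hp O hw1 hw2 hz0
  · have hst : ∀ z, ∃ i, p z ∈ chU g w1 w2 {((some i, some i) : St ι)} := by
      intro z
      have h1 : ‖c1 (p z)‖ < 1 := by
        have h : c1 (p z) ∈ Metric.ball (0 : ℂ) 1 := (p z).2.1
        simpa using h
      have h2 : ‖c2 (p z)‖ < 1 := by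
        have h : c2 (p z) ∈ Metric.ball (0 : ℂ) 1 := (p z).2.2.1
        simpa using h
      obtain ⟨s, hs⟩ := g.U_cover h1 h2
      have hs' : p z ∈ chU g w1 w2 {s} := by
        intro t ht
        obtain rfl : t = s := ht
        exact hs
      by_cases hss : s.1 = s.2
      · obtain ⟨a, b⟩ := s
        have hab : a = b := hss
        subst hab
        cases a with
        | none => exact absurd ⟨z, hs'⟩ h0
        | some i => exact ⟨i, hs'⟩
      · exact absurd (exists_00 hp hs' hss) h0
    obtain ⟨z0⟩ : Nonempty Z := inferInstance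
    obtain ⟨i, hi⟩ := hst z0
    have hop : ∀ j : ι, IsOpen (p ⁻¹' chU g w1 w2 {((some j, some j) : St ι)}) := fun j =>
      (chU_open _).preimage hp.continuous
    have hcompl : (p ⁻¹' chU g w1 w2 {((some i, some i) : St ι)})ᶜ =
        ⋃ j ∈ {j : ι | j ≠ i}, p ⁻¹' chU g w1 w2 {((some j, some j) : St ι)} := by
      ext z
      constructor
      · intro hz
        obtain ⟨j, hj⟩ := hst z
        refine mem_iUnion₂.2 ⟨j, fun hji => hz ?_, hj⟩
        rw [← hji]
        exact hj
      · intro hz hz'
        obtain ⟨j, hj, hjz⟩ := mem_iUnion₂.1 hz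
        have a1 := hjz _ (mem_singleton _)
        have a2 := hz' _ (mem_singleton _)
        apply hj
        rcases g.U_chain a1 a2 with h | h
        · rcases h.1 with h | h
          · cases h
          · exact Option.some_injective _ h
        · rcases h.1 with h | h
          · cases h
          · exact (Option.some_injective _ h).symm
    have hclopen : IsClopen (p ⁻¹' chU g w1 w2 {((some i, some i) : St ι)}) := by
      refine ⟨?_, hop i⟩
      rw [← isOpen_compl_iff, hcompl]
      exact isOpen_biUnion fun j _ => hop j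
    have huniv : p ⁻¹' chU g w1 w2 {((some i, some i) : St ι)} = univ :=
      hclopen.eq_univ ⟨z0, hi⟩
    have hall : {z' : Z | JoinedIn (p ⁻¹' chU g w1 w2 {((some i, some i) : St ι)}) z0 z'} =
        univ := by
      ext z'
      refine ⟨fun _ => trivial, fun _ => ?_⟩
      show JoinedIn (p ⁻¹' chU g w1 w2 {((some i, some i) : St ι)}) z0 z'
      rw [huniv]
      exact joinedIn_univ.2 (PathConnectedSpace.joined z0 z')
    have hwc := wcU (O.iis i) (O.wc i) hi
    rw [hall] at hwc
    exact ⟨⟨z0⟩, fun d => ext_homeo (Homeomorph.Set.univ Z) (hwc.2 d)⟩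

end ASP87
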